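import Pool.Agent.ART.Defs

set_option autoImplicit false
set_option linter.unusedSectionVars false

/-! Anti-Ramsey numbers of vertex-disjoint triangles (MP_e56f3d_co): basic facts. -/

namespace Pool.Agent.ART

open Finset

variable {V : Type}

section noDec

open Classical in
lemma dg_def (G : SimpleGraph V) (A : Finset V) (v : V) :
    dg G A v = (A.filter (fun u => G.Adj v u)).card := rfl

open Classical in
lemma dg_eq_sum (G : SimpleGraph V) (A : Finset V) (v : V) :
    dg G A v = ∑ u ∈ A, if G.Adj v u then 1 else 0 := by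
  rw [dg_def, Finset.card_filter]

lemma dg_le_card (G : SimpleGraph V) (A : Finset V) (v : V) : dg G A v ≤ A.card := by
  classical
  rw [dg_def]
  exact Finset.card_filter_le _ _

lemma dg_mono (G : SimpleGraph V) {A B : Finset V} (h : A ⊆ B) (v : V) : dg G A v ≤ dg G B v := by
  classical
  rw [dg_def, dg_def]
  exact Finset.card_le_card (Finset.filter_subset_filter _ h)

lemma dg_mono_graph {G G' : SimpleGraph V} (h : G ≤ G') (A : Finset V) (v : V) :
    dg G A v ≤ dg G' A v := by
  classical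
  rw [dg_def, dg_def]
  apply Finset.card_le_card
  intro u hu
  rw [Finset.mem_filter] at hu ⊢
  exact ⟨hu.1, h hu.2⟩

lemma dg_empty (G : SimpleGraph V) (v : V) : dg G ∅ v = 0 := by
  classical
  rw [dg_def]
  simp

lemma dg_eq_zero_iff (G : SimpleGraph V) (A : Finset V) (v : V) :
    dg G A v = 0 ↔ ∀ u ∈ A, ¬ G.Adj v u := by
  classical
  rw [dg_def, Finset.card_eq_zero, Finset.filter_eq_empty_iff]

lemma eb_comm (G : SimpleGraph V) (A B : Finset V) : eb G A B = eb G B A := by
  classical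
  unfold eb
  simp only [dg_eq_sum]
  rw [Finset.sum_comm]
  refine Finset.sum_congr rfl fun v _ => Finset.sum_congr rfl fun u _ => ?_
  simp only [G.adj_comm]

lemma eb_self (G : SimpleGraph V) (A : Finset V) : eb G A A = e2 G A := rfl

lemma eb_le (G : SimpleGraph V) (A B : Finset V) : eb G A B ≤ A.card * B.card := by
  unfold eb
  calc ∑ v ∈ A, dg G B v ≤ ∑ _v ∈ A, B.card := Finset.sum_le_sum fun v _ => dg_le_card G B v
    _ = A.card * B.card := by rw [Finset.sum_const, smul_eq_mul]

lemma HasT.zero (G : SimpleGraph V) (A : Finset V) : HasT G A 0 :=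
  ⟨∅, ⟨by simp, by simp, by simp⟩, rfl⟩

lemma TF.mono {G : SimpleGraph V} {A B : Finset V} {T : Finset (Finset V)} (h : TF G A T)
    (hAB : A ⊆ B) : TF G B T :=
  ⟨fun t ht => (h.sub t ht).trans hAB, h.clq, h.dis⟩

lemma TF.mono_graph {G G' : SimpleGraph V} {A : Finset V} {T : Finset (Finset V)} (h : TF G A T)
    (hG : G ≤ G') : TF G' A T :=
  ⟨h.sub, fun t ht => (h.clq t ht).mono hG, h.dis⟩

lemma TF.subset {G : SimpleGraph V} {A : Finset V} {T T' : Finset (Finset V)} (h : TF G A T)
    (hT : T' ⊆ T) : TF G A T' :=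
  ⟨fun t ht => h.sub t (hT ht), fun t ht => h.clq t (hT ht),
    fun t ht t' ht' => h.dis t (hT ht) t' (hT ht')⟩

lemma HasT.mono {G : SimpleGraph V} {A B : Finset V} {k : ℕ} (h : HasT G A k) (hAB : A ⊆ B) :
    HasT G B k := by
  obtain ⟨T, hT, hc⟩ := h
  exact ⟨T, hT.mono hAB, hc⟩

lemma HasT.mono_graph {G G' : SimpleGraph V} {A : Finset V} {k : ℕ} (h : HasT G A k)
    (hG : G ≤ G') : HasT G' A k := by
  obtain ⟨T, hT, hc⟩ := h
  exact ⟨T, hT.mono_graph hG, hc⟩

lemma HasT.le {G : SimpleGraph V} {A : Finset V} {k l : ℕ} (h : HasT G A k) (hl : l ≤ k) :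
    HasT G A l := by
  obtain ⟨T, hT, hc⟩ := h
  obtain ⟨T', hT', hc'⟩ := Finset.exists_subset_card_eq (by omega : l ≤ T.card)
  exact ⟨T', hT.subset hT', hc'⟩

lemma Tri.rot {G : SimpleGraph V} {x y z : V} (h : Tri G x y z) : Tri G y z x :=
  ⟨h.2.1, h.2.2.symm, h.1.symm⟩

lemma Tri.swap {G : SimpleGraph V} {x y z : V} (h : Tri G x y z) : Tri G y x z :=
  ⟨h.1.symm, h.2.2, h.2.1⟩

end noDec

variable [DecidableEq V]

lemma dg_union (G : SimpleGraph V) {A B : Finset V} (h : Disjoint A B) (v : V) :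
    dg G (A ∪ B) v = dg G A v + dg G B v := by
  classical
  rw [dg_eq_sum, dg_eq_sum, dg_eq_sum, Finset.sum_union h]

lemma dg_union_le (G : SimpleGraph V) (A B : Finset V) (v : V) :
    dg G (A ∪ B) v ≤ dg G A v + dg G B v := by
  classical
  rw [dg_def, dg_def, dg_def, Finset.filter_union]
  exact Finset.card_union_le _ _

lemma dg_sdiff (G : SimpleGraph V) {A B : Finset V} (h : B ⊆ A) (v : V) :
    dg G (A \ B) v + dg G B v = dg G A v := by
  rw [← dg_union G Finset.sdiff_disjoint, Finset.sdiff_union_of_subset h]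

lemma dg_le_sdiff (G : SimpleGraph V) (A B : Finset V) (v : V) :
    dg G A v ≤ dg G (A \ B) v + B.card := by
  calc dg G A v ≤ dg G ((A \ B) ∪ B) v := dg_mono G (by
          intro x hx
          rw [Finset.mem_union, Finset.mem_sdiff]
          tauto) v
    _ ≤ dg G (A \ B) v + dg G B v := dg_union_le G _ _ v
    _ ≤ dg G (A \ B) v + B.card := by
      have := dg_le_card G B v
      omega

lemma dg_erase (G : SimpleGraph V) (A : Finset V) (u v : V) :
    dg G (A.erase u) v ≤ dg G A v ∧ dg G A v ≤ dg G (A.erase u) v + 1 := by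
  refine ⟨dg_mono G (Finset.erase_subset _ _) v, ?_⟩
  rw [Finset.erase_eq]
  have := dg_le_sdiff G A {u} v
  simpa using this

lemma dg_erase_self (G : SimpleGraph V) (A : Finset V) (v : V) :
    dg G (A.erase v) v = dg G A v := by
  classical
  rw [dg_def, dg_def]
  congr 1
  ext u
  rw [Finset.mem_filter, Finset.mem_filter, Finset.mem_erase]
  constructor
  · rintro ⟨⟨_, h⟩, h'⟩
    exact ⟨h, h'⟩
  · rintro ⟨h, h'⟩
    exact ⟨⟨h'.ne', h⟩, h'⟩

lemma dg_lt_card (G : SimpleGraph V) {A : Finset V} {v : V} (hv : v ∈ A) :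
    dg G A v + 1 ≤ A.card := by
  rw [← dg_erase_self]
  have h1 := dg_le_card G (A.erase v) v
  have h2 := Finset.card_erase_add_one hv
  omega

lemma eb_union_left (G : SimpleGraph V) {A B : Finset V} (h : Disjoint A B) (C : Finset V) :
    eb G (A ∪ B) C = eb G A C + eb G B C := by
  unfold eb
  rw [Finset.sum_union h]

lemma eb_union_right (G : SimpleGraph V) {A B : Finset V} (h : Disjoint A B) (C : Finset V) :
    eb G C (A ∪ B) = eb G C A + eb G C B := by
  rw [eb_comm, eb_union_left G h, eb_comm G A, eb_comm G B]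

lemma e2_union (G : SimpleGraph V) {A B : Finset V} (h : Disjoint A B) :
    e2 G (A ∪ B) = e2 G A + 2 * eb G A B + e2 G B := by
  rw [← eb_self, eb_union_left G h, eb_union_right G h, eb_union_right G h, eb_self, eb_self,
    eb_comm G B A]
  ring

lemma e2_sdiff (G : SimpleGraph V) {A B : Finset V} (h : B ⊆ A) :
    e2 G A = e2 G (A \ B) + 2 * eb G (A \ B) B + e2 G B := by
  rw [← e2_union G Finset.sdiff_disjoint, Finset.sdiff_union_of_subset h]

/-- removing a vertex -/
lemma e2_erase (G : SimpleGraph V) {A : Finset V} {v : V} (hv : v ∈ A) :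
    e2 G A = e2 G (A.erase v) + 2 * dg G A v := by
  have h := e2_sdiff G (A := A) (B := {v}) (by simpa using hv)
  rw [← Finset.erase_eq] at h
  rw [h, eb_comm]
  unfold eb e2
  rw [Finset.sum_singleton, Finset.sum_singleton, dg_erase_self]
  have h0 : dg G {v} v = 0 := by
    rw [dg_eq_zero_iff]
    intro u hu
    rw [Finset.mem_singleton] at hu
    rw [hu]
    exact G.loopless.irrefl v
  rw [h0]
  ring

/-- removing a set: `2 e(A) - 2 e(A \ B) ≤ 2 ∑_{B} d` and exact formula -/
lemma e2_sdiff' (G : SimpleGraph V) {A B : Finset V} (h : B ⊆ A) :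
    e2 G A + e2 G B = e2 G (A \ B) + 2 * ∑ v ∈ B, dg G A v := by
  have h1 : ∑ v ∈ B, dg G A v = eb G (A \ B) B + e2 G B := by
    rw [eb_comm, ← eb_self]
    unfold eb
    rw [← Finset.sum_add_distrib]
    exact Finset.sum_congr rfl fun v _ => (dg_sdiff G h v).symm
  rw [e2_sdiff G h, h1]
  ring

lemma e2_mono (G : SimpleGraph V) {A B : Finset V} (h : B ⊆ A) : e2 G B ≤ e2 G A := by
  rw [e2_sdiff G h]
  omega

lemma e2_le (G : SimpleGraph V) (A : Finset V) : e2 G A ≤ A.card * (A.card - 1) := by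
  unfold e2
  calc ∑ v ∈ A, dg G A v ≤ ∑ _v ∈ A, (A.card - 1) := Finset.sum_le_sum fun v hv => by
        have := dg_lt_card G hv
        omega
    _ = A.card * (A.card - 1) := by rw [Finset.sum_const, smul_eq_mul]

omit [DecidableEq V] in
lemma isNClique_iff_tri (G : SimpleGraph V) [DecidableEq V] (t : Finset V) :
    G.IsNClique 3 t ↔ ∃ x y z, Tri G x y z ∧ t = {x, y, z} := by
  rw [SimpleGraph.is3Clique_iff]
  constructor
  · rintro ⟨a, b, c, h1, h2, h3, rfl⟩
    exact ⟨a, b, c, ⟨h1, h3, h2⟩, rfl⟩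
  · rintro ⟨a, b, c, ⟨h1, h2, h3⟩, rfl⟩
    exact ⟨a, b, c, h1, h3, h2, rfl⟩

lemma Tri.clique {G : SimpleGraph V} {x y z : V} (h : Tri G x y z) :
    G.IsNClique 3 {x, y, z} := (isNClique_iff_tri G _).2 ⟨x, y, z, h, rfl⟩

lemma Tri.sum {G : SimpleGraph V} {x y z : V} (h : Tri G x y z) (f : V → ℕ) :
    ∑ v ∈ ({x, y, z} : Finset V), f v = f x + f y + f z := by
  rw [Finset.sum_insert, Finset.sum_insert, Finset.sum_singleton]
  · ring
  · simp [h.2.1.ne]
  · simp [h.1.ne, h.2.2.ne]

/-- removing a triangle -/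
lemma e2_triangle (G : SimpleGraph V) {A : Finset V} {x y z : V} (h : Tri G x y z)
    (hA : ({x, y, z} : Finset V) ⊆ A) :
    e2 G A + 6 = e2 G (A \ {x, y, z}) + 2 * (dg G A x + dg G A y + dg G A z) := by
  classical
  have h1 := e2_sdiff' G hA
  rw [h.sum] at h1
  have h2 : e2 G ({x, y, z} : Finset V) = 6 := by
    unfold e2
    rw [h.sum]
    have hx : dg G {x, y, z} x = 2 := by
      rw [dg_def]
      have : ({x, y, z} : Finset V).filter (fun u => G.Adj x u) = {y, z} := by
        ext u
        simp only [Finset.mem_filter, Finset.mem_insert, Finset.mem_singleton]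
        constructor
        · rintro ⟨rfl | rfl | rfl, hu⟩
          · exact absurd hu (G.loopless.irrefl _)
          · exact Or.inl rfl
          · exact Or.inr rfl
        · rintro (rfl | rfl)
          · exact ⟨Or.inr (Or.inl rfl), h.1⟩
          · exact ⟨Or.inr (Or.inr rfl), h.2.2⟩
      rw [this, Finset.card_pair h.2.1.ne]
    have hy : dg G {x, y, z} y = 2 := by
      rw [dg_def]
      have : ({x, y, z} : Finset V).filter (fun u => G.Adj y u) = {x, z} := by
        ext u
        simp only [Finset.mem_filter, Finset.mem_insert, Finset.mem_singleton]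
        constructor
        · rintro ⟨rfl | rfl | rfl, hu⟩
          · exact Or.inl rfl
          · exact absurd hu (G.loopless.irrefl _)
          · exact Or.inr rfl
        · rintro (rfl | rfl)
          · exact ⟨Or.inl rfl, h.1.symm⟩
          · exact ⟨Or.inr (Or.inr rfl), h.2.1⟩
      rw [this, Finset.card_pair h.2.2.ne]
    have hz : dg G {x, y, z} z = 2 := by
      rw [dg_def]
      have : ({x, y, z} : Finset V).filter (fun u => G.Adj z u) = {x, y} := by
        ext u
        simp only [Finset.mem_filter, Finset.mem_insert, Finset.mem_singleton]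
        constructor
        · rintro ⟨rfl | rfl | rfl, hu⟩
          · exact Or.inl rfl
          · exact Or.inr rfl
          · exact absurd hu (G.loopless.irrefl _)
        · rintro (rfl | rfl)
          · exact ⟨Or.inl rfl, h.2.2.symm⟩
          · exact ⟨Or.inr (Or.inl rfl), h.2.1.symm⟩
      rw [this, Finset.card_pair h.1.ne]
    rw [hx, hy, hz]
  rw [h2] at h1
  exact h1

/-! ### families of triangles -/

lemma mem_vT {T : Finset (Finset V)} {v : V} : v ∈ vT T ↔ ∃ t ∈ T, v ∈ t := by
  unfold vT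
  simp

lemma mem_vM {M : Finset (V × V)} {v : V} : v ∈ vM M ↔ ∃ p ∈ M, v = p.1 ∨ v = p.2 := by
  unfold vM
  simp only [Finset.mem_union, Finset.mem_image]
  constructor
  · rintro (⟨p, hp, rfl⟩ | ⟨p, hp, rfl⟩)
    · exact ⟨p, hp, Or.inl rfl⟩
    · exact ⟨p, hp, Or.inr rfl⟩
  · rintro ⟨p, hp, rfl | rfl⟩
    · exact Or.inl ⟨p, hp, rfl⟩
    · exact Or.inr ⟨p, hp, rfl⟩

lemma TF.vT_sub {G : SimpleGraph V} {A : Finset V} {T : Finset (Finset V)} (h : TF G A T) :
    vT T ⊆ A := by
  intro v hv
  obtain ⟨t, ht, hvt⟩ := mem_vT.1 hv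
  exact h.sub t ht hvt

lemma TF.card_vT {G : SimpleGraph V} {A : Finset V} {T : Finset (Finset V)} (h : TF G A T) :
    (vT T).card = 3 * T.card := by
  unfold vT
  rw [Finset.card_biUnion (t := id) (fun t ht t' ht' hne => h.dis t ht t' ht' hne)]
  simp only [id]
  rw [Finset.sum_congr rfl (fun t ht => (h.clq t ht).card_eq), Finset.sum_const, smul_eq_mul]
  ring

lemma MF.vM_sub {G : SimpleGraph V} {A : Finset V} {M : Finset (V × V)} (h : MF G A M) :
    vM M ⊆ A := by
  intro v hv
  obtain ⟨p, hp, hv | hv⟩ := mem_vM.1 hv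
  · rw [hv]; exact (h.mem p hp).1
  · rw [hv]; exact (h.mem p hp).2.1

lemma MF.card_vM {G : SimpleGraph V} {A : Finset V} {M : Finset (V × V)} (h : MF G A M) :
    (vM M).card = 2 * M.card := by
  unfold vM
  rw [Finset.card_union_of_disjoint, Finset.card_image_of_injOn, Finset.card_image_of_injOn]
  · ring
  · intro p hp q hq hpq
    by_contra hne
    exact (h.dis p hp q hq hne).2.2.2 hpq
  · intro p hp q hq hpq
    by_contra hne
    exact (h.dis p hp q hq hne).1 hpq
  · rw [Finset.disjoint_left]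
    intro v hv hv'
    obtain ⟨p, hp, rfl⟩ := Finset.mem_image.1 hv
    obtain ⟨q, hq, hpq⟩ := Finset.mem_image.1 hv'
    by_cases hne : p = q
    · subst hne
      exact (h.mem p hp).2.2.ne hpq.symm
    · exact (h.dis p hp q hq hne).2.1 hpq.symm

lemma MF.mono {G : SimpleGraph V} {A B : Finset V} {M : Finset (V × V)} (h : MF G A M)
    (hAB : A ⊆ B) : MF G B M :=
  ⟨fun p hp => ⟨hAB (h.mem p hp).1, hAB (h.mem p hp).2.1, (h.mem p hp).2.2⟩, h.dis⟩

lemma MF.subset {G : SimpleGraph V} {A : Finset V} {M M' : Finset (V × V)} (h : MF G A M)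
    (hM : M' ⊆ M) : MF G A M' :=
  ⟨fun p hp => h.mem p (hM hp), fun p hp q hq => h.dis p (hM hp) q (hM hq)⟩

lemma HasM.le {G : SimpleGraph V} {A : Finset V} {k l : ℕ} (h : HasM G A k) (hl : l ≤ k) :
    HasM G A l := by
  obtain ⟨T, hT, hc⟩ := h
  obtain ⟨T', hT', hc'⟩ := Finset.exists_subset_card_eq (by omega : l ≤ T.card)
  exact ⟨T', hT.subset hT', hc'⟩

lemma HasM.mono {G : SimpleGraph V} {A B : Finset V} {k : ℕ} (h : HasM G A k) (hAB : A ⊆ B) :
    HasM G B k := by
  obtain ⟨T, hT, hc⟩ := h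
  exact ⟨T, hT.mono hAB, hc⟩

/-- adding a triangle to a family -/
lemma TF.insert {G : SimpleGraph V} {A : Finset V} {T : Finset (Finset V)} (h : TF G A T)
    {x y z : V} (ht : Tri G x y z) (hA : ({x, y, z} : Finset V) ⊆ A)
    (hd : Disjoint ({x, y, z} : Finset V) (vT T)) :
    TF G A (insert {x, y, z} T) ∧ (insert {x, y, z} T).card = T.card + 1 := by
  have hdis : ∀ t ∈ T, Disjoint ({x, y, z} : Finset V) t := by
    intro t htT
    rw [Finset.disjoint_left] at hd ⊢
    intro v hv hvt
    exact hd hv (mem_vT.2 ⟨t, htT, hvt⟩)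
  have hnot : ({x, y, z} : Finset V) ∉ T := by
    intro hmem
    have := hdis _ hmem
    rw [disjoint_self, Finset.bot_eq_empty] at this
    exact Finset.insert_ne_empty _ _ this
  refine ⟨⟨?_, ?_, ?_⟩, Finset.card_insert_of_notMem hnot⟩
  · intro t htT
    rw [Finset.mem_insert] at htT
    rcases htT with rfl | htT
    · exact hA
    · exact h.sub t htT
  · intro t htT
    rw [Finset.mem_insert] at htT
    rcases htT with rfl | htT
    · exact ht.clique
    · exact h.clq t htT
  · intro t htT t' htT' hne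
    rw [Finset.mem_insert] at htT htT'
    rcases htT with rfl | htT <;> rcases htT' with rfl | htT'
    · exact absurd rfl hne
    · exact hdis _ htT'
    · exact (hdis _ htT).symm
    · exact h.dis t htT t' htT' hne

lemma HasT.insert {G : SimpleGraph V} {A : Finset V} {k : ℕ} {x y z : V}
    (h : HasT G (A \ {x, y, z}) k) (ht : Tri G x y z) (hA : ({x, y, z} : Finset V) ⊆ A) :
    HasT G A (k + 1) := by
  obtain ⟨T, hT, hc⟩ := h
  obtain ⟨h1, h2⟩ := (hT.mono (Finset.sdiff_subset)).insert ht hA (by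
    rw [Finset.disjoint_left]
    intro v hv hv'
    have := hT.vT_sub hv'
    rw [Finset.mem_sdiff] at this
    exact this.2 hv)
  exact ⟨_, h1, by rw [h2, hc]⟩

/-- union of two families in disjoint sets -/
lemma HasT.union {G : SimpleGraph V} {A B : Finset V} {k l : ℕ} (h : HasT G A k)
    (h' : HasT G B l) (hd : Disjoint A B) : HasT G (A ∪ B) (k + l) := by
  obtain ⟨T, hT, hc⟩ := h
  obtain ⟨T', hT', hc'⟩ := h'
  have hne : ∀ t ∈ T, ∀ t' ∈ T', Disjoint t t' := fun t ht t' ht' =>
    Finset.disjoint_of_subset_left (hT.sub t ht)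
      (Finset.disjoint_of_subset_right (hT'.sub t' ht') hd)
  refine ⟨T ∪ T', ⟨?_, ?_, ?_⟩, ?_⟩
  · intro t ht
    rw [Finset.mem_union] at ht
    rcases ht with ht | ht
    · exact (hT.sub t ht).trans Finset.subset_union_left
    · exact (hT'.sub t ht).trans Finset.subset_union_right
  · intro t ht
    rw [Finset.mem_union] at ht
    rcases ht with ht | ht
    · exact hT.clq t ht
    · exact hT'.clq t ht
  · intro t ht t' ht' h0
    rw [Finset.mem_union] at ht ht'
    rcases ht with ht | ht <;> rcases ht' with ht' | ht'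
    · exact hT.dis t ht t' ht' h0
    · exact hne t ht t' ht'
    · exact (hne t' ht' t ht).symm
    · exact hT'.dis t ht t' ht' h0
  · rw [Finset.card_union_of_disjoint, hc, hc']
    rw [Finset.disjoint_left]
    intro t ht ht'
    have h1 := hne t ht t ht'
    rw [disjoint_self, Finset.bot_eq_empty] at h1
    have h2 := (hT.clq t ht).card_eq
    rw [h1] at h2
    simp at h2

/-- double counting -/
lemma TF.sum_dg {G : SimpleGraph V} {A : Finset V} {T : Finset (Finset V)} (h : TF G A T)
    (B : Finset V) : ∑ v ∈ B, dg G (vT T) v = ∑ t ∈ T, ∑ x ∈ t, dg G B x := by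
  have h1 : ∑ v ∈ B, dg G (vT T) v = eb G B (vT T) := rfl
  rw [h1, eb_comm]
  unfold eb vT
  rw [Finset.sum_biUnion (t := id) (fun t ht t' ht' hne => h.dis t ht t' ht' hne)]
  rfl

lemma MF.sum_dg {G : SimpleGraph V} {A : Finset V} {M : Finset (V × V)} (h : MF G A M)
    (B : Finset V) : ∑ v ∈ B, dg G (vM M) v = ∑ p ∈ M, (dg G B p.1 + dg G B p.2) := by
  have h1 : ∑ v ∈ B, dg G (vM M) v = eb G B (vM M) := rfl
  rw [h1, eb_comm]
  unfold eb vM
  rw [Finset.sum_union, Finset.sum_image, Finset.sum_image, Finset.sum_add_distrib]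
  · intro p hp q hq hpq
    by_contra hne
    exact (h.dis p hp q hq hne).2.2.2 hpq
  · intro p hp q hq hpq
    by_contra hne
    exact (h.dis p hp q hq hne).1 hpq
  · rw [Finset.disjoint_left]
    intro v hv hv'
    obtain ⟨p, hp, rfl⟩ := Finset.mem_image.1 hv
    obtain ⟨q, hq, hpq⟩ := Finset.mem_image.1 hv'
    by_cases hne : p = q
    · subst hne
      exact (h.mem p hp).2.2.ne hpq.symm
    · exact (h.dis p hp q hq hne).2.1 hpq.symm

/-- cardinalities for `PM` -/
lemma PM.cards {G : SimpleGraph V} {A : Finset V} {T : Finset (Finset V)} {M : Finset (V × V)}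
    (h : PM G A T M) : (A \ vT T).card + 3 * T.card = A.card ∧
      ((A \ vT T) \ vM M).card + 2 * M.card = (A \ vT T).card := by
  have h1 := Finset.card_sdiff_add_card_eq_card h.tf.vT_sub
  have h2 := Finset.card_sdiff_add_card_eq_card h.mf.vM_sub
  rw [h.tf.card_vT] at h1
  rw [h.mf.card_vM] at h2
  exact ⟨h1, h2⟩

end Pool.Agent.ART
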