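import Pool.Agent.ART.Ties

set_option autoImplicit false

/-! Anti-Ramsey numbers of vertex-disjoint triangles (MP_e56f3d_co): the five cases of the
extremal function. -/

namespace Pool.Agent.ART

open Finset

lemma a1_lt_a2 {n : ℕ} (hn : 10000 ≤ n) : a1 n < a2 n := by
  unfold a1 a2
  have hn' : (10000 : ℝ) ≤ n := by exact_mod_cast hn
  have hs : √(2 * (n : ℝ) - 3) < (n - 3) / 9 := by
    rw [Real.sqrt_lt' (by linarith)]
    nlinarith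
  linarith

lemma a2_lt_a3 {n : ℕ} (hn : 10000 ≤ n) : a2 n < a3 n := by
  unfold a2 a3
  have hn' : (10000 : ℝ) ≤ n := by exact_mod_cast hn
  have hs : (3 / 2 : ℝ) * n < √(3 * (n : ℝ) ^ 2 - 2 * n + 4) := by
    apply Real.lt_sqrt_of_sq_lt
    nlinarith
  have hs2 : 0 ≤ √(2 * (n : ℝ) - 3) := Real.sqrt_nonneg _
  linarith

lemma a3_lt_a4 {n : ℕ} (hn : 10000 ≤ n) : a3 n < a4 n := by
  unfold a3 a4
  have hn' : (10000 : ℝ) ≤ n := by exact_mod_cast hn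
  have hs : √(3 * (n : ℝ) ^ 2 - 2 * n + 4) < 1.74 * n := by
    rw [Real.sqrt_lt' (by linarith)]
    nlinarith
  have hs2 : √(16 * (n : ℝ) - 7) < 0.05 * n := by
    rw [Real.sqrt_lt' (by linarith)]
    nlinarith
  linarith

lemma Xi_five {n t : ℕ} (hn : 10000 ≤ n) (ht : 3 * t + 6 ≤ n) :
    ((t : ℝ) ≤ a1 n → Xi n t = X1 n t) ∧
    (a1 n ≤ (t : ℝ) → (t : ℝ) ≤ a2 n → Xi n t = X2 n t) ∧
    (a2 n ≤ (t : ℝ) → (t : ℝ) ≤ a3 n → Xi n t = X3 n t) ∧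
    (a3 n ≤ (t : ℝ) → (t : ℝ) ≤ a4 n → Xi n t = X4 n t) ∧
    (a4 n ≤ (t : ℝ) → Xi n t = X5 n t) := by
  have h12 := a1_lt_a2 hn
  have h23 := a2_lt_a3 hn
  have h34 := a3_lt_a4 hn
  unfold Xi
  refine ⟨?_, ?_, ?_, ?_, ?_⟩
  · intro h
    rw [if_pos h]
  · intro h h'
    rcases eq_or_lt_of_le h with h | h
    · rw [if_pos h.symm.le]; exact tie1 h.symm
    · rw [if_neg (not_le.mpr h), if_pos h']
  · intro h h'
    rw [if_neg (not_le.mpr (lt_of_lt_of_le h12 h))]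
    rcases eq_or_lt_of_le h with h | h
    · rw [if_pos h.symm.le]; exact tie2 ht h.symm
    · rw [if_neg (not_le.mpr h), if_pos h']
  · intro h h'
    rw [if_neg (not_le.mpr (lt_of_lt_of_le (h12.trans h23) h)),
      if_neg (not_le.mpr (lt_of_lt_of_le h23 h))]
    rcases eq_or_lt_of_le h with h | h
    · rw [if_pos h.symm.le]; exact tie3 ht h.symm
    · rw [if_neg (not_le.mpr h), if_pos h']
  · intro h
    rw [if_neg (not_le.mpr (lt_of_lt_of_le (h12.trans (h23.trans h34)) h)),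
      if_neg (not_le.mpr (lt_of_lt_of_le (h23.trans h34) h)),
      if_neg (not_le.mpr (lt_of_lt_of_le h34 h))]
    rcases eq_or_lt_of_le h with h | h
    · rw [if_pos h.symm.le]; exact tie4 (by omega) ht h.symm
    · rw [if_neg (not_le.mpr h)]

/-- the main statement with the five cases written out -/
theorem main_cases (hM : tMain) : ∃ N₀ : ℕ, ∀ n t : ℕ, N₀ ≤ n → 3 * t + 6 ≤ n →
    ((t : ℝ) ≤ (2 * n - 6) / 9 →
      ar n (sK3 (t + 2)) = t.choose 2 + t * (n - t) + (n - t) ^ 2 / 4 + 2) ∧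
    ((2 * n - 6) / 9 ≤ (t : ℝ) → (t : ℝ) ≤ (n - 3 - √(2 * n - 3)) / 4 →
      ar n (sK3 (t + 2)) = (2 * t + 1).choose 2 + n ^ 2 / 4 + 2) ∧
    ((n - 3 - √(2 * n - 3)) / 4 ≤ (t : ℝ) →
      (t : ℝ) ≤ (5 * n - 20 + √(3 * n ^ 2 - 2 * n + 4)) / 22 →
      ar n (sK3 (t + 2)) = (t + 1) * (2 * t + 1) + (2 * t + 2) * (n - 2 * t - 2) + 2) ∧
    ((5 * n - 20 + √(3 * n ^ 2 - 2 * n + 4)) / 22 ≤ (t : ℝ) →
      (t : ℝ) ≤ (2 * n - 3 - √(16 * n - 7)) / 6 →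
      ar n (sK3 (t + 2)) = (6 * t + 6 - n).choose 2 + (3 * t + 3) * (n - 3 * t - 3) + 2) ∧
    ((2 * n - 3 - √(16 * n - 7)) / 6 ≤ (t : ℝ) →
      ar n (sK3 (t + 2)) = (3 * t + 5).choose 2 + (n - 3 * t - 6) + 2) := by
  obtain ⟨N, hN⟩ := hM
  refine ⟨max N 10000, fun n t hn ht => ?_⟩
  have h := hN n t (le_trans (le_max_left _ _) hn) ht
  have hn' : 10000 ≤ n := le_trans (le_max_right _ _) hn
  rw [h]
  obtain ⟨c1, c2, c3, c4, c5⟩ := Xi_five hn' ht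
  refine ⟨fun h1 => ?_, fun h1 h2 => ?_, fun h1 h2 => ?_, fun h1 h2 => ?_, fun h1 => ?_⟩
  · rw [c1 h1]; rfl
  · rw [c2 h1 h2]; rfl
  · rw [c3 h1 h2]; rfl
  · rw [c4 h1 h2]; rfl
  · rw [c5 h1]; rfl

end Pool.Agent.ART
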