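import Mathlib

set_option autoImplicit false

/-! Anti-Ramsey numbers of vertex-disjoint triangles (MP_e56f3d_co): definitions. -/

namespace Pool.Agent.ART

open Finset

variable {V : Type}

/-! ### Graphs restricted to finite vertex sets -/

open Classical in
/-- number of neighbours of `v` in `A` -/
noncomputable def dg (G : SimpleGraph V) (A : Finset V) (v : V) : ℕ :=
  (A.filter (fun u => G.Adj v u)).card

/-- twice the number of edges inside `A` -/
noncomputable def e2 (G : SimpleGraph V) (A : Finset V) : ℕ := ∑ v ∈ A, dg G A v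

/-- number of adjacent pairs in `A × B` -/
noncomputable def eb (G : SimpleGraph V) (A B : Finset V) : ℕ := ∑ v ∈ A, dg G B v

/-- `x y z` is a triangle -/
def Tri (G : SimpleGraph V) (x y z : V) : Prop := G.Adj x y ∧ G.Adj y z ∧ G.Adj x z

/-- `T` is a family of pairwise disjoint triangles of `G` inside `A` -/
structure TF (G : SimpleGraph V) (A : Finset V) (T : Finset (Finset V)) : Prop where
  sub : ∀ t ∈ T, t ⊆ A
  clq : ∀ t ∈ T, G.IsNClique 3 t
  dis : ∀ t ∈ T, ∀ t' ∈ T, t ≠ t' → Disjoint t t'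

/-- `G` has `k` pairwise disjoint triangles inside `A` -/
def HasT (G : SimpleGraph V) (A : Finset V) (k : ℕ) : Prop := ∃ T, TF G A T ∧ T.card = k

/-- `M` is a matching of `G` inside `A` (one ordered pair for each edge) -/
structure MF (G : SimpleGraph V) (A : Finset V) (M : Finset (V × V)) : Prop where
  mem : ∀ p ∈ M, p.1 ∈ A ∧ p.2 ∈ A ∧ G.Adj p.1 p.2
  dis : ∀ p ∈ M, ∀ q ∈ M, p ≠ q → p.1 ≠ q.1 ∧ p.1 ≠ q.2 ∧ p.2 ≠ q.1 ∧ p.2 ≠ q.2

/-- `G` has a matching with `m` edges inside `A` -/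
def HasM (G : SimpleGraph V) (A : Finset V) (m : ℕ) : Prop := ∃ M, MF G A M ∧ M.card = m

/-- `v` is in no triangle of `G` inside `A` -/
def NoTri (G : SimpleGraph V) (A : Finset V) (v : V) : Prop :=
  ∀ x ∈ A, ∀ y ∈ A, ¬ Tri G v x y

/-- `S` is an independent set -/
def Ind (G : SimpleGraph V) (S : Finset V) : Prop := ∀ x ∈ S, ∀ y ∈ S, ¬ G.Adj x y

variable [DecidableEq V]

/-- vertex set of a family of triangles -/
def vT (T : Finset (Finset V)) : Finset V := T.biUnion id

/-- vertex set of a matching -/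
def vM (M : Finset (V × V)) : Finset V := M.image Prod.fst ∪ M.image Prod.snd

/-- disjoint triangles `T` and a matching `M` in the rest -/
structure PM (G : SimpleGraph V) (A : Finset V) (T : Finset (Finset V)) (M : Finset (V × V)) :
    Prop where
  tf : TF G A T
  mf : MF G (A \ vT T) M

/-- lexicographically maximal pair `(T, M)` -/
structure LexMax (G : SimpleGraph V) (A : Finset V) (T : Finset (Finset V))
    (M : Finset (V × V)) : Prop where
  pm : PM G A T M
  maxT : ∀ T' M', PM G A T' M' → T'.card ≤ T.card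
  maxM : ∀ T' M', PM G A T' M' → T'.card = T.card → M'.card ≤ M.card

/-! ### The density function -/

noncomputable def ph1 (n k : ℝ) : ℝ := (n ^ 2 + 2 * n * k - k ^ 2) / 4
noncomputable def ph2 (n k : ℝ) : ℝ := 2 * k ^ 2 + n ^ 2 / 4
noncomputable def ph3 (n k : ℝ) : ℝ := 2 * k * n - 2 * k ^ 2
noncomputable def ph4 (n k : ℝ) : ℝ := 9 * k ^ 2 - 3 * k * n + n ^ 2 / 2

/-- asymptotic maximal number of edges of a graph on `n` vertices without `k + 1` disjoint
triangles -/
noncomputable def phi (n k : ℝ) : ℝ :=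
  if 9 * k ≤ 2 * n then ph1 n k else if 4 * k ≤ n then ph2 n k else max (ph3 n k) (ph4 n k)

/-! ### Edge colourings of complete graphs -/

/-- colours of the pairs inside `A` -/
def cols (c : Sym2 V → ℕ) (A : Finset V) : Finset ℕ := A.offDiag.image (fun p => c s(p.1, p.2))

/-- `G` is a representing graph of the colouring `c` of the pairs inside `A`: one edge for every
colour -/
structure Rep (c : Sym2 V → ℕ) (A : Finset V) (G : SimpleGraph V) : Prop where
  mem : ∀ x y, G.Adj x y → x ∈ A ∧ y ∈ A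
  inj : ∀ x y x' y', G.Adj x y → G.Adj x' y' → c s(x, y) = c s(x', y') → s(x, y) = s(x', y')
  sur : ∀ x ∈ A, ∀ y ∈ A, x ≠ y → ∃ x' y', G.Adj x' y' ∧ c s(x', y') = c s(x, y)

/-- `T` is a family of disjoint triples inside `A` whose pairs have pairwise distinct colours -/
structure RF (c : Sym2 V → ℕ) (A : Finset V) (T : Finset (Finset V)) : Prop where
  sub : ∀ t ∈ T, t ⊆ A
  crd : ∀ t ∈ T, t.card = 3
  dis : ∀ t ∈ T, ∀ t' ∈ T, t ≠ t' → Disjoint t t'
  rbw : ∀ t ∈ T, ∀ t' ∈ T, ∀ x ∈ t, ∀ y ∈ t, ∀ x' ∈ t', ∀ y' ∈ t', x ≠ y → x' ≠ y' →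
    c s(x, y) = c s(x', y') → s(x, y) = s(x', y')

/-- there are `k` disjoint triangles inside `A` which together are rainbow -/
def HasR (c : Sym2 V → ℕ) (A : Finset V) (k : ℕ) : Prop := ∃ T, RF c A T ∧ T.card = k

/-- the switched graph: the pair `x y` replaces the edge of `G` with the same colour -/
def sw (c : Sym2 V → ℕ) (G : SimpleGraph V) (x y : V) : SimpleGraph V where
  Adj u v := u ≠ v ∧ ((G.Adj u v ∧ c s(u, v) ≠ c s(x, y)) ∨ s(u, v) = s(x, y))
  symm := ⟨fun u v h => by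
    refine ⟨h.1.symm, ?_⟩
    rcases h.2 with ⟨h1, h2⟩ | h1
    · exact Or.inl ⟨h1.symm, by rwa [Sym2.eq_swap]⟩
    · exact Or.inr (by rw [Sym2.eq_swap]; exact h1)⟩
  loopless := ⟨fun _ h => h.1 rfl⟩

/-! ### Near-extremal structures -/

/-- number of non-adjacent pairs in `W × Y` (for disjoint `W`, `Y`) -/
noncomputable def miss (G : SimpleGraph V) (W Y : Finset V) : ℕ := W.card * Y.card - eb G W Y

/-- `A` contains an almost independent set `Y` with `|Y| ≥ k + s |A|` which is almost completely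
joined to the rest -/
def NearI (G : SimpleGraph V) (A : Finset V) (k : ℕ) (η s : ℝ) : Prop :=
  ∃ Y ⊆ A, (k : ℝ) + s * A.card ≤ Y.card ∧
    (miss G (A \ Y) Y : ℝ) ≤ η * (A.card : ℝ) ^ 2 ∧ (e2 G Y : ℝ) ≤ η * (A.card : ℝ) ^ 2

/-- `A` is the union of a set `L` of vertices which are in no triangle and a set of vertices of
large degree, `|L| ≥ |A| - 3k - J` -/
def Pre4 (G : SimpleGraph V) (A : Finset V) (k J : ℕ) (L : Finset V) : Prop :=
  L ⊆ A ∧ (∀ v ∈ L, NoTri G A v) ∧ (∀ v ∈ A \ L, (6 / 10 : ℝ) * A.card ≤ dg G A v) ∧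
    A.card ≤ L.card + 3 * k + J

/-- minimal degree and minimal degree sum of the triangles -/
structure Loc (G : SimpleGraph V) (A : Finset V) (δ S : ℝ) : Prop where
  deg : ∀ v ∈ A, δ ≤ dg G A v
  tri : ∀ x ∈ A, ∀ y ∈ A, ∀ z ∈ A, Tri G x y z → S ≤ dg G A x + dg G A y + dg G A z

/-- every edge is in a triangle -/
def Seen (G : SimpleGraph V) (A : Finset V) : Prop :=
  ∀ x ∈ A, ∀ y ∈ A, G.Adj x y → ∃ z ∈ A, Tri G x y z

/-- `G'` contains all but `q` edges of `G` -/
def Cl (q : ℕ) (G G' : SimpleGraph V) : Prop :=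
  ∃ E : Finset (Sym2 V), E.card ≤ q ∧ ∀ u v, G.Adj u v → s(u, v) ∉ E → G'.Adj u v

/-- refined partition for the first type of near-extremal structure -/
structure PartI [Fintype V] (G : SimpleGraph V) (k : ℕ) (μ θ : ℝ) (W Y : Finset V) : Prop where
  dis : Disjoint W Y
  uni : W ∪ Y = univ
  p1 : (miss G W Y : ℝ) ≤ μ * (Fintype.card V : ℝ) ^ 2
  p2 : ∀ w ∈ W, θ * Fintype.card V ≤ dg G Y w
  p3 : ∀ y ∈ Y, (dg G Y y : ℝ) ≤ 4 * θ * Fintype.card V
  p4 : (k : ℝ) + Fintype.card V / 30 ≤ Y.card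
  p5 : (e2 G Y : ℝ) ≤ μ * (Fintype.card V : ℝ) ^ 2

/-- refined partition for the second type of near-extremal structure -/
structure S4 [Fintype V] (G : SimpleGraph V) (k J : ℕ) (H L : Finset V) : Prop where
  dis : Disjoint H L
  uni : H ∪ L = univ
  tile : ∀ G', Cl 50 G G' → ∀ F : Finset V, F.card ≤ 200 + 10 * J →
    HasT G' (H \ F) ((H \ F).card / 3)
  deg : ∀ v ∈ L, (dg G H v : ℝ) + 3 * k ≤ Fintype.card V + Fintype.card V / 500
  crd : L.card + 3 * k ≤ Fintype.card V + J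

/-- only the edges with at least one end in `S` -/
def Gm (G : SimpleGraph V) (S : Finset V) : SimpleGraph V where
  Adj u v := G.Adj u v ∧ (u ∈ S ∨ v ∈ S)
  symm := ⟨fun _ _ h => ⟨h.1.symm, h.2.symm⟩⟩
  loopless := ⟨fun _ h => G.loopless.irrefl _ h.1⟩

open Classical in
/-- vertices of `W` which are adjacent to almost all of `Y` -/
noncomputable def Typ [Fintype V] (G : SimpleGraph V) (W Y : Finset V) (θ : ℝ) : Finset V :=
  W.filter (fun v => (Y.card : ℝ) ≤ dg G Y v + θ * Fintype.card V / 20)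

open Classical in
/-- vertices of `W` which are adjacent to almost all of `Y` and of `W` -/
noncomputable def Gd [Fintype V] (G : SimpleGraph V) (W Y : Finset V) (θ : ℝ) : Finset V :=
  (Typ G W Y θ).filter (fun v => (W.card : ℝ) ≤ dg G W v + 3 * Fintype.card V / 100)

open Classical in
/-- vertices of `W` with many neighbours in `Gd` -/
noncomputable def Xs [Fintype V] (G : SimpleGraph V) (W Y : Finset V) (θ : ℝ) : Finset V :=
  W.filter (fun v => (Fintype.card V : ℝ) / 200 ≤ dg G (Gd G W Y θ) v)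

/-! ### The extremal numbers -/

/-- the five extremal functions, `k = t + 1` -/
def X1 (n t : ℕ) : ℕ := t.choose 2 + t * (n - t) + (n - t) ^ 2 / 4
def X2 (n t : ℕ) : ℕ := (2 * t + 1).choose 2 + n ^ 2 / 4
def X3 (n t : ℕ) : ℕ := (t + 1) * (2 * t + 1) + (2 * t + 2) * (n - 2 * t - 2)
def X4 (n t : ℕ) : ℕ := (6 * t + 6 - n).choose 2 + (3 * t + 3) * (n - 3 * t - 3)
def X5 (n t : ℕ) : ℕ := (3 * t + 5).choose 2 + (n - 3 * t - 6)

/-- the breakpoints -/
noncomputable def a1 (n : ℕ) : ℝ := (2 * n - 6) / 9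
noncomputable def a2 (n : ℕ) : ℝ := (n - 3 - √(2 * n - 3)) / 4
noncomputable def a3 (n : ℕ) : ℝ := (5 * n - 20 + √(3 * n ^ 2 - 2 * n + 4)) / 22
noncomputable def a4 (n : ℕ) : ℝ := (2 * n - 3 - √(16 * n - 7)) / 6

open Classical in
/-- the function `Ξ` of the problem -/
noncomputable def Xi (n t : ℕ) : ℕ :=
  if (t : ℝ) ≤ a1 n then X1 n t else if (t : ℝ) ≤ a2 n then X2 n t else
  if (t : ℝ) ≤ a3 n then X3 n t else if (t : ℝ) ≤ a4 n then X4 n t else X5 n t

/-- Erdos-Gallai number: maximal number of edges on `w ≥ 2 ν + 1` vertices with matching number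
`ν` -/
def EG (w ν : ℕ) : ℕ := max ((2 * ν + 1).choose 2) (ν.choose 2 + ν * (w - ν))

/-! ### The statement -/

/-- `s` disjoint triangles -/
def sK3 (s : ℕ) : SimpleGraph (Fin s × Fin 3) where
  Adj p q := p.1 = q.1 ∧ p ≠ q
  symm := ⟨fun _ _ h => ⟨h.1.symm, h.2.symm⟩⟩
  loopless := ⟨fun _ h => h.2 rfl⟩

/-- the edge colouring `c` of the complete graph on `Fin n` has a rainbow copy of `F` -/
def RainbowCopy {W : Type} (F : SimpleGraph W) {n : ℕ} (c : Sym2 (Fin n) → ℕ) : Prop :=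
  ∃ f : W → Fin n, Function.Injective f ∧ ∀ a b a' b', F.Adj a b → F.Adj a' b' →
    c s(f a, f b) = c s(f a', f b') → s(a, b) = s(a', b')

/-- number of colours used on the edges of the complete graph on `Fin n` -/
noncomputable def numCol {n : ℕ} (c : Sym2 (Fin n) → ℕ) : ℕ :=
  Set.ncard (c '' (⊤ : SimpleGraph (Fin n)).edgeSet)

/-- the anti-Ramsey number: the smallest `N ≥ 1` such that each colouring of the edges of `K_n`
in which precisely `N` colours occur has a rainbow copy of `F` -/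
noncomputable def ar {W : Type} (n : ℕ) (F : SimpleGraph W) : ℕ :=
  sInf {N : ℕ | 1 ≤ N ∧ ∀ c : Sym2 (Fin n) → ℕ, numCol c = N → RainbowCopy F c}

/-- the main statement -/
def tMain : Prop :=
  ∃ N₀ : ℕ, ∀ n t : ℕ, N₀ ≤ n → 3 * t + 6 ≤ n → ar n (sK3 (t + 2)) = Xi n t + 2

end Pool.Agent.ART
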