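import Pool.Agent.ART.Defs

set_option autoImplicit false

/-! Anti-Ramsey numbers of vertex-disjoint triangles (MP_e56f3d_co): exact targets,
see Blueprint.lean.txt. -/

namespace Pool.Agent.ART

open Finset

/-! ### Part 1: graphs -/

/-- J1 -/
def tLexEx : Prop :=
  ∀ (V : Type) [Fintype V] [DecidableEq V] (G : SimpleGraph V) (A : Finset V),
    ∃ T M, LexMax G A T M

/-- J1 local facts for a lexicographically maximal pair -/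
def tLexFacts : Prop :=
  ∀ (V : Type) [Fintype V] [DecidableEq V] (G : SimpleGraph V) (A : Finset V)
    (T : Finset (Finset V)) (M : Finset (V × V)), LexMax G A T M →
    (∀ x ∈ A \ vT T, NoTri G (A \ vT T) x) ∧
    Ind G ((A \ vT T) \ vM M) ∧
    (∀ t ∈ T, ∑ x ∈ t, dg G ((A \ vT T) \ vM M) x ≤ 2 * ((A \ vT T) \ vM M).card + 1) ∧
    (3 ≤ M.card → ∀ t ∈ T, ∑ x ∈ t, dg G (vM M) x ≤ 4 * M.card) ∧
    (∀ t ∈ T, 3 * M.card + 3 < ∑ x ∈ t, dg G (vM M) x →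
      ∃ x ∈ t, ∑ y ∈ t.erase x, dg G (vM M) y ≤ 2 * M.card) ∧
    (∀ p ∈ M, dg G (A \ vT T) p.1 + dg G (A \ vT T) p.2 ≤ (A \ vT T).card) ∧
    (∀ w ∈ (A \ vT T) \ vM M, dg G (A \ vT T) w ≤ M.card)

/-- J2 the two basic inequalities -/
def tCore : Prop :=
  ∀ (V : Type) [Fintype V] [DecidableEq V] (G : SimpleGraph V) (A : Finset V)
    (T : Finset (Finset V)) (M : Finset (V × V)), LexMax G A T M →
    (3 ≤ M.card → ∀ S : ℕ, (∀ p ∈ M, S ≤ dg G A p.1 + dg G A p.2) → S ≤ A.card + T.card) ∧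
    (∀ δ : ℕ, (∀ w ∈ (A \ vT T) \ vM M, δ ≤ dg G A w) →
      ((A \ vT T) \ vM M).card * δ ≤
        T.card * (2 * ((A \ vT T) \ vM M).card + 1) + ((A \ vT T) \ vM M).card * M.card)

/-- J2 -/
def tLemB : Prop :=
  ∀ (V : Type) [Fintype V] [DecidableEq V] (G : SimpleGraph V) (A : Finset V) (k C : ℕ),
    (∀ v ∈ A, A.card < 2 * dg G A v) → (∀ v ∈ A, 2 * k + C ≤ dg G A v) →
    (∀ x ∈ A, ∀ y ∈ A, ∀ z ∈ A, Tri G x y z →
      2 * A.card + k ≤ dg G A x + dg G A y + dg G A z) →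
    3 * k + 4 < A.card → k < (A.card - 3 * k - 4) * (C - 2) → HasT G A (k + 1)

/-- J3 edges at vertices which are in no triangle -/
def tLemE' : Prop :=
  ∀ (V : Type) [Fintype V] [DecidableEq V] (G : SimpleGraph V) (A L : Finset V), L ⊆ A →
    (∀ v ∈ L, NoTri G A v) → ∃ a b x y : ℕ, a + b = L.card ∧
      x * (x - 1) + y * (y - 1) + e2 G (A \ L) ≤ (A \ L).card * ((A \ L).card - 1) ∧
      e2 G A ≤ e2 G (A \ L) + 2 * (a * x + b * y + a * b)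

/-- J3 -/
def tLemE : Prop :=
  ∀ (V : Type) [Fintype V] [DecidableEq V] (G : SimpleGraph V) (A L : Finset V), L ⊆ A →
    (∀ v ∈ L, NoTri G A v) →
    e2 G A ≤ (A \ L).card * ((A \ L).card - 1) + L.card * (L.card + 1)

/-- J4 facts on `phi` -/
def tPhi : Prop :=
  ∀ n k : ℝ, 100 ≤ n → 1 ≤ k → 3 * k ≤ n →
    ((4 * k ≤ n - 1 ∨ ph4 (n - 1) k ≤ ph3 (n - 1) k) →
      n / 2 - 1 ≤ phi n k - phi (n - 1) k ∧ 2 * k - 1 ≤ phi n k - phi (n - 1) k ∧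
      2 * n + k - 5 ≤ phi n k - phi (n - 3) (k - 1)) ∧
    (n - 1 < 4 * k → ph3 (n - 1) k < ph4 (n - 1) k →
      2 * n + 2 * k - 5 ≤ phi n k - phi (n - 3) (k - 1)) ∧
    (n ≤ 4 * k → 2 * n + 2 * k - 5 ≤ phi n k - phi (n - 3) (k - 1)) ∧
    (∀ c : ℝ, 0 ≤ c → c ≤ 1 / 100 → (1 / 4 - c) * n ≤ k →
      2 * n + 2 * k - 2 * c * n - 5 ≤ phi n k - phi (n - 3) (k - 1)) ∧
    (10000 ≤ n → 0.3064 * n ≤ k → 9 * k - 6 ≤ phi n k - phi (n - 3) (k - 1)) ∧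
    (10000 ≤ n → k ≤ 0.3056 * n → (4 * k ≤ n - 1 ∨ ph4 (n - 1) k ≤ ph3 (n - 1) k)) ∧
    ph1 n k ≤ phi n k ∧ (4 * k ≤ n → ph2 n k ≤ phi n k) ∧ (n ≤ 4 * k → ph3 n k ≤ phi n k) ∧
    (n ≤ 4 * k → ph4 n k ≤ phi n k) ∧ n ^ 2 / 4 ≤ phi n k ∧ phi n k ≤ n ^ 2 / 2

/-- J5 the density theorem up to a linear error -/
def tClaimA : Prop :=
  ∃ C : ℝ, 0 ≤ C ∧ ∀ (V : Type) [Fintype V] [DecidableEq V] (G : SimpleGraph V) (A : Finset V)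
    (k : ℕ), ¬ HasT G A (k + 1) → (e2 G A : ℝ) ≤ 2 * phi A.card k + C * A.card

/-- J6 deleting few vertices -/
def tDel : Prop :=
  ∀ D ε : ℝ, 0 < ε → ∃ J : ℕ, ∀ (V : Type) [Fintype V] [DecidableEq V] (G : SimpleGraph V)
    (A : Finset V) (k : ℕ), J ≤ A.card → ¬ HasT G A (k + 1) →
    2 * phi A.card k - D * A.card ≤ e2 G A →
    ∃ A₁ ⊆ A, ∃ k₁ ≤ k, A.card ≤ A₁.card + J ∧ k ≤ k₁ + J ∧ ¬ HasT G A₁ (k₁ + 1) ∧
      2 * phi A₁.card k₁ - D * A.card ≤ e2 G A₁ ∧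
      Loc G A₁ (phi A₁.card k₁ - phi (A₁.card - 1) k₁ - ε * A.card)
        (phi A₁.card k₁ - phi (A₁.card - 3) (k₁ - 1) - ε * A.card)

/-- J7 triangle factors in dense graphs -/
def tWCH : Prop :=
  ∀ (V : Type) [Fintype V] [DecidableEq V] (G : SimpleGraph V) (A : Finset V),
    (∀ v ∈ A, 7 * A.card ≤ 9 * dg G A v) → HasT G A (A.card / 3)

/-- J8 perfect matchings in dense graphs -/
def tPMat : Prop :=
  ∀ (V : Type) [Fintype V] [DecidableEq V] (G : SimpleGraph V) (A : Finset V), Even A.card →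
    (∀ v ∈ A, A.card ≤ 2 * dg G A v) → HasM G A (A.card / 2)

/-- J9 Tutte-Berge -/
def tTB : Prop :=
  ∀ (V : Type) [Fintype V] [DecidableEq V] (G : SimpleGraph V) (A : Finset V) (ν : ℕ),
    ¬ HasM G A (ν + 1) → ∃ S ⊆ A, ∃ f : V → ℕ,
      (∀ x ∈ A \ S, ∀ y ∈ A \ S, G.Adj x y → f x = f y) ∧
      A.card + S.card ≤ 2 * ν + ((A \ S).image f).card

/-- J10 Erdos-Gallai -/
def tEG : Prop :=
  ∀ (V : Type) [Fintype V] [DecidableEq V] (G : SimpleGraph V) (A : Finset V) (ν : ℕ),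
    2 * ν + 1 ≤ A.card → ¬ HasM G A (ν + 1) → e2 G A ≤ 2 * EG A.card ν

/-- J11 extending a matching to triangles -/
def tTileI : Prop :=
  ∀ (V : Type) [Fintype V] [DecidableEq V] (G : SimpleGraph V) (A W Y : Finset V)
    (M : Finset (V × V)) (T₀ : Finset (Finset V)) (a d D : ℕ), W ⊆ A → Y ⊆ A → Disjoint W Y →
    MF G W M → TF G A T₀ → Disjoint (vT T₀) (vM M) → T₀.card ≤ a →
    (∀ w ∈ W, D ≤ dg G Y w) → (W.filter (fun w => dg G Y w + d < Y.card)).card ≤ a →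
    (∀ p ∈ M, Y.card ≤ dg G Y p.1 + d ∨ Y.card ≤ dg G Y p.2 + d) →
    d + 4 * a ≤ D → 2 * d + 3 * a + M.card ≤ Y.card → HasT G A (M.card + T₀.card)

/-! ### Part 2: stability -/

/-- J12 small `k` -/
def tSmallK : Prop :=
  ∀ η : ℝ, 0 < η → ∃ c : ℝ, 0 < c ∧ ∃ N : ℕ, ∀ (V : Type) [Fintype V] [DecidableEq V]
    (G : SimpleGraph V) (A : Finset V) (k : ℕ), N ≤ A.card → (k : ℝ) ≤ c * A.card →
    ¬ HasT G A (k + 1) → (A.card : ℝ) ^ 2 / 2 - c * (A.card : ℝ) ^ 2 ≤ e2 G A →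
    NearI G A k η (1 / 20)

/-- J13 every edge is in a triangle, `c₁ n ≤ k ≤ (1/4 - c₁) n` -/
def tCaseS : Prop :=
  ∀ c₁ η : ℝ, 0 < c₁ → 0 < η → ∃ ε : ℝ, 0 < ε ∧ ∃ N : ℕ, ∀ (V : Type) [Fintype V]
    [DecidableEq V] (G : SimpleGraph V) (A : Finset V) (k : ℕ), N ≤ A.card →
    c₁ * A.card ≤ k → (k : ℝ) ≤ (1 / 4 - c₁) * A.card → ¬ HasT G A (k + 1) →
    Loc G A (A.card / 2 - ε * A.card) (2 * A.card + k - ε * A.card) → Seen G A →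
    2 * ph1 A.card k - ε * (A.card : ℝ) ^ 2 ≤ e2 G A → NearI G A k η (1 / 20)

/-- J14 some edge is in no triangle, `c₁ n ≤ k ≤ (1/4 - c₁) n` -/
def tCaseU : Prop :=
  ∀ c₁ η : ℝ, 0 < c₁ → 0 < η → ∃ ε : ℝ, 0 < ε ∧ ∃ N : ℕ, ∀ (V : Type) [Fintype V]
    [DecidableEq V] (G : SimpleGraph V) (A : Finset V) (k : ℕ), N ≤ A.card →
    c₁ * A.card ≤ k → (k : ℝ) ≤ (1 / 4 - c₁) * A.card → ¬ HasT G A (k + 1) →
    Loc G A (A.card / 2 - ε * A.card) (2 * A.card + k - ε * A.card) → ¬ Seen G A →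
    2 * ph1 A.card k - ε * (A.card : ℝ) ^ 2 ≤ e2 G A →
    2 * ph2 A.card k - ε * (A.card : ℝ) ^ 2 ≤ e2 G A → NearI G A k η (1 / 20)

/-- J15 `k` near `n/4`, some edge is in no triangle -/
def tZone : Prop :=
  ∀ η : ℝ, 0 < η → ∃ c : ℝ, 0 < c ∧ ∃ N : ℕ, ∀ (V : Type) [Fintype V] [DecidableEq V]
    (G : SimpleGraph V) (A : Finset V) (k : ℕ), N ≤ A.card →
    (1 / 4 - c) * A.card ≤ k → (k : ℝ) ≤ (1 / 4 + c) * A.card → ¬ HasT G A (k + 1) →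
    Loc G A (A.card / 2 - c * A.card) (5 / 2 * A.card - c * A.card) → ¬ Seen G A →
    NearI G A k η (1 / 20)

/-- J16 `n/4 ≤ k ≤ 0.3075 n`, every edge is in a triangle -/
def tL3 : Prop :=
  ∀ η : ℝ, 0 < η → ∃ ε : ℝ, 0 < ε ∧ ∃ N : ℕ, ∀ (V : Type) [Fintype V] [DecidableEq V]
    (G : SimpleGraph V) (A : Finset V) (k : ℕ), N ≤ A.card →
    (1 / 4 - ε) * A.card ≤ k → (k : ℝ) ≤ 0.3075 * A.card → ¬ HasT G A (k + 1) →
    Loc G A (2 * k - ε * A.card) (2 * A.card + 2 * k - ε * A.card) → Seen G A →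
    NearI G A k η (1 / 20)

/-- J17 `k` near `0.306 n` -/
def tRidge1 : Prop :=
  ∀ η : ℝ, 0 < η → ∃ ε : ℝ, 0 < ε ∧ ∃ J N : ℕ, ∀ (V : Type) [Fintype V] [DecidableEq V]
    (G : SimpleGraph V) (A : Finset V) (k : ℕ), N ≤ A.card →
    0.3051 * (A.card : ℝ) ≤ k → (k : ℝ) ≤ 0.307 * A.card → ¬ HasT G A (k + 1) →
    Loc G A 0 (2 * A.card + 2 * k - ε * A.card) →
    NearI G A k η (1 / 22) ∨ ∃ L, Pre4 G A k J L

/-- J17 `k ≥ 0.3064 n` -/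
def tRidge2 : Prop :=
  ∃ ε : ℝ, 0 < ε ∧ ∃ J N : ℕ, ∀ (V : Type) [Fintype V] [DecidableEq V]
    (G : SimpleGraph V) (A : Finset V) (k : ℕ), N ≤ A.card →
    0.3064 * (A.card : ℝ) ≤ k → ¬ HasT G A (k + 1) →
    Loc G A 0 (9 * k - ε * A.card) → ∃ L, Pre4 G A k J L

/-- J18 summary: stability -/
def tStab : Prop :=
  ∀ D η : ℝ, 0 < η → ∃ J N : ℕ, ∀ (V : Type) [Fintype V] [DecidableEq V]
    (G : SimpleGraph V) (k : ℕ), N ≤ Fintype.card V → 3 * k + 3 ≤ Fintype.card V →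
    ¬ HasT G univ (k + 1) → 2 * phi (Fintype.card V) k - D * Fintype.card V ≤ e2 G univ →
    ((k : ℝ) ≤ 0.3073 * Fintype.card V ∧ NearI G univ k η (1 / 25)) ∨
    (0.305 * Fintype.card V ≤ (k : ℝ) ∧ ∃ A L, Fintype.card V ≤ A.card + J ∧ Pre4 G A k J L)

/-! ### Part 3: colourings -/

/-- J19 -/
def tRepEx : Prop :=
  ∀ (V : Type) [Fintype V] [DecidableEq V] (c : Sym2 V → ℕ) (A : Finset V)
    (T : Finset (Finset V)), RF c A T → ∃ G, Rep c A G ∧ TF G A T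

/-- J19 -/
def tRepE : Prop :=
  ∀ (V : Type) [Fintype V] [DecidableEq V] (c : Sym2 V → ℕ) (A : Finset V)
    (G : SimpleGraph V), Rep c A G → e2 G A = 2 * (cols c A).card ∧
      (∀ B ⊆ A, e2 G B ≤ 2 * (cols c B).card) ∧ (∀ T, TF G A T → RF c A T) ∧
      (∀ x ∈ A, ∀ y ∈ A, x ≠ y → Rep c A (sw c G x y) ∧ (sw c G x y).Adj x y ∧
        Cl 1 G (sw c G x y))

/-- J19 switching several pairs with pairwise different colours -/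
def tSwM : Prop :=
  ∀ (V : Type) [Fintype V] [DecidableEq V] (c : Sym2 V → ℕ) (G : SimpleGraph V)
    (P : Finset (Sym2 V)), Rep c univ G → (∀ e ∈ P, ¬ e.IsDiag) →
    (∀ e ∈ P, ∀ f ∈ P, c e = c f → e = f) →
    ∃ G' : SimpleGraph V, Rep c univ G' ∧ Cl P.card G G' ∧ (∀ e ∈ P, e ∈ G'.edgeSet) ∧
      (∀ u v, G.Adj u v → (∀ e ∈ P, c e ≠ c s(u, v)) → G'.Adj u v) ∧
      (∀ u v, G'.Adj u v → G.Adj u v ∨ s(u, v) ∈ P)

/-- J20 counting edges -/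
def tStar : Prop :=
  ∀ (V : Type) [Fintype V] [DecidableEq V] (G : SimpleGraph V) (W Y S Lo : Finset V) (a b : ℝ),
    Disjoint W Y → W ∪ Y = univ → S ⊆ W → Lo ⊆ Y → 0 < a → 0 < b →
    (∀ v ∈ W \ S, (dg G Y v : ℝ) + a ≤ Y.card) → ((W \ S).card : ℝ) ≤ 2 / 5 * a →
    (∀ y ∈ Lo, (dg G W y : ℝ) + b ≤ W.card) → (∀ y ∈ Y, (dg G Y y : ℝ) ≤ b / 8) →
    (e2 G univ : ℝ) + miss G W Y ≤
      e2 (Gm G S) W + 2 * ((W.card : ℝ) * Y.card) + e2 G (Y \ Lo)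

/-- J22a robust families of triangles -/
def tRob : Prop :=
  ∀ θ : ℝ, 0 < θ → θ ≤ 1 / 10000 → ∃ N : ℕ, ∀ (V : Type) [Fintype V] [DecidableEq V]
    (G G' : SimpleGraph V) (k : ℕ) (W Y : Finset V), N ≤ Fintype.card V →
    PartI G k (θ ^ 2 / 10000) θ W Y → 0.28 * (Fintype.card V : ℝ) ≤ W.card →
    (W.card : ℝ) ^ 2 ≤ e2 G W + 0.00003 * (Fintype.card V : ℝ) ^ 2 → Cl 60 G G' →
    ∀ (T₀ : Finset (Finset V)) (M₁ : Finset (V × V)) (r : ℕ), TF G' univ T₀ → MF G' W M₁ →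
      (∀ p ∈ M₁, p.1 ∈ Typ G W Y θ ∨ p.2 ∈ Typ G W Y θ) → Disjoint (vT T₀) (vM M₁) →
      (T₀.card : ℝ) ≤ θ * Fintype.card V / 100 → (M₁.card : ℝ) ≤ Fintype.card V / 1000 →
      r ≤ k + 1 → r ≤ T₀.card + M₁.card + (Xs G W Y θ \ (vT T₀ ∪ vM M₁)).card / 2 →
      HasT G' univ r

/-- J24 few vertices of `L` are covered by rainbow families -/
def tCover : Prop :=
  ∀ (V : Type) [Fintype V] [DecidableEq V] (c : Sym2 V → ℕ) (G G' : SimpleGraph V) (k J : ℕ)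
    (H L : Finset V) (T : Finset (Finset V)), ¬ HasR c univ (k + 1) → S4 G k J H L →
    Rep c univ G' → Cl 50 G G' → TF G' univ T → 3 * T.card ≤ 200 + 10 * J →
    H.card + (vT T ∩ L).card ≤ 3 * k + 2

/-- J24 rainbow graphs in colourings without certain rainbow triangles are forests -/
def tForest : Prop :=
  ∀ (V : Type) [Fintype V] [DecidableEq V] (c : Sym2 V → ℕ) (B L : Finset V)
    (R : SimpleGraph V), L ⊆ B → B.Nonempty →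
    (∀ x y, R.Adj x y → x ∈ B ∧ y ∈ B ∧ (x ∈ L ∨ y ∈ L)) →
    (∀ x y x' y', R.Adj x y → R.Adj x' y' → c s(x, y) = c s(x', y') → s(x, y) = s(x', y')) →
    (∀ x ∈ L, ∀ y ∈ L, ∀ z ∈ B, x ≠ y → y ≠ z → x ≠ z →
      c s(x, y) = c s(y, z) ∨ c s(x, y) = c s(x, z) ∨ c s(y, z) = c s(x, z)) →
    e2 R B ≤ 2 * (B.card - 1)

/-- J20 from the near structure to the refined partition -/
def tPart : Prop :=
  ∀ θ μ : ℝ, 0 < θ → θ ≤ 1 / 1000 → 0 < μ → ∃ η : ℝ, 0 < η ∧ ∃ N : ℕ, ∀ (V : Type) [Fintype V]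
    [DecidableEq V] (G : SimpleGraph V) (k : ℕ), N ≤ Fintype.card V →
    NearI G univ k η (1 / 25) → ∃ W Y, PartI G k μ θ W Y

/-- J21 exact analysis, many vertices in `W` -/
def tDIi : Prop :=
  ∀ η : ℝ, 0 < η → ∃ θ₀ : ℝ, 0 < θ₀ ∧ ∀ θ : ℝ, 0 < θ → θ ≤ θ₀ → ∃ μ : ℝ, 0 < μ ∧ ∃ N : ℕ,
    ∀ (V : Type) [Fintype V] [DecidableEq V] (c : Sym2 V → ℕ) (G : SimpleGraph V) (k : ℕ)
      (W Y : Finset V), N ≤ Fintype.card V → 1 ≤ k → Rep c univ G → ¬ HasR c univ (k + 1) →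
      PartI G k μ θ W Y → (Fintype.card V : ℝ) ^ 2 / 4 - Fintype.card V ≤ (cols c univ).card →
      2 * k + η * Fintype.card V ≤ W.card →
      (cols c univ).card ≤ EG W.card (k - 1) + W.card * Y.card + 1

/-- J22 exact analysis, few vertices in `W` -/
def tDIii : Prop :=
  ∃ η θ₀ : ℝ, 0 < η ∧ 0 < θ₀ ∧ ∀ θ : ℝ, 0 < θ → θ ≤ θ₀ → ∃ μ : ℝ, 0 < μ ∧ ∃ N : ℕ,
    ∀ (V : Type) [Fintype V] [DecidableEq V] (c : Sym2 V → ℕ) (G : SimpleGraph V) (k : ℕ)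
      (W Y : Finset V), N ≤ Fintype.card V → 1 ≤ k → Rep c univ G → ¬ HasR c univ (k + 1) →
      PartI G k μ θ W Y → (Fintype.card V : ℝ) ^ 2 / 4 - Fintype.card V ≤ (cols c univ).card →
      (k : ℝ) ≤ 0.3075 * Fintype.card V → W.card < 2 * k + η * Fintype.card V →
      (cols c univ).card ≤ (2 * k).choose 2 + 2 * k * (Fintype.card V - 2 * k) + 1 ∨
      (2 * k + 1 ≤ W.card ∧
        (cols c univ).card ≤ (2 * k - 1).choose 2 + W.card * Y.card + 1)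

/-- J23 the refined partition of the second type -/
def tS4 : Prop :=
  ∀ D : ℝ, ∀ J : ℕ, ∃ J' N : ℕ, ∀ (V : Type) [Fintype V] [DecidableEq V] (G : SimpleGraph V)
    (A L : Finset V) (k : ℕ), N ≤ Fintype.card V → 3 * k + 3 ≤ Fintype.card V →
    0.305 * Fintype.card V ≤ (k : ℝ) → Fintype.card V ≤ A.card + J → Pre4 G A k J L →
    2 * ph4 (Fintype.card V) k - D * Fintype.card V ≤ e2 G univ → ∃ H Λ, S4 G k J' H Λ

/-- J24 -/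
def tD4a : Prop :=
  ∀ J : ℕ, ∃ N : ℕ, ∀ (V : Type) [Fintype V] [DecidableEq V] (c : Sym2 V → ℕ)
    (G : SimpleGraph V) (k : ℕ) (H L : Finset V), N ≤ Fintype.card V → 1 ≤ k →
    3 * k + 3 ≤ Fintype.card V → Rep c univ G → ¬ HasR c univ (k + 1) → S4 G k J H L →
    H.card ≤ 3 * k + 2 ∧
    (H.card = 3 * k + 2 → (cols c univ).card ≤ X5 (Fintype.card V) (k - 1) + 1) ∧
    ((∀ x ∈ L, ∀ y ∈ L, ∀ z, x ≠ y → y ≠ z → x ≠ z →
      c s(x, y) = c s(y, z) ∨ c s(x, y) = c s(x, z) ∨ c s(y, z) = c s(x, z)) →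
      (cols c univ).card ≤ X5 (Fintype.card V) (k - 1) + 1)

/-- J24 -/
def tD4b : Prop :=
  ∀ J : ℕ, ∃ N : ℕ, ∀ (V : Type) [Fintype V] [DecidableEq V] (c : Sym2 V → ℕ)
    (G : SimpleGraph V) (k : ℕ) (H L : Finset V), N ≤ Fintype.card V →
    0.305 * Fintype.card V ≤ (k : ℝ) →
    3 * k + 3 ≤ Fintype.card V → Rep c univ G → ¬ HasR c univ (k + 1) → S4 G k J H L →
    H.card = 3 * k →
    (cols c univ).card ≤ max (X4 (Fintype.card V) (k - 1)) (X5 (Fintype.card V) (k - 1)) + 1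

/-- J24 -/
def tD4c : Prop :=
  ∀ J : ℕ, ∃ N : ℕ, ∀ (V : Type) [Fintype V] [DecidableEq V] (c : Sym2 V → ℕ)
    (G : SimpleGraph V) (k : ℕ) (H L : Finset V), N ≤ Fintype.card V →
    0.305 * Fintype.card V ≤ (k : ℝ) →
    3 * k + 3 ≤ Fintype.card V → Rep c univ G → ¬ HasR c univ (k + 1) → S4 G k J H L →
    H.card + 1 ≤ 3 * k → (cols c univ).card ≤ X4 (Fintype.card V) (k - 1) + 1

/-! ### Part 4: assembly -/

/-- J25 -/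
def tNumA : Prop :=
  ∃ D : ℝ, ∃ N : ℕ, ∀ n t : ℕ, N ≤ n → 3 * t + 6 ≤ n →
    phi n (t + 1) - D * n ≤ Xi n t ∧ (n : ℝ) ^ 2 / 4 - n ≤ Xi n t

/-- J25 -/
def tNumB : Prop :=
  ∃ N : ℕ, ∀ n t w : ℕ, N ≤ n → 3 * t + 6 ≤ n → ((t + 1 : ℕ) : ℝ) ≤ 0.3075 * n →
    (2 * (t + 1)).choose 2 + 2 * (t + 1) * (n - 2 * (t + 1)) ≤ Xi n t ∧
    (2 * (t + 1) + 1 ≤ w → w ≤ n → EG w t + w * (n - w) ≤ Xi n t)

/-- J25 -/
def tNumC : Prop :=
  ∃ N : ℕ, ∀ n t : ℕ, N ≤ n → 3 * t + 6 ≤ n → 0.305 * n ≤ ((t + 1 : ℕ) : ℝ) →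
    X4 n t ≤ Xi n t ∧ X5 n t ≤ Xi n t

/-- J26 -/
def tUpper : Prop :=
  ∃ N : ℕ, ∀ (V : Type) [Fintype V] [DecidableEq V] (c : Sym2 V → ℕ) (t : ℕ),
    N ≤ Fintype.card V → 3 * t + 6 ≤ Fintype.card V →
    Xi (Fintype.card V) t + 2 ≤ (cols c univ).card → HasR c univ (t + 2)

/-- J27 -/
def tLower : Prop :=
  ∃ N : ℕ, ∀ n t : ℕ, N ≤ n → 3 * t + 6 ≤ n → ∃ c : Sym2 (Fin n) → ℕ,
    (cols c univ).card = Xi n t + 1 ∧ ¬ HasR c univ (t + 2)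

/-- J28 -/
def tFinal : Prop := tUpper → tLower → tMain

end Pool.Agent.ART
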