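import Pool.Agent.ART.Basic
import Pool.Agent.ART.Targets

set_option autoImplicit false
set_option linter.unusedSectionVars false

/-! Anti-Ramsey numbers of vertex-disjoint triangles (MP_e56f3d_co): job J1, lexicographically
maximal pairs. -/

namespace Pool.Agent.ART

open Finset

variable {V : Type} [DecidableEq V]

namespace J1

lemma pm_empty (G : SimpleGraph V) (A : Finset V) : PM G A ∅ ∅ :=
  ⟨⟨by simp, by simp, by simp⟩, ⟨by simp, by simp⟩⟩

lemma exists_lexMax [Fintype V] (G : SimpleGraph V) (A : Finset V) : ∃ T M, LexMax G A T M := by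
  classical
  let S : Finset (Finset (Finset V) × Finset (V × V)) := univ.filter (fun p => PM G A p.1 p.2)
  have hS : S.Nonempty := ⟨(∅, ∅), by
    rw [Finset.mem_filter]
    exact ⟨Finset.mem_univ _, pm_empty G A⟩⟩
  obtain ⟨p, hp, hmax⟩ := Finset.exists_max_image S (fun p => p.1.card) hS
  let S' := S.filter (fun q => q.1.card = p.1.card)
  have hS' : S'.Nonempty := ⟨p, by
    rw [Finset.mem_filter]
    exact ⟨hp, rfl⟩⟩
  obtain ⟨q, hq, hmax'⟩ := Finset.exists_max_image S' (fun p => p.2.card) hS'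
  rw [Finset.mem_filter] at hq
  obtain ⟨hqS, hqc⟩ := hq
  have hqP : PM G A q.1 q.2 := (Finset.mem_filter.1 hqS).2
  refine ⟨q.1, q.2, ⟨hqP, ?_, ?_⟩⟩
  · intro T' M' h
    rw [hqc]
    exact hmax (T', M') (Finset.mem_filter.2 ⟨Finset.mem_univ _, h⟩)
  · intro T' M' h hc
    exact hmax' (T', M') (Finset.mem_filter.2
      ⟨Finset.mem_filter.2 ⟨Finset.mem_univ _, h⟩, by
        show T'.card = p.1.card
        rw [hc, hqc]⟩)

lemma vT_insert (s : Finset V) (T : Finset (Finset V)) : vT (insert s T) = s ∪ vT T := by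
  unfold vT
  rw [Finset.biUnion_insert]
  rfl

lemma mem_vT_erase {G : SimpleGraph V} {A : Finset V} {T : Finset (Finset V)} (h : TF G A T)
    {t : Finset V} (ht : t ∈ T) {v : V} (hv : v ∈ vT (T.erase t)) : v ∈ vT T ∧ v ∉ t := by
  obtain ⟨t', ht', hv'⟩ := mem_vT.1 hv
  rw [Finset.mem_erase] at ht'
  refine ⟨mem_vT.2 ⟨t', ht'.2, hv'⟩, fun hvt => ?_⟩
  exact (Finset.disjoint_left.1 (h.dis t' ht'.2 t ht ht'.1)) hv' hvt

lemma vM_insert (a b : V) (M : Finset (V × V)) {v : V} :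
    v ∈ vM (insert (a, b) M) ↔ v = a ∨ v = b ∨ v ∈ vM M := by
  rw [mem_vM, mem_vM]
  constructor
  · rintro ⟨p, hp, hv⟩
    rw [Finset.mem_insert] at hp
    rcases hp with rfl | hp
    · rcases hv with hv | hv
      · exact Or.inl hv
      · exact Or.inr (Or.inl hv)
    · exact Or.inr (Or.inr ⟨p, hp, hv⟩)
  · rintro (hv | hv | ⟨p, hp, hv⟩)
    · exact ⟨(a, b), Finset.mem_insert_self _ _, Or.inl hv⟩
    · exact ⟨(a, b), Finset.mem_insert_self _ _, Or.inr hv⟩
    · exact ⟨p, Finset.mem_insert_of_mem hp, hv⟩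

/-- adding an edge to a matching -/
lemma MF.insert {G : SimpleGraph V} {A : Finset V} {M : Finset (V × V)} (h : MF G A M)
    {a b : V} (hab : G.Adj a b) (ha : a ∈ A) (hb : b ∈ A) (ha' : a ∉ vM M) (hb' : b ∉ vM M) :
    MF G A (insert (a, b) M) ∧ (insert (a, b) M).card = M.card + 1 := by
  have hnot : (a, b) ∉ M := fun hm => ha' (mem_vM.2 ⟨(a, b), hm, Or.inl rfl⟩)
  have key : ∀ q ∈ M, a ≠ q.1 ∧ a ≠ q.2 ∧ b ≠ q.1 ∧ b ≠ q.2 := by
    intro q hq
    refine ⟨?_, ?_, ?_, ?_⟩
    · intro hh; exact ha' (mem_vM.2 ⟨q, hq, Or.inl hh⟩)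
    · intro hh; exact ha' (mem_vM.2 ⟨q, hq, Or.inr hh⟩)
    · intro hh; exact hb' (mem_vM.2 ⟨q, hq, Or.inl hh⟩)
    · intro hh; exact hb' (mem_vM.2 ⟨q, hq, Or.inr hh⟩)
  refine ⟨⟨?_, ?_⟩, Finset.card_insert_of_notMem hnot⟩
  · intro p hp
    rw [Finset.mem_insert] at hp
    rcases hp with rfl | hp
    · exact ⟨ha, hb, hab⟩
    · exact h.mem p hp
  · intro p hp q hq hne
    rw [Finset.mem_insert] at hp hq
    rcases hp with rfl | hp <;> rcases hq with rfl | hq
    · exact absurd rfl hne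
    · exact key q hq
    · obtain ⟨k1, k2, k3, k4⟩ := key p hp
      exact ⟨k1.symm, k3.symm, k2.symm, k4.symm⟩
    · exact h.dis p hp q hq hne

section facts

variable {G : SimpleGraph V} {A : Finset V} {T : Finset (Finset V)} {M : Finset (V × V)}

lemma mf_empty (G : SimpleGraph V) (A : Finset V) : MF G A ∅ := ⟨by simp, by simp⟩

/-- two disjoint triangles in `t ∪ R` contradict maximality -/
lemma two_tri (h : LexMax G A T M) {t : Finset V} (ht : t ∈ T) {x y z x' y' z' : V}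
    (h1 : Tri G x y z) (h2 : Tri G x' y' z')
    (hs1 : ({x, y, z} : Finset V) ⊆ t ∪ (A \ vT T))
    (hs2 : ({x', y', z'} : Finset V) ⊆ t ∪ (A \ vT T))
    (hd : Disjoint ({x, y, z} : Finset V) {x', y', z'}) : False := by
  have htA := h.pm.tf.sub t ht
  have hsubA : ∀ s : Finset V, s ⊆ t ∪ (A \ vT T) → s ⊆ A := by
    intro s hs v hv
    have := hs hv
    rw [Finset.mem_union, Finset.mem_sdiff] at this
    rcases this with h3 | h3
    · exact htA h3
    · exact h3.1
  have hdis : ∀ s : Finset V, s ⊆ t ∪ (A \ vT T) → Disjoint s (vT (T.erase t)) := by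
    intro s hs
    rw [Finset.disjoint_left]
    intro v hv hv'
    obtain ⟨k1, k2⟩ := mem_vT_erase h.pm.tf ht hv'
    have := hs hv
    rw [Finset.mem_union, Finset.mem_sdiff] at this
    rcases this with h3 | h3
    · exact k2 h3
    · exact h3.2 k1
  have h0 : TF G A (T.erase t) := h.pm.tf.subset (Finset.erase_subset _ _)
  obtain ⟨a1, c1⟩ := h0.insert h1 (hsubA _ hs1) (hdis _ hs1)
  obtain ⟨a2, c2⟩ := a1.insert h2 (hsubA _ hs2) (by
    rw [vT_insert, Finset.disjoint_union_right]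
    exact ⟨hd.symm, hdis _ hs2⟩)
  have h3 := h.maxT _ ∅ ⟨a2, mf_empty _ _⟩
  have h4 := Finset.card_erase_add_one ht
  omega

lemma fact1 (h : LexMax G A T M) : ∀ x ∈ A \ vT T, NoTri G (A \ vT T) x := by
  intro x hx y hy z hz htri
  obtain ⟨a1, c1⟩ := h.pm.tf.insert htri (by
    intro v hv
    simp only [Finset.mem_insert, Finset.mem_singleton] at hv
    rcases hv with rfl | rfl | rfl
    · exact (Finset.mem_sdiff.1 hx).1
    · exact (Finset.mem_sdiff.1 hy).1
    · exact (Finset.mem_sdiff.1 hz).1) (by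
    rw [Finset.disjoint_left]
    intro v hv
    simp only [Finset.mem_insert, Finset.mem_singleton] at hv
    rcases hv with rfl | rfl | rfl
    · exact (Finset.mem_sdiff.1 hx).2
    · exact (Finset.mem_sdiff.1 hy).2
    · exact (Finset.mem_sdiff.1 hz).2)
  have h3 := h.maxT _ ∅ ⟨a1, mf_empty _ _⟩
  omega

lemma fact2 (h : LexMax G A T M) : Ind G ((A \ vT T) \ vM M) := by
  intro x hx y hy hxy
  rw [Finset.mem_sdiff] at hx hy
  obtain ⟨a1, c1⟩ := MF.insert h.pm.mf hxy hx.1 hy.1 hx.2 hy.2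
  have h3 := h.maxM T _ ⟨h.pm.tf, a1⟩ rfl
  omega

open Classical in
lemma dg_eq_card_iff (G : SimpleGraph V) (t : Finset V) (w : V) (hw : t.card ≤ dg G t w) :
    ∀ x ∈ t, G.Adj w x := by
  rw [dg_def] at hw
  have h1 : t.filter (fun u => G.Adj w u) = t :=
    Finset.eq_of_subset_of_card_le (Finset.filter_subset _ _) hw
  intro x hx
  rw [← h1, Finset.mem_filter] at hx
  exact hx.2

lemma fact3 (h : LexMax G A T M) : ∀ t ∈ T, ∑ x ∈ t, dg G ((A \ vT T) \ vM M) x ≤
    2 * ((A \ vT T) \ vM M).card + 1 := by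
  intro t ht
  set I := (A \ vT T) \ vM M with hI
  by_contra hcon
  push Not at hcon
  have ht3 := (h.pm.tf.clq t ht).card_eq
  have h1 : ∑ x ∈ t, dg G I x = ∑ w ∈ I, dg G t w := eb_comm G t I
  rw [h1] at hcon
  let J := I.filter (fun w => dg G t w = 3)
  have h2 : ∑ w ∈ I, dg G t w ≤ ∑ w ∈ I, (2 + if dg G t w = 3 then 1 else 0) := by
    refine Finset.sum_le_sum fun w _ => ?_
    have := dg_le_card G t w
    rw [ht3] at this
    split_ifs <;> omega
  rw [Finset.sum_add_distrib, Finset.sum_const, smul_eq_mul, ← Finset.card_filter] at h2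
  have h3 : 1 < J.card := by
    have : J.card = (I.filter (fun w => dg G t w = 3)).card := rfl
    omega
  obtain ⟨w, hw, w', hw', hne⟩ := Finset.one_lt_card.1 h3
  rw [Finset.mem_filter] at hw hw'
  have aw := dg_eq_card_iff G t w (by rw [ht3, hw.2])
  have aw' := dg_eq_card_iff G t w' (by rw [ht3, hw'.2])
  obtain ⟨x, y, z, htri, rfl⟩ := (isNClique_iff_tri G t).1 (h.pm.tf.clq t ht)
  have wI := hw.1
  have wI' := hw'.1
  rw [hI, Finset.mem_sdiff, Finset.mem_sdiff] at wI wI'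
  have hxt : x ∈ ({x, y, z} : Finset V) := by simp
  have hyt : y ∈ ({x, y, z} : Finset V) := by simp
  have hzt : z ∈ ({x, y, z} : Finset V) := by simp
  have tT : ∀ v ∈ ({x, y, z} : Finset V), v ∈ vT T := fun v hv => mem_vT.2 ⟨_, ht, hv⟩
  have hwt : ∀ v ∈ ({x, y, z} : Finset V), v ≠ w ∧ v ≠ w' := by
    intro v hv
    refine ⟨?_, ?_⟩
    · rintro rfl; exact wI.1.2 (tT _ hv)
    · rintro rfl; exact wI'.1.2 (tT _ hv)
  -- the new triangle `w x y`
  have htri' : Tri G w x y := ⟨aw x hxt, htri.1, aw y hyt⟩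
  have h0 : TF G A (T.erase {x, y, z}) := h.pm.tf.subset (Finset.erase_subset _ _)
  have tA := h.pm.tf.sub _ ht
  obtain ⟨a1, c1⟩ := h0.insert htri' (by
    intro v hv
    simp only [Finset.mem_insert, Finset.mem_singleton] at hv
    rcases hv with rfl | rfl | rfl
    · exact wI.1.1
    · exact tA hxt
    · exact tA hyt) (by
    rw [Finset.disjoint_left]
    intro v hv hv'
    obtain ⟨k1, k2⟩ := mem_vT_erase h.pm.tf ht hv'
    simp only [Finset.mem_insert, Finset.mem_singleton] at hv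
    rcases hv with rfl | rfl | rfl
    · exact wI.1.2 k1
    · exact k2 hxt
    · exact k2 hyt)
  have c2 := Finset.card_erase_add_one ht
  have hvT : ∀ v ∈ vT (insert {w, x, y} (T.erase {x, y, z})), v = w ∨ v = x ∨ v = y ∨
      (v ∈ vT T ∧ v ∉ ({x, y, z} : Finset V)) := by
    intro v hv
    rw [vT_insert, Finset.mem_union] at hv
    rcases hv with hv | hv
    · simp only [Finset.mem_insert, Finset.mem_singleton] at hv
      tauto
    · exact Or.inr (Or.inr (Or.inr (mem_vT_erase h.pm.tf ht hv)))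
  have hM0 : MF G (A \ vT (insert {w, x, y} (T.erase {x, y, z}))) M := by
    refine ⟨fun p hp => ?_, h.pm.mf.dis⟩
    obtain ⟨m1, m2, m3⟩ := h.pm.mf.mem p hp
    have step : ∀ v ∈ A \ vT T, v ∈ vM M → v ∈ A \ vT (insert {w, x, y} (T.erase {x, y, z})) := by
      intro v hv hvM
      rw [Finset.mem_sdiff] at hv ⊢
      refine ⟨hv.1, fun hv2 => ?_⟩
      rcases hvT v hv2 with rfl | rfl | rfl | hv3
      · exact wI.2 hvM
      · exact hv.2 (tT _ hxt)
      · exact hv.2 (tT _ hyt)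
      · exact hv.2 hv3.1
    exact ⟨step _ m1 (mem_vM.2 ⟨p, hp, Or.inl rfl⟩), step _ m2 (mem_vM.2 ⟨p, hp, Or.inr rfl⟩), m3⟩
  obtain ⟨a2, c3⟩ := MF.insert hM0 (a := z) (b := w') (aw' z hzt).symm (by
    rw [Finset.mem_sdiff]
    refine ⟨tA hzt, fun hv2 => ?_⟩
    rcases hvT z hv2 with h4 | h4 | h4 | h4
    · exact (hwt z hzt).1 h4
    · exact htri.2.2.ne h4.symm
    · exact htri.2.1.ne h4.symm
    · exact h4.2 hzt) (by
    rw [Finset.mem_sdiff]
    refine ⟨wI'.1.1, fun hv2 => ?_⟩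
    rcases hvT w' hv2 with h4 | h4 | h4 | h4
    · exact hne h4.symm
    · exact (hwt x hxt).2 h4.symm
    · exact (hwt y hyt).2 h4.symm
    · exact wI'.1.2 h4.1) (by
    intro hzM
    have := h.pm.mf.vM_sub hzM
    rw [Finset.mem_sdiff] at this
    exact this.2 (tT _ hzt)) wI'.2
  have h5 := h.maxM _ _ ⟨a1, a2⟩ (by omega)
  omega

lemma adj_of_clique (h : LexMax G A T M) {t : Finset V} (ht : t ∈ T) {y z : V} (hy : y ∈ t)
    (hz : z ∈ t) (hne : y ≠ z) : G.Adj y z :=
  (h.pm.tf.clq t ht).1 (by exact_mod_cast hy) (by exact_mod_cast hz) hne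

lemma notMem_R {t : Finset V} (htT : t ∈ T) {v : V} (hv : v ∈ t) :
    v ∉ A \ vT T := fun h => (Finset.mem_sdiff.1 h).2 (mem_vT.2 ⟨t, htT, hv⟩)

lemma see_bound (h : LexMax G A T M) {t : Finset V} (ht : t ∈ T) {x : V} (hx : x ∈ t)
    {e : V × V} (he : e ∈ M) (hs1 : G.Adj x e.1) (hs2 : G.Adj x e.2) {f : V × V} (hf : f ∈ M)
    (hne : f ≠ e) {u : V} (hu : u = f.1 ∨ u = f.2) : dg G (t.erase x) u ≤ 1 := by
  by_contra hcon
  push Not at hcon
  have hc := Finset.card_erase_add_one hx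
  rw [(h.pm.tf.clq t ht).card_eq] at hc
  have hadj := dg_eq_card_iff G (t.erase x) u (by omega)
  obtain ⟨y, z, hyz, heq⟩ := Finset.card_eq_two.1 (by omega : (t.erase x).card = 2)
  have hy : y ∈ t.erase x := by rw [heq]; simp
  have hz : z ∈ t.erase x := by rw [heq]; simp
  have hyt := Finset.mem_of_mem_erase hy
  have hzt := Finset.mem_of_mem_erase hz
  have hyx := Finset.ne_of_mem_erase hy
  have hzx := Finset.ne_of_mem_erase hz
  obtain ⟨e1, e2, e3⟩ := h.pm.mf.mem e he
  obtain ⟨f1, f2, f3⟩ := h.pm.mf.mem f hf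
  have huR : u ∈ A \ vT T := by
    rcases hu with rfl | rfl
    · exact f1
    · exact f2
  obtain ⟨d1, d2, d3, d4⟩ := h.pm.mf.dis f hf e he hne
  have hue : u ≠ e.1 ∧ u ≠ e.2 := by
    rcases hu with rfl | rfl
    · exact ⟨d1, d2⟩
    · exact ⟨d3, d4⟩
  have nR : ∀ v ∈ t, v ∉ A \ vT T := fun v hv => notMem_R ht hv
  refine two_tri h ht (x := x) (y := e.1) (z := e.2) (x' := y) (y' := z) (z' := u)
    ⟨hs1, e3, hs2⟩ ⟨adj_of_clique h ht hyt hzt hyz, (hadj z hz).symm, (hadj y hy).symm⟩ ?_ ?_ ?_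
  · intro v hv
    simp only [Finset.mem_insert, Finset.mem_singleton] at hv
    rw [Finset.mem_union]
    rcases hv with rfl | rfl | rfl
    · exact Or.inl hx
    · exact Or.inr e1
    · exact Or.inr e2
  · intro v hv
    simp only [Finset.mem_insert, Finset.mem_singleton] at hv
    rw [Finset.mem_union]
    rcases hv with rfl | rfl | rfl
    · exact Or.inl hyt
    · exact Or.inl hzt
    · exact Or.inr huR
  · rw [Finset.disjoint_left]
    intro v hv hv'
    simp only [Finset.mem_insert, Finset.mem_singleton] at hv hv'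
    rcases hv with rfl | rfl | rfl
    · rcases hv' with h5 | h5 | h5
      · exact hyx h5.symm
      · exact hzx h5.symm
      · exact nR _ hx (by rw [h5]; exact huR)
    · rcases hv' with h5 | h5 | h5
      · exact nR _ hyt (by rw [← h5]; exact e1)
      · exact nR _ hzt (by rw [← h5]; exact e1)
      · exact hue.1 h5.symm
    · rcases hv' with h5 | h5 | h5
      · exact nR _ hyt (by rw [← h5]; exact e2)
      · exact nR _ hzt (by rw [← h5]; exact e2)
      · exact hue.2 h5.symm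

lemma see_unique (h : LexMax G A T M) {t : Finset V} (ht : t ∈ T) {x x' : V} (hx : x ∈ t)
    (hx' : x' ∈ t) {e f : V × V} (he : e ∈ M) (hf : f ∈ M) (hne : f ≠ e) (hs1 : G.Adj x e.1)
    (hs2 : G.Adj x e.2) (hs1' : G.Adj x' f.1) (hs2' : G.Adj x' f.2) : x' = x := by
  by_contra hxx
  obtain ⟨e1, e2, e3⟩ := h.pm.mf.mem e he
  obtain ⟨f1, f2, f3⟩ := h.pm.mf.mem f hf
  obtain ⟨d1, d2, d3, d4⟩ := h.pm.mf.dis f hf e he hne
  have nR : ∀ v ∈ t, v ∉ A \ vT T := fun v hv => notMem_R ht hv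
  refine two_tri h ht (x := x) (y := e.1) (z := e.2) (x' := x') (y' := f.1) (z' := f.2)
    ⟨hs1, e3, hs2⟩ ⟨hs1', f3, hs2'⟩ ?_ ?_ ?_
  · intro v hv
    simp only [Finset.mem_insert, Finset.mem_singleton] at hv
    rw [Finset.mem_union]
    rcases hv with rfl | rfl | rfl
    · exact Or.inl hx
    · exact Or.inr e1
    · exact Or.inr e2
  · intro v hv
    simp only [Finset.mem_insert, Finset.mem_singleton] at hv
    rw [Finset.mem_union]
    rcases hv with rfl | rfl | rfl
    · exact Or.inl hx'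
    · exact Or.inr f1
    · exact Or.inr f2
  · rw [Finset.disjoint_left]
    intro v hv hv'
    simp only [Finset.mem_insert, Finset.mem_singleton] at hv hv'
    rcases hv with rfl | rfl | rfl
    · rcases hv' with h5 | h5 | h5
      · exact hxx h5.symm
      · exact nR _ hx (by rw [h5]; exact f1)
      · exact nR _ hx (by rw [h5]; exact f2)
    · rcases hv' with h5 | h5 | h5
      · exact nR _ hx' (by rw [← h5]; exact e1)
      · exact d1 h5.symm
      · exact d3 h5.symm
    · rcases hv' with h5 | h5 | h5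
      · exact nR _ hx' (by rw [← h5]; exact e2)
      · exact d2 h5.symm
      · exact d4 h5.symm

open Classical in
lemma disj_sum (G : SimpleGraph V) (B : Finset V) (u v : V)
    (hno : ∀ x ∈ B, ¬ (G.Adj u x ∧ G.Adj v x)) : dg G B u + dg G B v ≤ B.card := by
  rw [dg_def, dg_def, ← Finset.card_union_of_disjoint]
  · apply Finset.card_le_card
    intro x hx
    rw [Finset.mem_union, Finset.mem_filter, Finset.mem_filter] at hx
    tauto
  · rw [Finset.disjoint_left]
    intro x hx hx'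
    rw [Finset.mem_filter] at hx hx'
    exact hno x hx.1 ⟨hx.2, hx'.2⟩

lemma trichotomy (h : LexMax G A T M) {t : Finset V} (ht : t ∈ T) :
    ∑ x ∈ t, dg G (vM M) x ≤ 3 * M.card + 3 ∨
    ∃ x ∈ t, ∑ y ∈ t.erase x, dg G (vM M) y ≤ 2 * M.card ∧
      ∑ y ∈ t, dg G (vM M) y ≤ 4 * M.card := by
  have ht3 := (h.pm.tf.clq t ht).card_eq
  have hsum := h.pm.mf.sum_dg (G := G) t
  by_cases hsee : ∃ e ∈ M, ∃ x ∈ t, G.Adj x e.1 ∧ G.Adj x e.2
  · obtain ⟨e, he, x, hx, hs1, hs2⟩ := hsee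
    by_cases hsee2 : ∃ f ∈ M, f ≠ e ∧ ∃ x' ∈ t, G.Adj x' f.1 ∧ G.Adj x' f.2
    · obtain ⟨f, hf, hne, x', hx', hs1', hs2'⟩ := hsee2
      have hxx := see_unique h ht hx hx' he hf hne hs1 hs2 hs1' hs2'
      subst hxx
      right
      refine ⟨x', hx, ?_⟩
      have hb : ∀ p ∈ M, dg G (t.erase x') p.1 + dg G (t.erase x') p.2 ≤ 2 := by
        intro p hp
        by_cases hpe : p = e
        · subst hpe
          have k1 := see_bound h ht hx' hf hs1' hs2' hp hne.symm (Or.inl rfl)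
          have k2 := see_bound h ht hx' hf hs1' hs2' hp hne.symm (Or.inr rfl)
          omega
        · have k1 := see_bound h ht hx' he hs1 hs2 hp hpe (Or.inl rfl)
          have k2 := see_bound h ht hx' he hs1 hs2 hp hpe (Or.inr rfl)
          omega
      have h1 : ∑ y ∈ t.erase x', dg G (vM M) y ≤ 2 * M.card := by
        rw [h.pm.mf.sum_dg]
        calc ∑ p ∈ M, (dg G (t.erase x') p.1 + dg G (t.erase x') p.2) ≤ ∑ _p ∈ M, 2 :=
              Finset.sum_le_sum hb
          _ = 2 * M.card := by rw [Finset.sum_const, smul_eq_mul, mul_comm]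
      refine ⟨h1, ?_⟩
      have h2 := Finset.add_sum_erase t (fun y => dg G (vM M) y) hx
      have h3 := dg_le_card G (vM M) x'
      rw [h.pm.mf.card_vM] at h3
      omega
    · left
      push Not at hsee2
      rw [hsum, ← Finset.add_sum_erase M _ he]
      have h1 : ∑ p ∈ M.erase e, (dg G t p.1 + dg G t p.2) ≤ 3 * (M.erase e).card := by
        calc ∑ p ∈ M.erase e, (dg G t p.1 + dg G t p.2) ≤ ∑ _p ∈ M.erase e, 3 := by
              refine Finset.sum_le_sum fun p hp => ?_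
              rw [Finset.mem_erase] at hp
              rw [← ht3]
              refine disj_sum G t p.1 p.2 fun y hy hh => ?_
              exact hsee2 p hp.2 hp.1 y hy hh.1.symm hh.2.symm
          _ = 3 * (M.erase e).card := by rw [Finset.sum_const, smul_eq_mul, mul_comm]
      have h2 := dg_le_card G t e.1
      have h3 := dg_le_card G t e.2
      have h4 := Finset.card_erase_add_one he
      omega
  · left
    push Not at hsee
    rw [hsum]
    have h1 : ∑ p ∈ M, (dg G t p.1 + dg G t p.2) ≤ 3 * M.card := by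
      calc ∑ p ∈ M, (dg G t p.1 + dg G t p.2) ≤ ∑ _p ∈ M, 3 := by
            refine Finset.sum_le_sum fun p hp => ?_
            rw [← ht3]
            refine disj_sum G t p.1 p.2 fun y hy hh => ?_
            exact hsee p hp y hy hh.1.symm hh.2.symm
        _ = 3 * M.card := by rw [Finset.sum_const, smul_eq_mul, mul_comm]
    omega

lemma fact6 (h : LexMax G A T M) : ∀ p ∈ M,
    dg G (A \ vT T) p.1 + dg G (A \ vT T) p.2 ≤ (A \ vT T).card := by
  intro p hp
  obtain ⟨m1, m2, m3⟩ := h.pm.mf.mem p hp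
  refine disj_sum G _ p.1 p.2 fun x hx hh => ?_
  exact fact1 h p.1 m1 p.2 m2 x hx ⟨m3, hh.2, hh.1⟩

lemma fact7 (h : LexMax G A T M) : ∀ w ∈ (A \ vT T) \ vM M, dg G (A \ vT T) w ≤ M.card := by
  intro w hw
  have hwR := (Finset.mem_sdiff.1 hw).1
  have h1 := dg_sdiff G (h.pm.mf.vM_sub) w
  have h2 : dg G ((A \ vT T) \ vM M) w = 0 := by
    rw [dg_eq_zero_iff]
    intro u hu
    exact fact2 h w hw u hu
  have h3 := h.pm.mf.sum_dg (G := G) {w}
  rw [Finset.sum_singleton] at h3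
  have h4 : ∑ p ∈ M, (dg G {w} p.1 + dg G {w} p.2) ≤ ∑ _p ∈ M, 1 := by
    refine Finset.sum_le_sum fun p hp => ?_
    obtain ⟨m1, m2, m3⟩ := h.pm.mf.mem p hp
    refine (disj_sum G {w} p.1 p.2 fun x hx hh => ?_).trans (by simp)
    rw [Finset.mem_singleton] at hx
    subst hx
    exact fact1 h p.1 m1 p.2 m2 x hwR ⟨m3, hh.2, hh.1⟩
  rw [Finset.sum_const, smul_eq_mul, mul_one] at h4
  omega

end facts

end J1

theorem pLexEx : tLexEx := fun _ _ _ G A => J1.exists_lexMax G A

theorem pLexFacts : tLexFacts := by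
  intro V _ _ G A T M h
  refine ⟨J1.fact1 h, J1.fact2 h, J1.fact3 h, ?_, ?_, J1.fact6 h, J1.fact7 h⟩
  · intro hm t ht
    rcases J1.trichotomy h ht with h1 | ⟨x, _, _, h1⟩
    · omega
    · exact h1
  · intro t ht hlt
    rcases J1.trichotomy h ht with h1 | ⟨x, hx, h1, _⟩
    · omega
    · exact ⟨x, hx, h1⟩

end Pool.Agent.ART
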