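import Pool.Agent.ART.Basic
import Pool.Agent.ART.Targets

set_option autoImplicit false

/-! Anti-Ramsey numbers of vertex-disjoint triangles (MP_e56f3d_co), job J11: extending a
matching to triangles. -/

namespace Pool.Agent.ART

open Finset

variable {V : Type}

open Classical in
/-- common neighbours of the two ends of a pair -/
noncomputable def cnb (G : SimpleGraph V) (Y : Finset V) (p : V × V) : Finset V :=
  Y.filter (fun y => G.Adj p.1 y ∧ G.Adj p.2 y)

lemma mem_cnb {G : SimpleGraph V} {Y : Finset V} {p : V × V} {y : V} :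
    y ∈ cnb G Y p ↔ y ∈ Y ∧ G.Adj p.1 y ∧ G.Adj p.2 y := by
  classical
  unfold cnb
  rw [Finset.mem_filter]

lemma card_cnb (G : SimpleGraph V) (Y : Finset V) (p : V × V) :
    dg G Y p.1 + dg G Y p.2 ≤ (cnb G Y p).card + Y.card := by
  classical
  rw [dg_def, dg_def]
  have h1 := Finset.card_inter_add_card_union (Y.filter (fun u => G.Adj p.1 u))
    (Y.filter (fun u => G.Adj p.2 u))
  have h2 : (Y.filter (fun u => G.Adj p.1 u)) ∩ (Y.filter (fun u => G.Adj p.2 u)) =
      cnb G Y p := by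
    ext y
    rw [Finset.mem_inter, Finset.mem_filter, Finset.mem_filter, mem_cnb]
    tauto
  have h3 : ((Y.filter (fun u => G.Adj p.1 u)) ∪ (Y.filter (fun u => G.Adj p.2 u))).card ≤
      Y.card := Finset.card_le_card
        (Finset.union_subset (Finset.filter_subset _ _) (Finset.filter_subset _ _))
  rw [h2] at h1
  omega

variable [DecidableEq V]

/-- extending the edges of a matching by distinct vertices -/
lemma hasT_of_choice {G : SimpleGraph V} {A W Y U : Finset V} {M : Finset (V × V)}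
    (hWA : W ⊆ A) (hYA : Y ⊆ A) (hWY : Disjoint W Y) (hM : MF G W M) (hU : Disjoint U (vM M))
    (f : {p // p ∈ M} → V) (hf : Function.Injective f)
    (hfY : ∀ p, f p ∈ cnb G Y p.1 \ U) : HasT G (A \ U) M.card := by
  have hfY' : ∀ p, f p ∈ Y ∧ G.Adj p.1.1 (f p) ∧ G.Adj p.1.2 (f p) ∧ f p ∉ U := by
    intro p
    have h := hfY p
    rw [Finset.mem_sdiff, mem_cnb] at h
    exact ⟨h.1.1, h.1.2.1, h.1.2.2, h.2⟩
  have htri : ∀ p : {p // p ∈ M}, Tri G p.1.1 p.1.2 (f p) := fun p =>
    ⟨(hM.mem p.1 p.2).2.2, (hfY' p).2.2.1, (hfY' p).2.1⟩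
  have hdisj : ∀ p q : {p // p ∈ M}, p ≠ q →
      Disjoint ({p.1.1, p.1.2, f p} : Finset V) {q.1.1, q.1.2, f q} := by
    intro p q hpq
    have hne : p.1 ≠ q.1 := fun h => hpq (Subtype.ext h)
    obtain ⟨h1, h2, h3, h4⟩ := hM.dis p.1 p.2 q.1 q.2 hne
    have h5 : f p ≠ f q := fun h => hpq (hf h)
    have hW : ∀ r s : {p // p ∈ M}, f r ≠ s.1.1 ∧ f r ≠ s.1.2 := by
      intro r s
      have hr := (hfY' r).1
      have hs := hM.mem s.1 s.2
      rw [Finset.disjoint_left] at hWY
      exact ⟨fun h => hWY hs.1 (h ▸ hr), fun h => hWY hs.2.1 (h ▸ hr)⟩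
    have h6 := hW p q
    have h7 := hW q p
    rw [Finset.disjoint_left]
    intro v hv hv'
    simp only [Finset.mem_insert, Finset.mem_singleton] at hv hv'
    rcases hv with rfl | rfl | rfl
    · rcases hv' with h | h | h
      · exact h1 h
      · exact h2 h
      · exact h7.1 h.symm
    · rcases hv' with h | h | h
      · exact h3 h
      · exact h4 h
      · exact h7.2 h.symm
    · rcases hv' with h | h | h
      · exact h6.1 h
      · exact h6.2 h
      · exact h5 h
  have hinj : Function.Injective (fun p : {p // p ∈ M} =>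
      ({p.1.1, p.1.2, f p} : Finset V)) := by
    intro p q hpq
    by_contra hne
    have h := hdisj p q hne
    simp only at hpq
    rw [hpq, disjoint_self, Finset.bot_eq_empty] at h
    exact Finset.insert_ne_empty _ _ h
  refine ⟨M.attach.image (fun p => ({p.1.1, p.1.2, f p} : Finset V)), ⟨?_, ?_, ?_⟩, ?_⟩
  · intro t ht
    obtain ⟨p, _, rfl⟩ := Finset.mem_image.1 ht
    intro v hv
    rw [Finset.mem_sdiff]
    simp only [Finset.mem_insert, Finset.mem_singleton] at hv
    have hpM := hM.mem p.1 p.2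
    rw [Finset.disjoint_right] at hU
    rcases hv with rfl | rfl | rfl
    · exact ⟨hWA hpM.1, hU (mem_vM.2 ⟨p.1, p.2, Or.inl rfl⟩)⟩
    · exact ⟨hWA hpM.2.1, hU (mem_vM.2 ⟨p.1, p.2, Or.inr rfl⟩)⟩
    · exact ⟨hYA (hfY' p).1, (hfY' p).2.2.2⟩
  · intro t ht
    obtain ⟨p, _, rfl⟩ := Finset.mem_image.1 ht
    exact (htri p).clique
  · intro t ht t' ht' hne
    obtain ⟨p, _, rfl⟩ := Finset.mem_image.1 ht
    obtain ⟨q, _, rfl⟩ := Finset.mem_image.1 ht'
    exact hdisj p q (fun h => hne (by rw [h]))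
  · rw [Finset.card_image_of_injective _ hinj, Finset.card_attach]

/-- J11 -/
theorem pTileI : tTileI := by
  intro V _ _ G A W Y M T₀ a d D hWA hYA hWY hM hT hTM hTa hD hbad hgood hdD hY
  classical
  have hvT : (vT T₀).card ≤ 3 * a := by
    rw [hT.card_vT]
    omega
  have hN : ∀ p : V × V, dg G Y p.1 + dg G Y p.2 ≤ (cnb G Y p \ vT T₀).card + 3 * a + Y.card := by
    intro p
    have h1 := card_cnb G Y p
    have h2 := Finset.le_card_sdiff (vT T₀) (cnb G Y p)
    omega
  -- the bad edges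
  set M1 := M.filter (fun p => dg G Y p.1 + d < Y.card ∨ dg G Y p.2 + d < Y.card) with hM1
  have hM1a : M1.card ≤ a := by
    refine le_trans ?_ hbad
    refine Finset.card_le_card_of_injOn
      (fun p => if dg G Y p.1 + d < Y.card then p.1 else p.2) ?_ ?_
    · intro p hp
      rw [Finset.mem_coe, hM1, Finset.mem_filter] at hp
      rw [Finset.mem_coe, Finset.mem_filter]
      have hpM := hM.mem p hp.1
      by_cases h : dg G Y p.1 + d < Y.card
      · simp only [h, if_true]
        exact ⟨hpM.1, trivial⟩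
      · simp only [h, if_false]
        exact ⟨hpM.2.1, hp.2.resolve_left h⟩
    · intro p hp q hq hpq
      rw [Finset.mem_coe, hM1, Finset.mem_filter] at hp hq
      by_contra hne
      obtain ⟨h1, h2, h3, h4⟩ := hM.dis p hp.1 q hq.1 hne
      simp only at hpq
      split_ifs at hpq
      · exact h1 hpq
      · exact h2 hpq
      · exact h3 hpq
      · exact h4 hpq
  have hcard1 : ∀ p ∈ M, a ≤ (cnb G Y p \ vT T₀).card := by
    intro p hp
    have h1 := hN p
    have hpM := hM.mem p hp
    have h2 := hD p.1 hpM.1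
    have h3 := hD p.2 hpM.2.1
    rcases hgood p hp with h4 | h4
    · omega
    · omega
  have hcard2 : ∀ p ∈ M, p ∉ M1 → M.card ≤ (cnb G Y p \ vT T₀).card := by
    intro p hp hp1
    have h1 := hN p
    have h2 : ¬ (dg G Y p.1 + d < Y.card ∨ dg G Y p.2 + d < Y.card) := by
      intro h
      exact hp1 (by rw [hM1, Finset.mem_filter]; exact ⟨hp, h⟩)
    push Not at h2
    omega
  have hall : ∀ s : Finset {p // p ∈ M},
      s.card ≤ (s.biUnion (fun p => cnb G Y p.1 \ vT T₀)).card := by
    intro s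
    rcases s.eq_empty_or_nonempty with rfl | ⟨p₀, hp₀⟩
    · simp
    by_cases hs : ∃ p ∈ s, p.1 ∉ M1
    · obtain ⟨p, hp, hp1⟩ := hs
      calc s.card ≤ Fintype.card {p // p ∈ M} := Finset.card_le_univ s
        _ = M.card := Fintype.card_coe M
        _ ≤ (cnb G Y p.1 \ vT T₀).card := hcard2 p.1 p.2 hp1
        _ ≤ _ := Finset.card_le_card
          (Finset.subset_biUnion_of_mem (fun p : {p // p ∈ M} => cnb G Y p.1 \ vT T₀) hp)
    · push Not at hs
      have h1 : s.card ≤ M1.card := by
        refine Finset.card_le_card_of_injOn (fun p => p.1) ?_ ?_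
        · intro p hp
          exact hs p hp
        · intro p _ q _ hpq
          exact Subtype.ext hpq
      calc s.card ≤ M1.card := h1
        _ ≤ a := hM1a
        _ ≤ (cnb G Y p₀.1 \ vT T₀).card := hcard1 p₀.1 p₀.2
        _ ≤ _ := Finset.card_le_card
          (Finset.subset_biUnion_of_mem (fun p : {p // p ∈ M} => cnb G Y p.1 \ vT T₀) hp₀)
  obtain ⟨f, hf, hfY⟩ := (Finset.all_card_le_biUnion_card_iff_exists_injective
    (fun p : {p // p ∈ M} => cnb G Y p.1 \ vT T₀)).1 hall
  have h1 := hasT_of_choice hWA hYA hWY hM hTM f hf hfY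
  have h2 : HasT G (vT T₀) T₀.card := ⟨T₀, ⟨fun t ht v hv => mem_vT.2 ⟨t, ht, hv⟩, hT.clq,
    hT.dis⟩, rfl⟩
  have h3 := h1.union h2 Finset.sdiff_disjoint
  rwa [Finset.sdiff_union_of_subset hT.vT_sub] at h3

end Pool.Agent.ART
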