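import Pool.Agent.ART.Basic
import Pool.Agent.ART.Targets

set_option autoImplicit false

/-! Anti-Ramsey numbers of vertex-disjoint triangles (MP_e56f3d_co): jobs J12 and J15. -/

namespace Pool.Agent.ART

open Finset

namespace J12

variable {V : Type} [DecidableEq V]

open Classical in
lemma sum_pairs_left (G : SimpleGraph V) (A : Finset V) :
    ∑ u ∈ A, ∑ _v ∈ A.filter (fun v => G.Adj u v), dg G A u = ∑ u ∈ A, dg G A u ^ 2 := by
  refine Finset.sum_congr rfl fun u _ => ?_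
  rw [Finset.sum_const, smul_eq_mul, ← dg_def, sq]

open Classical in
lemma sum_pairs_right (G : SimpleGraph V) (A : Finset V) :
    ∑ u ∈ A, ∑ v ∈ A.filter (fun v => G.Adj u v), dg G A v = ∑ u ∈ A, dg G A u ^ 2 := by
  rw [← sum_pairs_left]
  simp only [Finset.sum_filter]
  rw [Finset.sum_comm]
  refine Finset.sum_congr rfl fun u _ => Finset.sum_congr rfl fun v _ => ?_
  simp only [G.adj_comm]

/-- an edge with large degree sum -/
lemma exists_edge (G : SimpleGraph V) (A : Finset V) (h : 0 < e2 G A) :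
    ∃ u ∈ A, ∃ v ∈ A, G.Adj u v ∧ 2 * e2 G A ≤ (dg G A u + dg G A v) * A.card := by
  classical
  by_contra hcon
  push Not at hcon
  have hcs : (e2 G A) ^ 2 ≤ A.card * ∑ u ∈ A, dg G A u ^ 2 := by
    have := sq_sum_le_card_mul_sum_sq (s := A) (f := fun u => (dg G A u : ℝ))
    have h2 : ((e2 G A : ℕ) : ℝ) = ∑ u ∈ A, (dg G A u : ℝ) := by
      unfold e2
      push_cast
      rfl
    rw [← h2] at this
    have h3 : (((e2 G A) ^ 2 : ℕ) : ℝ) ≤ ((A.card * ∑ u ∈ A, dg G A u ^ 2 : ℕ) : ℝ) := by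
      push_cast
      exact this
    exact_mod_cast h3
  have hle : ∑ u ∈ A, ∑ v ∈ A.filter (fun v => G.Adj u v),
      ((dg G A u + dg G A v) * A.card + 1) ≤
      ∑ u ∈ A, ∑ _v ∈ A.filter (fun v => G.Adj u v), 2 * e2 G A := by
    refine Finset.sum_le_sum fun u hu => Finset.sum_le_sum fun v hv => ?_
    rw [Finset.mem_filter] at hv
    exact hcon u hu v hv.1 hv.2
  have hR : ∑ u ∈ A, ∑ _v ∈ A.filter (fun v => G.Adj u v), 2 * e2 G A =
      e2 G A * (2 * e2 G A) := by
    have : ∀ u ∈ A, ∑ _v ∈ A.filter (fun v => G.Adj u v), 2 * e2 G A =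
        dg G A u * (2 * e2 G A) := by
      intro u _
      rw [Finset.sum_const, smul_eq_mul, ← dg_def]
    rw [Finset.sum_congr rfl this, ← Finset.sum_mul]
    rfl
  have hL : ∑ u ∈ A, ∑ v ∈ A.filter (fun v => G.Adj u v),
      ((dg G A u + dg G A v) * A.card + 1) =
      (2 * ∑ u ∈ A, dg G A u ^ 2) * A.card + e2 G A := by
    have h1 : ∑ u ∈ A, ∑ v ∈ A.filter (fun v => G.Adj u v),
        ((dg G A u + dg G A v) * A.card + 1) =
        (∑ u ∈ A, ∑ _v ∈ A.filter (fun v => G.Adj u v), dg G A u) * A.card +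
        (∑ u ∈ A, ∑ v ∈ A.filter (fun v => G.Adj u v), dg G A v) * A.card +
        ∑ u ∈ A, ∑ _v ∈ A.filter (fun v => G.Adj u v), 1 := by
      simp only [Finset.sum_mul, ← Finset.sum_add_distrib]
      refine Finset.sum_congr rfl fun u _ => Finset.sum_congr rfl fun v _ => ?_
      ring
    rw [h1, sum_pairs_left, sum_pairs_right]
    have h2 : ∑ u ∈ A, ∑ _v ∈ A.filter (fun v => G.Adj u v), 1 = e2 G A := by
      unfold e2
      refine Finset.sum_congr rfl fun u _ => ?_
      rw [Finset.sum_const, smul_eq_mul, mul_one, ← dg_def]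
    rw [h2]
    ring
  rw [hL, hR] at hle
  nlinarith

open Classical in
/-- neighbourhood -/
noncomputable def nb (G : SimpleGraph V) (A : Finset V) (v : V) : Finset V :=
  A.filter (fun u => G.Adj v u)

lemma mem_nb {G : SimpleGraph V} {A : Finset V} {v u : V} :
    u ∈ nb G A v ↔ u ∈ A ∧ G.Adj v u := by
  classical
  unfold nb
  rw [Finset.mem_filter]

lemma card_nb (G : SimpleGraph V) (A : Finset V) (v : V) : (nb G A v).card = dg G A v := rfl

lemma nb_sub (G : SimpleGraph V) (A : Finset V) (v : V) : nb G A v ⊆ A := fun _ h =>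
  (mem_nb.1 h).1

lemma e2_eq_zero {G : SimpleGraph V} {A : Finset V} (h : ∀ x ∈ A, ∀ y ∈ A, ¬ G.Adj x y) :
    e2 G A = 0 := by
  unfold e2
  refine Finset.sum_eq_zero fun v hv => ?_
  rw [dg_eq_zero_iff]
  exact fun u hu => h v hv u hu

/-- upper bound when few vertices are removed -/
lemma e2_le_sdiff (G : SimpleGraph V) {A B : Finset V} (h : B ⊆ A) :
    e2 G A ≤ e2 G (A \ B) + 2 * (B.card * A.card) := by
  have h1 := e2_sdiff' G h
  have h2 : ∑ v ∈ B, dg G A v ≤ B.card * A.card := by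
    calc ∑ v ∈ B, dg G A v ≤ ∑ _v ∈ B, A.card := Finset.sum_le_sum fun v _ => dg_le_card G A v
      _ = B.card * A.card := by rw [Finset.sum_const, smul_eq_mul]
  omega

/-- a maximal family of disjoint triangles -/
lemma exists_max (G : SimpleGraph V) (A : Finset V) (k : ℕ) (h : ¬ HasT G A (k + 1)) :
    ∃ T, TF G A T ∧ T.card ≤ k ∧
      ∀ x ∈ A \ vT T, ∀ y ∈ A \ vT T, ∀ z ∈ A \ vT T, ¬ Tri G x y z := by
  classical
  have hex : ∃ m, HasT G A m := ⟨0, HasT.zero G A⟩
  have hb : ∀ m, HasT G A m → m ≤ k := by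
    intro m hm
    by_contra hcon
    exact h (hm.le (by omega))
  set S : Finset ℕ := (Finset.range (k + 1)).filter (fun m => HasT G A m) with hS
  have hSne : S.Nonempty := ⟨0, by
    rw [hS, Finset.mem_filter, Finset.mem_range]
    exact ⟨by omega, HasT.zero G A⟩⟩
  obtain ⟨m, hmS, hmax⟩ := S.exists_max_image id hSne
  rw [hS, Finset.mem_filter] at hmS
  obtain ⟨T, hT, hc⟩ := hmS.2
  refine ⟨T, hT, by rw [hc]; exact hb m hmS.2, ?_⟩
  intro x hx y hy z hz htri
  rw [Finset.mem_sdiff] at hx hy hz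
  have hsub : ({x, y, z} : Finset V) ⊆ A := by
    intro w hw
    simp only [Finset.mem_insert, Finset.mem_singleton] at hw
    rcases hw with rfl | rfl | rfl
    · exact hx.1
    · exact hy.1
    · exact hz.1
  have hd : Disjoint ({x, y, z} : Finset V) (vT T) := by
    rw [Finset.disjoint_left]
    intro w hw
    simp only [Finset.mem_insert, Finset.mem_singleton] at hw
    rcases hw with rfl | rfl | rfl
    · exact hx.2
    · exact hy.2
    · exact hz.2
  obtain ⟨h1, h2⟩ := hT.insert htri hsub hd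
  have h3 : HasT G A (m + 1) := ⟨_, h1, by rw [h2, hc]⟩
  have h4 := hb _ h3
  have h5 : m + 1 ∈ S := by
    rw [hS, Finset.mem_filter, Finset.mem_range]
    exact ⟨by omega, h3⟩
  have := hmax _ h5
  simp only [id] at this
  omega

lemma eb_mono_left (G : SimpleGraph V) {A B : Finset V} (h : A ⊆ B) (C : Finset V) :
    eb G A C ≤ eb G B C := by
  unfold eb
  exact Finset.sum_le_sum_of_subset h

end J12

open J12 in
theorem pSmallK : tSmallK := by
  intro η hη
  refine ⟨min (1 / 1000) (η / 30), by positivity, 1, ?_⟩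
  intro V _ _ G A k hN hk hT he
  set c : ℝ := min (1 / 1000) (η / 30) with hc
  have hc0 : 0 < c := by rw [hc]; positivity
  have hc1 : c ≤ 1 / 1000 := min_le_left _ _
  have hc2 : c ≤ η / 30 := min_le_right _ _
  set n : ℝ := (A.card : ℝ) with hn
  have hn1 : 1 ≤ n := by rw [hn]; exact_mod_cast hN
  obtain ⟨T, hTF, hTk, hfree⟩ := exists_max G A k hT
  set A' := A \ vT T with hA'
  have hTn : (T.card : ℝ) ≤ c * n := le_trans (by exact_mod_cast hTk) hk
  have hA'c : (A'.card : ℝ) ≤ n := by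
    rw [hn]
    exact_mod_cast Finset.card_le_card (Finset.sdiff_subset)
  have he' : n ^ 2 / 2 - 7 * c * n ^ 2 ≤ e2 G A' := by
    have h1 := e2_le_sdiff G hTF.vT_sub
    rw [hTF.card_vT, ← hA'] at h1
    have h2 : (e2 G A : ℝ) ≤ e2 G A' + 2 * (3 * T.card * n) := by
      rw [hn]
      exact_mod_cast h1
    have h3 : (T.card : ℝ) * n ≤ c * n * n := mul_le_mul_of_nonneg_right hTn (by linarith)
    nlinarith
  have hpos : 0 < e2 G A' := by
    have : (0 : ℝ) < e2 G A' := by nlinarith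
    exact_mod_cast this
  obtain ⟨u, hu, v, hv, huv, hdeg⟩ := exists_edge G A' hpos
  set P := nb G A' u with hP
  set Q := nb G A' v with hQ
  have hPA' : P ⊆ A' := nb_sub _ _ _
  have hQA' : Q ⊆ A' := nb_sub _ _ _
  have hA'A : A' ⊆ A := Finset.sdiff_subset
  have hdeg' : (1 - 14 * c) * n ≤ P.card + Q.card := by
    have h1 : (2 : ℝ) * e2 G A' ≤ (P.card + Q.card) * A'.card := by
      rw [hP, hQ, card_nb, card_nb]
      exact_mod_cast hdeg
    have h2 : ((P.card : ℝ) + Q.card) * A'.card ≤ (P.card + Q.card) * n :=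
      mul_le_mul_of_nonneg_left hA'c (by positivity)
    have h3 : ((1 - 14 * c) * n) * n ≤ (P.card + Q.card) * n := by nlinarith
    exact le_of_mul_le_mul_right h3 (by linarith)
  have hdis : Disjoint P Q := by
    rw [Finset.disjoint_left]
    intro w hw hw'
    obtain ⟨h1, h2⟩ := mem_nb.1 hw
    obtain ⟨h3, h4⟩ := mem_nb.1 hw'
    exact hfree u hu v hv w h1 ⟨huv, h4, h2⟩
  have hPi : ∀ x ∈ P, ∀ y ∈ P, ¬ G.Adj x y := by
    intro x hx y hy hxy
    obtain ⟨h1, h2⟩ := mem_nb.1 hx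
    obtain ⟨h3, h4⟩ := mem_nb.1 hy
    exact hfree u hu x h1 y h3 ⟨h2, hxy, h4⟩
  have hQi : ∀ x ∈ Q, ∀ y ∈ Q, ¬ G.Adj x y := by
    intro x hx y hy hxy
    obtain ⟨h1, h2⟩ := mem_nb.1 hx
    obtain ⟨h3, h4⟩ := mem_nb.1 hy
    exact hfree v hv x h1 y h3 ⟨h2, hxy, h4⟩
  have hPQA : P ∪ Q ⊆ A := Finset.union_subset (hPA'.trans hA'A) (hQA'.trans hA'A)
  set Z := A \ (P ∪ Q) with hZ
  have hZc : (Z.card : ℝ) + (P.card + Q.card) = n := by
    have h1 := Finset.card_sdiff_add_card_eq_card hPQA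
    rw [Finset.card_union_of_disjoint hdis] at h1
    rw [hn]
    exact_mod_cast h1
  have hZn : (Z.card : ℝ) ≤ 14 * c * n := by nlinarith
  have hPQsum : (P.card : ℝ) + Q.card ≤ n := by
    have : (0 : ℝ) ≤ Z.card := by positivity
    linarith
  have hePQ : (1 / 4 - 15 * c) * n ^ 2 ≤ eb G P Q := by
    have h1 := e2_le_sdiff G (A := A) (B := Z) Finset.sdiff_subset
    have h2 : A \ Z = P ∪ Q := Finset.sdiff_sdiff_eq_self hPQA
    rw [h2, e2_union G hdis, e2_eq_zero hPi, e2_eq_zero hQi] at h1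
    have h3 : (e2 G A : ℝ) ≤ (0 + 2 * eb G P Q + 0) + 2 * (Z.card * n) := by
      rw [hn]
      exact_mod_cast h1
    have h4 : (Z.card : ℝ) * n ≤ 14 * c * n * n := mul_le_mul_of_nonneg_right hZn (by linarith)
    nlinarith
  have hePQ' : (eb G P Q : ℝ) ≤ P.card * Q.card := by exact_mod_cast eb_le G P Q
  have hQbig : 37 / 100 * n ≤ Q.card := by
    by_contra hcon
    push Not at hcon
    have hq0 : (0 : ℝ) ≤ Q.card := by positivity
    have h1 : (P.card : ℝ) * Q.card ≤ (n - Q.card) * Q.card :=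
      mul_le_mul_of_nonneg_right (by linarith) hq0
    have h2 : (1 / 4 - 15 * c) * n ^ 2 ≤ (n - Q.card) * Q.card := by linarith
    have h3 : (235 / 1000 : ℝ) * n ^ 2 ≤ (1 / 4 - 15 * c) * n ^ 2 :=
      mul_le_mul_of_nonneg_right (by linarith) (by positivity)
    have h4 : 0 < (37 / 100 * n - Q.card) * (63 / 100 * n - Q.card) :=
      mul_pos (by linarith) (by linarith)
    nlinarith
  refine ⟨Q, hQA'.trans hA'A, ?_, ?_, ?_⟩
  · rw [← hn]
    have : c * n ≤ 1 / 1000 * n := mul_le_mul_of_nonneg_right hc1 (by linarith)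
    linarith
  · have hsub : P ⊆ A \ Q := by
      intro x hx
      rw [Finset.mem_sdiff]
      exact ⟨hA'A (hPA' hx), fun h => (Finset.disjoint_left.1 hdis) hx h⟩
    have h1 : eb G P Q ≤ eb G (A \ Q) Q := eb_mono_left G hsub Q
    have h2 : ((A \ Q).card : ℝ) + Q.card = n := by
      have := Finset.card_sdiff_add_card_eq_card (hQA'.trans hA'A)
      rw [hn]
      exact_mod_cast this
    have h3 : (miss G (A \ Q) Q : ℝ) = (A \ Q).card * Q.card - eb G (A \ Q) Q := by
      unfold miss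
      rw [Nat.cast_sub (eb_le G _ _)]
      push_cast
      ring
    have h4 : (eb G P Q : ℝ) ≤ eb G (A \ Q) Q := by exact_mod_cast h1
    rw [h3, ← hn]
    have h5 : ((A \ Q).card : ℝ) = P.card + Z.card := by linarith
    rw [h5]
    have h6 : (Z.card : ℝ) * Q.card ≤ 14 * c * n * n := by
      refine mul_le_mul hZn ?_ (by positivity) (by positivity)
      have : (0 : ℝ) ≤ P.card := by positivity
      linarith
    have h7 : (P.card : ℝ) * Q.card ≤ n ^ 2 / 4 := by
      have h8 : ((P.card : ℝ) + Q.card) ^ 2 ≤ n ^ 2 :=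
        pow_le_pow_left₀ (by positivity) hPQsum 2
      nlinarith [sq_nonneg ((P.card : ℝ) - Q.card)]
    have h9 : 29 * c * n ^ 2 ≤ η * n ^ 2 :=
      mul_le_mul_of_nonneg_right (by linarith) (by positivity)
    nlinarith
  · rw [e2_eq_zero hQi]
    simp only [Nat.cast_zero]
    positivity

open J12 in
/-- the non-symmetric part of J15 -/
lemma J12.zone_aux {V : Type} [DecidableEq V] (G : SimpleGraph V) (A : Finset V) (k : ℕ)
    (η c n : ℝ) (hn : n = A.card) (hn1 : 100 ≤ n) (hc0 : 0 < c) (hc1 : c ≤ 1 / 1000)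
    (hc2 : c ≤ η / 4) (hη : 0 < η) (hk : (k : ℝ) ≤ (1 / 4 + c) * n)
    (hdeg : ∀ v ∈ A, n / 2 - c * n ≤ dg G A v) (Q : Finset V) (hQA : Q ⊆ A)
    (hQ : n / 2 - c * n ≤ Q.card) (hQi : ∀ x ∈ Q, ∀ y ∈ Q, ¬ G.Adj x y) :
    NearI G A k η (1 / 20) := by
  refine ⟨Q, hQA, ?_, ?_, ?_⟩
  · rw [← hn]
    nlinarith
  · have h2 : ((A \ Q).card : ℝ) + Q.card = n := by
      have := Finset.card_sdiff_add_card_eq_card hQA
      rw [hn]
      exact_mod_cast this
    have h3 : (miss G (A \ Q) Q : ℝ) = (A \ Q).card * Q.card - eb G (A \ Q) Q := by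
      unfold miss
      rw [Nat.cast_sub (eb_le G _ _)]
      push_cast
      ring
    have h4 : (n / 2 - c * n) * Q.card ≤ eb G (A \ Q) Q := by
      rw [eb_comm]
      unfold eb
      push_cast
      calc (n / 2 - c * n) * Q.card = ∑ _y ∈ Q, (n / 2 - c * n) := by
            rw [Finset.sum_const, nsmul_eq_mul]; ring
        _ ≤ ∑ y ∈ Q, (dg G (A \ Q) y : ℝ) := by
            refine Finset.sum_le_sum fun y hy => ?_
            have h5 := dg_sdiff G hQA y
            have h6 : dg G Q y = 0 := (dg_eq_zero_iff G Q y).2 fun u hu => hQi y hy u hu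
            rw [h6, add_zero] at h5
            rw [h5]
            exact hdeg y (hQA hy)
    rw [h3, ← hn]
    have h5 : ((A \ Q).card : ℝ) ≤ n / 2 + c * n := by linarith
    have hq0 : (0 : ℝ) ≤ Q.card := by positivity
    have h6 : ((A \ Q).card : ℝ) * Q.card ≤ (n / 2 + c * n) * Q.card :=
      mul_le_mul_of_nonneg_right h5 hq0
    have h7 : (Q.card : ℝ) ≤ n := by
      have : (0 : ℝ) ≤ (A \ Q).card := by positivity
      linarith
    have h8 : c * n * Q.card ≤ c * n * n := mul_le_mul_of_nonneg_left h7 (by positivity)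
    have h9 : 2 * c * n ^ 2 ≤ η * n ^ 2 :=
      mul_le_mul_of_nonneg_right (by linarith) (by positivity)
    nlinarith
  · rw [e2_eq_zero hQi]
    simp only [Nat.cast_zero]
    positivity

open J12 in
/-- vertices of a neighbourhood with a neighbour in it -/
lemma J12.side {V : Type} [DecidableEq V] (G : SimpleGraph V) (A : Finset V)
    (c n : ℝ) (hn : n = A.card) (u : V) (hu : u ∈ A) (hd : (dg G A u : ℝ) ≤ n / 2 + c * n)
    (htri : ∀ x ∈ A, ∀ y ∈ A, ∀ z ∈ A, Tri G x y z →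
      5 / 2 * n - c * n ≤ dg G A x + dg G A y + dg G A z)
    (hne : ∃ x ∈ nb G A u, ∃ y ∈ nb G A u, G.Adj x y) :
    ∃ P₁ ⊆ nb G A u, ((nb G A u).card : ℝ) - 2 * c * n ≤ P₁.card ∧
      ∀ x ∈ P₁, n - 2 * c * n ≤ dg G A x := by
  classical
  set P := nb G A u with hP
  set P₁ := P.filter (fun x => ∃ y ∈ P, G.Adj x y) with hP₁
  have hbig : ∀ x ∈ P₁, n - 2 * c * n ≤ dg G A x := by
    intro x hx
    rw [hP₁, Finset.mem_filter] at hx
    obtain ⟨hx, y, hy, hxy⟩ := hx
    obtain ⟨h1, h2⟩ := mem_nb.1 hx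
    obtain ⟨h3, h4⟩ := mem_nb.1 hy
    have h5 := htri u hu x h1 y h3 ⟨h2, hxy, h4⟩
    have h6 : (dg G A y : ℝ) ≤ n := by
      rw [hn]
      exact_mod_cast dg_le_card G A y
    linarith
  refine ⟨P₁, Finset.filter_subset _ _, ?_, hbig⟩
  obtain ⟨x, hx, y, hy, hxy⟩ := hne
  have hx1 : x ∈ P₁ := by
    rw [hP₁, Finset.mem_filter]
    exact ⟨hx, y, hy, hxy⟩
  have h1 := hbig x hx1
  have h2 : dg G P x ≤ P₁.card := by
    rw [dg_def]
    refine Finset.card_le_card fun z hz => ?_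
    rw [Finset.mem_filter] at hz
    rw [hP₁, Finset.mem_filter]
    exact ⟨hz.1, x, hx, hz.2.symm⟩
  have h3 := dg_sdiff G (nb_sub G A u) x
  rw [← hP] at h3
  have h4 := dg_le_card G (A \ P) x
  have h5 := Finset.card_sdiff_add_card_eq_card (nb_sub G A u)
  rw [← hP] at h5
  have h2' : (dg G P x : ℝ) ≤ P₁.card := by exact_mod_cast h2
  have h3' : (dg G (A \ P) x : ℝ) + dg G P x = dg G A x := by exact_mod_cast h3
  have h4' : (dg G (A \ P) x : ℝ) ≤ (A \ P).card := by exact_mod_cast h4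
  have h5' : ((A \ P).card : ℝ) + P.card = n := by
    rw [hn]
    exact_mod_cast h5
  linarith

open J12 in
theorem pZone (h7 : tWCH) : tZone := by
  intro η hη
  refine ⟨min (1 / 1000) (η / 4), by positivity, 100, ?_⟩
  intro V _ _ G A k hN _ hk hT hL hS
  set c : ℝ := min (1 / 1000) (η / 4) with hc
  have hc0 : 0 < c := by rw [hc]; positivity
  have hc1 : c ≤ 1 / 1000 := min_le_left _ _
  have hc2 : c ≤ η / 4 := min_le_right _ _
  set n : ℝ := (A.card : ℝ) with hn
  have hn1 : 100 ≤ n := by rw [hn]; exact_mod_cast hN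
  have hcn : c * n ≤ 1 / 1000 * n := mul_le_mul_of_nonneg_right hc1 (by linarith)
  have hcn0 : 0 ≤ c * n := by positivity
  unfold Seen at hS
  push Not at hS
  obtain ⟨u, hu, v, hv, huv, hno⟩ := hS
  set P := nb G A u with hP
  set Q := nb G A v with hQ
  have hPA : P ⊆ A := nb_sub _ _ _
  have hQA : Q ⊆ A := nb_sub _ _ _
  have hdis : Disjoint P Q := by
    rw [Finset.disjoint_left]
    intro w hw hw'
    obtain ⟨h1, h2⟩ := mem_nb.1 hw
    obtain ⟨h3, h4⟩ := mem_nb.1 hw'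
    exact hno w h1 ⟨huv, h4, h2⟩
  have hPd : n / 2 - c * n ≤ P.card := hL.deg u hu
  have hQd : n / 2 - c * n ≤ Q.card := hL.deg v hv
  have hsum : (P.card : ℝ) + Q.card ≤ n := by
    have h1 := Finset.card_le_card (Finset.union_subset hPA hQA)
    rw [Finset.card_union_of_disjoint hdis] at h1
    rw [hn]
    exact_mod_cast h1
  by_cases hQi : ∀ x ∈ Q, ∀ y ∈ Q, ¬ G.Adj x y
  · exact zone_aux G A k η c n hn hn1 hc0 hc1 hc2 hη hk hL.deg Q hQA hQd hQi
  by_cases hPi : ∀ x ∈ P, ∀ y ∈ P, ¬ G.Adj x y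
  · exact zone_aux G A k η c n hn hn1 hc0 hc1 hc2 hη hk hL.deg P hPA hPd hPi
  exfalso
  push Not at hQi hPi
  have hPe : (dg G A u : ℝ) = P.card := rfl
  have hQe : (dg G A v : ℝ) = Q.card := rfl
  obtain ⟨P₁, hP₁, hP₁c, hP₁d⟩ := side G A c n hn u hu (by rw [hPe]; linarith) hL.tri hPi
  obtain ⟨Q₁, hQ₁, hQ₁c, hQ₁d⟩ := side G A c n hn v hv (by rw [hQe]; linarith) hL.tri hQi
  rw [← hP] at hP₁c
  rw [← hQ] at hQ₁c
  have hd1 : Disjoint P₁ Q₁ := Finset.disjoint_of_subset_left hP₁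
    (Finset.disjoint_of_subset_right hQ₁ hdis)
  set B := P₁ ∪ Q₁ with hB
  have hBA : B ⊆ A := Finset.union_subset (hP₁.trans hPA) (hQ₁.trans hQA)
  have hBc : n - 6 * (c * n) ≤ B.card := by
    rw [hB, Finset.card_union_of_disjoint hd1]
    push_cast
    linarith
  have hBn : (B.card : ℝ) ≤ n := by
    rw [hn]
    exact_mod_cast Finset.card_le_card hBA
  have hBd : ∀ x ∈ B, 7 * B.card ≤ 9 * dg G B x := by
    intro x hx
    have h1 : n - 2 * c * n ≤ dg G A x := by
      rw [hB, Finset.mem_union] at hx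
      rcases hx with hx | hx
      · exact hP₁d x hx
      · exact hQ₁d x hx
    have h3 : (dg G (A \ B) x : ℝ) + dg G B x = dg G A x := by
      exact_mod_cast dg_sdiff G hBA x
    have h4 : (dg G (A \ B) x : ℝ) ≤ (A \ B).card := by exact_mod_cast dg_le_card G (A \ B) x
    have h5 : ((A \ B).card : ℝ) + B.card = n := by
      rw [hn]
      exact_mod_cast Finset.card_sdiff_add_card_eq_card hBA
    have h6 : (7 : ℝ) * B.card ≤ 9 * dg G B x := by linarith
    exact_mod_cast h6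
  have h8 := h7 V G B hBd
  apply hT
  refine (h8.le ?_).mono hBA
  have h9 : (3 : ℝ) * (k + 1) ≤ B.card := by linarith
  have h10 : 3 * (k + 1) ≤ B.card := by exact_mod_cast h9
  omega

end Pool.Agent.ART
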