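import Pool.Agent.ART.Basic
import Pool.Agent.ART.Targets

set_option autoImplicit false
set_option linter.unusedSectionVars false

/-! J13: stability, every edge in a triangle. -/

namespace Pool.Agent.ART

open Finset

namespace J13

variable {V : Type} [DecidableEq V]

/-- sum over the vertices of a matching -/
lemma sum_vM {G : SimpleGraph V} {A : Finset V} {M : Finset (V × V)} (h : MF G A M)
    (f : V → ℕ) : ∑ v ∈ vM M, f v = ∑ p ∈ M, (f p.1 + f p.2) := by
  unfold vM
  rw [Finset.sum_union, Finset.sum_image, Finset.sum_image, Finset.sum_add_distrib]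
  · intro p hp q hq hpq
    by_contra hne
    exact (h.dis p hp q hq hne).2.2.2 hpq
  · intro p hp q hq hpq
    by_contra hne
    exact (h.dis p hp q hq hne).1 hpq
  · rw [Finset.disjoint_left]
    intro v hv hv'
    obtain ⟨p, hp, rfl⟩ := Finset.mem_image.1 hv
    obtain ⟨q, hq, hpq⟩ := Finset.mem_image.1 hv'
    by_cases hne : p = q
    · subst hne
      exact (h.mem p hp).2.2.ne hpq.symm
    · exact (h.dis p hp q hq hne).2.1 hpq.symm

open Classical in
/-- the edges of `M` which are seen by `x` -/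
noncomputable def seen (G : SimpleGraph V) (M : Finset (V × V)) (x : V) : Finset (V × V) :=
  M.filter fun p => G.Adj x p.1 ∧ G.Adj x p.2

lemma mem_seen {G : SimpleGraph V} {M : Finset (V × V)} {x : V} {p : V × V} :
    p ∈ seen G M x ↔ p ∈ M ∧ G.Adj x p.1 ∧ G.Adj x p.2 := by
  classical
  unfold seen
  rw [Finset.mem_filter]

lemma dg_vM_le {G : SimpleGraph V} {A : Finset V} {M : Finset (V × V)} (h : MF G A M) (x : V) :
    dg G (vM M) x ≤ M.card + (seen G M x).card := by
  classical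
  rw [dg_eq_sum, sum_vM h]
  unfold seen
  rw [Finset.card_filter, Finset.card_eq_sum_ones, ← Finset.sum_add_distrib]
  refine Finset.sum_le_sum fun p _ => ?_
  by_cases h1 : G.Adj x p.1 <;> by_cases h2 : G.Adj x p.2 <;> simp [h1, h2]

/-- few edges of a matching meet a small set -/
lemma card_meet {G : SimpleGraph V} {A : Finset V} {M : Finset (V × V)} (h : MF G A M)
    (D : Finset V) : (M.filter fun p => p.1 ∈ D ∨ p.2 ∈ D).card ≤ D.card := by
  classical
  refine Finset.card_le_card_of_injOn (fun p => if p.1 ∈ D then p.1 else p.2) ?_ ?_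
  · intro p hp
    have hp' := Finset.mem_filter.1 (Finset.mem_coe.1 hp)
    by_cases h1 : p.1 ∈ D
    · simp [h1]
    · have : p.2 ∈ D := by tauto
      simp [h1, this]
  · intro p hp q hq hpq
    have hp' := Finset.mem_filter.1 (Finset.mem_coe.1 hp)
    have hq' := Finset.mem_filter.1 (Finset.mem_coe.1 hq)
    by_contra hne
    obtain ⟨e1, e2, e3, e4⟩ := h.dis p hp'.1 q hq'.1 hne
    simp only at hpq
    split_ifs at hpq
    · exact e1 hpq
    · exact e2 hpq
    · exact e3 hpq
    · exact e4 hpq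

lemma vM_insert' (p : V × V) (M : Finset (V × V)) {v : V} :
    v ∈ vM (insert p M) ↔ v = p.1 ∨ v = p.2 ∨ v ∈ vM M := by
  rw [mem_vM, mem_vM]
  constructor
  · rintro ⟨q, hq, hv⟩
    rcases Finset.mem_insert.1 hq with rfl | hq
    · tauto
    · exact Or.inr (Or.inr ⟨q, hq, hv⟩)
  · rintro (hv | hv | ⟨q, hq, hv⟩)
    · exact ⟨p, Finset.mem_insert_self _ _, Or.inl hv⟩
    · exact ⟨p, Finset.mem_insert_self _ _, Or.inr hv⟩
    · exact ⟨q, Finset.mem_insert_of_mem hq, hv⟩

/-- greedy extension: every chosen vertex takes an edge of the matching -/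
lemma greedy {G : SimpleGraph V} {R : Finset V} {M : Finset (V × V)} (hM : MF G R M)
    (D : Finset V) (x : Finset V → V) (N : ℕ) (S : Finset (Finset V)) (hcard : S.card ≤ N)
    (hx : ∀ t ∈ S, x t ∈ t) (hdis : ∀ t ∈ S, ∀ t' ∈ S, t ≠ t' → Disjoint t t')
    (hR : ∀ t ∈ S, Disjoint t R) (hsee : ∀ t ∈ S, N + D.card ≤ (seen G M (x t)).card) :
    ∃ M' ⊆ M, M'.card = S.card ∧ Disjoint (vM M') D ∧ HasT G (S.image x ∪ vM M') S.card := by
  classical
  induction S using Finset.induction_on with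
  | empty =>
    refine ⟨∅, by simp, rfl, ?_, HasT.zero _ _⟩
    simp [vM]
  | @insert t S ht ih =>
    have hc : (insert t S).card = S.card + 1 := Finset.card_insert_of_notMem ht
    obtain ⟨M', hM', hM'c, hM'D, hT⟩ := ih (by omega)
      (fun s hs => hx s (Finset.mem_insert_of_mem hs))
      (fun s hs s' hs' => hdis s (Finset.mem_insert_of_mem hs) s' (Finset.mem_insert_of_mem hs'))
      (fun s hs => hR s (Finset.mem_insert_of_mem hs))
      (fun s hs => hsee s (Finset.mem_insert_of_mem hs))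
    have h1 := hsee t (Finset.mem_insert_self _ _)
    have h2 := card_meet hM D
    -- an edge which is seen, not used, not meeting `D`
    obtain ⟨p, hp⟩ : (((seen G M (x t)) \ M') \
        (M.filter fun p => p.1 ∈ D ∨ p.2 ∈ D)).Nonempty := by
      rw [← Finset.card_pos]
      have h3 := Finset.le_card_sdiff M' (seen G M (x t))
      have h4 := Finset.le_card_sdiff (M.filter fun p => p.1 ∈ D ∨ p.2 ∈ D)
        ((seen G M (x t)) \ M')
      omega
    rw [Finset.mem_sdiff, Finset.mem_sdiff, mem_seen, Finset.mem_filter] at hp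
    obtain ⟨⟨⟨hpM, ha1, ha2⟩, hpM'⟩, hpD⟩ := hp
    have hp1 : p.1 ∉ D := fun h => hpD ⟨hpM, Or.inl h⟩
    have hp2 : p.2 ∉ D := fun h => hpD ⟨hpM, Or.inr h⟩
    obtain ⟨hpR1, hpR2, hadj⟩ := hM.mem p hpM
    have hxt := hx t (Finset.mem_insert_self _ _)
    have hRt := hR t (Finset.mem_insert_self _ _)
    have hxR : x t ∉ R := Finset.disjoint_left.1 hRt hxt
    have htri : Tri G (x t) p.1 p.2 := ⟨ha1, hadj, ha2⟩
    have hvM'R : vM M' ⊆ R := (hM.subset hM').vM_sub
    refine ⟨insert p M', ?_, ?_, ?_, ?_⟩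
    · intro q hq
      rcases Finset.mem_insert.1 hq with rfl | hq
      · exact hpM
      · exact hM' hq
    · rw [Finset.card_insert_of_notMem hpM', hM'c, hc]
    · rw [Finset.disjoint_left] at hM'D ⊢
      intro v hv
      rw [vM_insert'] at hv
      rcases hv with rfl | rfl | hv
      · exact hp1
      · exact hp2
      · exact hM'D hv
    · have hone : HasT G ({x t, p.1, p.2} : Finset V) 1 := by
        have := HasT.insert (G := G) (A := {x t, p.1, p.2}) (k := 0) (HasT.zero _ _) htri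
          (Finset.Subset.refl _)
        simpa using this
      have hdisj : Disjoint (S.image x ∪ vM M') ({x t, p.1, p.2} : Finset V) := by
        rw [Finset.disjoint_left]
        intro v hv hv'
        rw [Finset.mem_union, Finset.mem_image] at hv
        simp only [Finset.mem_insert, Finset.mem_singleton] at hv'
        rcases hv with ⟨s, hs, rfl⟩ | hv
        · have hst : s ≠ t := fun h => ht (h ▸ hs)
          have hxs := hx s (Finset.mem_insert_of_mem hs)
          have hd := hdis s (Finset.mem_insert_of_mem hs) t (Finset.mem_insert_self _ _) hst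
          have hRs := hR s (Finset.mem_insert_of_mem hs)
          rcases hv' with h | h | h
          · exact Finset.disjoint_left.1 hd hxs (h ▸ hxt)
          · exact Finset.disjoint_left.1 hRs hxs (h ▸ hpR1)
          · exact Finset.disjoint_left.1 hRs hxs (h ▸ hpR2)
        · have hvR := hvM'R hv
          obtain ⟨q, hq, hvq⟩ := mem_vM.1 hv
          have hqp : q ≠ p := fun h => hpM' (h ▸ hq)
          obtain ⟨e1, e2, e3, e4⟩ := hM.dis q (hM' hq) p hpM hqp
          rcases hv' with rfl | rfl | rfl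
          · exact hxR hvR
          · rcases hvq with h | h
            · exact e1 h.symm
            · exact e3 h.symm
          · rcases hvq with h | h
            · exact e2 h.symm
            · exact e4 h.symm
      have := HasT.union hT hone hdisj
      rw [hc]
      refine this.mono ?_
      intro v hv
      simp only [Finset.mem_union, Finset.mem_image, Finset.mem_insert,
        Finset.mem_singleton, vM_insert'] at hv ⊢
      rcases hv with (⟨s, hs, rfl⟩ | hv) | rfl | rfl | rfl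
      · exact Or.inl ⟨s, Or.inr hs, rfl⟩
      · exact Or.inr (Or.inr (Or.inr hv))
      · exact Or.inl ⟨t, Or.inl rfl, rfl⟩
      · exact Or.inr (Or.inl rfl)
      · exact Or.inr (Or.inr (Or.inl rfl))

/-- the exchange argument -/
lemma trifree {G : SimpleGraph V} {A : Finset V} {T : Finset (Finset V)} {M : Finset (V × V)}
    (h : LexMax G A T M) (B : Finset (Finset V)) (x : Finset V → V)
    (hx : ∀ t ∈ T \ B, x t ∈ t) (hsee : ∀ t ∈ T \ B, 6 ≤ (seen G M (x t)).card)
    {a b c : V} (ha : a ∈ (A \ (T \ B).image x) \ vT B) (hb : b ∈ (A \ (T \ B).image x) \ vT B)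
    (hc : c ∈ (A \ (T \ B).image x) \ vT B) : ¬ Tri G a b c := by
  classical
  intro htri
  have htf := h.pm.tf
  have hmf := h.pm.mf
  set D : Finset V := {a, b, c} with hD
  have hDc : D.card ≤ 3 := Finset.card_le_three
  have hDA2 : D ⊆ (A \ (T \ B).image x) \ vT B := by
    intro v hv
    rw [hD] at hv
    simp only [Finset.mem_insert, Finset.mem_singleton] at hv
    rcases hv with rfl | rfl | rfl
    · exact ha
    · exact hb
    · exact hc
  have hDA : D ⊆ A := hDA2.trans (Finset.sdiff_subset.trans Finset.sdiff_subset)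
  set S : Finset (Finset V) := T.filter (fun t => ¬ Disjoint t D) with hS
  have hST : S ⊆ T := Finset.filter_subset _ _
  -- at most three triangles are met
  have hSc : S.card ≤ 3 := by
    refine le_trans ?_ hDc
    have hex : ∀ t ∈ S, ∃ v, v ∈ t ∧ v ∈ D := by
      intro t ht
      rw [hS, Finset.mem_filter] at ht
      have := ht.2
      rw [Finset.not_disjoint_iff] at this
      exact this
    have : Nonempty V := ⟨a⟩
    choose! v hv using hex
    refine Finset.card_le_card_of_injOn v (fun t ht => (hv t ht).2) ?_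
    intro t ht t' ht' hvv
    by_contra hne
    have := htf.dis t (hST ht) t' (hST ht') hne
    exact Finset.disjoint_left.1 this (hv t ht).1 (hvv ▸ (hv t' ht').1)
  have hSB : ∀ t ∈ S, t ∈ T \ B := by
    intro t ht
    rw [Finset.mem_sdiff]
    refine ⟨hST ht, fun htB => ?_⟩
    rw [hS, Finset.mem_filter, Finset.not_disjoint_iff] at ht
    obtain ⟨_, v, hvt, hvD⟩ := ht
    have := (Finset.mem_sdiff.1 (hDA2 hvD)).2
    exact this (mem_vT.2 ⟨t, htB, hvt⟩)
  obtain ⟨M', hM', hM'c, hM'D, hT3⟩ := greedy hmf D x 3 S hSc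
    (fun t ht => hx t (hSB t ht)) (fun t ht t' ht' hne => htf.dis t (hST ht) t' (hST ht') hne)
    (fun t ht => by
      rw [Finset.disjoint_left]
      intro v hv hv'
      exact (Finset.mem_sdiff.1 hv').2 (mem_vT.2 ⟨t, hST ht, hv⟩))
    (fun t ht => by
      have := hsee t (hSB t ht)
      omega)
  have hD1 : HasT G D 1 := by
    have := HasT.insert (G := G) (A := {a, b, c}) (k := 0) (HasT.zero _ _) htri
      (Finset.Subset.refl _)
    simpa using this
  have hT1 : HasT G (vT (T \ S)) (T \ S).card := by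
    refine ⟨T \ S, ⟨?_, ?_, ?_⟩, rfl⟩
    · intro t ht v hv
      exact mem_vT.2 ⟨t, ht, hv⟩
    · intro t ht
      exact htf.clq t (Finset.mem_sdiff.1 ht).1
    · intro t ht t' ht'
      exact htf.dis t (Finset.mem_sdiff.1 ht).1 t' (Finset.mem_sdiff.1 ht').1
  have hd1 : Disjoint (vT (T \ S)) D := by
    rw [Finset.disjoint_left]
    intro v hv hvD
    obtain ⟨t, ht, hvt⟩ := mem_vT.1 hv
    rw [Finset.mem_sdiff, hS, Finset.mem_filter] at ht
    apply ht.2
    refine ⟨ht.1, ?_⟩
    rw [Finset.not_disjoint_iff]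
    exact ⟨v, hvt, hvD⟩
  have hM'R : vM M' ⊆ A \ vT T := (hmf.subset hM').vM_sub
  have hd2 : Disjoint (vT (T \ S) ∪ D) (S.image x ∪ vM M') := by
    rw [Finset.disjoint_left]
    intro v hv hv'
    rw [Finset.mem_union] at hv hv'
    rcases hv' with hv' | hv'
    · obtain ⟨s, hs, rfl⟩ := Finset.mem_image.1 hv'
      rcases hv with hv | hv
      · obtain ⟨t, ht, hvt⟩ := mem_vT.1 hv
        have ht' := Finset.mem_sdiff.1 ht
        have hne : t ≠ s := fun h => ht'.2 (h ▸ hs)
        exact Finset.disjoint_left.1 (htf.dis t ht'.1 s (hST hs) hne) hvt (hx s (hSB s hs))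
      · have := (Finset.mem_sdiff.1 (Finset.mem_sdiff.1 (hDA2 hv)).1).2
        exact this (Finset.mem_image.2 ⟨s, hSB s hs, rfl⟩)
    · rcases hv with hv | hv
      · obtain ⟨t, ht, hvt⟩ := mem_vT.1 hv
        exact (Finset.mem_sdiff.1 (hM'R hv')).2
          (mem_vT.2 ⟨t, (Finset.mem_sdiff.1 ht).1, hvt⟩)
      · exact Finset.disjoint_left.1 hM'D hv' hv
  obtain ⟨T', hT', hT'c⟩ := (hT1.union hD1 hd1).union hT3 hd2
  have hsub : vT (T \ S) ∪ D ∪ (S.image x ∪ vM M') ⊆ A := by
    intro v hv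
    simp only [Finset.mem_union] at hv
    rcases hv with (hv | hv) | hv | hv
    · obtain ⟨t, ht, hvt⟩ := mem_vT.1 hv
      exact htf.sub t (Finset.mem_sdiff.1 ht).1 hvt
    · exact hDA hv
    · obtain ⟨s, hs, rfl⟩ := Finset.mem_image.1 hv
      exact htf.sub s (hST hs) (hx s (hSB s hs))
    · exact (Finset.mem_sdiff.1 (hM'R hv)).1
  have hpm : PM G A T' ∅ := ⟨hT'.mono hsub, ⟨by simp, by simp⟩⟩
  have := h.maxT T' ∅ hpm
  have hc' := Finset.card_sdiff_add_card_eq_card hST
  omega

/-- an edge with large degree sum -/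
lemma exists_edge (G : SimpleGraph V) (A : Finset V) (h : 0 < e2 G A) :
    ∃ v ∈ A, ∃ w ∈ A, G.Adj v w ∧ 2 * e2 G A ≤ A.card * (dg G A v + dg G A w) := by
  classical
  by_contra hcon
  push Not at hcon
  have h1 : ∑ v ∈ A, ∑ w ∈ A, (if G.Adj v w then A.card * (dg G A v + dg G A w) else 0) <
      ∑ v ∈ A, ∑ w ∈ A, (if G.Adj v w then 2 * e2 G A else 0) := by
    obtain ⟨v, hv, hv'⟩ : ∃ v ∈ A, 0 < dg G A v := by
      by_contra hall
      push Not at hall
      have : e2 G A = 0 := by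
        unfold e2
        exact Finset.sum_eq_zero fun v hv => by have := hall v hv; omega
      omega
    obtain ⟨w, hw⟩ : (A.filter (fun u => G.Adj v u)).Nonempty := by
      rw [← Finset.card_pos, ← dg_def]
      exact hv'
    rw [Finset.mem_filter] at hw
    refine Finset.sum_lt_sum (fun v hv => Finset.sum_le_sum fun w hw => ?_)
      ⟨v, hv, Finset.sum_lt_sum (fun w hw => ?_) ⟨w, hw.1, ?_⟩⟩
    · split_ifs with hadj
      · exact (hcon v hv w hw hadj).le
      · exact le_refl _
    · split_ifs with hadj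
      · exact (hcon v hv w hw hadj).le
      · exact le_refl _
    · rw [if_pos hw.2, if_pos hw.2]
      exact hcon v hv w hw.1 hw.2
  have h2 : ∑ v ∈ A, ∑ w ∈ A, (if G.Adj v w then 2 * e2 G A else 0) = 2 * e2 G A * e2 G A := by
    have : ∀ v ∈ A, ∑ w ∈ A, (if G.Adj v w then 2 * e2 G A else 0) =
        2 * e2 G A * dg G A v := by
      intro v _
      rw [dg_eq_sum, Finset.mul_sum]
      exact Finset.sum_congr rfl fun w _ => by split_ifs <;> simp
    rw [Finset.sum_congr rfl this, ← Finset.mul_sum]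
    rfl
  have h3 : ∑ v ∈ A, ∑ w ∈ A, (if G.Adj v w then A.card * (dg G A v + dg G A w) else 0) =
      2 * (A.card * ∑ v ∈ A, dg G A v ^ 2) := by
    have e1 : ∀ v ∈ A, ∑ w ∈ A, (if G.Adj v w then A.card * (dg G A v + dg G A w) else 0) =
        A.card * (∑ w ∈ A, (if G.Adj v w then dg G A v else 0)) +
        A.card * (∑ w ∈ A, (if G.Adj v w then dg G A w else 0)) := by
      intro v _
      rw [Finset.mul_sum, Finset.mul_sum, ← Finset.sum_add_distrib]
      exact Finset.sum_congr rfl fun w _ => by split_ifs <;> ring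
    have e3 : ∀ v, ∑ w ∈ A, (if G.Adj v w then dg G A v else 0) = dg G A v ^ 2 := by
      intro v
      calc _ = ∑ w ∈ A, dg G A v * (if G.Adj v w then 1 else 0) :=
            Finset.sum_congr rfl fun w _ => by split_ifs <;> simp
        _ = dg G A v * dg G A v := by rw [← Finset.mul_sum, ← dg_eq_sum]
        _ = _ := by ring
    rw [Finset.sum_congr rfl e1, Finset.sum_add_distrib, ← Finset.mul_sum, ← Finset.mul_sum]
    have e4 : ∑ v ∈ A, ∑ w ∈ A, (if G.Adj v w then dg G A w else 0) =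
        ∑ v ∈ A, dg G A v ^ 2 := by
      rw [Finset.sum_comm]
      refine Finset.sum_congr rfl fun w _ => ?_
      rw [← e3 w]
      exact Finset.sum_congr rfl fun v _ => by simp only [G.adj_comm]
    rw [e4, Finset.sum_congr rfl fun v _ => e3 v]
    ring
  have h4 : (∑ v ∈ A, dg G A v) ^ 2 ≤ A.card * ∑ v ∈ A, dg G A v ^ 2 := sq_sum_le_card_mul_sum_sq
  have h5 : e2 G A = ∑ v ∈ A, dg G A v := rfl
  rw [h2, h3] at h1
  rw [← h5] at h4
  nlinarith

/-- the real inequalities -/
lemma num {n k u s e e' p q z c W bb x' : ℝ} (hn : 0 < n) (hs0 : 0 < s) (hs1 : s ≤ 1 / 100000)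
    (hu0 : 0 ≤ u) (huk : u ≤ k) (huk' : k - 2 * s * n ≤ u) (hk : k ≤ n / 4)
    (he : (n ^ 2 + 2 * n * k - k ^ 2) / 2 - s ^ 2 * n ^ 2 ≤ e)
    (he' : e ≤ e' + 2 * (W * n) + (2 * ((n - u) * u) + u ^ 2)) (hW : W ≤ 3 * s * n)
    (hp : 0 ≤ p) (hq : 0 ≤ q) (hc : c ≤ n - u)
    (hedge : 2 * e' ≤ c * (p + q)) (hpq : p + q ≤ n - u) (hz : z = n - q - u - p)
    (hx' : x' ≤ u ^ 2 + 2 * (u * p) + 2 * (z * n)) (hex : e = x' + 2 * bb)
    (hbb : bb ≤ (n - q) * q) :
    k + n / 20 ≤ q ∧ (n - q) * q - bb ≤ 50 * s * n ^ 2 := by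
  have hn2 : 0 < n ^ 2 := by positivity
  have hsn : 0 < s * n := by positivity
  have hsn2 : 0 < s * n ^ 2 := by positivity
  have hs2 : s ^ 2 * n ^ 2 ≤ s * n ^ 2 := by
    apply mul_le_mul_of_nonneg_right _ hn2.le
    nlinarith
  have h1 : 2 * u * n - u ^ 2 ≤ 2 * k * n - k ^ 2 := by nlinarith
  -- e' is large
  have h2 : (n - k) ^ 2 / 2 - 7 * (s * n ^ 2) ≤ e' := by nlinarith
  have ha : 3 / 4 * n ≤ n - k := by linarith
  have h3 : c * (p + q) ≤ (n - k + 2 * s * n) * (p + q) :=
    mul_le_mul_of_nonneg_right (by linarith) (by linarith)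
  have h4 : n - k - 21 * s * n ≤ p + q := by
    by_contra hcon
    push Not at hcon
    have h5 : (n - k + 2 * s * n) * (p + q) < (n - k + 2 * s * n) * (n - k - 21 * s * n) :=
      mul_lt_mul_of_pos_left hcon (by nlinarith)
    have h6 : s * n * (3 / 4 * n) ≤ s * n * (n - k) := mul_le_mul_of_nonneg_left ha hsn.le
    nlinarith
  have hz0 : 0 ≤ z := by rw [hz]; linarith
  have hz1 : z ≤ 23 * (s * n) := by rw [hz]; linarith
  have hzn : z * n ≤ 23 * (s * n ^ 2) := by nlinarith
  have hzq : z * q ≤ z * n := mul_le_mul_of_nonneg_left (by linarith) hz0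
  have hnq : n - q = u + p + z := by rw [hz]; ring
  -- the two main inequalities
  have h7 : 2 * ((n - q) * q - bb) ≤
      u ^ 2 + 2 * (u * (p + q)) + 2 * (p * q) + 4 * (z * n) - e := by
    rw [hnq]
    nlinarith
  have h8 : e ≤ u ^ 2 + 2 * (u * (p + q)) + 2 * (p * q) + 4 * (z * n) := by
    linarith
  have h9 : u * (p + q) ≤ u * (n - u) := mul_le_mul_of_nonneg_left hpq hu0
  constructor
  · have h10 : (p - q) ^ 2 ≤ (1 / 20 * n) ^ 2 := by
      have h11 : (p + q) ^ 2 ≤ (n - k + 2 * s * n) ^ 2 :=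
        pow_le_pow_left₀ (by linarith) (by linarith) 2
      have h12 : s * n * (n - k) ≤ s * n * n := mul_le_mul_of_nonneg_left (by linarith) hsn.le
      nlinarith
    have h13 : p - q ≤ 1 / 20 * n := by
      have := abs_le_of_sq_le_sq h10 (by positivity)
      exact (abs_le.1 this).2
    nlinarith
  · have h14 : 2 * (p * q) ≤ (p + q) ^ 2 / 2 := by nlinarith [sq_nonneg (p - q)]
    have h15 : (p + q) ^ 2 ≤ (n - u) ^ 2 := pow_le_pow_left₀ (by linarith) hpq 2
    have h16 : u * n - u ^ 2 / 2 ≤ k * n - k ^ 2 / 2 := by nlinarith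
    nlinarith

lemma final {G : SimpleGraph V} {A U W : Finset V} {k : ℕ} {s η : ℝ} (hn : 0 < A.card)
    (hs0 : 0 < s) (hs1 : s ≤ 1 / 100000) (hsη : 50 * s ≤ η) (hU : U ⊆ A)
    (hW : (W.card : ℝ) ≤ 3 * s * A.card) (hUk : U.card ≤ k)
    (hUk' : (k : ℝ) - 2 * s * A.card ≤ U.card) (hk : (k : ℝ) ≤ (A.card : ℝ) / 4)
    (htf : ∀ a ∈ (A \ U) \ W, ∀ b ∈ (A \ U) \ W, ∀ c ∈ (A \ U) \ W, ¬ Tri G a b c)
    (he : 2 * ph1 A.card k - s ^ 2 * (A.card : ℝ) ^ 2 ≤ e2 G A) : NearI G A k η (1 / 20) := by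
  classical
  set n : ℝ := (A.card : ℝ) with hnn
  have hn0 : 0 < n := by
    rw [hnn]
    exact_mod_cast hn
  have hUc : ((A \ U).card : ℝ) = n - U.card := by
    have := Finset.card_sdiff_add_card_eq_card hU
    rw [hnn, ← this]
    push_cast
    ring
  set A2 := (A \ U) \ W with hA2
  have hA2c : (A2.card : ℝ) ≤ n - U.card := by
    rw [← hUc]
    exact_mod_cast Finset.card_le_card Finset.sdiff_subset
  have hA2A : A2 ⊆ A := Finset.sdiff_subset.trans Finset.sdiff_subset
  have he1 : (e2 G A : ℝ) ≤ e2 G (A \ U) + (2 * ((n - U.card) * U.card) + (U.card : ℝ) ^ 2) := by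
    have h1 := e2_sdiff G hU
    have h2 := eb_le G (A \ U) U
    have h3 := e2_le G U
    have h4 : U.card * (U.card - 1) ≤ U.card * U.card := Nat.mul_le_mul_left _ (Nat.sub_le _ _)
    have h5 : e2 G A ≤ e2 G (A \ U) + (2 * ((A \ U).card * U.card) + U.card * U.card) := by
      omega
    have h6 : (e2 G A : ℝ) ≤ ((e2 G (A \ U) + (2 * ((A \ U).card * U.card) +
      U.card * U.card) : ℕ) : ℝ) := by exact_mod_cast h5
    push_cast at h6
    rw [hUc] at h6
    nlinarith
  have he2 : (e2 G (A \ U) : ℝ) ≤ e2 G A2 + 2 * (W.card * n) := by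
    have h0 : A2 = (A \ U) \ (W ∩ (A \ U)) := by
      rw [hA2]
      ext v
      simp only [Finset.mem_sdiff, Finset.mem_inter]
      tauto
    have h1 := e2_sdiff' G (A := A \ U) (B := W ∩ (A \ U)) Finset.inter_subset_right
    rw [← h0] at h1
    have h2 : ∑ v ∈ W ∩ (A \ U), dg G (A \ U) v ≤ W.card * A.card := by
      calc _ ≤ ∑ _v ∈ W ∩ (A \ U), A.card := Finset.sum_le_sum fun v _ =>
            (dg_le_card G _ v).trans (Finset.card_le_card Finset.sdiff_subset)
        _ = (W ∩ (A \ U)).card * A.card := by rw [Finset.sum_const, smul_eq_mul]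
        _ ≤ _ := Nat.mul_le_mul_right _ (Finset.card_le_card Finset.inter_subset_left)
    have h3 : e2 G (A \ U) ≤ e2 G A2 + 2 * (W.card * A.card) := by omega
    have h4 : (e2 G (A \ U) : ℝ) ≤ ((e2 G A2 + 2 * (W.card * A.card) : ℕ) : ℝ) := by
      exact_mod_cast h3
    push_cast at h4
    exact h4
  have hph : 2 * ph1 n k = (n ^ 2 + 2 * n * k - (k : ℝ) ^ 2) / 2 := by
    unfold ph1
    ring
  rw [hph] at he
  have hu0 : (0 : ℝ) ≤ U.card := Nat.cast_nonneg _
  have huk : (U.card : ℝ) ≤ k := by exact_mod_cast hUk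
  -- there are edges in `A2`
  have hpos : 0 < e2 G A2 := by
    have : (0 : ℝ) < e2 G A2 := by
      have hn2 : 0 < n ^ 2 := by positivity
      have hs2 : s ^ 2 * n ^ 2 ≤ s * n ^ 2 := by
        apply mul_le_mul_of_nonneg_right _ hn2.le
        nlinarith
      have h1 : 2 * (U.card : ℝ) * n - (U.card : ℝ) ^ 2 ≤ 2 * k * n - (k : ℝ) ^ 2 := by nlinarith
      have h2 : (W.card : ℝ) * n ≤ 3 * s * n * n := mul_le_mul_of_nonneg_right hW hn0.le
      have h3 : s * n ^ 2 ≤ 1 / 100000 * n ^ 2 := mul_le_mul_of_nonneg_right hs1 hn2.le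
      have h4 : (3 / 4 * n) ^ 2 ≤ (n - k) ^ 2 := pow_le_pow_left₀ (by positivity) (by linarith) 2
      nlinarith
    exact_mod_cast this
  obtain ⟨v, hv, w, hw, hvw, hedge⟩ := exists_edge G A2 hpos
  set P := A2.filter (fun x => G.Adj v x) with hP
  set Q := A2.filter (fun x => G.Adj w x) with hQ
  have hPA2 : P ⊆ A2 := Finset.filter_subset _ _
  have hQA2 : Q ⊆ A2 := Finset.filter_subset _ _
  have hPQ : Disjoint P Q := by
    rw [Finset.disjoint_left]
    intro x hx hx'
    rw [hP, Finset.mem_filter] at hx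
    rw [hQ, Finset.mem_filter] at hx'
    exact htf v hv w hw x hx.1 ⟨hvw, hx'.2, hx.2⟩
  have hPind : e2 G P = 0 := by
    unfold e2
    refine Finset.sum_eq_zero fun x hx => ?_
    rw [dg_eq_zero_iff]
    intro y hy hxy
    rw [hP, Finset.mem_filter] at hx hy
    exact htf v hv x hx.1 y hy.1 ⟨hx.2, hxy, hy.2⟩
  have hQind : e2 G Q = 0 := by
    unfold e2
    refine Finset.sum_eq_zero fun x hx => ?_
    rw [dg_eq_zero_iff]
    intro y hy hxy
    rw [hQ, Finset.mem_filter] at hx hy
    exact htf w hw x hx.1 y hy.1 ⟨hx.2, hxy, hy.2⟩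
  have hPc : P.card = dg G A2 v := rfl
  have hQc : Q.card = dg G A2 w := rfl
  rw [← hPc, ← hQc] at hedge
  have hQA : Q ⊆ A := hQA2.trans hA2A
  have hUP : Disjoint U P := by
    rw [Finset.disjoint_left]
    intro x hx hx'
    exact (Finset.mem_sdiff.1 (Finset.mem_sdiff.1 (hPA2 hx')).1).2 hx
  have hUQ : Disjoint U Q := by
    rw [Finset.disjoint_left]
    intro x hx hx'
    exact (Finset.mem_sdiff.1 (Finset.mem_sdiff.1 (hQA2 hx')).1).2 hx
  have hUPsub : U ∪ P ⊆ A \ Q := by
    intro x hx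
    rw [Finset.mem_union] at hx
    rw [Finset.mem_sdiff]
    rcases hx with hx | hx
    · exact ⟨hU hx, Finset.disjoint_left.1 hUQ hx⟩
    · exact ⟨hA2A (hPA2 hx), Finset.disjoint_left.1 hPQ hx⟩
  have hUPc : (U ∪ P).card = U.card + P.card := Finset.card_union_of_disjoint hUP
  have hXc := Finset.card_sdiff_add_card_eq_card hQA
  have hZc := Finset.card_sdiff_add_card_eq_card hUPsub
  have hPQc : (P.card : ℝ) + Q.card ≤ A2.card := by
    have : (P ∪ Q).card ≤ A2.card := Finset.card_le_card (Finset.union_subset hPA2 hQA2)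
    rw [Finset.card_union_of_disjoint hPQ] at this
    exact_mod_cast this
  -- edges outside `Q`
  have hx' : (e2 G (A \ Q) : ℝ) ≤ (U.card : ℝ) ^ 2 + 2 * (U.card * P.card) +
      2 * ((((A \ Q) \ (U ∪ P)).card : ℝ) * n) := by
    have h1 := e2_sdiff G hUPsub
    have h1' := e2_sdiff' G (A := A \ Q) (B := (A \ Q) \ (U ∪ P)) Finset.sdiff_subset
    rw [Finset.sdiff_sdiff_eq_self hUPsub] at h1'
    have h2 : ∑ v ∈ (A \ Q) \ (U ∪ P), dg G (A \ Q) v ≤ ((A \ Q) \ (U ∪ P)).card * A.card := by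
      calc _ ≤ ∑ _v ∈ (A \ Q) \ (U ∪ P), A.card := Finset.sum_le_sum fun v _ =>
            (dg_le_card G _ v).trans (Finset.card_le_card Finset.sdiff_subset)
        _ = _ := by rw [Finset.sum_const, smul_eq_mul]
    have h3 := e2_union G hUP
    rw [hPind] at h3
    have h4 := eb_le G U P
    have h5 := e2_le G U
    have h6 : U.card * (U.card - 1) ≤ U.card * U.card := Nat.mul_le_mul_left _ (Nat.sub_le _ _)
    have h7 : e2 G (A \ Q) ≤ U.card * U.card + 2 * (U.card * P.card) +
        2 * (((A \ Q) \ (U ∪ P)).card * A.card) := by omega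
    have h8 : (e2 G (A \ Q) : ℝ) ≤ ((U.card * U.card + 2 * (U.card * P.card) +
        2 * (((A \ Q) \ (U ∪ P)).card * A.card) : ℕ) : ℝ) := by exact_mod_cast h7
    push_cast at h8
    nlinarith
  have hsplit := e2_sdiff G hQA
  rw [hQind, add_zero] at hsplit
  have heb := eb_le G (A \ Q) Q
  have hXr : ((A \ Q).card : ℝ) = n - Q.card := by
    rw [hnn, ← hXc]
    push_cast
    ring
  have hres := num (n := n) (k := k) (u := U.card) (s := s) (e := e2 G A) (e' := e2 G A2)
    (p := P.card) (q := Q.card) (z := (((A \ Q) \ (U ∪ P)).card : ℝ)) (c := A2.card)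
    (W := W.card) (bb := eb G (A \ Q) Q) (x' := e2 G (A \ Q)) hn0 hs0 hs1 hu0 huk hUk' hk he
    (by linarith) hW (Nat.cast_nonneg _) (Nat.cast_nonneg _) hA2c
    (by exact_mod_cast hedge) (by linarith)
    (by
      have h1 : (((A \ Q) \ (U ∪ P)).card : ℝ) + (U ∪ P).card = (A \ Q).card := by
        exact_mod_cast hZc
      rw [hUPc] at h1
      push_cast at h1
      rw [hXr] at h1
      linarith) hx'
    (by
      have : ((e2 G A : ℕ) : ℝ) = ((e2 G (A \ Q) + 2 * eb G (A \ Q) Q : ℕ) : ℝ) := by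
        rw [hsplit]
      push_cast at this
      exact this)
    (by
      have : (eb G (A \ Q) Q : ℝ) ≤ (((A \ Q).card * Q.card : ℕ) : ℝ) := by exact_mod_cast heb
      push_cast at this
      rw [hXr] at this
      exact this)
  refine ⟨Q, hQA, ?_, ?_, ?_⟩
  · have := hres.1
    linarith
  · unfold miss
    rw [Nat.cast_sub heb]
    push_cast
    rw [hXr]
    refine hres.2.trans ?_
    exact mul_le_mul_of_nonneg_right hsη (by positivity)
  · rw [hQind]
    have : 0 ≤ η := by linarith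
    simp only [Nat.cast_zero]
    positivity

end J13

open J13 in
theorem pCaseS (h1 : tLexEx) (h2 : tLexFacts) (h3 : tCore) : tCaseS := by
  classical
  intro c₁ η hc₁ hη
  obtain ⟨s, hs0, hsc, hsη, hs1⟩ : ∃ s : ℝ, 0 < s ∧ s ≤ c₁ / 2 ∧ s ≤ η / 50 ∧ s ≤ 1 / 100000 :=
    ⟨min (c₁ / 2) (min (η / 50) (1 / 100000)), by positivity, min_le_left _ _,
      (min_le_right _ _).trans (min_le_left _ _), (min_le_right _ _).trans (min_le_right _ _)⟩
  have hs2 : s ^ 2 ≤ s := by nlinarith
  refine ⟨s ^ 2, by positivity, ⌈4 / s ^ 2⌉₊ + ⌈7 / c₁⌉₊ + 1, ?_⟩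
  intro V _ _ G A k hN hk1 hk2 hno hLoc hSeen he
  set n : ℝ := (A.card : ℝ) with hn
  have hNr : 4 / s ^ 2 + 7 / c₁ + 1 ≤ n := by
    have h : ((⌈4 / s ^ 2⌉₊ + ⌈7 / c₁⌉₊ + 1 : ℕ) : ℝ) ≤ n := by
      rw [hn]
      exact_mod_cast hN
    push_cast at h
    have h5 := Nat.le_ceil (4 / s ^ 2)
    have h6 := Nat.le_ceil (7 / c₁)
    linarith
  have h4s : 0 < 4 / s ^ 2 := by positivity
  have h7c : 0 < 7 / c₁ := by positivity
  have hn0 : 0 < n := by linarith
  have hN1 : 4 ≤ s ^ 2 * n := by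
    have : 4 / s ^ 2 ≤ n := by linarith
    rw [div_le_iff₀ (by positivity)] at this
    linarith
  have hN2 : 7 ≤ c₁ * n := by
    have : 7 / c₁ ≤ n := by linarith
    rw [div_le_iff₀ hc₁] at this
    linarith
  obtain ⟨T, M, hL⟩ := h1 V G A
  obtain ⟨f1, f2, f3, f4, f5, f6, f7⟩ := h2 V G A T M hL
  obtain ⟨g1, g2⟩ := h3 V G A T M hL
  have htf := hL.pm.tf
  have hmf := hL.pm.mf
  obtain ⟨hc1, hc2⟩ := hL.pm.cards
  have hτk : T.card ≤ k := by
    by_contra hcon
    push Not at hcon
    exact hno (HasT.le ⟨T, htf, rfl⟩ hcon)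
  set I := (A \ vT T) \ vM M with hI
  have hIA : I ⊆ A := Finset.sdiff_subset.trans Finset.sdiff_subset
  have hc1r : ((A \ vT T).card : ℝ) + 3 * T.card = n := by
    rw [hn]
    exact_mod_cast hc1
  have hc2r : (I.card : ℝ) + 2 * M.card = (A \ vT T).card := by exact_mod_cast hc2
  have hτkr : (T.card : ℝ) ≤ k := by exact_mod_cast hτk
  have hτ0 : (0 : ℝ) ≤ T.card := Nat.cast_nonneg _
  have hi0 : (0 : ℝ) ≤ I.card := Nat.cast_nonneg _
  have hεn : 0 < s ^ 2 * n := by positivity
  -- the matching is large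
  have hm : c₁ * n ≤ M.card := by
    have hδ := g2 ⌈n / 2 - s ^ 2 * n⌉₊ (fun w hw => Nat.ceil_le.2 (hLoc.deg w (hIA hw)))
    have hδr : (I.card : ℝ) * (n / 2 - s ^ 2 * n) ≤
        T.card * (2 * I.card + 1) + I.card * M.card := by
      have h5 : ((I.card * ⌈n / 2 - s ^ 2 * n⌉₊ : ℕ) : ℝ) ≤
          ((T.card * (2 * I.card + 1) + I.card * M.card : ℕ) : ℝ) := by exact_mod_cast hδ
      push_cast at h5
      have h6 := mul_le_mul_of_nonneg_left (Nat.le_ceil (n / 2 - s ^ 2 * n)) hi0
      linarith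
    by_cases hi : 1 ≤ s ^ 2 * I.card
    · have hi1 : (0 : ℝ) < I.card := by
        by_contra hcon
        have : (I.card : ℝ) = 0 := le_antisymm (not_lt.1 hcon) hi0
        rw [this] at hi
        norm_num at hi
      have h5 : (T.card : ℝ) ≤ I.card * (s ^ 2 * n / 4) := by
        have : (T.card : ℝ) * 1 ≤ T.card * (s ^ 2 * I.card) := mul_le_mul_of_nonneg_left hi hτ0
        have h7 : (T.card : ℝ) * (s ^ 2 * I.card) ≤ n / 4 * (s ^ 2 * I.card) := by
          apply mul_le_mul_of_nonneg_right _ (by positivity)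
          nlinarith
        linarith
      have h6 : (I.card : ℝ) * (n / 2 - s ^ 2 * n) ≤
          I.card * (2 * T.card + s ^ 2 * n / 4 + M.card) := by nlinarith
      have h7 := le_of_mul_le_mul_left h6 hi1
      nlinarith
    · push Not at hi
      have h5 : (I.card : ℝ) ≤ n / 4 := by
        have h6 : s ^ 2 * (I.card : ℝ) ≤ s ^ 2 * (n / 4) := by linarith
        exact le_of_mul_le_mul_left h6 (by positivity)
      have h8 : c₁ * n ≤ (1 / 4 - c₁) * n := hk1.trans hk2
      nlinarith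
  have hm7 : (7 : ℝ) ≤ M.card := hN2.trans hm
  have hm7' : 7 ≤ M.card := by exact_mod_cast hm7
  -- the number of triangles is almost `k`
  have hdeg : ∀ p ∈ M, n + k - s ^ 2 * n ≤ (dg G A p.1 : ℝ) + dg G A p.2 := by
    intro p hp
    obtain ⟨hp1, hp2, hadj⟩ := hmf.mem p hp
    have hp1' := (Finset.mem_sdiff.1 hp1).1
    have hp2' := (Finset.mem_sdiff.1 hp2).1
    obtain ⟨z, hz, htri⟩ := hSeen p.1 hp1' p.2 hp2' hadj
    have h5 := hLoc.tri p.1 hp1' p.2 hp2' z hz htri
    have h6 : (dg G A z : ℝ) ≤ n := by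
      rw [hn]
      exact_mod_cast dg_le_card G A z
    linarith
  have hτ : k - s ^ 2 * n ≤ T.card := by
    have h5 := g1 (by omega) ⌈n + k - s ^ 2 * n⌉₊ (fun p hp => by
      apply Nat.ceil_le.2
      push_cast
      exact hdeg p hp)
    have h6 : ((⌈n + k - s ^ 2 * n⌉₊ : ℕ) : ℝ) ≤ ((A.card + T.card : ℕ) : ℝ) := by
      exact_mod_cast h5
    have h7 := Nat.le_ceil (n + k - s ^ 2 * n)
    push_cast at h6
    rw [← hn] at h6
    linarith
  -- edges between the triangles and the matching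
  set D : Finset V → ℕ := fun t => ∑ x ∈ t, dg G (vM M) x with hD
  have hDle : ∀ t ∈ T, D t ≤ 4 * M.card := f4 (by omega)
  have hDsum : (M.card : ℝ) * (4 * T.card - s ^ 2 * n) ≤ ∑ t ∈ T, (D t : ℝ) := by
    have h5 : ∑ t ∈ T, D t = ∑ p ∈ M, (dg G (vT T) p.1 + dg G (vT T) p.2) := by
      rw [← sum_vM hmf]
      exact (htf.sum_dg (vM M)).symm
    have h6 : (∑ t ∈ T, (D t : ℝ)) =
        ∑ p ∈ M, ((dg G (vT T) p.1 : ℝ) + dg G (vT T) p.2) := by
      have : ((∑ t ∈ T, D t : ℕ) : ℝ) =
          ((∑ p ∈ M, (dg G (vT T) p.1 + dg G (vT T) p.2) : ℕ) : ℝ) := by rw [h5]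
      push_cast at this
      exact this
    rw [h6]
    have h7 : ∑ _p ∈ M, (4 * (T.card : ℝ) - s ^ 2 * n) ≤
        ∑ p ∈ M, ((dg G (vT T) p.1 : ℝ) + dg G (vT T) p.2) := by
      refine Finset.sum_le_sum fun p hp => ?_
      have h8 := hdeg p hp
      have h9 : (dg G (A \ vT T) p.1 : ℝ) + dg G (vT T) p.1 = dg G A p.1 := by
        exact_mod_cast dg_sdiff G htf.vT_sub p.1
      have h10 : (dg G (A \ vT T) p.2 : ℝ) + dg G (vT T) p.2 = dg G A p.2 := by
        exact_mod_cast dg_sdiff G htf.vT_sub p.2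
      have h11 : (dg G (A \ vT T) p.1 : ℝ) + dg G (A \ vT T) p.2 ≤ (A \ vT T).card := by
        exact_mod_cast f6 p hp
      linarith
    rw [Finset.sum_const, nsmul_eq_mul] at h7
    exact h7
  set B := T.filter (fun t => (D t : ℝ) < (4 - s) * M.card) with hB
  have hBT : B ⊆ T := Finset.filter_subset _ _
  have hM0 : (0 : ℝ) < M.card := by linarith
  have hBc : (B.card : ℝ) ≤ s * n := by
    have h5 : ∑ _t ∈ B, s * (M.card : ℝ) ≤ ∑ t ∈ B, (4 * (M.card : ℝ) - D t) := by
      refine Finset.sum_le_sum fun t ht => ?_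
      have := (Finset.mem_filter.1 ht).2
      linarith
    have h6 : ∑ t ∈ B, (4 * (M.card : ℝ) - D t) ≤ ∑ t ∈ T, (4 * (M.card : ℝ) - D t) := by
      refine Finset.sum_le_sum_of_subset_of_nonneg hBT fun t ht _ => ?_
      have : (D t : ℝ) ≤ 4 * M.card := by exact_mod_cast hDle t ht
      linarith
    have h6' : ∑ t ∈ T, (4 * (M.card : ℝ) - D t) = T.card * (4 * M.card) - ∑ t ∈ T, (D t : ℝ) := by
      rw [Finset.sum_sub_distrib, Finset.sum_const, nsmul_eq_mul]
    rw [Finset.sum_const, nsmul_eq_mul] at h5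
    have h7 : (B.card : ℝ) * (s * M.card) ≤ (s * n) * (s * M.card) := by
      have h8 : (s * n) * (s * M.card) = M.card * (s ^ 2 * n) := by ring
      have h9 : (M.card : ℝ) * (4 * T.card - s ^ 2 * n) =
        T.card * (4 * M.card) - M.card * (s ^ 2 * n) := by ring
      linarith
    exact le_of_mul_le_mul_right h7 (by positivity)
  -- the special vertices
  have hgood : ∀ t ∈ T \ B, ∃ x, x ∈ t ∧ 6 ≤ (seen G M x).card := by
    intro t ht
    rw [Finset.mem_sdiff, hB, Finset.mem_filter] at ht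
    have h5 : (4 - s) * (M.card : ℝ) ≤ D t := by
      by_contra hcon
      exact ht.2 ⟨ht.1, not_le.1 hcon⟩
    have h6 : 3 * M.card + 3 < D t := by
      have : ((3 * M.card + 3 : ℕ) : ℝ) < D t := by
        push_cast
        nlinarith
      exact_mod_cast this
    obtain ⟨x, hx, hx2⟩ := f5 t ht.1 h6
    refine ⟨x, hx, ?_⟩
    have h7 : D t = dg G (vM M) x + ∑ y ∈ t.erase x, dg G (vM M) y := by
      rw [hD]
      exact (Finset.add_sum_erase t _ hx).symm
    have h8 := dg_vM_le hmf x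
    have h9 : (D t : ℝ) ≤ M.card + (seen G M x).card + 2 * M.card := by
      have : D t ≤ M.card + (seen G M x).card + 2 * M.card := by omega
      exact_mod_cast this
    have h10 : (5 : ℝ) < (seen G M x).card := by nlinarith
    have h11 : 5 < (seen G M x).card := by exact_mod_cast h10
    omega
  have hne : Nonempty V := by
    have : 0 < A.card := by
      have : (0 : ℝ) < A.card := hn0
      exact_mod_cast this
    exact ⟨(Finset.card_pos.1 this).choose⟩
  choose! x hx using hgood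
  have hxin : ∀ t ∈ T \ B, x t ∈ t := fun t ht => (hx t ht).1
  have hUc : ((T \ B).image x).card = (T \ B).card := by
    refine Finset.card_image_of_injOn ?_
    intro t ht t' ht' hxx
    by_contra hne'
    have ht1 := Finset.mem_coe.1 ht
    have ht1' := Finset.mem_coe.1 ht'
    have := htf.dis t (Finset.mem_sdiff.1 ht1).1 t' (Finset.mem_sdiff.1 ht1').1 hne'
    exact Finset.disjoint_left.1 this (hxin t ht1) (by
      have h5 := hxin t' ht1'
      have h6 : x t = x t' := hxx
      rw [h6]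
      exact h5)
  have hTB := Finset.card_sdiff_add_card_eq_card hBT
  have hTBr : ((T \ B).card : ℝ) + B.card = T.card := by exact_mod_cast hTB
  refine final (U := (T \ B).image x) (W := vT B) (s := s) ?_ hs0 hs1 (by linarith) ?_ ?_ ?_ ?_ ?_
    ?_ ?_
  · have : (0 : ℝ) < A.card := hn0
    exact_mod_cast this
  · intro v hv
    obtain ⟨t, ht, rfl⟩ := Finset.mem_image.1 hv
    exact htf.sub t (Finset.mem_sdiff.1 ht).1 (hxin t ht)
  · rw [(htf.subset hBT).card_vT]
    push_cast
    nlinarith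
  · rw [hUc]
    omega
  · rw [hUc]
    nlinarith
  · nlinarith
  · intro a ha b hb c hc
    exact trifree hL B x hxin (fun t ht => (hx t ht).2) ha hb hc
  · exact he

end Pool.Agent.ART
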