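import Pool.Agent.ART.Basic
import Pool.Agent.ART.Targets

set_option autoImplicit false
set_option linter.unusedSectionVars false

namespace Pool.Agent.ART.J14

open Finset Pool.Agent.ART

variable {V : Type} [DecidableEq V]

/-- every class of a function is small if there are many classes -/
lemma cls_card_le {B : Finset V} {g : V → ℕ} {b : ℕ} (hb : b ∈ B.image g) :
    (B.filter (fun y => g y = b)).card ≤ B.card - (B.image g).card + 1 := by
  classical
  have h1 := Finset.card_eq_sum_card_image g B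
  rw [← Finset.add_sum_erase _ _ hb] at h1
  have h3 : ((B.image g).erase b).card ≤
      ∑ c ∈ (B.image g).erase b, (B.filter (fun y => g y = c)).card := by
    rw [Finset.card_eq_sum_ones]
    refine Finset.sum_le_sum fun c hc => ?_
    obtain ⟨a, ha, rfl⟩ := Finset.mem_image.1 (Finset.mem_of_mem_erase hc)
    exact Finset.card_pos.2 ⟨a, Finset.mem_filter.2 ⟨ha, rfl⟩⟩
  have h4 := Finset.card_erase_add_one hb
  omega

lemma e2_cls (G : SimpleGraph V) (B : Finset V) (g : V → ℕ)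
    (h : ∀ x ∈ B, ∀ y ∈ B, G.Adj x y → g x = g y) :
    e2 G B ≤ (B.card - (B.image g).card + 1) * (B.card - (B.image g).card) := by
  classical
  set r := B.card - (B.image g).card with hr
  have h1 : e2 G B ≤ ∑ x ∈ B, ((B.filter (fun y => g y = g x)).card - 1) := by
    unfold e2
    refine Finset.sum_le_sum fun x hx => ?_
    rw [dg_def]
    have h2 : (B.filter (fun u => G.Adj x u)) ⊆ (B.filter (fun y => g y = g x)).erase x := by
      intro y hy
      rw [Finset.mem_filter] at hy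
      rw [Finset.mem_erase, Finset.mem_filter]
      exact ⟨hy.2.ne', hy.1, (h x hx y hy.1 hy.2).symm⟩
    have h3 := Finset.card_le_card h2
    have h4 : x ∈ B.filter (fun y => g y = g x) := Finset.mem_filter.2 ⟨hx, rfl⟩
    rw [Finset.card_erase_of_mem h4] at h3
    exact h3
  have h2 : ∑ x ∈ B, ((B.filter (fun y => g y = g x)).card - 1) =
      ∑ b ∈ B.image g, (B.filter (fun y => g y = b)).card *
        ((B.filter (fun y => g y = b)).card - 1) := by
    rw [Finset.sum_comp (fun b => (B.filter (fun y => g y = b)).card - 1) g]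
    simp only [smul_eq_mul]
  have h3 : ∑ b ∈ B.image g, ((B.filter (fun y => g y = b)).card - 1) = r := by
    have h4 := Finset.card_eq_sum_card_image g B
    have h5 : ∑ b ∈ B.image g, ((B.filter (fun y => g y = b)).card - 1) + (B.image g).card =
        ∑ b ∈ B.image g, (B.filter (fun y => g y = b)).card := by
      rw [Finset.card_eq_sum_ones, ← Finset.sum_add_distrib]
      refine Finset.sum_congr rfl fun b hb => ?_
      obtain ⟨a, ha, rfl⟩ := Finset.mem_image.1 hb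
      have : 0 < (B.filter (fun y => g y = g a)).card :=
        Finset.card_pos.2 ⟨a, Finset.mem_filter.2 ⟨ha, rfl⟩⟩
      omega
    omega
  rw [h2] at h1
  refine h1.trans ?_
  calc ∑ b ∈ B.image g, (B.filter (fun y => g y = b)).card *
        ((B.filter (fun y => g y = b)).card - 1)
      ≤ ∑ b ∈ B.image g, (r + 1) * ((B.filter (fun y => g y = b)).card - 1) := by
        refine Finset.sum_le_sum fun b hb => ?_
        exact Nat.mul_le_mul_right _ (cls_card_le hb)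
    _ = (r + 1) * r := by rw [← Finset.mul_sum, h3]

lemma greedy (G H : SimpleGraph V) (A B : Finset V) (M : Finset (V × V)) (hM : MF H B M)
    (hBA : B ⊆ A) (hle : ∀ p ∈ M, G.Adj p.1 p.2)
    (hd : ∀ p ∈ M, A.card + 3 * M.card ≤ dg G A p.1 + dg G A p.2) : HasT G A M.card := by
  classical
  have key : ∀ M' : Finset (V × V), M' ⊆ M → ∃ T, TF G A T ∧ T.card = M'.card ∧
      Disjoint (vT T) (vM (M \ M')) := by
    intro M'
    induction M' using Finset.induction_on with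
    | empty =>
      intro _
      refine ⟨∅, ⟨by simp, by simp, by simp⟩, rfl, ?_⟩
      unfold vT
      simp
    | insert p M' hp ih =>
      intro hsub
      have hpM : p ∈ M := hsub (Finset.mem_insert_self _ _)
      obtain ⟨T, hT, hTc, hdis⟩ := ih (fun q hq => hsub (Finset.mem_insert_of_mem hq))
      have hpd : p ∈ M \ M' := Finset.mem_sdiff.2 ⟨hpM, hp⟩
      have hMM : MF H B (M \ M') := hM.subset Finset.sdiff_subset
      have hsub' : M' ⊆ M := fun q hq => hsub (Finset.mem_insert_of_mem hq)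
      have hp1 : p.1 ∈ vM (M \ M') := mem_vM.2 ⟨p, hpd, Or.inl rfl⟩
      have hp2 : p.2 ∈ vM (M \ M') := mem_vM.2 ⟨p, hpd, Or.inr rfl⟩
      -- the common neighbours
      set C := (A.filter (fun u => G.Adj p.1 u)) ∩ (A.filter (fun u => G.Adj p.2 u)) with hC
      have hCc : 3 * M.card ≤ C.card := by
        have h1 := Finset.card_union_add_card_inter (A.filter (fun u => G.Adj p.1 u))
          (A.filter (fun u => G.Adj p.2 u))
        have h2 : ((A.filter (fun u => G.Adj p.1 u)) ∪ (A.filter (fun u => G.Adj p.2 u))).card ≤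
            A.card := Finset.card_le_card (Finset.union_subset (Finset.filter_subset _ _)
              (Finset.filter_subset _ _))
        have h3 := hd p hpM
        rw [dg_def, dg_def] at h3
        rw [← hC] at h1
        omega
      have hF : (vT T ∪ vM (M \ M')).card < C.card := by
        have h1 := Finset.card_union_le (vT T) (vM (M \ M'))
        rw [hT.card_vT, hMM.card_vM, hTc, Finset.card_sdiff_of_subset hsub'] at h1
        have h2 := Finset.card_le_card hsub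
        rw [Finset.card_insert_of_notMem hp] at h2
        omega
      obtain ⟨w, hwC, hwF⟩ := Finset.exists_mem_notMem_of_card_lt_card hF
      rw [hC, Finset.mem_inter, Finset.mem_filter, Finset.mem_filter] at hwC
      rw [Finset.mem_union, not_or] at hwF
      have htri : Tri G p.1 p.2 w := ⟨hle p hpM, hwC.2.2, hwC.1.2⟩
      have hA : ({p.1, p.2, w} : Finset V) ⊆ A := by
        intro x hx
        simp only [Finset.mem_insert, Finset.mem_singleton] at hx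
        rcases hx with rfl | rfl | rfl
        · exact hBA (hM.mem p hpM).1
        · exact hBA (hM.mem p hpM).2.1
        · exact hwC.1.1
      have hd2 : Disjoint ({p.1, p.2, w} : Finset V) (vT T) := by
        rw [Finset.disjoint_left] at hdis ⊢
        intro x hx hxT
        simp only [Finset.mem_insert, Finset.mem_singleton] at hx
        rcases hx with rfl | rfl | rfl
        · exact hdis hxT hp1
        · exact hdis hxT hp2
        · exact hwF.1 hxT
      obtain ⟨h1, h2⟩ := hT.insert htri hA hd2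
      refine ⟨_, h1, ?_, ?_⟩
      · rw [h2, hTc, Finset.card_insert_of_notMem hp]
      · rw [Finset.disjoint_left]
        intro x hx hx'
        obtain ⟨q, hq, hxq⟩ := mem_vM.1 hx'
        rw [Finset.mem_sdiff, Finset.mem_insert, not_or] at hq
        have hqd : q ∈ M \ M' := Finset.mem_sdiff.2 ⟨hq.1, hq.2.2⟩
        have hxv : x ∈ vM (M \ M') := mem_vM.2 ⟨q, hqd, hxq⟩
        obtain ⟨t, ht, hxt⟩ := mem_vT.1 hx
        rw [Finset.mem_insert] at ht
        rcases ht with rfl | ht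
        · simp only [Finset.mem_insert, Finset.mem_singleton] at hxt
          have hne := hM.dis p hpM q hq.1 (fun h => hq.2.1 h.symm)
          rcases hxt with rfl | rfl | rfl
          · rcases hxq with h | h
            · exact hne.1 h
            · exact hne.2.1 h
          · rcases hxq with h | h
            · exact hne.2.2.1 h
            · exact hne.2.2.2 h
          · exact hwF.2 hxv
        · rw [Finset.disjoint_left] at hdis
          exact hdis (mem_vT.2 ⟨t, ht, hxt⟩) hxv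
  obtain ⟨T, hT, hTc, _⟩ := key M (Finset.Subset.refl _)
  exact ⟨T, hT, hTc⟩


/-- non-adjacent pairs as a real number -/
noncomputable def ms (G : SimpleGraph V) (W Y : Finset V) : ℝ :=
  (W.card : ℝ) * Y.card - eb G W Y

lemma miss_eq (G : SimpleGraph V) (W Y : Finset V) : (miss G W Y : ℝ) = ms G W Y := by
  unfold miss ms
  rw [Nat.cast_sub (eb_le G W Y)]
  push_cast
  ring

lemma ms_nonneg (G : SimpleGraph V) (W Y : Finset V) : 0 ≤ ms G W Y := by
  rw [← miss_eq]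
  exact Nat.cast_nonneg _

lemma ms_comm (G : SimpleGraph V) (W Y : Finset V) : ms G W Y = ms G Y W := by
  unfold ms
  rw [eb_comm]
  ring

lemma ms_union_left (G : SimpleGraph V) {W X : Finset V} (h : Disjoint W X) (Y : Finset V) :
    ms G (W ∪ X) Y = ms G W Y + ms G X Y := by
  unfold ms
  rw [eb_union_left G h, Finset.card_union_of_disjoint h]
  push_cast
  ring

lemma ms_union_right (G : SimpleGraph V) {W X : Finset V} (h : Disjoint W X) (Y : Finset V) :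
    ms G Y (W ∪ X) = ms G Y W + ms G Y X := by
  rw [ms_comm, ms_union_left G h, ms_comm G W, ms_comm G X]

lemma ms_le (G : SimpleGraph V) (W Y : Finset V) : ms G W Y ≤ (W.card : ℝ) * Y.card := by
  unfold ms
  have : (0 : ℝ) ≤ (eb G W Y : ℝ) := Nat.cast_nonneg _
  linarith

lemma ms_mono_right (G : SimpleGraph V) {Y Y' : Finset V} (h : Y' ⊆ Y) (W : Finset V) :
    ms G W Y' ≤ ms G W Y := by
  have h1 : Y = (Y \ Y') ∪ Y' := (Finset.sdiff_union_of_subset h).symm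
  have h2 : ms G W Y = ms G W (Y \ Y') + ms G W Y' := by
    conv_lhs => rw [h1]
    exact ms_union_right G Finset.sdiff_disjoint W
  have := ms_nonneg G W (Y \ Y')
  linarith

/-- the number of edges inside a set after removing a subset -/
lemma e2_split (G : SimpleGraph V) {P S : Finset V} (h : S ⊆ P) :
    (e2 G P : ℝ) ≤ e2 G (P \ S) + 2 * S.card * (P.card - S.card) - 2 * ms G (P \ S) S +
      (S.card : ℝ) ^ 2 := by
  have h1 := e2_sdiff G h
  have h2 : (e2 G P : ℝ) = e2 G (P \ S) + 2 * eb G (P \ S) S + e2 G S := by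
    exact_mod_cast h1
  have h3 : (e2 G S : ℝ) ≤ (S.card : ℝ) ^ 2 := by
    have h4 := e2_le G S
    have h5 : S.card * (S.card - 1) ≤ S.card ^ 2 := by
      rw [sq]
      exact Nat.mul_le_mul_left _ (Nat.sub_le _ _)
    exact_mod_cast h4.trans h5
  have h6 : ((P \ S).card : ℝ) = P.card - S.card := by
    rw [Finset.card_sdiff_of_subset h, Nat.cast_sub (Finset.card_le_card h)]
  have h7 : ms G (P \ S) S = ((P.card : ℝ) - S.card) * S.card - eb G (P \ S) S := by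
    unfold ms
    rw [h6]
  rw [h2, h7]
  nlinarith [h3]

lemma count (G : SimpleGraph V) {A P Q SP SQ : Finset V} (hP : P ⊆ A) (hQ : Q ⊆ A)
    (hPQ : Disjoint P Q) (hSP : SP ⊆ P) (hSQ : SQ ⊆ Q) :
    (e2 G A : ℝ) ≤ (e2 G (P \ SP) + 2 * SP.card * (P.card - SP.card) - 2 * ms G (P \ SP) SP +
      (SP.card : ℝ) ^ 2) + (e2 G (Q \ SQ) + 2 * SQ.card * (Q.card - SQ.card) -
      2 * ms G (Q \ SQ) SQ + (SQ.card : ℝ) ^ 2) + 2 * ((P.card : ℝ) * Q.card - ms G P Q) +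
      2 * ((A \ (P ∪ Q)).card : ℝ) * A.card := by
  have h1 := e2_sdiff' G (A := A) (B := A \ (P ∪ Q)) Finset.sdiff_subset
  have h2 : A \ (A \ (P ∪ Q)) = P ∪ Q := by
    rw [Finset.sdiff_sdiff_eq_self (Finset.union_subset hP hQ)]
  rw [h2] at h1
  have h3 : ∑ v ∈ A \ (P ∪ Q), dg G A v ≤ (A \ (P ∪ Q)).card * A.card := by
    calc ∑ v ∈ A \ (P ∪ Q), dg G A v ≤ ∑ _v ∈ A \ (P ∪ Q), A.card :=
          Finset.sum_le_sum fun v _ => dg_le_card G A v
      _ = _ := by rw [Finset.sum_const, smul_eq_mul]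
  have h4 : (e2 G A : ℝ) ≤ e2 G (P ∪ Q) + 2 * ((A \ (P ∪ Q)).card : ℝ) * A.card := by
    have : e2 G A ≤ e2 G (P ∪ Q) + 2 * ((A \ (P ∪ Q)).card * A.card) := by omega
    have h5 : (e2 G A : ℝ) ≤ ((e2 G (P ∪ Q) + 2 * ((A \ (P ∪ Q)).card * A.card) : ℕ) : ℝ) := by
      exact_mod_cast this
    push_cast at h5
    linarith
  have h5 : (e2 G (P ∪ Q) : ℝ) = e2 G P + 2 * eb G P Q + e2 G Q := by
    exact_mod_cast e2_union G hPQ
  have h6 := e2_split G hSP
  have h7 := e2_split G hSQ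
  have h8 : ms G P Q = (P.card : ℝ) * Q.card - eb G P Q := rfl
  rw [h5] at h4
  linarith

/-- Tutte-Berge for the edges inside `P` and inside `Q` -/
lemma struct (h9 : tTB) [Fintype V] (G : SimpleGraph V) {A P Q : Finset V} (k : ℕ)
    (hno : ¬ HasT G A (k + 1)) (hP : P ⊆ A) (hQ : Q ⊆ A) (hPQ : Disjoint P Q)
    (hdP : ∀ x ∈ P, ∀ y ∈ P, G.Adj x y → A.card + 3 * (k + 1) ≤ dg G A x + dg G A y)
    (hdQ : ∀ x ∈ Q, ∀ y ∈ Q, G.Adj x y → A.card + 3 * (k + 1) ≤ dg G A x + dg G A y) :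
    ∃ SP SQ : Finset V, ∃ rP rQ : ℕ, SP ⊆ P ∧ SQ ⊆ Q ∧
      rP + rQ + 2 * (SP.card + SQ.card) ≤ 2 * k ∧ e2 G (P \ SP) ≤ (rP + 1) * rP ∧
      e2 G (Q \ SQ) ≤ (rQ + 1) * rQ := by
  classical
  let H : SimpleGraph V :=
    { Adj := fun x y => G.Adj x y ∧ ((x ∈ P ∧ y ∈ P) ∨ (x ∈ Q ∧ y ∈ Q))
      symm := ⟨fun x y h => ⟨h.1.symm, h.2.imp (fun h => ⟨h.2, h.1⟩) (fun h => ⟨h.2, h.1⟩)⟩⟩
      loopless := ⟨fun x h => G.loopless.irrefl x h.1⟩ }
  have hH : ¬ HasM H (P ∪ Q) (k + 1) := by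
    rintro ⟨M, hM, hMc⟩
    apply hno
    rw [← hMc]
    refine greedy G H A (P ∪ Q) M hM (Finset.union_subset hP hQ) (fun p hp => (hM.mem p hp).2.2.1)
      (fun p hp => ?_)
    rw [hMc]
    obtain ⟨h1, h2⟩ := (hM.mem p hp).2.2
    rcases h2 with h2 | h2
    · exact hdP _ h2.1 _ h2.2 h1
    · exact hdQ _ h2.1 _ h2.2 h1
  obtain ⟨S, hS, f, hf, hc⟩ := h9 V H (P ∪ Q) k hH
  have e1 : (P ∪ Q) \ S = (P \ (S ∩ P)) ∪ (Q \ (S ∩ Q)) := by
    ext x
    simp only [Finset.mem_sdiff, Finset.mem_union, Finset.mem_inter]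
    tauto
  have e2' : S = (S ∩ P) ∪ (S ∩ Q) := by
    ext x
    have := @hS x
    simp only [Finset.mem_union, Finset.mem_inter] at this ⊢
    tauto
  have d2 : Disjoint (S ∩ P) (S ∩ Q) :=
    Finset.disjoint_of_subset_left Finset.inter_subset_right
      (Finset.disjoint_of_subset_right Finset.inter_subset_right hPQ)
  have c1 : (S ∩ P).card + (S ∩ Q).card = S.card := by
    rw [← Finset.card_union_of_disjoint d2, ← e2']
  have c2 := Finset.card_union_of_disjoint hPQ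
  have c3 := Finset.card_sdiff_add_card_eq_card (Finset.inter_subset_right : S ∩ P ⊆ P)
  have c4 := Finset.card_sdiff_add_card_eq_card (Finset.inter_subset_right : S ∩ Q ⊆ Q)
  have c5 : (((P ∪ Q) \ S).image f).card ≤ ((P \ (S ∩ P)).image f).card +
      ((Q \ (S ∩ Q)).image f).card := by
    rw [e1, Finset.image_union]
    exact Finset.card_union_le _ _
  have c6 : ((P \ (S ∩ P)).image f).card ≤ (P \ (S ∩ P)).card := Finset.card_image_le
  have c7 : ((Q \ (S ∩ Q)).image f).card ≤ (Q \ (S ∩ Q)).card := Finset.card_image_le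
  refine ⟨S ∩ P, S ∩ Q, (P \ (S ∩ P)).card - ((P \ (S ∩ P)).image f).card,
    (Q \ (S ∩ Q)).card - ((Q \ (S ∩ Q)).image f).card, Finset.inter_subset_right,
    Finset.inter_subset_right, by omega, ?_, ?_⟩
  · refine e2_cls G _ f fun x hx y hy hxy => ?_
    refine hf x ?_ y ?_ ⟨hxy, Or.inl ⟨(Finset.mem_sdiff.1 hx).1, (Finset.mem_sdiff.1 hy).1⟩⟩
    · rw [e1]; exact Finset.mem_union_left _ hx
    · rw [e1]; exact Finset.mem_union_left _ hy
  · refine e2_cls G _ f fun x hx y hy hxy => ?_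
    refine hf x ?_ y ?_ ⟨hxy, Or.inr ⟨(Finset.mem_sdiff.1 hx).1, (Finset.mem_sdiff.1 hy).1⟩⟩
    · rw [e1]; exact Finset.mem_union_right _ hx
    · rw [e1]; exact Finset.mem_union_right _ hy


/-! ### Numerical part -/

lemma num_up (n k e p q z aP aQ rP rQ EP EQ mP mQ mPQ E : ℝ) (hn : 1 ≤ 2 * e * n)
    (hn0 : 0 < n) (hk4 : 4 * k ≤ n) (hpq : p + q + z = n) (hp : n / 2 - e * n ≤ p)
    (hq : n / 2 - e * n ≤ q) (hp0 : 0 ≤ p) (hq0 : 0 ≤ q) (hz0 : 0 ≤ z) (haP : 0 ≤ aP)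
    (haQ : 0 ≤ aQ) (hrP : 0 ≤ rP) (hrQ : 0 ≤ rQ) (hr : rP + rQ + 2 * (aP + aQ) ≤ 2 * k) (hEP : EP ≤ (rP + 1) * rP)
    (hEQ : EQ ≤ (rQ + 1) * rQ)
    (hE : E ≤ (EP + 2 * aP * (p - aP) - 2 * mP + aP ^ 2) + (EQ + 2 * aQ * (q - aQ) - 2 * mQ +
      aQ ^ 2) + 2 * (p * q - mPQ) + 2 * z * n) :
    E ≤ 4 * (k - (aP + aQ)) ^ 2 + (aP + aQ) * n - aP ^ 2 - aQ ^ 2 - 2 * (mP + mQ + mPQ) +
      n ^ 2 / 2 + 5.5 * e * n ^ 2 := by
  have hz : z ≤ 2 * e * n := by linarith
  have hp' : p ≤ n / 2 + e * n := by linarith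
  have hq' : q ≤ n / 2 + e * n := by linarith
  have he : 0 < e := by
    by_contra hcon
    have : e * n ≤ 0 := mul_nonpos_of_nonpos_of_nonneg (not_lt.1 hcon) hn0.le
    linarith
  have h1 : EP + EQ ≤ 4 * (k - (aP + aQ)) ^ 2 + n / 2 := by
    have h2 : (rP + 1) * rP + (rQ + 1) * rQ ≤ (rP + rQ + 1) * (rP + rQ) := by nlinarith
    have h3 : rP + rQ ≤ 2 * (k - (aP + aQ)) := by linarith
    have h4 : (rP + rQ + 1) * (rP + rQ) ≤
        (2 * (k - (aP + aQ)) + 1) * (2 * (k - (aP + aQ))) := by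
      apply mul_le_mul <;> linarith
    nlinarith
  have h2 : n / 2 ≤ e * n ^ 2 := by nlinarith
  have h3 : 2 * aP * p + 2 * aQ * q ≤ (aP + aQ) * n + e * n ^ 2 / 2 := by
    have h4 : aP * p ≤ aP * (n / 2 + e * n) := mul_le_mul_of_nonneg_left hp' haP
    have h5 : aQ * q ≤ aQ * (n / 2 + e * n) := mul_le_mul_of_nonneg_left hq' haQ
    have h6 : (aP + aQ) * (e * n) ≤ n / 4 * (e * n) := by
      apply mul_le_mul_of_nonneg_right _ (by positivity)
      linarith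
    nlinarith
  have h4 : 2 * (p * q) ≤ n ^ 2 / 2 := by
    have h5 : (p + q) ^ 2 ≤ n ^ 2 := by
      have h6 : 0 ≤ p + q := by linarith
      have h7 : p + q ≤ n := by linarith
      nlinarith
    nlinarith [sq_nonneg (p - q)]
  have h5 : 2 * z * n ≤ 4 * e * n ^ 2 := by nlinarith
  nlinarith

lemma num_B (n k e aP aQ μ E : ℝ) (hk : 0 < k)
    (haP : 0 ≤ aP) (haQ : 0 ≤ aQ) (hak : aP + aQ ≤ k)
    (hU : E ≤ 4 * (k - (aP + aQ)) ^ 2 + (aP + aQ) * n - aP ^ 2 - aQ ^ 2 - 2 * μ +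
      n ^ 2 / 2 + 5.5 * e * n ^ 2)
    (h1 : n ^ 2 / 2 + n * k - k ^ 2 / 2 - e * n ^ 2 ≤ E)
    (h2 : 4 * k ^ 2 + n ^ 2 / 2 - e * n ^ 2 ≤ E) :
    3.5 * (aP + aQ) * (k - (aP + aQ)) + 2 * μ ≤ 6.5 * e * n ^ 2 := by
  set a := aP + aQ with ha
  have h3 : a ^ 2 / 2 ≤ aP ^ 2 + aQ ^ 2 := by rw [ha]; nlinarith [sq_nonneg (aP - aQ)]
  have A1 : n * k - k ^ 2 / 2 + 2 * μ ≤ a * n - a ^ 2 / 2 + 4 * (k - a) ^ 2 +
      6.5 * e * n ^ 2 := by linarith
  have A2 : 4 * k ^ 2 + 2 * μ ≤ a * n - a ^ 2 / 2 + 4 * (k - a) ^ 2 +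
      6.5 * e * n ^ 2 := by linarith
  have h4 := mul_le_mul_of_nonneg_left A2 (by linarith : (0 : ℝ) ≤ k - a)
  have h5 := mul_le_mul_of_nonneg_left A1 (by linarith : (0 : ℝ) ≤ a)
  have h6 : k * (3.5 * a * (k - a) + 2 * μ) ≤ k * (6.5 * e * n ^ 2) := by nlinarith
  exact le_of_mul_le_mul_left h6 hk

lemma consts (c₁ η e e' : ℝ) (hc₁ : 0 < c₁) (hc8 : c₁ ≤ 1 / 8)
    (hη : 0 < η) (he : e = c₁ * e' / 4) (he' : 0 < e') (he1 : e' ≤ c₁ ^ 2 * η / 1000)
    (he2 : e' ≤ c₁ ^ 2 / 1000) : 0 < e ∧ e ≤ e' ∧ e' ≤ η / 1000 ∧ e' ≤ 1 / 1000 ∧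
      e ≤ e' / 32 ∧ c₁ ^ 2 ≤ 1 := by
  have h1 : c₁ ^ 2 ≤ 1 := by nlinarith
  have h2 : 0 < e := by rw [he]; positivity
  have h3 : e ≤ e' / 32 := by rw [he]; nlinarith
  have h4 : c₁ ^ 2 * η ≤ 1 * η := mul_le_mul_of_nonneg_right h1 hη.le
  refine ⟨h2, by linarith, by linarith, by linarith, h3, h1⟩

lemma near1 (G : SimpleGraph V) {A P Q SQ : Finset V} (k : ℕ) (c₁ η e e' rQ : ℝ) (hP : P ⊆ A)
    (hQ : Q ⊆ A) (hPQ : Disjoint P Q) (hSQ : SQ ⊆ Q) (hc₁ : 0 < c₁) (hc8 : c₁ ≤ 1 / 8)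
    (hη : 0 < η) (he : e = c₁ * e' / 4) (he' : 0 < e') (he1 : e' ≤ c₁ ^ 2 * η / 1000)
    (he2 : e' ≤ c₁ ^ 2 / 1000) (hn : 4 ≤ e * A.card)
    (hk4 : 4 * (k : ℝ) ≤ A.card) (hq : (A.card : ℝ) / 2 - e * A.card ≤ Q.card)
    (hm : ms G P Q ≤ 3.25 * e * (A.card : ℝ) ^ 2)
    (hz : ((A \ (P ∪ Q)).card : ℝ) ≤ 2 * e * A.card) (hrQ0 : 0 ≤ rQ)
    (hE : (e2 G (Q \ SQ) : ℝ) ≤ (rQ + 1) * rQ) (hrQ : rQ ≤ 1.5 * (e' / c₁) * A.card)
    (ha : (SQ.card : ℝ) ≤ e' * A.card) : NearI G A k η (1 / 20) := by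
  set n : ℝ := (A.card : ℝ) with hnn
  have hn0 : 0 < n := by
    by_contra hcon
    have h1 : n = 0 := le_antisymm (not_lt.1 hcon) (Nat.cast_nonneg _)
    rw [h1] at hn
    linarith
  obtain ⟨hepos, k1, k2, k3, k4, k5⟩ := consts c₁ η e e' hc₁ hc8 hη he he' he1 he2
  refine ⟨Q, hQ, ?_, ?_, ?_⟩
  · have h1 : e * n ≤ 1 / 1000 * n := mul_le_mul_of_nonneg_right (by linarith) hn0.le
    linarith
  · rw [miss_eq]
    have h1 : A \ Q = P ∪ (A \ (P ∪ Q)) := by
      ext x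
      simp only [Finset.mem_sdiff, Finset.mem_union]
      constructor
      · rintro ⟨h1, h2⟩
        by_cases hx : x ∈ P
        · exact Or.inl hx
        · exact Or.inr ⟨h1, fun h => h.elim hx h2⟩
      · rintro (h1 | ⟨h1, h2⟩)
        · exact ⟨hP h1, fun h => Finset.disjoint_left.1 hPQ h1 h⟩
        · exact ⟨h1, fun h => h2 (Or.inr h)⟩
    have h2 : Disjoint P (A \ (P ∪ Q)) := by
      rw [Finset.disjoint_left]
      intro x hx hx'
      exact (Finset.mem_sdiff.1 hx').2 (Finset.mem_union_left _ hx)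
    rw [h1, ms_union_left G h2]
    have h3 := ms_le G (A \ (P ∪ Q)) Q
    have h4 : (Q.card : ℝ) ≤ n := by
      rw [hnn]
      exact_mod_cast Finset.card_le_card hQ
    have h5 : ((A \ (P ∪ Q)).card : ℝ) * Q.card ≤ 2 * e * n * n :=
      mul_le_mul hz h4 (Nat.cast_nonneg _) (by positivity)
    have h6 : 5.25 * e ≤ η := by linarith
    have h7 := mul_le_mul_of_nonneg_right h6 (sq_nonneg n)
    have h8 : 5.25 * e * n ^ 2 = 3.25 * e * n ^ 2 + 2 * e * n * n := by ring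
    linarith
  · have h1 := e2_split G hSQ
    have h2 := ms_nonneg G (Q \ SQ) SQ
    have h4 : (Q.card : ℝ) ≤ n := by
      rw [hnn]
      exact_mod_cast Finset.card_le_card hQ
    have h5 : (SQ.card : ℝ) * Q.card ≤ e' * n * n :=
      mul_le_mul ha h4 (Nat.cast_nonneg _) (by positivity)
    have h6 : (e2 G Q : ℝ) ≤ (rQ + 1) * rQ + 2 * e' * n ^ 2 := by
      have h61 := sq_nonneg (SQ.card : ℝ)
      have h62 : 2 * (SQ.card : ℝ) * ((Q.card : ℝ) - SQ.card) + (SQ.card : ℝ) ^ 2 =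
        2 * ((SQ.card : ℝ) * Q.card) - (SQ.card : ℝ) ^ 2 := by ring
      have h63 : e' * n * n = e' * n ^ 2 := by ring
      linarith
    have h7 : 1 ≤ 0.5 * (e' / c₁) * n := by
      have h8 : e' / c₁ = 4 * e / c₁ ^ 2 := by
        rw [he]
        field_simp
      rw [h8]
      have h9 : 4 * e ≤ 4 * e / c₁ ^ 2 := by
        rw [le_div_iff₀ (by positivity)]
        have := mul_le_mul_of_nonneg_left k5 (by positivity : 0 ≤ 4 * e)
        linarith
      have h10 := mul_le_mul_of_nonneg_right h9 hn0.le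
      linarith
    have h8 : (rQ + 1) * rQ ≤ (2 * (e' / c₁) * n) ^ 2 := by
      have h9 : rQ + 1 ≤ 2 * (e' / c₁) * n := by linarith
      have h10 : rQ ≤ 2 * (e' / c₁) * n := by linarith
      rw [sq]
      exact mul_le_mul h9 h10 hrQ0 (by positivity)
    have h9 : (2 * (e' / c₁) * n) ^ 2 ≤ 4 * e' * n ^ 2 := by
      have h10 : (2 * (e' / c₁) * n) ^ 2 = 4 * e' * (e' / c₁ ^ 2) * n ^ 2 := by
        field_simp
        norm_num
      rw [h10]
      have h11 : e' / c₁ ^ 2 ≤ 1 := by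
        rw [div_le_one (by positivity)]
        linarith [sq_nonneg c₁]
      have h12 : 4 * e' * (e' / c₁ ^ 2) ≤ 4 * e' * 1 :=
        mul_le_mul_of_nonneg_left h11 (by positivity)
      have h13 := mul_le_mul_of_nonneg_right h12 (sq_nonneg n)
      linarith
    have h10 : 6 * e' ≤ η := by linarith
    have h11 := mul_le_mul_of_nonneg_right h10 (sq_nonneg n)
    linarith

lemma near2 (G : SimpleGraph V) {A P Q SQ : Finset V} (k : ℕ) (c₁ η e e' rQ : ℝ) (hP : P ⊆ A)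
    (hQ : Q ⊆ A) (hPQ : Disjoint P Q) (hSQ : SQ ⊆ Q) (hc₁ : 0 < c₁) (hc8 : c₁ ≤ 1 / 8)
    (hη : 0 < η) (he : e = c₁ * e' / 4) (he' : 0 < e') (he1 : e' ≤ c₁ ^ 2 * η / 1000)
    (he2 : e' ≤ c₁ ^ 2 / 1000) (hn : 4 ≤ e * A.card)
    (hk4 : 4 * (k : ℝ) ≤ A.card) (hq : (A.card : ℝ) / 2 - e * A.card ≤ Q.card)
    (hm : ms G P Q + ms G (Q \ SQ) SQ ≤ 3.25 * e * (A.card : ℝ) ^ 2)
    (hz : ((A \ (P ∪ Q)).card : ℝ) ≤ 2 * e * A.card) (hrQ0 : 0 ≤ rQ)
    (hE : (e2 G (Q \ SQ) : ℝ) ≤ (rQ + 1) * rQ) (hrQ : rQ ≤ 2 * e' * A.card)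
    (ha : (SQ.card : ℝ) ≤ k / 2 + A.card / 100) : NearI G A k η (1 / 20) := by
  set n : ℝ := (A.card : ℝ) with hnn
  have hn0 : 0 < n := by
    by_contra hcon
    have h1 : n = 0 := le_antisymm (not_lt.1 hcon) (Nat.cast_nonneg _)
    rw [h1] at hn
    linarith
  obtain ⟨hepos, k1, k2, k3, k4, k5⟩ := consts c₁ η e e' hc₁ hc8 hη he he' he1 he2
  refine ⟨Q \ SQ, Finset.sdiff_subset.trans hQ, ?_, ?_, ?_⟩
  · rw [Finset.card_sdiff_of_subset hSQ, Nat.cast_sub (Finset.card_le_card hSQ)]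
    have h1 : e * n ≤ 1 / 1000 * n := mul_le_mul_of_nonneg_right (by linarith) hn0.le
    linarith
  · rw [miss_eq]
    have h1 : A \ (Q \ SQ) = (P ∪ SQ) ∪ (A \ (P ∪ Q)) := by
      ext x
      simp only [Finset.mem_sdiff, Finset.mem_union]
      constructor
      · rintro ⟨h1, h2⟩
        by_cases hx : x ∈ P
        · exact Or.inl (Or.inl hx)
        · by_cases hx' : x ∈ SQ
          · exact Or.inl (Or.inr hx')
          · exact Or.inr ⟨h1, fun h => h.elim hx (fun h => h2 ⟨h, hx'⟩)⟩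
      · rintro ((h1 | h1) | ⟨h1, h2⟩)
        · exact ⟨hP h1, fun h => Finset.disjoint_left.1 hPQ h1 h.1⟩
        · exact ⟨hQ (hSQ h1), fun h => h.2 h1⟩
        · exact ⟨h1, fun h => h2 (Or.inr h.1)⟩
    have h2 : Disjoint (P ∪ SQ) (A \ (P ∪ Q)) := by
      rw [Finset.disjoint_left]
      intro x hx hx'
      apply (Finset.mem_sdiff.1 hx').2
      rcases Finset.mem_union.1 hx with h | h
      · exact Finset.mem_union_left _ h
      · exact Finset.mem_union_right _ (hSQ h)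
    have h2' : Disjoint P SQ := Finset.disjoint_of_subset_right hSQ hPQ
    rw [h1, ms_union_left G h2, ms_union_left G h2']
    have h3 := ms_le G (A \ (P ∪ Q)) (Q \ SQ)
    have h3' := ms_mono_right G (Finset.sdiff_subset : Q \ SQ ⊆ Q) P
    have h3'' := ms_comm G SQ (Q \ SQ)
    have h4 : ((Q \ SQ).card : ℝ) ≤ n := by
      rw [hnn]
      exact_mod_cast Finset.card_le_card (Finset.sdiff_subset.trans hQ)
    have h5 : ((A \ (P ∪ Q)).card : ℝ) * (Q \ SQ).card ≤ 2 * e * n * n :=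
      mul_le_mul hz h4 (Nat.cast_nonneg _) (by positivity)
    have h6 : 5.25 * e ≤ η := by linarith
    have h7 := mul_le_mul_of_nonneg_right h6 (sq_nonneg n)
    have h8 : 5.25 * e * n ^ 2 = 3.25 * e * n ^ 2 + 2 * e * n * n := by ring
    linarith
  · have h7 : 1 ≤ e' * n := by
      have h8 := mul_le_mul_of_nonneg_right k1 hn0.le
      linarith
    have h8 : (rQ + 1) * rQ ≤ (3 * e' * n) * (2 * e' * n) := by
      have h9 : rQ + 1 ≤ 3 * e' * n := by linarith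
      exact mul_le_mul h9 hrQ hrQ0 (by positivity)
    have h9 : 6 * e' * e' ≤ η := by
      have h10 : 6 * e' * e' ≤ 6 * (1 / 1000) * e' := by
        apply mul_le_mul_of_nonneg_right _ he'.le
        linarith
      linarith
    have h10 := mul_le_mul_of_nonneg_right h9 (sq_nonneg n)
    have h11 : 6 * e' * e' * n ^ 2 = (3 * e' * n) * (2 * e' * n) := by ring
    linarith


/-- the case of few vertices in the Tutte-Berge set -/
lemma num_case1 (n k c₁ e e' p q z aP aQ rP rQ EP EQ mP mQ mPQ E : ℝ) (hc₁ : 0 < c₁)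
    (hc8 : c₁ ≤ 1 / 8) (he : e = c₁ * e' / 4) (he' : 0 < e') (he2 : e' ≤ c₁ ^ 2 / 1000)
    (hn : 4 ≤ e * n) (hn0 : 0 < n) (hk1 : c₁ * n ≤ k) (hk4 : 4 * k ≤ n)
    (hpq : p + q + z = n) (hp : n / 2 - e * n ≤ p)
    (hq : n / 2 - e * n ≤ q) (hp0 : 0 ≤ p) (hq0 : 0 ≤ q) (hz0 : 0 ≤ z) (haP : 0 ≤ aP)
    (haQ : 0 ≤ aQ) (hrP : 0 ≤ rP) (hrQ : 0 ≤ rQ) (hr : rP + rQ + 2 * (aP + aQ) ≤ 2 * k)
    (hEP : EP ≤ (rP + 1) * rP) (hEQ : EQ ≤ (rQ + 1) * rQ) (hmP : 0 ≤ mP) (hmQ : 0 ≤ mQ)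
    (hmPQ : 0 ≤ mPQ)
    (hE : E ≤ (EP + 2 * aP * (p - aP) - 2 * mP + aP ^ 2) + (EQ + 2 * aQ * (q - aQ) - 2 * mQ +
      aQ ^ 2) + 2 * (p * q - mPQ) + 2 * z * n)
    (h2 : 4 * k ^ 2 + n ^ 2 / 2 - e * n ^ 2 ≤ E) (ha : aP + aQ ≤ e' * n) :
    rP ≤ 1.5 * (e' / c₁) * n ∨ rQ ≤ 1.5 * (e' / c₁) * n := by
  have hepos : 0 < e := by rw [he]; positivity
  have k4 : e ≤ e' / 32 := by rw [he]; nlinarith
  have hz : z ≤ 2 * e * n := by linarith
  have hp' : p ≤ n / 2 + e * n := by linarith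
  have hq' : q ≤ n / 2 + e * n := by linarith
  have h3 : 2 * aP * p + 2 * aQ * q ≤ (aP + aQ) * n + e * n ^ 2 / 2 := by
    have h4 : aP * p ≤ aP * (n / 2 + e * n) := mul_le_mul_of_nonneg_left hp' haP
    have h5 : aQ * q ≤ aQ * (n / 2 + e * n) := mul_le_mul_of_nonneg_left hq' haQ
    have h6 : (aP + aQ) * (e * n) ≤ n / 4 * (e * n) := by
      apply mul_le_mul_of_nonneg_right _ (by positivity)
      linarith
    have h7 : 2 * aP * p + 2 * aQ * q ≤ 2 * (aP * (n / 2 + e * n)) +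
        2 * (aQ * (n / 2 + e * n)) := by linarith only [h4, h5]
    have h8 : 2 * (aP * (n / 2 + e * n)) + 2 * (aQ * (n / 2 + e * n)) =
        (aP + aQ) * n + 2 * ((aP + aQ) * (e * n)) := by ring
    have h9 : n / 4 * (e * n) = e * n ^ 2 / 4 := by ring
    linarith only [h6, h7, h8, h9]
  have h4 : 2 * (p * q) ≤ n ^ 2 / 2 := by
    have h5 : (p + q) ^ 2 ≤ n ^ 2 := by
      have h6 : 0 ≤ p + q := by linarith
      have h7 : p + q ≤ n := by linarith
      exact pow_le_pow_left₀ h6 h7 2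
    have h6 : (p - q) ^ 2 = (p + q) ^ 2 - 4 * (p * q) := by ring
    linarith only [h5, h6, sq_nonneg (p - q)]
  have h5 : 2 * z * n ≤ 4 * e * n ^ 2 := by
    have h51 := mul_le_mul_of_nonneg_right hz hn0.le
    have h52 : 2 * e * n * n = 2 * e * n ^ 2 := by ring
    linarith only [h51, h52]
  have h6 : 4 * k ^ 2 - 5.5 * e * n ^ 2 - (aP + aQ) * n ≤ EP + EQ := by
    have h61 := sq_nonneg aP
    have h62 := sq_nonneg aQ
    have h63 : 2 * aP * (p - aP) = 2 * aP * p - 2 * aP ^ 2 := by ring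
    have h64 : 2 * aQ * (q - aQ) = 2 * aQ * q - 2 * aQ ^ 2 := by ring
    linarith only [h61, h62, h63, h64, hE, h2, h3, h4, h5, hmP, hmQ, hmPQ]
  have h7 : (aP + aQ) * n ≤ e' * n * n := mul_le_mul_of_nonneg_right ha hn0.le
  have h8 : e * n ^ 2 ≤ e' / 32 * n ^ 2 := mul_le_mul_of_nonneg_right k4 (sq_nonneg n)
  have h8' : e' * n * n = e' * n ^ 2 := by ring
  have h8'' : 0 ≤ e' * n ^ 2 := by positivity
  have h9 : 4 * k ^ 2 - 2 * e' * n ^ 2 ≤ EP + EQ := by
    linarith only [h6, h7, h8, h8', h8'']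
  have h10 : n / 2 ≤ e' * n ^ 2 := by
    have h101 : 4 * n ≤ e * n * n := mul_le_mul_of_nonneg_right hn hn0.le
    have h102 : e * n * n = e * n ^ 2 := by ring
    linarith only [h101, h102, h8, h8'', hn0]
  have h10' : rP + rQ ≤ n / 2 := by linarith
  have h11 : 4 * k ^ 2 - 3 * e' * n ^ 2 ≤ rP ^ 2 + rQ ^ 2 := by
    have h111 : (rP + 1) * rP = rP ^ 2 + rP := by ring
    have h112 : (rQ + 1) * rQ = rQ ^ 2 + rQ := by ring
    linarith only [h111, h112, h9, h10, h10', hEP, hEQ]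
  have h12 : (rP + rQ) ^ 2 ≤ 4 * k ^ 2 := by
    have h121 : rP + rQ ≤ 2 * k := by linarith
    have h122 := pow_le_pow_left₀ (by linarith : 0 ≤ rP + rQ) h121 2
    have h123 : (2 * k) ^ 2 = 4 * k ^ 2 := by ring
    linarith only [h122, h123]
  have h13 : 2 * (rP * rQ) ≤ 3 * e' * n ^ 2 := by
    have h131 : (rP + rQ) ^ 2 = rP ^ 2 + rQ ^ 2 + 2 * (rP * rQ) := by ring
    linarith only [h131, h11, h12]
  have h14 : (c₁ * n) ^ 2 ≤ k ^ 2 :=
    pow_le_pow_left₀ (by positivity) hk1 2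
  have h15 : 3 * e' * n ^ 2 ≤ 2 * (c₁ * n) ^ 2 := by
    have h151 : 3 * e' ≤ 2 * c₁ ^ 2 := by linarith [sq_nonneg c₁]
    have h152 := mul_le_mul_of_nonneg_right h151 (sq_nonneg n)
    have h153 : 2 * (c₁ * n) ^ 2 = 2 * c₁ ^ 2 * n ^ 2 := by ring
    linarith
  have h16 : 2 * k ^ 2 ≤ rP ^ 2 + rQ ^ 2 := by linarith only [h11, h14, h15]
  have hk0 : 0 < k := lt_of_lt_of_le (by positivity) hk1
  have h17 : 1.5 * (e' / c₁) * n * (c₁ * n) = 1.5 * e' * n ^ 2 := by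
    field_simp
  have hc1n : 0 < c₁ * n := by positivity
  rcases le_total rQ rP with h | h
  · right
    have h18 : k ≤ rP := by
      by_contra hcon
      have h19 := not_le.1 hcon
      have h20 := pow_lt_pow_left₀ h19 hrP (by norm_num : (2 : ℕ) ≠ 0)
      have h21 := pow_le_pow_left₀ hrQ h 2
      linarith only [h20, h21, h16]
    have h19 : rQ * (c₁ * n) ≤ 1.5 * (e' / c₁) * n * (c₁ * n) := by
      rw [h17]
      have : rQ * (c₁ * n) ≤ rQ * rP := mul_le_mul_of_nonneg_left (by linarith) hrQ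
      have h20 : rQ * rP = rP * rQ := mul_comm _ _
      linarith only [this, h20, h13]
    exact le_of_mul_le_mul_right h19 hc1n
  · left
    have h18 : k ≤ rQ := by
      by_contra hcon
      have h19 := not_le.1 hcon
      have h20 := pow_lt_pow_left₀ h19 hrQ (by norm_num : (2 : ℕ) ≠ 0)
      have h21 := pow_le_pow_left₀ hrP h 2
      linarith only [h20, h21, h16]
    have h19 : rP * (c₁ * n) ≤ 1.5 * (e' / c₁) * n * (c₁ * n) := by
      rw [h17]
      have : rP * (c₁ * n) ≤ rP * rQ := mul_le_mul_of_nonneg_left (by linarith) hrP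
      linarith only [this, h13]
    exact le_of_mul_le_mul_right h19 hc1n

/-- the case of many vertices in the Tutte-Berge set -/
lemma num_case2 (n k c₁ e e' aP aQ μ E : ℝ) (hc₁ : 0 < c₁)
    (hc8 : c₁ ≤ 1 / 8) (he : e = c₁ * e' / 4) (he' : 0 < e') (he2 : e' ≤ c₁ ^ 2 / 1000)
    (hn0 : 0 < n) (hk0 : 0 < k) (hk4 : 4 * k ≤ n) (haP : 0 ≤ aP)
    (haQ : 0 ≤ aQ) (hak : aP + aQ ≤ k) (hμ : 0 ≤ μ)
    (hU : E ≤ 4 * (k - (aP + aQ)) ^ 2 + (aP + aQ) * n - aP ^ 2 - aQ ^ 2 - 2 * μ +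
      n ^ 2 / 2 + 5.5 * e * n ^ 2)
    (h1 : n ^ 2 / 2 + n * k - k ^ 2 / 2 - e * n ^ 2 ≤ E) (ha : k - (aP + aQ) ≤ e' * n) :
    aQ ≤ k / 2 + n / 100 := by
  have k4 : e ≤ e' / 32 := by rw [he]; nlinarith
  have k5 : e' ≤ 1 / 64000 := by nlinarith
  have h8 : e * n ^ 2 ≤ e' / 32 * n ^ 2 := mul_le_mul_of_nonneg_right k4 (sq_nonneg n)
  have h9 : (k - (aP + aQ)) ^ 2 ≤ (e' * n) ^ 2 := by
    have : 0 ≤ k - (aP + aQ) := by linarith
    exact pow_le_pow_left₀ this ha 2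
  have h10 : (e' * n) ^ 2 ≤ e' / 64000 * n ^ 2 := by
    have : e' * e' ≤ 1 / 64000 * e' := mul_le_mul_of_nonneg_right k5 he'.le
    have h101 := mul_le_mul_of_nonneg_right this (sq_nonneg n)
    have h102 : (e' * n) ^ 2 = e' * e' * n ^ 2 := by ring
    have h103 : e' / 64000 * n ^ 2 = 1 / 64000 * e' * n ^ 2 := by ring
    linarith only [h101, h102, h103]
  have h10' : (aP + aQ) * n ≤ k * n := mul_le_mul_of_nonneg_right hak hn0.le
  have h10'' : 0 ≤ e' * n ^ 2 := by positivity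
  have h11 : aP ^ 2 + aQ ^ 2 ≤ k ^ 2 / 2 + 0.25 * e' * n ^ 2 := by
    linarith only [hU, h1, h8, h9, h10, h10', h10'', hμ]
  have h12 : k ^ 2 - (aP + aQ) ^ 2 ≤ e' * n * (n / 2) := by
    have h13 : (k - (aP + aQ)) * (k + (aP + aQ)) ≤ e' * n * (n / 2) := by
      apply mul_le_mul ha _ (by linarith) (by positivity)
      linarith
    have h14 : (k - (aP + aQ)) * (k + (aP + aQ)) = k ^ 2 - (aP + aQ) ^ 2 := by ring
    linarith only [h13, h14]
  have h13 : (aQ - aP) ^ 2 ≤ e' * n ^ 2 := by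
    have h131 : (aQ - aP) ^ 2 = 2 * (aP ^ 2 + aQ ^ 2) - (aP + aQ) ^ 2 := by ring
    have h132 : e' * n * (n / 2) = e' * n ^ 2 / 2 := by ring
    linarith only [h131, h132, h11, h12]
  have h14 : (aQ - aP) ^ 2 ≤ (n / 50) ^ 2 := by
    have : e' * n ^ 2 ≤ 1 / 64000 * n ^ 2 := mul_le_mul_of_nonneg_right k5 (sq_nonneg n)
    have h141 : (n / 50) ^ 2 = n ^ 2 / 2500 := by ring
    have h142 := sq_nonneg n
    linarith only [this, h13, h141, h142]
  have h15 : aQ - aP ≤ n / 50 := by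
    have := abs_le_of_sq_le_sq' h14 (by positivity)
    exact this.2
  linarith

end Pool.Agent.ART.J14

namespace Pool.Agent.ART

open Finset J14

/-- J14 some edge is in no triangle -/
theorem pCaseU (h9 : tTB) : tCaseU := by
  intro c₁ η hc₁ hη
  obtain ⟨e', he'd⟩ : ∃ e' : ℝ, e' = c₁ ^ 2 * min η 1 / 1000 := ⟨_, rfl⟩
  obtain ⟨e, hed⟩ : ∃ e : ℝ, e = c₁ * e' / 4 := ⟨_, rfl⟩
  have hmin : 0 < min η 1 := lt_min hη one_pos
  have he' : 0 < e' := by rw [he'd]; positivity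
  have he : 0 < e := by rw [hed]; positivity
  obtain ⟨N, hN⟩ := exists_nat_gt (4 / e)
  refine ⟨e, he, N, ?_⟩
  intro V _ _ G A k hA hk1 hk2 hno hloc hseen hE1 hE2
  classical
  have hn : 4 ≤ e * (A.card : ℝ) := by
    have h1 : (N : ℝ) ≤ (A.card : ℝ) := by exact_mod_cast hA
    have h2 : 4 / e ≤ (A.card : ℝ) := by linarith
    rw [div_le_iff₀ he] at h2
    linarith
  obtain ⟨n, hnn⟩ : ∃ n : ℝ, n = (A.card : ℝ) := ⟨_, rfl⟩
  rw [← hnn] at hn hk1 hk2 hloc hE1 hE2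
  have hn0 : 0 < n := by
    by_contra hcon
    have h1 : n = 0 := le_antisymm (not_lt.1 hcon) (by rw [hnn]; exact Nat.cast_nonneg _)
    rw [h1] at hn
    linarith
  have hk0 : 0 < (k : ℝ) := lt_of_lt_of_le (by positivity) hk1
  have hc8 : c₁ ≤ 1 / 8 := by
    have h1 : c₁ * n ≤ (1 / 4 - c₁) * n := hk1.trans hk2
    have h2 : c₁ ≤ 1 / 4 - c₁ := le_of_mul_le_mul_right h1 hn0
    linarith
  have hk4 : 4 * (k : ℝ) ≤ n := by
    have h1 : 0 ≤ c₁ * n := by positivity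
    linarith
  have he1 : e' ≤ c₁ ^ 2 * η / 1000 := by
    rw [he'd]
    have := mul_le_mul_of_nonneg_left (min_le_left η 1) (sq_nonneg c₁)
    linarith
  have he2 : e' ≤ c₁ ^ 2 / 1000 := by
    rw [he'd]
    have := mul_le_mul_of_nonneg_left (min_le_right η 1) (sq_nonneg c₁)
    linarith
  obtain ⟨-, k1, k2, k3, k4, k5⟩ := consts c₁ η e e' hc₁ hc8 hη hed he' he1 he2
  have hec : 3 * e ≤ 2 * c₁ := by
    rw [hed]
    have := mul_le_mul_of_nonneg_left k3 hc₁.le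
    linarith
  -- the unseen edge
  unfold Seen at hseen
  push Not at hseen
  obtain ⟨u, hu, v, hv, huv, huz⟩ := hseen
  obtain ⟨P, hPd⟩ : ∃ P : Finset V, P = A.filter (fun x => G.Adj u x) := ⟨_, rfl⟩
  obtain ⟨Q, hQd⟩ : ∃ Q : Finset V, Q = A.filter (fun x => G.Adj v x) := ⟨_, rfl⟩
  have hPm : ∀ x, x ∈ P ↔ x ∈ A ∧ G.Adj u x := by
    intro x
    rw [hPd, Finset.mem_filter]
  have hQm : ∀ x, x ∈ Q ↔ x ∈ A ∧ G.Adj v x := by
    intro x
    rw [hQd, Finset.mem_filter]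
  have hP : P ⊆ A := fun x hx => ((hPm x).1 hx).1
  have hQ : Q ⊆ A := fun x hx => ((hQm x).1 hx).1
  have hPQ : Disjoint P Q := by
    rw [Finset.disjoint_left]
    intro x hx hy
    exact huz x (hP hx) ⟨huv, ((hQm x).1 hy).2, ((hPm x).1 hx).2⟩
  have hdu : dg G A u = P.card := by
    rw [dg_def, hPd]
  have hdv : dg G A v = Q.card := by
    rw [dg_def, hQd]
  have hp : n / 2 - e * n ≤ P.card := by
    have := hloc.deg u hu
    rw [hdu] at this
    exact this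
  have hq : n / 2 - e * n ≤ Q.card := by
    have := hloc.deg v hv
    rw [hdv] at this
    exact this
  have hpq : (P.card : ℝ) + Q.card + ((A \ (P ∪ Q)).card : ℝ) = n := by
    have h1 := Finset.card_sdiff_add_card_eq_card (Finset.union_subset hP hQ)
    have h2 := Finset.card_union_of_disjoint hPQ
    rw [hnn]
    have h3 : P.card + Q.card + (A \ (P ∪ Q)).card = A.card := by omega
    exact_mod_cast h3
  have hp0 : (0 : ℝ) ≤ P.card := Nat.cast_nonneg _
  have hq0 : (0 : ℝ) ≤ Q.card := Nat.cast_nonneg _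
  have hz0 : (0 : ℝ) ≤ (A \ (P ∪ Q)).card := Nat.cast_nonneg _
  have hz : ((A \ (P ∪ Q)).card : ℝ) ≤ 2 * e * n := by linarith
  have hkk : 2 * (k : ℝ) + 3 + 2 * (e * n) ≤ n / 2 := by
    have h1 := mul_le_mul_of_nonneg_right hec hn0.le
    linarith
  have hdP : ∀ x ∈ P, ∀ y ∈ P, G.Adj x y → A.card + 3 * (k + 1) ≤ dg G A x + dg G A y := by
    intro x hx y hy hxy
    have h1 := hloc.tri u hu x (hP hx) y (hP hy) ⟨((hPm x).1 hx).2, hxy, ((hPm y).1 hy).2⟩
    rw [hdu] at h1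
    have h4 : (A.card : ℝ) + 3 * (k + 1) ≤ dg G A x + dg G A y := by
      rw [← hnn]
      linarith
    exact_mod_cast h4
  have hdQ : ∀ x ∈ Q, ∀ y ∈ Q, G.Adj x y → A.card + 3 * (k + 1) ≤ dg G A x + dg G A y := by
    intro x hx y hy hxy
    have h1 := hloc.tri v hv x (hQ hx) y (hQ hy) ⟨((hQm x).1 hx).2, hxy, ((hQm y).1 hy).2⟩
    rw [hdv] at h1
    have h4 : (A.card : ℝ) + 3 * (k + 1) ≤ dg G A x + dg G A y := by
      rw [← hnn]
      linarith
    exact_mod_cast h4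
  obtain ⟨SP, SQ, rP, rQ, hSP, hSQ, hr, hEP, hEQ⟩ := struct h9 G k hno hP hQ hPQ hdP hdQ
  have hcount := count G hP hQ hPQ hSP hSQ
  rw [← hnn] at hcount
  have haP : (0 : ℝ) ≤ SP.card := Nat.cast_nonneg _
  have haQ : (0 : ℝ) ≤ SQ.card := Nat.cast_nonneg _
  have hrP : (0 : ℝ) ≤ rP := Nat.cast_nonneg _
  have hrQ : (0 : ℝ) ≤ rQ := Nat.cast_nonneg _
  have hr' : (rP : ℝ) + rQ + 2 * (SP.card + SQ.card) ≤ 2 * k := by exact_mod_cast hr
  have hEP' : (e2 G (P \ SP) : ℝ) ≤ ((rP : ℝ) + 1) * rP := by exact_mod_cast hEP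
  have hEQ' : (e2 G (Q \ SQ) : ℝ) ≤ ((rQ : ℝ) + 1) * rQ := by exact_mod_cast hEQ
  have hmP := ms_nonneg G (P \ SP) SP
  have hmQ := ms_nonneg G (Q \ SQ) SQ
  have hmPQ := ms_nonneg G P Q
  have hak : (SP.card : ℝ) + SQ.card ≤ k := by linarith
  have hU := num_up n k e P.card Q.card (A \ (P ∪ Q)).card SP.card SQ.card rP rQ
    (e2 G (P \ SP)) (e2 G (Q \ SQ)) (ms G (P \ SP) SP) (ms G (Q \ SQ) SQ) (ms G P Q) (e2 G A)
    (by linarith) hn0 hk4 hpq hp hq hp0 hq0 hz0 haP haQ hrP hrQ hr' hEP' hEQ' hcount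
  have hE1' : n ^ 2 / 2 + n * k - (k : ℝ) ^ 2 / 2 - e * n ^ 2 ≤ e2 G A := by
    unfold ph1 at hE1
    linarith
  have hE2' : 4 * (k : ℝ) ^ 2 + n ^ 2 / 2 - e * n ^ 2 ≤ e2 G A := by
    unfold ph2 at hE2
    linarith
  have hB := num_B n k e SP.card SQ.card (ms G (P \ SP) SP + ms G (Q \ SQ) SQ + ms G P Q)
    (e2 G A) hk0 haP haQ hak hU hE1' hE2'
  obtain ⟨a, had⟩ : ∃ a : ℝ, a = (SP.card : ℝ) + SQ.card := ⟨_, rfl⟩
  have ha0 : 0 ≤ a := by rw [had]; positivity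
  have hμ : ms G (P \ SP) SP + ms G (Q \ SQ) SQ + ms G P Q ≤ 3.25 * e * n ^ 2 := by
    have h1 : 0 ≤ 3.5 * ((SP.card : ℝ) + SQ.card) * (k - ((SP.card : ℝ) + SQ.card)) := by
      apply mul_nonneg
      · positivity
      · linarith
    linarith
  have hB' : 3.5 * (a * (k - a)) ≤ 6.5 * e * n ^ 2 := by
    rw [had]
    linarith
  have hen : 6.5 * e * n ^ 2 = (1.625 * e' * n) * (c₁ * n) := by
    rw [hed]
    ring
  have hc1n : 0 < c₁ * n := by positivity
  rcases le_total a (k / 2) with hcase | hcase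
  · -- few vertices
    have h1 : a * (c₁ * n / 2) ≤ a * (k - a) := by
      apply mul_le_mul_of_nonneg_left _ ha0
      linarith
    have h2 : 1.75 * a * (c₁ * n) ≤ (1.625 * e' * n) * (c₁ * n) := by
      rw [← hen]
      linarith
    have h3 : 1.75 * a ≤ 1.625 * e' * n := le_of_mul_le_mul_right h2 hc1n
    have h4 : 0 < e' * n := by positivity
    have h5 : (SP.card : ℝ) + SQ.card ≤ e' * n := by
      rw [← had]
      linarith
    rcases num_case1 n k c₁ e e' P.card Q.card (A \ (P ∪ Q)).card SP.card SQ.card rP rQ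
      (e2 G (P \ SP)) (e2 G (Q \ SQ)) (ms G (P \ SP) SP) (ms G (Q \ SQ) SQ) (ms G P Q) (e2 G A)
      hc₁ hc8 hed he' he2 hn hn0 hk1 hk4 hpq hp hq hp0 hq0 hz0 haP haQ hrP hrQ hr' hEP' hEQ'
      hmP hmQ hmPQ hcount hE2' h5 with h6 | h6
    · rw [Finset.union_comm] at hz
      refine near1 G k c₁ η e e' rP hQ hP hPQ.symm hSP hc₁ hc8 hη hed he' he1 he2
        ?_ ?_ ?_ ?_ ?_ hrP hEP' ?_ ?_
      · rw [← hnn]; exact hn
      · rw [← hnn]; exact hk4
      · rw [← hnn]; exact hp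
      · rw [← hnn, ms_comm]; linarith
      · rw [← hnn]; exact hz
      · rw [← hnn]; exact h6
      · rw [← hnn]; linarith
    · refine near1 G k c₁ η e e' rQ hP hQ hPQ hSQ hc₁ hc8 hη hed he' he1 he2
        ?_ ?_ ?_ ?_ ?_ hrQ hEQ' ?_ ?_
      · rw [← hnn]; exact hn
      · rw [← hnn]; exact hk4
      · rw [← hnn]; exact hq
      · rw [← hnn]; linarith
      · rw [← hnn]; exact hz
      · rw [← hnn]; exact h6
      · rw [← hnn]; linarith
  · -- many vertices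
    have h0 : 0 ≤ k - a := by
      rw [had]
      linarith
    have h1 : (c₁ * n / 2) * (k - a) ≤ a * (k - a) := by
      apply mul_le_mul_of_nonneg_right _ h0
      linarith
    have h2 : 1.75 * (k - a) * (c₁ * n) ≤ (1.625 * e' * n) * (c₁ * n) := by
      rw [← hen]
      linarith
    have h3 : 1.75 * (k - a) ≤ 1.625 * e' * n := le_of_mul_le_mul_right h2 hc1n
    have h4 : 0 < e' * n := by positivity
    have h5 : (k : ℝ) - ((SP.card : ℝ) + SQ.card) ≤ e' * n := by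
      rw [← had]
      linarith
    have h6 := num_case2 n k c₁ e e' SP.card SQ.card (ms G (P \ SP) SP + ms G (Q \ SQ) SQ +
      ms G P Q) (e2 G A) hc₁ hc8 hed he' he2 hn0 hk0 hk4 haP haQ hak (by linarith) hU hE1' h5
    refine near2 G k c₁ η e e' rQ hP hQ hPQ hSQ hc₁ hc8 hη hed he' he1 he2
      ?_ ?_ ?_ ?_ ?_ hrQ hEQ' ?_ ?_
    · rw [← hnn]; exact hn
    · rw [← hnn]; exact hk4
    · rw [← hnn]; exact hq
    · rw [← hnn]; linarith
    · rw [← hnn]; exact hz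
    · rw [← hnn]; linarith
    · rw [← hnn]; exact h6

end Pool.Agent.ART
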