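import Pool.Agent.ART.J1

set_option autoImplicit false
set_option linter.unusedSectionVars false

/-! Anti-Ramsey numbers of vertex-disjoint triangles (MP_e56f3d_co): job J16, stability for
`n/4 ≤ k ≤ 0.3075 n` when every edge is in a triangle. -/

namespace Pool.Agent.ART

open Finset

variable {V : Type} [DecidableEq V]

namespace J16

/-- the uncovered set `I` -/
def II (A : Finset V) (T : Finset (Finset V)) (M : Finset (V × V)) : Finset V :=
  (A \ vT T) \ vM M

section swap

variable {G : SimpleGraph V} {A : Finset V} {T : Finset (Finset V)} {M : Finset (V × V)}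

/-- replace the triangle `x y z` by `w x y` -/
lemma swap (h : LexMax G A T M) {x y z w : V} (ht : ({x, y, z} : Finset V) ∈ T)
    (htri : Tri G x y z) (hw : w ∈ II A T M) (hwx : G.Adj w x) (hwy : G.Adj w y) :
    LexMax G A (insert {w, x, y} (T.erase {x, y, z})) M ∧
      II A (insert {w, x, y} (T.erase {x, y, z})) M = insert z ((II A T M).erase w) := by
  have hxt : x ∈ ({x, y, z} : Finset V) := by simp
  have hyt : y ∈ ({x, y, z} : Finset V) := by simp
  have hzt : z ∈ ({x, y, z} : Finset V) := by simp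
  have tT : ∀ v ∈ ({x, y, z} : Finset V), v ∈ vT T := fun v hv => mem_vT.2 ⟨_, ht, hv⟩
  have wI := hw
  unfold II at wI
  rw [Finset.mem_sdiff, Finset.mem_sdiff] at wI
  have tA := h.pm.tf.sub _ ht
  have htri' : Tri G w x y := ⟨hwx, htri.1, hwy⟩
  have h0 : TF G A (T.erase {x, y, z}) := h.pm.tf.subset (Finset.erase_subset _ _)
  have hwt : ∀ v ∈ ({x, y, z} : Finset V), v ≠ w := by
    intro v hv
    rintro rfl; exact wI.1.2 (tT _ hv)
  obtain ⟨a1, c1⟩ := h0.insert htri' (by
    intro v hv
    simp only [Finset.mem_insert, Finset.mem_singleton] at hv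
    rcases hv with rfl | rfl | rfl
    · exact wI.1.1
    · exact tA hxt
    · exact tA hyt) (by
    rw [Finset.disjoint_left]
    intro v hv hv'
    obtain ⟨k1, k2⟩ := J1.mem_vT_erase h.pm.tf ht hv'
    simp only [Finset.mem_insert, Finset.mem_singleton] at hv
    rcases hv with rfl | rfl | rfl
    · exact wI.1.2 k1
    · exact k2 hxt
    · exact k2 hyt)
  have c2 := Finset.card_erase_add_one ht
  have hcard : (insert {w, x, y} (T.erase {x, y, z})).card = T.card := by omega
  have hvT : ∀ v, v ∈ vT (insert {w, x, y} (T.erase {x, y, z})) ↔ v = w ∨ v = x ∨ v = y ∨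
      (v ∈ vT T ∧ v ∉ ({x, y, z} : Finset V)) := by
    intro v
    rw [J1.vT_insert, Finset.mem_union]
    simp only [Finset.mem_insert, Finset.mem_singleton]
    constructor
    · rintro (hv | hv)
      · tauto
      · have := J1.mem_vT_erase h.pm.tf ht hv
        simp only [Finset.mem_insert, Finset.mem_singleton] at this
        exact Or.inr (Or.inr (Or.inr this))
    · rintro (hv | hv | hv | ⟨hv, hv'⟩)
      · tauto
      · tauto
      · tauto
      · right
        obtain ⟨t', ht', hvt'⟩ := mem_vT.1 hv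
        refine mem_vT.2 ⟨t', Finset.mem_erase.2 ⟨?_, ht'⟩, hvt'⟩
        rintro rfl
        simp only [Finset.mem_insert, Finset.mem_singleton] at hvt'
        exact hv' hvt'
  have hM0 : MF G (A \ vT (insert {w, x, y} (T.erase {x, y, z}))) M := by
    refine ⟨fun p hp => ?_, h.pm.mf.dis⟩
    obtain ⟨m1, m2, m3⟩ := h.pm.mf.mem p hp
    have step : ∀ v ∈ A \ vT T, v ∈ vM M → v ∈ A \ vT (insert {w, x, y} (T.erase {x, y, z})) := by
      intro v hv hvM
      rw [Finset.mem_sdiff] at hv ⊢
      refine ⟨hv.1, fun hv2 => ?_⟩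
      rcases (hvT v).1 hv2 with rfl | rfl | rfl | hv3
      · exact wI.2 hvM
      · exact hv.2 (tT _ hxt)
      · exact hv.2 (tT _ hyt)
      · exact hv.2 hv3.1
    exact ⟨step _ m1 (mem_vM.2 ⟨p, hp, Or.inl rfl⟩), step _ m2 (mem_vM.2 ⟨p, hp, Or.inr rfl⟩), m3⟩
  refine ⟨⟨⟨a1, hM0⟩, ?_, ?_⟩, ?_⟩
  · intro T' M' h'
    rw [hcard]
    exact h.maxT T' M' h'
  · intro T' M' h' hc
    exact h.maxM T' M' h' (by rw [hc, hcard])
  · ext v
    unfold II
    simp only [Finset.mem_sdiff, hvT, Finset.mem_insert, Finset.mem_erase, Finset.mem_singleton]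
    constructor
    · rintro ⟨⟨k1, k2⟩, k3⟩
      by_cases hvz : v = z
      · exact Or.inl hvz
      · right
        refine ⟨fun hh => k2 (Or.inl hh), ⟨k1, fun hh => ?_⟩, k3⟩
        apply k2
        by_cases hvx : v = x
        · exact Or.inr (Or.inl hvx)
        · by_cases hvy : v = y
          · exact Or.inr (Or.inr (Or.inl hvy))
          · refine Or.inr (Or.inr (Or.inr ⟨hh, ?_⟩))
            tauto
    · rintro (rfl | ⟨k1, ⟨k2, k3⟩, k4⟩)
      · refine ⟨⟨tA hzt, ?_⟩, ?_⟩
        · rintro (h4 | h4 | h4 | h4)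
          · exact hwt _ hzt h4
          · exact htri.2.2.ne h4.symm
          · exact htri.2.1.ne h4.symm
          · exact h4.2 (Or.inr (Or.inr rfl))
        · intro hzM
          have := h.pm.mf.vM_sub hzM
          rw [Finset.mem_sdiff] at this
          exact this.2 (tT _ hzt)
      · refine ⟨⟨k2, ?_⟩, k4⟩
        rintro (h4 | h4 | h4 | h4)
        · exact k1 h4
        · exact k3 (by rw [h4]; exact tT _ hxt)
        · exact k3 (by rw [h4]; exact tT _ hyt)
        · exact k3 h4.1

lemma notMem_II {t : Finset V} (ht : t ∈ T) {v : V} (hv : v ∈ t) : v ∉ II A T M := by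
  intro h
  unfold II at h
  rw [Finset.mem_sdiff, Finset.mem_sdiff] at h
  exact h.1.2 (mem_vT.2 ⟨t, ht, hv⟩)

/-- no other vertex of `I` is adjacent to `z` -/
lemma no_other (h : LexMax G A T M) {x y z w : V} (ht : ({x, y, z} : Finset V) ∈ T)
    (htri : Tri G x y z) (hw : w ∈ II A T M) (hwx : G.Adj w x) (hwy : G.Adj w y) {w' : V}
    (hw' : w' ∈ II A T M) (hne : w' ≠ w) : ¬ G.Adj z w' := by
  obtain ⟨h1, h2⟩ := swap h ht htri hw hwx hwy
  have h3 := J1.fact2 h1
  have h4 : (A \ vT (insert {w, x, y} (T.erase {x, y, z}))) \ vM M =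
    insert z ((II A T M).erase w) := h2
  rw [h4] at h3
  exact h3 z (Finset.mem_insert_self _ _) w'
    (Finset.mem_insert_of_mem (Finset.mem_erase.2 ⟨hne, hw'⟩))

end swap

section lemmas

variable {G : SimpleGraph V} {A : Finset V} {T : Finset (Finset V)} {M : Finset (V × V)}

/-- the sum form of the second inequality of `tCore` -/
lemma sumI (h : LexMax G A T M) : ∑ w ∈ II A T M, dg G A w ≤
    (II A T M).card * M.card + T.card * (2 * (II A T M).card + 1) := by
  have h1 : ∀ w ∈ II A T M, dg G A w = dg G (A \ vT T) w + dg G (vT T) w := fun w _ =>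
    (dg_sdiff G h.pm.tf.vT_sub w).symm
  rw [Finset.sum_congr rfl h1, Finset.sum_add_distrib, h.pm.tf.sum_dg]
  refine Nat.add_le_add ?_ ?_
  · calc ∑ w ∈ II A T M, dg G (A \ vT T) w ≤ ∑ _w ∈ II A T M, M.card :=
        Finset.sum_le_sum (J1.fact7 h)
      _ = (II A T M).card * M.card := by rw [Finset.sum_const, smul_eq_mul]
  · calc ∑ t ∈ T, ∑ x ∈ t, dg G (II A T M) x ≤ ∑ _t ∈ T, (2 * (II A T M).card + 1) :=
        Finset.sum_le_sum (J1.fact3 h)
      _ = T.card * (2 * (II A T M).card + 1) := by rw [Finset.sum_const, smul_eq_mul]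

lemma dg_le_vT (h : LexMax G A T M) {w : V} (hw : w ∈ II A T M) :
    dg G A w ≤ dg G (vT T) w + M.card := by
  have h1 := dg_sdiff G h.pm.tf.vT_sub w
  have h2 := J1.fact7 h w hw
  omega

/-- the hypotheses of J16 -/
structure Hyp (G : SimpleGraph V) (A : Finset V) (k : ℕ) (s : ℝ) : Prop where
  s0 : 0 < s
  s1 : s ≤ 1 / 400
  big : 1000 ≤ s ^ 2 * (A.card : ℝ)
  k1 : (1 / 4 - s ^ 2) * A.card ≤ k
  k2 : (k : ℝ) ≤ 0.3075 * A.card
  noT : ¬ HasT G A (k + 1)
  loc : Loc G A (2 * k - s ^ 2 * A.card) (2 * A.card + 2 * k - s ^ 2 * A.card)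
  seen : Seen G A

variable {k : ℕ} {s : ℝ}

lemma Hyp.ssq (H : Hyp G A k s) : s ^ 2 ≤ 1 / 160000 := by
  have h0 := H.s0
  have h1 := H.s1
  nlinarith

lemma Hyp.npos (H : Hyp G A k s) : (1000000 : ℝ) ≤ (A.card : ℝ) := by
  have h1 := H.ssq
  have h2 := H.big
  have h3 : (0 : ℝ) ≤ (A.card : ℝ) := Nat.cast_nonneg _
  nlinarith

lemma Hyp.sn (H : Hyp G A k s) : s ^ 2 * (A.card : ℝ) ≤ (A.card : ℝ) / 160000 := by
  have h1 := H.ssq
  have h3 : (0 : ℝ) ≤ (A.card : ℝ) := Nat.cast_nonneg _
  nlinarith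

lemma tau_le (H : Hyp G A k s) (h : LexMax G A T M) : T.card ≤ k := by
  by_contra hcon
  push Not at hcon
  exact H.noT (HasT.le ⟨T, h.pm.tf, rfl⟩ hcon)

lemma m_le [Fintype V] (h3 : tCore) (H : Hyp G A k s) (h : LexMax G A T M) : M.card ≤ 2 := by
  by_contra hcon
  push Not at hcon
  have hc := (h3 V G A T M h).1 hcon (A.card + k + 1) (by
    intro p hp
    obtain ⟨m1, m2, m3⟩ := h.pm.mf.mem p hp
    have a1 := (Finset.mem_sdiff.1 m1).1
    have a2 := (Finset.mem_sdiff.1 m2).1
    obtain ⟨z, hz, htri⟩ := H.seen p.1 a1 p.2 a2 m3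
    have h4 := H.loc.tri p.1 a1 p.2 a2 z hz htri
    have h5 : (dg G A z : ℝ) ≤ A.card := by exact_mod_cast dg_le_card G A z
    have h6 := H.k1
    have h7 := H.sn
    have h8 := H.npos
    have h9 : ((A.card + k + 1 : ℕ) : ℝ) ≤ ((dg G A p.1 + dg G A p.2 : ℕ) : ℝ) := by
      push_cast
      nlinarith
    exact_mod_cast h9)
  have := tau_le H h
  omega

lemma cards (h : LexMax G A T M) : (II A T M).card + 2 * M.card + 3 * T.card = A.card := by
  obtain ⟨h1, h2⟩ := h.pm.cards
  unfold II
  omega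

lemma i_low [Fintype V] (h3 : tCore) (H : Hyp G A k s) (h : LexMax G A T M) :
    0.07 * (A.card : ℝ) ≤ (II A T M).card := by
  have h1 := cards h
  have h2 := tau_le H h
  have h4 := m_le h3 H h
  have h5 : (A.card : ℝ) ≤ (II A T M).card + 4 + 3 * k := by
    have : A.card ≤ (II A T M).card + 4 + 3 * k := by omega
    exact_mod_cast this
  have h6 := H.k2
  have h7 := H.npos
  linarith

lemma sum_real [Fintype V] (h3 : tCore) (H : Hyp G A k s) (h : LexMax G A T M) :
    ∑ w ∈ II A T M, (dg G A w : ℝ) ≤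
      (II A T M).card * 2 + T.card * (2 * (II A T M).card + 1) := by
  have h1 := sumI h
  have h4 := m_le h3 H h
  have h5 : ∑ w ∈ II A T M, dg G A w ≤
      (II A T M).card * 2 + T.card * (2 * (II A T M).card + 1) := by
    have := Nat.mul_le_mul_left (II A T M).card h4
    omega
  exact_mod_cast h5

lemma II_sub : II A T M ⊆ A := (Finset.sdiff_subset).trans Finset.sdiff_subset

lemma tau_low [Fintype V] (h3 : tCore) (H : Hyp G A k s) (h : LexMax G A T M) :
    (k : ℝ) - s ^ 2 * A.card ≤ T.card := by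
  have h1 := sum_real h3 H h
  have h2 : (II A T M).card * (2 * (k : ℝ) - s ^ 2 * A.card) ≤ ∑ w ∈ II A T M, (dg G A w : ℝ) := by
    have := Finset.card_nsmul_le_sum (II A T M) (fun w => (dg G A w : ℝ))
      (2 * (k : ℝ) - s ^ 2 * A.card) (fun w hw => H.loc.deg w (II_sub hw))
    rwa [nsmul_eq_mul] at this
  have h4 := i_low h3 H h
  have h5 : (T.card : ℝ) ≤ k := by exact_mod_cast tau_le H h
  have h6 := H.k2
  have h7 := H.npos
  have h8 := H.big
  by_contra hcon
  push Not at hcon
  have hi : (0 : ℝ) < (II A T M).card := by linarith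
  have h9 : (II A T M).card * (2 * (k : ℝ) - s ^ 2 * A.card - 2 - 2 * T.card) ≤ T.card := by
    linarith
  have h10 : (II A T M).card * (900 : ℝ) ≤
      (II A T M).card * (2 * (k : ℝ) - s ^ 2 * A.card - 2 - 2 * T.card) := by
    apply mul_le_mul_of_nonneg_left _ hi.le
    linarith
  linarith

lemma i_up [Fintype V] (h3 : tCore) (H : Hyp G A k s) (h : LexMax G A T M) :
    ((II A T M).card : ℝ) ≤ 0.3 * A.card := by
  have h1 := cards h
  have h2 := tau_low h3 H h
  have h5 : ((II A T M).card : ℝ) + 2 * M.card + 3 * T.card = A.card := by exact_mod_cast h1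
  have h6 := H.k1
  have h7 := H.sn
  have h8 : (0 : ℝ) ≤ M.card := Nat.cast_nonneg _
  have h9 := H.npos
  nlinarith

/-- small degree -/
def Lp (G : SimpleGraph V) (A : Finset V) (k : ℕ) (s : ℝ) (v : V) : Prop :=
  (dg G A v : ℝ) < A.card / 2 + k - s ^ 2 * A.card / 2

open Classical in
lemma dHI [Fintype V] (h3 : tCore) (H : Hyp G A k s) (h : LexMax G A T M) :
    (((II A T M).filter (fun w => ¬ Lp G A k s w)).card : ℝ) ≤ 2 * (s ^ 2 * A.card) := by
  have h1 := sum_real h3 H h
  have h6 := H.k2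
  have h7 := H.npos
  have h8 := H.big
  have h2 : (II A T M).card * (2 * (k : ℝ) - s ^ 2 * A.card) +
      ((II A T M).filter (fun w => ¬ Lp G A k s w)).card * (0.19 * (A.card : ℝ)) ≤
      ∑ w ∈ II A T M, (dg G A w : ℝ) := by
    have e1 : (II A T M).card * (2 * (k : ℝ) - s ^ 2 * A.card) +
      ((II A T M).filter (fun w => ¬ Lp G A k s w)).card * (0.19 * (A.card : ℝ)) =
      ∑ w ∈ II A T M, ((2 * (k : ℝ) - s ^ 2 * A.card) +
        if ¬ Lp G A k s w then 0.19 * (A.card : ℝ) else 0) := by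
      rw [Finset.sum_add_distrib, Finset.sum_const, nsmul_eq_mul, ← Finset.sum_filter,
        Finset.sum_const, nsmul_eq_mul]
    rw [e1]
    refine Finset.sum_le_sum fun w hw => ?_
    have d1 := H.loc.deg w (II_sub hw)
    by_cases hL : Lp G A k s w
    · rw [if_neg (not_not.2 hL)]
      linarith
    · rw [if_pos hL]
      unfold Lp at hL
      push Not at hL
      linarith
  have h4 := i_up h3 H h
  have h5 : (T.card : ℝ) ≤ k := by exact_mod_cast tau_le H h
  have hi : (0 : ℝ) ≤ (II A T M).card := Nat.cast_nonneg _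
  have h9 : (T.card : ℝ) * (2 * (II A T M).card + 1) ≤ k * (2 * (II A T M).card + 1) :=
    mul_le_mul_of_nonneg_right h5 (by linarith)
  have h10 : ((II A T M).filter (fun w => ¬ Lp G A k s w)).card * (0.19 * (A.card : ℝ)) ≤
      (II A T M).card * 2 + k + (II A T M).card * (s ^ 2 * A.card) := by
    nlinarith
  have h11 : (II A T M).card * (s ^ 2 * (A.card : ℝ)) ≤ 0.3 * A.card * (s ^ 2 * A.card) :=
    mul_le_mul_of_nonneg_right h4 (by linarith)
  have h12 : ((II A T M).filter (fun w => ¬ Lp G A k s w)).card * (0.19 * (A.card : ℝ)) ≤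
      (1 + 0.3 * (s ^ 2 * A.card)) * A.card := by
    nlinarith
  have h13 : 0.19 * (((II A T M).filter (fun w => ¬ Lp G A k s w)).card : ℝ) ≤
      1 + 0.3 * (s ^ 2 * A.card) := by
    have hn : (0 : ℝ) < A.card := by linarith
    refine le_of_mul_le_mul_right ?_ hn
    calc 0.19 * (((II A T M).filter (fun w => ¬ Lp G A k s w)).card : ℝ) * (A.card : ℝ) =
        ((II A T M).filter (fun w => ¬ Lp G A k s w)).card * (0.19 * (A.card : ℝ)) := by ring
      _ ≤ _ := h12
  linarith

/-- good triangles -/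
def Good (G : SimpleGraph V) (I : Finset V) (s : ℝ) (t : Finset V) : Prop :=
  (2 - s) * I.card ≤ ∑ x ∈ t, (dg G I x : ℝ)

open Classical in
lemma bad_le [Fintype V] (h3 : tCore) (H : Hyp G A k s) (h : LexMax G A T M) :
    ((T.filter (fun t => ¬ Good G (II A T M) s t)).card : ℝ) ≤ 2 * (s * A.card) := by
  have s0 := H.s0
  have h6 := H.k2
  have h7 := H.npos
  have h8 := H.big
  have hil := i_low h3 H h
  have hiu := i_up h3 H h
  have h5 : (T.card : ℝ) ≤ k := by exact_mod_cast tau_le H h
  have hi : (0 : ℝ) < (II A T M).card := by linarith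
  -- lower bound for the sum over the triangles
  have e1 : ∑ t ∈ T, ∑ x ∈ t, (dg G (II A T M) x : ℝ) =
      ∑ w ∈ II A T M, (dg G (vT T) w : ℝ) := by
    have := h.pm.tf.sum_dg (G := G) (II A T M)
    exact_mod_cast this.symm
  have e2 : (II A T M).card * (2 * (k : ℝ) - s ^ 2 * A.card - 2) ≤
      ∑ w ∈ II A T M, (dg G (vT T) w : ℝ) := by
    have := Finset.card_nsmul_le_sum (II A T M) (fun w => (dg G (vT T) w : ℝ))
      (2 * (k : ℝ) - s ^ 2 * A.card - 2) (fun w hw => by
        have d1 := H.loc.deg w (II_sub hw)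
        have d2 : (dg G A w : ℝ) ≤ dg G (vT T) w + 2 := by
          have d3 := dg_le_vT h hw
          have d4 := m_le h3 H h
          have : dg G A w ≤ dg G (vT T) w + 2 := by omega
          exact_mod_cast this
        linarith)
    rwa [nsmul_eq_mul] at this
  have e3 : ((T.filter (fun t => ¬ Good G (II A T M) s t)).card : ℝ) * (s * (II A T M).card) +
      ∑ t ∈ T, ∑ x ∈ t, (dg G (II A T M) x : ℝ) ≤ T.card * (2 * (II A T M).card + 1) := by
    have e4 : (T.card : ℝ) * (2 * (II A T M).card + 1) =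
        ∑ _t ∈ T, (2 * ((II A T M).card : ℝ) + 1) := by
      rw [Finset.sum_const, nsmul_eq_mul]
    have e5 : ((T.filter (fun t => ¬ Good G (II A T M) s t)).card : ℝ) * (s * (II A T M).card) =
        ∑ t ∈ T, if ¬ Good G (II A T M) s t then s * ((II A T M).card : ℝ) else 0 := by
      rw [← Finset.sum_filter, Finset.sum_const, nsmul_eq_mul]
    rw [e4, e5, ← Finset.sum_add_distrib]
    refine Finset.sum_le_sum fun t ht => ?_
    have f3 : (∑ x ∈ t, (dg G (II A T M) x : ℝ)) ≤ 2 * (II A T M).card + 1 := by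
      exact_mod_cast J1.fact3 h t ht
    by_cases hg : Good G (II A T M) s t
    · rw [if_neg (not_not.2 hg)]
      linarith
    · rw [if_pos hg]
      unfold Good at hg
      push Not at hg
      linarith
  have h9 : (T.card : ℝ) * (2 * (II A T M).card + 1) ≤ k * (2 * (II A T M).card + 1) :=
    mul_le_mul_of_nonneg_right h5 (by linarith)
  have h10 : (II A T M).card * (1000 : ℝ) ≤ (II A T M).card * (s ^ 2 * A.card) :=
    mul_le_mul_of_nonneg_left h8 hi.le
  have h11 : ((T.filter (fun t => ¬ Good G (II A T M) s t)).card : ℝ) * (s * (II A T M).card) ≤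
      2 * (s * A.card) * (s * (II A T M).card) := by
    have e6 : 2 * (s * A.card) * (s * (II A T M).card) =
        2 * ((II A T M).card * (s ^ 2 * (A.card : ℝ))) := by ring
    rw [e6]
    nlinarith
  exact le_of_mul_le_mul_right h11 (mul_pos s0 hi)

open Classical in
lemma good_data [Fintype V] (h3 : tCore) (H : Hyp G A k s) (h : LexMax G A T M) {t : Finset V}
    (ht : t ∈ T) (hg : Good G (II A T M) s t) : ∃ x y z, Tri G x y z ∧ t = {x, y, z} ∧
      (1 - s) * (II A T M).card - 1 ≤
        (((II A T M).filter (fun w => G.Adj x w ∧ G.Adj y w)).card : ℝ) := by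
  have s0 := H.s0
  have s1 := H.s1
  have h7 := H.npos
  have hil := i_low h3 H h
  have hi : (0 : ℝ) < (II A T M).card := by linarith
  have ht3 := (h.pm.tf.clq t ht).card_eq
  unfold Good at hg
  have e1 : ∑ x ∈ t, dg G (II A T M) x = ∑ w ∈ II A T M, dg G t w := eb_comm G t _
  have e2 : ∃ w ∈ II A T M, 1 < dg G t w := by
    by_contra hcon
    push Not at hcon
    have e3 : ∑ w ∈ II A T M, dg G t w ≤ (II A T M).card := by
      calc ∑ w ∈ II A T M, dg G t w ≤ ∑ _w ∈ II A T M, 1 := Finset.sum_le_sum hcon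
        _ = (II A T M).card := by rw [Finset.sum_const, smul_eq_mul, mul_one]
    rw [← e1] at e3
    have e4 : ∑ x ∈ t, (dg G (II A T M) x : ℝ) ≤ (II A T M).card := by exact_mod_cast e3
    nlinarith
  obtain ⟨w, hw, hw2⟩ := e2
  rw [dg_def] at hw2
  obtain ⟨x, hx, y, hy, hxy⟩ := Finset.one_lt_card.1 hw2
  rw [Finset.mem_filter] at hx hy
  have c1 := Finset.card_erase_add_one hx.1
  have hy' : y ∈ t.erase x := Finset.mem_erase.2 ⟨hxy.symm, hy.1⟩
  have c2 := Finset.card_erase_add_one hy'
  obtain ⟨z, hz⟩ := Finset.card_eq_one.1 (by omega : ((t.erase x).erase y).card = 1)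
  have hzmem : z ∈ (t.erase x).erase y := by rw [hz]; simp
  rw [Finset.mem_erase, Finset.mem_erase] at hzmem
  have heq : t = {x, y, z} := by
    rw [← Finset.insert_erase hx.1, ← Finset.insert_erase hy', hz]
  have htri : Tri G x y z := ⟨J1.adj_of_clique h ht hx.1 hy.1 hxy,
    J1.adj_of_clique h ht hy.1 hzmem.2.2 hzmem.1.symm,
    J1.adj_of_clique h ht hx.1 hzmem.2.2 hzmem.2.1.symm⟩
  refine ⟨x, y, z, htri, heq, ?_⟩
  subst heq
  have dz : dg G (II A T M) z ≤ 1 := by
    rw [dg_def]
    have : (II A T M).filter (fun u => G.Adj z u) ⊆ {w} := by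
      intro u hu
      rw [Finset.mem_filter] at hu
      rw [Finset.mem_singleton]
      by_contra hne
      exact no_other h ht htri hw hx.2 hy.2 hu.1 hne hu.2
    calc _ ≤ ({w} : Finset V).card := Finset.card_le_card this
      _ = 1 := Finset.card_singleton _
  have hs := htri.sum (fun v => dg G (II A T M) v)
  have e5 : dg G (II A T M) x + dg G (II A T M) y ≤ (II A T M).card +
      ((II A T M).filter (fun w => G.Adj x w ∧ G.Adj y w)).card := by
    rw [dg_def, dg_def, ← Finset.card_union_add_card_inter, ← Finset.filter_and]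
    refine Nat.add_le_add_right (Finset.card_le_card ?_) _
    exact Finset.union_subset (Finset.filter_subset _ _) (Finset.filter_subset _ _)
  have e6 : (∑ v ∈ ({x, y, z} : Finset V), (dg G (II A T M) v : ℝ)) ≤ (II A T M).card +
      ((II A T M).filter (fun w => G.Adj x w ∧ G.Adj y w)).card + 1 := by
    have : ∑ v ∈ ({x, y, z} : Finset V), dg G (II A T M) v ≤ (II A T M).card +
      ((II A T M).filter (fun w => G.Adj x w ∧ G.Adj y w)).card + 1 := by
      omega
    exact_mod_cast this
  nlinarith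

open Classical in
lemma iterate (h : LexMax G A T M) (P : V → Prop) {F : Finset (Finset V)}
    {g : ℕ} (hF : F ⊆ T) (hG : ∀ t ∈ F, ∃ x y z, Tri G x y z ∧ t = {x, y, z} ∧ ¬ P z ∧
      g ≤ ((II A T M).filter (fun w => P w ∧ G.Adj x w ∧ G.Adj y w)).card) :
    ∀ j, j ≤ F.card → j ≤ g → ∃ T', LexMax G A T' M ∧
      (∃ U ⊆ F, U.card = j ∧ F \ U ⊆ T') ∧
      j ≤ ((II A T' M).filter (fun w => ¬ P w)).card ∧
      (((II A T M).filter P) \ II A T' M).card ≤ j := by
  intro j
  induction j with
  | zero =>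
    intro _ _
    refine ⟨T, h, ⟨∅, by simp, by simp, by simpa using hF⟩, Nat.zero_le _, ?_⟩
    rw [Nat.le_zero, Finset.card_eq_zero, Finset.sdiff_eq_empty_iff_subset]
    exact Finset.filter_subset _ _
  | succ j ih =>
    intro hj hjg
    obtain ⟨T', h', ⟨U, hUF, hUc, hUT⟩, hc1, hc2⟩ := ih (by omega) (by omega)
    obtain ⟨t, htF, htU⟩ := Finset.exists_mem_notMem_of_card_lt_card (s := U) (t := F) (by omega)
    have htT' : t ∈ T' := hUT (Finset.mem_sdiff.2 ⟨htF, htU⟩)
    obtain ⟨x, y, z, htri, heq, hPz, hgc⟩ := hG t htF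
    obtain ⟨w, hw1, hw2⟩ := Finset.exists_mem_notMem_of_card_lt_card
      (s := ((II A T M).filter P) \ II A T' M)
      (t := (II A T M).filter (fun w => P w ∧ G.Adj x w ∧ G.Adj y w)) (by omega)
    rw [Finset.mem_filter] at hw1
    have hwI' : w ∈ II A T' M := by
      by_contra hcon
      exact hw2 (Finset.mem_sdiff.2 ⟨Finset.mem_filter.2 ⟨hw1.1, hw1.2.1⟩, hcon⟩)
    subst heq
    obtain ⟨h1, h2⟩ := swap h' htT' htri hwI' hw1.2.2.1.symm hw1.2.2.2.symm
    have hzI : z ∉ II A T' M := notMem_II htT' (by simp)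
    refine ⟨_, h1, ⟨insert {x, y, z} U, ?_, ?_, ?_⟩, ?_, ?_⟩
    · intro u hu
      rw [Finset.mem_insert] at hu
      rcases hu with rfl | hu
      · exact htF
      · exact hUF hu
    · rw [Finset.card_insert_of_notMem htU, hUc]
    · intro u hu
      rw [Finset.mem_sdiff, Finset.mem_insert] at hu
      push Not at hu
      exact Finset.mem_insert_of_mem (Finset.mem_erase.2
        ⟨hu.2.1, hUT (Finset.mem_sdiff.2 ⟨hu.1, hu.2.2⟩)⟩)
    · rw [h2]
      have h4 : insert z ((II A T' M).filter (fun w => ¬ P w)) ⊆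
          (insert z ((II A T' M).erase w)).filter (fun w => ¬ P w) := by
        intro u hu
        rw [Finset.mem_insert, Finset.mem_filter] at hu
        rw [Finset.mem_filter, Finset.mem_insert, Finset.mem_erase]
        rcases hu with rfl | ⟨hu1, hu2⟩
        · exact ⟨Or.inl rfl, hPz⟩
        · refine ⟨Or.inr ⟨?_, hu1⟩, hu2⟩
          rintro rfl
          exact hu2 hw1.2.1
      have h5 := Finset.card_le_card h4
      rw [Finset.card_insert_of_notMem (fun hh => hzI (Finset.mem_filter.1 hh).1)] at h5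
      omega
    · rw [h2]
      have h4 : ((II A T M).filter P) \ insert z ((II A T' M).erase w) ⊆
          insert w (((II A T M).filter P) \ II A T' M) := by
        intro u hu
        rw [Finset.mem_sdiff, Finset.mem_insert, Finset.mem_erase] at hu
        rw [Finset.mem_insert, Finset.mem_sdiff]
        push Not at hu
        by_cases huw : u = w
        · exact Or.inl huw
        · exact Or.inr ⟨hu.1, hu.2.2 huw⟩
      exact (Finset.card_le_card h4).trans ((Finset.card_insert_le _ _).trans (by omega))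

open Classical in
lemma goodH_le [Fintype V] (h3 : tCore) (H : Hyp G A k s) (h : LexMax G A T M) :
    ((T.filter (fun t => Good G (II A T M) s t ∧ ∀ v ∈ t, ¬ Lp G A k s v)).card : ℝ) ≤
      2 * (s ^ 2 * A.card) := by
  by_contra hcon
  push Not at hcon
  set F := T.filter (fun t => Good G (II A T M) s t ∧ ∀ v ∈ t, ¬ Lp G A k s v) with hF
  have s0 := H.s0
  have s1 := H.s1
  have h7 := H.npos
  have h8 := H.big
  have h10 := H.sn
  have hil := i_low h3 H h
  have h0 : (0 : ℝ) ≤ 2 * (s ^ 2 * A.card) := by linarith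
  set g := ⌊2 * (s ^ 2 * (A.card : ℝ))⌋₊ + 1 with hg
  have hg1 : g ≤ F.card := by
    have : ⌊2 * (s ^ 2 * (A.card : ℝ))⌋₊ < F.card := (Nat.floor_lt h0).2 hcon
    omega
  have hg2 : (g : ℝ) ≤ 2 * (s ^ 2 * A.card) + 1 := by
    rw [hg]
    push_cast
    linarith [Nat.floor_le h0]
  have hg3 : 2 * (s ^ 2 * A.card) < (g : ℝ) := by
    rw [hg]
    push_cast
    exact Nat.lt_floor_add_one _
  obtain ⟨T', h', -, hc, -⟩ := iterate h (fun v => Lp G A k s v) (F := F) (g := g)
    (Finset.filter_subset _ _) (by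
      intro t ht
      rw [hF, Finset.mem_filter] at ht
      obtain ⟨x, y, z, htri, heq, hcc⟩ := good_data h3 H h ht.1 ht.2.1
      refine ⟨x, y, z, htri, heq, ht.2.2 z (by rw [heq]; simp), ?_⟩
      have e1 : ((II A T M).filter (fun w => G.Adj x w ∧ G.Adj y w)).card ≤
          ((II A T M).filter (fun w => Lp G A k s w ∧ G.Adj x w ∧ G.Adj y w)).card +
          ((II A T M).filter (fun w => ¬ Lp G A k s w)).card := by
        rw [← Finset.card_union_of_disjoint]
        · apply Finset.card_le_card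
          intro u hu
          rw [Finset.mem_filter] at hu
          rw [Finset.mem_union, Finset.mem_filter, Finset.mem_filter]
          by_cases hL : Lp G A k s u
          · exact Or.inl ⟨hu.1, hL, hu.2⟩
          · exact Or.inr ⟨hu.1, hL⟩
        · rw [Finset.disjoint_left]
          intro u hu hu'
          rw [Finset.mem_filter] at hu hu'
          exact hu'.2 hu.2.1
      have e2 : (((II A T M).filter (fun w => G.Adj x w ∧ G.Adj y w)).card : ℝ) ≤
          ((II A T M).filter (fun w => Lp G A k s w ∧ G.Adj x w ∧ G.Adj y w)).card +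
          ((II A T M).filter (fun w => ¬ Lp G A k s w)).card := by exact_mod_cast e1
      have e3 := dHI h3 H h
      have e4 : (g : ℝ) ≤
          ((II A T M).filter (fun w => Lp G A k s w ∧ G.Adj x w ∧ G.Adj y w)).card := by
        nlinarith
      exact_mod_cast e4) g hg1 le_rfl
  have h5 := dHI h3 H h'
  have h6 : (g : ℝ) ≤ (((II A T' M).filter (fun w => ¬ Lp G A k s w)).card : ℝ) := by
    exact_mod_cast hc
  linarith

end lemmas

section final

variable {G : SimpleGraph V} {A : Finset V} {T : Finset (Finset V)} {M : Finset (V × V)}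
  {k : ℕ} {s : ℝ}

lemma indep [Fintype V] (H : Hyp G A k s) {x y : V} (hx : x ∈ A) (hy : y ∈ A)
    (hLx : Lp G A k s x) (hLy : Lp G A k s y) : ¬ G.Adj x y := by
  intro hxy
  obtain ⟨z, hz, htri⟩ := H.seen x hx y hy hxy
  have h4 := H.loc.tri x hx y hy z hz htri
  have h5 : (dg G A z : ℝ) ≤ A.card := by exact_mod_cast dg_le_card G A z
  unfold Lp at hLx hLy
  linarith

open Classical in
lemma card_H [Fintype V] (h3 : tCore) (H : Hyp G A k s) (h : LexMax G A T M) :
    ((A.filter (fun v => ¬ Lp G A k s v)).card : ℝ) ≤ 2 * k + 3 * (s * A.card) := by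
  have hsub : A.filter (fun v => ¬ Lp G A k s v) ⊆
      (T.biUnion (fun t => t.filter (fun v => ¬ Lp G A k s v))) ∪
      ((II A T M).filter (fun v => ¬ Lp G A k s v) ∪ vM M) := by
    intro v hv
    rw [Finset.mem_filter] at hv
    rw [Finset.mem_union, Finset.mem_union, Finset.mem_biUnion, Finset.mem_filter]
    by_cases hvT : v ∈ vT T
    · obtain ⟨t, ht, hvt⟩ := mem_vT.1 hvT
      exact Or.inl ⟨t, ht, Finset.mem_filter.2 ⟨hvt, hv.2⟩⟩
    · right
      by_cases hvM : v ∈ vM M
      · exact Or.inr hvM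
      · exact Or.inl ⟨Finset.mem_sdiff.2 ⟨Finset.mem_sdiff.2 ⟨hv.1, hvT⟩, hvM⟩, hv.2⟩
  have h1 := (Finset.card_le_card hsub).trans ((Finset.card_union_le _ _).trans
    (Nat.add_le_add_left (Finset.card_union_le _ _) _))
  have h2 : (T.biUnion (fun t => t.filter (fun v => ¬ Lp G A k s v))).card ≤
      2 * T.card + (T.filter (fun t => ¬ Good G (II A T M) s t)).card +
      (T.filter (fun t => Good G (II A T M) s t ∧ ∀ v ∈ t, ¬ Lp G A k s v)).card := by
    refine Finset.card_biUnion_le.trans ?_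
    have e1 : 2 * T.card + (T.filter (fun t => ¬ Good G (II A T M) s t)).card +
      (T.filter (fun t => Good G (II A T M) s t ∧ ∀ v ∈ t, ¬ Lp G A k s v)).card =
      ∑ t ∈ T, (2 + (if ¬ Good G (II A T M) s t then 1 else 0) +
        (if Good G (II A T M) s t ∧ ∀ v ∈ t, ¬ Lp G A k s v then 1 else 0)) := by
      rw [Finset.sum_add_distrib, Finset.sum_add_distrib, Finset.sum_const, smul_eq_mul,
        ← Finset.card_filter, ← Finset.card_filter, mul_comm]
    rw [e1]
    refine Finset.sum_le_sum fun t ht => ?_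
    have ht3 := (h.pm.tf.clq t ht).card_eq
    have e2 := Finset.card_filter_le t (fun v => ¬ Lp G A k s v)
    by_cases hall : ∀ v ∈ t, ¬ Lp G A k s v
    · by_cases hg : Good G (II A T M) s t
      · rw [if_neg (not_not.2 hg), if_pos ⟨hg, hall⟩]
        omega
      · rw [if_pos hg]
        omega
    · push Not at hall
      obtain ⟨v, hv, hLv⟩ := hall
      have e3 : (t.filter (fun v => ¬ Lp G A k s v)).card < t.card := by
        apply Finset.card_lt_card
        rw [Finset.ssubset_iff_of_subset (Finset.filter_subset _ _)]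
        exact ⟨v, hv, fun hh => (Finset.mem_filter.1 hh).2 hLv⟩
      omega
  rw [h.pm.mf.card_vM] at h1
  have h4 := bad_le h3 H h
  have h5 := goodH_le h3 H h
  have h6 := dHI h3 H h
  have h7 := tau_le H h
  have h8 := m_le h3 H h
  have h9 : ((A.filter (fun v => ¬ Lp G A k s v)).card : ℝ) ≤
      2 * k + (T.filter (fun t => ¬ Good G (II A T M) s t)).card +
      (T.filter (fun t => Good G (II A T M) s t ∧ ∀ v ∈ t, ¬ Lp G A k s v)).card +
      ((II A T M).filter (fun v => ¬ Lp G A k s v)).card + 4 := by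
    have : (A.filter (fun v => ¬ Lp G A k s v)).card ≤
      2 * k + (T.filter (fun t => ¬ Good G (II A T M) s t)).card +
      (T.filter (fun t => Good G (II A T M) s t ∧ ∀ v ∈ t, ¬ Lp G A k s v)).card +
      ((II A T M).filter (fun v => ¬ Lp G A k s v)).card + 4 := by omega
    exact_mod_cast this
  have s0 := H.s0
  have s1 := H.s1
  have hb := H.big
  have hn := H.npos
  have h10 : s ^ 2 * (A.card : ℝ) ≤ (s * A.card) / 400 := by
    have : 0 ≤ s * (A.card : ℝ) := by positivity
    nlinarith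
  linarith

end final

end J16

theorem pL3 (h1 : tLexEx) (_h2 : tLexFacts) (h3 : tCore) : tL3 := by
  classical
  intro η hη
  set s : ℝ := min (η / 9) (1 / 400) with hs
  have s0 : 0 < s := lt_min (by positivity) (by norm_num)
  have s1 : s ≤ 1 / 400 := min_le_right _ _
  have s2 : 9 * s ≤ η := by
    have : s ≤ η / 9 := min_le_left _ _
    linarith
  refine ⟨s ^ 2, by positivity, ⌈1000 / s ^ 2⌉₊, ?_⟩
  intro V _ _ G A k hN hk1 hk2 hno hloc hseen
  have hbig : 1000 ≤ s ^ 2 * (A.card : ℝ) := by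
    have e1 : 1000 / s ^ 2 ≤ (A.card : ℝ) := (Nat.le_ceil _).trans (by exact_mod_cast hN)
    rw [div_le_iff₀ (by positivity)] at e1
    linarith
  have H : J16.Hyp G A k s := ⟨s0, s1, hbig, hk1, hk2, hno, hloc, hseen⟩
  obtain ⟨T, M, h⟩ := h1 V G A
  have hn := H.npos
  have hH := J16.card_H h3 H h
  set Y := A.filter (fun v => J16.Lp G A k s v) with hY
  have hYA : Y ⊆ A := Finset.filter_subset _ _
  have hAY : A \ Y = A.filter (fun v => ¬ J16.Lp G A k s v) := by
    rw [hY, Finset.filter_not]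
  have hcard := Finset.card_sdiff_add_card_eq_card hYA
  have hcardR : ((A \ Y).card : ℝ) + Y.card = A.card := by exact_mod_cast hcard
  rw [← hAY] at hH
  have hYdeg : ∀ v ∈ Y, dg G Y v = 0 := by
    intro v hv
    rw [dg_eq_zero_iff]
    intro u hu
    rw [hY, Finset.mem_filter] at hv hu
    exact J16.indep H hv.1 hu.1 hv.2 hu.2
  have h10 : s ^ 2 * (A.card : ℝ) ≤ (s * A.card) / 400 := by
    have : 0 ≤ s * (A.card : ℝ) := by positivity
    nlinarith
  have h11 : s * (A.card : ℝ) ≤ A.card / 400 := by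
    have : (0 : ℝ) ≤ A.card := Nat.cast_nonneg _
    nlinarith
  refine ⟨Y, hYA, ?_, ?_, ?_⟩
  · linarith
  · have e1 : eb G (A \ Y) Y = ∑ v ∈ Y, dg G A v := by
      rw [eb_comm]
      unfold eb
      refine Finset.sum_congr rfl fun v hv => ?_
      have := dg_sdiff G hYA v
      rw [hYdeg v hv] at this
      omega
    have e2 : (Y.card : ℝ) * (2 * k - s ^ 2 * A.card) ≤ eb G (A \ Y) Y := by
      rw [e1]
      push_cast
      have := Finset.card_nsmul_le_sum Y (fun w => (dg G A w : ℝ))
        (2 * (k : ℝ) - s ^ 2 * A.card) (fun w hw => H.loc.deg w (hYA hw))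
      rwa [nsmul_eq_mul] at this
    unfold miss
    rw [Nat.cast_sub (eb_le G _ _)]
    push_cast
    have hY0 : (0 : ℝ) ≤ Y.card := Nat.cast_nonneg _
    have hA0 : (0 : ℝ) ≤ (A \ Y).card := Nat.cast_nonneg _
    have e3 : ((A \ Y).card : ℝ) * Y.card ≤ (2 * k + 3 * (s * A.card)) * Y.card :=
      mul_le_mul_of_nonneg_right hH hY0
    have e4 : ((A \ Y).card : ℝ) * Y.card - eb G (A \ Y) Y ≤ (4 * (s * A.card)) * Y.card := by
      nlinarith
    refine e4.trans ?_
    have e5 : (Y.card : ℝ) ≤ A.card := by linarith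
    calc (4 * (s * (A.card : ℝ))) * Y.card ≤ (4 * (s * A.card)) * A.card :=
          mul_le_mul_of_nonneg_left e5 (by positivity)
      _ = (4 * s) * (A.card : ℝ) ^ 2 := by ring
      _ ≤ η * (A.card : ℝ) ^ 2 := mul_le_mul_of_nonneg_right (by linarith) (by positivity)
  · have e1 : e2 G Y = 0 := Finset.sum_eq_zero hYdeg
    rw [e1]
    push_cast
    positivity


end Pool.Agent.ART
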