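import Pool.Agent.ART.Basic
import Pool.Agent.ART.Targets

set_option autoImplicit false
set_option linter.unusedSectionVars false

/-! Anti-Ramsey numbers of vertex-disjoint triangles: the ridge lemmas (J17). -/

namespace Pool.Agent.ART

open Finset

namespace J17

variable {V : Type} [DecidableEq V]

open Classical in
/-- vertices in no triangle -/
noncomputable def L0 (G : SimpleGraph V) (A : Finset V) : Finset V :=
  A.filter (fun v => NoTri G A v)

lemma L0_sub (G : SimpleGraph V) (A : Finset V) : L0 G A ⊆ A := by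
  classical
  exact Finset.filter_subset _ _

lemma mem_L0 {G : SimpleGraph V} {A : Finset V} {v : V} :
    v ∈ L0 G A ↔ v ∈ A ∧ NoTri G A v := by
  classical
  unfold L0
  rw [Finset.mem_filter]

lemma mem_sd {G : SimpleGraph V} {A : Finset V} {v : V} :
    v ∈ A \ L0 G A ↔ v ∈ A ∧ ∃ x ∈ A, ∃ y ∈ A, Tri G v x y := by
  rw [Finset.mem_sdiff, mem_L0]
  unfold NoTri
  constructor
  · rintro ⟨h1, h2⟩
    refine ⟨h1, ?_⟩
    by_contra h3
    push Not at h3
    exact h2 ⟨h1, fun x hx y hy => h3 x hx y hy⟩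
  · rintro ⟨h1, x, hx, y, hy, h2⟩
    exact ⟨h1, fun h3 => h3.2 x hx y hy h2⟩

lemma tri_in {G : SimpleGraph V} {A : Finset V} {v : V} (hv : v ∈ A \ L0 G A) :
    ∃ x ∈ A \ L0 G A, ∃ y ∈ A \ L0 G A, Tri G v x y := by
  obtain ⟨h1, x, hx, y, hy, h2⟩ := mem_sd.1 hv
  exact ⟨x, mem_sd.2 ⟨hx, y, hy, v, h1, h2.rot⟩, y, mem_sd.2 ⟨hy, v, h1, x, hx, h2.rot.rot⟩, h2⟩

lemma sum_L0 {G : SimpleGraph V} {A : Finset V} {x y z : V} (hx : x ∈ A) (hy : y ∈ A)
    (hz : z ∈ A) (h : Tri G x y z) :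
    dg G (L0 G A) x + dg G (L0 G A) y + dg G (L0 G A) z ≤ (L0 G A).card := by
  classical
  rw [dg_eq_sum, dg_eq_sum, dg_eq_sum, ← Finset.sum_add_distrib, ← Finset.sum_add_distrib,
    Finset.card_eq_sum_ones]
  refine Finset.sum_le_sum fun u hu => ?_
  have hu' := (mem_L0.1 hu).2
  have h1 : ¬ (G.Adj x u ∧ G.Adj y u) := fun h' =>
    hu' x hx y hy ⟨h'.1.symm, h.1, h'.2.symm⟩
  have h2 : ¬ (G.Adj x u ∧ G.Adj z u) := fun h' =>
    hu' x hx z hz ⟨h'.1.symm, h.2.2, h'.2.symm⟩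
  have h3 : ¬ (G.Adj y u ∧ G.Adj z u) := fun h' =>
    hu' y hy z hz ⟨h'.1.symm, h.2.1, h'.2.symm⟩
  by_cases a : G.Adj x u <;> by_cases b : G.Adj y u <;> by_cases c : G.Adj z u <;>
    simp_all

/-- the degree conditions inside `A \ L0` -/
lemma base {G : SimpleGraph V} {A : Finset V} {S : ℝ} (h : Loc G A 0 S) :
    (∀ x ∈ A \ L0 G A, ∀ y ∈ A \ L0 G A, ∀ z ∈ A \ L0 G A, Tri G x y z →
      S - (L0 G A).card ≤ dg G (A \ L0 G A) x + dg G (A \ L0 G A) y + dg G (A \ L0 G A) z) ∧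
    (∀ v ∈ A \ L0 G A, S - (L0 G A).card - 2 * (A \ L0 G A).card ≤ dg G (A \ L0 G A) v) ∧
    (∀ v ∈ A \ L0 G A, S - 2 * A.card ≤ dg G A v) ∧
    ((A \ L0 G A).card + (L0 G A).card = A.card) := by
  have hsub := L0_sub G A
  have h1 : ∀ x ∈ A \ L0 G A, ∀ y ∈ A \ L0 G A, ∀ z ∈ A \ L0 G A, Tri G x y z →
      S - (L0 G A).card ≤ dg G (A \ L0 G A) x + dg G (A \ L0 G A) y +
        dg G (A \ L0 G A) z := by
    intro x hx y hy z hz ht
    have hx' := (Finset.mem_sdiff.1 hx).1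
    have hy' := (Finset.mem_sdiff.1 hy).1
    have hz' := (Finset.mem_sdiff.1 hz).1
    have e1 := h.tri x hx' y hy' z hz' ht
    have e2 := sum_L0 hx' hy' hz' ht
    have e3 := dg_sdiff G hsub x
    have e4 := dg_sdiff G hsub y
    have e5 := dg_sdiff G hsub z
    have e6 : dg G A x + dg G A y + dg G A z ≤ dg G (A \ L0 G A) x + dg G (A \ L0 G A) y +
        dg G (A \ L0 G A) z + (L0 G A).card := by omega
    have e7 : ((dg G A x + dg G A y + dg G A z : ℕ) : ℝ) ≤ ((dg G (A \ L0 G A) x +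
      dg G (A \ L0 G A) y + dg G (A \ L0 G A) z + (L0 G A).card : ℕ) : ℝ) := by exact_mod_cast e6
    push_cast at e7
    linarith
  refine ⟨h1, ?_, ?_, Finset.card_sdiff_add_card_eq_card hsub⟩
  · intro v hv
    obtain ⟨x, hx, y, hy, ht⟩ := tri_in hv
    have e1 := h1 v hv x hx y hy ht
    have e2 : (dg G (A \ L0 G A) x : ℝ) ≤ (A \ L0 G A).card := by
      exact_mod_cast dg_le_card G _ _
    have e3 : (dg G (A \ L0 G A) y : ℝ) ≤ (A \ L0 G A).card := by
      exact_mod_cast dg_le_card G _ _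
    linarith
  · intro v hv
    obtain ⟨hv', x, hx, y, hy, ht⟩ := mem_sd.1 hv
    have e1 := h.tri v hv' x hx y hy ht
    have e2 : (dg G A x : ℝ) ≤ A.card := by exact_mod_cast dg_le_card G _ _
    have e3 : (dg G A y : ℝ) ≤ A.card := by exact_mod_cast dg_le_card G _ _
    linarith

/-- two neighbourhoods which are too large meet -/
lemma common {G : SimpleGraph V} {A : Finset V} {x y : V}
    (h : A.card < dg G A x + dg G A y) : ∃ z ∈ A, G.Adj x z ∧ G.Adj y z := by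
  classical
  by_contra hc
  push Not at hc
  have h1 : Disjoint (A.filter (fun u => G.Adj x u)) (A.filter (fun u => G.Adj y u)) := by
    rw [Finset.disjoint_left]
    intro u hu hu'
    rw [Finset.mem_filter] at hu hu'
    exact hc u hu.1 hu.2 hu'.2
  have h2 : (A.filter (fun u => G.Adj x u) ∪ A.filter (fun u => G.Adj y u)).card ≤ A.card :=
    Finset.card_le_card (Finset.union_subset (Finset.filter_subset _ _)
      (Finset.filter_subset _ _))
  rw [Finset.card_union_of_disjoint h1, ← dg_def, ← dg_def] at h2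
  omega

lemma seen_of {G : SimpleGraph V} {A : Finset V}
    (h : ∀ v ∈ A, (A.card : ℝ) / 2 < dg G A v) : Seen G A := by
  intro x hx y hy hxy
  have h1 := h x hx
  have h2 := h y hy
  have h3 : (A.card : ℝ) < ((dg G A x + dg G A y : ℕ) : ℝ) := by push_cast; linarith
  obtain ⟨z, hz, hz1, hz2⟩ := common (by exact_mod_cast h3)
  exact ⟨z, hz, hxy, hz2, hz1⟩

/-- consequences for a lexicographically maximal pair -/
lemma lex [Fintype V] (h3 : tCore) {G : SimpleGraph V} {B : Finset V} {k : ℕ} {S δ : ℝ}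
    {T : Finset (Finset V)} {M : Finset (V × V)} (hL : LexMax G B T M)
    (hT : ¬ HasT G B (k + 1)) (hSeen : Seen G B)
    (htri : ∀ x ∈ B, ∀ y ∈ B, ∀ z ∈ B, Tri G x y z →
      S ≤ dg G B x + dg G B y + dg G B z)
    (hS : (2 * B.card + k + 1 : ℝ) ≤ S) (hd : ∀ v ∈ B, δ ≤ dg G B v) :
    T.card ≤ k ∧ M.card ≤ 2 ∧
      (((B \ vT T) \ vM M).card : ℝ) * δ ≤
        T.card * (2 * ((B \ vT T) \ vM M).card + 1) + 2 * ((B \ vT T) \ vM M).card ∧
      B.card = ((B \ vT T) \ vM M).card + 2 * M.card + 3 * T.card := by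
  have hTk : T.card ≤ k := by
    by_contra hc
    exact hT (HasT.le ⟨T, hL.pm.tf, rfl⟩ (by omega))
  have hM : M.card ≤ 2 := by
    by_contra hc
    have h4 := (h3 V G B T M hL).1 (by omega) (B.card + k + 1) (fun p hp => by
      have hp' := hL.pm.mf.mem p hp
      have hp1 : p.1 ∈ B := (Finset.mem_sdiff.1 hp'.1).1
      have hp2 : p.2 ∈ B := (Finset.mem_sdiff.1 hp'.2.1).1
      obtain ⟨z, hz, ht⟩ := hSeen p.1 hp1 p.2 hp2 hp'.2.2
      have e1 := htri p.1 hp1 p.2 hp2 z hz ht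
      have e2 : (dg G B z : ℝ) ≤ B.card := by exact_mod_cast dg_le_card G _ _
      have e3 : ((B.card + k + 1 : ℕ) : ℝ) ≤ ((dg G B p.1 + dg G B p.2 : ℕ) : ℝ) := by
        push_cast; linarith
      exact_mod_cast e3)
    omega
  obtain ⟨c1, c2⟩ := hL.pm.cards
  refine ⟨hTk, hM, ?_, by omega⟩
  have h4 := (h3 V G B T M hL).2 ⌈δ⌉₊ (fun w hw => by
    have hw' : w ∈ B := (Finset.mem_sdiff.1 (Finset.mem_sdiff.1 hw).1).1
    exact Nat.ceil_le.2 (hd w hw'))
  have h5 : ((((B \ vT T) \ vM M).card * ⌈δ⌉₊ : ℕ) : ℝ) ≤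
      ((T.card * (2 * ((B \ vT T) \ vM M).card + 1) + ((B \ vT T) \ vM M).card * M.card : ℕ) : ℝ)
      := by exact_mod_cast h4
  push_cast at h5
  have h6 : δ ≤ (⌈δ⌉₊ : ℝ) := Nat.le_ceil δ
  have h7 : (((B \ vT T) \ vM M).card : ℝ) * δ ≤ (((B \ vT T) \ vM M).card : ℝ) * ⌈δ⌉₊ :=
    mul_le_mul_of_nonneg_left h6 (Nat.cast_nonneg _)
  have h8 : (M.card : ℝ) ≤ 2 := by exact_mod_cast hM
  have h9 : (((B \ vT T) \ vM M).card : ℝ) * M.card ≤ (((B \ vT T) \ vM M).card : ℝ) * 2 :=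
    mul_le_mul_of_nonneg_left h8 (Nat.cast_nonneg _)
  linarith

end J17

open J17 in
theorem pRidge2 (h1 : tLexEx) (_h2 : tLexFacts) (h3 : tCore) : tRidge2 := by
  refine ⟨1 / 1000, by norm_num, 8, 1000, ?_⟩
  intro V _ _ G A k hN hk hT hLoc
  refine ⟨L0 G A, ?_⟩
  obtain ⟨b1, b2, b3, b4⟩ := base hLoc
  have hNr : (1000 : ℝ) ≤ A.card := by exact_mod_cast hN
  have b4r : ((A \ L0 G A).card : ℝ) + (L0 G A).card = A.card := by exact_mod_cast b4
  have hl0 : (0 : ℝ) ≤ (L0 G A).card := Nat.cast_nonneg _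
  have hn0 : (0 : ℝ) ≤ (A \ L0 G A).card := Nat.cast_nonneg _
  have hT' : ¬ HasT G (A \ L0 G A) (k + 1) := fun h => hT (h.mono Finset.sdiff_subset)
  have hdeg : ∀ v ∈ A \ L0 G A, (2 * k + 0.14 * A.card : ℝ) ≤ dg G (A \ L0 G A) v := by
    intro v hv
    have := b2 v hv
    linarith
  have hSeen : Seen G (A \ L0 G A) := seen_of fun v hv => by
    have := hdeg v hv
    linarith
  obtain ⟨T, M, hL⟩ := h1 V G (A \ L0 G A)
  obtain ⟨c1, c2, c3, c4⟩ := lex h3 hL hT' hSeen b1 (by linarith) hdeg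
  refine ⟨L0_sub G A, fun v hv => (mem_L0.1 hv).2, ?_, ?_⟩
  · intro v hv
    have := b3 v hv
    linarith
  · have c1r : (T.card : ℝ) ≤ k := by exact_mod_cast c1
    have c4r : ((A \ L0 G A).card : ℝ) = (((A \ L0 G A) \ vT T) \ vM M).card + 2 * M.card +
      3 * T.card := by exact_mod_cast c4
    have hi : (((A \ L0 G A) \ vT T) \ vM M).card ≤ 2 := by
      by_contra hc
      have hc' : (3 : ℝ) ≤ (((A \ L0 G A) \ vT T) \ vM M).card := by
        have : 3 ≤ (((A \ L0 G A) \ vT T) \ vM M).card := by omega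
        exact_mod_cast this
      set i : ℝ := ((((A \ L0 G A) \ vT T) \ vM M).card : ℝ) with hi
      have hM0 : (0 : ℝ) ≤ M.card := Nat.cast_nonneg _
      have e1 : 3 * (T.card : ℝ) ≤ A.card := by linarith
      have e2 : i * T.card ≤ i * k := mul_le_mul_of_nonneg_left c1r (by linarith)
      have e3 : i * (0.14 * A.card - 2) ≤ T.card := by nlinarith
      have e4 : 3 * (0.14 * (A.card : ℝ) - 2) ≤ i * (0.14 * A.card - 2) :=
        mul_le_mul_of_nonneg_right hc' (by linarith)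
      linarith
    omega

open J17 in
theorem pRidge1 (h1 : tLexEx) (_h2 : tLexFacts) (h3 : tCore) (h16 : tL3) : tRidge1 := by
  intro η hη
  obtain ⟨ε₃, hε₃, N₃, hL3⟩ := h16 (η / 2) (by linarith)
  obtain ⟨ε, hε, hε1, hε2, hε3⟩ : ∃ ε : ℝ, 0 < ε ∧ ε ≤ 1 / 10000 ∧ ε ≤ ε₃ / 2 ∧ ε ≤ η / 4 :=
    ⟨min (1 / 10000) (min (ε₃ / 2) (η / 4)), by positivity, min_le_left _ _,
      (min_le_right _ _).trans (min_le_left _ _), (min_le_right _ _).trans (min_le_right _ _)⟩
  refine ⟨ε, hε, 4 + ⌈1 / ε⌉₊, max (2 * N₃) (⌈4 / ε⌉₊ + 1000), ?_⟩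
  intro V _ _ G A k hN hk hk' hT hLoc
  obtain ⟨b1, b2, b3, b4⟩ := base hLoc
  have hN1 : 2 * N₃ ≤ A.card := (le_max_left _ _).trans hN
  have hN2 : ⌈4 / ε⌉₊ + 1000 ≤ A.card := (le_max_right _ _).trans hN
  have hNr : 4 / ε + 1000 ≤ (A.card : ℝ) := by
    have e1 : ((⌈4 / ε⌉₊ + 1000 : ℕ) : ℝ) ≤ A.card := by exact_mod_cast hN2
    have e2 := Nat.le_ceil (4 / ε)
    push_cast at e1
    linarith
  have hpos : (0 : ℝ) < 4 / ε := by positivity
  have hNr' : (1000 : ℝ) ≤ A.card := by linarith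
  have hεn : 4 ≤ ε * A.card := by
    have e1 : ε * (4 / ε) ≤ ε * A.card := mul_le_mul_of_nonneg_left (by linarith) hε.le
    have e2 : ε * (4 / ε) = 4 := by field_simp
    linarith
  have hεn' : ε * A.card ≤ 1 / 10000 * A.card := mul_le_mul_of_nonneg_right hε1 (by linarith)
  have b4r : ((A \ L0 G A).card : ℝ) + (L0 G A).card = A.card := by exact_mod_cast b4
  have hl0 : (0 : ℝ) ≤ (L0 G A).card := Nat.cast_nonneg _
  have hn0 : (0 : ℝ) ≤ (A \ L0 G A).card := Nat.cast_nonneg _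
  have hT' : ¬ HasT G (A \ L0 G A) (k + 1) := fun h => hT (h.mono Finset.sdiff_subset)
  have hdeg : ∀ v ∈ A \ L0 G A, (2 * k + (L0 G A).card - ε * A.card : ℝ) ≤
      dg G (A \ L0 G A) v := by
    intro v hv
    have := b2 v hv
    linarith
  have hSeen : Seen G (A \ L0 G A) := seen_of fun v hv => by
    have := hdeg v hv
    linarith
  by_cases hl : ((L0 G A).card : ℝ) ≤ 2 * ε * A.card
  · left
    have hnr : (A.card : ℝ) * (1 - 2 * ε) ≤ (A \ L0 G A).card := by linarith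
    have hn2 : (A.card : ℝ) ≤ 2 * (A \ L0 G A).card := by linarith
    have hN3 : N₃ ≤ (A \ L0 G A).card := by
      have e1 : (N₃ : ℝ) * 2 ≤ A.card := by
        have : ((2 * N₃ : ℕ) : ℝ) ≤ A.card := by exact_mod_cast hN1
        push_cast at this
        linarith
      have e2 : (N₃ : ℝ) ≤ (A \ L0 G A).card := by linarith
      exact_mod_cast e2
    have hε3n : ε * A.card ≤ ε₃ * (A \ L0 G A).card := by
      have e1 : ε * A.card ≤ ε₃ / 2 * A.card := mul_le_mul_of_nonneg_right hε2 (by linarith)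
      have e2 : ε₃ * (A.card : ℝ) ≤ ε₃ * (2 * (A \ L0 G A).card) :=
        mul_le_mul_of_nonneg_left hn2 hε₃.le
      linarith
    obtain ⟨Y, hY, y1, y2, y3⟩ := hL3 V G (A \ L0 G A) k hN3
      (by
        have : 0 ≤ ε₃ * (A \ L0 G A).card := by positivity
        linarith)
      (by linarith) hT'
      ⟨fun v hv => by
        have := hdeg v hv
        linarith, fun x hx y hy z hz ht => by
        have := b1 x hx y hy z hz ht
        linarith⟩ hSeen
    refine ⟨Y, hY.trans Finset.sdiff_subset, by linarith, ?_, ?_⟩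
    · have d1 : Disjoint ((A \ L0 G A) \ Y) (L0 G A) :=
        Finset.disjoint_of_subset_left Finset.sdiff_subset Finset.sdiff_disjoint
      have d2 : A \ Y = ((A \ L0 G A) \ Y) ∪ L0 G A := by
        ext v
        simp only [Finset.mem_sdiff, Finset.mem_union]
        constructor
        · rintro ⟨h4, h5⟩
          by_cases h6 : v ∈ L0 G A
          · exact Or.inr h6
          · exact Or.inl ⟨⟨h4, h6⟩, h5⟩
        · rintro (⟨⟨h4, h5⟩, h6⟩ | h4)
          · exact ⟨h4, h6⟩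
          · exact ⟨L0_sub G A h4, fun h5 => (Finset.mem_sdiff.1 (hY h5)).2 h4⟩
      have d3 : miss G (A \ Y) Y ≤ miss G ((A \ L0 G A) \ Y) Y + (L0 G A).card * Y.card := by
        unfold miss
        rw [d2, eb_union_left G d1, Finset.card_union_of_disjoint d1, add_mul]
        omega
      have d4 : Y.card ≤ A.card := Finset.card_le_card (hY.trans Finset.sdiff_subset)
      have d4r : (Y.card : ℝ) ≤ A.card := by exact_mod_cast d4
      have d3r : (miss G (A \ Y) Y : ℝ) ≤ miss G ((A \ L0 G A) \ Y) Y +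
          (L0 G A).card * Y.card := by exact_mod_cast d3
      have d5 : ((L0 G A).card : ℝ) * Y.card ≤ (2 * ε * A.card) * A.card := by
        refine mul_le_mul hl d4r (Nat.cast_nonneg _) ?_
        positivity
      have d6 : ((A \ L0 G A).card : ℝ) ^ 2 ≤ (A.card : ℝ) ^ 2 := by
        refine pow_le_pow_left₀ hn0 ?_ 2
        linarith
      have d7 : η / 2 * ((A \ L0 G A).card : ℝ) ^ 2 ≤ η / 2 * (A.card : ℝ) ^ 2 :=
        mul_le_mul_of_nonneg_left d6 (by linarith)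
      have d8 : ε * (A.card : ℝ) ^ 2 ≤ η / 4 * (A.card : ℝ) ^ 2 :=
        mul_le_mul_of_nonneg_right hε3 (by positivity)
      nlinarith
    · have d6 : ((A \ L0 G A).card : ℝ) ^ 2 ≤ (A.card : ℝ) ^ 2 := by
        refine pow_le_pow_left₀ hn0 ?_ 2
        linarith
      have d7 : η / 2 * ((A \ L0 G A).card : ℝ) ^ 2 ≤ η / 2 * (A.card : ℝ) ^ 2 :=
        mul_le_mul_of_nonneg_left d6 (by linarith)
      have d9 : 0 ≤ η / 2 * (A.card : ℝ) ^ 2 := by positivity
      linarith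
  · right
    push Not at hl
    refine ⟨L0 G A, ?_⟩
    obtain ⟨T, M, hL⟩ := h1 V G (A \ L0 G A)
    obtain ⟨c1, c2, c3, c4⟩ := lex h3 hL hT' hSeen b1 (by linarith) hdeg
    refine ⟨L0_sub G A, fun v hv => (mem_L0.1 hv).2, ?_, ?_⟩
    · intro v hv
      have := b3 v hv
      linarith
    · have c1r : (T.card : ℝ) ≤ k := by exact_mod_cast c1
      have hi : ((((A \ L0 G A) \ vT T) \ vM M).card : ℝ) ≤ 1 / ε := by
        set i : ℝ := ((((A \ L0 G A) \ vT T) \ vM M).card : ℝ) with hi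
        have hi0 : 0 ≤ i := Nat.cast_nonneg _
        have e2 : i * T.card ≤ i * k := mul_le_mul_of_nonneg_left c1r hi0
        have e3 : i * ((L0 G A).card - ε * A.card - 2) ≤ k := by nlinarith
        have e4 : i * (ε * A.card / 2) ≤ i * ((L0 G A).card - ε * A.card - 2) :=
          mul_le_mul_of_nonneg_left (by linarith) hi0
        have e5 : (i * ε) * A.card ≤ 1 * A.card := by linarith
        have e6 : i * ε ≤ 1 := le_of_mul_le_mul_right e5 (by linarith)
        rw [le_div_iff₀ hε]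
        exact e6
      have hi' : (((A \ L0 G A) \ vT T) \ vM M).card ≤ ⌈1 / ε⌉₊ := by
        have := hi.trans (Nat.le_ceil _)
        exact_mod_cast this
      omega

end Pool.Agent.ART
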