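import Pool.Agent.ART.Basic
import Pool.Agent.ART.Targets

set_option autoImplicit false

/-! J18: assembly of the stability theorem (MP_e56f3d_co), see Blueprint.lean.txt. -/

namespace Pool.Agent.ART

open Finset

/-- increments of `phi` for `3 k > n` -/
lemma phi_three {n k : ℝ} (hn : 10 ≤ n) (hk : n < 3 * k) :
    9 * k - 6 ≤ phi n k - phi (n - 3) (k - 1) := by
  have h1 : phi n k = max (ph3 n k) (ph4 n k) := by
    unfold phi
    rw [if_neg (by linarith), if_neg (by linarith)]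
  have h2 : phi (n - 3) (k - 1) = max (ph3 (n - 3) (k - 1)) (ph4 (n - 3) (k - 1)) := by
    unfold phi
    rw [if_neg (by linarith), if_neg (by linarith)]
  have h3 : ph3 (n - 3) (k - 1) ≤ ph4 (n - 3) (k - 1) := by
    obtain ⟨u, hu⟩ : ∃ u : ℝ, u = 3 * k - n := ⟨_, rfl⟩
    have hu0 : 0 < u := by linarith
    have hk' : k = (n + u) / 3 := by linarith
    subst hk'
    unfold ph3 ph4
    nlinarith [mul_pos hu0 (by linarith : (0 : ℝ) < n - 3), sq_nonneg (n - 3), sq_nonneg u]
  rw [h1, h2, max_eq_right h3]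
  have := le_max_right (ph3 n k) (ph4 n k)
  unfold ph4 at *
  nlinarith

variable {V : Type} [Fintype V] [DecidableEq V]

/-- a nearly extremal structure is not destroyed by adding few vertices -/
lemma NearI.lift {G : SimpleGraph V} {A : Finset V} {k₁ k J₀ : ℕ} {η : ℝ} (hη : 0 < η)
    (h : NearI G A k₁ (η / 2) (1 / 22)) (hn : Fintype.card V ≤ A.card + J₀) (hk : k ≤ k₁ + J₀)
    (h1 : 1000 * (J₀ : ℝ) ≤ A.card) (h2 : 2 * (J₀ : ℝ) ≤ η * A.card) :
    NearI G univ k η (1 / 25) := by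
  obtain ⟨Y, hYA, hY1, hY2, hY3⟩ := h
  have hnA : A.card ≤ Fintype.card V := Finset.card_le_univ A
  have hnR : (Fintype.card V : ℝ) ≤ A.card + J₀ := by exact_mod_cast hn
  have hkR : (k : ℝ) ≤ k₁ + J₀ := by exact_mod_cast hk
  have hnAR : (A.card : ℝ) ≤ Fintype.card V := by exact_mod_cast hnA
  have hJ : (0 : ℝ) ≤ J₀ := Nat.cast_nonneg _
  have hA : (0 : ℝ) ≤ A.card := Nat.cast_nonneg _
  refine ⟨Y, subset_univ _, ?_, ?_, ?_⟩
  · rw [Finset.card_univ]
    linarith
  · have e1 : (univ \ Y : Finset V).card = (A \ Y).card + (univ \ A).card := by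
      rw [← Finset.card_union_of_disjoint]
      · congr 1
        ext v
        simp only [mem_sdiff, mem_univ, true_and, mem_union]
        constructor
        · intro hv
          by_cases hvA : v ∈ A
          · exact Or.inl ⟨hvA, hv⟩
          · exact Or.inr hvA
        · rintro (hv | hv)
          · exact hv.2
          · exact fun hvY => hv (hYA hvY)
      · rw [Finset.disjoint_left]
        intro v hv hv'
        exact (mem_sdiff.1 hv').2 (mem_sdiff.1 hv).1
    have e2' : (univ \ A : Finset V).card + A.card = Fintype.card V := by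
      rw [Finset.card_sdiff_of_subset (subset_univ A), Finset.card_univ]
      omega
    have e3 : eb G (A \ Y) Y ≤ eb G (univ \ Y) Y := by
      unfold eb
      exact Finset.sum_le_sum_of_subset (Finset.sdiff_subset_sdiff (subset_univ A) (le_refl Y))
    have e4 : miss G (univ \ Y) Y ≤ miss G (A \ Y) Y + J₀ * Y.card := by
      unfold miss
      rw [e1, add_mul]
      have e5 : (univ \ A : Finset V).card * Y.card ≤ J₀ * Y.card :=
        Nat.mul_le_mul_right _ (by omega)
      omega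
    have hYc : Y.card ≤ A.card := Finset.card_le_card hYA
    have e6 : (miss G (univ \ Y) Y : ℝ) ≤ miss G (A \ Y) Y + J₀ * Y.card := by exact_mod_cast e4
    have e7 : (J₀ : ℝ) * Y.card ≤ J₀ * A.card :=
      mul_le_mul_of_nonneg_left (by exact_mod_cast hYc) hJ
    have e8 : (J₀ : ℝ) * A.card ≤ η / 2 * (A.card : ℝ) ^ 2 := by
      nlinarith
    have e9 : (A.card : ℝ) ^ 2 ≤ ((univ : Finset V).card : ℝ) ^ 2 := by
      rw [Finset.card_univ]
      exact pow_le_pow_left₀ hA hnAR 2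
    calc (miss G (univ \ Y) Y : ℝ) ≤ η / 2 * (A.card : ℝ) ^ 2 + η / 2 * (A.card : ℝ) ^ 2 := by
          linarith
      _ = η * (A.card : ℝ) ^ 2 := by ring
      _ ≤ _ := mul_le_mul_of_nonneg_left e9 hη.le
  · have e9 : (A.card : ℝ) ^ 2 ≤ ((univ : Finset V).card : ℝ) ^ 2 := by
      rw [Finset.card_univ]
      exact pow_le_pow_left₀ hA hnAR 2
    calc (e2 G Y : ℝ) ≤ η / 2 * (A.card : ℝ) ^ 2 := hY3
      _ ≤ η * (A.card : ℝ) ^ 2 := by nlinarith [sq_nonneg (A.card : ℝ)]
      _ ≤ _ := mul_le_mul_of_nonneg_left e9 hη.le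

omit [Fintype V] in
lemma NearI.weaken {G : SimpleGraph V} {A : Finset V} {k : ℕ} {η s s' : ℝ}
    (h : NearI G A k η s) (hs : s' ≤ s) : NearI G A k η s' := by
  obtain ⟨Y, h1, h2, h3, h4⟩ := h
  refine ⟨Y, h1, ?_, h3, h4⟩
  have : s' * (A.card : ℝ) ≤ s * A.card := mul_le_mul_of_nonneg_right hs (Nat.cast_nonneg _)
  linarith

omit [Fintype V] in
lemma Pre4.weaken {G : SimpleGraph V} {A L : Finset V} {k k' J J' : ℕ}
    (h : Pre4 G A k J L) (hk : k ≤ k') (hJ : J ≤ J') : Pre4 G A k' J' L := by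
  obtain ⟨h1, h2, h3, h4⟩ := h
  exact ⟨h1, h2, h3, by omega⟩

omit [Fintype V] in
/-- an edge in no triangle has an end of small degree -/
lemma exists_dg_of_not_seen {G : SimpleGraph V} {A : Finset V} (h : ¬ Seen G A) :
    ∃ x ∈ A, 2 * dg G A x ≤ A.card := by
  unfold Seen at h
  push Not at h
  obtain ⟨x, hx, y, hy, hxy, hz⟩ := h
  have hd : dg G A x + dg G A y ≤ A.card := by
    classical
    rw [dg_def, dg_def, ← Finset.card_union_of_disjoint]
    · exact Finset.card_le_card (by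
        intro v hv
        rcases Finset.mem_union.1 hv with hv | hv
        · exact (Finset.mem_filter.1 hv).1
        · exact (Finset.mem_filter.1 hv).1)
    · rw [Finset.disjoint_left]
      intro v hv hv'
      exact hz v (Finset.mem_filter.1 hv).1 ⟨hxy, (Finset.mem_filter.1 hv').2,
        (Finset.mem_filter.1 hv).2⟩
  rcases le_total (dg G A x) (dg G A y) with h | h
  · exact ⟨x, hx, by omega⟩
  · exact ⟨y, hy, by omega⟩

omit [Fintype V] [DecidableEq V] in
lemma Loc.weaken {G : SimpleGraph V} {A : Finset V} {δ S δ' S' : ℝ} (h : Loc G A δ S)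
    (h1 : δ' ≤ δ) (h2 : S' ≤ S) : Loc G A δ' S' :=
  ⟨fun v hv => h1.trans (h.deg v hv), fun x hx y hy z hz ht => h2.trans (h.tri x hx y hy z hz ht)⟩

lemma phi_zero (n : ℝ) (hn : 0 ≤ n) : phi n 0 = n ^ 2 / 4 := by
  unfold phi
  rw [if_pos (by linarith)]
  unfold ph1
  ring

theorem pStab (h4 : tPhi) (h6 : tDel) (h12 : tSmallK) (h13 : tCaseS) (h14 : tCaseU)
    (h15 : tZone) (h16 : tL3) (h17 : tRidge1) (h17' : tRidge2) : tStab := by
  intro D η hη
  have hη2 : 0 < η / 2 := by linarith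
  obtain ⟨cs, hcs, Ns, hs⟩ := h12 (η / 2) hη2
  obtain ⟨cz, hcz, Nz, hz⟩ := h15 (η / 2) hη2
  obtain ⟨e3, he3, N3, h3⟩ := h16 (η / 2) hη2
  obtain ⟨e1, he1, J1, N1, h1⟩ := h17 (η / 2) hη2
  obtain ⟨e2', he2, J2, N2, h2⟩ := h17'
  obtain ⟨c1, hc1, hc1s, hc1z, hc13, hc1h⟩ : ∃ c1 : ℝ, 0 < c1 ∧ c1 ≤ cs ∧ 16 * c1 ≤ cz ∧
      16 * c1 ≤ e3 ∧ c1 ≤ 1 / 200 := by
    refine ⟨min (min cs (1 / 200)) (min (cz / 16) (e3 / 16)), ?_, ?_, ?_, ?_, ?_⟩
    · positivity
    · exact (min_le_left _ _).trans (min_le_left _ _)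
    · have := (min_le_right (min cs (1 / 200)) (min (cz / 16) (e3 / 16))).trans (min_le_left _ _)
      linarith
    · have := (min_le_right (min cs (1 / 200)) (min (cz / 16) (e3 / 16))).trans (min_le_right _ _)
      linarith
    · exact (min_le_left _ _).trans (min_le_right _ _)
  obtain ⟨eS, heS, NS, hS⟩ := h13 c1 (η / 2) hc1 hη2
  obtain ⟨eU, heU, NU, hU⟩ := h14 c1 (η / 2) hc1 hη2
  obtain ⟨ε, hε, hεz, hε3, hε1, hε2, hεS, hεU⟩ : ∃ ε : ℝ, 0 < ε ∧ 16 * ε ≤ cz ∧ 16 * ε ≤ e3 ∧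
      16 * ε ≤ e1 ∧ 16 * ε ≤ e2' ∧ 16 * ε ≤ eS ∧ 16 * ε ≤ eU := by
    refine ⟨min (min (min cz e3) (min e1 e2')) (min eS eU) / 16, ?_, ?_, ?_, ?_, ?_, ?_, ?_⟩
    · positivity
    · have := (min_le_left (min (min cz e3) (min e1 e2')) (min eS eU)).trans
        ((min_le_left _ _).trans (min_le_left _ _))
      linarith
    · have := (min_le_left (min (min cz e3) (min e1 e2')) (min eS eU)).trans
        ((min_le_left _ _).trans (min_le_right _ _))
      linarith
    · have := (min_le_left (min (min cz e3) (min e1 e2')) (min eS eU)).trans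
        ((min_le_right _ _).trans (min_le_left _ _))
      linarith
    · have := (min_le_left (min (min cz e3) (min e1 e2')) (min eS eU)).trans
        ((min_le_right _ _).trans (min_le_right _ _))
      linarith
    · have := (min_le_right (min (min cz e3) (min e1 e2')) (min eS eU)).trans (min_le_left _ _)
      linarith
    · have := (min_le_right (min (min cz e3) (min e1 e2')) (min eS eU)).trans (min_le_right _ _)
      linarith
  obtain ⟨J0, h0⟩ := h6 D ε hε
  -- the threshold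
  have hev : ∀ᶠ x : ℝ in Filter.atTop, ((Ns : ℝ) ≤ x ∧ (Nz : ℝ) ≤ x ∧ (N3 : ℝ) ≤ x ∧
      (N1 : ℝ) ≤ x ∧ (N2 : ℝ) ≤ x ∧ (NS : ℝ) ≤ x ∧ (NU : ℝ) ≤ x) ∧
      (10000 ≤ x ∧ 10000 * (J0 : ℝ) ≤ x ∧ 2 * (J0 : ℝ) ≤ η * x) ∧
      (2 * |D| ≤ cs * x ∧ 2 * |D| ≤ eS * x ∧ 2 * |D| ≤ eU * x) ∧
      (100 ≤ ε * x ∧ 1 ≤ c1 * x) := by
    have key : ∀ a b : ℝ, 0 < a → ∀ᶠ x : ℝ in Filter.atTop, b ≤ a * x := by
      intro a b ha
      filter_upwards [Filter.eventually_ge_atTop (b / a)] with x hx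
      rw [div_le_iff₀ ha] at hx
      linarith
    filter_upwards [Filter.eventually_ge_atTop (Ns : ℝ), Filter.eventually_ge_atTop (Nz : ℝ),
      Filter.eventually_ge_atTop (N3 : ℝ), Filter.eventually_ge_atTop (N1 : ℝ),
      Filter.eventually_ge_atTop (N2 : ℝ), Filter.eventually_ge_atTop (NS : ℝ),
      Filter.eventually_ge_atTop (NU : ℝ), Filter.eventually_ge_atTop (10000 : ℝ),
      Filter.eventually_ge_atTop (10000 * (J0 : ℝ)), key η (2 * (J0 : ℝ)) hη,
      key cs (2 * |D|) hcs, key eS (2 * |D|) heS, key eU (2 * |D|) heU, key ε 100 hε,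
      key c1 1 hc1] with x a1 a2 a3 a4 a5 a6 a7 a8 a9 a10 a11 a12 a13 a14 a15
    exact ⟨⟨a1, a2, a3, a4, a5, a6, a7⟩, ⟨a8, a9, a10⟩, ⟨a11, a12, a13⟩, a14, a15⟩
  obtain ⟨X, hX⟩ := Filter.eventually_atTop.1 hev
  obtain ⟨N', hN'⟩ := exists_nat_ge X
  refine ⟨J0 + J1 + J2, J0 + N', ?_⟩
  intro V _ _ G k hN hk3 hG hE
  have hJn : J0 ≤ (univ : Finset V).card := by rw [Finset.card_univ]; omega
  rw [← Finset.card_univ] at hE hN hk3
  obtain ⟨A, hAu, k₁, hk₁, hcA, hkk, hGA, hEA, hLoc⟩ := h0 V G univ k hJn hG hE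
  have hAn : A.card ≤ (univ : Finset V).card := Finset.card_le_card hAu
  set nn : ℕ := (univ : Finset V).card with hnn
  have hcardV : Fintype.card V = nn := by rw [hnn, Finset.card_univ]
  have hXA : X ≤ (A.card : ℝ) := by
    refine hN'.trans ?_
    have : N' ≤ A.card := by omega
    exact_mod_cast this
  obtain ⟨⟨a1, a2, a3, a4, a5, a6, a7⟩, ⟨a8, a9, a10⟩, ⟨a11, a12, a13⟩, a14, a15⟩ := hX _ hXA
  have b1 : Ns ≤ A.card := by exact_mod_cast a1
  have b2 : Nz ≤ A.card := by exact_mod_cast a2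
  have b3 : N3 ≤ A.card := by exact_mod_cast a3
  have b4 : N1 ≤ A.card := by exact_mod_cast a4
  have b5 : N2 ≤ A.card := by exact_mod_cast a5
  have b6 : NS ≤ A.card := by exact_mod_cast a6
  have b7 : NU ≤ A.card := by exact_mod_cast a7
  -- real versions
  obtain ⟨m, hm⟩ : ∃ m : ℝ, m = (A.card : ℝ) := ⟨_, rfl⟩
  obtain ⟨κ, hκ⟩ : ∃ κ : ℝ, κ = (k₁ : ℝ) := ⟨_, rfl⟩
  have c0 : (0 : ℝ) ≤ J0 := Nat.cast_nonneg _
  have c1' : (nn : ℝ) ≤ m + J0 := by rw [hm]; exact_mod_cast hcA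
  have c2 : m ≤ nn := by rw [hm]; exact_mod_cast hAn
  have c3 : κ ≤ k := by rw [hκ]; exact_mod_cast hk₁
  have c4 : (k : ℝ) ≤ κ + J0 := by rw [hκ]; exact_mod_cast hkk
  have c5 : (nn : ℝ) ≤ 2 * m := by rw [← hm] at a9 a8; linarith
  have c6 : (3 * k + 3 : ℝ) ≤ nn := by exact_mod_cast hk3
  have c7 : (0 : ℝ) ≤ κ := by rw [hκ]; exact Nat.cast_nonneg _
  rw [← hm, ← hκ] at hEA hLoc
  rw [← hm] at a8 a9 a10 a11 a12 a13 a14 a15
  have hDn : D * nn ≤ 2 * |D| * m := by
    calc D * nn ≤ |D| * nn := mul_le_mul_of_nonneg_right (le_abs_self D) (Nat.cast_nonneg _)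
      _ ≤ |D| * (2 * m) := mul_le_mul_of_nonneg_left c5 (abs_nonneg D)
      _ = 2 * |D| * m := by ring
  have hεn : ε * nn ≤ 2 * (ε * m) := by
    calc ε * nn ≤ ε * (2 * m) := mul_le_mul_of_nonneg_left c5 hε.le
      _ = 2 * (ε * m) := by ring
  have hm0 : 0 < m := by linarith
  have d1 : c1 * m ≤ cs * m := mul_le_mul_of_nonneg_right hc1s hm0.le
  have d2 : 16 * (c1 * m) ≤ cz * m := by
    have := mul_le_mul_of_nonneg_right hc1z hm0.le
    linarith
  have d3 : 16 * (c1 * m) ≤ e3 * m := by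
    have := mul_le_mul_of_nonneg_right hc13 hm0.le
    linarith
  have d4 : c1 * m ≤ m / 200 := by
    have := mul_le_mul_of_nonneg_right hc1h hm0.le
    linarith
  have d5 : 16 * (ε * m) ≤ cz * m := by
    have := mul_le_mul_of_nonneg_right hεz hm0.le
    linarith
  have d6 : 16 * (ε * m) ≤ e3 * m := by
    have := mul_le_mul_of_nonneg_right hε3 hm0.le
    linarith
  have d7 : 16 * (ε * m) ≤ e1 * m := by
    have := mul_le_mul_of_nonneg_right hε1 hm0.le
    linarith
  have d8 : 16 * (ε * m) ≤ e2' * m := by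
    have := mul_le_mul_of_nonneg_right hε2 hm0.le
    linarith
  have d9 : 16 * (ε * m) ≤ eS * m := by
    have := mul_le_mul_of_nonneg_right hεS hm0.le
    linarith
  have d10 : 16 * (ε * m) ≤ eU * m := by
    have := mul_le_mul_of_nonneg_right hεU hm0.le
    linarith
  have f1 : 2 * |D| * m ≤ cs * m ^ 2 := by
    have := mul_le_mul_of_nonneg_right a11 hm0.le
    linarith
  have f2 : 2 * |D| * m ≤ eS * m ^ 2 := by
    have := mul_le_mul_of_nonneg_right a12 hm0.le
    linarith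
  have f3 : 2 * |D| * m ≤ eU * m ^ 2 := by
    have := mul_le_mul_of_nonneg_right a13 hm0.le
    linarith
  have c8 : 0 < c1 * m := mul_pos hc1 hm0
  -- the two outcomes
  have outI : NearI G A k₁ (η / 2) (1 / 22) → κ ≤ 0.307 * m →
      ((k : ℝ) ≤ 0.3073 * Fintype.card V ∧ NearI G univ k η (1 / 25)) := by
    intro hI hκm
    refine ⟨?_, ?_⟩
    · rw [hcardV]
      linarith
    · refine NearI.lift (J₀ := J0) hη hI (by rw [hcardV]; exact hcA) hkk ?_ ?_
      · rw [← hm]; linarith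
      · rw [← hm]; exact a10
  have outP : ∀ J, J ≤ J0 + J1 + J2 → (∃ L, Pre4 G A k₁ J L) → 0.3051 * m ≤ κ →
      (0.305 * Fintype.card V ≤ (k : ℝ) ∧ ∃ A L, Fintype.card V ≤ A.card + (J0 + J1 + J2) ∧
        Pre4 G A k (J0 + J1 + J2) L) := by
    rintro J hJ ⟨L, hL⟩ hκm
    refine ⟨?_, A, L, ?_, hL.weaken hk₁ hJ⟩
    · rw [hcardV]
      linarith
    · rw [hcardV]; omega
  rw [hcardV] at outI outP ⊢
  clear hX hN' hev
  -- the small case
  by_cases hA : κ ≤ c1 * m
  · left
    refine outI ((hs V G A k₁ b1 ?_ hGA ?_).weaken (by norm_num)) (by linarith)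
    · rw [← hm, ← hκ]
      linarith
    · rw [← hm]
      have hphi : m ^ 2 / 4 ≤ phi m κ := by
        rcases Nat.eq_zero_or_pos k₁ with h0' | h0'
        · have : κ = 0 := by rw [hκ, h0']; simp
          rw [this, phi_zero m hm0.le]
        · have hκ1 : 1 ≤ κ := by rw [hκ]; exact_mod_cast h0'
          exact (h4 m κ (by linarith) hκ1 (by linarith)).2.2.2.2.2.2.2.2.2.2.1
      linarith
  push Not at hA
  have hκ1 : 1 ≤ κ := by linarith
  by_cases hB : κ ≤ (1 / 4 - c1) * m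
  · left
    have hphi := h4 m κ (by linarith) hκ1 (by linarith)
    have hlow := hphi.1 (Or.inl (by linarith))
    refine outI ?_ (by linarith)
    by_cases hseen : Seen G A
    · refine (hS V G A k₁ b6 (by rw [← hm, ← hκ]; exact hA.le) (by rw [← hm, ← hκ]; exact hB)
        hGA ?_ hseen ?_).weaken (by norm_num)
      · rw [← hm, ← hκ]
        refine hLoc.weaken ?_ ?_
        · linarith [hlow.1]
        · linarith [hlow.2.2]
      · rw [← hm, ← hκ]
        linarith [hphi.2.2.2.2.2.2.1]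
    · refine (hU V G A k₁ b7 (by rw [← hm, ← hκ]; exact hA.le) (by rw [← hm, ← hκ]; exact hB)
        hGA ?_ hseen ?_ ?_).weaken (by norm_num)
      · rw [← hm, ← hκ]
        refine hLoc.weaken ?_ ?_
        · linarith [hlow.1]
        · linarith [hlow.2.2]
      · rw [← hm, ← hκ]
        linarith [hphi.2.2.2.2.2.2.1]
      · rw [← hm, ← hκ]
        have := hphi.2.2.2.2.2.2.2.1 (by linarith)
        linarith
  push Not at hB
  by_cases hC : κ ≤ 0.3056 * m
  · left
    have hphi := h4 m κ (by linarith) hκ1 (by linarith)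
    have hlow := hphi.1 (hphi.2.2.2.2.2.1 a8 hC)
    have hmid := hphi.2.2.2.1 c1 hc1.le (by linarith) hB.le
    refine outI ?_ (by linarith)
    by_cases hseen : Seen G A
    · refine (h3 V G A k₁ b3 ?_ ?_ hGA ?_ hseen).weaken (by norm_num)
      · rw [← hm, ← hκ]; linarith
      · rw [← hm, ← hκ]; linarith
      · rw [← hm, ← hκ]
        refine hLoc.weaken ?_ ?_
        · linarith [hlow.2.1]
        · linarith
    · have hκz : κ ≤ (1 / 4 + cz) * m := by
        obtain ⟨x, hx, hdx⟩ := exists_dg_of_not_seen hseen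
        have h5 := hLoc.deg x hx
        have h6 : (2 * dg G A x : ℝ) ≤ m := by rw [hm]; exact_mod_cast hdx
        have h7 := hlow.2.1
        linarith
      refine (hz V G A k₁ b2 ?_ ?_ hGA ?_ hseen).weaken (by norm_num)
      · rw [← hm, ← hκ]; linarith
      · rw [← hm, ← hκ]; exact hκz
      · rw [← hm]
        refine hLoc.weaken ?_ ?_
        · linarith [hlow.1]
        · linarith
  push Not at hC
  by_cases hD : κ < 0.3064 * m
  · have hphi := h4 m κ (by linarith) hκ1 (by linarith)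
    have hlow := hphi.2.2.1 (by linarith)
    have hloc : Loc G A 0 (2 * A.card + 2 * k₁ - e1 * A.card) := by
      rw [← hm, ← hκ]
      constructor
      · intro v hv
        exact Nat.cast_nonneg _
      · intro x hx y hy z hz' ht
        have := hLoc.tri x hx y hy z hz' ht
        linarith
    rcases h1 V G A k₁ b4 (by rw [← hm, ← hκ]; linarith) (by rw [← hm, ← hκ]; linarith) hGA hloc
      with h | h
    · left
      exact outI h (by linarith)
    · right
      exact outP J1 (by omega) h (by linarith)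
  push Not at hD
  right
  have hlow : 9 * κ - 6 ≤ phi m κ - phi (m - 3) (κ - 1) := by
    by_cases h3k : 3 * κ ≤ m
    · exact (h4 m κ (by linarith) hκ1 h3k).2.2.2.2.1 a8 hD
    · push Not at h3k
      exact phi_three (by linarith) h3k
  have hloc : Loc G A 0 (9 * k₁ - e2' * A.card) := by
    rw [← hm, ← hκ]
    constructor
    · intro v hv
      exact Nat.cast_nonneg _
    · intro x hx y hy z hz' ht
      have := hLoc.tri x hx y hy z hz' ht
      linarith
  exact outP J2 (by omega) (h2 V G A k₁ b5 (by rw [← hm, ← hκ]; exact hD) hGA hloc) (by linarith)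

end Pool.Agent.ART
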