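import Pool.Agent.ART.Basic
import Pool.Agent.ART.Targets

set_option autoImplicit false
set_option linter.unusedSectionVars false

/-! Anti-Ramsey numbers of vertex-disjoint triangles (MP_e56f3d_co): job J19. -/

namespace Pool.Agent.ART

open Finset

namespace J19_

/-! ### Representing graphs -/

lemma mem_cols {V : Type} [DecidableEq V] {c : Sym2 V → ℕ} {A : Finset V} {g : ℕ} :
    g ∈ cols c A ↔ ∃ x ∈ A, ∃ y ∈ A, x ≠ y ∧ c s(x, y) = g := by
  unfold cols
  rw [Finset.mem_image]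
  constructor
  · rintro ⟨⟨x, y⟩, h, rfl⟩
    rw [Finset.mem_offDiag] at h
    exact ⟨x, h.1, y, h.2.1, h.2.2, rfl⟩
  · rintro ⟨x, hx, y, hy, hne, rfl⟩
    exact ⟨(x, y), Finset.mem_offDiag.2 ⟨hx, hy, hne⟩, rfl⟩

lemma sym2_mem_of_eq {V : Type} {A : Finset V} {u v x y : V} (h : s(u, v) = s(x, y))
    (hx : x ∈ A) (hy : y ∈ A) : u ∈ A ∧ v ∈ A := by
  rw [Sym2.eq_iff] at h
  rcases h with ⟨rfl, rfl⟩ | ⟨rfl, rfl⟩
  · exact ⟨hx, hy⟩
  · exact ⟨hy, hx⟩

lemma sym2_ne_of_eq {V : Type} {u v x y : V} (h : s(u, v) = s(x, y)) (hne : x ≠ y) : u ≠ v := by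
  rw [Sym2.eq_iff] at h
  rcases h with ⟨rfl, rfl⟩ | ⟨rfl, rfl⟩
  · exact hne
  · exact hne.symm

end J19_

open J19_ in
theorem pRepEx : tRepEx := by
  classical
  intro V _ _ c A T hT
  have key : ∀ g : ℕ, g ∈ cols c A → ∃ e : Sym2 V,
      (∃ x ∈ A, ∃ y ∈ A, x ≠ y ∧ e = s(x, y)) ∧ c e = g ∧
        (∀ t ∈ T, ∀ x ∈ t, ∀ y ∈ t, x ≠ y → c s(x, y) = g → e = s(x, y)) := by
    intro g hg
    obtain ⟨x, hx, y, hy, hne, hc⟩ := mem_cols.1 hg
    by_cases hex : ∃ t ∈ T, ∃ x ∈ t, ∃ y ∈ t, x ≠ y ∧ c s(x, y) = g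
    · obtain ⟨t, ht, a, ha, b, hb, hab, hcab⟩ := hex
      refine ⟨s(a, b), ⟨a, hT.sub t ht ha, b, hT.sub t ht hb, hab, rfl⟩, hcab, ?_⟩
      intro t' ht' x' hx' y' hy' hne' hc'
      exact hT.rbw t ht t' ht' a ha b hb x' hx' y' hy' hab hne' (by rw [hcab, hc'])
    · refine ⟨s(x, y), ⟨x, hx, y, hy, hne, rfl⟩, hc, ?_⟩
      intro t' ht' x' hx' y' hy' hne' hc'
      exact absurd ⟨t', ht', x', hx', y', hy', hne', hc'⟩ hex
  choose f hf1 hf2 hf3 using key
  let G : SimpleGraph V :=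
    { Adj := fun u v => ∃ g, ∃ hg : g ∈ cols c A, f g hg = s(u, v)
      symm := ⟨fun u v ⟨g, hg, h⟩ => ⟨g, hg, by rw [h, Sym2.eq_swap]⟩⟩
      loopless := ⟨fun u ⟨g, hg, h⟩ => by
        obtain ⟨x, hx, y, hy, hne, he⟩ := hf1 g hg
        exact sym2_ne_of_eq (h.symm.trans he) hne rfl⟩ }
  have hGadj : ∀ u v, G.Adj u v ↔ ∃ g, ∃ hg : g ∈ cols c A, f g hg = s(u, v) := fun u v => Iff.rfl
  refine ⟨G, ⟨?_, ?_, ?_⟩, ⟨hT.sub, ?_, hT.dis⟩⟩
  · intro x y h
    obtain ⟨g, hg, h⟩ := (hGadj x y).1 h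
    obtain ⟨a, ha, b, hb, hne, he⟩ := hf1 g hg
    exact sym2_mem_of_eq (h.symm.trans he) ha hb
  · intro x y x' y' h h' hc
    obtain ⟨g, hg, h⟩ := (hGadj x y).1 h
    obtain ⟨g', hg', h'⟩ := (hGadj x' y').1 h'
    have e1 := hf2 g hg
    have e2 := hf2 g' hg'
    rw [h] at e1
    rw [h'] at e2
    have : g = g' := by rw [← e1, ← e2, hc]
    subst this
    rw [← h, ← h']
  · intro x hx y hy hne
    have hg : c s(x, y) ∈ cols c A := mem_cols.2 ⟨x, hx, y, hy, hne, rfl⟩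
    obtain ⟨a, ha, b, hb, hab, he⟩ := hf1 _ hg
    exact ⟨a, b, (hGadj a b).2 ⟨_, hg, he⟩, by rw [← he]; exact hf2 _ hg⟩
  · intro t ht
    refine ⟨?_, hT.crd t ht⟩
    intro x hx y hy hne
    have hg : c s(x, y) ∈ cols c A :=
      mem_cols.2 ⟨x, hT.sub t ht hx, y, hT.sub t ht hy, hne, rfl⟩
    exact (hGadj x y).2 ⟨_, hg, hf3 _ hg t ht x hx y hy hne rfl⟩

namespace J19_

/-! ### Switching -/

/-- switching several pairs -/
def swP {V : Type} (c : Sym2 V → ℕ) (G : SimpleGraph V) (P : Finset (Sym2 V)) :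
    SimpleGraph V where
  Adj u v := u ≠ v ∧ ((G.Adj u v ∧ ∀ e ∈ P, c e ≠ c s(u, v)) ∨ s(u, v) ∈ P)
  symm := ⟨fun u v h => by
    refine ⟨h.1.symm, ?_⟩
    rcases h.2 with ⟨h1, h2⟩ | h1
    · exact Or.inl ⟨h1.symm, by rwa [Sym2.eq_swap]⟩
    · exact Or.inr (by rw [Sym2.eq_swap]; exact h1)⟩
  loopless := ⟨fun _ h => h.1 rfl⟩

lemma swP_adj {V : Type} (c : Sym2 V → ℕ) (G : SimpleGraph V) (P : Finset (Sym2 V)) (u v : V) :
    (swP c G P).Adj u v ↔ u ≠ v ∧ ((G.Adj u v ∧ ∀ e ∈ P, c e ≠ c s(u, v)) ∨ s(u, v) ∈ P) :=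
  Iff.rfl

lemma sw_eq {V : Type} (c : Sym2 V → ℕ) (G : SimpleGraph V) (x y : V) :
    sw c G x y = swP c G {s(x, y)} := by
  ext u v
  rw [swP_adj]
  show (u ≠ v ∧ ((G.Adj u v ∧ c s(u, v) ≠ c s(x, y)) ∨ s(u, v) = s(x, y))) ↔ _
  simp only [Finset.mem_singleton, forall_eq]
  constructor
  · rintro ⟨h1, h2 | h2⟩
    · exact ⟨h1, Or.inl ⟨h2.1, h2.2.symm⟩⟩
    · exact ⟨h1, Or.inr h2⟩
  · rintro ⟨h1, h2 | h2⟩
    · exact ⟨h1, Or.inl ⟨h2.1, h2.2.symm⟩⟩
    · exact ⟨h1, Or.inr h2⟩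

lemma swP_main {V : Type} [DecidableEq V] (c : Sym2 V → ℕ) (A : Finset V)
    (G : SimpleGraph V) (P : Finset (Sym2 V)) (hG : Rep c A G) (hd : ∀ e ∈ P, ¬ e.IsDiag)
    (hA : ∀ e ∈ P, ∀ v ∈ e, v ∈ A) (hinj : ∀ e ∈ P, ∀ f ∈ P, c e = c f → e = f) :
    Rep c A (swP c G P) ∧ Cl P.card G (swP c G P) ∧ (∀ e ∈ P, e ∈ (swP c G P).edgeSet) := by
  classical
  refine ⟨⟨?_, ?_, ?_⟩, ?_, ?_⟩
  · intro x y h
    rcases h.2 with h | h
    · exact hG.mem x y h.1
    · exact ⟨hA _ h x (by simp), hA _ h y (by simp)⟩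
  · intro x y x' y' h h' hc
    rcases h.2 with h | h <;> rcases h'.2 with h' | h'
    · exact hG.inj x y x' y' h.1 h'.1 hc
    · exact absurd hc.symm (h.2 _ h')
    · exact absurd hc (h'.2 _ h)
    · exact hinj _ h _ h' hc
  · intro x hx y hy hne
    obtain ⟨x', y', h, hc⟩ := hG.sur x hx y hy hne
    by_cases hex : ∃ e ∈ P, c e = c s(x', y')
    · obtain ⟨e, he, hce⟩ := hex
      induction e using Sym2.ind with
      | _ a b =>
        refine ⟨a, b, ?_, by rw [hce, hc]⟩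
        rw [swP_adj]
        exact ⟨fun hab => hd _ he (by rw [Sym2.mk_isDiag_iff]; exact hab), Or.inr he⟩
    · push Not at hex
      exact ⟨x', y', ⟨h.ne, Or.inl ⟨h, hex⟩⟩, hc⟩
  · -- lost edges
    let f : Sym2 V → Sym2 V := fun e =>
      if h : ∃ e' ∈ G.edgeSet, c e' = c e then h.choose else e
    refine ⟨P.image f, Finset.card_image_le, ?_⟩
    intro u v huv hnot
    rw [swP_adj]
    refine ⟨huv.ne, Or.inl ⟨huv, ?_⟩⟩
    intro e he hce
    apply hnot
    rw [Finset.mem_image]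
    refine ⟨e, he, ?_⟩
    have hex : ∃ e' ∈ G.edgeSet, c e' = c e := ⟨s(u, v), huv, hce.symm⟩
    have h1 : f e = hex.choose := dif_pos hex
    rw [h1]
    obtain ⟨h2, h3⟩ := hex.choose_spec
    generalize hex.choose = w at h2 h3
    induction w using Sym2.ind with
    | _ a b =>
      exact hG.inj a b u v h2 huv (by rw [h3, hce])
  · intro e he
    induction e using Sym2.ind with
    | _ a b =>
      rw [SimpleGraph.mem_edgeSet, swP_adj]
      exact ⟨fun hab => hd _ he (by rw [Sym2.mk_isDiag_iff]; exact hab), Or.inr he⟩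

/-! ### Counting -/

open Classical in
lemma e2_eq_card {V : Type} (G : SimpleGraph V) (B : Finset V) :
    e2 G B = ((B ×ˢ B).filter (fun p => G.Adj p.1 p.2)).card := by
  unfold e2
  rw [Finset.card_filter, Finset.sum_product]
  refine Finset.sum_congr rfl fun v _ => ?_
  rw [dg_eq_sum]

open Classical in
lemma fiber_le {V : Type} (c : Sym2 V → ℕ) (A : Finset V) (G : SimpleGraph V)
    (hG : Rep c A G) (B : Finset V) (g : ℕ) :
    (((B ×ˢ B).filter (fun p => G.Adj p.1 p.2)).filter (fun p => c s(p.1, p.2) = g)).card ≤ 2 := by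
  by_cases hex : ∃ x y, G.Adj x y ∧ c s(x, y) = g
  · obtain ⟨x, y, hxy, hc⟩ := hex
    calc _ ≤ ({(x, y), (y, x)} : Finset (V × V)).card := by
          apply Finset.card_le_card
          rintro ⟨a, b⟩ hab
          rw [Finset.mem_filter, Finset.mem_filter] at hab
          have h := hG.inj a b x y hab.1.2 hxy (by rw [hab.2, hc])
          rw [Sym2.eq_iff] at h
          rw [Finset.mem_insert, Finset.mem_singleton]
          rcases h with ⟨rfl, rfl⟩ | ⟨rfl, rfl⟩
          · exact Or.inl rfl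
          · exact Or.inr rfl
      _ ≤ 2 := Finset.card_le_two
  · rw [Finset.card_eq_zero.2]
    · omega
    · rw [Finset.filter_eq_empty_iff]
      rintro ⟨a, b⟩ hab hc
      rw [Finset.mem_filter] at hab
      exact hex ⟨a, b, hab.2, hc⟩

end J19_

open J19_ in
theorem pRepE : tRepE := by
  classical
  intro V _ _ c A G hG
  have himg : ∀ B ⊆ A, ((B ×ˢ B).filter (fun p => G.Adj p.1 p.2)).image
      (fun p => c s(p.1, p.2)) ⊆ cols c B := by
    intro B _ g hg
    rw [Finset.mem_image] at hg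
    obtain ⟨⟨a, b⟩, hab, rfl⟩ := hg
    rw [Finset.mem_filter, Finset.mem_product] at hab
    exact mem_cols.2 ⟨a, hab.1.1, b, hab.1.2, hab.2.ne, rfl⟩
  have hB : ∀ B ⊆ A, e2 G B ≤ 2 * (cols c B).card := by
    intro B hBA
    rw [e2_eq_card]
    calc _ ≤ 2 * (((B ×ˢ B).filter (fun p => G.Adj p.1 p.2)).image
          (fun p => c s(p.1, p.2))).card :=
          Finset.card_le_mul_card_image _ 2 (fun g _ => fiber_le c A G hG B g)
      _ ≤ 2 * (cols c B).card := Nat.mul_le_mul_left 2 (Finset.card_le_card (himg B hBA))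
  refine ⟨le_antisymm (hB A subset_rfl) ?_, hB, ?_, ?_⟩
  · have h1 : ((A ×ˢ A).filter (fun p => G.Adj p.1 p.2)).image
        (fun p => c s(p.1, p.2)) = cols c A := by
      refine Finset.Subset.antisymm (himg A subset_rfl) ?_
      intro g hg
      obtain ⟨x, hx, y, hy, hne, hc⟩ := mem_cols.1 hg
      obtain ⟨x', y', h, hc'⟩ := hG.sur x hx y hy hne
      rw [Finset.mem_image]
      refine ⟨(x', y'), ?_, by rw [hc']; exact hc⟩
      rw [Finset.mem_filter, Finset.mem_product]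
      exact ⟨hG.mem x' y' h, h⟩
    rw [e2_eq_card, ← h1]
    apply Finset.mul_card_image_le_card
    intro g hg
    rw [h1] at hg
    obtain ⟨x, hx, y, hy, hne, hc⟩ := mem_cols.1 hg
    obtain ⟨x', y', h, hc'⟩ := hG.sur x hx y hy hne
    have hne' : ((x', y') : V × V) ≠ (y', x') := by
      intro he
      rw [Prod.mk.injEq] at he
      exact h.ne he.1
    calc 2 = ({(x', y'), (y', x')} : Finset (V × V)).card := (Finset.card_pair hne').symm
      _ ≤ _ := by
        apply Finset.card_le_card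
        intro p hp
        rw [Finset.mem_insert, Finset.mem_singleton] at hp
        rw [Finset.mem_filter, Finset.mem_filter, Finset.mem_product]
        have hm := hG.mem x' y' h
        rcases hp with rfl | rfl
        · exact ⟨⟨hm, h⟩, by rw [hc']; exact hc⟩
        · exact ⟨⟨⟨hm.2, hm.1⟩, h.symm⟩, by
            show c s(y', x') = g
            rw [Sym2.eq_swap, hc']; exact hc⟩
  · intro T hT
    refine ⟨hT.sub, fun t ht => (hT.clq t ht).card_eq, hT.dis, ?_⟩
    intro t ht t' ht' x hx y hy x' hx' y' hy' hne hne' hc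
    exact hG.inj x y x' y' ((hT.clq t ht).isClique hx hy hne)
      ((hT.clq t' ht').isClique hx' hy' hne') hc
  · intro x hx y hy hne
    have h := swP_main c A G {s(x, y)} hG (by
      intro e he
      rw [Finset.mem_singleton] at he
      rw [he, Sym2.mk_isDiag_iff]
      exact hne) (by
      intro e he v hv
      rw [Finset.mem_singleton] at he
      rw [he, Sym2.mem_iff] at hv
      rcases hv with rfl | rfl
      · exact hx
      · exact hy) (by
      intro e he f hf _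
      rw [Finset.mem_singleton] at he hf
      rw [he, hf])
    rw [← sw_eq, Finset.card_singleton] at h
    refine ⟨h.1, ?_, h.2.1⟩
    exact ⟨hne, Or.inr rfl⟩

open J19_ in
theorem pSwM : tSwM := by
  classical
  intro V _ _ c G P hG hd hinj
  have h := swP_main c univ G P hG hd (fun _ _ v _ => Finset.mem_univ v) hinj
  refine ⟨swP c G P, h.1, h.2.1, h.2.2, ?_, ?_⟩
  · intro u v huv hc
    exact ⟨huv.ne, Or.inl ⟨huv, hc⟩⟩
  · intro u v huv
    rcases huv.2 with h | h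
    · exact Or.inl h.1
    · exact Or.inr h

namespace J19_

/-! ### Missing pairs -/

lemma miss_real {V : Type} (G : SimpleGraph V) (W Y : Finset V) :
    (miss G W Y : ℝ) = ∑ v ∈ W, ((Y.card : ℝ) - dg G Y v) := by
  unfold miss
  rw [Nat.cast_sub (eb_le G W Y), Finset.sum_sub_distrib, Finset.sum_const, nsmul_eq_mul]
  unfold eb
  push_cast
  ring

lemma miss_comm {V : Type} (G : SimpleGraph V) (W Y : Finset V) : miss G W Y = miss G Y W := by
  unfold miss
  rw [eb_comm, Nat.mul_comm]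

lemma nd_nonneg {V : Type} (G : SimpleGraph V) (Y : Finset V) (v : V) :
    (0 : ℝ) ≤ (Y.card : ℝ) - dg G Y v := by
  have h := dg_le_card G Y v
  have : (dg G Y v : ℝ) ≤ Y.card := by exact_mod_cast h
  linarith

/-- lower bound for the number of missing pairs -/
lemma miss_ge {V : Type} (G : SimpleGraph V) (W Y W' : Finset V) (hW : W' ⊆ W) (a : ℝ)
    (h : ∀ v ∈ W', (dg G Y v : ℝ) + a ≤ Y.card) : (W'.card : ℝ) * a ≤ miss G W Y := by
  rw [miss_real]
  calc (W'.card : ℝ) * a = ∑ _v ∈ W', a := by rw [Finset.sum_const, nsmul_eq_mul]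
    _ ≤ ∑ v ∈ W', ((Y.card : ℝ) - dg G Y v) := Finset.sum_le_sum fun v hv => by
        have := h v hv
        linarith
    _ ≤ ∑ v ∈ W, ((Y.card : ℝ) - dg G Y v) :=
        Finset.sum_le_sum_of_subset_of_nonneg hW fun v _ _ => nd_nonneg G Y v

lemma dg_Gm {V : Type} [DecidableEq V] (G : SimpleGraph V) (W S : Finset V) (v : V) :
    dg G W v ≤ dg (Gm G S) W v + dg G (W \ S) v := by
  classical
  rw [dg_def, dg_def, dg_def]
  refine le_trans (Finset.card_le_card ?_) (Finset.card_union_le _ _)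
  intro u hu
  rw [Finset.mem_filter] at hu
  rw [Finset.mem_union, Finset.mem_filter, Finset.mem_filter, Finset.mem_sdiff]
  by_cases hS : u ∈ S
  · exact Or.inl ⟨hu.1, hu.2, Or.inr hS⟩
  · exact Or.inr ⟨⟨hu.1, hS⟩, hu.2⟩

lemma dg_Gm' {V : Type} [DecidableEq V] (G : SimpleGraph V) (W S : Finset V) (v : V)
    (hv : v ∈ S) : dg G W v ≤ dg (Gm G S) W v := by
  classical
  rw [dg_def, dg_def]
  refine Finset.card_le_card ?_
  intro u hu
  rw [Finset.mem_filter] at hu ⊢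
  exact ⟨hu.1, hu.2, Or.inl hv⟩

lemma e2_Gm {V : Type} [DecidableEq V] (G : SimpleGraph V) (W S : Finset V) (hS : S ⊆ W) :
    e2 G W ≤ e2 (Gm G S) W + (W \ S).card * (W \ S).card := by
  unfold e2
  rw [← Finset.sum_sdiff hS, ← Finset.sum_sdiff hS (f := fun v => dg (Gm G S) W v)]
  have h1 : ∑ v ∈ W \ S, dg G W v ≤ ∑ v ∈ W \ S, dg (Gm G S) W v +
      (W \ S).card * (W \ S).card := by
    calc ∑ v ∈ W \ S, dg G W v ≤ ∑ v ∈ W \ S, (dg (Gm G S) W v + (W \ S).card) :=
          Finset.sum_le_sum fun v _ => by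
            have h1 := dg_Gm G W S v
            have h2 := dg_le_card G (W \ S) v
            omega
      _ = _ := by rw [Finset.sum_add_distrib, Finset.sum_const, smul_eq_mul]
  have h2 : ∑ v ∈ S, dg G W v ≤ ∑ v ∈ S, dg (Gm G S) W v :=
    Finset.sum_le_sum fun v hv => dg_Gm' G W S v hv
  omega

end J19_

open J19_ in
theorem pStar : tStar := by
  classical
  intro V _ _ G W Y S Lo a b hdis huni hS hLo ha hb h1 h2 h3 h4
  have e1 : (e2 G univ : ℝ) = e2 G W + 2 * eb G W Y + e2 G Y := by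
    rw [← huni, e2_union G hdis]
    push_cast
    ring
  have e3 : (miss G W Y : ℝ) = (W.card : ℝ) * Y.card - eb G W Y := by
    unfold miss
    rw [Nat.cast_sub (eb_le G W Y)]
    push_cast
    ring
  have e4 : (e2 G W : ℝ) ≤ e2 (Gm G S) W + ((W \ S).card : ℝ) * (W \ S).card := by
    exact_mod_cast e2_Gm G W S hS
  have e5 : (e2 G Y : ℝ) ≤ e2 G (Y \ Lo) + 2 * ((Lo.card : ℝ) * (b / 8)) := by
    have h := e2_sdiff' G hLo
    have h' : (e2 G Y : ℝ) + e2 G Lo = e2 G (Y \ Lo) + 2 * ∑ v ∈ Lo, (dg G Y v : ℝ) := by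
      exact_mod_cast h
    have h'' : ∑ v ∈ Lo, (dg G Y v : ℝ) ≤ (Lo.card : ℝ) * (b / 8) := by
      calc ∑ v ∈ Lo, (dg G Y v : ℝ) ≤ ∑ _v ∈ Lo, b / 8 :=
            Finset.sum_le_sum fun v hv => h4 v (hLo hv)
        _ = _ := by rw [Finset.sum_const, nsmul_eq_mul]
    have h0 : (0 : ℝ) ≤ e2 G Lo := Nat.cast_nonneg _
    linarith
  have e6 : ((W \ S).card : ℝ) * a ≤ miss G W Y :=
    miss_ge G W Y (W \ S) Finset.sdiff_subset a h1
  have e7 : (Lo.card : ℝ) * b ≤ miss G W Y := by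
    rw [miss_comm]
    exact miss_ge G Y W Lo hLo b h3
  have e8 : ((W \ S).card : ℝ) * (W \ S).card ≤ 2 / 5 * miss G W Y := by
    calc ((W \ S).card : ℝ) * (W \ S).card ≤ ((W \ S).card : ℝ) * (2 / 5 * a) :=
          mul_le_mul_of_nonneg_left h2 (Nat.cast_nonneg _)
      _ = 2 / 5 * (((W \ S).card : ℝ) * a) := by ring
      _ ≤ 2 / 5 * miss G W Y := by linarith
  have e9 : (0 : ℝ) ≤ miss G W Y := Nat.cast_nonneg _
  rw [e1]
  linarith

namespace J19_

lemma dg_le_add {V : Type} [DecidableEq V] (G : SimpleGraph V) (A B : Finset V) (v : V) :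
    (dg G A v : ℝ) ≤ dg G B v + (A \ B).card := by
  have h1 := dg_le_sdiff G A (A \ B) v
  have h2 : dg G (A \ (A \ B)) v ≤ dg G B v := dg_mono G (by
    intro x hx
    rw [Finset.mem_sdiff, Finset.mem_sdiff] at hx
    tauto) v
  have h3 : dg G A v ≤ dg G B v + (A \ B).card := by omega
  exact_mod_cast h3

open Classical in
lemma nd_eq {V : Type} (G : SimpleGraph V) (Y : Finset V) (v : V) :
    (Y.card : ℝ) - dg G Y v = (Y.filter (fun u => ¬ G.Adj v u)).card := by
  have h := Finset.card_filter_add_card_filter_not (s := Y) (fun u => G.Adj v u)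
  rw [dg_def]
  have h' : ((Y.filter (fun u => G.Adj v u)).card : ℝ) +
      (Y.filter (fun u => ¬ G.Adj v u)).card = Y.card := by exact_mod_cast h
  linarith

lemma nd_le_add {V : Type} [DecidableEq V] (G : SimpleGraph V) (A B : Finset V) (v : V) :
    (A.card : ℝ) - dg G A v ≤ ((B.card : ℝ) - dg G B v) + (A \ B).card := by
  classical
  rw [nd_eq, nd_eq]
  have h : (A.filter (fun u => ¬ G.Adj v u)).card ≤
      (B.filter (fun u => ¬ G.Adj v u)).card + (A \ B).card := by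
    refine le_trans (Finset.card_le_card ?_) (Finset.card_union_le _ _)
    intro u hu
    rw [Finset.mem_filter] at hu
    rw [Finset.mem_union, Finset.mem_filter, Finset.mem_sdiff]
    by_cases hB : u ∈ B
    · exact Or.inl ⟨hB, hu.2⟩
    · exact Or.inr ⟨hu.1, hB⟩
  exact_mod_cast h

end J19_

open J19_ in
theorem pPart : tPart := by
  classical
  intro θ μ hθ hθ' hμ
  have hM : (0 : ℝ) < 30 + 1 / (2 * θ) := by positivity
  refine ⟨min θ (min (1 / 150) (μ / 8)) / (30 + 1 / (2 * θ)), by positivity, 1, ?_⟩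
  generalize hη : min θ (min (1 / 150) (μ / 8)) / (30 + 1 / (2 * θ)) = η
  have hη0 : 0 < η := by rw [← hη]; positivity
  have hηM : η * (30 + 1 / (2 * θ)) = min θ (min (1 / 150) (μ / 8)) := by
    rw [← hη]; field_simp
  have hη1 : η * (30 + 1 / (2 * θ)) ≤ θ := by rw [hηM]; exact min_le_left _ _
  have hη2 : η * (30 + 1 / (2 * θ)) ≤ 1 / 150 := by
    rw [hηM]; exact (min_le_right _ _).trans (min_le_left _ _)
  have hη3 : η * (30 + 1 / (2 * θ)) ≤ μ / 8 := by
    rw [hηM]; exact (min_le_right _ _).trans (min_le_right _ _)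
  clear hη hηM
  have hq0 : 0 < 1 / (2 * θ) := by positivity
  intro V _ _ G k hn hN
  obtain ⟨Y₀, _, hY₀, hm, he⟩ := hN
  rw [Finset.card_univ] at hY₀ hm he
  have hn1 : (1 : ℝ) ≤ Fintype.card V := by exact_mod_cast hn
  set n : ℝ := (Fintype.card V : ℝ) with hndef
  have hn0 : 0 < n := by linarith
  set W : Finset V := univ.filter (fun v => 2 * θ * n ≤ dg G Y₀ v) with hW
  set Y : Finset V := univ \ W with hY
  have hmemY : ∀ v, v ∈ Y ↔ (dg G Y₀ v : ℝ) < 2 * θ * n := by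
    intro v
    rw [hY, Finset.mem_sdiff, hW, Finset.mem_filter]
    simp only [Finset.mem_univ, true_and, not_le]
  have hmemW : ∀ v, v ∈ W ↔ 2 * θ * n ≤ (dg G Y₀ v : ℝ) := by
    intro v
    rw [hW, Finset.mem_filter]
    simp only [Finset.mem_univ, true_and]
  -- the symmetric difference
  have hd1 : ((Y \ Y₀).card : ℝ) ≤ 30 * η * n := by
    have h := miss_ge G (univ \ Y₀) Y₀ (Y \ Y₀)
      (Finset.sdiff_subset_sdiff (Finset.subset_univ _) subset_rfl) (n / 30) (by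
        intro v hv
        rw [Finset.mem_sdiff, hmemY] at hv
        have h1 := hv.1
        have h2 : (0 : ℝ) ≤ (k : ℝ) := Nat.cast_nonneg _
        have h3 : θ * n ≤ 1 / 1000 * n := mul_le_mul_of_nonneg_right hθ' hn0.le
        linarith)
    have h2 : ((Y \ Y₀).card : ℝ) * (n / 30) ≤ (30 * η * n) * (n / 30) := by
      calc ((Y \ Y₀).card : ℝ) * (n / 30) ≤ η * n ^ 2 := h.trans hm
        _ = (30 * η * n) * (n / 30) := by ring
    exact le_of_mul_le_mul_right h2 (by positivity)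
  have hd2 : ((Y₀ \ Y).card : ℝ) ≤ η * (1 / (2 * θ)) * n := by
    have h : ((Y₀ \ Y).card : ℝ) * (2 * θ * n) ≤ e2 G Y₀ := by
      calc ((Y₀ \ Y).card : ℝ) * (2 * θ * n) = ∑ _v ∈ Y₀ \ Y, 2 * θ * n := by
            rw [Finset.sum_const, nsmul_eq_mul]
        _ ≤ ∑ v ∈ Y₀ \ Y, (dg G Y₀ v : ℝ) := Finset.sum_le_sum fun v hv => by
            rw [Finset.mem_sdiff, hmemY, not_lt] at hv
            exact hv.2
        _ ≤ ∑ v ∈ Y₀, (dg G Y₀ v : ℝ) :=
            Finset.sum_le_sum_of_subset_of_nonneg Finset.sdiff_subset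
              fun v _ _ => Nat.cast_nonneg _
        _ = e2 G Y₀ := by unfold e2; push_cast; rfl
    have h2 : ((Y₀ \ Y).card : ℝ) * (2 * θ * n) ≤ (η * (1 / (2 * θ)) * n) * (2 * θ * n) := by
      calc ((Y₀ \ Y).card : ℝ) * (2 * θ * n) ≤ η * n ^ 2 := h.trans he
        _ = (η * (1 / (2 * θ)) * n) * (2 * θ * n) := by field_simp
    exact le_of_mul_le_mul_right h2 (by positivity)
  have hc1 : (0 : ℝ) ≤ ((Y \ Y₀).card : ℝ) := Nat.cast_nonneg _
  have hc2 : (0 : ℝ) ≤ ((Y₀ \ Y).card : ℝ) := Nat.cast_nonneg _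
  have hsum : η * (30 + 1 / (2 * θ)) * n = 30 * η * n + η * (1 / (2 * θ)) * n := by ring
  have hs1 : 30 * η * n + η * (1 / (2 * θ)) * n ≤ θ * n := by
    rw [← hsum]; exact mul_le_mul_of_nonneg_right hη1 hn0.le
  have hs2 : 30 * η * n + η * (1 / (2 * θ)) * n ≤ 1 / 150 * n := by
    rw [← hsum]; exact mul_le_mul_of_nonneg_right hη2 hn0.le
  have hs3 : 30 * η * n + η * (1 / (2 * θ)) * n ≤ μ / 8 * n := by
    rw [← hsum]; exact mul_le_mul_of_nonneg_right hη3 hn0.le
  have hηn : η * n ≤ μ / 8 * n := by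
    have : 0 ≤ η * (1 / (2 * θ)) * n := by positivity
    have : 0 ≤ η * n := by positivity
    linarith
  have hηn2 : η * n ^ 2 ≤ μ / 8 * n ^ 2 := by
    calc η * n ^ 2 = (η * n) * n := by ring
      _ ≤ (μ / 8 * n) * n := mul_le_mul_of_nonneg_right hηn hn0.le
      _ = _ := by ring
  have hcardY : (Y.card : ℝ) ≤ n := by
    rw [hndef]; exact_mod_cast Finset.card_le_univ Y
  have hcardW : (W.card : ℝ) ≤ n := by
    rw [hndef]; exact_mod_cast Finset.card_le_univ W
  refine ⟨W, Y, ⟨Finset.disjoint_sdiff, ?_, ?_, ?_, ?_, ?_, ?_⟩⟩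
  · rw [hY]; exact Finset.union_sdiff_of_subset (Finset.subset_univ W)
  · -- p1
    have h1 : (miss G W Y : ℝ) ≤ (Y₀ \ Y).card * n + ((Y \ Y₀).card * n + η * n ^ 2) := by
      rw [miss_real]
      have hsplit : ∑ v ∈ W, ((Y.card : ℝ) - dg G Y v) =
          ∑ v ∈ W ∩ Y₀, ((Y.card : ℝ) - dg G Y v) + ∑ v ∈ W \ Y₀, ((Y.card : ℝ) - dg G Y v) :=
        (Finset.sum_inter_add_sum_sdiff W Y₀ _).symm
      rw [hsplit]
      apply add_le_add
      · calc ∑ v ∈ W ∩ Y₀, ((Y.card : ℝ) - dg G Y v) ≤ ∑ _v ∈ W ∩ Y₀, n :=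
              Finset.sum_le_sum fun v _ => by
                have : (0 : ℝ) ≤ dg G Y v := Nat.cast_nonneg _
                linarith
          _ = ((W ∩ Y₀).card : ℝ) * n := by rw [Finset.sum_const, nsmul_eq_mul]
          _ ≤ ((Y₀ \ Y).card : ℝ) * n := by
              apply mul_le_mul_of_nonneg_right _ hn0.le
              have : W ∩ Y₀ ⊆ Y₀ \ Y := by
                intro v hv
                rw [Finset.mem_inter] at hv
                rw [Finset.mem_sdiff, hmemY, not_lt]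
                exact ⟨hv.2, (hmemW v).1 hv.1⟩
              exact_mod_cast Finset.card_le_card this
      · calc ∑ v ∈ W \ Y₀, ((Y.card : ℝ) - dg G Y v)
            ≤ ∑ v ∈ W \ Y₀, (((Y₀.card : ℝ) - dg G Y₀ v) + (Y \ Y₀).card) :=
              Finset.sum_le_sum fun v _ => nd_le_add G Y Y₀ v
          _ = ∑ v ∈ W \ Y₀, ((Y₀.card : ℝ) - dg G Y₀ v) +
                ((W \ Y₀).card : ℝ) * (Y \ Y₀).card := by
              rw [Finset.sum_add_distrib, Finset.sum_const, nsmul_eq_mul]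
          _ ≤ η * n ^ 2 + (Y \ Y₀).card * n := by
              apply add_le_add
              · refine le_trans ?_ hm
                rw [miss_real]
                exact Finset.sum_le_sum_of_subset_of_nonneg
                  (Finset.sdiff_subset_sdiff (Finset.subset_univ _) subset_rfl)
                  fun v _ _ => nd_nonneg G Y₀ v
              · rw [mul_comm]
                apply mul_le_mul_of_nonneg_left _ hc1
                rw [hndef]; exact_mod_cast Finset.card_le_univ (W \ Y₀)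
          _ = _ := by ring
    have h2 : ((Y₀ \ Y).card : ℝ) * n + (Y \ Y₀).card * n ≤ μ / 8 * n * n := by
      rw [← add_mul]
      apply mul_le_mul_of_nonneg_right _ hn0.le
      linarith
    have h3 : 0 ≤ μ * n ^ 2 := by positivity
    have h4 : μ / 8 * n * n = μ / 8 * n ^ 2 := by ring
    linarith
  · -- p2
    intro w hw
    have h1 := (hmemW w).1 hw
    have h2 := dg_le_add G Y₀ Y w
    have h3 : 0 ≤ 30 * η * n := by positivity
    linarith
  · -- p3
    intro y hy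
    have h1 := (hmemY y).1 hy
    have h2 := dg_le_add G Y Y₀ y
    have h3 : 0 ≤ η * (1 / (2 * θ)) * n := by positivity
    linarith
  · -- p4
    have h1 : Y₀.card ≤ Y.card + (Y₀ \ Y).card := by
      have h := Finset.card_le_card (s := Y₀) (t := Y ∪ (Y₀ \ Y)) (by
        rw [Finset.union_sdiff_self_eq_union]
        exact Finset.subset_union_right)
      exact h.trans (Finset.card_union_le _ _)
    have h2 : (Y₀.card : ℝ) ≤ Y.card + (Y₀ \ Y).card := by exact_mod_cast h1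
    have h3 : 0 ≤ 30 * η * n := by positivity
    linarith
  · -- p5
    have h1 := e2_sdiff' G (A := Y) (B := Y \ Y₀) Finset.sdiff_subset
    have h1' : (e2 G Y : ℝ) + e2 G (Y \ Y₀) = e2 G (Y \ (Y \ Y₀)) +
        2 * ∑ v ∈ Y \ Y₀, (dg G Y v : ℝ) := by exact_mod_cast h1
    have h2 : (e2 G (Y \ (Y \ Y₀)) : ℝ) ≤ e2 G Y₀ := by
      have : e2 G (Y \ (Y \ Y₀)) ≤ e2 G Y₀ := e2_mono G (by
        rw [Finset.sdiff_sdiff_self_left]
        exact Finset.inter_subset_right)
      exact_mod_cast this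
    have h3 : ∑ v ∈ Y \ Y₀, (dg G Y v : ℝ) ≤ (Y \ Y₀).card * n := by
      calc ∑ v ∈ Y \ Y₀, (dg G Y v : ℝ) ≤ ∑ _v ∈ Y \ Y₀, n := Finset.sum_le_sum fun v _ => by
            have : (dg G Y v : ℝ) ≤ Y.card := by exact_mod_cast dg_le_card G Y v
            linarith
        _ = _ := by rw [Finset.sum_const, nsmul_eq_mul]
    have h4 : (0 : ℝ) ≤ e2 G (Y \ Y₀) := Nat.cast_nonneg _
    have h5 : ((Y \ Y₀).card : ℝ) * n ≤ μ / 8 * n * n := by
      apply mul_le_mul_of_nonneg_right _ hn0.le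
      have : 0 ≤ η * (1 / (2 * θ)) * n := by positivity
      linarith
    have h6 : 0 ≤ μ * n ^ 2 := by positivity
    have h7 : μ / 8 * n * n = μ / 8 * n ^ 2 := by ring
    linarith

end Pool.Agent.ART
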