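import Pool.Agent.ART.Basic
import Pool.Agent.ART.Targets

set_option autoImplicit false

/-! J2: the two basic inequalities and Lemma B. -/

namespace Pool.Agent.ART

open Finset

theorem pCore (h : tLexFacts) : tCore := by
  intro V _ _ G A T M hL
  obtain ⟨-, -, h3, h4, -, h6, h7⟩ := h V G A T M hL
  obtain ⟨c1, c2⟩ := hL.pm.cards
  have hsub : vT T ⊆ A := hL.pm.tf.vT_sub
  constructor
  · intro hM S hS
    have e1 : M.card * S ≤ ∑ p ∈ M, (dg G A p.1 + dg G A p.2) := by
      rw [← smul_eq_mul, ← Finset.sum_const]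
      exact Finset.sum_le_sum hS
    have e2 : ∑ p ∈ M, (dg G A p.1 + dg G A p.2) =
        ∑ p ∈ M, (dg G (A \ vT T) p.1 + dg G (A \ vT T) p.2) +
          ∑ p ∈ M, (dg G (vT T) p.1 + dg G (vT T) p.2) := by
      rw [← Finset.sum_add_distrib]
      refine Finset.sum_congr rfl fun p _ => ?_
      have a1 := dg_sdiff G hsub p.1
      have a2 := dg_sdiff G hsub p.2
      omega
    have e3 : ∑ p ∈ M, (dg G (A \ vT T) p.1 + dg G (A \ vT T) p.2) ≤
        M.card * (A \ vT T).card := by
      rw [← smul_eq_mul, ← Finset.sum_const]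
      exact Finset.sum_le_sum h6
    have e4 : ∑ p ∈ M, (dg G (vT T) p.1 + dg G (vT T) p.2) =
        ∑ t ∈ T, ∑ x ∈ t, dg G (vM M) x := by
      rw [← hL.pm.mf.sum_dg (vT T), ← hL.pm.tf.sum_dg (vM M)]
      exact eb_comm G (vT T) (vM M)
    have e5 : ∑ t ∈ T, ∑ x ∈ t, dg G (vM M) x ≤ T.card * (4 * M.card) := by
      rw [← smul_eq_mul, ← Finset.sum_const]
      exact Finset.sum_le_sum (h4 hM)
    have e6 : M.card * S ≤ M.card * ((A \ vT T).card + 4 * T.card) := by
      calc M.card * S ≤ M.card * (A \ vT T).card + T.card * (4 * M.card) := by omega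
        _ = M.card * ((A \ vT T).card + 4 * T.card) := by ring
    have e7 := Nat.le_of_mul_le_mul_left e6 (by omega)
    omega
  · intro δ hδ
    set I := (A \ vT T) \ vM M with hI
    have e1 : I.card * δ ≤ ∑ w ∈ I, dg G A w := by
      rw [← smul_eq_mul, ← Finset.sum_const]
      exact Finset.sum_le_sum hδ
    have e2 : ∑ w ∈ I, dg G A w = ∑ w ∈ I, dg G (A \ vT T) w + ∑ w ∈ I, dg G (vT T) w := by
      rw [← Finset.sum_add_distrib]
      refine Finset.sum_congr rfl fun w _ => ?_
      exact (dg_sdiff G hsub w).symm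
    have e3 : ∑ w ∈ I, dg G (A \ vT T) w ≤ I.card * M.card := by
      rw [← smul_eq_mul, ← Finset.sum_const]
      exact Finset.sum_le_sum h7
    have e4 : ∑ w ∈ I, dg G (vT T) w = ∑ t ∈ T, ∑ x ∈ t, dg G I x := hL.pm.tf.sum_dg I
    have e5 : ∑ t ∈ T, ∑ x ∈ t, dg G I x ≤ T.card * (2 * I.card + 1) := by
      rw [← smul_eq_mul, ← Finset.sum_const]
      exact Finset.sum_le_sum h3
    omega

theorem pLemB (h1 : tLexEx) (_h2 : tLexFacts) (h3 : tCore) : tLemB := by
  intro V _ _ G A k C hd hk ht hn hC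
  obtain ⟨T, M, hL⟩ := h1 V G A
  by_cases hT : k + 1 ≤ T.card
  · exact HasT.le ⟨T, hL.pm.tf, rfl⟩ hT
  exfalso
  have hT' : T.card ≤ k := by omega
  obtain ⟨c1, c2⟩ := hL.pm.cards
  obtain ⟨g1, g2⟩ := h3 V G A T M hL
  have hRA : A \ vT T ⊆ A := Finset.sdiff_subset
  -- degree sums along the matching
  have hS : ∀ p ∈ M, A.card + k + 1 ≤ dg G A p.1 + dg G A p.2 := by
    intro p hp
    obtain ⟨m1, m2, m3⟩ := hL.pm.mf.mem p hp
    have a1 := hd p.1 (hRA m1)
    have a2 := hd p.2 (hRA m2)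
    classical
    have hne : ((A.filter (fun u => G.Adj p.1 u)) ∩ (A.filter (fun u => G.Adj p.2 u))).Nonempty := by
      rw [← Finset.card_pos]
      have b1 := Finset.card_inter_add_card_union (A.filter (fun u => G.Adj p.1 u))
        (A.filter (fun u => G.Adj p.2 u))
      have b2 : ((A.filter (fun u => G.Adj p.1 u)) ∪ (A.filter (fun u => G.Adj p.2 u))).card
          ≤ A.card := by
        apply Finset.card_le_card
        apply Finset.union_subset
        · exact Finset.filter_subset _ _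
        · exact Finset.filter_subset _ _
      have b3 : dg G A p.1 = (A.filter (fun u => G.Adj p.1 u)).card := by
        rw [dg_def]
      have b4 : dg G A p.2 = (A.filter (fun u => G.Adj p.2 u)).card := by
        rw [dg_def]
      omega
    obtain ⟨z, hz⟩ := hne
    rw [Finset.mem_inter, Finset.mem_filter, Finset.mem_filter] at hz
    have htri : Tri G p.1 p.2 z := ⟨m3, hz.2.2, hz.1.2⟩
    have a3 := ht p.1 (hRA m1) p.2 (hRA m2) z hz.1.1 htri
    have a4 := dg_lt_card G hz.1.1
    omega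
  have hM : M.card ≤ 2 := by
    by_contra hM
    have := g1 (by omega) _ hS
    omega
  have hI := g2 (2 * k + C) (by
    intro w hw
    exact hk w (hRA (Finset.sdiff_subset hw)))
  set i := ((A \ vT T) \ vM M).card with hi
  have hin : A.card - 3 * k - 4 ≤ i := by omega
  have e1 : T.card * (2 * i + 1) ≤ k * (2 * i + 1) := Nat.mul_le_mul_right _ hT'
  have e2 : i * M.card ≤ i * 2 := Nat.mul_le_mul_left _ hM
  have e3 : i * (2 * k + C) ≤ k * (2 * i + 1) + i * 2 := by omega
  have hC2 : 2 ≤ C := by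
    by_contra h0
    have h4 : C - 2 = 0 := by omega
    rw [h4, Nat.mul_zero] at hC
    exact absurd hC (Nat.not_lt_zero _)
  obtain ⟨D, rfl⟩ : ∃ D, C = D + 2 := ⟨C - 2, by omega⟩
  have e4 : D + 2 - 2 = D := by omega
  rw [e4] at hC
  have e5 : i * D ≤ k := by nlinarith
  have e6 : (A.card - 3 * k - 4) * D ≤ i * D := Nat.mul_le_mul_right _ hin
  omega

end Pool.Agent.ART
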