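import Pool.Agent.ART.Basic
import Pool.Agent.ART.Targets

set_option autoImplicit false
set_option linter.unusedSectionVars false

/-! J21: exact analysis, many vertices in `W` (MP_e56f3d_co), see Blueprint.lean.txt. -/

namespace Pool.Agent.ART

open Finset

namespace J21

lemma two_choose (n : ℕ) : 2 * (n + 1).choose 2 = (n + 1) * n := by
  induction n with
  | zero => simp
  | succ n ih =>
    rw [Nat.choose_succ_succ' (n + 1) 1, Nat.choose_one_right, mul_add, ih]
    ring

lemma two_choose' (n : ℕ) : (2 * n.choose 2 : ℤ) = n * (n - 1) := by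
  cases n with
  | zero => simp
  | succ n =>
    have := two_choose n
    have h2 : ((2 * (n + 1).choose 2 : ℕ) : ℤ) = ((n + 1) * n : ℕ) := by exact_mod_cast this
    push_cast at h2 ⊢
    rw [h2]
    ring

lemma EG_succ {w ν : ℕ} (h : 2 * ν + 3 ≤ w) : 2 * EG w ν + w ≤ 2 * EG w (ν + 1) := by
  unfold EG
  have hw : ν ≤ w := by omega
  obtain ⟨z, hz⟩ : ∃ z, w = ν + 1 + z := ⟨w - ν - 1, by omega⟩
  have e1 := two_choose (2 * ν)
  have e2 := two_choose' ν
  have e3 := two_choose (2 * (ν + 1))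
  have e4 := two_choose ν
  have h5 : w - ν = z + 1 := by omega
  have h6 : w - (ν + 1) = z := by omega
  rw [h5, h6]
  rcases le_total ((2 * ν + 1).choose 2) (ν.choose 2 + ν * (z + 1)) with h7 | h7
  · rw [max_eq_right h7]
    have h8 := le_max_right ((2 * (ν + 1) + 1).choose 2) ((ν + 1).choose 2 + (ν + 1) * z)
    refine le_trans ?_ (Nat.mul_le_mul_left 2 h8)
    have : (2 * (ν.choose 2 + ν * (z + 1)) + w : ℤ) ≤ 2 * ((ν + 1).choose 2 + (ν + 1) * z) := by
      have e4' : (2 * ((ν + 1).choose 2 : ℤ)) = (ν + 1) * ν := by exact_mod_cast e4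
      have e5 : (w : ℤ) = ν + 1 + z := by exact_mod_cast hz
      have e6 : (ν : ℤ) + 1 ≤ z := by omega
      linarith
    exact_mod_cast this
  · rw [max_eq_left h7]
    rcases Nat.eq_zero_or_pos ν with h0 | h0
    · subst h0
      have h8 := le_max_right ((2 * (0 + 1) + 1).choose 2) ((0 + 1).choose 2 + (0 + 1) * z)
      refine le_trans ?_ (Nat.mul_le_mul_left 2 h8)
      have : (2 * 0 + 1).choose 2 = 0 := by decide
      rw [this]
      omega
    · have h8 := le_max_left ((2 * (ν + 1) + 1).choose 2) ((ν + 1).choose 2 + (ν + 1) * z)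
      refine le_trans ?_ (Nat.mul_le_mul_left 2 h8)
      rw [e1, e3]
      have h9 : (ν * (ν - 1) + 2 * (ν * (z + 1)) : ℤ) ≤ (2 * ν + 1) * (2 * ν) := by
        have h10 : (2 * (ν.choose 2 + ν * (z + 1)) : ℤ) ≤ 2 * (2 * ν + 1).choose 2 := by
          exact_mod_cast Nat.mul_le_mul_left 2 h7
        have e1' : (2 * ((2 * ν + 1).choose 2 : ℤ)) = (2 * ν + 1) * (2 * ν) := by
          exact_mod_cast e1
        rw [e1', mul_add, e2] at h10
        linarith
      have h11 : ((ν : ℤ) - 1) + 2 * (z + 1) ≤ 2 * (2 * ν + 1) := by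
        have hν : (0 : ℤ) < ν := by exact_mod_cast h0
        by_contra hcon
        push Not at hcon
        have := mul_lt_mul_of_pos_left hcon hν
        nlinarith
      have : ((2 * ν + 1) * (2 * ν) + w : ℤ) ≤ (2 * (ν + 1) + 1) * (2 * (ν + 1)) := by
        rw [hz]
        push_cast
        nlinarith
      exact_mod_cast this

lemma EG_chain {w k : ℕ} (hw : 2 * k + 1 ≤ w) (b : ℕ) (hb : b + 1 ≤ k) :
    2 * EG w (k - (b + 1)) + b * w ≤ 2 * EG w (k - 1) := by
  induction b with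
  | zero => simp
  | succ b ih =>
    have h1 := ih (by omega)
    have h2 := EG_succ (w := w) (ν := k - (b + 1 + 1)) (by omega)
    have h3 : k - (b + 1 + 1) + 1 = k - (b + 1) := by omega
    rw [h3] at h2
    rw [Nat.add_mul, Nat.one_mul]
    omega

variable {V : Type} [Fintype V] [DecidableEq V]

lemma miss_cast (G : SimpleGraph V) (W Y : Finset V) :
    (miss G W Y : ℝ) = ∑ v ∈ W, ((Y.card : ℝ) - dg G Y v) := by
  unfold miss
  rw [Nat.cast_sub (eb_le G W Y), Finset.sum_sub_distrib, Finset.sum_const, nsmul_eq_mul]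
  unfold eb
  push_cast
  rfl

lemma miss_comm (G : SimpleGraph V) (W Y : Finset V) : miss G W Y = miss G Y W := by
  unfold miss
  rw [eb_comm, mul_comm]

lemma miss_ge {G : SimpleGraph V} {W Y X : Finset V} (hX : X ⊆ W) {a : ℝ}
    (h : ∀ v ∈ X, (dg G Y v : ℝ) + a ≤ Y.card) : (X.card : ℝ) * a ≤ miss G W Y := by
  rw [miss_cast]
  calc (X.card : ℝ) * a = ∑ _v ∈ X, a := by rw [Finset.sum_const, nsmul_eq_mul]
    _ ≤ ∑ v ∈ X, ((Y.card : ℝ) - dg G Y v) := Finset.sum_le_sum fun v hv => by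
        have := h v hv
        linarith
    _ ≤ ∑ v ∈ W, ((Y.card : ℝ) - dg G Y v) :=
        Finset.sum_le_sum_of_subset_of_nonneg hX fun v _ _ => by
          have : (dg G Y v : ℝ) ≤ Y.card := by exact_mod_cast dg_le_card G Y v
          linarith

lemma hasM_insert {G : SimpleGraph V} {A : Finset V} {M : Finset (V × V)} (hM : MF G A M)
    {x y : V} (hx : x ∈ A) (hy : y ∈ A) (hxM : x ∉ vM M) (hyM : y ∉ vM M) (hxy : G.Adj x y) :
    HasM G A (M.card + 1) := by
  have h1 : ∀ p ∈ M, x ≠ p.1 ∧ x ≠ p.2 ∧ y ≠ p.1 ∧ y ≠ p.2 := by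
    intro p hp
    refine ⟨?_, ?_, ?_, ?_⟩
    · exact fun h => hxM (mem_vM.2 ⟨p, hp, Or.inl h⟩)
    · exact fun h => hxM (mem_vM.2 ⟨p, hp, Or.inr h⟩)
    · exact fun h => hyM (mem_vM.2 ⟨p, hp, Or.inl h⟩)
    · exact fun h => hyM (mem_vM.2 ⟨p, hp, Or.inr h⟩)
  refine ⟨insert (x, y) M, ⟨?_, ?_⟩, ?_⟩
  · intro p hp
    rcases Finset.mem_insert.1 hp with rfl | hp
    · exact ⟨hx, hy, hxy⟩
    · exact hM.mem p hp
  · intro p hp q hq hpq
    rcases Finset.mem_insert.1 hp with rfl | hp <;> rcases Finset.mem_insert.1 hq with rfl | hq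
    · exact absurd rfl hpq
    · obtain ⟨a1, a2, a3, a4⟩ := h1 q hq
      exact ⟨a1, a2, a3, a4⟩
    · obtain ⟨a1, a2, a3, a4⟩ := h1 p hp
      exact ⟨a1.symm, a3.symm, a2.symm, a4.symm⟩
    · exact hM.dis p hp q hq hpq
  · rw [Finset.card_insert_of_notMem]
    intro h
    exact (h1 _ h).1 rfl

lemma e2_cover {G : SimpleGraph V} {A : Finset V} {M : Finset (V × V)} (hM : MF G A M)
    (hmax : ¬ HasM G A (M.card + 1)) : e2 G A ≤ 2 * ∑ v ∈ vM M, dg G A v := by
  have h1 := e2_sdiff' G hM.vM_sub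
  have h2 : e2 G (A \ vM M) = 0 := by
    unfold e2
    apply Finset.sum_eq_zero
    intro v hv
    rw [dg_eq_zero_iff]
    intro u hu hvu
    rw [mem_sdiff] at hv hu
    exact hmax (hasM_insert hM hv.1 hu.1 hv.2 hu.2 hvu)
  omega

/-- all degrees differ by at most `q` -/
def Nr (q : ℕ) (G G' : SimpleGraph V) : Prop :=
  ∀ (A : Finset V) (v : V), dg G A v ≤ dg G' A v + q ∧ dg G' A v ≤ dg G A v + q

lemma Nr.trans {p q : ℕ} {G G' G'' : SimpleGraph V} (h : Nr p G G') (h' : Nr q G' G'') :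
    Nr (p + q) G G'' := fun A v => by
  have h1 := h A v
  have h2 := h' A v
  omega

lemma Nr.mono {p q : ℕ} {G G' : SimpleGraph V} (h : Nr p G G') (hpq : p ≤ q) :
    Nr q G G' := fun A v => by
  have h1 := h A v
  omega

lemma sw_nr {c : Sym2 V → ℕ} {G : SimpleGraph V} (hG : Rep c univ G) (x y : V) :
    Nr 1 G (sw c G x y) := by
  classical
  intro A v
  rw [dg_def, dg_def]
  constructor
  · have h1 : (A.filter (fun u => G.Adj v u)) ⊆ (A.filter (fun u => (sw c G x y).Adj v u)) ∪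
        (A.filter (fun u => G.Adj v u ∧ c s(v, u) = c s(x, y))) := by
      intro u hu
      rw [mem_filter] at hu
      rw [mem_union, mem_filter, mem_filter]
      by_cases hc : c s(v, u) = c s(x, y)
      · exact Or.inr ⟨hu.1, hu.2, hc⟩
      · exact Or.inl ⟨hu.1, hu.2.ne, Or.inl ⟨hu.2, hc⟩⟩
    have h2 : (A.filter (fun u => G.Adj v u ∧ c s(v, u) = c s(x, y))).card ≤ 1 := by
      rw [Finset.card_le_one]
      intro a ha b hb
      rw [mem_filter] at ha hb
      have h3 := hG.inj v a v b ha.2.1 hb.2.1 (ha.2.2.trans hb.2.2.symm)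
      exact Sym2.congr_right.1 h3
    exact (Finset.card_le_card h1).trans ((Finset.card_union_le _ _).trans (by omega))
  · have h1 : (A.filter (fun u => (sw c G x y).Adj v u)) ⊆ (A.filter (fun u => G.Adj v u)) ∪
        (A.filter (fun u => s(v, u) = s(x, y))) := by
      intro u hu
      rw [mem_filter] at hu
      rw [mem_union, mem_filter, mem_filter]
      rcases hu.2.2 with h | h
      · exact Or.inl ⟨hu.1, h.1⟩
      · exact Or.inr ⟨hu.1, h⟩
    have h2 : (A.filter (fun u => s(v, u) = s(x, y))).card ≤ 1 := by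
      rw [Finset.card_le_one]
      intro a ha b hb
      rw [mem_filter] at ha hb
      exact Sym2.congr_right.1 (ha.2.trans hb.2.symm)
    exact (Finset.card_le_card h1).trans ((Finset.card_union_le _ _).trans (by omega))

/-- bonus edges together with a matching give many triangles -/
lemma bonusA (hTI : tTileI) {G' : SimpleGraph V} {W Y S B : Finset V} {k : ℕ} {n θ η : ℝ}
    (hWY : Disjoint W Y) (hBY : B ⊆ Y)
    (hS : ∀ v ∈ S, (Y.card : ℝ) ≤ dg G' Y v + (θ * n / 20 + 2))
    (hWS : ((W \ S).card : ℝ) ≤ θ * n / 50)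
    (hW : ∀ v ∈ W, θ * n - 2 ≤ dg G' Y v)
    (hB : ∀ v ∈ B, (W.card : ℝ) ≤ dg G' W v + (η * n / 8 + 2))
    (hwk : 2 * (k : ℝ) + η * n ≤ W.card) (hyk : (k : ℝ) + n / 30 ≤ Y.card)
    (hθn : 1000000 ≤ θ * n) (h1 : 1000 * (θ * n) ≤ η * n) (h2 : 1000 * (θ * n) ≤ n)
    {m b : ℕ} (hMB : HasM G' B b) (hM : HasM (Gm G' S) W m) (hb : (b : ℝ) ≤ θ * n / 1000)
    (hmb : m + b = k + 1) (hb1 : 1 ≤ b) : HasT G' univ (k + 1) := by
  classical
  obtain ⟨M, hM, hMc⟩ := hM
  obtain ⟨MB, hMB, hMBc⟩ := hMB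
  have hM' : MF G' W M := ⟨fun p hp => ⟨(hM.mem p hp).1, (hM.mem p hp).2.1, (hM.mem p hp).2.2.1⟩,
    hM.dis⟩
  have hvM := hM'.card_vM
  have hmk : m ≤ k := by omega
  have hmkR : (m : ℝ) ≤ k := by exact_mod_cast hmk
  -- first the bonus triangles
  set U : Finset V := W \ vM M with hU
  have hUc : U.card + 2 * m = W.card := by
    rw [hU, Finset.card_sdiff_of_subset hM'.vM_sub, hvM, hMc]
    have := Finset.card_le_card hM'.vM_sub
    rw [hvM, hMc] at this
    omega
  have hUcR : (U.card : ℝ) + 2 * m = W.card := by exact_mod_cast hUc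
  set d' : ℕ := ⌈η * n / 8 + 2⌉₊ with hd'
  have hd'1 : η * n / 8 + 2 ≤ d' := Nat.le_ceil _
  have hd'2 : (d' : ℝ) < η * n / 8 + 2 + 1 := Nat.ceil_lt_add_one (by linarith)
  have hUge : η * n ≤ U.card := by linarith
  have hdU : ∀ v ∈ B, U.card ≤ dg G' U v + d' := by
    intro v hv
    have h3 : dg G' W v = dg G' U v + dg G' (vM M) v := (dg_sdiff G' hM'.vM_sub v).symm
    have h4 := dg_le_card G' (vM M) v
    rw [hvM, hMc] at h4
    have h5 := hB v hv
    have h6 : (W.card : ℝ) ≤ dg G' W v + d' := by linarith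
    have h7 : W.card ≤ dg G' W v + d' := by exact_mod_cast h6
    omega
  have hT0 : HasT G' (B ∪ U) (MB.card + (∅ : Finset (Finset V)).card) := by
    refine hTI V G' (B ∪ U) B U MB ∅ 0 d' (U.card - d') subset_union_left subset_union_right ?_
      hMB ⟨by simp, by simp, by simp⟩ ?_ (by simp) ?_ ?_ ?_ ?_ ?_
    · refine Finset.disjoint_of_subset_left hBY ?_
      exact (Finset.disjoint_of_subset_left (Finset.sdiff_subset) hWY).symm
    · unfold vT; simp
    · intro v hv
      have := hdU v hv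
      omega
    · rw [Nat.le_zero, Finset.card_eq_zero, Finset.filter_eq_empty_iff]
      intro v hv
      have := hdU v hv
      omega
    · intro p hp
      exact Or.inl (hdU _ (hMB.mem p hp).1)
    · have : (d' : ℝ) + d' ≤ U.card := by linarith
      have : d' + d' ≤ U.card := by exact_mod_cast this
      omega
    · have : (2 * d' + b : ℝ) ≤ U.card := by linarith
      have : 2 * d' + b ≤ U.card := by exact_mod_cast this
      omega
  rw [Finset.card_empty, add_zero, hMBc] at hT0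
  obtain ⟨T₀, hT₀, hT₀c⟩ := hT0
  -- main application
  set d : ℕ := ⌈θ * n / 20 + 4⌉₊ with hd
  have hd1 : θ * n / 20 + 4 ≤ d := Nat.le_ceil _
  have hd2 : (d : ℝ) < θ * n / 20 + 4 + 1 := Nat.ceil_lt_add_one (by linarith)
  set a : ℕ := ⌈θ * n / 50⌉₊ with ha
  have ha1 : θ * n / 50 ≤ a := Nat.le_ceil _
  have ha2 : (a : ℝ) < θ * n / 50 + 1 := Nat.ceil_lt_add_one (by linarith)
  set D : ℕ := ⌊θ * n - 2⌋₊ with hD
  have hD1 : (D : ℝ) ≤ θ * n - 2 := Nat.floor_le (by linarith)
  have hD2 : θ * n - 2 < D + 1 := Nat.lt_floor_add_one _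
  have hdS : ∀ v ∈ S, Y.card ≤ dg G' Y v + d := by
    intro v hv
    have h3 := hS v hv
    have : (Y.card : ℝ) ≤ dg G' Y v + d := by linarith
    exact_mod_cast this
  have hmain : HasT G' univ (M.card + T₀.card) := by
    refine hTI V G' univ W Y M T₀ a d D (subset_univ _) (subset_univ _) hWY hM'
      (hT₀.mono (subset_univ _)) ?_ ?_ ?_ ?_ ?_ ?_ ?_
    · have h3 := hT₀.vT_sub
      rw [Finset.disjoint_left]
      intro v hv hv'
      rcases Finset.mem_union.1 (h3 hv) with h4 | h4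
      · exact (Finset.disjoint_left.1 hWY) (hM'.vM_sub hv') (hBY h4)
      · rw [hU, mem_sdiff] at h4
        exact h4.2 hv'
    · rw [hT₀c]
      have : (b : ℝ) ≤ a := by linarith
      exact_mod_cast this
    · intro v hv
      have h3 := hW v hv
      have : (D : ℝ) ≤ dg G' Y v := by linarith
      exact_mod_cast this
    · have h3 : W.filter (fun w => dg G' Y w + d < Y.card) ⊆ W \ S := by
        intro v hv
        rw [mem_filter] at hv
        rw [mem_sdiff]
        refine ⟨hv.1, fun hvS => ?_⟩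
        have := hdS v hvS
        omega
      have h4 : (((W.filter (fun w => dg G' Y w + d < Y.card)).card : ℕ) : ℝ) ≤ a := by
        have h5 : ((W.filter (fun w => dg G' Y w + d < Y.card)).card : ℝ) ≤ (W \ S).card := by
          exact_mod_cast Finset.card_le_card h3
        linarith
      exact_mod_cast h4
    · intro p hp
      rcases (hM.mem p hp).2.2.2 with h3 | h3
      · exact Or.inl (hdS _ h3)
      · exact Or.inr (hdS _ h3)
    · have : (d : ℝ) + 4 * a ≤ D := by linarith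
      exact_mod_cast this
    · have : (2 * d + 3 * a + m : ℝ) ≤ Y.card := by linarith
      have : 2 * d + 3 * a + m ≤ Y.card := by exact_mod_cast this
      rw [hMc]
      exact this
  rw [hMc, hT₀c, hmb] at hmain
  exact hmain

/-- the number of colours with `b` bonus edges -/
lemma bonusE (hEG : tEG) (hTI : tTileI) (hRE : tRepE) (hSt : tStar) {c : Sym2 V → ℕ}
    {G' : SimpleGraph V} (hG' : Rep c univ G') {W Y S Lo : Finset V} {k : ℕ} {n θ η : ℝ}
    (hk : ¬ HasR c univ (k + 1)) (hk1 : 1 ≤ k)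
    (hWY : Disjoint W Y) (huni : W ∪ Y = univ) (hSW : S ⊆ W) (hLoY : Lo ⊆ Y)
    (hS : ∀ v ∈ S, (Y.card : ℝ) ≤ dg G' Y v + (θ * n / 20 + 2))
    (hS' : ∀ v ∈ W \ S, dg G' Y v + (θ * n / 20 - 2) ≤ (Y.card : ℝ))
    (hWS : ((W \ S).card : ℝ) ≤ θ * n / 100)
    (hW : ∀ v ∈ W, θ * n - 2 ≤ dg G' Y v)
    (hB : ∀ v ∈ Y \ Lo, (W.card : ℝ) ≤ dg G' W v + (η * n / 8 + 2))
    (hB' : ∀ v ∈ Lo, dg G' W v + (η * n / 8 - 2) ≤ (W.card : ℝ))
    (hY : ∀ v ∈ Y, dg G' Y v ≤ 4 * (θ * n) + 2)
    (hwk : 2 * (k : ℝ) + η * n ≤ W.card) (hyk : (k : ℝ) + n / 30 ≤ Y.card)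
    (hθn : 1000000 ≤ θ * n) (h1 : 1000 * (θ * n) ≤ η * n) (h2 : 1000 * (θ * n) ≤ n)
    {b : ℕ} (hb : ((b + 1 : ℕ) : ℝ) ≤ θ * n / 1000) (hMB : HasM G' (Y \ Lo) (b + 1)) :
    b + 1 ≤ k ∧ 2 * (cols c univ).card + b * W.card ≤
      2 * EG W.card (k - 1) + 2 * (W.card * Y.card) + e2 G' (Y \ Lo) := by
  obtain ⟨r1, r2, r3, r4⟩ := hRE V c univ G' hG'
  have noT : ¬ HasT G' univ (k + 1) := by
    rintro ⟨T, hT, hTc⟩
    exact hk ⟨T, r3 T hT, hTc⟩
  have key : ∀ m b' : ℕ, b' ≤ b + 1 → 1 ≤ b' → m + b' = k + 1 → ¬ HasM (Gm G' S) W m := by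
    intro m b' hb' hb1 hmb hM
    have hbR : (b' : ℝ) ≤ θ * n / 1000 := by
      have : (b' : ℝ) ≤ ((b + 1 : ℕ) : ℝ) := by exact_mod_cast hb'
      linarith
    exact noT (bonusA hTI (B := Y \ Lo) hWY sdiff_subset hS (by linarith) hW hB hwk hyk hθn h1 h2
      (hMB.le hb') hM hbR hmb hb1)
  have hbk : b + 1 ≤ k := by
    by_contra hcon
    exact key 0 (k + 1) (by omega) (by omega) (by omega)
      ⟨∅, ⟨by simp, by simp⟩, by simp⟩
  refine ⟨hbk, ?_⟩
  have hk2 : 2 * k + 1 ≤ W.card := by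
    have : (2 * k + 1 : ℝ) ≤ W.card := by linarith
    exact_mod_cast this
  have hE1 : e2 (Gm G' S) W ≤ 2 * EG W.card (k - (b + 1)) :=
    hEG V (Gm G' S) W (k - (b + 1)) (by omega)
      (key (k - (b + 1) + 1) (b + 1) le_rfl (by omega) (by omega))
  have hE2 := EG_chain hk2 b hbk
  have hE3 := hSt V G' W Y S Lo (θ * n / 20 - 2) (η * n / 8 - 2) hWY huni hSW hLoY
    (by linarith) (by linarith) hS' (by linarith) hB' (by
      intro y hy
      have := hY y hy
      linarith)
  rw [r1] at hE3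
  have h5 : (0 : ℝ) ≤ miss G' W Y := Nat.cast_nonneg _
  have hE4 : ((2 * (cols c univ).card : ℕ) : ℝ) ≤
      e2 (Gm G' S) W + 2 * ((W.card : ℝ) * Y.card) + e2 G' (Y \ Lo) := by linarith
  have hE5 : 2 * (cols c univ).card ≤
      e2 (Gm G' S) W + 2 * (W.card * Y.card) + e2 G' (Y \ Lo) := by exact_mod_cast hE4
  omega

end J21

theorem pDIi (hEG : tEG) (hTI : tTileI) (hRE : tRepE) (_hSw : tSwM) (hSt : tStar) : tDIi := by
  classical
  intro η hη
  refine ⟨min η 1 / 1000, by positivity, ?_⟩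
  intro θ hθ hθ0
  have hθη : 1000 * θ ≤ η := by
    have := min_le_left η 1
    linarith
  have hθ1 : 1000 * θ ≤ 1 := by
    have := min_le_right η 1
    linarith
  refine ⟨θ ^ 2 * min η 1 / 1000000, by positivity, ?_⟩
  set μ : ℝ := θ ^ 2 * min η 1 / 1000000 with hμ
  have hμ0 : 0 < μ := by positivity
  have hμη : 1000000 * μ ≤ θ ^ 2 * η := by
    rw [hμ]
    have := mul_le_mul_of_nonneg_left (min_le_left η 1) (sq_nonneg θ)
    linarith
  have hμ1 : 1000000 * μ ≤ θ ^ 2 := by
    rw [hμ]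
    have := mul_le_mul_of_nonneg_left (min_le_right η 1) (sq_nonneg θ)
    linarith
  refine ⟨⌈1000000 / θ⌉₊ + 1000, ?_⟩
  intro V _ _ c G k W Y hN hk1 hG hk hP hcol hwk
  obtain ⟨n, hn⟩ : ∃ n : ℝ, n = (Fintype.card V : ℝ) := ⟨_, rfl⟩
  have hn1 : 1000000 / θ + 1000 ≤ n := by
    have h1 : ((⌈1000000 / θ⌉₊ + 1000 : ℕ) : ℝ) ≤ n := by rw [hn]; exact_mod_cast hN
    have h2 := Nat.le_ceil (1000000 / θ)
    push_cast at h1
    linarith
  have hθn : 1000000 ≤ θ * n := by
    have h1 : 1000000 / θ ≤ n := by linarith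
    rw [div_le_iff₀ hθ] at h1
    linarith
  have hn0 : 0 < n := by
    have : 0 < 1000000 / θ := by positivity
    linarith
  have h1 : 1000 * (θ * n) ≤ η * n := by nlinarith
  have h2 : 1000 * (θ * n) ≤ n := by nlinarith
  obtain ⟨q0, q1, q2, q3, q4, q5, q6⟩ := hP
  rw [← hn] at q2 q3 q4 q5 q6 hcol hwk
  set S : Finset V := W.filter (fun v => (Y.card : ℝ) < dg G Y v + θ * n / 20) with hS
  set Lo : Finset V := Y.filter (fun v => dg G W v + η * n / 8 ≤ (W.card : ℝ)) with hLo
  have hWn : W.card + Y.card = Fintype.card V := by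
    rw [← Finset.card_union_of_disjoint q0, q1, Finset.card_univ]
  have hWnR : (W.card : ℝ) + Y.card = n := by rw [hn]; exact_mod_cast hWn
  -- few atypical vertices
  have hWS : ((W \ S).card : ℝ) ≤ θ * n / 100 := by
    have h3 : ∀ v ∈ W \ S, (dg G Y v : ℝ) + θ * n / 20 ≤ Y.card := by
      intro v hv
      rw [mem_sdiff, hS, mem_filter] at hv
      by_contra hcon
      push Not at hcon
      exact hv.2 ⟨hv.1, hcon⟩
    have h4 := J21.miss_ge sdiff_subset h3
    have h5 : ((W \ S).card : ℝ) * (θ * n / 20) ≤ μ * n ^ 2 := h4.trans q2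
    have h6 : μ * n ^ 2 ≤ (θ * n / 100) * (θ * n / 20) := by nlinarith [sq_nonneg n]
    exact le_of_mul_le_mul_right (h5.trans h6) (by positivity)
  have hLoc : (Lo.card : ℝ) ≤ n / 1000 := by
    have h3 : ∀ v ∈ Lo, (dg G W v : ℝ) + η * n / 8 ≤ W.card := by
      intro v hv
      rw [hLo, mem_filter] at hv
      exact hv.2
    have h4 := J21.miss_ge (Finset.filter_subset _ _) h3
    rw [← J21.miss_comm] at h4
    have h5 : (Lo.card : ℝ) * (η * n / 8) ≤ μ * n ^ 2 := h4.trans q2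
    have h7 : θ ^ 2 ≤ 1 := by nlinarith
    have h8 : 1000000 * μ ≤ η := by nlinarith
    have h6 : μ * n ^ 2 ≤ (n / 1000) * (η * n / 8) := by nlinarith [sq_nonneg n]
    exact le_of_mul_le_mul_right (h5.trans h6) (by positivity)
  -- size of `W`
  obtain ⟨r1, r2, r3, r4⟩ := hRE V c univ G hG
  have hw28 : 0.28 * n ≤ W.card := by
    have h3 : e2 G univ = e2 G W + 2 * eb G W Y + e2 G Y := by rw [← q1, e2_union G q0]
    have h4 : e2 G W ≤ W.card * W.card :=
      (e2_le G W).trans (Nat.mul_le_mul_left _ (Nat.sub_le _ _))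
    have h5 := eb_le G W Y
    have h6 : (2 * (cols c univ).card : ℝ) ≤ W.card * W.card + 2 * (W.card * Y.card) + e2 G Y := by
      have : 2 * (cols c univ).card ≤ W.card * W.card + 2 * (W.card * Y.card) + e2 G Y := by
        rw [← r1, h3]; omega
      exact_mod_cast this
    have h7 : (Y.card : ℝ) = n - W.card := by linarith
    have h8 : μ ≤ 1 / 1000 := by nlinarith
    rw [h7] at h6
    by_contra hcon
    push Not at hcon
    have h9 : 0 < (0.28 * n - W.card) * (1.72 * n - W.card) :=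
      mul_pos (by linarith) (by linarith)
    nlinarith [sq_nonneg n]
  -- transfer to switched graphs
  have main : ∀ G' : SimpleGraph V, J21.Nr 2 G G' → Rep c univ G' → ∀ b : ℕ,
      ((b + 1 : ℕ) : ℝ) ≤ θ * n / 1000 → HasM G' (Y \ Lo) (b + 1) →
      b + 1 ≤ k ∧ 2 * (cols c univ).card + b * W.card ≤
        2 * EG W.card (k - 1) + 2 * (W.card * Y.card) + e2 G' (Y \ Lo) := by
    intro G' hnr hG' b hb hMB
    have lo : ∀ A v, (dg G A v : ℝ) ≤ dg G' A v + 2 := fun A v => by exact_mod_cast (hnr A v).1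
    have up : ∀ A v, (dg G' A v : ℝ) ≤ dg G A v + 2 := fun A v => by exact_mod_cast (hnr A v).2
    refine J21.bonusE hEG hTI hRE hSt hG' (S := S) (Lo := Lo) (n := n) (θ := θ) (η := η) hk hk1 q0 q1
      (Finset.filter_subset _ _) (Finset.filter_subset _ _) ?_ ?_ hWS ?_ ?_ ?_ ?_ hwk q5 hθn h1 h2
      hb hMB
    · intro v hv
      rw [hS, mem_filter] at hv
      linarith [lo Y v]
    · intro v hv
      rw [mem_sdiff, hS, mem_filter] at hv
      have : ¬ ((Y.card : ℝ) < dg G Y v + θ * n / 20) := fun h => hv.2 ⟨hv.1, h⟩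
      push Not at this
      linarith [up Y v]
    · intro v hv
      linarith [q3 v hv, lo Y v]
    · intro v hv
      rw [mem_sdiff, hLo, mem_filter] at hv
      have : ¬ ((dg G W v : ℝ) + η * n / 8 ≤ W.card) := fun h => hv.2 ⟨hv.1, h⟩
      push Not at this
      linarith [lo W v]
    · intro v hv
      rw [hLo, mem_filter] at hv
      linarith [up W v]
    · intro v hv
      linarith [q4 v hv, up Y v]
  -- two disjoint bonus edges
  have two : ∀ G' : SimpleGraph V, J21.Nr 2 G G' → Rep c univ G' → HasM G' (Y \ Lo) 2 →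
      (cols c univ).card ≤ EG W.card (k - 1) + W.card * Y.card := by
    intro G' hnr hG' hM2
    have up : ∀ A v, (dg G' A v : ℝ) ≤ dg G A v + 2 := fun A v => by exact_mod_cast (hnr A v).2
    obtain ⟨b0, hb0⟩ : ∃ b0 : ℕ, b0 = ⌊θ * n / 1000⌋₊ := ⟨_, rfl⟩
    have hb01 : (b0 : ℝ) ≤ θ * n / 1000 := by rw [hb0]; exact Nat.floor_le (by positivity)
    have hb02 : θ * n / 1000 < b0 + 1 := by rw [hb0]; exact Nat.lt_floor_add_one _
    by_cases hM0 : HasM G' (Y \ Lo) b0
    · obtain ⟨b1, hb1⟩ : ∃ b1, b0 = b1 + 1 := by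
        refine ⟨b0 - 1, ?_⟩
        have : 0 < b0 := by
          by_contra hcon
          have : b0 = 0 := by omega
          rw [this] at hb02
          push_cast at hb02
          linarith
        omega
      rw [hb1] at hM0 hb01
      obtain ⟨h3, h4⟩ := main G' hnr hG' b1 hb01 hM0
      have h5 : (e2 G' (Y \ Lo) : ℝ) ≤ μ * n ^ 2 + 2 * n := by
        calc (e2 G' (Y \ Lo) : ℝ) ≤ e2 G' Y := by exact_mod_cast e2_mono G' sdiff_subset
          _ = ∑ v ∈ Y, (dg G' Y v : ℝ) := by unfold e2; push_cast; rfl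
          _ ≤ ∑ v ∈ Y, ((dg G Y v : ℝ) + 2) := Finset.sum_le_sum fun v _ => up Y v
          _ = e2 G Y + Y.card * 2 := by
            rw [Finset.sum_add_distrib, Finset.sum_const, nsmul_eq_mul]
            unfold e2; push_cast; rfl
          _ ≤ μ * n ^ 2 + 2 * n := by
            have : (0 : ℝ) ≤ W.card := Nat.cast_nonneg _
            linarith
      have h6 : μ * n ^ 2 + 2 * n ≤ b1 * W.card := by
        have h7 : θ * n / 1000 - 2 ≤ b1 := by
          rw [hb1] at hb02
          push_cast at hb02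
          linarith
        have h8 : (θ * n / 1000 - 2) * (0.28 * n) ≤ b1 * W.card :=
          mul_le_mul h7 hw28 (by positivity) (Nat.cast_nonneg _)
        have h9 : μ * n ≤ θ * n / 1000000 := by
          have : μ ≤ θ / 1000000 := by nlinarith
          nlinarith
        have h10 : μ * n + 2 ≤ (θ * n / 1000 - 2) * 0.28 := by linarith
        have h11 := mul_le_mul_of_nonneg_right h10 hn0.le
        linarith
      have h7 : e2 G' (Y \ Lo) ≤ b1 * W.card := by exact_mod_cast h5.trans h6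
      omega
    · have hex : ∃ j, ¬ HasM G' (Y \ Lo) j := ⟨b0, hM0⟩
      obtain ⟨j0, hj0⟩ : ∃ j0, j0 = Nat.find hex := ⟨_, rfl⟩
      have hj1 : ¬ HasM G' (Y \ Lo) j0 := by rw [hj0]; exact Nat.find_spec hex
      have hj2 : j0 ≤ b0 := by rw [hj0]; exact Nat.find_min' hex hM0
      have hj3 : 3 ≤ j0 := by
        by_contra hcon
        exact hj1 (hM2.le (by omega))
      obtain ⟨b1, hb1⟩ : ∃ b1, j0 = b1 + 2 := ⟨j0 - 2, by omega⟩
      have hb1' : HasM G' (Y \ Lo) (b1 + 1) := by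
        by_contra hcon
        have : j0 ≤ b1 + 1 := by rw [hj0]; exact Nat.find_min' hex hcon
        omega
      have hb1R : ((b1 + 1 : ℕ) : ℝ) ≤ θ * n / 1000 := by
        refine le_trans ?_ hb01
        have : b1 + 1 ≤ b0 := by omega
        exact_mod_cast this
      obtain ⟨h3, h4⟩ := main G' hnr hG' b1 hb1R hb1'
      obtain ⟨M, hM, hMc⟩ := hb1'
      have h5 := J21.e2_cover hM (by rw [hMc]; rw [hb1] at hj1; exact hj1)
      have h6 : (e2 G' (Y \ Lo) : ℝ) ≤ 2 * ((2 * (b1 + 1)) * (4 * (θ * n) + 2)) := by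
        calc (e2 G' (Y \ Lo) : ℝ) ≤ 2 * ∑ v ∈ vM M, (dg G' (Y \ Lo) v : ℝ) := by exact_mod_cast h5
          _ ≤ 2 * ∑ _v ∈ vM M, (4 * (θ * n) + 2) := by
            refine mul_le_mul_of_nonneg_left (Finset.sum_le_sum fun v hv => ?_) (by norm_num)
            have h7 : v ∈ Y := (mem_sdiff.1 (hM.vM_sub hv)).1
            have h8 : (dg G' (Y \ Lo) v : ℝ) ≤ dg G' Y v := by
              exact_mod_cast dg_mono G' sdiff_subset v
            linarith [up Y v, q4 v h7]
          _ = _ := by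
            rw [Finset.sum_const, nsmul_eq_mul, hM.card_vM, hMc]
            push_cast
            ring
      have h7 : 2 * ((2 * ((b1 : ℝ) + 1)) * (4 * (θ * n) + 2)) ≤ b1 * W.card := by
        have hb1pos : (1 : ℝ) ≤ b1 := by
          have : 1 ≤ b1 := by omega
          exact_mod_cast this
        have h8 : 4 * (θ * n) + 2 ≤ 0.005 * n := by linarith
        have h9 : (b1 : ℝ) * (0.28 * n) ≤ b1 * W.card :=
          mul_le_mul_of_nonneg_left hw28 (by linarith)
        have h10 : ((b1 : ℝ) + 1) * (4 * (θ * n) + 2) ≤ (2 * b1) * (0.005 * n) :=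
          mul_le_mul (by linarith) h8 (by positivity) (by linarith)
        nlinarith
      have h8 : e2 G' (Y \ Lo) ≤ b1 * W.card := by exact_mod_cast h6.trans h7
      omega
  -- final argument
  by_contra hcon
  push Not at hcon
  have hBc : 6 ≤ (Y \ Lo).card := by
    have h3 : Y.card ≤ (Y \ Lo).card + Lo.card := by
      have h30 : Lo ⊆ Y := Finset.filter_subset _ _
      have h31 := Finset.card_sdiff_add_card_eq_card h30
      exact h31.symm.le
    have h4 : (Y.card : ℝ) ≤ (Y \ Lo).card + Lo.card := by exact_mod_cast h3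
    have h5 : (0 : ℝ) ≤ k := Nat.cast_nonneg _
    have : (6 : ℝ) ≤ (Y \ Lo).card := by linarith
    exact_mod_cast this
  obtain ⟨x, hx, x', hx', hxx⟩ := Finset.one_lt_card.1 (by omega : 1 < (Y \ Lo).card)
  obtain ⟨g1, g2, -⟩ := r4 x (mem_univ _) x' (mem_univ _) hxx
  have nr1 : J21.Nr 1 G (sw c G x x') := J21.sw_nr hG x x'
  have hm1 : HasM (sw c G x x') (Y \ Lo) (0 + 1) := by
    have := J21.hasM_insert (G := sw c G x x') (A := Y \ Lo) (M := ∅) ⟨by simp, by simp⟩ hx hx'
      (by unfold vM; simp) (by unfold vM; simp) g2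
    simpa using this
  obtain ⟨-, h3⟩ := main _ (nr1.mono (by norm_num)) g1 0 (by push_cast; linarith) hm1
  have h4 : 4 ≤ e2 (sw c G x x') (Y \ Lo) := by omega
  obtain ⟨p, hp, q, hq, hpq, hne⟩ : ∃ p ∈ Y \ Lo, ∃ q ∈ Y \ Lo, (sw c G x x').Adj p q ∧
      s(p, q) ≠ s(x, x') := by
    by_contra hno
    push Not at hno
    have h5 : ∀ v ∈ Y \ Lo, dg (sw c G x x') (Y \ Lo) v ≤
        (if v = x then 1 else 0) + (if v = x' then 1 else 0) := by
      intro v hv
      rw [dg_def]
      by_cases hvx : v = x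
      · rw [if_pos hvx]
        refine le_trans ?_ (Nat.le_add_right _ _)
        rw [Finset.card_le_one]
        intro a ha b hb
        rw [mem_filter] at ha hb
        have ha' := hno v hv a ha.1 ha.2
        have hb' := hno v hv b hb.1 hb.2
        exact Sym2.congr_right.1 (ha'.trans hb'.symm)
      · by_cases hvx' : v = x'
        · rw [if_pos hvx', if_neg hvx, zero_add]
          rw [Finset.card_le_one]
          intro a ha b hb
          rw [mem_filter] at ha hb
          have ha' := hno v hv a ha.1 ha.2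
          have hb' := hno v hv b hb.1 hb.2
          exact Sym2.congr_right.1 (ha'.trans hb'.symm)
        · rw [if_neg hvx, if_neg hvx', add_zero, Nat.le_zero, Finset.card_eq_zero,
            Finset.filter_eq_empty_iff]
          intro a ha hva
          have := hno v hv a ha hva
          rw [Sym2.eq_iff] at this
          rcases this with h | h
          · exact hvx h.1
          · exact hvx' h.1
    have h6 : e2 (sw c G x x') (Y \ Lo) ≤ 2 := by
      unfold e2
      refine (Finset.sum_le_sum h5).trans ?_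
      rw [Finset.sum_add_distrib, Finset.sum_ite_eq', Finset.sum_ite_eq', if_pos hx, if_pos hx']
    omega
  have hcard : 2 ≤ ((Y \ Lo) \ {x, x', p, q}).card := by
    have h5 := Finset.le_card_sdiff ({x, x', p, q} : Finset V) (Y \ Lo)
    have h6 : ({x, x', p, q} : Finset V).card ≤ 4 := Finset.card_le_four
    omega
  obtain ⟨z, hz, z', hz', hzz⟩ := Finset.one_lt_card.1
    (by omega : 1 < ((Y \ Lo) \ {x, x', p, q}).card)
  rw [mem_sdiff] at hz hz'
  simp only [mem_insert, mem_singleton, not_or] at hz hz'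
  obtain ⟨-, -, -, r4'⟩ := hRE V c univ (sw c G x x') g1
  obtain ⟨g3, g4, -⟩ := r4' z (mem_univ _) z' (mem_univ _) hzz
  have nr2 : J21.Nr 2 G (sw c (sw c G x x') z z') := nr1.trans (J21.sw_nr g1 z z')
  have hm0 := J21.hasM_insert (G := sw c (sw c G x x') z z') (A := Y \ Lo) (M := ∅)
      ⟨by simp, by simp⟩ hz.1 hz'.1 (by unfold vM; simp) (by unfold vM; simp) g4
  have hm2 : ∀ u u' : V, u ∈ Y \ Lo → u' ∈ Y \ Lo → u ≠ z → u ≠ z' → u' ≠ z → u' ≠ z' →
      (sw c (sw c G x x') z z').Adj u u' → HasM (sw c (sw c G x x') z z') (Y \ Lo) 2 := by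
    intro u u' hu hu' a1 a2 a3 a4 huu
    have h5 : MF (sw c (sw c G x x') z z') (Y \ Lo) {(z, z')} := by
      refine ⟨?_, ?_⟩
      · intro e he
        rw [mem_singleton] at he
        subst he
        exact ⟨hz.1, hz'.1, g4⟩
      · intro e he f hf hef
        rw [mem_singleton] at he hf
        exact absurd (he.trans hf.symm) hef
    have h6 := J21.hasM_insert h5 hu hu' (by unfold vM; simp [a1, a2]) (by unfold vM; simp [a3, a4])
      huu
    simpa using h6
  have hcc : c s(x, x') ≠ c s(p, q) := fun h => hne (g1.inj x x' p q g2 hpq h).symm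
  have hfin : HasM (sw c (sw c G x x') z z') (Y \ Lo) 2 := by
    by_cases hcz : c s(x, x') = c s(z, z')
    · refine hm2 p q hp hq (fun h => hz.2.2.2.1 h.symm) (fun h => hz'.2.2.2.1 h.symm)
        (fun h => hz.2.2.2.2 h.symm) (fun h => hz'.2.2.2.2 h.symm) ⟨hpq.ne, Or.inl ⟨hpq, ?_⟩⟩
      rw [← hcz]
      exact hcc.symm
    · exact hm2 x x' hx hx' (fun h => hz.2.1 h.symm) (fun h => hz'.2.1 h.symm)
        (fun h => hz.2.2.1 h.symm) (fun h => hz'.2.2.1 h.symm) ⟨g2.ne, Or.inl ⟨g2, hcz⟩⟩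
  have := two _ nr2 g3 hfin
  omega

end Pool.Agent.ART
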