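import Pool.Agent.ART.Basic
import Pool.Agent.ART.Targets

set_option autoImplicit false

/-! J22a: robust families of triangles -/

namespace Pool.Agent.ART.J22a

open Finset Pool.Agent.ART

variable {V : Type} [DecidableEq V]

/-- degrees in near graphs -/
lemma dg_cl {q : ℕ} {G G' : SimpleGraph V} (h : Cl q G G') (A : Finset V) (v : V) :
    dg G A v ≤ dg G' A v + q := by
  classical
  obtain ⟨E, hE, h⟩ := h
  rw [dg_def, dg_def]
  have h1 : A.filter (fun u => G.Adj v u) ⊆
      A.filter (fun u => G'.Adj v u) ∪ A.filter (fun u => s(v, u) ∈ E) := by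
    intro u hu
    rw [Finset.mem_filter] at hu
    rw [Finset.mem_union, Finset.mem_filter, Finset.mem_filter]
    by_cases hE' : s(v, u) ∈ E
    · exact Or.inr ⟨hu.1, hE'⟩
    · exact Or.inl ⟨hu.1, h v u hu.2 hE'⟩
  have h2 : (A.filter (fun u => s(v, u) ∈ E)).card ≤ E.card := by
    apply Finset.card_le_card_of_injOn (fun u => s(v, u))
    · intro u hu
      have hu' := Finset.mem_coe.1 hu
      rw [Finset.mem_filter] at hu'
      exact Finset.mem_coe.2 hu'.2
    · intro u _ w _ huw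
      have huw' : s(v, u) = s(v, w) := huw
      exact Sym2.congr_right.1 huw'
  have h3 := Finset.card_le_card h1
  have h4 := Finset.card_union_le (A.filter (fun u => G'.Adj v u))
    (A.filter (fun u => s(v, u) ∈ E))
  omega

/-- counting the elements with small value -/
lemma markov (A B : Finset V) (f : V → ℕ) (m : ℕ) (c : ℝ) (hB : B ⊆ A) (hf : ∀ v ∈ A, f v ≤ m)
    (hc : ∀ v ∈ B, (f v : ℝ) + c ≤ m) :
    (B.card : ℝ) * c + ((∑ v ∈ A, f v : ℕ) : ℝ) ≤ A.card * m := by
  have h1 : ((∑ v ∈ A, f v : ℕ) : ℝ) = ∑ v ∈ A \ B, (f v : ℝ) + ∑ v ∈ B, (f v : ℝ) := by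
    push_cast
    rw [Finset.sum_sdiff hB]
  have h2 : ∑ v ∈ A \ B, (f v : ℝ) ≤ ((A \ B).card : ℝ) * m := by
    calc ∑ v ∈ A \ B, (f v : ℝ) ≤ ∑ _v ∈ A \ B, (m : ℝ) := by
          apply Finset.sum_le_sum
          intro v hv
          exact_mod_cast hf v (Finset.sdiff_subset hv)
      _ = _ := by rw [Finset.sum_const, nsmul_eq_mul]
  have h3 : ∑ v ∈ B, (f v : ℝ) ≤ (B.card : ℝ) * (m - c) := by
    calc ∑ v ∈ B, (f v : ℝ) ≤ ∑ _v ∈ B, ((m : ℝ) - c) := by
          apply Finset.sum_le_sum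
          intro v hv
          have := hc v hv
          linarith
      _ = _ := by rw [Finset.sum_const, nsmul_eq_mul]
  have h4 : (A.card : ℝ) = (A \ B).card + B.card := by
    have := Finset.card_sdiff_add_card_eq_card hB
    exact_mod_cast this.symm
  rw [h1, h4]
  nlinarith

/-- different representatives -/
lemma sdr (B : Finset V) (N : V → Finset V) (h : ∀ b ∈ B, B.card ≤ (N b).card) :
    ∃ f : V → V, (∀ b ∈ B, f b ∈ N b) ∧ ∀ b ∈ B, ∀ b' ∈ B, f b = f b' → b = b' := by
  classical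
  have h1 := (Finset.all_card_le_biUnion_card_iff_exists_injective
    (fun b : {x // x ∈ B} => N b.1)).1 (by
      intro s
      rcases s.eq_empty_or_nonempty with rfl | ⟨b, hb⟩
      · simp
      · calc s.card ≤ (Finset.univ : Finset {x // x ∈ B}).card :=
            Finset.card_le_card (Finset.subset_univ _)
          _ = B.card := by simp
          _ ≤ (N b.1).card := h b.1 b.2
          _ ≤ _ := Finset.card_le_card (Finset.subset_biUnion_of_mem
            (fun b : {x // x ∈ B} => N b.1) hb))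
  obtain ⟨g, hg, hg'⟩ := h1
  refine ⟨fun b => if hb : b ∈ B then g ⟨b, hb⟩ else b, ?_, ?_⟩
  · intro b hb
    beta_reduce
    rw [dif_pos hb]
    exact hg' ⟨b, hb⟩
  · intro b hb b' hb' he
    beta_reduce at he
    rw [dif_pos hb, dif_pos hb'] at he
    exact congrArg Subtype.val (hg he)

/-- the union of two disjoint matchings -/
lemma MF_union {G : SimpleGraph V} {A B C : Finset V} {M M' : Finset (V × V)} (h : MF G A M)
    (h' : MF G B M') (hd : Disjoint (vM M) (vM M')) (hA : A ⊆ C) (hB : B ⊆ C) :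
    MF G C (M ∪ M') ∧ (M ∪ M').card = M.card + M'.card := by
  rw [Finset.disjoint_left] at hd
  have hne : ∀ p ∈ M, ∀ q ∈ M', p.1 ≠ q.1 ∧ p.1 ≠ q.2 ∧ p.2 ≠ q.1 ∧ p.2 ≠ q.2 := by
    intro p hp q hq
    refine ⟨?_, ?_, ?_, ?_⟩ <;> intro he
    · exact hd (mem_vM.2 ⟨p, hp, Or.inl rfl⟩) (mem_vM.2 ⟨q, hq, Or.inl he⟩)
    · exact hd (mem_vM.2 ⟨p, hp, Or.inl rfl⟩) (mem_vM.2 ⟨q, hq, Or.inr he⟩)
    · exact hd (mem_vM.2 ⟨p, hp, Or.inr rfl⟩) (mem_vM.2 ⟨q, hq, Or.inl he⟩)
    · exact hd (mem_vM.2 ⟨p, hp, Or.inr rfl⟩) (mem_vM.2 ⟨q, hq, Or.inr he⟩)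
  constructor
  · constructor
    · intro p hp
      rw [Finset.mem_union] at hp
      rcases hp with hp | hp
      · exact ⟨hA (h.mem p hp).1, hA (h.mem p hp).2.1, (h.mem p hp).2.2⟩
      · exact ⟨hB (h'.mem p hp).1, hB (h'.mem p hp).2.1, (h'.mem p hp).2.2⟩
    · intro p hp q hq hpq
      rw [Finset.mem_union] at hp hq
      rcases hp with hp | hp <;> rcases hq with hq | hq
      · exact h.dis p hp q hq hpq
      · exact hne p hp q hq
      · obtain ⟨h1, h2, h3, h4⟩ := hne q hq p hp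
        exact ⟨h1.symm, h3.symm, h2.symm, h4.symm⟩
      · exact h'.dis p hp q hq hpq
  · apply Finset.card_union_of_disjoint
    rw [Finset.disjoint_left]
    intro p hp hp'
    exact (hne p hp p hp').1 rfl

/-- a large matching inside `A ∪ B`, `B` small and well joined to `A`, `A` dense -/
lemma match_AB (hPM : tPMat) [Fintype V] (G : SimpleGraph V) (A B : Finset V)
    (hAB : Disjoint A B) (h1 : ∀ b ∈ B, B.card ≤ dg G A b)
    (h2 : ∀ v ∈ A, A.card + 2 * (B.card + 1) ≤ 2 * dg G A v) :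
    ∃ M, MF G (A ∪ B) M ∧ M.card = (A ∪ B).card / 2 ∧ ∀ p ∈ M, p.1 ∈ A ∨ p.2 ∈ A := by
  classical
  obtain ⟨f, hf, hinj⟩ := sdr B (fun b => A.filter (fun u => G.Adj b u)) (fun b hb => by
    have := h1 b hb
    rwa [dg_def] at this)
  have hfA : ∀ b ∈ B, f b ∈ A := fun b hb => (Finset.mem_filter.1 (hf b hb)).1
  have hfG : ∀ b ∈ B, G.Adj b (f b) := fun b hb => (Finset.mem_filter.1 (hf b hb)).2
  have hFc : (B.image f).card = B.card :=
    Finset.card_image_of_injOn (fun b hb b' hb' he => hinj b hb b' hb' he)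
  have hFA : B.image f ⊆ A := by
    intro x hx
    obtain ⟨b, hb, rfl⟩ := Finset.mem_image.1 hx
    exact hfA b hb
  -- the rest
  obtain ⟨X, hX, hXc⟩ := Finset.exists_subset_card_eq
    (by omega : 2 * ((A \ B.image f).card / 2) ≤ (A \ B.image f).card)
  have hXA : X ⊆ A := hX.trans Finset.sdiff_subset
  have hcA : (A \ B.image f).card + B.card = A.card := by
    rw [← hFc]
    exact Finset.card_sdiff_add_card_eq_card hFA
  have hXA' : (A \ X).card + X.card = A.card := Finset.card_sdiff_add_card_eq_card hXA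
  obtain ⟨M, hM, hMc⟩ := hPM V G X ⟨(A \ B.image f).card / 2, by omega⟩ (by
    intro v hv
    have h3 := h2 v (hXA hv)
    have h4 := dg_sdiff G hXA v
    have h5 := dg_le_card G (A \ X) v
    omega)
  -- the matching of `B`
  have hM' : MF G (B ∪ B.image f) (B.image (fun b => (b, f b))) := by
    constructor
    · intro p hp
      obtain ⟨b, hb, rfl⟩ := Finset.mem_image.1 hp
      exact ⟨Finset.mem_union_left _ hb, Finset.mem_union_right _ (Finset.mem_image_of_mem f hb),
        hfG b hb⟩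
    · intro p hp q hq hpq
      obtain ⟨b, hb, rfl⟩ := Finset.mem_image.1 hp
      obtain ⟨b', hb', rfl⟩ := Finset.mem_image.1 hq
      have hbb : b ≠ b' := by
        rintro rfl
        exact hpq rfl
      refine ⟨hbb, ?_, ?_, ?_⟩
      · intro he
        have he' : b = f b' := he
        exact Finset.disjoint_left.1 hAB (he' ▸ hfA b' hb') hb
      · intro he
        have he' : f b = b' := he
        exact Finset.disjoint_left.1 hAB (he' ▸ hfA b hb) hb'
      · intro he
        exact hbb (hinj b hb b' hb' he)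
  have hM'c : (B.image (fun b => (b, f b))).card = B.card :=
    Finset.card_image_of_injOn (fun b _ b' _ he => congrArg Prod.fst he)
  have hd : Disjoint (vM M) (vM (B.image (fun b => (b, f b)))) := by
    rw [Finset.disjoint_left]
    intro v hv hv'
    have hvX := hM.vM_sub hv
    have h3 := hM'.vM_sub hv'
    rw [Finset.mem_union] at h3
    rcases h3 with h3 | h3
    · exact Finset.disjoint_left.1 hAB (hXA hvX) h3
    · exact (Finset.mem_sdiff.1 (hX hvX)).2 h3
  obtain ⟨h3, h4⟩ := MF_union (C := A ∪ B) hM hM' hd (hXA.trans Finset.subset_union_left) (by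
    intro x hx
    rw [Finset.mem_union] at hx ⊢
    rcases hx with hx | hx
    · exact Or.inr hx
    · exact Or.inl (hFA hx))
  refine ⟨_, h3, ?_, ?_⟩
  · rw [h4, hM'c, hMc, Finset.card_union_of_disjoint hAB]
    omega
  · intro p hp
    rw [Finset.mem_union] at hp
    rcases hp with hp | hp
    · exact Or.inl (hXA (hM.mem p hp).1)
    · obtain ⟨b, hb, rfl⟩ := Finset.mem_image.1 hp
      exact Or.inr (hfA b hb)

end Pool.Agent.ART.J22a

namespace Pool.Agent.ART

open Finset J22a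

theorem pRob (hPM : tPMat) (hTI : tTileI) : tRob := by
  intro θ hθ hθ1
  obtain ⟨N, hN⟩ := exists_nat_ge (1000000 / θ)
  refine ⟨N, ?_⟩
  intro V _ _ G G' k W Y hn hP hW hWe hCl T₀ M₁ r hT hM hMT hdis hTc hMc hrk hr
  classical
  set n : ℝ := (Fintype.card V : ℝ) with hndef
  have hnN : (N : ℝ) ≤ n := Nat.cast_le.2 hn
  have hθn : 1000000 ≤ θ * n := by
    have h1 : 1000000 / θ ≤ n := hN.trans hnN
    rw [div_le_iff₀ hθ] at h1
    linarith
  have hn0 : 10000000000 ≤ n := by
    have h1 : θ * n ≤ 1 / 10000 * n := by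
      apply mul_le_mul_of_nonneg_right hθ1
      rw [hndef]
      positivity
    linarith
  have hnpos : 0 < n := by linarith
  -- `W \ Typ` is small
  have hTW : Typ G W Y θ ⊆ W := Finset.filter_subset _ _
  have hGT : Gd G W Y θ ⊆ Typ G W Y θ := Finset.filter_subset _ _
  have hXW : Xs G W Y θ ⊆ W := Finset.filter_subset _ _
  have hmiss : (miss G W Y : ℝ) = (W.card : ℝ) * Y.card - (eb G W Y : ℝ) := by
    unfold miss
    rw [Nat.cast_sub (eb_le G W Y)]
    push_cast
    ring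
  have hTyp : ((W \ Typ G W Y θ).card : ℝ) ≤ θ * n / 500 := by
    have h1 := markov W (W \ Typ G W Y θ) (dg G Y) Y.card (θ * n / 20) Finset.sdiff_subset
      (fun v _ => dg_le_card G Y v) (by
        intro v hv
        rw [Finset.mem_sdiff] at hv
        by_contra hcon
        apply hv.2
        unfold Typ
        rw [Finset.mem_filter]
        refine ⟨hv.1, ?_⟩
        rw [← hndef]
        linarith)
    have h2 : ((∑ v ∈ W, dg G Y v : ℕ) : ℝ) = (eb G W Y : ℝ) := rfl
    rw [h2] at h1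
    have h3 := hP.p1
    rw [hmiss, ← hndef] at h3
    have h4 : ((W \ Typ G W Y θ).card : ℝ) * (θ * n / 20) ≤ (θ * n / 500) * (θ * n / 20) := by
      nlinarith
    exact le_of_mul_le_mul_right h4 (by positivity)
  have hGd1 : ((Typ G W Y θ \ Gd G W Y θ).card : ℝ) ≤ n / 1000 := by
    have h1 := markov W (Typ G W Y θ \ Gd G W Y θ) (dg G W) W.card (3 * n / 100)
      (Finset.sdiff_subset.trans hTW)
      (fun v _ => dg_le_card G W v) (by
        intro v hv
        rw [Finset.mem_sdiff] at hv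
        by_contra hcon
        apply hv.2
        unfold Gd
        rw [Finset.mem_filter]
        refine ⟨hv.1, ?_⟩
        rw [← hndef]
        linarith)
    have h2 : ((∑ v ∈ W, dg G W v : ℕ) : ℝ) = (e2 G W : ℝ) := rfl
    rw [h2] at h1
    have h4 : ((Typ G W Y θ \ Gd G W Y θ).card : ℝ) * (3 * n / 100) ≤
        (n / 1000) * (3 * n / 100) := by
      nlinarith
    exact le_of_mul_le_mul_right h4 (by positivity)
  have hGd : ((W \ Gd G W Y θ).card : ℝ) ≤ 11 * n / 10000 := by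
    have h1 : W \ Gd G W Y θ ⊆ (W \ Typ G W Y θ) ∪ (Typ G W Y θ \ Gd G W Y θ) := by
      intro v hv
      rw [Finset.mem_sdiff] at hv
      rw [Finset.mem_union, Finset.mem_sdiff, Finset.mem_sdiff]
      by_cases h : v ∈ Typ G W Y θ
      · exact Or.inr ⟨h, hv.2⟩
      · exact Or.inl ⟨hv.1, h⟩
    have h2 : (W \ Gd G W Y θ).card ≤ (W \ Typ G W Y θ).card +
        (Typ G W Y θ \ Gd G W Y θ).card :=
      (Finset.card_le_card h1).trans (Finset.card_union_le _ _)
    have h3 : ((W \ Gd G W Y θ).card : ℝ) ≤ (W \ Typ G W Y θ).card +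
        (Typ G W Y θ \ Gd G W Y θ).card := by exact_mod_cast h2
    have h4 : θ * n ≤ 1 / 10000 * n := mul_le_mul_of_nonneg_right hθ1 hnpos.le
    linarith
  have hGW : Gd G W Y θ ⊆ W := hGT.trans hTW
  -- `Gd ⊆ Xs`
  have hGX : Gd G W Y θ ⊆ Xs G W Y θ := by
    intro v hv
    have hv2 := hv
    unfold Gd at hv2
    rw [Finset.mem_filter] at hv2
    unfold Xs
    rw [Finset.mem_filter]
    refine ⟨hGW hv, ?_⟩
    have h1 := dg_sdiff G hGW v
    have h2 := dg_le_card G (W \ Gd G W Y θ) v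
    have h3 := hv2.2
    rw [← hndef] at h3 ⊢
    have h4 : (dg G (W \ Gd G W Y θ) v : ℝ) + dg G (Gd G W Y θ) v = dg G W v := by
      exact_mod_cast h1
    have h5 : (dg G (W \ Gd G W Y θ) v : ℝ) ≤ (W \ Gd G W Y θ).card := by exact_mod_cast h2
    linarith
  -- the forbidden set
  set F : Finset V := vT T₀ ∪ vM M₁ with hF
  have hFc : (F.card : ℝ) ≤ 21 * n / 10000 := by
    have h1 : F.card ≤ 3 * T₀.card + 2 * M₁.card := by
      rw [hF, ← hT.card_vT, ← hM.card_vM]
      exact Finset.card_union_le _ _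
    have h2 : (F.card : ℝ) ≤ 3 * T₀.card + 2 * M₁.card := by exact_mod_cast h1
    have h4 : θ * n ≤ 1 / 10000 * n := mul_le_mul_of_nonneg_right hθ1 hnpos.le
    linarith
  set A : Finset V := Gd G W Y θ \ F with hA
  set B : Finset V := (Xs G W Y θ \ Gd G W Y θ) \ F with hB
  have hABX : A ∪ B = Xs G W Y θ \ F := by
    ext v
    rw [hA, hB, Finset.mem_union, Finset.mem_sdiff, Finset.mem_sdiff, Finset.mem_sdiff,
      Finset.mem_sdiff]
    constructor
    · rintro (⟨h1, h2⟩ | ⟨⟨h1, _⟩, h2⟩)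
      · exact ⟨hGX h1, h2⟩
      · exact ⟨h1, h2⟩
    · rintro ⟨h1, h2⟩
      by_cases h : v ∈ Gd G W Y θ
      · exact Or.inl ⟨h, h2⟩
      · exact Or.inr ⟨⟨h1, h⟩, h2⟩
  have hAB : Disjoint A B := by
    rw [Finset.disjoint_left]
    intro v hv hv'
    rw [hA, Finset.mem_sdiff] at hv
    rw [hB, Finset.mem_sdiff, Finset.mem_sdiff] at hv'
    exact hv'.1.2 hv.1
  have hBc : (B.card : ℝ) ≤ 11 * n / 10000 := by
    have h1 : B ⊆ W \ Gd G W Y θ := by
      intro v hv
      rw [hB, Finset.mem_sdiff, Finset.mem_sdiff] at hv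
      exact Finset.mem_sdiff.2 ⟨hXW hv.1.1, hv.1.2⟩
    have h2 : (B.card : ℝ) ≤ (W \ Gd G W Y θ).card := by
      exact_mod_cast Finset.card_le_card h1
    linarith
  have hAW : A ⊆ W := Finset.sdiff_subset.trans hGW
  have hWA : ((W \ A).card : ℝ) ≤ 32 * n / 10000 := by
    have h1 : W \ A ⊆ (W \ Gd G W Y θ) ∪ F := by
      intro v hv
      rw [hA, Finset.mem_sdiff, Finset.mem_sdiff] at hv
      rw [Finset.mem_union, Finset.mem_sdiff]
      by_cases h : v ∈ F
      · exact Or.inr h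
      · exact Or.inl ⟨hv.1, fun h' => hv.2 ⟨h', h⟩⟩
    have h2 : (W \ A).card ≤ (W \ Gd G W Y θ).card + F.card :=
      (Finset.card_le_card h1).trans (Finset.card_union_le _ _)
    have h3 : ((W \ A).card : ℝ) ≤ (W \ Gd G W Y θ).card + F.card := by exact_mod_cast h2
    linarith
  obtain ⟨M₂, hM₂, hM₂c, hM₂A⟩ := match_AB hPM G' A B hAB (by
      intro b hb
      rw [hB, Finset.mem_sdiff, Finset.mem_sdiff] at hb
      have h1 := hb.1.1
      unfold Xs at h1
      rw [Finset.mem_filter, ← hndef] at h1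
      have h2 := dg_cl hCl (Gd G W Y θ) b
      have h3 := dg_le_sdiff G' (Gd G W Y θ) F b
      rw [← hA] at h3
      have h4 : (dg G (Gd G W Y θ) b : ℝ) ≤ dg G' A b + F.card + 60 := by
        exact_mod_cast h2.trans (Nat.add_le_add_right h3 60)
      have h5 : (B.card : ℝ) ≤ dg G' A b := by
        linarith [h1.2]
      exact_mod_cast h5) (by
      intro v hv
      have hv1 := (Finset.mem_sdiff.1 hv).1
      have hv2 := hv1
      unfold Gd at hv2
      rw [Finset.mem_filter, ← hndef] at hv2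
      have h2 := dg_cl hCl W v
      have h3 := dg_sdiff G' hAW v
      have h4 := dg_le_card G' (W \ A) v
      have h5 : (dg G W v : ℝ) ≤ dg G' A v + (W \ A).card + 60 := by
        have : dg G W v ≤ dg G' A v + (W \ A).card + 60 := by omega
        exact_mod_cast this
      have h6 : (A.card : ℝ) ≤ W.card := by exact_mod_cast Finset.card_le_card hAW
      have h7 : (A.card : ℝ) + 2 * (B.card + 1) ≤ 2 * dg G' A v := by
        linarith [hv2.2]
      exact_mod_cast h7)
  -- the whole matching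
  have hM₂s : vM M₂ ⊆ Xs G W Y θ \ F := by
    rw [← hABX]
    exact hM₂.vM_sub
  have hd2 : Disjoint (vM M₁) (vM M₂) := by
    rw [Finset.disjoint_left]
    intro v hv hv'
    exact (Finset.mem_sdiff.1 (hM₂s hv')).2 (Finset.mem_union_right _ hv)
  obtain ⟨hMU, hMUc⟩ := MF_union (C := W) hM hM₂ hd2 (Finset.Subset.refl _) (by
    rw [hABX]
    exact Finset.sdiff_subset.trans hXW)
  rw [hABX] at hM₂c
  rcases le_or_gt r T₀.card with hrT | hrT
  · exact HasT.le ⟨T₀, hT, rfl⟩ hrT
  obtain ⟨M, hMs, hMcard⟩ := Finset.exists_subset_card_eq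
    (by omega : r - T₀.card ≤ (M₁ ∪ M₂).card)
  have hMF : MF G' W M := hMU.subset hMs
  have hdisM : Disjoint (vT T₀) (vM M) := by
    rw [Finset.disjoint_left]
    intro v hv hv'
    obtain ⟨p, hp, hpv⟩ := mem_vM.1 hv'
    have hp' := hMs hp
    rw [Finset.mem_union] at hp'
    rcases hp' with hp' | hp'
    · exact Finset.disjoint_left.1 hdis hv (mem_vM.2 ⟨p, hp', hpv⟩)
    · exact (Finset.mem_sdiff.1 (hM₂s (mem_vM.2 ⟨p, hp', hpv⟩))).2
        (Finset.mem_union_left _ hv)
  have hMTyp : ∀ p ∈ M, p.1 ∈ Typ G W Y θ ∨ p.2 ∈ Typ G W Y θ := by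
    intro p hp
    have hp' := hMs hp
    rw [Finset.mem_union] at hp'
    rcases hp' with hp' | hp'
    · exact hMT p hp'
    · rcases hM₂A p hp' with h | h
      · exact Or.inl (hGT (Finset.mem_sdiff.1 h).1)
      · exact Or.inr (hGT (Finset.mem_sdiff.1 h).1)
  have hTypd : ∀ v ∈ Typ G W Y θ, Y.card ≤ dg G' Y v + (⌈θ * n / 20⌉₊ + 60) := by
    intro v hv
    unfold Typ at hv
    rw [Finset.mem_filter, ← hndef] at hv
    have h1 := Nat.le_ceil (θ * n / 20)
    have h2 := dg_cl hCl Y v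
    have h3 : (dg G Y v : ℝ) ≤ dg G' Y v + 60 := by exact_mod_cast h2
    have h4 : (Y.card : ℝ) ≤ dg G' Y v + (⌈θ * n / 20⌉₊ + 60) := by linarith [hv.2]
    exact_mod_cast h4
  have hc1 : (⌈θ * n / 20⌉₊ : ℝ) ≤ θ * n / 20 + 1 := (Nat.ceil_lt_add_one (by positivity)).le
  have hc2 : (⌈θ * n / 50⌉₊ : ℝ) ≤ θ * n / 50 + 1 := (Nat.ceil_lt_add_one (by positivity)).le
  have hc2' : θ * n / 50 ≤ (⌈θ * n / 50⌉₊ : ℝ) := Nat.le_ceil _
  have hc3 : θ * n ≤ (⌊θ * n⌋₊ : ℝ) + 1 := (Nat.lt_floor_add_one _).le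
  have hc3' : (⌊θ * n⌋₊ : ℝ) ≤ θ * n := Nat.floor_le (by positivity)
  have hfin := hTI V G' Finset.univ W Y M T₀ ⌈θ * n / 50⌉₊ (⌈θ * n / 20⌉₊ + 60)
    (⌊θ * n⌋₊ - 60) (Finset.subset_univ _) (Finset.subset_univ _) hP.dis hMF hT hdisM (by
      have h1 : (T₀.card : ℝ) ≤ (⌈θ * n / 50⌉₊ : ℝ) := by linarith
      exact_mod_cast h1) (by
      intro w hw
      have h1 := hP.p2 w hw
      rw [← hndef] at h1
      have h2 := dg_cl hCl Y w
      have h3 : (⌊θ * n⌋₊ : ℝ) ≤ (dg G Y w : ℝ) := by linarith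
      have h4 : ⌊θ * n⌋₊ ≤ dg G Y w := by exact_mod_cast h3
      omega) (by
      have h1 : W.filter (fun w => dg G' Y w + (⌈θ * n / 20⌉₊ + 60) < Y.card) ⊆
          W \ Typ G W Y θ := by
        intro w hw
        rw [Finset.mem_filter] at hw
        rw [Finset.mem_sdiff]
        refine ⟨hw.1, fun h => ?_⟩
        have := hTypd w h
        omega
      have h2 := Finset.card_le_card h1
      have h3 : ((W \ Typ G W Y θ).card : ℝ) ≤ (⌈θ * n / 50⌉₊ : ℝ) := by linarith
      have h4 : (W \ Typ G W Y θ).card ≤ ⌈θ * n / 50⌉₊ := by exact_mod_cast h3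
      omega) (by
      intro p hp
      rcases hMTyp p hp with h | h
      · exact Or.inl (hTypd _ h)
      · exact Or.inr (hTypd _ h)) (by
      have h1 : ((⌈θ * n / 20⌉₊ + 60 + 4 * ⌈θ * n / 50⌉₊ + 60 : ℕ) : ℝ) ≤ (⌊θ * n⌋₊ : ℝ) := by
        push_cast
        linarith
      have h2 : ⌈θ * n / 20⌉₊ + 60 + 4 * ⌈θ * n / 50⌉₊ + 60 ≤ ⌊θ * n⌋₊ := by exact_mod_cast h1
      omega) (by
      have h0 : M.card ≤ k + 1 := by omega
      have h4 : θ * n ≤ 1 / 10000 * n := mul_le_mul_of_nonneg_right hθ1 hnpos.le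
      have h0' : (M.card : ℝ) ≤ k + 1 := by exact_mod_cast h0
      have h5 := hP.p4
      rw [← hndef] at h5
      have h1 : ((2 * (⌈θ * n / 20⌉₊ + 60) + 3 * ⌈θ * n / 50⌉₊ + M.card : ℕ) : ℝ) ≤
          (Y.card : ℝ) := by
        push_cast
        linarith
      exact_mod_cast h1)
  have hr' : M.card + T₀.card = r := by omega
  rwa [hr'] at hfin

end Pool.Agent.ART
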