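import Pool.Agent.ART.J22bC

set_option autoImplicit false

/-! Anti-Ramsey numbers of vertex-disjoint triangles (MP_e56f3d_co): J22b, exact analysis, few
vertices in `W`. -/

namespace Pool.Agent.ART

open Finset

namespace J22b

lemma e2_count {V : Type} (G : SimpleGraph V) {W S : Finset V} (hS : S ⊆ W) (b : ℝ)
    (h : ∀ v ∈ S, (dg G W v : ℝ) + b ≤ W.card) :
    (S.card : ℝ) * b ≤ (W.card : ℝ) ^ 2 - e2 G W := by
  have h1 : (W.card : ℝ) ^ 2 - e2 G W = ∑ v ∈ W, ((W.card : ℝ) - dg G W v) := by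
    rw [Finset.sum_sub_distrib, Finset.sum_const, nsmul_eq_mul]
    unfold e2
    push_cast
    ring
  rw [h1]
  calc (S.card : ℝ) * b = ∑ _v ∈ S, b := by rw [Finset.sum_const, nsmul_eq_mul]
    _ ≤ ∑ v ∈ S, ((W.card : ℝ) - dg G W v) := Finset.sum_le_sum fun v hv => by
        have := h v hv
        linarith
    _ ≤ ∑ v ∈ W, ((W.card : ℝ) - dg G W v) :=
        Finset.sum_le_sum_of_subset_of_nonneg hS fun v _ _ => by
          have : (dg G W v : ℝ) ≤ W.card := by exact_mod_cast dg_le_card G W v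
          linarith

open Classical in
lemma mkCtx (hRE : tRepE) (hSt : tStar) {V : Type} [Fintype V] [DecidableEq V] (c : Sym2 V → ℕ)
    (G : SimpleGraph V) (k : ℕ) (W Y : Finset V) (θ : ℝ) (hθ : 0 < θ) (hθ1 : θ ≤ 1 / 10000)
    (hN : 1000000 ≤ θ * Fintype.card V) (hR : Rep c univ G) (hnR : ¬ HasR c univ (k + 1))
    (hP : PartI G k (θ ^ 2 / 1000000) θ W Y)
    (hRob : 0.28 * (Fintype.card V : ℝ) ≤ W.card →
      (W.card : ℝ) ^ 2 ≤ e2 G W + 0.00003 * (Fintype.card V : ℝ) ^ 2 → ∀ G' : SimpleGraph V,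
      Cl 60 G G' →
      ∀ (T₀ : Finset (Finset V)) (M₁ : Finset (V × V)) (r : ℕ), TF G' univ T₀ → MF G' W M₁ →
      (∀ p ∈ M₁, p.1 ∈ Typ G W Y θ ∨ p.2 ∈ Typ G W Y θ) → Disjoint (vT T₀) (vM M₁) →
      (T₀.card : ℝ) ≤ θ * Fintype.card V / 100 → (M₁.card : ℝ) ≤ Fintype.card V / 1000 →
      r ≤ k + 1 → r ≤ T₀.card + M₁.card + (Xs G W Y θ \ (vT T₀ ∪ vM M₁)).card / 2 →
      HasT G' univ r)
    (hC : (Fintype.card V : ℝ) ^ 2 / 4 - Fintype.card V ≤ (cols c univ).card)
    (hk : (k : ℝ) ≤ 0.3075 * Fintype.card V)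
    (hw : (W.card : ℝ) < 2 * k + 1 / 100000 * Fintype.card V)
    (hB : (2 * k).choose 2 + 2 * k * (Fintype.card V - 2 * k) + 1 < (cols c univ).card) :
    Ctx c G k W Y (Xs G W Y θ) (Gd G W Y θ)
      (Y.filter (fun y => (dg G W y : ℝ) + 0.05 * Fintype.card V < W.card)) (Typ G W Y θ)
      (θ * Fintype.card V) (Fintype.card V) := by
  obtain ⟨n, hn⟩ : ∃ n : ℝ, n = Fintype.card V := ⟨_, rfl⟩
  obtain ⟨a, ha⟩ : ∃ a : ℝ, a = θ * n := ⟨_, rfl⟩
  have hn0 : 0 ≤ n := by rw [hn]; exact Nat.cast_nonneg _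
  have han : 10000 * a ≤ n := by
    have h1 : θ * n ≤ 1 / 10000 * n := mul_le_mul_of_nonneg_right hθ1 hn0
    linarith
  have ha6 : 1000000 ≤ a := by rw [ha, hn]; exact hN
  have hp1 := hP.p1
  have hp2 := hP.p2
  have hp3 := hP.p3
  have hp4 := hP.p4
  have hp5 := hP.p5
  rw [← hn] at hp1 hp2 hp3 hp4 hp5 hC hk hw hRob
  have hmu : θ ^ 2 / 1000000 * n ^ 2 = a ^ 2 / 1000000 := by rw [ha]; ring
  rw [hmu] at hp1 hp5
  have hn10 : 10000000000 ≤ n := by linarith
  have hasq : a ^ 2 / 1000000 ≤ a * n / 10000000000 := by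
    have h1 : 0 ≤ a * (n - 10000 * a) := mul_nonneg (by linarith) (by linarith)
    linarith
  have han2 : a * n / 10000000000 ≤ n ^ 2 / 100000000000000 := by
    have h1 : 0 ≤ n * (n - 10000 * a) := mul_nonneg (by linarith) (by linarith)
    linarith
  have hnn : 10000000000 * n ≤ n ^ 2 := by
    have h1 : 0 ≤ n * (n - 10000000000) := mul_nonneg (by linarith) (by linarith)
    linarith
  have hann : 0 ≤ a * n := mul_nonneg (by linarith) hn0
  have hwy : (W.card : ℝ) + Y.card = n := by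
    rw [hn, ← Finset.card_univ, ← hP.uni, Finset.card_union_of_disjoint hP.dis]
    push_cast
    ring
  have htot : e2 G univ = 2 * (cols c univ).card := (hRE V c univ G hR).1
  have htotR : (e2 G univ : ℝ) = 2 * (cols c univ).card := by exact_mod_cast htot
  have hm0 : (0 : ℝ) ≤ miss G W Y := Nat.cast_nonneg _
  have hsplit : (e2 G univ : ℝ) ≤ e2 G W + 2 * ((W.card : ℝ) * Y.card) + e2 G Y := by
    have h2 : e2 G univ = e2 G W + 2 * eb G W Y + e2 G Y := by
      rw [← hP.uni]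
      exact e2_union _ hP.dis
    have h3 := eb_le G W Y
    have h4 : e2 G univ ≤ e2 G W + 2 * (W.card * Y.card) + e2 G Y := by omega
    exact_mod_cast h4
  have hW2 : (e2 G W : ℝ) ≤ (W.card : ℝ) ^ 2 := by
    have h1 := e2_count G (W := W) (S := ∅) (Finset.empty_subset _) 0 (by simp)
    simp only [Finset.card_empty, Nat.cast_zero, mul_zero] at h1
    linarith
  have hw0 : (0 : ℝ) ≤ W.card := Nat.cast_nonneg _
  have hY : (Y.card : ℝ) = n - W.card := by linarith
  have hY0 : (0 : ℝ) ≤ Y.card := Nat.cast_nonneg _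
  have hwn : 0.28 * n ≤ W.card := by
    by_contra hcon
    push Not at hcon
    rw [hY] at hsplit
    have h1 : 0 ≤ (0.28 * n - W.card) * (1.72 * n - W.card) :=
      mul_nonneg (by linarith) (by linarith)
    linarith
  have h2k : 2 * k ≤ Fintype.card V := by
    have h5 : (2 * (k : ℝ)) ≤ Fintype.card V := by rw [← hn]; linarith
    exact_mod_cast h5
  have hBR : (k : ℝ) * (2 * k - 1) + 2 * k * (n - 2 * k) + 2 ≤ (cols c univ).card := by
    have h1 := B3_real (n' := Fintype.card V) k h2k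
    rw [← hn] at h1
    have h8 : (((2 * k).choose 2 + 2 * k * (Fintype.card V - 2 * k) + 1 : ℕ) : ℝ) + 1 ≤
      (cols c univ).card := by exact_mod_cast hB
    rw [h1] at h8
    linarith
  have hk0 : (0 : ℝ) ≤ k := Nat.cast_nonneg _
  -- the missing pairs inside `W`
  have hWm : (W.card : ℝ) ^ 2 - e2 G W ≤
      (W.card - 2 * k) * (2 * n - W.card - 2 * k) + 2 * k + n ^ 2 / 100000000000000 := by
    rw [hY] at hsplit
    linarith
  have hkw : 2 * (k : ℝ) ≤ W.card + 0.00001 * n := by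
    by_contra hcon
    push Not at hcon
    have h1 : 0 ≤ (W.card : ℝ) ^ 2 - e2 G W := by linarith
    have h2 : 0.00001 * n * (0.7 * n) ≤ (2 * k - W.card) * (2 * n - W.card - 2 * k) := by
      apply mul_le_mul
      · linarith
      · linarith
      · linarith
      · linarith
    linarith
  have hWm2 : (W.card : ℝ) ^ 2 - e2 G W ≤ 0.0000201 * n ^ 2 := by
    have h1 : (W.card - 2 * k) * (2 * n - W.card - 2 * k) ≤ 0.00001 * n * (2 * n) := by
      by_cases hs : (W.card : ℝ) ≤ 2 * k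
      · have h2 : (W.card - 2 * k) * (2 * n - W.card - 2 * k) ≤ 0 := by
          apply mul_nonpos_of_nonpos_of_nonneg
          · linarith
          · linarith
        have h3 : 0 ≤ 0.00001 * n * (2 * n) := by positivity
        linarith
      · push Not at hs
        apply mul_le_mul
        · linarith
        · linarith
        · linarith
        · linarith
    linarith
  have hrobW : (W.card : ℝ) ^ 2 ≤ e2 G W + 0.00003 * n ^ 2 := by linarith
  have hRob' := hRob hwn hrobW
  -- typical vertices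
  have hTyW : Typ G W Y θ ⊆ W := by
    unfold Typ
    exact Finset.filter_subset _ _
  have hGdTy : Gd G W Y θ ⊆ Typ G W Y θ := by
    unfold Gd
    exact Finset.filter_subset _ _
  have hXW : Xs G W Y θ ⊆ W := by
    unfold Xs
    exact Finset.filter_subset _ _
  have hTy1 : ∀ v ∈ W \ Typ G W Y θ, (dg G Y v : ℝ) + a / 20 ≤ Y.card := by
    intro v hv
    rw [mem_sdiff] at hv
    by_contra hcon
    push Not at hcon
    apply hv.2
    unfold Typ
    rw [mem_filter]
    refine ⟨hv.1, ?_⟩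
    rw [← hn, ← ha]
    linarith
  have hTy2 : ((W \ Typ G W Y θ).card : ℝ) ≤ a / 50000 := by
    have h1 := miss_count G (Finset.sdiff_subset : W \ Typ G W Y θ ⊆ W) (a / 20) hTy1
    have h2 : ((W \ Typ G W Y θ).card : ℝ) * (a / 20) ≤ a / 50000 * (a / 20) := by linarith
    exact le_of_mul_le_mul_right h2 (by linarith)
  have hGd1 : ∀ v ∈ Typ G W Y θ \ Gd G W Y θ, (dg G W v : ℝ) + 0.03 * n ≤ W.card := by
    intro v hv
    rw [mem_sdiff] at hv
    by_contra hcon
    push Not at hcon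
    apply hv.2
    unfold Gd
    rw [mem_filter]
    refine ⟨hv.1, ?_⟩
    rw [← hn]
    linarith
  have hGd2 : ((Typ G W Y θ \ Gd G W Y θ).card : ℝ) ≤ 0.001 * n := by
    have h1 := e2_count G (Finset.sdiff_subset.trans hTyW : Typ G W Y θ \ Gd G W Y θ ⊆ W)
      (0.03 * n) hGd1
    have h2 : ((Typ G W Y θ \ Gd G W Y θ).card : ℝ) * (0.03 * n) ≤ 0.001 * n * (0.03 * n) := by
      linarith
    exact le_of_mul_le_mul_right h2 (by linarith)
  have hWGd : ((W \ Gd G W Y θ).card : ℝ) ≤ 0.0011 * n := by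
    have h1 : W \ Gd G W Y θ ⊆ (W \ Typ G W Y θ) ∪ (Typ G W Y θ \ Gd G W Y θ) := by
      intro v hv
      rw [mem_sdiff] at hv
      rw [mem_union, mem_sdiff, mem_sdiff]
      by_cases h : v ∈ Typ G W Y θ
      · exact Or.inr ⟨h, hv.2⟩
      · exact Or.inl ⟨hv.1, h⟩
    have h2 := (card_le_card h1).trans (card_union_le _ _)
    have h3 : ((W \ Gd G W Y θ).card : ℝ) ≤
      (W \ Typ G W Y θ).card + (Typ G W Y θ \ Gd G W Y θ).card := by exact_mod_cast h2
    linarith
  have hGdW : Gd G W Y θ ⊆ W := hGdTy.trans hTyW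
  have hdW : ∀ v, (dg G W v : ℝ) ≤ dg G (Gd G W Y θ) v + 0.0011 * n := by
    intro v
    have h1 := dg_le_sdiff G W (W \ Gd G W Y θ) v
    rw [Finset.sdiff_sdiff_eq_self hGdW] at h1
    have h2 : (dg G W v : ℝ) ≤ dg G (Gd G W Y θ) v + (W \ Gd G W Y θ).card := by
      exact_mod_cast h1
    linarith
  have hDX : Gd G W Y θ ⊆ Xs G W Y θ := by
    intro v hv
    have h1 := hv
    unfold Gd at h1
    rw [mem_filter] at h1
    have h2 := h1.2
    rw [← hn] at h2
    have h3 := hdW v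
    unfold Xs
    rw [mem_filter]
    refine ⟨hGdW hv, ?_⟩
    rw [← hn]
    linarith
  have hzd : ∀ v ∈ W \ Xs G W Y θ, (dg G W v : ℝ) ≤ 0.0062 * n := by
    intro v hv
    rw [mem_sdiff] at hv
    have h1 := hdW v
    have h2 : (dg G (Gd G W Y θ) v : ℝ) < n / 200 := by
      by_contra hcon
      push Not at hcon
      apply hv.2
      unfold Xs
      rw [mem_filter]
      refine ⟨hv.1, ?_⟩
      rw [← hn]
      exact hcon
    linarith
  have hzc : ((W \ Xs G W Y θ).card : ℝ) ≤ 0.00012 * n := by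
    have h1 := e2_count G (Finset.sdiff_subset : W \ Xs G W Y θ ⊆ W) (0.27 * n) (by
      intro v hv
      have := hzd v hv
      linarith)
    have h2 : ((W \ Xs G W Y θ).card : ℝ) * (0.27 * n) ≤ 0.00012 * n * (0.27 * n) := by
      linarith
    exact le_of_mul_le_mul_right h2 (by linarith)
  have hLo1 : ∀ y ∈ Y.filter (fun y => (dg G W y : ℝ) + 0.05 * n < W.card),
      (dg G W y : ℝ) + 0.05 * n ≤ W.card := fun y hy => (mem_filter.1 hy).2.le
  rw [← hn, ← ha]
  refine ⟨hn, hR, ha6, han, ?_, hP.dis, hP.uni, hDX, hXW, Finset.filter_subset _ _, hTyW, ?_, ?_,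
    ?_, ?_, ?_, hwn, ?_, ?_, hk, hzd, hzc, ?_, ?_, hp5, htot⟩
  · -- noT
    intro G' hR' hCl T₀ M₁ hT₀ hM₁ hTy hdis hc1 hc2 hc3
    rw [ha] at hc1
    obtain ⟨T, hT, hTc⟩ := hRob' G' hCl T₀ M₁ (k + 1) hT₀ hM₁ hTy hdis hc1 hc2 le_rfl
      (by omega)
    exact hnR ⟨T, (hRE V c univ G' hR').2.2.1 T hT, hTc⟩
  · -- Dc
    have h1 := Finset.card_sdiff_add_card_eq_card hGdW
    have h2 : ((W \ Gd G W Y θ).card : ℝ) + (Gd G W Y θ).card = W.card := by exact_mod_cast h1
    linarith
  · -- Loc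
    have h1 := miss_count' G (Finset.filter_subset (fun y => (dg G W y : ℝ) + 0.05 * n < W.card) Y)
      (0.05 * n) hLo1
    have h2 : ((Y.filter (fun y => (dg G W y : ℝ) + 0.05 * n < W.card)).card : ℝ) * (0.05 * n) ≤
      a / 1000 * (0.05 * n) := by linarith
    exact le_of_mul_le_mul_right h2 (by linarith)
  · -- hiY
    intro y hy
    rw [mem_sdiff, mem_filter] at hy
    by_contra hcon
    push Not at hcon
    exact hy.2 ⟨hy.1, hcon⟩
  · intro v hv
    have := hp2 v hv
    rw [ha]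
    exact this
  · intro y hy
    have := hp3 y hy
    rw [ha]
    linarith
  · linarith
  · linarith
  · -- xk
    have h1 := Finset.card_sdiff_add_card_eq_card hXW
    have h2 : ((W \ Xs G W Y θ).card : ℝ) + (Xs G W Y θ).card = W.card := by exact_mod_cast h1
    linarith
  · -- star
    have h1 := hSt V G W Y (Typ G W Y θ)
      (Y.filter (fun y => (dg G W y : ℝ) + 0.05 * n < W.card)) (a / 20) (0.05 * n) hP.dis hP.uni
      hTyW (Finset.filter_subset _ _) (by linarith) (by linarith) hTy1 (by linarith) hLo1 (by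
        intro y hy
        have h2 := hp3 y hy
        have h3 : 4 * θ * n = 4 * a := by rw [ha]; ring
        rw [h3] at h2
        linarith)
    rw [htotR] at h1
    exact h1

end J22b

theorem pDIii (hRob : tRob) (hRE : tRepE) (hSw : tSwM) (hSt : tStar) : tDIii := by
  refine ⟨1 / 100000, 1 / 10000, by norm_num, by norm_num, ?_⟩
  intro θ hθ hθ1
  obtain ⟨N, hN⟩ := hRob θ hθ hθ1
  refine ⟨θ ^ 2 / 1000000, by positivity, max N ⌈1000000 / θ⌉₊, ?_⟩
  intro V _ _ c G k W Y hcard hk1 hR hnR hP hC hk hw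
  by_cases hB : (cols c univ).card ≤ (2 * k).choose 2 + 2 * k * (Fintype.card V - 2 * k) + 1
  · exact Or.inl hB
  push Not at hB
  have hNn : N ≤ Fintype.card V := (le_max_left _ _).trans hcard
  have hθn : 1000000 ≤ θ * Fintype.card V := by
    have h1 : (1000000 / θ : ℝ) ≤ Fintype.card V :=
      (Nat.le_ceil _).trans (by exact_mod_cast (le_max_right _ _).trans hcard)
    rw [div_le_iff₀ hθ] at h1
    linarith
  have hP' : PartI G k (θ ^ 2 / 10000) θ W Y := by
    refine ⟨hP.dis, hP.uni, ?_, hP.p2, hP.p3, hP.p4, ?_⟩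
    · have h1 := hP.p1
      have h2 : θ ^ 2 / 1000000 * (Fintype.card V : ℝ) ^ 2 ≤
          θ ^ 2 / 10000 * (Fintype.card V : ℝ) ^ 2 := by
        apply mul_le_mul_of_nonneg_right _ (by positivity)
        have : 0 ≤ θ ^ 2 := by positivity
        linarith
      linarith
    · have h1 := hP.p5
      have h2 : θ ^ 2 / 1000000 * (Fintype.card V : ℝ) ^ 2 ≤
          θ ^ 2 / 10000 * (Fintype.card V : ℝ) ^ 2 := by
        apply mul_le_mul_of_nonneg_right _ (by positivity)
        have : 0 ≤ θ ^ 2 := by positivity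
        linarith
      linarith
  exact (J22b.mkCtx hRE hSt c G k W Y θ hθ hθ1 hθn hR hnR hP
    (fun h1 h2 G' hCl => hN V G G' k W Y hNn hP' h1 h2 hCl) hC hk hw hB).final hSw

end Pool.Agent.ART
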