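import Pool.Agent.ART.Basic
import Pool.Agent.ART.Targets

set_option autoImplicit false

/-! Anti-Ramsey numbers of vertex-disjoint triangles (MP_e56f3d_co): J22b, general lemmas. -/

namespace Pool.Agent.ART.J22b

open Finset

section gen

variable {V : Type}

lemma Cl_refl (G : SimpleGraph V) (q : ℕ) : Cl q G G := ⟨∅, by simp, fun _ _ h _ => h⟩

lemma Cl_mono {G G' : SimpleGraph V} {q r : ℕ} (h : Cl q G G') (hqr : q ≤ r) : Cl r G G' := by
  obtain ⟨E, hE, h⟩ := h
  exact ⟨E, hE.trans hqr, h⟩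

lemma Cl_dg {G G' : SimpleGraph V} {q : ℕ} (h : Cl q G G') (A : Finset V) (v : V) :
    dg G A v ≤ dg G' A v + q := by
  classical
  obtain ⟨E, hE, h⟩ := h
  rw [dg_def, dg_def]
  have h1 : A.filter (fun u => G.Adj v u) ⊆
      A.filter (fun u => G'.Adj v u) ∪ A.filter (fun u => s(v, u) ∈ E) := by
    intro u hu
    rw [mem_union, mem_filter, mem_filter]
    rw [mem_filter] at hu
    by_cases hE' : s(v, u) ∈ E
    · exact Or.inr ⟨hu.1, hE'⟩
    · exact Or.inl ⟨hu.1, h _ _ hu.2 hE'⟩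
  have h2 : (A.filter (fun u => s(v, u) ∈ E)).card ≤ E.card := by
    apply Finset.card_le_card_of_injOn (fun u => s(v, u))
    · intro u hu
      have hu' : u ∈ A.filter (fun u => s(v, u) ∈ E) := hu
      exact (mem_filter.1 hu').2
    · intro u _ u' _ huu
      exact Sym2.congr_right.1 huu
  calc (A.filter (fun u => G.Adj v u)).card
      ≤ (A.filter (fun u => G'.Adj v u) ∪ A.filter (fun u => s(v, u) ∈ E)).card :=
        card_le_card h1
    _ ≤ (A.filter (fun u => G'.Adj v u)).card + (A.filter (fun u => s(v, u) ∈ E)).card :=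
        card_union_le _ _
    _ ≤ (A.filter (fun u => G'.Adj v u)).card + q := by omega

open Classical in
/-- common neighbours in `D ⊆ W` -/
lemma common (R : SimpleGraph V) {D W : Finset V} (h : D ⊆ W) (u u' : V) :
    D.card + dg R W u + dg R W u' ≤
      (D.filter (fun v => R.Adj u v ∧ R.Adj u' v)).card + 2 * W.card := by
  have h1 : D ⊆ D.filter (fun v => R.Adj u v ∧ R.Adj u' v) ∪
      (W.filter (fun v => ¬ R.Adj u v) ∪ W.filter (fun v => ¬ R.Adj u' v)) := by
    intro v hv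
    rw [mem_union, mem_union, mem_filter, mem_filter, mem_filter]
    by_cases h1 : R.Adj u v
    · by_cases h2 : R.Adj u' v
      · exact Or.inl ⟨hv, h1, h2⟩
      · exact Or.inr (Or.inr ⟨h hv, h2⟩)
    · exact Or.inr (Or.inl ⟨h hv, h1⟩)
  have h2 : ∀ w : V, dg R W w + (W.filter (fun v => ¬ R.Adj w v)).card = W.card := by
    intro w
    rw [dg_def]
    exact Finset.card_filter_add_card_filter_not (s := W) (fun v => R.Adj w v)
  have h3 := card_le_card h1
  have h4 := card_union_le (D.filter (fun v => R.Adj u v ∧ R.Adj u' v))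
    (W.filter (fun v => ¬ R.Adj u v) ∪ W.filter (fun v => ¬ R.Adj u' v))
  have h5 := card_union_le (W.filter (fun v => ¬ R.Adj u v)) (W.filter (fun v => ¬ R.Adj u' v))
  have h6 := h2 u
  have h7 := h2 u'
  omega

lemma exists_two [DecidableEq V] (R : SimpleGraph V) (A : Finset V) (h : 2 < e2 R A) :
    ∃ u v u' v', u ∈ A ∧ v ∈ A ∧ u' ∈ A ∧ v' ∈ A ∧ R.Adj u v ∧ R.Adj u' v' ∧
      s(u, v) ≠ s(u', v') := by
  classical
  have h0 : e2 R A = ((A ×ˢ A).filter (fun p => R.Adj p.1 p.2)).card := by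
    unfold e2
    rw [Finset.card_filter, Finset.sum_product]
    exact Finset.sum_congr rfl fun v _ => dg_eq_sum R A v
  rw [h0] at h
  obtain ⟨p, hp⟩ := Finset.card_pos.1 (by omega : 0 < ((A ×ˢ A).filter
    (fun p => R.Adj p.1 p.2)).card)
  have h1 : ¬ ((A ×ˢ A).filter (fun p => R.Adj p.1 p.2)) ⊆ {p, (p.2, p.1)} := by
    intro hsub
    have h2 := card_le_card hsub
    have h3 : ({p, (p.2, p.1)} : Finset (V × V)).card ≤ 2 := Finset.card_le_two
    omega
  rw [Finset.not_subset] at h1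
  obtain ⟨q, hq, hqp⟩ := h1
  rw [mem_filter, mem_product] at hp hq
  refine ⟨p.1, p.2, q.1, q.2, hp.1.1, hp.1.2, hq.1.1, hq.1.2, hp.2, hq.2, ?_⟩
  intro heq
  apply hqp
  rw [mem_insert, mem_singleton]
  rw [Sym2.eq_iff] at heq
  rcases heq with ⟨h4, h5⟩ | ⟨h4, h5⟩
  · exact Or.inl (Prod.ext h4.symm h5.symm)
  · exact Or.inr (Prod.ext h5.symm h4.symm)

variable [DecidableEq V]

lemma MF_insert {R : SimpleGraph V} {A : Finset V} {M : Finset (V × V)} (h : MF R A M) {u v : V}
    (hu : u ∈ A) (hv : v ∈ A) (huv : R.Adj u v) (hu' : u ∉ vM M) (hv' : v ∉ vM M) :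
    MF R A (insert (u, v) M) ∧ (insert (u, v) M).card = M.card + 1 := by
  have hn : (u, v) ∉ M := fun hm => hu' (mem_vM.2 ⟨_, hm, Or.inl rfl⟩)
  have key : ∀ q ∈ M, u ≠ q.1 ∧ u ≠ q.2 ∧ v ≠ q.1 ∧ v ≠ q.2 := by
    intro q hq
    refine ⟨?_, ?_, ?_, ?_⟩
    · rintro rfl; exact hu' (mem_vM.2 ⟨q, hq, Or.inl rfl⟩)
    · rintro rfl; exact hu' (mem_vM.2 ⟨q, hq, Or.inr rfl⟩)
    · rintro rfl; exact hv' (mem_vM.2 ⟨q, hq, Or.inl rfl⟩)
    · rintro rfl; exact hv' (mem_vM.2 ⟨q, hq, Or.inr rfl⟩)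
  refine ⟨⟨?_, ?_⟩, Finset.card_insert_of_notMem hn⟩
  · intro p hp
    rw [mem_insert] at hp
    rcases hp with rfl | hp
    · exact ⟨hu, hv, huv⟩
    · exact h.mem p hp
  · intro p hp q hq hpq
    rw [mem_insert] at hp hq
    rcases hp with rfl | hp <;> rcases hq with rfl | hq
    · exact absurd rfl hpq
    · exact key q hq
    · obtain ⟨h1, h2, h3, h4⟩ := key p hp
      exact ⟨h1.symm, h3.symm, h2.symm, h4.symm⟩
    · exact h.dis p hp q hq hpq

/-- a graph of small degrees without large matchings has few edges -/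
lemma e2_le_of_not_hasM (R : SimpleGraph V) (A : Finset V) (m : ℕ) (D : ℝ) (hD0 : 0 ≤ D)
    (h : ¬ HasM R A (m + 1)) (hD : ∀ v ∈ A, (dg R A v : ℝ) ≤ D) :
    (e2 R A : ℝ) ≤ 4 * m * D := by
  classical
  have hex : ∃ j, ¬ HasM R A j := ⟨m + 1, h⟩
  have hj1 := Nat.find_spec hex
  have hj2 : Nat.find hex ≤ m + 1 := Nat.find_min' hex h
  have hj0 : Nat.find hex ≠ 0 := by
    intro h0
    rw [h0] at hj1
    exact hj1 ⟨∅, ⟨by simp, by simp⟩, rfl⟩
  obtain ⟨j, hj⟩ := Nat.exists_eq_succ_of_ne_zero hj0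
  rw [Nat.succ_eq_add_one] at hj
  have hj3 : HasM R A j := by
    by_contra hcon
    have := Nat.find_min' hex hcon
    omega
  rw [hj] at hj1
  obtain ⟨M, hM, hMc⟩ := hj3
  have hno : ∀ u ∈ A \ vM M, ∀ v ∈ A \ vM M, ¬ R.Adj u v := by
    intro u hu v hv huv
    rw [mem_sdiff] at hu hv
    obtain ⟨h1, h2⟩ := MF_insert hM hu.1 hv.1 huv hu.2 hv.2
    exact hj1 ⟨_, h1, by rw [h2, hMc]⟩
  have h1 := e2_sdiff' R hM.vM_sub
  have h2 : e2 R (A \ vM M) = 0 := by
    unfold e2
    exact Finset.sum_eq_zero fun v hv => (dg_eq_zero_iff R _ v).2 fun u hu => hno v hv u hu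
  have h3 : (∑ v ∈ vM M, (dg R A v : ℝ)) ≤ (vM M).card * D := by
    calc (∑ v ∈ vM M, (dg R A v : ℝ)) ≤ ∑ _v ∈ vM M, D :=
          Finset.sum_le_sum fun v hv => hD v (hM.vM_sub hv)
      _ = (vM M).card * D := by rw [Finset.sum_const, nsmul_eq_mul]
  have h4 : (e2 R A : ℝ) ≤ 2 * ∑ v ∈ vM M, (dg R A v : ℝ) := by
    have : e2 R A ≤ 2 * ∑ v ∈ vM M, dg R A v := by omega
    have h5 : ((2 * ∑ v ∈ vM M, dg R A v : ℕ) : ℝ) = 2 * ∑ v ∈ vM M, (dg R A v : ℝ) := by
      push_cast
      ring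
    rw [← h5]
    exact_mod_cast this
  rw [hM.card_vM, hMc] at h3
  have h6 : (j : ℝ) ≤ m := by
    have : j ≤ m := by omega
    exact_mod_cast this
  push_cast at h3
  nlinarith [mul_le_mul_of_nonneg_right h6 hD0]

lemma vT_insert (t : Finset V) (T : Finset (Finset V)) : vT (insert t T) = t ∪ vT T := by
  unfold vT
  rw [Finset.biUnion_insert]
  rfl

lemma vM_insert (p : V × V) (M : Finset (V × V)) : vM (insert p M) = {p.1, p.2} ∪ vM M := by
  ext v
  rw [mem_union, mem_vM, mem_vM, mem_insert, mem_singleton]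
  constructor
  · rintro ⟨q, hq, hv⟩
    rw [mem_insert] at hq
    rcases hq with rfl | hq
    · exact Or.inl hv
    · exact Or.inr ⟨q, hq, hv⟩
  · rintro (hv | ⟨q, hq, hv⟩)
    · exact ⟨p, mem_insert_self _ _, hv⟩
    · exact ⟨q, mem_insert_of_mem hq, hv⟩

open Classical in
/-- completing a matching in `U` to triangles with apexes in `D` -/
lemma apex [Fintype V] (R : SimpleGraph V) (U D : Finset V) (hUD : Disjoint U D) (N : ℕ) :
    ∀ M : Finset (V × V), MF R U M →
    (∀ p ∈ M, N ≤ (D.filter (fun v => R.Adj p.1 v ∧ R.Adj p.2 v)).card) → M.card ≤ N →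
    ∃ T, TF R univ T ∧ T.card = M.card ∧ vT T ⊆ vM M ∪ D ∧ (vT T ∩ D).card ≤ M.card := by
  intro M
  induction M using Finset.induction_on with
  | empty =>
    intro _ _ _
    refine ⟨∅, ⟨by simp, by simp, by simp⟩, rfl, ?_, ?_⟩
    · unfold vT; simp
    · unfold vT; simp
  | insert p M hpM ih =>
    intro hM hN hc
    have hc' : M.card + 1 ≤ N := by rwa [Finset.card_insert_of_notMem hpM] at hc
    obtain ⟨T, hT, hTc, hTs, hTD⟩ := ih (hM.subset (Finset.subset_insert _ _))
      (fun q hq => hN q (mem_insert_of_mem hq)) (by omega)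
    have hpD := hN p (mem_insert_self _ _)
    obtain ⟨d, hd, hdT⟩ : ∃ d ∈ D.filter (fun v => R.Adj p.1 v ∧ R.Adj p.2 v), d ∉ vT T ∩ D := by
      by_contra hcon
      push Not at hcon
      have := card_le_card (fun x hx => hcon x hx : D.filter (fun v => R.Adj p.1 v ∧ R.Adj p.2 v) ⊆ vT T ∩ D)
      omega
    rw [mem_filter] at hd
    have hdT' : d ∉ vT T := fun h => hdT (mem_inter.2 ⟨h, hd.1⟩)
    have hpm := hM.mem p (mem_insert_self _ _)
    have hpn : p.1 ∉ vM M ∧ p.2 ∉ vM M := by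
      constructor
      · intro h
        obtain ⟨q, hq, h1⟩ := mem_vM.1 h
        have h2 := hM.dis p (mem_insert_self _ _) q (mem_insert_of_mem hq)
          (by rintro rfl; exact hpM hq)
        rcases h1 with h1 | h1
        · exact h2.1 h1
        · exact h2.2.1 h1
      · intro h
        obtain ⟨q, hq, h1⟩ := mem_vM.1 h
        have h2 := hM.dis p (mem_insert_self _ _) q (mem_insert_of_mem hq)
          (by rintro rfl; exact hpM hq)
        rcases h1 with h1 | h1
        · exact h2.2.2.1 h1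
        · exact h2.2.2.2 h1
    have hpU : p.1 ∉ D ∧ p.2 ∉ D := by
      rw [Finset.disjoint_left] at hUD
      exact ⟨hUD hpm.1, hUD hpm.2.1⟩
    have hpT : p.1 ∉ vT T ∧ p.2 ∉ vT T := by
      constructor
      · intro h
        rcases mem_union.1 (hTs h) with h | h
        · exact hpn.1 h
        · exact hpU.1 h
      · intro h
        rcases mem_union.1 (hTs h) with h | h
        · exact hpn.2 h
        · exact hpU.2 h
    have htri : Tri R p.1 p.2 d := ⟨hpm.2.2, hd.2.2, hd.2.1⟩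
    obtain ⟨h1, h2⟩ := hT.insert htri (Finset.subset_univ _) (by
      rw [Finset.disjoint_left]
      intro v hv
      rw [mem_insert, mem_insert, mem_singleton] at hv
      rcases hv with rfl | rfl | rfl
      · exact hpT.1
      · exact hpT.2
      · exact hdT')
    refine ⟨_, h1, ?_, ?_, ?_⟩
    · rw [h2, hTc, Finset.card_insert_of_notMem hpM]
    · rw [vT_insert, vM_insert]
      intro v hv
      rw [mem_union, mem_insert, mem_insert, mem_singleton] at hv
      rw [mem_union, mem_union, mem_insert, mem_singleton]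
      rcases hv with (rfl | rfl | rfl) | hv
      · exact Or.inl (Or.inl (Or.inl rfl))
      · exact Or.inl (Or.inl (Or.inr rfl))
      · exact Or.inr hd.1
      · rcases mem_union.1 (hTs hv) with h | h
        · exact Or.inl (Or.inr h)
        · exact Or.inr h
    · rw [vT_insert, Finset.card_insert_of_notMem hpM]
      have h3 : ({p.1, p.2, d} ∪ vT T) ∩ D ⊆ insert d (vT T ∩ D) := by
        intro v hv
        rw [mem_inter, mem_union, mem_insert, mem_insert, mem_singleton] at hv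
        rw [mem_insert, mem_inter]
        rcases hv with ⟨(rfl | rfl | rfl) | hv, hv'⟩
        · exact absurd hv' hpU.1
        · exact absurd hv' hpU.2
        · exact Or.inl rfl
        · exact Or.inr ⟨hv, hv'⟩
      have h4 := card_le_card h3
      have h5 := Finset.card_insert_le d (vT T ∩ D)
      omega

/-- edges inside `W = X ∪ Z`: those inside `X` and those touching `Z` -/
lemma e2_split (H : SimpleGraph V) {X Z W : Finset V} (hXZ : Disjoint X Z) (hW : X ∪ Z = W) :
    e2 H W ≤ X.card * (X.card - 1) + e2 (Gm H Z) W := by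
  classical
  have h1 : e2 H W = ∑ v ∈ X, dg H W v + ∑ v ∈ Z, dg H W v := by
    unfold e2
    rw [← hW, Finset.sum_union hXZ]
  have h2 : e2 (Gm H Z) W = ∑ v ∈ X, dg (Gm H Z) W v + ∑ v ∈ Z, dg (Gm H Z) W v := by
    unfold e2
    rw [← hW, Finset.sum_union hXZ]
  have h3 : ∑ v ∈ Z, dg H W v ≤ ∑ v ∈ Z, dg (Gm H Z) W v := by
    apply Finset.sum_le_sum
    intro v hv
    rw [dg_def, dg_def]
    apply card_le_card
    intro u hu
    rw [mem_filter] at hu ⊢
    exact ⟨hu.1, hu.2, Or.inl hv⟩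
  have h4 : ∑ v ∈ X, dg H W v ≤ e2 H X + ∑ v ∈ X, dg (Gm H Z) W v := by
    unfold e2
    rw [← Finset.sum_add_distrib]
    apply Finset.sum_le_sum
    intro v hv
    rw [← hW, dg_union H hXZ]
    apply Nat.add_le_add_left
    rw [dg_def, dg_def]
    apply card_le_card
    intro u hu
    rw [mem_filter] at hu ⊢
    exact ⟨mem_union_right _ hu.1, hu.2, Or.inr hu.1⟩
  have h5 := e2_le H X
  omega

end gen

end Pool.Agent.ART.J22b
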