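import Pool.Agent.ART.J22bA

set_option autoImplicit false

/-! Anti-Ramsey numbers of vertex-disjoint triangles (MP_e56f3d_co): J22b, the setting and the
lemmas on it. -/

namespace Pool.Agent.ART.J22b

open Finset

/-- the setting -/
structure Ctx {V : Type} [Fintype V] [DecidableEq V] (c : Sym2 V → ℕ) (G : SimpleGraph V) (k : ℕ)
    (W Y X D Lo Ty : Finset V) (a n : ℝ) : Prop where
  hn : n = Fintype.card V
  rep : Rep c univ G
  ha : 1000000 ≤ a
  han : 10000 * a ≤ n
  noT : ∀ G', Rep c univ G' → Cl 60 G G' → ∀ (T₀ : Finset (Finset V)) (M₁ : Finset (V × V)),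
    TF G' univ T₀ → MF G' W M₁ → (∀ p ∈ M₁, p.1 ∈ Ty ∨ p.2 ∈ Ty) → Disjoint (vT T₀) (vM M₁) →
    (T₀.card : ℝ) ≤ a / 100 → (M₁.card : ℝ) ≤ n / 1000 →
    ¬ (2 * k + 2 ≤ 2 * T₀.card + 2 * M₁.card + (X \ (vT T₀ ∪ vM M₁)).card)
  dis : Disjoint W Y
  uni : W ∪ Y = univ
  DX : D ⊆ X
  XW : X ⊆ W
  LoY : Lo ⊆ Y
  TyW : Ty ⊆ W
  Dc : (W.card : ℝ) ≤ D.card + 0.0011 * n
  Loc : (Lo.card : ℝ) ≤ a / 1000
  hiY : ∀ y ∈ Y \ Lo, (W.card : ℝ) ≤ dg G W y + 0.05 * n
  p2 : ∀ v ∈ W, a ≤ dg G Y v
  p3 : ∀ y ∈ Y, (dg G Y y : ℝ) ≤ 4 * a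
  wn : 0.28 * n ≤ W.card
  yn : 0.38 * n ≤ Y.card
  k1 : 0.139 * n ≤ k
  k2 : (k : ℝ) ≤ 0.3075 * n
  zd : ∀ v ∈ W \ X, (dg G W v : ℝ) ≤ 0.0062 * n
  zc : ((W \ X).card : ℝ) ≤ 0.00012 * n
  xk : (2 * k : ℝ) ≤ X.card + 0.0002 * n
  star : 2 * ((cols c univ).card : ℝ) + miss G W Y ≤
    e2 (Gm G Ty) W + 2 * ((W.card : ℝ) * Y.card) + e2 G (Y \ Lo)
  e2Y : (e2 G Y : ℝ) ≤ a ^ 2 / 1000000
  tot : e2 G univ = 2 * (cols c univ).card

variable {V : Type} [Fintype V] [DecidableEq V] {c : Sym2 V → ℕ} {G : SimpleGraph V} {k : ℕ}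
    {W Y X D Lo Ty : Finset V} {a n : ℝ}

lemma Ctx.XY (h : Ctx c G k W Y X D Lo Ty a n) {v : V} (hv : v ∈ Y) : v ∉ X := by
  intro hX
  exact (Finset.disjoint_left.1 h.dis) (h.XW hX) hv

lemma card_XT (X S : Finset V) (m : ℕ) (h : (X ∩ S).card ≤ m) : X.card ≤ (X \ S).card + m := by
  have := Finset.card_sdiff_add_card_inter X S
  omega

/-- bonus edges -/
lemma Ctx.bonus (h : Ctx c G k W Y X D Lo Ty a n) {G' : SimpleGraph V} (hR : Rep c univ G')
    (hC : Cl 60 G G') {M : Finset (V × V)} (hM : MF G' (Y \ Lo) M) (hMc : (M.card : ℝ) ≤ a / 200) :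
    ¬ (2 * k + 2 ≤ X.card + M.card) := by
  classical
  intro hk
  have hUD : Disjoint (Y \ Lo) D := by
    rw [Finset.disjoint_left]
    intro v hv hD
    rw [mem_sdiff] at hv
    exact h.XY hv.1 (h.DX hD)
  obtain ⟨T, hT, hTc, hTs, hTD⟩ := apex G' (Y \ Lo) D hUD M.card M hM (by
    intro p hp
    have h1 := common G' (h.DX.trans h.XW) p.1 p.2
    have h2 := Cl_dg hC W p.1
    have h3 := Cl_dg hC W p.2
    have h4 := h.hiY p.1 (hM.mem p hp).1
    have h5 := h.hiY p.2 (hM.mem p hp).2.1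
    have h1' : (D.card : ℝ) + dg G' W p.1 + dg G' W p.2 ≤
      (D.filter (fun v => G'.Adj p.1 v ∧ G'.Adj p.2 v)).card + 2 * W.card := by exact_mod_cast h1
    have h2' : (dg G W p.1 : ℝ) ≤ dg G' W p.1 + 60 := by exact_mod_cast h2
    have h3' : (dg G W p.2 : ℝ) ≤ dg G' W p.2 + 60 := by exact_mod_cast h3
    have h6 : (M.card : ℝ) ≤ (D.filter (fun v => G'.Adj p.1 v ∧ G'.Adj p.2 v)).card := by
      have := h.Dc
      have := h.wn
      have := h.ha
      have := h.han
      linarith
    exact_mod_cast h6) le_rfl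
  have hX : (X ∩ vT T).card ≤ M.card := by
    refine (card_le_card ?_).trans hTD
    intro v hv
    rw [mem_inter] at hv ⊢
    refine ⟨hv.2, ?_⟩
    rcases mem_union.1 (hTs hv.2) with h1 | h1
    · exfalso
      have h2 := hM.vM_sub h1
      rw [mem_sdiff] at h2
      exact h.XY h2.1 hv.1
    · exact h1
  have hX' := card_XT X (vT T) _ hX
  have h7 : vM (∅ : Finset (V × V)) = ∅ := by unfold vM; simp
  refine h.noT G' hR hC T ∅ hT ⟨by simp, by simp⟩ (by simp) ?_ ?_ ?_ ?_
  · rw [h7]; exact Finset.disjoint_empty_right _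
  · rw [hTc]
    have := h.ha
    linarith
  · have := h.ha
    have := h.han
    simp only [Finset.card_empty, Nat.cast_zero]
    linarith
  · rw [h7, Finset.union_empty, hTc, Finset.card_empty]
    omega

/-- free pairs -/
lemma Ctx.free (h : Ctx c G k W Y X D Lo Ty a n) (hSw : tSwM) (hx : 2 * k ≤ X.card + 1) {v : V}
    (hv : v ∈ W) {Y' : Finset V} (hY : Y' ⊆ Y) (hY' : ∀ u ∈ Y', G.Adj v u)
    (hc : a / 2 ≤ (Y'.card : ℝ)) :
    ∃ u ∈ Y', ∃ u' ∈ Y', u ≠ u' ∧ c s(u, u') ≠ c s(v, u) ∧ c s(u, u') ≠ c s(v, u') := by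
  classical
  by_contra hcon
  have hcon' : ∀ u ∈ Y', ∀ u' ∈ Y', u ≠ u' → c s(u, u') = c s(v, u) ∨ c s(u, u') = c s(v, u') := by
    intro u hu u' hu' hne
    by_contra h1
    push Not at h1
    exact hcon ⟨u, hu, u', hu', hne, h1.1, h1.2⟩
  have h6 : 6 ≤ (Y' \ Lo).card := by
    have h1 := Finset.le_card_sdiff Lo Y'
    have h2 : (Y'.card : ℝ) - Lo.card ≤ (Y' \ Lo).card := by
      have h3 : Y'.card ≤ (Y' \ Lo).card + Lo.card := by omega
      have h4 : (Y'.card : ℝ) ≤ (Y' \ Lo).card + Lo.card := by exact_mod_cast h3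
      linarith
    have h5 := h.Loc
    have h6 := h.ha
    have h7 : (6 : ℝ) ≤ (Y' \ Lo).card := by linarith
    exact_mod_cast h7
  obtain ⟨S, hS, hSc⟩ := Finset.exists_subset_card_eq h6
  obtain ⟨f, hf, hfS⟩ : ∃ f : Fin 6 → V, Function.Injective f ∧ ∀ i, f i ∈ S := by
    refine ⟨fun i => ((S.equivFinOfCardEq hSc).symm i : V), ?_, fun i => Subtype.property _⟩
    intro i j hij
    exact (S.equivFinOfCardEq hSc).symm.injective (Subtype.ext hij)
  have hfL : ∀ i, f i ∈ Y \ Lo := by
    intro i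
    have := hS (hfS i)
    rw [mem_sdiff] at this ⊢
    exact ⟨hY this.1, this.2⟩
  have hfY : ∀ i, f i ∈ Y' := by
    intro i
    have := hS (hfS i)
    rw [mem_sdiff] at this
    exact this.1
  have hcol : ∀ i j : Fin 6, i ≠ j → c s(f i, f j) = c s(v, f i) ∨ c s(f i, f j) = c s(v, f j) :=
    fun i j hij => hcon' _ (hfY i) _ (hfY j) (hf.ne hij)
  have hvv : ∀ i j : Fin 6, c s(v, f i) = c s(v, f j) → i = j := by
    intro i j hij
    have h1 := h.rep.inj _ _ _ _ (hY' _ (hfY i)) (hY' _ (hfY j)) hij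
    exact hf (Sym2.congr_right.1 h1)
  have hpair : ∀ i j i' j' : Fin 6, i ≠ j → i' ≠ j' → i ≠ i' → i ≠ j' → j ≠ i' → j ≠ j' →
      c s(f i, f j) ≠ c s(f i', f j') := by
    intro i j i' j' h1 h2 h3 h4 h5 h6 heq
    rcases hcol i j h1 with h7 | h7 <;> rcases hcol i' j' h2 with h8 | h8 <;>
      rw [h7, h8] at heq
    · exact h3 (hvv _ _ heq)
    · exact h4 (hvv _ _ heq)
    · exact h5 (hvv _ _ heq)
    · exact h6 (hvv _ _ heq)
  have e1 : c s(f 0, f 1) ≠ c s(f 2, f 3) := hpair 0 1 2 3 (by decide) (by decide) (by decide)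
    (by decide) (by decide) (by decide)
  have e2 : c s(f 0, f 1) ≠ c s(f 4, f 5) := hpair 0 1 4 5 (by decide) (by decide) (by decide)
    (by decide) (by decide) (by decide)
  have e3 : c s(f 2, f 3) ≠ c s(f 4, f 5) := hpair 2 3 4 5 (by decide) (by decide) (by decide)
    (by decide) (by decide) (by decide)
  obtain ⟨G', hR', hC', hP', -, -⟩ := hSw V c G {s(f 0, f 1), s(f 2, f 3), s(f 4, f 5)} h.rep
    (by
      intro e he
      rw [mem_insert, mem_insert, mem_singleton] at he
      rcases he with rfl | rfl | rfl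
      · exact fun hd => hf.ne (by decide : (0 : Fin 6) ≠ 1) (Sym2.mk_isDiag_iff.1 hd)
      · exact fun hd => hf.ne (by decide : (2 : Fin 6) ≠ 3) (Sym2.mk_isDiag_iff.1 hd)
      · exact fun hd => hf.ne (by decide : (4 : Fin 6) ≠ 5) (Sym2.mk_isDiag_iff.1 hd))
    (by
      intro e he e' he' hee
      rw [mem_insert, mem_insert, mem_singleton] at he he'
      rcases he with rfl | rfl | rfl <;> rcases he' with rfl | rfl | rfl
      · rfl
      · exact absurd hee e1
      · exact absurd hee e2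
      · exact absurd hee.symm e1
      · rfl
      · exact absurd hee e3
      · exact absurd hee.symm e2
      · exact absurd hee.symm e3
      · rfl)
  have hC60 : Cl 60 G G' := Cl_mono hC' (by
    have : ({s(f 0, f 1), s(f 2, f 3), s(f 4, f 5)} : Finset (Sym2 V)).card ≤ 3 :=
      Finset.card_le_three
    omega)
  have a1 : G'.Adj (f 0) (f 1) := by
    have := hP' s(f 0, f 1) (by simp)
    simpa using this
  have a2 : G'.Adj (f 2) (f 3) := by
    have := hP' s(f 2, f 3) (by simp)
    simpa using this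
  have a3 : G'.Adj (f 4) (f 5) := by
    have := hP' s(f 4, f 5) (by simp)
    simpa using this
  have m0 : MF G' (Y \ Lo) ∅ := ⟨by simp, by simp⟩
  have v0 : vM (∅ : Finset (V × V)) = ∅ := by unfold vM; simp
  have hne : ∀ i j : Fin 6, i ≠ j → f i ≠ f j := fun i j hij => hf.ne hij
  obtain ⟨m1, c1⟩ := MF_insert m0 (hfL 0) (hfL 1) a1 (by rw [v0]; simp) (by rw [v0]; simp)
  obtain ⟨m2, c2⟩ := MF_insert m1 (hfL 2) (hfL 3) a2
    (by
      rw [vM_insert, v0]
      simp only [mem_union, mem_insert, mem_singleton, Finset.notMem_empty, or_false]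
      rintro (h1 | h1)
      · exact hne 2 0 (by decide) h1
      · exact hne 2 1 (by decide) h1)
    (by
      rw [vM_insert, v0]
      simp only [mem_union, mem_insert, mem_singleton, Finset.notMem_empty, or_false]
      rintro (h1 | h1)
      · exact hne 3 0 (by decide) h1
      · exact hne 3 1 (by decide) h1)
  obtain ⟨m3, c3⟩ := MF_insert m2 (hfL 4) (hfL 5) a3
    (by
      rw [vM_insert, vM_insert, v0]
      simp only [mem_union, mem_insert, mem_singleton, Finset.notMem_empty, or_false]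
      rintro ((h1 | h1) | (h1 | h1))
      · exact hne 4 2 (by decide) h1
      · exact hne 4 3 (by decide) h1
      · exact hne 4 0 (by decide) h1
      · exact hne 4 1 (by decide) h1)
    (by
      rw [vM_insert, vM_insert, v0]
      simp only [mem_union, mem_insert, mem_singleton, Finset.notMem_empty, or_false]
      rintro ((h1 | h1) | (h1 | h1))
      · exact hne 5 2 (by decide) h1
      · exact hne 5 3 (by decide) h1
      · exact hne 5 0 (by decide) h1
      · exact hne 5 1 (by decide) h1)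
  have hc3 : (insert (f 4, f 5) (insert (f 2, f 3) (insert (f 0, f 1) (∅ : Finset (V × V))))).card
      = 3 := by
    rw [c3, c2, c1, Finset.card_empty]
  refine h.bonus hR' hC60 m3 ?_ ?_
  · rw [hc3]
    have := h.ha
    norm_num
    linarith
  · rw [hc3]
    omega

lemma TF_single {R : SimpleGraph V} {x y z : V} (ht : Tri R x y z) :
    TF R univ {{x, y, z}} ∧ vT ({{x, y, z}} : Finset (Finset V)) = {x, y, z} := by
  have h0 : TF R univ (∅ : Finset (Finset V)) := ⟨by simp, by simp, by simp⟩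
  have v0 : vT (∅ : Finset (Finset V)) = ∅ := by unfold vT; simp
  obtain ⟨h1, h2⟩ := h0.insert ht (Finset.subset_univ _) (by rw [v0]; exact disjoint_empty_right _)
  refine ⟨h1, ?_⟩
  have h3 := vT_insert ({x, y, z} : Finset V) ∅
  rw [v0, Finset.union_empty] at h3
  exact h3

/-- one switch -/
lemma switch1 (hSw : tSwM) (hG : Rep c univ G) {u u' : V} (huu : u ≠ u') :
    ∃ G' : SimpleGraph V, Rep c univ G' ∧ Cl 1 G G' ∧ G'.Adj u u' ∧
      (∀ p q, G.Adj p q → c s(u, u') ≠ c s(p, q) → G'.Adj p q) := by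
  obtain ⟨G', h1, h2, h3, h4, -⟩ := hSw V c G {s(u, u')} hG
    (by
      intro e he
      rw [mem_singleton] at he
      rw [he]
      exact fun hd => huu (Sym2.mk_isDiag_iff.1 hd))
    (by
      intro e he e' he' _
      rw [mem_singleton] at he he'
      rw [he, he'])
  refine ⟨G', h1, by rwa [Finset.card_singleton] at h2, ?_, ?_⟩
  · have := h3 s(u, u') (by simp)
    simpa using this
  · intro p q hpq hc
    apply h4 p q hpq
    intro e he
    rw [mem_singleton] at he
    rw [he]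
    exact hc

/-- a triangle at one vertex `v` of `W` -/
lemma Ctx.tri (h : Ctx c G k W Y X D Lo Ty a n) (hSw : tSwM) {v : V} (hv : v ∈ W)
    (hx : 2 * k ≤ X.card) (hx' : v ∈ X → 2 * k + 1 ≤ X.card) : False := by
  classical
  obtain ⟨u, hu, u', hu', huu, h1, h2⟩ := h.free hSw (by omega) hv
    (Finset.filter_subset (fun u => G.Adj v u) Y) (fun u hu => (mem_filter.1 hu).2) (by
      have h1 := h.p2 v hv
      rw [dg_def] at h1
      have h2 := h.ha
      linarith)
  rw [mem_filter] at hu hu'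
  obtain ⟨G', hR, hC, h3, h4⟩ := switch1 hSw h.rep huu
  have t1 : Tri G' v u u' := ⟨h4 _ _ hu.2 h1, h3, h4 _ _ hu'.2 h2⟩
  obtain ⟨h5, h6⟩ := TF_single t1
  have h7 : vM (∅ : Finset (V × V)) = ∅ := by unfold vM; simp
  refine h.noT G' hR (Cl_mono hC (by norm_num)) _ ∅ h5 ⟨by simp, by simp⟩ (by simp) ?_ ?_ ?_ ?_
  · rw [h7]; exact disjoint_empty_right _
  · rw [Finset.card_singleton]
    have := h.ha
    norm_num
    linarith
  · have := h.ha
    have := h.han
    simp only [Finset.card_empty, Nat.cast_zero]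
    linarith
  · rw [h7, h6, Finset.union_empty, Finset.card_singleton, Finset.card_empty]
    by_cases hvX : v ∈ X
    · have h8 := card_XT X {v, u, u'} 1 (by
        have : X ∩ {v, u, u'} ⊆ {v} := by
          intro x hx
          rw [mem_inter, mem_insert, mem_insert, mem_singleton] at hx
          rw [mem_singleton]
          rcases hx.2 with h9 | h9 | h9
          · exact h9
          · exact absurd hx.1 (by rw [h9]; exact h.XY hu.1)
          · exact absurd hx.1 (by rw [h9]; exact h.XY hu'.1)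
        have h9 := card_le_card this
        rwa [Finset.card_singleton] at h9)
      have := hx' hvX
      omega
    · have h8 := card_XT X {v, u, u'} 0 (by
        have : X ∩ {v, u, u'} ⊆ ∅ := by
          intro x hx
          rw [mem_inter, mem_insert, mem_insert, mem_singleton] at hx
          exfalso
          rcases hx.2 with h9 | h9 | h9
          · exact hvX (by rw [← h9]; exact hx.1)
          · exact absurd hx.1 (by rw [h9]; exact h.XY hu.1)
          · exact absurd hx.1 (by rw [h9]; exact h.XY hu'.1)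
        have h9 := card_le_card this
        rwa [Finset.card_empty] at h9)
      omega

/-- at most `2 k` vertices in `X`, and fewer if there are other vertices in `W` -/
lemma Ctx.Xle (h : Ctx c G k W Y X D Lo Ty a n) (hSw : tSwM) :
    X.card ≤ 2 * k ∧ (X.card = 2 * k → X = W) := by
  have h7 : vM (∅ : Finset (V × V)) = ∅ := by unfold vM; simp
  have h8 : vT (∅ : Finset (Finset V)) = ∅ := by unfold vT; simp
  have hX2 : X.card ≤ 2 * k + 1 := by
    by_contra hcon
    refine h.noT G h.rep (Cl_refl G 60) ∅ ∅ ⟨by simp, by simp, by simp⟩ ⟨by simp, by simp⟩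
      (by simp) ?_ ?_ ?_ ?_
    · rw [h7]; exact disjoint_empty_right _
    · rw [Finset.card_empty]
      have := h.ha
      norm_num
      linarith
    · have := h.ha
      have := h.han
      simp only [Finset.card_empty, Nat.cast_zero]
      linarith
    · rw [h7, h8, Finset.union_empty, Finset.card_empty, Finset.card_empty, Finset.sdiff_empty]
      omega
  have hD : D.Nonempty := by
    rw [← Finset.card_pos]
    have h1 := h.Dc
    have h2 := h.wn
    have h3 := h.ha
    have h4 := h.han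
    have h5 : (0 : ℝ) < D.card := by linarith
    exact_mod_cast h5
  obtain ⟨d, hd⟩ := hD
  refine ⟨?_, ?_⟩
  · by_contra hcon
    exact h.tri hSw (h.XW (h.DX hd)) (by omega) (fun _ => by omega)
  · intro hX
    by_contra hne
    obtain ⟨z, hz, hzX⟩ : ∃ z ∈ W, z ∉ X := by
      by_contra hcon
      push Not at hcon
      exact hne (Finset.Subset.antisymm h.XW hcon)
    exact h.tri hSw hz (by omega) (fun h' => absurd h' hzX)

end Pool.Agent.ART.J22b
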