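import Pool.Agent.ART.J22bB

set_option autoImplicit false

/-! Anti-Ramsey numbers of vertex-disjoint triangles (MP_e56f3d_co): J22b, counting. -/

namespace Pool.Agent.ART.J22b

open Finset

section gen

variable {V : Type}

lemma miss_eq (G : SimpleGraph V) (W Y : Finset V) :
    (miss G W Y : ℝ) = ∑ v ∈ W, ((Y.card : ℝ) - dg G Y v) := by
  unfold miss
  rw [Nat.cast_sub (eb_le G W Y), Finset.sum_sub_distrib, Finset.sum_const, nsmul_eq_mul]
  unfold eb
  push_cast
  ring

lemma miss_eq' (G : SimpleGraph V) (W Y : Finset V) :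
    (miss G W Y : ℝ) = ∑ y ∈ Y, ((W.card : ℝ) - dg G W y) := by
  have h1 : miss G W Y = miss G Y W := by
    unfold miss
    rw [eb_comm, mul_comm]
  rw [h1, miss_eq]

lemma miss_count (G : SimpleGraph V) {W Y S : Finset V} (hS : S ⊆ W) (b : ℝ)
    (h : ∀ v ∈ S, (dg G Y v : ℝ) + b ≤ Y.card) : (S.card : ℝ) * b ≤ miss G W Y := by
  rw [miss_eq]
  calc (S.card : ℝ) * b = ∑ _v ∈ S, b := by rw [Finset.sum_const, nsmul_eq_mul]
    _ ≤ ∑ v ∈ S, ((Y.card : ℝ) - dg G Y v) := Finset.sum_le_sum fun v hv => by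
        have := h v hv
        linarith
    _ ≤ ∑ v ∈ W, ((Y.card : ℝ) - dg G Y v) :=
        Finset.sum_le_sum_of_subset_of_nonneg hS fun v _ _ => by
          have : (dg G Y v : ℝ) ≤ Y.card := by exact_mod_cast dg_le_card G Y v
          linarith

lemma miss_count' (G : SimpleGraph V) {W Y S : Finset V} (hS : S ⊆ Y) (b : ℝ)
    (h : ∀ v ∈ S, (dg G W v : ℝ) + b ≤ W.card) : (S.card : ℝ) * b ≤ miss G W Y := by
  have h1 : miss G W Y = miss G Y W := by
    unfold miss
    rw [eb_comm, mul_comm]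
  rw [h1]
  exact miss_count G hS b h

lemma e2_le_e2 (R R' : SimpleGraph V) (A : Finset V)
    (h : ∀ u ∈ A, ∀ v ∈ A, R.Adj u v → R'.Adj u v) : e2 R A ≤ e2 R' A := by
  classical
  unfold e2
  apply Finset.sum_le_sum
  intro v hv
  rw [dg_def, dg_def]
  apply card_le_card
  intro u hu
  rw [mem_filter] at hu ⊢
  exact ⟨hu.1, h v hv u hu.1 hu.2⟩

end gen

variable {V : Type} [Fintype V] [DecidableEq V] {c : Sym2 V → ℕ} {G : SimpleGraph V} {k : ℕ}
    {W Y X D Lo Ty : Finset V} {a n : ℝ}

lemma Ctx.wy (h : Ctx c G k W Y X D Lo Ty a n) : (W.card : ℝ) + Y.card = n := by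
  rw [h.hn, ← Finset.card_univ, ← h.uni, Finset.card_union_of_disjoint h.dis]
  push_cast
  ring

lemma Ctx.main (h : Ctx c G k W Y X D Lo Ty a n) (hx : X.card + 1 ≤ 2 * k) :
    2 * ((cols c univ).card : ℝ) + miss G W Y ≤ (X.card : ℝ) * (X.card - 1) +
      2 * ((W.card : ℝ) * Y.card) + 0.0268 * (2 * k + 1 - X.card) * n := by
  classical
  obtain ⟨t, ht⟩ : ∃ t, X.card + t = 2 * k + 1 := ⟨2 * k + 1 - X.card, by omega⟩
  have ht2 : 2 ≤ t := by omega
  have htR : (X.card : ℝ) + t = 2 * k + 1 := by exact_mod_cast ht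
  have ht2R : (2 : ℝ) ≤ t := by exact_mod_cast ht2
  have hxk := h.xk
  have ha := h.ha
  have han := h.han
  have htn : (t : ℝ) ≤ 0.0002 * n + 1 := by linarith
  have v0 : vT (∅ : Finset (Finset V)) = ∅ := by unfold vT; simp
  -- edges touching `W \ X`
  have hz : ¬ HasM (Gm (Gm G Ty) (W \ X)) W (t + 1) := by
    rintro ⟨M, hM, hMc⟩
    have hMG : MF G W M := ⟨fun p hp => ⟨(hM.mem p hp).1, (hM.mem p hp).2.1,
      (hM.mem p hp).2.2.1.1⟩, hM.dis⟩
    have hcount : (X ∩ vM M).card ≤ M.card := by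
      have hsub : X ∩ vM M ⊆ M.image (fun p => if p.1 ∈ X then p.1 else p.2) := by
        intro v hv
        rw [mem_inter] at hv
        obtain ⟨p, hp, hvp⟩ := mem_vM.1 hv.2
        rw [mem_image]
        refine ⟨p, hp, ?_⟩
        have h1 := (hM.mem p hp).2.2.2
        rw [mem_sdiff, mem_sdiff] at h1
        rcases hvp with hvp | hvp
        · rw [← hvp, if_pos hv.1]
        · rcases h1 with h1 | h1
          · rw [if_neg h1.2, hvp]
          · exact absurd hv.1 (by rw [hvp]; exact h1.2)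
      exact (card_le_card hsub).trans Finset.card_image_le
    have hcount' := card_XT X (vM M) _ hcount
    refine h.noT G h.rep (Cl_refl G 60) ∅ M ⟨by simp, by simp, by simp⟩ hMG
      (fun p hp => (hM.mem p hp).2.2.1.2) ?_ ?_ ?_ ?_
    · rw [v0]; exact disjoint_empty_left _
    · rw [Finset.card_empty]
      norm_num
      linarith
    · rw [hMc]
      push_cast
      linarith
    · rw [v0, Finset.empty_union, Finset.card_empty]
      omega
  have hzc := h.zc
  have hn0 : 0 ≤ n := by linarith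
  have e1 : (e2 (Gm (Gm G Ty) (W \ X)) W : ℝ) ≤ 4 * t * (0.0062 * n) := by
    refine e2_le_of_not_hasM _ _ _ _ (by linarith) hz ?_
    intro v hv
    by_cases hvX : v ∈ X
    · have h1 : dg (Gm (Gm G Ty) (W \ X)) W v ≤ (W \ X).card := by
        rw [dg_def]
        apply card_le_card
        intro u hu
        rw [mem_filter] at hu
        rcases hu.2.2 with h2 | h2
        · rw [mem_sdiff] at h2
          exact absurd hvX h2.2
        · exact h2
      have h2 : (dg (Gm (Gm G Ty) (W \ X)) W v : ℝ) ≤ (W \ X).card := by exact_mod_cast h1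
      linarith
    · have h1 : dg (Gm (Gm G Ty) (W \ X)) W v ≤ dg G W v :=
        dg_mono_graph (G := Gm (Gm G Ty) (W \ X)) (G' := G) (fun u w huw => huw.1.1) W v
      have h2 : (dg (Gm (Gm G Ty) (W \ X)) W v : ℝ) ≤ dg G W v := by exact_mod_cast h1
      have h3 := h.zd v (mem_sdiff.2 ⟨hv, hvX⟩)
      linarith
  have e3 := e2_split (Gm G Ty) (X := X) (Z := W \ X) (W := W) Finset.disjoint_sdiff
    (Finset.union_sdiff_of_subset h.XW)
  have hX0 : 1 ≤ X.card := by
    have h1 := h.k1
    have h2 : (0 : ℝ) < X.card := by linarith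
    have h3 : 0 < X.card := by exact_mod_cast h2
    exact h3
  have e3' : (e2 (Gm G Ty) W : ℝ) ≤ X.card * (X.card - 1) + e2 (Gm (Gm G Ty) (W \ X)) W := by
    have h1 : ((X.card * (X.card - 1) + e2 (Gm (Gm G Ty) (W \ X)) W : ℕ) : ℝ) =
        X.card * (X.card - 1) + e2 (Gm (Gm G Ty) (W \ X)) W := by
      push_cast [Nat.cast_sub hX0]
      ring
    rw [← h1]
    exact_mod_cast e3
  -- bonus edges
  have e4 : (e2 G (Y \ Lo) : ℝ) ≤ 0.002 * t * n := by
    by_cases hb : ((t : ℝ) + 1) ≤ a / 200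
    · have h1 : ¬ HasM G (Y \ Lo) (t + 1) := by
        rintro ⟨M, hM, hMc⟩
        refine h.bonus h.rep (Cl_refl G 60) hM ?_ ?_
        · rw [hMc]
          push_cast
          exact hb
        · rw [hMc]
          omega
      have h2 : (e2 G (Y \ Lo) : ℝ) ≤ 4 * t * (4 * a) := by
        refine e2_le_of_not_hasM _ _ _ _ (by linarith) h1 ?_
        intro v hv
        have h3 := h.p3 v (mem_sdiff.1 hv).1
        have h4 : (dg G (Y \ Lo) v : ℝ) ≤ dg G Y v := by
          exact_mod_cast dg_mono G Finset.sdiff_subset v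
        linarith
      have h3 : 4 * (t : ℝ) * (4 * a) ≤ 0.002 * t * n := by
        have h5 : 0 ≤ (t : ℝ) * (n - 10000 * a) := mul_nonneg (by linarith) (by linarith)
        have h6 : 0 ≤ (t : ℝ) * n := mul_nonneg (by linarith) (by linarith)
        linarith
      linarith
    · push Not at hb
      have h1 : (e2 G (Y \ Lo) : ℝ) ≤ e2 G Y := by
        exact_mod_cast e2_mono G Finset.sdiff_subset
      have h2 := h.e2Y
      have h3 : a ≤ 400 * t := by linarith
      have h4 : a ^ 2 / 1000000 ≤ 0.002 * t * n := by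
        have h5 : a * a ≤ 400 * t * a := mul_le_mul_of_nonneg_right h3 (by linarith)
        have h6 : 0 ≤ (t : ℝ) * (n - 10000 * a) := mul_nonneg (by linarith) (by linarith)
        have h7 : 0 ≤ (t : ℝ) * n := mul_nonneg (by linarith) (by linarith)
        linarith
      linarith
  have e5 := h.star
  have e6 : (2 * (k : ℝ) + 1 - X.card) = t := by linarith
  rw [e6]
  linarith

/-- two numbers of the statement as reals -/
lemma B3_real {n' : ℕ} (k : ℕ) (h : 2 * k ≤ n') :
    (((2 * k).choose 2 + 2 * k * (n' - 2 * k) + 1 : ℕ) : ℝ) =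
      k * (2 * k - 1) + 2 * k * (n' - 2 * k) + 1 := by
  push_cast [Nat.cast_sub h, Nat.cast_choose_two]
  ring

lemma A3_real (k w y : ℕ) (h : 1 ≤ 2 * k) :
    (((2 * k - 1).choose 2 + w * y + 1 : ℕ) : ℝ) =
      (2 * k - 1) * (k - 1) + w * y + 1 := by
  push_cast [Nat.cast_sub h, Nat.cast_choose_two]
  ring

lemma Ctx.twok (h : Ctx c G k W Y X D Lo Ty a n) : 2 * k ≤ Fintype.card V := by
  have h1 := h.k2
  have h2 := h.hn
  have h3 := h.ha
  have h4 := h.han
  have h5 : (2 * (k : ℝ)) ≤ Fintype.card V := by rw [← h2]; linarith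
  exact_mod_cast h5

/-- few vertices in `X`, few vertices in `W` -/
lemma Ctx.L6 (h : Ctx c G k W Y X D Lo Ty a n) (hx : X.card + 1 ≤ 2 * k)
    (hw : W.card ≤ 2 * k) :
    (cols c univ).card ≤ (2 * k).choose 2 + 2 * k * (Fintype.card V - 2 * k) + 1 := by
  have h1 := h.main hx
  have h2 := h.wy
  have hm : (0 : ℝ) ≤ miss G W Y := Nat.cast_nonneg _
  have hk1 := h.k1
  have hk2 := h.k2
  have ha := h.ha
  have han := h.han
  have hxk := h.xk
  have hXW : (X.card : ℝ) ≤ W.card := by exact_mod_cast card_le_card h.XW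
  have hx' : (X.card : ℝ) + 1 ≤ 2 * k := by exact_mod_cast hx
  have hw' : (W.card : ℝ) ≤ 2 * k := by exact_mod_cast hw
  have key : ((cols c univ).card : ℝ) ≤ k * (2 * k - 1) + 2 * k * (n - 2 * k) + 1 := by
    have hY : (Y.card : ℝ) = n - W.card := by linarith
    rw [hY] at h1
    obtain ⟨s, hs⟩ : ∃ s : ℝ, (X.card : ℝ) = 2 * k - s := ⟨2 * k - X.card, by ring⟩
    obtain ⟨u, hu⟩ : ∃ u : ℝ, (W.card : ℝ) = 2 * k - u := ⟨2 * k - W.card, by ring⟩
    rw [hs, hu] at h1
    rw [hs] at hXW hx' hxk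
    rw [hu] at hXW hw'
    have hs1 : 1 ≤ s := by linarith
    have hu0 : 0 ≤ u := by linarith
    have hus : u ≤ s := by linarith
    have hsn : s ≤ 0.0002 * n := by linarith
    -- 2 N ≤ (2k - s)(2k - s - 1) + 2 (2k - u)(n - 2k + u) + 0.0268 (s + 1) n
    have id1 : (2 * (k : ℝ) - s) * (2 * k - s - 1) = 2 * (k * (2 * k - 1)) - s * (4 * k - s - 1) := by
      ring
    have id2 : 2 * ((2 * (k : ℝ) - u) * (n - (2 * k - u))) =
        2 * (2 * k * (n - 2 * k)) + 2 * (u * (4 * k - n - u)) := by ring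
    have b1 : u * (4 * k - n - u) ≤ s * (0.23 * n) := by
      have h3 : u * (4 * k - n - u) ≤ u * (0.23 * n) := by
        apply mul_le_mul_of_nonneg_left _ hu0
        linarith
      have h4 : u * (0.23 * n) ≤ s * (0.23 * n) :=
        mul_le_mul_of_nonneg_right hus (by linarith)
      linarith
    by_cases h4k : 4 * (k : ℝ) ≤ n
    · have b2 : u * (4 * k - n - u) ≤ 0 := by
        apply mul_nonpos_of_nonneg_of_nonpos hu0
        linarith
      have b3 : s * (0.55 * n) ≤ s * (4 * k - s - 1) := by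
        apply mul_le_mul_of_nonneg_left _ (by linarith)
        linarith
      have b4 : 0 ≤ (s - 1) * n := mul_nonneg (by linarith) (by linarith)
      linarith
    · push Not at h4k
      have b3 : s * (0.98 * n) ≤ s * (4 * k - s - 1) := by
        apply mul_le_mul_of_nonneg_left _ (by linarith)
        linarith
      have b4 : 0 ≤ (s - 1) * n := mul_nonneg (by linarith) (by linarith)
      linarith
  have h5 := B3_real (n' := Fintype.card V) k h.twok
  rw [← h.hn] at h5
  rw [← h5] at key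
  exact_mod_cast key

/-- few vertices in `X`, many vertices in `W` -/
lemma Ctx.L7 (h : Ctx c G k W Y X D Lo Ty a n) (hx : X.card + 2 ≤ 2 * k) :
    (cols c univ).card ≤ (2 * k - 1).choose 2 + W.card * Y.card + 1 := by
  have h1 := h.main (by omega)
  have hm : (0 : ℝ) ≤ miss G W Y := Nat.cast_nonneg _
  have hk1 := h.k1
  have hk2 := h.k2
  have ha := h.ha
  have han := h.han
  have hxk := h.xk
  have hx' : (X.card : ℝ) + 2 ≤ 2 * k := by exact_mod_cast hx
  have key : ((cols c univ).card : ℝ) ≤ (2 * k - 1) * (k - 1) + W.card * Y.card + 1 := by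
    obtain ⟨s, hs⟩ : ∃ s : ℝ, (X.card : ℝ) = 2 * k - s := ⟨2 * k - X.card, by ring⟩
    rw [hs] at h1 hx' hxk
    have hs1 : 2 ≤ s := by linarith
    have hsn : s ≤ 0.0002 * n := by linarith
    have id1 : (2 * (k : ℝ) - s) * (2 * k - s - 1) =
        2 * ((2 * k - 1) * (k - 1)) - (s - 1) * (4 * k - s - 2) := by
      ring
    have b3 : (s - 1) * (0.55 * n) ≤ (s - 1) * (4 * k - s - 2) := by
      apply mul_le_mul_of_nonneg_left _ (by linarith)
      linarith
    have b4 : 0 ≤ (s - 2) * n := mul_nonneg (by linarith) (by linarith)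
    linarith
  have h5 := A3_real k W.card Y.card (by omega)
  rw [← h5] at key
  exact_mod_cast key

/-- `|X| = 2 k`, `X = W` -/
lemma Ctx.L4 (h : Ctx c G k W Y X D Lo Ty a n) (hSw : tSwM) (hx : X.card = 2 * k)
    (hXW : X = W) :
    (cols c univ).card ≤ (2 * k).choose 2 + 2 * k * (Fintype.card V - 2 * k) + 1 := by
  classical
  by_contra hcon
  push Not at hcon
  have hwk : W.card = 2 * k := by rw [← hXW, hx]
  have hwR : (W.card : ℝ) = 2 * k := by exact_mod_cast hwk
  have h1 := h.star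
  have h2 := e2_le (Gm G Ty) W
  have hk1 := h.k1
  have ha := h.ha
  have han := h.han
  have hW1 : 1 ≤ W.card := by
    have h3 : (0 : ℝ) < W.card := by linarith
    have h4 : 0 < W.card := by exact_mod_cast h3
    exact h4
  have h2' : (e2 (Gm G Ty) W : ℝ) ≤ W.card * (W.card - 1) := by
    have h3 : ((W.card * (W.card - 1) : ℕ) : ℝ) = W.card * (W.card - 1) := by
      push_cast [Nat.cast_sub hW1]
      ring
    rw [← h3]
    exact_mod_cast h2
  have h3 := h.wy
  have hY : (Y.card : ℝ) = n - 2 * k := by linarith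
  have hm : (0 : ℝ) ≤ miss G W Y := Nat.cast_nonneg _
  have h5 := B3_real (n' := Fintype.card V) k h.twok
  rw [← h.hn] at h5
  have h6 : (k : ℝ) * (2 * k - 1) + 2 * k * (n - 2 * k) + 2 ≤ (cols c univ).card := by
    have h7 : (2 * k).choose 2 + 2 * k * (Fintype.card V - 2 * k) + 1 + 1 ≤
      (cols c univ).card := hcon
    have h8 : (((2 * k).choose 2 + 2 * k * (Fintype.card V - 2 * k) + 1 : ℕ) : ℝ) + 1 ≤
      (cols c univ).card := by exact_mod_cast h7
    rw [h5] at h8
    linarith
  have h7 : (4 : ℝ) ≤ e2 G (Y \ Lo) := by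
    rw [hwR] at h2'
    rw [hwR, hY] at h1
    linarith
  have h8 : 2 < e2 G (Y \ Lo) := by
    have : (4 : ℕ) ≤ e2 G (Y \ Lo) := by exact_mod_cast h7
    omega
  obtain ⟨u, v, u', v', hu, hv, hu', hv', huv, huv', hne⟩ := exists_two G (Y \ Lo) h8
  -- a pair disjoint from the two edges
  have hcard : 6 ≤ (Y \ Lo).card := by
    have h1 := Finset.le_card_sdiff Lo Y
    have h2 : (Y.card : ℝ) ≤ (Y \ Lo).card + Lo.card := by
      have h3 : Y.card ≤ (Y \ Lo).card + Lo.card := by omega
      exact_mod_cast h3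
    have h3 := h.Loc
    have h4 := h.yn
    have h5 : (6 : ℝ) ≤ (Y \ Lo).card := by linarith
    exact_mod_cast h5
  have hcard2 : 2 ≤ ((Y \ Lo) \ {u, v, u', v'}).card := by
    have h1 := Finset.le_card_sdiff ({u, v, u', v'} : Finset V) (Y \ Lo)
    have h2 : ({u, v, u', v'} : Finset V).card ≤ 4 := Finset.card_le_four
    omega
  obtain ⟨p, hp, q, hq, hpq⟩ := Finset.one_lt_card.1 (by omega :
    1 < ((Y \ Lo) \ {u, v, u', v'}).card)
  rw [mem_sdiff, mem_insert, mem_insert, mem_insert, mem_singleton] at hp hq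
  push Not at hp hq
  have hcc : c s(u, v) ≠ c s(u', v') := fun heq => hne (h.rep.inj _ _ _ _ huv huv' heq)
  have fin : ∀ x y : V, x ∈ Y \ Lo → y ∈ Y \ Lo → G.Adj x y → c s(p, q) ≠ c s(x, y) →
      p ≠ x → p ≠ y → q ≠ x → q ≠ y → False := by
    intro x y hx' hy' hxy hc hpx hpy hqx hqy
    obtain ⟨G', hR, hC, hpq', hkeep⟩ := switch1 hSw h.rep hpq
    have m0 : MF G' (Y \ Lo) ∅ := ⟨by simp, by simp⟩
    have v0 : vM (∅ : Finset (V × V)) = ∅ := by unfold vM; simp
    obtain ⟨m1, c1⟩ := MF_insert m0 hx' hy' (hkeep _ _ hxy hc) (by rw [v0]; simp)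
      (by rw [v0]; simp)
    obtain ⟨m2, c2⟩ := MF_insert m1 hp.1 hq.1 hpq'
      (by
        rw [vM_insert, v0]
        simp only [mem_union, mem_insert, mem_singleton, Finset.notMem_empty, or_false]
        rintro (h1 | h1)
        · exact hpx h1
        · exact hpy h1)
      (by
        rw [vM_insert, v0]
        simp only [mem_union, mem_insert, mem_singleton, Finset.notMem_empty, or_false]
        rintro (h1 | h1)
        · exact hqx h1
        · exact hqy h1)
    have hc2 : (insert (p, q) (insert (x, y) (∅ : Finset (V × V)))).card = 2 := by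
      rw [c2, c1, Finset.card_empty]
    refine h.bonus hR (Cl_mono hC (by norm_num)) m2 ?_ ?_
    · rw [hc2]
      push_cast
      linarith
    · rw [hc2]
      omega
  by_cases hc : c s(p, q) = c s(u, v)
  · exact fin u' v' hu' hv' huv' (by rw [hc]; exact hcc) hp.2.2.2.1 hp.2.2.2.2 hq.2.2.2.1
      hq.2.2.2.2
  · exact fin u v hu hv huv hc hp.2.1 hp.2.2.1 hq.2.1 hq.2.2.1

/-- claim A -/
lemma Ctx.claimA (h : Ctx c G k W Y X D Lo Ty a n) (hSw : tSwM) (hx : 2 * k ≤ X.card + 1)
    (hW : ∀ v ∈ W, (Y.card : ℝ) ≤ dg G Y v + 0.06 * n)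
    (hYd : ∀ y ∈ Y, (W.card : ℝ) ≤ dg G W y + 0.06 * n) {p q v u u' : V}
    (hpq : G.Adj p q) (hpq' : (p ∈ W ∧ q ∈ W ∧ (p ∉ X ∨ q ∉ X)) ∨ (p ∈ Y ∧ q ∈ Y))
    (hv : v ∈ W) (hvp : v ≠ p) (hvq : v ≠ q)
    (hvZ : v ∉ X ∨ (p ∈ W ∧ p ∉ X ∧ q ∈ W ∧ q ∉ X))
    (hu : u ∈ Y) (hu' : u' ∈ Y) (hvu : G.Adj v u) (hvu' : G.Adj v u') (huu : u ≠ u')
    (hup : u ≠ p) (huq : u ≠ q) (hup' : u' ≠ p) (huq' : u' ≠ q)
    (c1 : c s(u, u') ≠ c s(p, q)) (c2 : c s(u, u') ≠ c s(v, u)) (c3 : c s(u, u') ≠ c s(v, u')) :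
    False := by
  classical
  obtain ⟨G', hR, hC, h3, h4⟩ := switch1 hSw h.rep huu
  have t1 : Tri G' v u u' := ⟨h4 _ _ hvu c2, h3, h4 _ _ hvu' c3⟩
  have hpqG : G'.Adj p q := h4 _ _ hpq c1
  obtain ⟨h5, h6⟩ := TF_single t1
  have ha := h.ha
  have han := h.han
  have hvY : v ∉ Y := fun hh => (Finset.disjoint_left.1 h.dis) hv hh
  -- the apex
  obtain ⟨t, hpt, hqt, htv, htu, htu', hXc⟩ : ∃ t, G'.Adj p t ∧ G'.Adj q t ∧ t ≠ v ∧ t ≠ u ∧
      t ≠ u' ∧ (X ∩ ({p, q, t} ∪ {v, u, u'})).card ≤ 1 := by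
    rcases hpq' with ⟨hpW, hqW, hpqX⟩ | ⟨hpY, hqY⟩
    · have h7 := common G' (D := Y \ {u, u'}) (W := Y) Finset.sdiff_subset p q
      have h8 := Finset.le_card_sdiff ({u, u'} : Finset V) Y
      have h9 : ({u, u'} : Finset V).card ≤ 2 := Finset.card_le_two
      have h10 := Cl_dg hC Y p
      have h11 := Cl_dg hC Y q
      have h12 := hW p hpW
      have h13 := hW q hqW
      have h14 := h.yn
      have h15 : 0 < ((Y \ {u, u'}).filter (fun v => G'.Adj p v ∧ G'.Adj q v)).card := by
        have h16 : Y.card + dg G Y p + dg G Y q ≤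
            ((Y \ {u, u'}).filter (fun v => G'.Adj p v ∧ G'.Adj q v)).card + 2 * Y.card + 4 := by
          omega
        have h17 : (Y.card : ℝ) + dg G Y p + dg G Y q ≤
            ((Y \ {u, u'}).filter (fun v => G'.Adj p v ∧ G'.Adj q v)).card + 2 * Y.card + 4 := by
          exact_mod_cast h16
        have h18 : (0 : ℝ) <
            ((Y \ {u, u'}).filter (fun v => G'.Adj p v ∧ G'.Adj q v)).card := by
          linarith
        exact_mod_cast h18
      obtain ⟨t, ht⟩ := Finset.card_pos.1 h15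
      rw [mem_filter, mem_sdiff, mem_insert, mem_singleton] at ht
      push Not at ht
      refine ⟨t, ht.2.1, ht.2.2, ?_, ht.1.2.1, ht.1.2.2, ?_⟩
      · intro htv
        exact hvY (by rw [← htv]; exact ht.1.1)
      · have hX1 : ∃ z, X ∩ ({p, q, t} ∪ {v, u, u'}) ⊆ {z} := by
          by_cases hvX : v ∈ X
          · rcases hvZ with hvZ | hvZ
            · exact absurd hvX hvZ
            · refine ⟨v, ?_⟩
              intro x hx
              rw [mem_inter, mem_union, mem_insert, mem_insert, mem_singleton, mem_insert,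
                mem_insert, mem_singleton] at hx
              rw [mem_singleton]
              rcases hx.2 with (h1 | h1 | h1) | (h1 | h1 | h1)
              · exact absurd hx.1 (by rw [h1]; exact hvZ.2.1)
              · exact absurd hx.1 (by rw [h1]; exact hvZ.2.2.2)
              · exact absurd hx.1 (by rw [h1]; exact h.XY ht.1.1)
              · exact h1
              · exact absurd hx.1 (by rw [h1]; exact h.XY hu)
              · exact absurd hx.1 (by rw [h1]; exact h.XY hu')
          · rcases hpqX with hpX | hqX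
            · refine ⟨q, ?_⟩
              intro x hx
              rw [mem_inter, mem_union, mem_insert, mem_insert, mem_singleton, mem_insert,
                mem_insert, mem_singleton] at hx
              rw [mem_singleton]
              rcases hx.2 with (h1 | h1 | h1) | (h1 | h1 | h1)
              · exact absurd hx.1 (by rw [h1]; exact hpX)
              · exact h1
              · exact absurd hx.1 (by rw [h1]; exact h.XY ht.1.1)
              · exact absurd hx.1 (by rw [h1]; exact hvX)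
              · exact absurd hx.1 (by rw [h1]; exact h.XY hu)
              · exact absurd hx.1 (by rw [h1]; exact h.XY hu')
            · refine ⟨p, ?_⟩
              intro x hx
              rw [mem_inter, mem_union, mem_insert, mem_insert, mem_singleton, mem_insert,
                mem_insert, mem_singleton] at hx
              rw [mem_singleton]
              rcases hx.2 with (h1 | h1 | h1) | (h1 | h1 | h1)
              · exact h1
              · exact absurd hx.1 (by rw [h1]; exact hqX)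
              · exact absurd hx.1 (by rw [h1]; exact h.XY ht.1.1)
              · exact absurd hx.1 (by rw [h1]; exact hvX)
              · exact absurd hx.1 (by rw [h1]; exact h.XY hu)
              · exact absurd hx.1 (by rw [h1]; exact h.XY hu')
        obtain ⟨z, hz⟩ := hX1
        have := card_le_card hz
        rwa [Finset.card_singleton] at this
    · have hvX : v ∉ X := by
        rcases hvZ with hvZ | hvZ
        · exact hvZ
        · exact absurd hpY (fun hh => (Finset.disjoint_left.1 h.dis) hvZ.1 hh)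
      have h7 := common G' (D := D) (W := W) (h.DX.trans h.XW) p q
      have h10 := Cl_dg hC W p
      have h11 := Cl_dg hC W q
      have h12 := hYd p hpY
      have h13 := hYd q hqY
      have h14 := h.wn
      have h14' := h.Dc
      have h15 : 0 < (D.filter (fun v => G'.Adj p v ∧ G'.Adj q v)).card := by
        have h16 : D.card + dg G W p + dg G W q ≤
            (D.filter (fun v => G'.Adj p v ∧ G'.Adj q v)).card + 2 * W.card + 2 := by
          omega
        have h17 : (D.card : ℝ) + dg G W p + dg G W q ≤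
            (D.filter (fun v => G'.Adj p v ∧ G'.Adj q v)).card + 2 * W.card + 2 := by
          exact_mod_cast h16
        have h18 : (0 : ℝ) < (D.filter (fun v => G'.Adj p v ∧ G'.Adj q v)).card := by
          linarith
        exact_mod_cast h18
      obtain ⟨t, ht⟩ := Finset.card_pos.1 h15
      rw [mem_filter] at ht
      have htX := h.DX ht.1
      refine ⟨t, ht.2.1, ht.2.2, ?_, ?_, ?_, ?_⟩
      · intro htv
        exact hvX (by rw [← htv]; exact htX)
      · intro htu
        exact h.XY hu (by rw [← htu]; exact htX)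
      · intro htu
        exact h.XY hu' (by rw [← htu]; exact htX)
      · have hX1 : X ∩ ({p, q, t} ∪ {v, u, u'}) ⊆ {t} := by
          intro x hx
          rw [mem_inter, mem_union, mem_insert, mem_insert, mem_singleton, mem_insert,
            mem_insert, mem_singleton] at hx
          rw [mem_singleton]
          rcases hx.2 with (h1 | h1 | h1) | (h1 | h1 | h1)
          · exact absurd hx.1 (by rw [h1]; exact h.XY hpY)
          · exact absurd hx.1 (by rw [h1]; exact h.XY hqY)
          · exact h1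
          · exact absurd hx.1 (by rw [h1]; exact hvX)
          · exact absurd hx.1 (by rw [h1]; exact h.XY hu)
          · exact absurd hx.1 (by rw [h1]; exact h.XY hu')
        have := card_le_card hX1
        rwa [Finset.card_singleton] at this
  have t2 : Tri G' p q t := ⟨hpqG, hqt, hpt⟩
  obtain ⟨h8, h9⟩ := h5.insert t2 (Finset.subset_univ _) (by
    rw [h6, Finset.disjoint_left]
    intro x hx
    rw [mem_insert, mem_insert, mem_singleton] at hx ⊢
    push Not
    rcases hx with rfl | rfl | rfl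
    · exact ⟨hvp.symm, hup.symm, hup'.symm⟩
    · exact ⟨hvq.symm, huq.symm, huq'.symm⟩
    · exact ⟨htv, htu, htu'⟩)
  have h10 : vT (insert {p, q, t} {{v, u, u'}}) = {p, q, t} ∪ {v, u, u'} := by
    rw [vT_insert, h6]
  have h7 : vM (∅ : Finset (V × V)) = ∅ := by unfold vM; simp
  rw [Finset.card_singleton] at h9
  refine h.noT G' hR (Cl_mono hC (by norm_num)) _ ∅ h8 ⟨by simp, by simp⟩ (by simp) ?_ ?_ ?_ ?_
  · rw [h7]; exact disjoint_empty_right _
  · rw [h9]
    norm_num
    linarith
  · simp only [Finset.card_empty, Nat.cast_zero]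
    linarith
  · rw [h7, h10, Finset.union_empty, h9, Finset.card_empty]
    have h11 := card_XT X ({p, q, t} ∪ {v, u, u'}) 1 hXc
    omega

/-- the edges which are inside `W` and touch `W \ X` or are inside `Y` -/
def RR (G : SimpleGraph V) (W X Y : Finset V) : SimpleGraph V where
  Adj u v := G.Adj u v ∧ ((u ∈ W ∧ v ∈ W ∧ (u ∉ X ∨ v ∉ X)) ∨ (u ∈ Y ∧ v ∈ Y))
  symm := ⟨fun u v h => ⟨h.1.symm, by
    rcases h.2 with ⟨h1, h2, h3⟩ | ⟨h1, h2⟩
    · exact Or.inl ⟨h2, h1, h3.symm⟩
    · exact Or.inr ⟨h2, h1⟩⟩⟩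
  loopless := ⟨fun _ h => G.loopless.irrefl _ h.1⟩

/-- `|X| = 2 k - 1`, `|W| ≥ 2 k + 1` -/
lemma Ctx.L8 (h : Ctx c G k W Y X D Lo Ty a n) (hSw : tSwM) (hx : X.card + 1 = 2 * k)
    (hw : 2 * k + 1 ≤ W.card) :
    (cols c univ).card ≤ (2 * k - 1).choose 2 + W.card * Y.card + 1 := by
  classical
  by_contra hcon
  push Not at hcon
  have ha := h.ha
  have han := h.han
  have hxR : (X.card : ℝ) = 2 * k - 1 := by
    have : (X.card : ℝ) + 1 = 2 * k := by exact_mod_cast hx
    linarith
  have h5 := A3_real k W.card Y.card (by omega)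
  have h6 : (2 * (k : ℝ) - 1) * (k - 1) + W.card * Y.card + 2 ≤ (cols c univ).card := by
    have h8 : (((2 * k - 1).choose 2 + W.card * Y.card + 1 : ℕ) : ℝ) + 1 ≤
      (cols c univ).card := by exact_mod_cast hcon
    rw [h5] at h8
    linarith
  have hmain := h.main (by omega)
  rw [hxR] at hmain
  have hmiss : (miss G W Y : ℝ) ≤ 0.06 * n := by linarith
  have hW : ∀ v ∈ W, (Y.card : ℝ) ≤ dg G Y v + 0.06 * n := by
    intro v hv
    have h1 := miss_count G (W := W) (Y := Y) (S := {v}) (by simpa using hv)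
      ((Y.card : ℝ) - dg G Y v) (by
        intro u hu
        rw [mem_singleton] at hu
        rw [hu]
        linarith)
    rw [Finset.card_singleton] at h1
    push_cast at h1
    linarith
  have hYd : ∀ y ∈ Y, (W.card : ℝ) ≤ dg G W y + 0.06 * n := by
    intro v hv
    have h1 := miss_count' G (W := W) (Y := Y) (S := {v}) (by simpa using hv)
      ((W.card : ℝ) - dg G W v) (by
        intro u hu
        rw [mem_singleton] at hu
        rw [hu]
        linarith)
    rw [Finset.card_singleton] at h1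
    push_cast at h1
    linarith
  -- two special edges
  have hR2 : 2 < e2 (RR G W X Y) univ := by
    have h1 : e2 (RR G W X Y) univ = e2 (RR G W X Y) W + 2 * eb (RR G W X Y) W Y +
        e2 (RR G W X Y) Y := by
      rw [← h.uni]
      exact e2_union _ h.dis
    have h2 : e2 G univ = e2 G W + 2 * eb G W Y + e2 G Y := by
      rw [← h.uni]
      exact e2_union _ h.dis
    have h3 := e2_split G (X := X) (Z := W \ X) (W := W) Finset.disjoint_sdiff
      (Finset.union_sdiff_of_subset h.XW)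
    have h4 : e2 (Gm G (W \ X)) W ≤ e2 (RR G W X Y) W := by
      apply e2_le_e2
      intro u hu v hv huv
      refine ⟨huv.1, Or.inl ⟨hu, hv, ?_⟩⟩
      rcases huv.2 with h4 | h4
      · exact Or.inl (mem_sdiff.1 h4).2
      · exact Or.inr (mem_sdiff.1 h4).2
    have h4' : e2 G Y ≤ e2 (RR G W X Y) Y := by
      apply e2_le_e2
      intro u hu v hv huv
      exact ⟨huv, Or.inr ⟨hu, hv⟩⟩
    have h5 := eb_le G W Y
    have h7 := h.tot
    have h8 : X.card * (X.card - 1) = 2 * ((2 * k - 1).choose 2) := by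
      have h9 : X.card = 2 * k - 1 := by omega
      rw [h9, Nat.choose_two_right]
      exact (Nat.mul_div_cancel' (Nat.even_mul_pred_self _).two_dvd).symm
    omega
  obtain ⟨p, q, p', q', -, -, -, -, hpq, hpq', hne⟩ := exists_two _ _ hR2
  have hD : D.Nonempty := by
    rw [← Finset.card_pos]
    have h1 := h.Dc
    have h2 := h.wn
    have h5 : (0 : ℝ) < D.card := by linarith
    exact_mod_cast h5
  have hZ2 : 2 ≤ (W \ X).card := by
    have := Finset.card_sdiff_add_card_eq_card h.XW
    omega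
  have hchoose : ∀ x y : V, (RR G W X Y).Adj x y → ∃ v ∈ W, v ≠ x ∧ v ≠ y ∧
      (v ∉ X ∨ (x ∈ W ∧ x ∉ X ∧ y ∈ W ∧ y ∉ X)) := by
    intro x y hxy
    by_cases h1 : ∃ v ∈ W \ X, v ≠ x ∧ v ≠ y
    · obtain ⟨v, hv, hvx, hvy⟩ := h1
      rw [mem_sdiff] at hv
      exact ⟨v, hv.1, hvx, hvy, Or.inl hv.2⟩
    · push Not at h1
      have hsub : W \ X ⊆ {x, y} := by
        intro v hv
        rw [mem_insert, mem_singleton]
        by_cases hvx : v = x
        · exact Or.inl hvx
        · exact Or.inr (h1 v hv hvx)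
      have heq : W \ X = {x, y} := by
        apply Finset.eq_of_subset_of_card_le hsub
        have : ({x, y} : Finset V).card ≤ 2 := Finset.card_le_two
        omega
      have hx1 : x ∈ W \ X := by rw [heq]; simp
      have hy1 : y ∈ W \ X := by rw [heq]; simp
      rw [mem_sdiff] at hx1 hy1
      obtain ⟨d, hd⟩ := hD
      have hdX := h.DX hd
      refine ⟨d, h.XW hdX, ?_, ?_, Or.inr ⟨hx1.1, hx1.2, hy1.1, hy1.2⟩⟩
      · rintro rfl; exact hx1.2 hdX
      · rintro rfl; exact hy1.2 hdX
  obtain ⟨v, hv, hvp, hvq, hvZ⟩ := hchoose p q hpq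
  obtain ⟨v', hv', hvp', hvq', hvZ'⟩ := hchoose p' q' hpq'
  -- the set of common neighbours
  have hYc : a / 2 ≤ ((((Y \ {p, q, p', q'}).filter
      (fun x => G.Adj v x ∧ G.Adj v' x)).card : ℕ) : ℝ) := by
    have h7 := common G (D := Y \ {p, q, p', q'}) (W := Y) Finset.sdiff_subset v v'
    have h8 := Finset.le_card_sdiff ({p, q, p', q'} : Finset V) Y
    have h9 : ({p, q, p', q'} : Finset V).card ≤ 4 := Finset.card_le_four
    have h12 := hW v hv
    have h13 := hW v' hv'
    have h14 := h.yn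
    have h16 : Y.card + dg G Y v + dg G Y v' ≤
        ((Y \ {p, q, p', q'}).filter (fun x => G.Adj v x ∧ G.Adj v' x)).card + 2 * Y.card + 4 := by
      omega
    have h17 : (Y.card : ℝ) + dg G Y v + dg G Y v' ≤
        ((Y \ {p, q, p', q'}).filter (fun x => G.Adj v x ∧ G.Adj v' x)).card + 2 * Y.card + 4 := by
      exact_mod_cast h16
    linarith
  obtain ⟨u, hu, u', hu', huu, hc1, hc2⟩ := h.free hSw (by omega) hv
    (Y' := (Y \ {p, q, p', q'}).filter (fun x => G.Adj v x ∧ G.Adj v' x))
    ((Finset.filter_subset _ _).trans Finset.sdiff_subset)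
    (fun x hx => (mem_filter.1 hx).2.1) hYc
  rw [mem_filter, mem_sdiff, mem_insert, mem_insert, mem_insert, mem_singleton] at hu hu'
  push Not at hu hu'
  by_cases hc : c s(u, u') = c s(p, q)
  · have hcc : c s(p, q) ≠ c s(p', q') := fun heq =>
      hne (h.rep.inj _ _ _ _ hpq.1 hpq'.1 heq)
    refine h.claimA hSw (by omega) hW hYd hpq'.1 hpq'.2 hv' hvp' hvq' hvZ' hu.1.1 hu'.1.1
      hu.2.2 hu'.2.2 huu hu.1.2.2.2.1 hu.1.2.2.2.2 hu'.1.2.2.2.1 hu'.1.2.2.2.2
      (by rw [hc]; exact hcc) ?_ ?_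
    · rw [hc]
      intro heq
      have h1 := h.rep.inj _ _ _ _ hpq.1 hu.2.2 heq
      rw [Sym2.eq_iff] at h1
      rcases h1 with ⟨-, h1⟩ | ⟨h1, -⟩
      · exact hu.1.2.2.1 h1.symm
      · exact hu.1.2.1 h1.symm
    · rw [hc]
      intro heq
      have h1 := h.rep.inj _ _ _ _ hpq.1 hu'.2.2 heq
      rw [Sym2.eq_iff] at h1
      rcases h1 with ⟨-, h1⟩ | ⟨h1, -⟩
      · exact hu'.1.2.2.1 h1.symm
      · exact hu'.1.2.1 h1.symm
  · exact h.claimA hSw (by omega) hW hYd hpq.1 hpq.2 hv hvp hvq hvZ hu.1.1 hu'.1.1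
      hu.2.1 hu'.2.1 huu hu.1.2.1 hu.1.2.2.1 hu'.1.2.1 hu'.1.2.2.1 hc hc1 hc2

/-- summary -/
lemma Ctx.final (h : Ctx c G k W Y X D Lo Ty a n) (hSw : tSwM) :
    (cols c univ).card ≤ (2 * k).choose 2 + 2 * k * (Fintype.card V - 2 * k) + 1 ∨
      (2 * k + 1 ≤ W.card ∧ (cols c univ).card ≤ (2 * k - 1).choose 2 + W.card * Y.card + 1) := by
  obtain ⟨h1, h2⟩ := h.Xle hSw
  by_cases hx : X.card = 2 * k
  · exact Or.inl (h.L4 hSw hx (h2 hx))
  · by_cases hw : W.card ≤ 2 * k
    · exact Or.inl (h.L6 (by omega) hw)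
    · by_cases hx' : X.card + 1 = 2 * k
      · exact Or.inr ⟨by omega, h.L8 hSw hx' (by omega)⟩
      · exact Or.inr ⟨by omega, h.L7 (by omega)⟩

end Pool.Agent.ART.J22b
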