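import Pool.Agent.ART.Basic
import Pool.Agent.ART.Targets

set_option autoImplicit false

/-! ART-J3 (helper59): edges at vertices which are in no triangle. -/

namespace Pool.Agent.ART

open Finset

namespace J3

variable {V : Type} [DecidableEq V]

lemma dg_ind (G : SimpleGraph V) {H X : Finset V} (hX : X ⊆ H) (hI : Ind G X) {w : V}
    (hw : w ∈ X) : dg G H w + X.card ≤ H.card := by
  classical
  have h1 := dg_sdiff G hX w
  have h2 : dg G X w = 0 := (dg_eq_zero_iff G X w).2 (fun u hu => hI w hw u hu)
  have h3 := dg_le_card G (H \ X) w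
  have h4 := Finset.card_sdiff_add_card_eq_card hX
  omega

/-- a graph with two disjoint independent sets -/
lemma e2_two_ind (G : SimpleGraph V) {H X Y : Finset V} (hX : X ⊆ H) (hY : Y ⊆ H)
    (hXY : Disjoint X Y) (iX : Ind G X) (iY : Ind G Y) :
    X.card * (X.card - 1) + Y.card * (Y.card - 1) + e2 G H ≤ H.card * (H.card - 1) := by
  have h1 : ∀ w ∈ H, (if w ∈ X then X.card - 1 else 0) + (if w ∈ Y then Y.card - 1 else 0) +
      dg G H w ≤ H.card - 1 := by
    intro w hw
    have h0 := dg_lt_card G hw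
    by_cases hwX : w ∈ X
    · have hwY : w ∉ Y := Finset.disjoint_left.1 hXY hwX
      rw [if_pos hwX, if_neg hwY]
      have h2 := dg_ind G hX iX hwX
      have h3 : 0 < X.card := Finset.card_pos.2 ⟨w, hwX⟩
      omega
    · rw [if_neg hwX]
      by_cases hwY : w ∈ Y
      · rw [if_pos hwY]
        have h2 := dg_ind G hY iY hwY
        have h3 : 0 < Y.card := Finset.card_pos.2 ⟨w, hwY⟩
        omega
      · rw [if_neg hwY]
        omega
  have h2 := Finset.sum_le_sum h1
  rw [Finset.sum_add_distrib, Finset.sum_add_distrib, Finset.sum_const, smul_eq_mul,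
    Finset.sum_ite_mem, Finset.sum_ite_mem, Finset.inter_eq_right.2 hX, Finset.inter_eq_right.2 hY,
    Finset.sum_const, Finset.sum_const, smul_eq_mul, smul_eq_mul] at h2
  exact h2

omit [DecidableEq V] in
open Classical in
lemma ind_nbr (G : SimpleGraph V) {A H : Finset V} (hH : H ⊆ A) {v : V} (hv : NoTri G A v) :
    Ind G (H.filter (fun u => G.Adj v u)) := by
  intro x hx y hy hxy
  rw [Finset.mem_filter] at hx hy
  exact hv x (hH hx.1) y (hH hy.1) ⟨hx.2, hxy, hy.2⟩

end J3

open J3

theorem pLemE' : tLemE' := by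
  classical
  intro V _ _ G A L hL hno
  rcases L.eq_empty_or_nonempty with rfl | hne
  · refine ⟨0, 0, 0, 0, by simp, ?_, ?_⟩
    · simpa using e2_le G (A \ ∅)
    · simp
  obtain ⟨v, hvL, hvmax⟩ := Finset.exists_max_image L (fun v => dg G A v) hne
  let Q : Finset V := L.filter (fun u => G.Adj v u)
  let P : Finset V := L \ Q
  have hQL : Q ⊆ L := Finset.filter_subset _ _
  have hHA : A \ L ⊆ A := Finset.sdiff_subset
  obtain ⟨y, hy⟩ : ∃ y, y = Q.sup (fun u => dg G (A \ L) u) := ⟨_, rfl⟩
  have hcard : P.card + Q.card = L.card := Finset.card_sdiff_add_card_eq_card hQL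
  refine ⟨P.card, Q.card, dg G (A \ L) v, y, hcard, ?_, ?_⟩
  · -- independent sets
    rcases Q.eq_empty_or_nonempty with hQ | hQ
    · have hy0 : y = 0 := by rw [hy, hQ]; simp
      have := e2_two_ind G (H := A \ L) (X := (A \ L).filter (fun u => G.Adj v u)) (Y := ∅)
        (Finset.filter_subset _ _) (Finset.empty_subset _) (Finset.disjoint_empty_right _)
        (ind_nbr G hHA (hno v hvL)) (fun x hx => absurd hx (Finset.notMem_empty x))
      rw [hy0]
      simpa [dg_def] using this
    · obtain ⟨u, huQ, hu⟩ := Finset.exists_mem_eq_sup Q hQ (fun u => dg G (A \ L) u)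
      rw [← hy] at hu
      have huL := hQL huQ
      have hadj : G.Adj v u := (Finset.mem_filter.1 huQ).2
      have := e2_two_ind G (H := A \ L) (X := (A \ L).filter (fun w => G.Adj v w))
        (Y := (A \ L).filter (fun w => G.Adj u w))
        (Finset.filter_subset _ _) (Finset.filter_subset _ _)
        (by
          rw [Finset.disjoint_left]
          intro z hz hz'
          rw [Finset.mem_filter] at hz hz'
          exact hno v hvL u (hL huL) z (hHA hz.1) ⟨hadj, hz'.2, hz.2⟩)
        (ind_nbr G hHA (hno v hvL)) (ind_nbr G hHA (hno u huL))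
      rw [← dg_def, ← dg_def, ← hu] at this
      exact this
  · -- edges touching `L`
    have hQ0 : e2 G Q = 0 := by
      have hind : Ind G Q := ind_nbr G hL (hno v hvL)
      unfold e2
      apply Finset.sum_eq_zero
      intro w hw
      exact (dg_eq_zero_iff G Q w).2 (fun u hu => hind w hw u hu)
    have h1 := e2_sdiff G hL
    have h2 := e2_sdiff G hQL
    have h3 : eb G (A \ L) L = ∑ w ∈ P, dg G (A \ L) w + ∑ w ∈ Q, dg G (A \ L) w := by
      rw [eb_comm]
      unfold eb
      exact (Finset.sum_sdiff hQL).symm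
    have hsumP : ∑ w ∈ P, dg G (A \ L) w + (∑ w ∈ P, dg G P w + ∑ w ∈ P, dg G Q w) =
        ∑ w ∈ P, dg G A w := by
      rw [← Finset.sum_add_distrib, ← Finset.sum_add_distrib]
      apply Finset.sum_congr rfl
      intro w _
      rw [dg_sdiff G hQL, dg_sdiff G hL]
    have hPle : ∑ w ∈ P, dg G A w ≤ P.card * (dg G (A \ L) v + Q.card) := by
      have hdv : dg G A v = dg G (A \ L) v + Q.card := by
        rw [← dg_sdiff G hL v]
        rfl
      rw [← hdv, ← smul_eq_mul, ← Finset.sum_const]
      exact Finset.sum_le_sum (fun w hw => hvmax w (Finset.mem_sdiff.1 hw).1)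
    have hQle : ∑ w ∈ Q, dg G (A \ L) w ≤ Q.card * y := by
      rw [← smul_eq_mul, ← Finset.sum_const]
      apply Finset.sum_le_sum
      intro w hw
      rw [hy]
      exact Finset.le_sup (f := fun u => dg G (A \ L) u) hw
    have e1 : e2 G P = ∑ w ∈ P, dg G P w := rfl
    have e2' : eb G P Q = ∑ w ∈ P, dg G Q w := rfl
    have h2' : e2 G L = e2 G P + 2 * eb G P Q + e2 G Q := h2
    rw [h1, h2', h3, hQ0, e1, e2']
    have : P.card * (dg G (A \ L) v + Q.card) =
        P.card * dg G (A \ L) v + P.card * Q.card := by ring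
    omega

theorem pLemE : tLemE := by
  intro V _ _ G A L hL hno
  obtain ⟨a, b, x, y, hab, h1, h2⟩ := pLemE' V G A L hL hno
  have key : ∀ a x : ℕ, 2 * (a * x) ≤ a * (a + 1) + x * (x - 1) := by
    intro a x
    rcases Nat.eq_zero_or_pos x with rfl | hx
    · simp
    · obtain ⟨z, rfl⟩ : ∃ z, x = z + 1 := ⟨x - 1, by omega⟩
      rw [Nat.add_sub_cancel]
      rcases le_total a z with h | h
      · obtain ⟨d, rfl⟩ := Nat.exists_eq_add_of_le h
        nlinarith
      · obtain ⟨d, rfl⟩ := Nat.exists_eq_add_of_le h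
        have := Nat.le_mul_self d
        nlinarith
  have k1 := key a x
  have k2 := key b y
  have e : L.card * (L.card + 1) = a * (a + 1) + b * (b + 1) + 2 * (a * b) := by
    rw [← hab]; ring
  rw [e]
  omega

end Pool.Agent.ART
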