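import Pool.Agent.ART.Basic
import Pool.Agent.ART.Targets

set_option autoImplicit false
set_option linter.unusedSectionVars false

/-! Anti-Ramsey numbers of vertex-disjoint triangles (MP_e56f3d_co): J7, J8. -/

namespace Pool.Agent.ART

open Finset

namespace J7_

variable {V : Type} [DecidableEq V]

lemma vT_erase {G : SimpleGraph V} {A : Finset V} {T : Finset (Finset V)} (h : TF G A T)
    {t : Finset V} (ht : t ∈ T) {v : V} (hv : v ∈ vT (T.erase t)) : v ∈ vT T ∧ v ∉ t := by
  obtain ⟨t', ht', hvt'⟩ := mem_vT.1 hv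
  have h1 := Finset.mem_of_mem_erase ht'
  have h2 := Finset.ne_of_mem_erase ht'
  refine ⟨mem_vT.2 ⟨t', h1, hvt'⟩, fun hvt => ?_⟩
  exact Finset.disjoint_left.1 (h.dis t' h1 t ht h2) hvt' hvt

lemma vM_erase {G : SimpleGraph V} {A : Finset V} {M : Finset (V × V)} (h : MF G A M)
    {p : V × V} (hp : p ∈ M) {v : V} (hv : v ∈ vM (M.erase p)) :
    v ∈ vM M ∧ v ≠ p.1 ∧ v ≠ p.2 := by
  obtain ⟨q, hq, hvq⟩ := mem_vM.1 hv
  have h1 := Finset.mem_of_mem_erase hq
  have h2 := Finset.ne_of_mem_erase hq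
  have h3 := h.dis q h1 p hp h2
  refine ⟨mem_vM.2 ⟨q, h1, hvq⟩, ?_, ?_⟩
  · rcases hvq with rfl | rfl
    · exact h3.1
    · exact h3.2.2.1
  · rcases hvq with rfl | rfl
    · exact h3.2.1
    · exact h3.2.2.2

lemma mem_vM_insert {M : Finset (V × V)} {u x v : V} :
    v ∈ vM (insert (u, x) M) ↔ v = u ∨ v = x ∨ v ∈ vM M := by
  simp only [mem_vM, Finset.mem_insert]
  constructor
  · rintro ⟨p, rfl | hp, h⟩
    · rcases h with h | h
      · exact Or.inl h
      · exact Or.inr (Or.inl h)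
    · exact Or.inr (Or.inr ⟨p, hp, h⟩)
  · rintro (h | h | ⟨p, hp, h⟩)
    · exact ⟨(u, x), Or.inl rfl, Or.inl h⟩
    · exact ⟨(u, x), Or.inl rfl, Or.inr h⟩
    · exact ⟨p, Or.inr hp, h⟩

lemma MF_insert {G : SimpleGraph V} {A : Finset V} {M : Finset (V × V)} (h : MF G A M)
    {u x : V} (hu : u ∈ A) (hx : x ∈ A) (hux : G.Adj u x) (hu' : u ∉ vM M) (hx' : x ∉ vM M) :
    MF G A (insert (u, x) M) ∧ (insert (u, x) M).card = M.card + 1 := by
  have key : ∀ p ∈ M, u ≠ p.1 ∧ u ≠ p.2 ∧ x ≠ p.1 ∧ x ≠ p.2 := fun p hp =>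
    ⟨fun e => hu' (mem_vM.2 ⟨p, hp, Or.inl e⟩), fun e => hu' (mem_vM.2 ⟨p, hp, Or.inr e⟩),
      fun e => hx' (mem_vM.2 ⟨p, hp, Or.inl e⟩), fun e => hx' (mem_vM.2 ⟨p, hp, Or.inr e⟩)⟩
  refine ⟨⟨?_, ?_⟩, Finset.card_insert_of_notMem fun hm =>
    hu' (mem_vM.2 ⟨_, hm, Or.inl rfl⟩)⟩
  · intro p hp
    rcases Finset.mem_insert.1 hp with rfl | hp
    · exact ⟨hu, hx, hux⟩
    · exact h.mem p hp
  · intro p hp q hq hpq
    rcases Finset.mem_insert.1 hp with rfl | hp <;> rcases Finset.mem_insert.1 hq with rfl | hq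
    · exact absurd rfl hpq
    · obtain ⟨k1, k2, k3, k4⟩ := key q hq
      exact ⟨k1, k2, k3, k4⟩
    · obtain ⟨k1, k2, k3, k4⟩ := key p hp
      exact ⟨k1.symm, k3.symm, k2.symm, k4.symm⟩
    · exact h.dis p hp q hq hpq

/-- at most one pair of `t × B` is not adjacent -/
lemma one_missing (G : SimpleGraph V) {t B : Finset V} (ht : t.card = 3) (hB : B.card = 3)
    (h : 8 ≤ ∑ x ∈ t, dg G B x) :
    ∀ a ∈ t, ∀ b ∈ B, ∀ a' ∈ t, ∀ b' ∈ B, ¬ G.Adj a b → ¬ G.Adj a' b' → a = a' ∧ b = b' := by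
  classical
  have h1 : ((t ×ˢ B).filter fun p => G.Adj p.1 p.2).card = ∑ x ∈ t, dg G B x := by
    rw [Finset.card_filter, Finset.sum_product]
    exact Finset.sum_congr rfl fun x _ => (dg_eq_sum G B x).symm
  have h2 := Finset.card_filter_add_card_filter_not (s := t ×ˢ B) (fun p => G.Adj p.1 p.2)
  rw [Finset.card_product, ht, hB, h1] at h2
  have h3 : ((t ×ˢ B).filter fun p => ¬ G.Adj p.1 p.2).card ≤ 1 := by omega
  intro a ha b hb a' ha' b' hb' h4 h5
  have h6 := Finset.card_le_one.1 h3 (a, b)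
    (Finset.mem_filter.2 ⟨Finset.mem_product.2 ⟨ha, hb⟩, h4⟩) (a', b')
    (Finset.mem_filter.2 ⟨Finset.mem_product.2 ⟨ha', hb'⟩, h5⟩)
  exact ⟨congrArg Prod.fst h6, congrArg Prod.snd h6⟩

end J7_

open J7_ in
/-- J7 -/
theorem pWCH (h1 : tLexEx) (h2 : tLexFacts) : tWCH := by
  intro V _ _ G A hdeg
  obtain ⟨T, M, hL⟩ := h1 V G A
  by_contra hcon
  have hτ : T.card < A.card / 3 := by
    by_contra h
    exact hcon (HasT.le (k := T.card) ⟨T, hL.pm.tf, rfl⟩ (by omega))
  obtain ⟨f1, f2, f3, f4, f5, f6, f7⟩ := h2 V G A T M hL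
  obtain ⟨R, hRdef⟩ : ∃ R, R = A \ vT T := ⟨_, rfl⟩
  have hTF := hL.pm.tf
  have hR : R.card + 3 * T.card = A.card := by rw [hRdef]; exact hL.pm.cards.1
  have hR3 : 3 ≤ R.card := by omega
  have hRA : R ⊆ A := by rw [hRdef]; exact Finset.sdiff_subset
  have hRT : ∀ v ∈ R, v ∉ vT T := fun v hv => by
    rw [hRdef] at hv
    exact (Finset.mem_sdiff.1 hv).2
  rw [← hRdef] at f6
  -- three vertices
  obtain ⟨u, v, w, hu, hv, hw, huv, huw, hvw, hsum, hcase⟩ : ∃ u v w, u ∈ R ∧ v ∈ R ∧ w ∈ R ∧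
      u ≠ v ∧ u ≠ w ∧ v ≠ w ∧ dg G R u + dg G R v + dg G R w + 1 ≤ 2 * R.card ∧
      (G.Adj u v ∨ M = ∅) := by
    rcases Finset.eq_empty_or_nonempty M with hM | ⟨p, hp⟩
    · obtain ⟨u, hu, v, hv, w, hw, huv, huw, hvw⟩ := Finset.two_lt_card.1 (by omega : 2 < R.card)
      have hz : ∀ x ∈ R, dg G R x = 0 := by
        intro x hx
        rw [dg_eq_zero_iff]
        intro y hy
        have hIR : (A \ vT T) \ vM M = R := by
          rw [hM, ← hRdef]
          simp [vM]
        rw [hIR] at f2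
        exact f2 x hx y hy
      refine ⟨u, v, w, hu, hv, hw, huv, huw, hvw, ?_, Or.inr hM⟩
      rw [hz u hu, hz v hv, hz w hw]
      omega
    · have hm := hL.pm.mf.mem p hp
      rw [← hRdef] at hm
      have hne : p.1 ≠ p.2 := hm.2.2.ne
      have h3 : (({p.1, p.2} : Finset V)).card < R.card := by
        have := Finset.card_le_two (a := p.1) (b := p.2)
        omega
      obtain ⟨w, hw, hw'⟩ := Finset.exists_mem_notMem_of_card_lt_card h3
      simp only [Finset.mem_insert, Finset.mem_singleton, not_or] at hw'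
      refine ⟨p.1, p.2, w, hm.1, hm.2.1, hw, hne, fun e => hw'.1 e.symm,
        fun e => hw'.2 e.symm, ?_, Or.inl hm.2.2⟩
      have h4 := f6 p hp
      have h5 := dg_lt_card G hw
      omega
  obtain ⟨B, hB⟩ : ∃ B : Finset V, B = {u, v, w} := ⟨_, rfl⟩
  have hB3 : B.card = 3 := by
    rw [hB]
    exact Finset.card_eq_three.2 ⟨u, v, w, huv, huw, hvw, rfl⟩
  have hBR : B ⊆ R := by
    intro x hx
    rw [hB] at hx
    simp only [Finset.mem_insert, Finset.mem_singleton] at hx
    rcases hx with rfl | rfl | rfl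
    · exact hu
    · exact hv
    · exact hw
  have hsumB : ∀ f : V → ℕ, ∑ x ∈ B, f x = f u + f v + f w := by
    intro f
    rw [hB, Finset.sum_insert, Finset.sum_insert, Finset.sum_singleton]
    · ring
    · simpa using hvw
    · simp [huv, huw]
  -- a heavy triangle
  obtain ⟨t, htT, ht8⟩ : ∃ t ∈ T, 8 ≤ ∑ x ∈ t, dg G B x := by
    by_contra hno
    push Not at hno
    have e1 : ∑ x ∈ B, dg G (vT T) x ≤ 7 * T.card := by
      rw [hTF.sum_dg]
      calc ∑ t ∈ T, ∑ x ∈ t, dg G B x ≤ ∑ _t ∈ T, 7 := Finset.sum_le_sum fun t ht => by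
            have := hno t ht
            omega
        _ = 7 * T.card := by rw [Finset.sum_const, smul_eq_mul]; ring
    have e2 : ∀ x, dg G A x = dg G R x + dg G (vT T) x := fun x => by
      rw [hRdef]; exact (dg_sdiff G hTF.vT_sub x).symm
    have e3 := hdeg u (hRA hu)
    have e4 := hdeg v (hRA hv)
    have e5 := hdeg w (hRA hw)
    rw [hsumB] at e1
    rw [e2 u] at e3
    rw [e2 v] at e4
    rw [e2 w] at e5
    omega
  have ht3 : t.card = 3 := (hTF.clq t htT).card_eq
  have key := one_missing G ht3 hB3 ht8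
  have htA : t ⊆ A := hTF.sub t htT
  have htR : ∀ x ∈ t, x ∉ R := fun x hx hxR => hRT x hxR (mem_vT.2 ⟨t, htT, hx⟩)
  have huB : u ∈ B := by rw [hB]; simp
  have hvB : v ∈ B := by rw [hB]; simp
  have hwB : w ∈ B := by rw [hB]; simp
  have hTe : TF G A (T.erase t) := hTF.subset (Finset.erase_subset _ _)
  have hcT : (T.erase t).card + 1 = T.card := Finset.card_erase_add_one htT
  have hclq : ∀ x ∈ t, ∀ y ∈ t, x ≠ y → G.Adj x y := fun x hx y hy hxy =>
    (hTF.clq t htT).isClique hx hy hxy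
  -- vertices of the other triangles
  have hother : ∀ x, x ∈ R ∨ x ∈ t → x ∉ vT (T.erase t) := by
    intro x hx hx'
    obtain ⟨g1, g2⟩ := vT_erase hTF htT hx'
    rcases hx with hx | hx
    · exact hRT x hx g1
    · exact g2 hx
  rcases hcase with huv' | hM
  · -- two triangles
    obtain ⟨a, ha, hua, hva, hwa⟩ : ∃ a ∈ t, G.Adj a u ∧ G.Adj a v ∧ ∀ a' ∈ t, a' ≠ a →
        G.Adj a' w := by
      by_cases hex : ∃ a ∈ t, ¬ G.Adj a w
      · obtain ⟨a, ha, haw⟩ := hex
        refine ⟨a, ha, ?_, ?_, ?_⟩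
        · by_contra hn
          exact huw (key a ha u huB a ha w hwB hn haw).2
        · by_contra hn
          exact hvw (key a ha v hvB a ha w hwB hn haw).2
        · intro a' ha' hne
          by_contra hn
          exact hne (key a' ha' w hwB a ha w hwB hn haw).1
      · push Not at hex
        by_contra hno
        push Not at hno
        have hbad : ∀ a ∈ t, ∃ b ∈ B, ¬ G.Adj a b := by
          intro a ha
          by_cases h3 : G.Adj a u
          · by_cases h4 : G.Adj a v
            · obtain ⟨a', ha', _, hn⟩ := hno a ha h3 h4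
              exact absurd (hex a' ha') hn
            · exact ⟨v, hvB, h4⟩
          · exact ⟨u, huB, h3⟩
        obtain ⟨x, hx, y, hy, hxy⟩ := Finset.one_lt_card.1 (by omega : 1 < t.card)
        obtain ⟨b, hb, hxb⟩ := hbad x hx
        obtain ⟨b', hb', hyb⟩ := hbad y hy
        exact hxy (key x hx b hb y hy b' hb' hxb hyb).1
    have hc2 : (t.erase a).card = 2 := by rw [Finset.card_erase_of_mem ha, ht3]
    obtain ⟨a', a'', hne, hta⟩ := Finset.card_eq_two.1 hc2
    have ha' : a' ∈ t.erase a := by rw [hta]; simp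
    have ha'' : a'' ∈ t.erase a := by rw [hta]; simp
    have ha't := Finset.mem_of_mem_erase ha'
    have ha''t := Finset.mem_of_mem_erase ha''
    have ha'a := Finset.ne_of_mem_erase ha'
    have ha''a := Finset.ne_of_mem_erase ha''
    have hT1 : Tri G u v a := ⟨huv', hva.symm, hua.symm⟩
    have hT2 : Tri G w a' a'' := ⟨(hwa a' ha't ha'a).symm, hclq a' ha't a'' ha''t hne,
      (hwa a'' ha''t ha''a).symm⟩
    have hne1 : ∀ x ∈ R, ∀ y ∈ t, x ≠ y := fun x hx y hy e => htR y hy (e ▸ hx)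
    obtain ⟨g1, g2⟩ := hTe.insert hT1 (by
        intro x hx
        simp only [Finset.mem_insert, Finset.mem_singleton] at hx
        rcases hx with rfl | rfl | rfl
        · exact hRA hu
        · exact hRA hv
        · exact htA ha) (by
        rw [Finset.disjoint_left]
        intro x hx
        simp only [Finset.mem_insert, Finset.mem_singleton] at hx
        rcases hx with rfl | rfl | rfl
        · exact hother _ (Or.inl hu)
        · exact hother _ (Or.inl hv)
        · exact hother _ (Or.inr ha))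
    obtain ⟨g3, g4⟩ := g1.insert hT2 (by
        intro x hx
        simp only [Finset.mem_insert, Finset.mem_singleton] at hx
        rcases hx with rfl | rfl | rfl
        · exact hRA hw
        · exact htA ha't
        · exact htA ha''t) (by
        rw [Finset.disjoint_left]
        intro x hx hx'
        obtain ⟨s, hs, hxs⟩ := mem_vT.1 hx'
        simp only [Finset.mem_insert, Finset.mem_singleton] at hx
        rcases Finset.mem_insert.1 hs with rfl | hs
        · simp only [Finset.mem_insert, Finset.mem_singleton] at hxs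
          rcases hx with rfl | rfl | rfl
          · rcases hxs with e | e | e
            · exact huw e.symm
            · exact hvw e.symm
            · exact hne1 _ hw a ha e
          · rcases hxs with e | e | e
            · exact hne1 u hu _ ha't e.symm
            · exact hne1 v hv _ ha't e.symm
            · exact ha'a e
          · rcases hxs with e | e | e
            · exact hne1 u hu _ ha''t e.symm
            · exact hne1 v hv _ ha''t e.symm
            · exact ha''a e
        · have hx'' : x ∈ vT (T.erase t) := mem_vT.2 ⟨s, hs, hxs⟩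
          rcases hx with rfl | rfl | rfl
          · exact hother _ (Or.inl hw) hx''
          · exact hother _ (Or.inr ha't) hx''
          · exact hother _ (Or.inr ha''t) hx'')
    have hbad := hL.maxT _ ∅ ⟨g3, ⟨by simp, by simp⟩⟩
    omega
  · -- one more matching edge
    obtain ⟨b, c, hb, hc, hbc, hbt, hct⟩ : ∃ b c, b ∈ B ∧ c ∈ B ∧ b ≠ c ∧
        (∀ a ∈ t, G.Adj a b) ∧ (∀ a ∈ t, G.Adj a c) := by
      by_cases hex : ∃ a ∈ t, ∃ b ∈ B, ¬ G.Adj a b
      · obtain ⟨a₀, ha₀, b₀, hb₀, hn₀⟩ := hex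
        have hc2 : 1 < (B.erase b₀).card := by rw [Finset.card_erase_of_mem hb₀, hB3]; norm_num
        obtain ⟨b, hb, c, hc, hbc⟩ := Finset.one_lt_card.1 hc2
        refine ⟨b, c, Finset.mem_of_mem_erase hb, Finset.mem_of_mem_erase hc, hbc, ?_, ?_⟩
        · intro a ha
          by_contra hn
          exact Finset.ne_of_mem_erase hb
            (key a ha b (Finset.mem_of_mem_erase hb) a₀ ha₀ b₀ hb₀ hn hn₀).2
        · intro a ha
          by_contra hn
          exact Finset.ne_of_mem_erase hc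
            (key a ha c (Finset.mem_of_mem_erase hc) a₀ ha₀ b₀ hb₀ hn hn₀).2
      · push Not at hex
        exact ⟨u, v, huB, hvB, huv, fun a ha => hex a ha u huB, fun a ha => hex a ha v hvB⟩
    obtain ⟨x, y, z, hxyz, hteq⟩ := (isNClique_iff_tri G t).1 (hTF.clq t htT)
    have hxt : x ∈ t := by rw [hteq]; simp
    have hyt : y ∈ t := by rw [hteq]; simp
    have hzt : z ∈ t := by rw [hteq]; simp
    have hbR := hBR hb
    have hcR := hBR hc
    have hT1 : Tri G b x y := ⟨(hbt x hxt).symm, hxyz.1, (hbt y hyt).symm⟩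
    obtain ⟨g1, g2⟩ := hTe.insert hT1 (by
        intro s hs
        simp only [Finset.mem_insert, Finset.mem_singleton] at hs
        rcases hs with rfl | rfl | rfl
        · exact hRA hbR
        · exact htA hxt
        · exact htA hyt) (by
        rw [Finset.disjoint_left]
        intro s hs
        simp only [Finset.mem_insert, Finset.mem_singleton] at hs
        rcases hs with rfl | rfl | rfl
        · exact hother _ (Or.inl hbR)
        · exact hother _ (Or.inr hxt)
        · exact hother _ (Or.inr hyt))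
    have hnot : ∀ s, s ∉ ({b, x, y} : Finset V) → (s ∈ R ∨ s ∈ t) →
        s ∉ vT (insert {b, x, y} (T.erase t)) := by
      intro s hs hs' hs''
      obtain ⟨r, hr, hsr⟩ := mem_vT.1 hs''
      rcases Finset.mem_insert.1 hr with rfl | hr
      · exact hs hsr
      · exact hother s hs' (mem_vT.2 ⟨r, hr, hsr⟩)
    have hne1 : ∀ x ∈ R, ∀ y ∈ t, x ≠ y := fun x hx y hy e => htR y hy (e ▸ hx)
    have hc1 : c ∉ vT (insert {b, x, y} (T.erase t)) := hnot c (by
      simp only [Finset.mem_insert, Finset.mem_singleton, not_or]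
      exact ⟨hbc.symm, hne1 c hcR x hxt, hne1 c hcR y hyt⟩) (Or.inl hcR)
    have hz1 : z ∉ vT (insert {b, x, y} (T.erase t)) := hnot z (by
      simp only [Finset.mem_insert, Finset.mem_singleton, not_or]
      exact ⟨(hne1 b hbR z hzt).symm, hxyz.2.2.ne', hxyz.2.1.ne'⟩) (Or.inr hzt)
    have hE : MF G (A \ vT (insert {b, x, y} (T.erase t))) ∅ := ⟨by simp, by simp⟩
    obtain ⟨g5, g6⟩ := MF_insert hE (Finset.mem_sdiff.2 ⟨hRA hcR, hc1⟩)
      (Finset.mem_sdiff.2 ⟨htA hzt, hz1⟩) (hct z hzt).symm (by simp [vM]) (by simp [vM])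
    have hbad := hL.maxM _ _ ⟨g1, g5⟩ (by omega)
    rw [g6, hM] at hbad
    simp at hbad

open J7_ in
/-- J8 -/
theorem pPMat : tPMat := by
  classical
  intro V _ _ G A hev hdeg
  obtain ⟨M, hM, hmax⟩ := Finset.exists_max_image
    ((univ : Finset (Finset (V × V))).filter (fun M => MF G A M)) Finset.card
    ⟨∅, Finset.mem_filter.2 ⟨Finset.mem_univ _, ⟨by simp, by simp⟩⟩⟩
  have hMF : MF G A M := (Finset.mem_filter.1 hM).2
  have hmax' : ∀ M', MF G A M' → M'.card ≤ M.card := fun M' h =>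
    hmax M' (Finset.mem_filter.2 ⟨Finset.mem_univ _, h⟩)
  by_contra hcon
  have hlt : M.card < A.card / 2 := by
    by_contra h
    exact hcon (HasM.le (k := M.card) ⟨M, hMF, rfl⟩ (by omega))
  obtain ⟨r, hr⟩ := hev
  have h2 : 2 * M.card + 2 ≤ A.card := by omega
  have hcard := Finset.card_sdiff_add_card_eq_card hMF.vM_sub
  rw [hMF.card_vM] at hcard
  obtain ⟨u, hu, v, hv, huv⟩ := Finset.one_lt_card.1 (by omega : 1 < (A \ vM M).card)
  have hnb : ∀ x ∈ A \ vM M, dg G A x = dg G (vM M) x := by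
    intro x hx
    rw [← dg_sdiff G hMF.vM_sub x, Nat.add_eq_right, dg_eq_zero_iff]
    intro y hy hxy
    obtain ⟨g1, g2⟩ := MF_insert hMF (Finset.mem_sdiff.1 hx).1 (Finset.mem_sdiff.1 hy).1 hxy
      (Finset.mem_sdiff.1 hx).2 (Finset.mem_sdiff.1 hy).2
    have := hmax' _ g1
    omega
  have hsum := hMF.sum_dg {u, v}
  rw [Finset.sum_pair huv] at hsum
  have hdu := hdeg u (Finset.mem_sdiff.1 hu).1
  have hdv := hdeg v (Finset.mem_sdiff.1 hv).1
  rw [hnb u hu] at hdu
  rw [hnb v hv] at hdv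
  obtain ⟨p, hp, hp3⟩ : ∃ p ∈ M, 3 ≤ dg G {u, v} p.1 + dg G {u, v} p.2 := by
    by_contra hno
    push Not at hno
    have : ∑ p ∈ M, (dg G {u, v} p.1 + dg G {u, v} p.2) ≤ 2 * M.card := by
      calc ∑ p ∈ M, (dg G {u, v} p.1 + dg G {u, v} p.2) ≤ ∑ _p ∈ M, 2 :=
            Finset.sum_le_sum fun p hp => by
              have := hno p hp
              omega
        _ = 2 * M.card := by rw [Finset.sum_const, smul_eq_mul]; ring
    omega
  have hdg : ∀ x, dg G {u, v} x = (if G.Adj x u then 1 else 0) + (if G.Adj x v then 1 else 0) := by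
    intro x
    rw [dg_eq_sum, Finset.sum_pair huv]
  rw [hdg, hdg] at hp3
  have hx := hMF.mem p hp
  have hpv : ∀ q ∈ M, ∀ x ∈ A \ vM M, x ≠ q.1 ∧ x ≠ q.2 := fun q hq x hx =>
    ⟨fun e => (Finset.mem_sdiff.1 hx).2 (mem_vM.2 ⟨q, hq, Or.inl e⟩),
      fun e => (Finset.mem_sdiff.1 hx).2 (mem_vM.2 ⟨q, hq, Or.inr e⟩)⟩
  have hfin : ∀ x y, x ∈ A → y ∈ A → x ≠ y → (x = p.1 ∨ x = p.2) → (y = p.1 ∨ y = p.2) →
      G.Adj u x → G.Adj v y → False := by
    intro x y hxA hyA hxy hx' hy' hux hvy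
    have hMe : MF G A (M.erase p) := hMF.subset (Finset.erase_subset _ _)
    have n1 : ∀ z ∈ A \ vM M, z ∉ vM (M.erase p) := fun z hz hz' =>
      (Finset.mem_sdiff.1 hz).2 (vM_erase hMF hp hz').1
    have n2 : ∀ z, (z = p.1 ∨ z = p.2) → z ∉ vM (M.erase p) := by
      intro z hz hz'
      have := vM_erase hMF hp hz'
      tauto
    obtain ⟨g1, g2⟩ := MF_insert hMe (Finset.mem_sdiff.1 hu).1 hxA hux (n1 u hu) (n2 x hx')
    have n3 : v ∉ vM (insert (u, x) (M.erase p)) := by
      rw [mem_vM_insert]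
      rintro (e | e | e)
      · exact huv e.symm
      · have := hpv p hp v hv
        rw [e] at this
        tauto
      · exact n1 v hv e
    have n4 : y ∉ vM (insert (u, x) (M.erase p)) := by
      rw [mem_vM_insert]
      rintro (e | e | e)
      · have := hpv p hp u hu
        rw [← e] at this
        tauto
      · exact hxy e.symm
      · exact n2 y hy' e
    obtain ⟨g3, g4⟩ := MF_insert g1 (Finset.mem_sdiff.1 hv).1 hyA hvy n3 n4
    have h5 := hmax' _ g3
    have h6 := Finset.card_erase_add_one hp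
    omega
  by_cases a1 : G.Adj p.1 u
  · by_cases a2 : G.Adj p.2 v
    · exact hfin p.1 p.2 hx.1 hx.2.1 hx.2.2.ne (Or.inl rfl) (Or.inr rfl) a1.symm a2.symm
    · have a3 : G.Adj p.1 v := by
        by_contra hn
        rw [if_neg a2, if_neg hn] at hp3
        split_ifs at hp3 <;> omega
      have a4 : G.Adj p.2 u := by
        by_contra hn
        rw [if_neg a2, if_neg hn] at hp3
        split_ifs at hp3 <;> omega
      exact hfin p.2 p.1 hx.2.1 hx.1 hx.2.2.ne' (Or.inr rfl) (Or.inl rfl) a4.symm a3.symm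
  · have a3 : G.Adj p.1 v := by
      by_contra hn
      rw [if_neg a1, if_neg hn] at hp3
      split_ifs at hp3 <;> omega
    have a4 : G.Adj p.2 u := by
      by_contra hn
      rw [if_neg a1, if_neg hn] at hp3
      split_ifs at hp3 <;> omega
    exact hfin p.2 p.1 hx.2.1 hx.1 hx.2.2.ne' (Or.inr rfl) (Or.inl rfl) a4.symm a3.symm

end Pool.Agent.ART
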