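import Pool.Agent.ART.Basic
import Pool.Agent.ART.Targets
import Pool.Agent.ART.J3
import Pool.Agent.ART.J7

set_option autoImplicit false

/-! ART-J23 (helper38): the refined partition of the second type. -/

namespace Pool.Agent.ART

open Finset

namespace J23

variable {V : Type} [DecidableEq V]

/-- covering given vertices by disjoint triangles -/
lemma cover (G : SimpleGraph V) (Q B : Finset V) (hd : Disjoint Q B)
    (h : ∀ v ∈ Q, ∀ U : Finset V, U.card ≤ 2 * Q.card →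
      ∃ x ∈ B \ U, ∃ y ∈ B \ U, Tri G v x y) :
    ∃ T, TF G (Q ∪ B) T ∧ T.card = Q.card ∧ Q ⊆ vT T := by
  have key : ∀ Q' : Finset V, Q' ⊆ Q →
      ∃ T, TF G (Q' ∪ B) T ∧ T.card = Q'.card ∧ Q' ⊆ vT T := by
    intro Q'
    induction Q' using Finset.induction_on with
    | empty => intro _; exact ⟨∅, ⟨by simp, by simp, by simp⟩, rfl, by simp⟩
    | insert v Q' hv ih =>
      intro hQ
      obtain ⟨T, hT, hc, hs⟩ := ih ((Finset.subset_insert _ _).trans hQ)
      have hvQ : v ∈ Q := hQ (Finset.mem_insert_self _ _)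
      have hU : (vT T \ Q').card ≤ 2 * Q.card := by
        have h1 := Finset.card_sdiff_add_card_eq_card hs
        rw [hT.card_vT, hc] at h1
        have h2 := Finset.card_le_card hQ
        rw [Finset.card_insert_of_notMem hv] at h2
        omega
      obtain ⟨x, hx, y, hy, ht⟩ := h v hvQ _ hU
      rw [Finset.mem_sdiff, Finset.mem_sdiff] at hx hy
      have hvB : v ∉ B := Finset.disjoint_left.1 hd hvQ
      have hnT : ∀ z ∈ B, ¬ (z ∈ vT T ∧ z ∉ Q') → z ∉ vT T := by
        intro z hz h1 h2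
        exact h1 ⟨h2, fun h3 => Finset.disjoint_left.1 hd
          (hQ (Finset.mem_insert_of_mem h3)) hz⟩
      have hvT : v ∉ vT T := by
        intro h1
        have h2 := hT.vT_sub h1
        rw [Finset.mem_union] at h2
        exact h2.elim hv hvB
      have hsub : Q' ∪ B ⊆ insert v Q' ∪ B :=
        Finset.union_subset_union (Finset.subset_insert _ _) Finset.Subset.rfl
      obtain ⟨h1, h2⟩ := (hT.mono hsub).insert ht (by
        intro z hz
        rw [Finset.mem_insert, Finset.mem_insert, Finset.mem_singleton] at hz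
        rw [Finset.mem_union, Finset.mem_insert]
        rcases hz with rfl | rfl | rfl
        · exact Or.inl (Or.inl rfl)
        · exact Or.inr hx.1
        · exact Or.inr hy.1) (by
        rw [Finset.disjoint_left]
        intro z hz
        rw [Finset.mem_insert, Finset.mem_insert, Finset.mem_singleton] at hz
        rcases hz with rfl | rfl | rfl
        · exact hvT
        · exact hnT _ hx.1 hx.2
        · exact hnT _ hy.1 hy.2)
      refine ⟨_, h1, ?_, ?_⟩
      · rw [h2, hc, Finset.card_insert_of_notMem hv]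
      · intro z hz
        rw [Finset.mem_insert] at hz
        rw [mem_vT]
        rcases hz with rfl | hz
        · exact ⟨_, Finset.mem_insert_self _ _, Finset.mem_insert_self _ _⟩
        · obtain ⟨t, ht1, ht2⟩ := mem_vT.1 (hs hz)
          exact ⟨t, Finset.mem_insert_of_mem ht1, ht2⟩
  exact key Q Finset.Subset.rfl

lemma step {G : SimpleGraph V} {X : Finset V} {T : Finset (Finset V)} {j : ℕ} (hT : TF G X T)
    (h : HasT G (X \ vT T) j) : HasT G X (T.card + j) := by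
  have h1 : HasT G (vT T) T.card :=
    ⟨T, ⟨fun t ht v hv => mem_vT.2 ⟨t, ht, hv⟩, hT.clq, hT.dis⟩, rfl⟩
  have h2 := h1.union h Finset.disjoint_sdiff
  rwa [Finset.union_sdiff_of_subset hT.vT_sub] at h2

/-- a set without large matching has a large independent subset -/
lemma exists_ind (G : SimpleGraph V) (X : Finset V) (r : ℕ) (h : ¬ HasM G X r) :
    ∃ S ⊆ X, Ind G S ∧ X.card ≤ S.card + 2 * r := by
  classical
  have h0 : HasM G X 0 := ⟨∅, ⟨by simp, by simp⟩, rfl⟩
  have hex : ∃ m, ¬ HasM G X m := ⟨r, h⟩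
  obtain ⟨m, hm⟩ : ∃ m, Nat.find hex = m := ⟨_, rfl⟩
  have h1 : ¬ HasM G X m := hm ▸ Nat.find_spec hex
  have h2 : m ≤ r := hm ▸ Nat.find_min' hex h
  obtain _ | m' := m
  · exact absurd h0 h1
  have h3 : HasM G X m' := by
    by_contra h4
    have := Nat.find_min' hex h4
    omega
  obtain ⟨M, hM, hc⟩ := h3
  refine ⟨X \ vM M, Finset.sdiff_subset, ?_, ?_⟩
  · intro x hx y hy hxy
    rw [Finset.mem_sdiff] at hx hy
    obtain ⟨h5, h6⟩ := J7_.MF_insert hM hx.1 hy.1 hxy hx.2 hy.2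
    exact h1 ⟨_, h5, by rw [h6, hc]⟩
  · have := Finset.card_sdiff_add_card_eq_card hM.vM_sub
    rw [hM.card_vM] at this
    omega

lemma avoid {G : SimpleGraph V} {A W : Finset V} {M : Finset (V × V)} (hM : MF G A M)
    (h : W.card < M.card) : ∃ p ∈ M, p.1 ∉ W ∧ p.2 ∉ W := by
  classical
  by_contra hcon
  push Not at hcon
  have h1 : M.card ≤ W.card := by
    refine Finset.card_le_card_of_injOn (fun p => if p.1 ∈ W then p.1 else p.2) ?_ ?_
    · intro p hp
      by_cases h2 : p.1 ∈ W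
      · simp [h2]
      · simp [h2, hcon p hp h2]
    · intro p hp q hq hpq
      by_contra hne
      obtain ⟨d1, d2, d3, d4⟩ := hM.dis p hp q hq hne
      simp only at hpq
      split_ifs at hpq
      · exact d1 hpq
      · exact d2 hpq
      · exact d3 hpq
      · exact d4 hpq
  omega

lemma lost {q : ℕ} {G G' : SimpleGraph V} (h : Cl q G G') :
    ∃ P : Finset V, P.card ≤ 2 * q ∧ ∀ u v, G.Adj u v → v ∉ P → G'.Adj u v := by
  classical
  obtain ⟨E, hE, h⟩ := h
  have hex : ∀ e : Sym2 V, ∃ x y : V, e = s(x, y) := fun e => by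
    induction e using Sym2.ind with
    | _ x y => exact ⟨x, y, rfl⟩
  choose f g hfg using hex
  refine ⟨E.image f ∪ E.image g, ?_, ?_⟩
  · have h1 := Finset.card_union_le (E.image f) (E.image g)
    have h2 := Finset.card_image_le (s := E) (f := f)
    have h3 := Finset.card_image_le (s := E) (f := g)
    omega
  · intro u v huv hv
    refine h u v huv fun he => hv ?_
    rw [Finset.mem_union, Finset.mem_image, Finset.mem_image]
    have h1 := hfg s(u, v)
    rw [Sym2.eq_iff] at h1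
    rcases h1 with ⟨_, h1⟩ | ⟨_, h1⟩
    · exact Or.inr ⟨_, he, h1.symm⟩
    · exact Or.inl ⟨_, he, h1.symm⟩

lemma common (G : SimpleGraph V) {W : Finset V} {x y : V} (h : W.card < dg G W x + dg G W y) :
    ∃ z ∈ W, G.Adj x z ∧ G.Adj y z := by
  classical
  rw [dg_def, dg_def] at h
  have h1 : ((W.filter fun u => G.Adj x u) ∪ (W.filter fun u => G.Adj y u)).card ≤ W.card :=
    Finset.card_le_card (Finset.union_subset (Finset.filter_subset _ _)
      (Finset.filter_subset _ _))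
  have h2 := Finset.card_union_add_card_inter (W.filter fun u => G.Adj x u)
    (W.filter fun u => G.Adj y u)
  have h3 : 0 < ((W.filter fun u => G.Adj x u) ∩ (W.filter fun u => G.Adj y u)).card := by omega
  obtain ⟨z, hz⟩ := Finset.card_pos.1 h3
  rw [Finset.mem_inter, Finset.mem_filter, Finset.mem_filter] at hz
  exact ⟨z, hz.1.1, hz.1.2, hz.2.2⟩

/-- non-neighbours are monotone in the set -/
lemma nonnb (G : SimpleGraph V) {A B : Finset V} (h : A ⊆ B) (v : V) :
    A.card + dg G B v ≤ B.card + dg G A v := by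
  have h1 := dg_sdiff G h v
  have h2 := dg_le_card G (B \ A) v
  have h3 := Finset.card_sdiff_add_card_eq_card h
  omega

lemma cast_mul_pred (x : ℕ) : ((x * (x - 1) : ℕ) : ℝ) = (x : ℝ) * ((x : ℝ) - 1) := by
  rcases Nat.eq_zero_or_pos x with rfl | hx
  · simp
  · rw [Nat.cast_mul, Nat.cast_sub hx, Nat.cast_one]

/-- lower bound for the edges inside `A` -/
lemma e2_low [Fintype V] (G : SimpleGraph V) (A : Finset V) :
    e2 G univ ≤ e2 G A + 2 * ((univ \ A).card * Fintype.card V) := by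
  have h1 := e2_sdiff' G (A := univ) (B := univ \ A) (Finset.subset_univ _)
  have h2 : univ \ (univ \ A) = A := by
    ext v; simp
  rw [h2] at h1
  have h3 : ∑ v ∈ univ \ A, dg G univ v ≤ (univ \ A).card * Fintype.card V := by
    calc ∑ v ∈ univ \ A, dg G univ v ≤ ∑ _v ∈ univ \ A, Fintype.card V :=
          Finset.sum_le_sum fun v _ => dg_le_card G univ v
      _ = _ := by rw [Finset.sum_const, smul_eq_mul]
  omega

/-- the numerical part of (a) -/
lemma numA {n m D D' J e E : ℝ} (hn : 4 * D' + 4 ≤ n) (hm : m ≤ 0.085 * n)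
    (hD : D + 2 * J + 1 ≤ D') (hD1 : 1 ≤ D')
    (h1 : (n - m) ^ 2 + m ^ 2 - D * n ≤ E) (h2 : E ≤ e + 2 * (J * n))
    (h3 : e ≤ (n - m - D') ^ 2 + (m + D') * (m + D' + 1)) : False := by
  have h4 : 2 * D' * (n - 2 * m) ≤ (D + 2 * J) * n + 2 * D' ^ 2 + m + D' := by nlinarith
  have h5 : 0.83 * n ≤ n - 2 * m := by linarith
  have h6 : 2 * D' * (0.83 * n) ≤ 2 * D' * (n - 2 * m) := by gcongr
  have h7 : (D + 2 * J) * n ≤ (D' - 1) * n := by
    apply mul_le_mul_of_nonneg_right (by linarith)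
    linarith
  nlinarith

/-- the numerical part of (b) -/
lemma numB {n m D D' J e h H Lo a b x y r : ℝ} (hD : D + 2 * J + 1 ≤ D') (hJ : 0 ≤ J)
    (hD1 : 1 ≤ D') (hn : 10 ^ 10 * (D' + J + 1) ^ 2 ≤ n) (hm0 : 0 ≤ m) (hm : m ≤ 0.085 * n)
    (h0 : 0 ≤ h) (hh : h ≤ n - m + J) (ha : 0 ≤ a) (hb : 0 ≤ b) (hab : a + b ≤ m + D')
    (hr : 0 ≤ r) (hrr : r ^ 2 = Lo + 2 * n + 2) (hx : x ≤ n + 1) (hy : y ≤ n + 1)
    (hxy : x * (x - 1) + y * (y - 1) ≤ Lo) (hH : H = h * (h - 1) - Lo)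
    (h1 : (n - m) ^ 2 + m ^ 2 - (D + 2 * J) * n ≤ e)
    (h2 : e ≤ H + 2 * (a * x + b * y + a * b)) : r ≤ m + n / 4000 := by
  have hC : 1 ≤ D' + J + 1 := by linarith
  have hn1 : 10 ^ 10 * (D' + J + 1) ≤ n := by nlinarith
  have hn0 : 10 ^ 10 ≤ n := by linarith
  set u : ℝ := √(a ^ 2 + b ^ 2) with hu
  have hu0 : 0 ≤ u := Real.sqrt_nonneg _
  have huu : u ^ 2 = a ^ 2 + b ^ 2 := Real.sq_sqrt (by positivity)
  have hus : u ≤ a + b := by
    apply Real.sqrt_le_iff.2
    exact ⟨by linarith, by nlinarith [mul_nonneg ha hb]⟩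
  have hxr : x ^ 2 + y ^ 2 ≤ r ^ 2 := by nlinarith
  have hcs : a * x + b * y ≤ u * r := by
    have h3 : (a * x + b * y) ^ 2 ≤ (u * r) ^ 2 := by
      have h4 : (a * x + b * y) ^ 2 ≤ (a ^ 2 + b ^ 2) * (x ^ 2 + y ^ 2) := by
        nlinarith [sq_nonneg (a * y - b * x)]
      calc (a * x + b * y) ^ 2 ≤ (a ^ 2 + b ^ 2) * (x ^ 2 + y ^ 2) := h4
        _ ≤ u ^ 2 * r ^ 2 := by
          rw [huu]
          gcongr
        _ = (u * r) ^ 2 := by ring
    exact abs_le_of_sq_le_sq' h3 (by positivity) |>.2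
  have h5 : h * (h - 1) ≤ (n - m) ^ 2 + 2 * J * n + J ^ 2 := by nlinarith
  have h6 : (a + b) ^ 2 ≤ m ^ 2 + D' * n + D' ^ 2 := by
    have h7 : (a + b) ^ 2 ≤ (m + D') ^ 2 := by gcongr
    nlinarith
  have h8 : (r - u) ^ 2 ≤ (D + 4 * J + D' + 2) * n + J ^ 2 + D' ^ 2 + 2 := by nlinarith
  have h9 : (r - u) ^ 2 ≤ 5 * (D' + J + 1) * n := by
    have h10 : D + 4 * J + D' + 2 ≤ 4 * (D' + J + 1) := by nlinarith
    have h11 : (D + 4 * J + D' + 2) * n ≤ 4 * (D' + J + 1) * n := by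
      apply mul_le_mul_of_nonneg_right h10
      linarith
    nlinarith
  have h12 : (r - u) ^ 2 ≤ (n / 8000) ^ 2 := by nlinarith
  have h13 : r - u ≤ n / 8000 := (abs_le_of_sq_le_sq' h12 (by positivity)).2
  linarith

lemma facts (hE : tLemE) (hE' : tLemE') {V : Type} [Fintype V] [DecidableEq V]
    (G : SimpleGraph V) (A L : Finset V) (k J D' : ℕ) (D : ℝ) (hD : D + 2 * J + 1 ≤ D')
    (hD1 : 1 ≤ D') (hn : 10 ^ 10 * ((D' : ℝ) + J + 1) ^ 2 ≤ Fintype.card V)
    (hk : 3 * k + 3 ≤ Fintype.card V) (hk2 : 0.305 * (Fintype.card V : ℝ) ≤ k)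
    (hA : Fintype.card V ≤ A.card + J) (hP : Pre4 G A k J L)
    (hd : 2 * ph4 (Fintype.card V) k - D * Fintype.card V ≤ e2 G univ) :
    (L.card : ℝ) + 3 * k ≤ Fintype.card V + D' ∧
    ∃ r : ℝ, r + 3 * k ≤ Fintype.card V + Fintype.card V / 4000 ∧ 0 ≤ r ∧
      (∀ S ⊆ A \ L, Ind G S → (S.card : ℝ) ≤ r) ∧
      ∑ v ∈ A \ L, (((A \ L).card : ℝ) - 1 - dg G (A \ L) v) ≤ r ^ 2 := by
  classical
  obtain ⟨hLA, hL1, hL2, hL3⟩ := hP
  obtain ⟨n, hnn⟩ : ∃ n, Fintype.card V = n := ⟨_, rfl⟩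
  rw [hnn] at hn hk hk2 hA hd ⊢
  have hAn : A.card ≤ n := by rw [← hnn]; exact Finset.card_le_univ A
  obtain ⟨m, hm⟩ : ∃ m, n = m + 3 * k := ⟨n - 3 * k, by omega⟩
  have hmr : (m : ℝ) = n - 3 * k := by rw [hm]; push_cast; ring
  have hD1' : (1 : ℝ) ≤ D' := by exact_mod_cast hD1
  have hJ0 : (0 : ℝ) ≤ J := Nat.cast_nonneg _
  have hn0 : (0 : ℝ) ≤ n := Nat.cast_nonneg _
  have hk0 : (0 : ℝ) ≤ k := Nat.cast_nonneg _
  have hm0 : (0 : ℝ) ≤ m := Nat.cast_nonneg _
  have hm1 : (m : ℝ) ≤ 0.085 * n := by rw [hmr]; linarith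
  have hC : 1 ≤ (D' : ℝ) + J + 1 := by linarith
  have hn1 : 10 ^ 10 * ((D' : ℝ) + J + 1) ≤ n := by nlinarith
  have hlow : (e2 G univ : ℝ) ≤ e2 G A + 2 * (J * n) := by
    have h1 := e2_low G A
    rw [hnn] at h1
    have h2 : (univ \ A).card ≤ J := by
      have h3 := Finset.card_sdiff_add_card_eq_card (Finset.subset_univ A)
      rw [Finset.card_univ, hnn] at h3
      omega
    have h3 : e2 G univ ≤ e2 G A + 2 * (J * n) :=
      h1.trans (by gcongr)
    exact_mod_cast h3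
  have hph : (n - m : ℝ) ^ 2 + (m : ℝ) ^ 2 = 2 * ph4 n k := by
    rw [hmr]; unfold ph4; ring
  rw [← hph] at hd
  have hLm : L.card ≤ m + D' := by
    by_contra hcon
    push Not at hcon
    obtain ⟨L', hL', hc'⟩ := Finset.exists_subset_card_eq hcon.le
    have h1 := hE V G A L' (hL'.trans hLA) fun v hv => hL1 v (hL' hv)
    have h2 := Finset.card_sdiff_add_card_eq_card (hL'.trans hLA)
    rw [hc'] at h1 h2
    have h3 : (A \ L').card * ((A \ L').card - 1) ≤ (n - m - D') * (n - m - D') := by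
      apply Nat.mul_le_mul <;> omega
    have h4 : m + D' ≤ n := by omega
    have h5 : ((n - m - D' : ℕ) : ℝ) = (n : ℝ) - m - D' := by
      rw [Nat.cast_sub (by omega), Nat.cast_sub (by omega)]
    have h6 : (e2 G A : ℝ) ≤ ((n : ℝ) - m - D') ^ 2 + ((m : ℝ) + D') * (m + D' + 1) := by
      rw [← h5, sq]
      have h7 : e2 G A ≤ (n - m - D') * (n - m - D') + (m + D') * (m + D' + 1) := by omega
      exact_mod_cast h7
    exact numA (n := n) (m := m) (D := D) (D' := D') (J := J) (e := e2 G A) (E := e2 G univ)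
      (by nlinarith) hm1 hD hD1' hd hlow h6
  have hLr : (L.card : ℝ) ≤ m + D' := by exact_mod_cast hLm
  refine ⟨by rw [hmr] at hLr; linarith, ?_⟩
  -- the set H1
  obtain ⟨h, hh⟩ : ∃ h, (A \ L).card = h := ⟨_, rfl⟩
  have hcA := Finset.card_sdiff_add_card_eq_card hLA
  have hhn : h + m ≤ n + J := by omega
  have hle := e2_le G (A \ L)
  rw [hh] at hle
  have hsum : ∑ v ∈ A \ L, (((A \ L).card : ℝ) - 1 - dg G (A \ L) v) =
      (h : ℝ) * (h - 1) - e2 G (A \ L) := by
    rw [Finset.sum_sub_distrib, Finset.sum_const, hh, nsmul_eq_mul]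
    unfold e2
    push_cast
    ring
  have hleR : (e2 G (A \ L) : ℝ) ≤ (h : ℝ) * (h - 1) := by
    rw [← cast_mul_pred]
    exact_mod_cast hle
  obtain ⟨a, b, x, y, hab, hxy, he⟩ := hE' V G A L hLA hL1
  rw [hh] at hxy
  have hxn : ∀ z : ℕ, z * (z - 1) ≤ h * (h - 1) → z ≤ n + 1 := by
    intro z hz
    by_contra hcon
    push Not at hcon
    have h1 : h ≤ n := by omega
    have h2 : h * (h - 1) ≤ n * n := Nat.mul_le_mul h1 (by omega)
    have h3 : (n + 1) * (n + 1) ≤ z * (z - 1) := Nat.mul_le_mul (by omega) (by omega)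
    nlinarith
  have hx := hxn x (by omega)
  have hy := hxn y (by omega)
  set Lo : ℝ := (h : ℝ) * (h - 1) - e2 G (A \ L) with hLo
  have hLo0 : 0 ≤ Lo := by linarith
  set r : ℝ := √(Lo + 2 * n + 2) with hr
  have hr0 : 0 ≤ r := Real.sqrt_nonneg _
  have hrr : r ^ 2 = Lo + 2 * n + 2 := Real.sq_sqrt (by linarith)
  have hxyR : (x : ℝ) * (x - 1) + y * (y - 1) ≤ Lo := by
    rw [hLo, ← cast_mul_pred, ← cast_mul_pred, ← cast_mul_pred]
    have h1 : ((x * (x - 1) + y * (y - 1) + e2 G (A \ L) : ℕ) : ℝ) ≤ ((h * (h - 1) : ℕ) : ℝ) := by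
      exact_mod_cast hxy
    push_cast at h1 ⊢
    linarith
  have heR : (e2 G A : ℝ) ≤ e2 G (A \ L) + 2 * (a * x + b * y + a * b) := by
    exact_mod_cast he
  have habR : (a : ℝ) + b ≤ m + D' := by
    rw [← hab] at hLr
    exact_mod_cast hLr
  have hrm := numB (n := n) (m := m) (D := D) (D' := D') (J := J) (e := e2 G A) (h := h)
    (H := e2 G (A \ L)) (Lo := Lo) (a := a) (b := b) (x := x) (y := y) (r := r) hD hJ0 hD1' hn
    hm0 hm1 (Nat.cast_nonneg _) (by
      have h1 : (h : ℝ) + m ≤ n + J := by exact_mod_cast hhn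
      linarith) (Nat.cast_nonneg _) (Nat.cast_nonneg _) habR hr0 hrr (by exact_mod_cast hx)
    (by exact_mod_cast hy) hxyR (by rw [hLo]; ring) (by linarith) heR
  refine ⟨r, by rw [hmr] at hrm; linarith, hr0, ?_, ?_⟩
  · intro S hS hI
    have h1 := J3.e2_two_ind G hS (Finset.empty_subset _) (Finset.disjoint_empty_right _) hI
      (by intro x hx; simp at hx)
    rw [hh, Finset.card_empty] at h1
    have h2 : ((S.card * (S.card - 1) + e2 G (A \ L) : ℕ) : ℝ) ≤ ((h * (h - 1) : ℕ) : ℝ) := by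
      have : S.card * (S.card - 1) + e2 G (A \ L) ≤ h * (h - 1) := by omega
      exact_mod_cast this
    rw [Nat.cast_add, cast_mul_pred, cast_mul_pred] at h2
    have h3 : S.card ≤ n := (Finset.card_le_card (hS.trans Finset.sdiff_subset)).trans hAn
    have h3' : (S.card : ℝ) ≤ n := by exact_mod_cast h3
    have h4 : (S.card : ℝ) ^ 2 ≤ r ^ 2 := by
      rw [hrr, hLo]
      nlinarith
    exact (abs_le_of_sq_le_sq' h4 hr0).2
  · rw [hsum, hrr]
    linarith

/-- the tiling property, abstract form -/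
lemma tiling (hW : tWCH) {V : Type} [Fintype V] [DecidableEq V] (G G' : SimpleGraph V)
    (H H1 F P : Finset V) (r0 J c : ℕ) (n r : ℝ) (hH1 : H1 ⊆ H) (hQ : (H \ H1).card ≤ J)
    (hF : F.card ≤ c) (hP : P.card ≤ 100) (hPG : ∀ u v, G.Adj u v → v ∉ P → G'.Adj u v)
    (hr0 : c + 100 + 3 * J < r0) (hn : 1000 * ((c : ℝ) + 3 * J + 200) ≤ n)
    (hHM : ∀ v ∈ H, ∃ M, MF G H1 M ∧ M.card = r0 ∧ ∀ p ∈ M, G.Adj v p.1 ∧ G.Adj v p.2)
    (hdeg : ∀ v ∈ H1, 0.51 * n ≤ dg G H1 v) (hcard : 0.91 * n ≤ H1.card)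
    (hr : 0 ≤ r) (hrn : r ≤ 0.0855 * n)
    (hsum : ∑ v ∈ H1, ((H1.card : ℝ) - 1 - dg G H1 v) ≤ r ^ 2) :
    HasT G' (H \ F) ((H \ F).card / 3) := by
  classical
  have hc0 : (0 : ℝ) ≤ c := Nat.cast_nonneg _
  have hJ0 : (0 : ℝ) ≤ J := Nat.cast_nonneg _
  have hnpos : 200000 ≤ n := by linarith
  -- first step
  have hdis1 : Disjoint ((H \ H1) \ F) (H1 \ F) := by
    rw [Finset.disjoint_left]
    intro v hv hv'
    rw [Finset.mem_sdiff, Finset.mem_sdiff] at hv
    rw [Finset.mem_sdiff] at hv'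
    exact hv.1.2 hv'.1
  have hQc : ((H \ H1) \ F).card ≤ J := (Finset.card_le_card Finset.sdiff_subset).trans hQ
  obtain ⟨T1, hT1, hc1, hs1⟩ := cover G' ((H \ H1) \ F) (H1 \ F) hdis1 (by
    intro v hv U hU
    have hvH : v ∈ H := (Finset.mem_sdiff.1 (Finset.mem_sdiff.1 hv).1).1
    obtain ⟨M, hM, hMc, hMv⟩ := hHM v hvH
    have hW' : (U ∪ (P ∪ F)).card < M.card := by
      have h1 := Finset.card_union_le U (P ∪ F)
      have h2 := Finset.card_union_le P F
      omega
    obtain ⟨p, hp, hp1, hp2⟩ := avoid hM hW'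
    simp only [Finset.mem_union, not_or] at hp1 hp2
    obtain ⟨m1, m2, m3⟩ := hM.mem p hp
    refine ⟨p.1, ?_, p.2, ?_, hPG _ _ (hMv p hp).1 hp1.2.1, hPG _ _ m3 hp2.2.1,
      hPG _ _ (hMv p hp).2 hp2.2.1⟩
    · rw [Finset.mem_sdiff, Finset.mem_sdiff]
      exact ⟨⟨m1, hp1.2.2⟩, hp1.1⟩
    · rw [Finset.mem_sdiff, Finset.mem_sdiff]
      exact ⟨⟨m2, hp2.2.2⟩, hp2.1⟩)
  have hX0 : (H \ H1) \ F ∪ H1 \ F = H \ F := by
    rw [← Finset.union_sdiff_distrib, Finset.sdiff_union_of_subset hH1]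
  rw [hX0] at hT1
  set R1 := (H \ F) \ vT T1 with hR1
  have hR1H : R1 ⊆ H1 := by
    intro v hv
    rw [hR1, Finset.mem_sdiff, Finset.mem_sdiff] at hv
    by_contra hcon
    exact hv.2 (hs1 (by
      rw [Finset.mem_sdiff, Finset.mem_sdiff]
      exact ⟨⟨hv.1.1, hcon⟩, hv.1.2⟩))
  have hR1c : R1.card + 3 * T1.card = (H \ F).card := by
    have := Finset.card_sdiff_add_card_eq_card hT1.vT_sub
    rw [hT1.card_vT] at this
    exact this
  have hH1R : H1 \ R1 ⊆ F ∪ vT T1 := by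
    intro v hv
    rw [hR1, Finset.mem_sdiff, Finset.mem_sdiff, Finset.mem_sdiff] at hv
    rw [Finset.mem_union]
    by_contra hcon
    push Not at hcon
    exact hv.2 ⟨⟨hH1 hv.1, hcon.1⟩, hcon.2⟩
  have hH1Rc : (H1 \ R1).card ≤ c + 3 * J := by
    have h1 := Finset.card_le_card hH1R
    have h2 := Finset.card_union_le F (vT T1)
    rw [hT1.card_vT] at h2
    omega
  have hH1Rc' : ((H1 \ R1).card : ℝ) ≤ c + 3 * J := by exact_mod_cast hH1Rc
  have hR1card : (H1.card : ℝ) = R1.card + (H1 \ R1).card := by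
    have h1 := Finset.card_sdiff_add_card_eq_card hR1H
    rw [← h1]; push_cast; ring
  -- exceptional vertices
  set Ex := R1.filter (fun v => (dg G H1 v : ℝ) + 0.15 * n ≤ H1.card) with hEx
  have hExR : Ex ⊆ R1 := Finset.filter_subset _ _
  have hExc : (Ex.card : ℝ) ≤ 0.05 * n := by
    have h1 : ∑ v ∈ Ex, (0.15 * n - 1) ≤ ∑ v ∈ H1, ((H1.card : ℝ) - 1 - dg G H1 v) := by
      calc ∑ v ∈ Ex, (0.15 * n - 1) ≤ ∑ v ∈ Ex, ((H1.card : ℝ) - 1 - dg G H1 v) := by
            refine Finset.sum_le_sum fun v hv => ?_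
            rw [hEx, Finset.mem_filter] at hv
            linarith [hv.2]
        _ ≤ _ := by
            refine Finset.sum_le_sum_of_subset_of_nonneg (hExR.trans hR1H) fun v hv _ => ?_
            have h2 := dg_lt_card G hv
            have h3 : (dg G H1 v : ℝ) + 1 ≤ H1.card := by exact_mod_cast h2
            linarith
    rw [Finset.sum_const, nsmul_eq_mul] at h1
    have h2 : (Ex.card : ℝ) * (0.15 * n - 1) ≤ (0.0855 * n) ^ 2 := by
      have : r ^ 2 ≤ (0.0855 * n) ^ 2 := by gcongr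
      linarith
    by_contra hcon
    push Not at hcon
    have h3 : 0.05 * n * (0.15 * n - 1) ≤ (Ex.card : ℝ) * (0.15 * n - 1) := by
      apply mul_le_mul_of_nonneg_right hcon.le
      linarith
    nlinarith
  have hnex : ∀ x ∈ R1, x ∉ Ex → (H1.card : ℝ) < dg G H1 x + 0.15 * n := by
    intro x hx hx'
    by_contra hcon
    push Not at hcon
    exact hx' (by rw [hEx, Finset.mem_filter]; exact ⟨hx, hcon⟩)
  have hPc : (P.card : ℝ) ≤ 100 := by exact_mod_cast hP
  obtain ⟨T2, hT2, hc2, hs2⟩ := cover G' Ex (R1 \ Ex) Finset.disjoint_sdiff (by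
    intro v hv U hU
    have hvR : v ∈ R1 := hExR hv
    have hvH : v ∈ H1 := hR1H hvR
    set W := ((R1 \ Ex) \ U) \ P with hWdef
    have hWH : W ⊆ H1 := by
      intro z hz
      rw [hWdef] at hz
      simp only [Finset.mem_sdiff] at hz
      exact hR1H hz.1.1.1
    have hWc : (H1 \ W).card ≤ (H1 \ R1).card + Ex.card + U.card + P.card := by
      have h1 : H1 \ W ⊆ (H1 \ R1) ∪ (Ex ∪ (U ∪ P)) := by
        intro z hz
        rw [hWdef] at hz
        simp only [Finset.mem_sdiff, Finset.mem_union] at hz ⊢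
        tauto
      have h2 := Finset.card_le_card h1
      have h3 := Finset.card_union_le (H1 \ R1) (Ex ∪ (U ∪ P))
      have h4 := Finset.card_union_le Ex (U ∪ P)
      have h5 := Finset.card_union_le U P
      omega
    have hWc' : ((H1 \ W).card : ℝ) ≤ 0.16 * n := by
      have h1 : ((H1 \ W).card : ℝ) ≤ (H1 \ R1).card + Ex.card + U.card + P.card := by
        exact_mod_cast hWc
      have h2 : (U.card : ℝ) ≤ 2 * Ex.card := by exact_mod_cast hU
      linarith
    have hWH1 : (W.card : ℝ) + (H1 \ W).card = H1.card := by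
      have := Finset.card_sdiff_add_card_eq_card hWH
      rw [← this]; push_cast; ring
    have hdv : 0.35 * n ≤ dg G W v := by
      have h1 := nonnb G hWH v
      have h2 : (W.card : ℝ) + dg G H1 v ≤ H1.card + dg G W v := by exact_mod_cast h1
      have h3 := hdeg v hvH
      linarith
    have hpos : 0 < dg G W v := by
      have : (0 : ℝ) < dg G W v := by linarith
      exact_mod_cast this
    obtain ⟨x, hxW, hvx⟩ : ∃ x ∈ W, G.Adj v x := by
      by_contra hcon
      push Not at hcon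
      rw [(dg_eq_zero_iff G W v).2 hcon] at hpos
      exact lt_irrefl _ hpos
    have hxm := hxW
    rw [hWdef] at hxm
    simp only [Finset.mem_sdiff] at hxm
    have hdx : (W.card : ℝ) < dg G W x + 0.15 * n := by
      have h1 := nonnb G hWH x
      have h2 : (W.card : ℝ) + dg G H1 x ≤ H1.card + dg G W x := by exact_mod_cast h1
      have h3 := hnex x hxm.1.1.1 hxm.1.1.2
      linarith
    obtain ⟨y, hyW, hvy, hxy⟩ := common G (W := W) (x := v) (y := x) (by
      have : (W.card : ℝ) < dg G W v + dg G W x := by linarith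
      exact_mod_cast this)
    have hym := hyW
    rw [hWdef] at hym
    simp only [Finset.mem_sdiff] at hym
    refine ⟨x, ?_, y, ?_, hPG _ _ hvx hxm.2, hPG _ _ hxy hym.2, hPG _ _ hvy hym.2⟩
    · rw [Finset.mem_sdiff, Finset.mem_sdiff]; exact hxm.1
    · rw [Finset.mem_sdiff, Finset.mem_sdiff]; exact hym.1)
  rw [Finset.union_sdiff_of_subset hExR] at hT2
  set R2 := R1 \ vT T2 with hR2
  have hR2R : R2 ⊆ R1 := Finset.sdiff_subset
  have hR2c : R2.card + 3 * T2.card = R1.card := by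
    have := Finset.card_sdiff_add_card_eq_card hT2.vT_sub
    rw [hT2.card_vT] at this
    exact this
  have hR2H : R2 ⊆ H1 := hR2R.trans hR1H
  have hR2r : (R2.card : ℝ) + 3 * Ex.card = R1.card := by
    rw [hc2] at hR2c
    exact_mod_cast hR2c
  have hR2big : 0.7 * n ≤ R2.card := by linarith
  have hfac : HasT G' R2 (R2.card / 3) := by
    apply hW
    intro v hv
    have hvx : v ∉ Ex := by
      intro h1
      rw [hR2, Finset.mem_sdiff] at hv
      exact hv.2 (hs2 h1)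
    have h1 := hnex v (hR2R hv) hvx
    have h2 := nonnb G hR2H v
    have h3 : (R2.card : ℝ) + dg G H1 v ≤ H1.card + dg G R2 v := by exact_mod_cast h2
    have h4 := dg_le_sdiff G R2 P v
    have h5 : dg G (R2 \ P) v ≤ dg G' R2 v := by
      rw [dg_def, dg_def]
      apply Finset.card_le_card
      intro u hu
      rw [Finset.mem_filter, Finset.mem_sdiff] at hu
      rw [Finset.mem_filter]
      exact ⟨hu.1.1, hPG _ _ hu.2 hu.1.2⟩
    have h6 : (dg G R2 v : ℝ) ≤ dg G' R2 v + P.card := by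
      have : dg G R2 v ≤ dg G' R2 v + P.card := by omega
      exact_mod_cast this
    have h7 : (7 : ℝ) * R2.card ≤ 9 * dg G' R2 v := by linarith
    exact_mod_cast h7
  have h8 := step hT1 (step hT2 hfac)
  have h9 : T1.card + (T2.card + R2.card / 3) = (H \ F).card / 3 := by omega
  rwa [h9] at h8

end J23

open J23

theorem pS4 (hE : tLemE) (hE' : tLemE') (hW : tWCH) : tS4 := by
  classical
  intro D J
  obtain ⟨D', hD1, hD⟩ : ∃ D' : ℕ, 1 ≤ D' ∧ D + 2 * J + 1 ≤ D' := by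
    obtain ⟨d, hd⟩ := exists_nat_ge D
    exact ⟨d + 2 * J + 1, by omega, by push_cast; linarith⟩
  refine ⟨D' + J, 10 ^ 10 * (D' + J + 1) ^ 2, ?_⟩
  intro V _ _ G A L k hN hk hk2 hA hP hd
  have hNR : 10 ^ 10 * ((D' : ℝ) + J + 1) ^ 2 ≤ Fintype.card V := by exact_mod_cast hN
  obtain ⟨hLc, r, hrk, hr0, hind, hsum⟩ :=
    facts hE hE' G A L k J D' D hD hD1 hNR hk hk2 hA hP hd
  obtain ⟨hLA, hL1, hL2, hL3⟩ := hP
  obtain ⟨n, hnn⟩ : ∃ n, Fintype.card V = n := ⟨_, rfl⟩
  rw [hnn] at hNR hk hk2 hA hLc hrk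
  have hAn : A.card ≤ n := by rw [← hnn]; exact Finset.card_le_univ A
  have hD1' : (1 : ℝ) ≤ D' := by exact_mod_cast hD1
  have hJ0 : (0 : ℝ) ≤ J := Nat.cast_nonneg _
  have hn1 : 10 ^ 10 * ((D' : ℝ) + J + 1) ≤ n := by nlinarith
  have hkr : (n : ℝ) - 3 * k ≤ 0.085 * n := by linarith
  have hrn : r ≤ 0.0855 * n := by linarith
  set H1 := A \ L with hH1def
  obtain ⟨r0, hr0lo, hr0hi, hr0big⟩ : ∃ r0 : ℕ, (r0 : ℝ) ≤ n / 2000 + 1 ∧ (n : ℝ) / 2000 ≤ r0 ∧
      10 * (D' + J) + 300 + 3 * J < r0 := by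
    have h1 : (n / 2000 : ℕ) + 1 ≤ (n : ℝ) / 2000 + 1 := by
      have := @Nat.cast_div_le ℝ _ _ _ n 2000
      push_cast at this
      linarith
    have h2 : (n : ℝ) / 2000 ≤ (n / 2000 : ℕ) + 1 := by
      have h3 := Nat.lt_div_mul_add (a := n) (b := 2000) (by norm_num)
      have h4 : (n : ℝ) < (n / 2000 : ℕ) * 2000 + 2000 := by exact_mod_cast h3
      linarith
    refine ⟨n / 2000 + 1, by push_cast; linarith, by push_cast; linarith, ?_⟩
    have h5 : ((10 * (D' + J) + 300 + 3 * J : ℕ) : ℝ) < ((n / 2000 + 1 : ℕ) : ℝ) := by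
      push_cast
      linarith
    exact_mod_cast h5
  have hmat : ∀ v, ¬ HasM G (H1.filter (fun u => G.Adj v u)) r0 →
      (dg G H1 v : ℝ) ≤ r + n / 1000 + 2 := by
    intro v hv
    obtain ⟨S, hS, hI, hc⟩ := exists_ind G _ r0 hv
    rw [← dg_def] at hc
    have h1 := hind S (hS.trans (Finset.filter_subset _ _)) hI
    have h2 : (dg G H1 v : ℝ) ≤ S.card + 2 * r0 := by exact_mod_cast hc
    linarith
  set Lam : Finset V := univ.filter (fun v => ¬ HasM G (H1.filter (fun u => G.Adj v u)) r0)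
    with hLam
  have hmemLam : ∀ v, v ∈ Lam ↔ ¬ HasM G (H1.filter (fun u => G.Adj v u)) r0 := by
    intro v; rw [hLam, Finset.mem_filter]; simp
  have hL_Lam : ∀ v ∈ L, v ∈ Lam := by
    intro v hv
    rw [hmemLam]
    rintro ⟨M, hM, hMc⟩
    have hne : 0 < M.card := by omega
    obtain ⟨p, hp⟩ := Finset.card_pos.1 hne
    obtain ⟨h1, h2, h3⟩ := hM.mem p hp
    exact J3.ind_nbr G (H := H1) Finset.sdiff_subset (hL1 v hv) _ h1 _ h2 h3
  have hdegH1 : ∀ v ∈ H1, 0.51 * (n : ℝ) ≤ dg G H1 v := by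
    intro v hv
    have h1 := hL2 v hv
    have h2 := dg_le_sdiff G A L v
    rw [← hH1def] at h2
    have h3 : (dg G A v : ℝ) ≤ dg G H1 v + L.card := by exact_mod_cast h2
    have h4 : (n : ℝ) ≤ A.card + J := by exact_mod_cast hA
    linarith
  have hH1_Lam : ∀ v ∈ H1, v ∉ Lam := by
    intro v hv h1
    rw [hmemLam] at h1
    have h2 := hmat v h1
    have h3 := hdegH1 v hv
    linarith
  have hH1H : H1 ⊆ univ \ Lam := by
    intro v hv
    rw [Finset.mem_sdiff]
    exact ⟨Finset.mem_univ _, hH1_Lam v hv⟩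
  have hHH1 : ((univ \ Lam) \ H1).card ≤ J := by
    have h1 : (univ \ Lam) \ H1 ⊆ univ \ A := by
      intro v hv
      rw [Finset.mem_sdiff, Finset.mem_sdiff] at hv
      rw [Finset.mem_sdiff]
      refine ⟨Finset.mem_univ _, fun hvA => hv.2 ?_⟩
      rw [hH1def, Finset.mem_sdiff]
      exact ⟨hvA, fun hvL => hv.1.2 (hL_Lam v hvL)⟩
    have h2 := Finset.card_le_card h1
    have h3 := Finset.card_sdiff_add_card_eq_card (Finset.subset_univ A)
    rw [Finset.card_univ, hnn] at h3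
    omega
  have hH1c : H1.card + L.card = A.card := Finset.card_sdiff_add_card_eq_card hLA
  have hH1card : 0.91 * (n : ℝ) ≤ H1.card := by
    have h1 : (H1.card : ℝ) + L.card = A.card := by exact_mod_cast hH1c
    have h2 : (n : ℝ) ≤ A.card + J := by exact_mod_cast hA
    linarith
  refine ⟨univ \ Lam, Lam, ?_, ?_, ?_, ?_, ?_⟩
  · exact Finset.sdiff_disjoint
  · exact Finset.sdiff_union_of_subset (Finset.subset_univ _)
  · intro G' hG' F hF
    obtain ⟨P, hP, hPG⟩ := lost hG'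
    refine tiling hW G G' (univ \ Lam) H1 F P r0 J (200 + 10 * (D' + J)) n r hH1H hHH1 hF hP hPG
      (by omega) (by push_cast; linarith) ?_ hdegH1 hH1card hr0 hrn hsum
    intro v hv
    rw [Finset.mem_sdiff, hmemLam, not_not] at hv
    obtain ⟨M, hM, hMc⟩ := hv.2
    refine ⟨M, hM.mono (Finset.filter_subset _ _), hMc, fun p hp => ?_⟩
    obtain ⟨h1, h2, _⟩ := hM.mem p hp
    exact ⟨(Finset.mem_filter.1 h1).2, (Finset.mem_filter.1 h2).2⟩
  · intro v hv
    rw [hmemLam] at hv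
    have h1 := hmat v hv
    have h2 := dg_le_sdiff G (univ \ Lam) ((univ \ Lam) \ H1) v
    rw [Finset.sdiff_sdiff_eq_self hH1H] at h2
    have h3 : (dg G (univ \ Lam) v : ℝ) ≤ dg G H1 v + J := by
      have : dg G (univ \ Lam) v ≤ dg G H1 v + J := by omega
      exact_mod_cast this
    rw [hnn]
    linarith
  · have h1 : Lam ⊆ L ∪ (univ \ A) := by
      intro v hv
      rw [Finset.mem_union, Finset.mem_sdiff]
      by_contra hcon
      push Not at hcon
      refine hH1_Lam v ?_ hv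
      rw [hH1def, Finset.mem_sdiff]
      exact ⟨hcon.2 (Finset.mem_univ _), hcon.1⟩
    have h2 := Finset.card_le_card h1
    have h3 := Finset.card_union_le L (univ \ A)
    have h4 := Finset.card_sdiff_add_card_eq_card (Finset.subset_univ A)
    rw [Finset.card_univ, hnn] at h4
    have h5 : L.card + 3 * k ≤ n + D' := by exact_mod_cast hLc
    rw [hnn]
    omega

end Pool.Agent.ART
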