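import Pool.Agent.ART.Basic
import Pool.Agent.ART.Targets

set_option autoImplicit false
set_option linter.unusedSectionVars false

/-! Anti-Ramsey numbers of vertex-disjoint triangles (MP_e56f3d_co): J24, forest lemma, cover
lemma, first part of the exact analysis of the second type. -/

namespace Pool.Agent.ART

open Finset

variable {V : Type}

/-! ### The forest lemma -/

lemma walk_colour (c : Sym2 V → ℕ) (B L : Finset V) (R : SimpleGraph V)
    (hR : ∀ x y, R.Adj x y → x ∈ B ∧ y ∈ B ∧ (x ∈ L ∨ y ∈ L))
    (hinj : ∀ x y x' y', R.Adj x y → R.Adj x' y' → c s(x, y) = c s(x', y') →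
      s(x, y) = s(x', y'))
    (htri : ∀ x ∈ L, ∀ y ∈ L, ∀ z ∈ B, x ≠ y → y ≠ z → x ≠ z →
      c s(x, y) = c s(y, z) ∨ c s(x, y) = c s(x, z) ∨ c s(y, z) = c s(x, z))
    {u v : V} (p : R.Walk u v) :
    p.IsTrail → v ∈ L → u ≠ v → ∃ e ∈ p.edges, c e = c s(u, v) := by
  induction p with
  | nil => intro _ _ h; exact absurd rfl h
  | @cons u w v h q ih =>
    intro htr hv huv
    rw [SimpleGraph.Walk.isTrail_cons] at htr
    by_cases hwv : w = v
    · subst hwv
      exact ⟨s(u, w), by simp, rfl⟩
    · obtain ⟨e, he, hce⟩ := ih htr.1 hv hwv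
      have heR : e ∈ R.edgeSet := q.edges_subset_edgeSet he
      have hne : c s(u, w) ≠ c s(w, v) := by
        intro hc
        rw [← hce] at hc
        induction e using Sym2.ind with
        | _ a b =>
          rw [SimpleGraph.mem_edgeSet] at heR
          have := hinj u w a b h heR hc
          rw [this] at htr
          exact htr.2 he
      have h1 : c s(u, v) = c s(u, w) ∨ c s(u, v) = c s(w, v) := by
        rcases (hR u w h).2.2 with hu | hw
        · rcases htri u hu v hv w (hR u w h).2.1 huv (Ne.symm hwv) h.ne with h2 | h2 | h2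
          · right; rw [h2, Sym2.eq_swap]
          · left; exact h2
          · exfalso; apply hne; rw [← h2, Sym2.eq_swap]
        · rcases htri w hw v hv u (hR u w h).1 hwv huv.symm h.ne' with h2 | h2 | h2
          · right; rw [h2, Sym2.eq_swap]
          · exfalso; apply hne; rw [h2, Sym2.eq_swap]
          · left; rw [Sym2.eq_swap, h2, Sym2.eq_swap]
      rcases h1 with h1 | h1
      · exact ⟨s(u, w), by simp, h1.symm⟩
      · exact ⟨e, by simp [he], by rw [h1, hce]⟩

lemma acyc (c : Sym2 V → ℕ) (B L : Finset V) (R : SimpleGraph V)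
    (hR : ∀ x y, R.Adj x y → x ∈ B ∧ y ∈ B ∧ (x ∈ L ∨ y ∈ L))
    (hinj : ∀ x y x' y', R.Adj x y → R.Adj x' y' → c s(x, y) = c s(x', y') →
      s(x, y) = s(x', y'))
    (htri : ∀ x ∈ L, ∀ y ∈ L, ∀ z ∈ B, x ≠ y → y ≠ z → x ≠ z →
      c s(x, y) = c s(y, z) ∨ c s(x, y) = c s(x, z) ∨ c s(y, z) = c s(x, z)) :
    R.IsAcyclic := by
  classical
  have key : ∀ v w : V, R.Adj v w → w ∈ L → ∀ p : R.Walk v w, s(v, w) ∈ p.edges := by
    intro v w hvw hw p
    obtain ⟨e, he, hce⟩ := walk_colour c B L R hR hinj htri p.bypass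
      (p.bypass_isPath.isTrail) hw hvw.ne
    have heR : e ∈ R.edgeSet := p.bypass.edges_subset_edgeSet he
    have hes : e = s(v, w) := by
      clear he
      induction e using Sym2.ind with
      | _ a b =>
        rw [SimpleGraph.mem_edgeSet] at heR
        exact hinj a b v w heR hvw hce
    rw [hes] at he
    exact p.edges_bypass_subset_edges he
  rw [SimpleGraph.isAcyclic_iff_forall_adj_isBridge]
  intro v w hvw
  rw [SimpleGraph.isBridge_iff_forall_walk_mem_edges]
  intro p
  rcases (hR v w hvw).2.2 with hv | hw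
  · have := key w v hvw.symm hv p.reverse
    rw [SimpleGraph.Walk.edges_reverse, List.mem_reverse, Sym2.eq_swap] at this
    exact this
  · exact key v w hvw hw p

lemma acyc_e2 (R : SimpleGraph V) (B : Finset V) (hB : B.Nonempty) (hR : R.IsAcyclic) :
    e2 R B ≤ 2 * (B.card - 1) := by
  classical
  set R' : SimpleGraph B := R.induce (B : Set V) with hR'
  have hac : R'.IsAcyclic := hR.induce _
  have : Nonempty B := ⟨⟨hB.choose, hB.choose_spec⟩⟩
  obtain ⟨F, hF1, _, hF3⟩ := (SimpleGraph.connected_top (V := B)).exists_isTree_le_of_le_of_isAcyclic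
    (le_top : R' ≤ ⊤) hac
  have h1 := hF3.card_edgeFinset
  have h2 : R'.edgeFinset.card ≤ F.edgeFinset.card :=
    Finset.card_le_card (SimpleGraph.edgeFinset_mono hF1)
  have h3 := R'.sum_degrees_eq_twice_card_edges
  have h4 : e2 R B = ∑ v : B, R'.degree v := by
    unfold e2
    rw [← Finset.sum_coe_sort B (fun v => dg R B v)]
    refine Finset.sum_congr rfl fun v _ => ?_
    rw [dg_def, ← SimpleGraph.card_neighborFinset_eq_degree]
    symm
    apply Finset.card_bij (fun (u : B) _ => (u : V))
    · intro u hu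
      rw [SimpleGraph.mem_neighborFinset] at hu
      rw [Finset.mem_filter]
      exact ⟨u.2, by simpa [hR'] using hu⟩
    · intro a _ b _ hab
      exact Subtype.ext hab
    · intro b hb
      rw [Finset.mem_filter] at hb
      refine ⟨⟨b, hb.1⟩, ?_, rfl⟩
      rw [SimpleGraph.mem_neighborFinset]
      simpa [hR'] using hb.2
  rw [h4, h3]
  rw [Fintype.card_coe] at h1
  omega

/-- rainbow graphs in colourings without certain rainbow triangles are forests -/
theorem pForest : tForest := by
  intro V _ _ c B L R _ hB hR hinj htri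
  exact acyc_e2 R B hB (acyc c B L R hR hinj htri)

/-! ### The cover lemma -/

theorem pCover (hRE : tRepE) : tCover := by
  intro V _ _ c G G' k J H L T hnR hS hRep hCl hT hcard
  by_contra hcon
  push Not at hcon
  have hF : (vT T).card = 3 * T.card := hT.card_vT
  obtain ⟨T', hT', hT'c⟩ := hS.tile G' hCl (vT T) (by omega)
  have hTF : TF G' (vT T) T := ⟨fun t ht v hv => mem_vT.2 ⟨t, ht, hv⟩, hT.clq, hT.dis⟩
  have hU : HasT G' (vT T ∪ (H \ vT T)) (T.card + (H \ vT T).card / 3) :=
    HasT.union ⟨T, hTF, rfl⟩ ⟨T', hT', hT'c⟩ Finset.disjoint_sdiff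
  have hsplit : (vT T).card = (vT T ∩ H).card + (vT T ∩ L).card := by
    rw [← Finset.card_union_of_disjoint, ← Finset.inter_union_distrib_left, hS.uni,
      Finset.inter_univ]
    exact Finset.disjoint_of_subset_left Finset.inter_subset_right
      (Finset.disjoint_of_subset_right Finset.inter_subset_right hS.dis)
  have hH : (H \ vT T).card + (vT T ∩ H).card = H.card := by
    rw [Finset.inter_comm]
    exact Finset.card_sdiff_add_card_inter H (vT T)
  have hk : k + 1 ≤ T.card + (H \ vT T).card / 3 := by omega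
  obtain ⟨T2, hT2, hc2⟩ := (hU.mono (Finset.subset_univ _)).le hk
  exact hnR ⟨T2, (hRE V c univ G' hRep).2.2.1 T2 hT2, hc2⟩

/-! ### D4a -/

lemma cols_card_le [DecidableEq V] (c : Sym2 V → ℕ) (A : Finset V) :
    (cols c A).card ≤ A.card.choose 2 := by
  classical
  have h1 : cols c A ⊆ (A.offDiag.image Sym2.mk.uncurry).image c := by
    intro x hx
    unfold cols at hx
    rw [Finset.mem_image] at hx
    obtain ⟨p, hp, rfl⟩ := hx
    rw [Finset.mem_image]
    exact ⟨s(p.1, p.2), Finset.mem_image.2 ⟨p, hp, rfl⟩, rfl⟩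
  calc (cols c A).card ≤ _ := Finset.card_le_card h1
    _ ≤ _ := Finset.card_image_le
    _ = _ := Sym2.card_image_offDiag A

lemma Cl.mono {q q' : ℕ} {G G' : SimpleGraph V} (h : Cl q G G') (hq : q ≤ q') : Cl q' G G' := by
  obtain ⟨E, hE, h2⟩ := h
  exact ⟨E, hE.trans hq, h2⟩

/-- if no vertex of `L` is in a rainbow triangle then the vertices of `L` add one colour each -/
lemma cols_add [DecidableEq V] (c : Sym2 V → ℕ) (H L : Finset V)
    (hno : ∀ x ∈ L, ∀ y z, x ≠ y → y ≠ z → x ≠ z →
      c s(x, y) = c s(y, z) ∨ c s(x, y) = c s(x, z) ∨ c s(y, z) = c s(x, z))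
    (hd : Disjoint H L) :
    ∀ S : Finset V, S ⊆ L → (cols c (H ∪ S)).card ≤ H.card.choose 2 + S.card := by
  intro S
  induction S using Finset.induction_on with
  | empty => intro _; simpa using cols_card_le c H
  | insert v S hv ih =>
    intro hS
    have hvL : v ∈ L := hS (Finset.mem_insert_self _ _)
    have hSL : S ⊆ L := fun x hx => hS (Finset.mem_insert_of_mem hx)
    have hi := ih hSL
    rw [Finset.card_insert_of_notMem hv]
    have hvP : v ∉ H ∪ S := by
      rw [Finset.mem_union]
      rintro (h | h)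
      · exact Finset.disjoint_left.1 hd h hvL
      · exact hv h
    have hnew : (cols c (H ∪ insert v S) \ cols c (H ∪ S)).card ≤ 1 := by
      rw [Finset.card_le_one]
      have hcol : ∀ a ∈ cols c (H ∪ insert v S) \ cols c (H ∪ S), ∃ u ∈ H ∪ S, a = c s(v, u) := by
        intro a ha
        rw [Finset.mem_sdiff] at ha
        obtain ⟨ha1, ha2⟩ := ha
        unfold cols at ha1 ha2
        rw [Finset.mem_image] at ha1
        obtain ⟨⟨x, y⟩, hp, rfl⟩ := ha1
        rw [Finset.mem_offDiag] at hp
        obtain ⟨hx, hy, hxy⟩ := hp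
        simp only at hx hy hxy ha2 ⊢
        rw [Finset.union_insert, Finset.mem_insert] at hx hy
        rcases hx with rfl | hx
        · rcases hy with rfl | hy
          · exact absurd rfl hxy
          · exact ⟨y, hy, rfl⟩
        · rcases hy with rfl | hy
          · exact ⟨x, hx, by rw [Sym2.eq_swap]⟩
          · exfalso
            apply ha2
            rw [Finset.mem_image]
            exact ⟨(x, y), Finset.mem_offDiag.2 ⟨hx, hy, hxy⟩, rfl⟩
      intro a ha b hb
      obtain ⟨u, hu, rfl⟩ := hcol a ha
      obtain ⟨w, hw, rfl⟩ := hcol b hb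
      by_contra hne
      have huw : u ≠ w := fun h => hne (by rw [h])
      have hvu : v ≠ u := fun h => hvP (h ▸ hu)
      have hvw : v ≠ w := fun h => hvP (h ▸ hw)
      have hold : c s(u, w) ∈ cols c (H ∪ S) := by
        unfold cols
        rw [Finset.mem_image]
        exact ⟨(u, w), Finset.mem_offDiag.2 ⟨hu, hw, huw⟩, rfl⟩
      rw [Finset.mem_sdiff] at ha hb
      rcases hno v hvL u w hvu huw hvw with h | h | h
      · exact ha.2 (h ▸ hold)
      · exact hne h
      · exact hb.2 (h ▸ hold)
    have hsub : cols c (H ∪ insert v S) ⊆ (cols c (H ∪ insert v S) \ cols c (H ∪ S)) ∪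
        cols c (H ∪ S) := by
      intro a ha
      rw [Finset.mem_union, Finset.mem_sdiff]
      tauto
    have h1 := Finset.card_le_card hsub
    have h2 := Finset.card_union_le (cols c (H ∪ insert v S) \ cols c (H ∪ S)) (cols c (H ∪ S))
    omega

lemma e2_split [Fintype V] [DecidableEq V] (G : SimpleGraph V) {H L : Finset V}
    (hd : Disjoint H L) (hu : H ∪ L = univ) : e2 G univ = e2 G H + e2 (Gm G L) univ := by
  classical
  rw [← hu, e2_union G hd, e2_union (Gm G L) hd]
  have h1 : e2 (Gm G L) H = 0 := by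
    unfold e2
    rw [Finset.sum_eq_zero_iff]
    intro v hv
    rw [dg_eq_zero_iff]
    rintro u hu ⟨_, h | h⟩
    · exact Finset.disjoint_left.1 hd hv h
    · exact Finset.disjoint_left.1 hd hu h
  have h2 : eb (Gm G L) H L = eb G H L := by
    unfold eb
    refine Finset.sum_congr rfl fun v _ => ?_
    rw [dg_def, dg_def]
    congr 1
    ext u
    rw [Finset.mem_filter, Finset.mem_filter]
    constructor
    · rintro ⟨hu, h, _⟩; exact ⟨hu, h⟩
    · rintro ⟨hu, h⟩; exact ⟨hu, h, Or.inr hu⟩
  have h3 : e2 (Gm G L) L = e2 G L := by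
    unfold e2
    refine Finset.sum_congr rfl fun v _ => ?_
    rw [dg_def, dg_def]
    congr 1
    ext u
    rw [Finset.mem_filter, Finset.mem_filter]
    constructor
    · rintro ⟨hu, h, _⟩; exact ⟨hu, h⟩
    · rintro ⟨hu, h⟩; exact ⟨hu, h, Or.inr hu⟩
  rw [h1, h2, h3]
  ring

lemma choose_two_succ' (m : ℕ) : (m + 1).choose 2 = m.choose 2 + m := by
  rw [Nat.choose_succ_succ' m 1]
  simp [Nat.choose_one_right]
  ring

lemma two_mul_choose_two (m : ℕ) : 2 * m.choose 2 = m * (m - 1) := by
  rw [Nat.choose_two_right]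
  exact Nat.mul_div_cancel' (Nat.even_mul_pred_self m).two_dvd

theorem pD4a (hRE : tRepE) (hSw : tSwM) (hF : tForest) (hC : tCover) : tD4a := by
  intro J
  refine ⟨0, ?_⟩
  intro V _ _ c G k H L _ hk1 h3k hRep hnR hS
  set n := Fintype.card V with hn
  have hCl0 : Cl 50 G G := ⟨∅, by simp, fun _ _ h _ => h⟩
  have hcard : H.card + L.card = n := by
    rw [← Finset.card_union_of_disjoint hS.dis, hS.uni, Finset.card_univ]
  have p1 : H.card ≤ 3 * k + 2 := by
    have := hC V c G G k J H L ∅ hnR hS hRep hCl0 ⟨by simp, by simp, by simp⟩ (by simp)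
    omega
  have hX5 : X5 n (k - 1) + 1 = (3 * k + 2).choose 2 + (n - 3 * k - 2) := by
    unfold X5
    have e1 : 3 * (k - 1) + 5 = 3 * k + 2 := by omega
    have e2 : n - 3 * (k - 1) - 6 + 1 = n - 3 * k - 2 := by omega
    rw [e1, add_assoc, e2]
  have p2 : H.card = 3 * k + 2 → (cols c univ).card ≤ X5 n (k - 1) + 1 := by
    intro hH
    have hno : ∀ x ∈ L, ∀ y z, x ≠ y → y ≠ z → x ≠ z →
      c s(x, y) = c s(y, z) ∨ c s(x, y) = c s(x, z) ∨ c s(y, z) = c s(x, z) := by
      intro x hx y z hxy hyz hxz
      by_contra hcon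
      push Not at hcon
      obtain ⟨h1, h2, h3⟩ := hcon
      obtain ⟨G', hG1, hG2, hG3, _, _⟩ := hSw V c G {s(x, y), s(y, z), s(x, z)} hRep
        (by
          intro e he
          simp only [Finset.mem_insert, Finset.mem_singleton] at he
          rcases he with rfl | rfl | rfl
          · simpa using hxy
          · simpa using hyz
          · simpa using hxz)
        (by
          intro e he f hf hef
          simp only [Finset.mem_insert, Finset.mem_singleton] at he hf
          rcases he with rfl | rfl | rfl <;> rcases hf with rfl | rfl | rfl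
          · rfl
          · exact absurd hef h1
          · exact absurd hef h2
          · exact absurd hef.symm h1
          · rfl
          · exact absurd hef h3
          · exact absurd hef.symm h2
          · exact absurd hef.symm h3
          · rfl)
      have hP3 : ({s(x, y), s(y, z), s(x, z)} : Finset (Sym2 V)).card ≤ 3 := Finset.card_le_three
      have hCl : Cl 50 G G' := hG2.mono (by omega)
      have htri : Tri G' x y z := by
        refine ⟨?_, ?_, ?_⟩
        · have := hG3 s(x, y) (by simp); simpa using this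
        · have := hG3 s(y, z) (by simp); simpa using this
        · have := hG3 s(x, z) (by simp); simpa using this
      have hTF : TF G' univ {{x, y, z}} := by
        refine ⟨by simp, ?_, ?_⟩
        · intro t ht
          rw [Finset.mem_singleton] at ht
          rw [ht]
          exact htri.clique
        · intro t ht t' ht' hne
          rw [Finset.mem_singleton] at ht ht'
          exact absurd (ht.trans ht'.symm) hne
      have h4 := hC V c G G' k J H L {{x, y, z}} hnR hS hG1 hCl hTF (by
        rw [Finset.card_singleton]; omega)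
      have h5 : x ∈ vT ({{x, y, z}} : Finset (Finset V)) ∩ L := by
        rw [Finset.mem_inter]
        exact ⟨mem_vT.2 ⟨{x, y, z}, by simp, by simp⟩, hx⟩
      have h6 := Finset.card_pos.2 ⟨x, h5⟩
      omega
    have h7 := cols_add c H L hno hS.dis L (Finset.Subset.refl _)
    rw [hS.uni, hH] at h7
    rw [hX5]
    omega
  refine ⟨p1, p2, ?_⟩
  intro hno
  by_cases hH : H.card = 3 * k + 2
  · exact p2 hH
  have hH' : H.card ≤ 3 * k + 1 := by omega
  have hVne : (univ : Finset V).Nonempty := by
    rw [← Finset.card_pos, Finset.card_univ]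
    omega
  have hfor := hF V c univ L (Gm G L) (Finset.subset_univ _) hVne
    (fun x y h => ⟨Finset.mem_univ _, Finset.mem_univ _, h.2⟩)
    (fun x y x' y' h h' hc => hRep.inj x y x' y' h.1 h'.1 hc)
    (fun x hx y hy z _ => hno x hx y hy z)
  have hsp := e2_split G hS.dis hS.uni
  have hcols := (hRE V c univ G hRep).1
  have hH2 := e2_le G H
  have hH3 : H.card * (H.card - 1) ≤ (3 * k + 1) * (3 * k) :=
    Nat.mul_le_mul hH' (by omega)
  have h8 := two_mul_choose_two (3 * k + 1)
  rw [Nat.add_sub_cancel] at h8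
  rw [hX5, choose_two_succ' (3 * k + 1)]
  rw [Finset.card_univ] at hfor
  omega

end Pool.Agent.ART
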