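import Pool.Agent.ART.Basic
import Pool.Agent.ART.Targets

set_option autoImplicit false
set_option linter.unusedSectionVars false
set_option linter.unusedVariables false

/-! J24b: `|H| = 3k` -/

namespace Pool.Agent.ART

open Finset

namespace J24b

variable {V : Type} [DecidableEq V]

open Classical in
lemma e2_eq_card (G : SimpleGraph V) (A : Finset V) :
    e2 G A = ((A ×ˢ A).filter (fun p => G.Adj p.1 p.2)).card := by
  unfold e2
  simp only [dg_eq_sum]
  rw [card_filter, sum_product]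

lemma ind_count (G : SimpleGraph V) (A I I' : Finset V) (hI : I ⊆ A) (hI' : I' ⊆ A)
    (h : Ind G I) (h' : Ind G I') :
    e2 G A + I.card * (I.card - 1) + I'.card * (I'.card - 1) ≤
      A.card * (A.card - 1) + (I ∩ I').card * ((I ∩ I').card - 1) := by
  classical
  have e : ∀ s : Finset V, s.offDiag.card = s.card * (s.card - 1) := by
    intro s
    rw [offDiag_card, Nat.mul_sub, mul_one]
  have h1 : ((A ×ˢ A).filter (fun p => G.Adj p.1 p.2)) ∪ (I.offDiag ∪ I'.offDiag) ⊆ A.offDiag := by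
    intro p hp
    rw [mem_union, mem_union, mem_filter, mem_product, mem_offDiag, mem_offDiag] at hp
    rw [mem_offDiag]
    rcases hp with hp | hp | hp
    · exact ⟨hp.1.1, hp.1.2, hp.2.ne⟩
    · exact ⟨hI hp.1, hI hp.2.1, hp.2.2⟩
    · exact ⟨hI' hp.1, hI' hp.2.1, hp.2.2⟩
  have h2 : Disjoint ((A ×ˢ A).filter (fun p => G.Adj p.1 p.2)) (I.offDiag ∪ I'.offDiag) := by
    rw [disjoint_left]
    intro p hp hp'
    rw [mem_filter] at hp
    rw [mem_union, mem_offDiag, mem_offDiag] at hp'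
    rcases hp' with hp' | hp'
    · exact h _ hp'.1 _ hp'.2.1 hp.2
    · exact h' _ hp'.1 _ hp'.2.1 hp.2
  have h3 := card_le_card h1
  rw [card_union_of_disjoint h2, ← e2_eq_card, e A] at h3
  have h4 := card_union_add_card_inter I.offDiag I'.offDiag
  rw [← offDiag_inter, e, e, e] at h4
  omega

variable [Fintype V]

lemma cltrans {q q' : ℕ} {G G' G'' : SimpleGraph V} (h : Cl q G G') (h' : Cl q' G' G'') :
    Cl (q + q') G G'' := by
  obtain ⟨E, hE, h1⟩ := h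
  obtain ⟨E', hE', h2⟩ := h'
  refine ⟨E ∪ E', (card_union_le _ _).trans (by omega), fun u v huv hn => ?_⟩
  rw [mem_union, not_or] at hn
  exact h2 u v (h1 u v huv hn.1) hn.2

lemma clmono {q q' : ℕ} {G G' : SimpleGraph V} (h : Cl q G G') (hq : q ≤ q') : Cl q' G G' := by
  obtain ⟨E, hE, h1⟩ := h
  exact ⟨E, hE.trans hq, h1⟩

lemma TF_one {G : SimpleGraph V} {x y z : V} (h : Tri G x y z) : TF G univ {{x, y, z}} := by
  have h0 : TF G (univ : Finset V) ∅ := ⟨by simp, by simp, by simp⟩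
  have := (h0.insert h (subset_univ _) (by simp [vT])).1
  simpa using this

lemma TF_two {G : SimpleGraph V} {x y z x' y' z' : V} (h : Tri G x y z) (h' : Tri G x' y' z')
    (hd : Disjoint ({x, y, z} : Finset V) {x', y', z'}) :
    TF G univ {{x, y, z}, {x', y', z'}} := by
  exact ((TF_one h').insert h (subset_univ _) (by simpa [vT] using hd)).1

/-- the hypotheses which stay fixed -/
structure Ctx (c : Sym2 V → ℕ) (G : SimpleGraph V) (k J : ℕ) (H L : Finset V) : Prop where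
  rep : Rep c univ G
  no : ¬ HasR c univ (k + 1)
  s4 : S4 G k J H L
  crd : H.card = 3 * k

lemma cov (hC : tCover) {c : Sym2 V → ℕ} {G G' : SimpleGraph V} {k J : ℕ} {H L : Finset V}
    (X : Ctx c G k J H L) (hR : Rep c univ G') (hcl : Cl 50 G G') {T : Finset (Finset V)}
    (hT : TF G' univ T) (hc : T.card ≤ 2) {p q r : V} (hp : p ∈ vT T) (hq : q ∈ vT T)
    (hr : r ∈ vT T) (hp' : p ∈ L) (hq' : q ∈ L) (hr' : r ∈ L) (h1 : p ≠ q) (h2 : p ≠ r)
    (h3 : q ≠ r) : False := by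
  have h4 := hC V c G G' k J H L T X.no X.s4 hR hcl hT (by omega)
  have h5 : 2 < (vT T ∩ L).card := by
    rw [two_lt_card]
    exact ⟨p, mem_inter.2 ⟨hp, hp'⟩, q, mem_inter.2 ⟨hq, hq'⟩, r, mem_inter.2 ⟨hr, hr'⟩, h1, h2, h3⟩
  have := X.crd
  omega

lemma cov1 (hC : tCover) {c : Sym2 V → ℕ} {G G' : SimpleGraph V} {k J : ℕ} {H L : Finset V}
    (X : Ctx c G k J H L) (hR : Rep c univ G') (hcl : Cl 50 G G') {x y z : V}
    (ht : Tri G' x y z) (hx : x ∈ L) (hy : y ∈ L) (hz : z ∈ L) : False := by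
  refine cov hC X hR hcl (TF_one ht) (by simp) (p := x) (q := y) (r := z) ?_ ?_ ?_ hx hy hz
    ht.1.ne ht.2.2.ne ht.2.1.ne
  all_goals simp [mem_vT]

lemma cov2 (hC : tCover) {c : Sym2 V → ℕ} {G G' : SimpleGraph V} {k J : ℕ} {H L : Finset V}
    (X : Ctx c G k J H L) (hR : Rep c univ G') (hcl : Cl 50 G G') {x y z x' y' z' : V}
    (ht : Tri G' x y z) (ht' : Tri G' x' y' z')
    (hd : Disjoint ({x, y, z} : Finset V) {x', y', z'}) (hx : x ∈ L) (hy : y ∈ L) (hz : x' ∈ L) :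
    False := by
  have h1 : x ∉ ({x', y', z'} : Finset V) := disjoint_left.1 hd (by simp)
  have h2 : y ∉ ({x', y', z'} : Finset V) := disjoint_left.1 hd (by simp)
  refine cov hC X hR hcl (TF_two ht ht' hd) (card_le_two) (p := x) (q := y) (r := x') ?_ ?_ ?_
    hx hy hz ht.1.ne ?_ ?_
  · simp [mem_vT]
  · simp [mem_vT]
  · simp [mem_vT]
  · rintro rfl; simp at h1
  · rintro rfl; simp at h2

/-! numbers -/

lemma two_choose (a : ℕ) : 2 * a.choose 2 = a * (a - 1) := by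
  have h := Nat.choose_two_right a
  have h2 : 2 ∣ a * (a - 1) := (Nat.even_mul_pred_self a).two_dvd
  rw [h, Nat.mul_div_cancel' h2]

lemma X4_eq {k m : ℕ} (hk : 1 ≤ k) (hm : m ≤ 3 * k) (hm3 : 3 ≤ m) :
    (2 * X4 (3 * k + m) (k - 1) : ℤ) = 3 * k * (3 * k - 1) + m * (m + 1) := by
  obtain ⟨a, ha⟩ : ∃ a, 3 * k = a + m := ⟨3 * k - m, by omega⟩
  have h1 : 6 * (k - 1) + 6 - (3 * k + m) = a := by omega
  have h2 : 3 * (k - 1) + 3 = 3 * k := by omega
  have h3 : 3 * k + m - 3 * (k - 1) - 3 = m := by omega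
  have h4 := two_choose a
  unfold X4
  rw [h1, h2, h3]
  have h5 : (2 * (a.choose 2) : ℤ) = a * (a - 1) := by
    rcases Nat.eq_zero_or_pos a with h0 | h0
    · subst h0; simp
    · have := h4
      zify [h0] at this
      exact this
  have h6 : (3 * k : ℤ) = a + m := by exact_mod_cast ha
  push_cast
  rw [mul_add, h5, h6]
  ring

lemma X5_eq {k m : ℕ} (hk : 1 ≤ k) (hm3 : 3 ≤ m) :
    (2 * X5 (3 * k + m) (k - 1) : ℤ) = 3 * k * (3 * k - 1) + 12 * k + 2 * m - 4 := by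
  have h1 : 3 * (k - 1) + 5 = 3 * k + 2 := by omega
  have h2 : 3 * k + m - 3 * (k - 1) - 6 = m - 3 := by omega
  unfold X5
  rw [h1, h2]
  have h4 := two_choose (3 * k + 2)
  have h5 : 3 * k + 2 - 1 = 3 * k + 1 := by omega
  rw [h5] at h4
  have h6 : (2 * ((3 * k + 2).choose 2) : ℤ) = (3 * k + 2) * (3 * k + 1) := by exact_mod_cast h4
  push_cast [hm3]
  rw [mul_add, h6]
  ring

/-! rainbow triangles -/

lemma switch3 (hSw : tSwM) {c : Sym2 V → ℕ} {G : SimpleGraph V} (hR : Rep c univ G) {x y z : V}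
    (h1 : x ≠ y) (h2 : y ≠ z) (h3 : x ≠ z)
    (hc : ¬ (c s(x, y) = c s(y, z) ∨ c s(x, y) = c s(x, z) ∨ c s(y, z) = c s(x, z))) :
    ∃ G' : SimpleGraph V, Rep c univ G' ∧ Cl 3 G G' ∧ Tri G' x y z ∧
      (∀ u v, G'.Adj u v → G.Adj u v ∨ s(u, v) ∈ ({s(x, y), s(y, z), s(x, z)} : Finset (Sym2 V))) := by
  push Not at hc
  obtain ⟨c1, c2, c3⟩ := hc
  obtain ⟨G', r1, r2, r3, r4, r5⟩ := hSw V c G ({s(x, y), s(y, z), s(x, z)} : Finset (Sym2 V)) hR
    (by
      intro e he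
      simp only [mem_insert, mem_singleton] at he
      rcases he with rfl | rfl | rfl
      · simpa using h1
      · simpa using h2
      · simpa using h3)
    (by
      intro e he f hf hef
      simp only [mem_insert, mem_singleton] at he hf
      rcases he with rfl | rfl | rfl <;> rcases hf with rfl | rfl | rfl <;>
        first
        | rfl
        | exact absurd hef c1
        | exact absurd hef c2
        | exact absurd hef c3
        | exact absurd hef.symm c1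
        | exact absurd hef.symm c2
        | exact absurd hef.symm c3)
  refine ⟨G', r1, clmono r2 card_le_three, ⟨?_, ?_, ?_⟩, r5⟩
  · exact (SimpleGraph.mem_edgeSet G').1 (r3 s(x, y) (by simp))
  · exact (SimpleGraph.mem_edgeSet G').1 (r3 s(y, z) (by simp))
  · exact (SimpleGraph.mem_edgeSet G').1 (r3 s(x, z) (by simp))

lemma no_rbL (hSw : tSwM) (hC : tCover) {c : Sym2 V → ℕ} {G : SimpleGraph V} {k J : ℕ}
    {H L : Finset V} (X : Ctx c G k J H L) {x y z : V} (hx : x ∈ L) (hy : y ∈ L) (hz : z ∈ L)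
    (h1 : x ≠ y) (h2 : y ≠ z) (h3 : x ≠ z) :
    c s(x, y) = c s(y, z) ∨ c s(x, y) = c s(x, z) ∨ c s(y, z) = c s(x, z) := by
  by_contra hc
  obtain ⟨G', r1, r2, r3, -⟩ := switch3 hSw X.rep h1 h2 h3 hc
  exact cov1 hC X r1 (clmono r2 (by norm_num)) r3 hx hy hz

lemma e2L (hSw : tSwM) (hC : tCover) (hF : tForest) {c : Sym2 V → ℕ} {G G₁ : SimpleGraph V}
    {k J : ℕ} {H L : Finset V} (X : Ctx c G k J H L) (hR : Rep c univ G₁) (hL : L.Nonempty) :
    e2 G₁ L ≤ 2 * (L.card - 1) := by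
  classical
  let R : SimpleGraph V :=
    { Adj := fun u v => G₁.Adj u v ∧ u ∈ L ∧ v ∈ L
      symm := ⟨fun u v h => ⟨h.1.symm, h.2.2, h.2.1⟩⟩
      loopless := ⟨fun _ h => G₁.loopless.irrefl _ h.1⟩ }
  have h := hF V c L L R (Subset.refl _) hL (fun x y h => ⟨h.2.1, h.2.2, Or.inl h.2.1⟩)
    (fun x y x' y' h h' he => hR.inj x y x' y' h.1 h'.1 he)
    (fun x hx y hy z hz h1 h2 h3 => no_rbL hSw hC X hx hy hz h1 h2 h3)
  have e : e2 R L = e2 G₁ L := by
    unfold e2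
    refine sum_congr rfl fun v hv => ?_
    rw [dg_def, dg_def]
    congr 1
    ext u
    simp only [mem_filter]
    constructor
    · rintro ⟨h1, h2⟩; exact ⟨h1, h2.1⟩
    · rintro ⟨h1, h2⟩; exact ⟨h1, h2, hv, h1⟩
  rw [← e]
  exact h

open Classical in
/-- neighbours of `v` in `H` without `h₀` -/
noncomputable def Nb (G₁ : SimpleGraph V) (H : Finset V) (h₀ v : V) : Finset V :=
  (H.erase h₀).filter (fun u => G₁.Adj v u)

lemma mem_Nb {G₁ : SimpleGraph V} {H : Finset V} {h₀ v u : V} :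
    u ∈ Nb G₁ H h₀ v ↔ u ≠ h₀ ∧ u ∈ H ∧ G₁.Adj v u := by
  classical
  unfold Nb
  rw [mem_filter, mem_erase]
  tauto

lemma dg_le_Nb (G₁ : SimpleGraph V) (H : Finset V) (h₀ v : V) :
    dg G₁ H v ≤ (Nb G₁ H h₀ v).card + 1 := by
  classical
  rw [dg_def]
  have : H.filter (fun u => G₁.Adj v u) ⊆ insert h₀ (Nb G₁ H h₀ v) := by
    intro u hu
    rw [mem_filter] at hu
    rw [mem_insert, mem_Nb]
    by_cases h : u = h₀
    · exact Or.inl h
    · exact Or.inr ⟨h, hu.1, hu.2⟩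
  exact (card_le_card this).trans (card_insert_le _ _)

/-- second stage: a representing graph with the triangle `a b h₀` -/
structure Ctx2 (c : Sym2 V → ℕ) (G G₁ : SimpleGraph V) (k J : ℕ) (H L : Finset V) (a b h₀ : V) :
    Prop where
  X : Ctx c G k J H L
  rep : Rep c univ G₁
  cl : Cl 3 G G₁
  tri : Tri G₁ a b h₀
  ha : a ∈ L
  hb : b ∈ L
  hh : h₀ ∈ H
  dH : ∀ v, dg G₁ H v ≤ dg G H v + 3

lemma ind_Nb (hC : tCover) {c : Sym2 V → ℕ} {G G₁ : SimpleGraph V} {k J : ℕ}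
    {H L : Finset V} {a b h₀ v : V} (Z : Ctx2 c G G₁ k J H L a b h₀) (hv : v ∈ L) (hva : v ≠ a)
    (hvb : v ≠ b) : Ind G₁ (Nb G₁ H h₀ v) := by
  intro x hx y hy hxy
  rw [mem_Nb] at hx hy
  have hdis := Z.X.s4.dis
  have hHL : ∀ u ∈ H, ∀ w ∈ L, u ≠ w := fun u hu w hw h => disjoint_left.1 hdis hu (h ▸ hw)
  have ht : Tri G₁ v x y := ⟨hx.2.2, hxy, hy.2.2⟩
  refine cov2 hC Z.X Z.rep (clmono Z.cl (by norm_num)) Z.tri ht ?_ Z.ha Z.hb hv
  rw [disjoint_left]
  intro u hu hu'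
  simp only [mem_insert, mem_singleton] at hu hu'
  rcases hu with rfl | rfl | rfl <;> rcases hu' with h | h | h
  · exact hva h.symm
  · exact hHL x hx.2.1 _ Z.ha h.symm
  · exact hHL y hy.2.1 _ Z.ha h.symm
  · exact hvb h.symm
  · exact hHL x hx.2.1 _ Z.hb h.symm
  · exact hHL y hy.2.1 _ Z.hb h.symm
  · exact hHL _ Z.hh _ hv h
  · exact hx.1 h.symm
  · exact hy.1 h.symm

lemma exists_ctx2 (hSw : tSwM) (hC : tCover) {c : Sym2 V → ℕ} {G : SimpleGraph V} {k J : ℕ}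
    {H L : Finset V} (X : Ctx c G k J H L) {x y z : V} (hx : x ∈ L) (hy : y ∈ L)
    (h1 : x ≠ y) (h2 : y ≠ z) (h3 : x ≠ z)
    (hc : ¬ (c s(x, y) = c s(y, z) ∨ c s(x, y) = c s(x, z) ∨ c s(y, z) = c s(x, z))) :
    ∃ G₁, Ctx2 c G G₁ k J H L x y z := by
  classical
  obtain ⟨G₁, r1, r2, r3, r4⟩ := switch3 hSw X.rep h1 h2 h3 hc
  have hz : z ∉ L := fun hz => cov1 hC X r1 (clmono r2 (by norm_num)) r3 hx hy hz
  have hzH : z ∈ H := by
    have := mem_univ z
    rw [← X.s4.uni, mem_union] at this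
    tauto
  refine ⟨G₁, X, r1, r2, r3, hx, hy, hzH, fun v => ?_⟩
  rw [dg_def, dg_def]
  have hsub : H.filter (fun u => G₁.Adj v u) ⊆ H.filter (fun u => G.Adj v u) ∪
      H.filter (fun u => s(v, u) ∈ ({s(x, y), s(y, z), s(x, z)} : Finset (Sym2 V))) := by
    intro u hu
    rw [mem_filter] at hu
    rw [mem_union, mem_filter, mem_filter]
    rcases r4 v u hu.2 with h | h
    · exact Or.inl ⟨hu.1, h⟩
    · exact Or.inr ⟨hu.1, h⟩
  have h5 : (H.filter (fun u => s(v, u) ∈ ({s(x, y), s(y, z), s(x, z)} : Finset (Sym2 V)))).card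
      ≤ 3 := by
    refine (card_le_card_of_injOn (fun u => s(v, u)) (t := {s(x, y), s(y, z), s(x, z)}) ?_ ?_).trans
      card_le_three
    · intro u hu
      rw [mem_coe, mem_filter] at hu
      exact hu.2
    · intro u _ w _ huw
      exact Sym2.congr_right.1 huw
  calc _ ≤ _ := card_le_card hsub
    _ ≤ _ := card_union_le _ _
    _ ≤ _ := by omega

lemma good {c : Sym2 V → ℕ} {G₁ : SimpleGraph V} (hR : Rep c univ G₁) {H : Finset V} {h₀ v v' : V}
    (hcard : 20 ≤ (Nb G₁ H h₀ v ∩ Nb G₁ H h₀ v').card) (K : Finset ℕ) (hK : K.card ≤ 2)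
    (F : Finset V) (hF : F.card ≤ 10) :
    ∃ u ∈ Nb G₁ H h₀ v ∩ Nb G₁ H h₀ v', u ∉ F ∧ c s(v, u) ∉ K ∧ c s(v', u) ∉ K := by
  classical
  by_contra hcon
  push Not at hcon
  have hb : ∀ w : V, ((Nb G₁ H h₀ w).filter (fun u => c s(w, u) ∈ K)).card ≤ 2 := by
    intro w
    refine (card_le_card_of_injOn (fun u => c s(w, u)) (t := K) ?_ ?_).trans hK
    · intro u hu
      rw [mem_coe, mem_filter] at hu
      exact hu.2
    · intro u hu u' hu' huu
      rw [mem_coe, mem_filter, mem_Nb] at hu hu'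
      exact Sym2.congr_right.1 (hR.inj w u w u' hu.1.2.2 hu'.1.2.2 huu)
  have hsub : Nb G₁ H h₀ v ∩ Nb G₁ H h₀ v' ⊆ F ∪
      ((Nb G₁ H h₀ v).filter (fun u => c s(v, u) ∈ K) ∪
        (Nb G₁ H h₀ v').filter (fun u => c s(v', u) ∈ K)) := by
    intro u hu
    have h1 := hcon u hu
    rw [mem_inter] at hu
    rw [mem_union, mem_union, mem_filter, mem_filter]
    by_cases hF : u ∈ F
    · exact Or.inl hF
    · by_cases h2 : c s(v, u) ∈ K
      · exact Or.inr (Or.inl ⟨hu.1, h2⟩)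
      · exact Or.inr (Or.inr ⟨hu.2, h1 hF h2⟩)
  have h1 := card_le_card hsub
  have h2 := card_union_le F ((Nb G₁ H h₀ v).filter (fun u => c s(v, u) ∈ K) ∪
        (Nb G₁ H h₀ v').filter (fun u => c s(v', u) ∈ K))
  have h3 := card_union_le ((Nb G₁ H h₀ v).filter (fun u => c s(v, u) ∈ K))
        ((Nb G₁ H h₀ v').filter (fun u => c s(v', u) ∈ K))
  have h4 := hb v
  have h5 := hb v'
  omega

/-- the set of vertices with many neighbours -/
structure QP (G₁ : SimpleGraph V) (H L : Finset V) (h₀ : V) (Q : Finset V) : Prop where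
  sub : Q ⊆ L
  com : ∀ v ∈ Q, ∀ v' ∈ Q, v ≠ v' → 20 ≤ (Nb G₁ H h₀ v ∩ Nb G₁ H h₀ v').card
  crd : 10 ≤ Q.card

lemma same2 (hSw : tSwM) (hC : tCover) {c : Sym2 V → ℕ} {G G₁ : SimpleGraph V} {k J : ℕ}
    {H L : Finset V} {a b h₀ : V} (Z : Ctx2 c G G₁ k J H L a b h₀) {Q : Finset V}
    (hQ : QP G₁ H L h₀ Q) {v v' u u' : V} (hv : v ∈ Q) (hv' : v' ∈ Q) (hu : u ∈ Q) (hu' : u' ∈ Q)
    (h1 : v ≠ v') (h2 : u ≠ u') (d1 : v ≠ u) (d2 : v ≠ u') (d3 : v' ≠ u) (d4 : v' ≠ u') :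
    c s(v, v') = c s(u, u') := by
  by_contra hne
  obtain ⟨G₂, r1, r2, r3, r4, -⟩ := hSw V c G₁ ({s(v, v'), s(u, u')} : Finset (Sym2 V)) Z.rep
    (by
      intro e he
      simp only [mem_insert, mem_singleton] at he
      rcases he with rfl | rfl
      · simpa using h1
      · simpa using h2)
    (by
      intro e he f hf hef
      simp only [mem_insert, mem_singleton] at he hf
      rcases he with rfl | rfl <;> rcases hf with rfl | rfl <;>
        first
        | rfl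
        | exact absurd hef hne
        | exact absurd hef.symm hne)
  have hHL : ∀ x ∈ H, ∀ w ∈ L, x ≠ w := fun x hx w hw h =>
    disjoint_left.1 Z.X.s4.dis hx (h ▸ hw)
  obtain ⟨x, hx, -, hx1, hx2⟩ := good Z.rep (hQ.com v hv v' hv' h1) {c s(v, v'), c s(u, u')}
    card_le_two ∅ (by simp)
  obtain ⟨y, hy, hyF, hy1, hy2⟩ := good Z.rep (hQ.com u hu u' hu' h2) {c s(v, v'), c s(u, u')}
    card_le_two {x} (by simp)
  rw [mem_inter, mem_Nb, mem_Nb] at hx hy
  have key : ∀ w z : V, G₁.Adj w z → c s(w, z) ∉ ({c s(v, v'), c s(u, u')} : Finset ℕ) →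
      G₂.Adj w z := by
    intro w z hwz hc
    refine r4 w z hwz ?_
    intro e he heq
    simp only [mem_insert, mem_singleton] at he
    apply hc
    rw [← heq]
    rcases he with rfl | rfl <;> simp
  have t1 : Tri G₂ v v' x := ⟨(SimpleGraph.mem_edgeSet G₂).1 (r3 s(v, v') (by simp)),
    key _ _ hx.2.2.2 hx2, key _ _ hx.1.2.2 hx1⟩
  have t2 : Tri G₂ u u' y := ⟨(SimpleGraph.mem_edgeSet G₂).1 (r3 s(u, u') (by simp)),
    key _ _ hy.2.2.2 hy2, key _ _ hy.1.2.2 hy1⟩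
  have hcl : Cl 50 G G₂ := clmono (cltrans Z.cl r2) (by
    have : ({s(v, v'), s(u, u')} : Finset (Sym2 V)).card ≤ 2 := card_le_two
    omega)
  refine cov2 hC Z.X r1 hcl t1 t2 ?_ (hQ.sub hv) (hQ.sub hv') (hQ.sub hu)
  rw [disjoint_left]
  intro w hw hw'
  simp only [mem_insert, mem_singleton] at hw hw'
  rcases hw with rfl | rfl | rfl <;> rcases hw' with h | h | h
  · exact d1 h
  · exact d2 h
  · exact hHL _ hy.1.2.1 _ (hQ.sub hv) h.symm
  · exact d3 h
  · exact d4 h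
  · exact hHL _ hy.1.2.1 _ (hQ.sub hv') h.symm
  · exact hHL _ hx.1.2.1 _ (hQ.sub hu) h
  · exact hHL _ hx.1.2.1 _ (hQ.sub hu') h
  · exact hyF (by rw [h]; simp)

lemma same (hSw : tSwM) (hC : tCover) {c : Sym2 V → ℕ} {G G₁ : SimpleGraph V} {k J : ℕ}
    {H L : Finset V} {a b h₀ : V} (Z : Ctx2 c G G₁ k J H L a b h₀) {Q : Finset V}
    (hQ : QP G₁ H L h₀ Q) {v v' u u' : V} (hv : v ∈ Q) (hv' : v' ∈ Q) (hu : u ∈ Q) (hu' : u' ∈ Q)
    (h1 : v ≠ v') (h2 : u ≠ u') : c s(v, v') = c s(u, u') := by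
  have hcard : 1 < (Q \ {v, v', u, u'}).card := by
    have h3 := le_card_sdiff ({v, v', u, u'} : Finset V) Q
    have h4 : ({v, v', u, u'} : Finset V).card ≤ 4 := card_le_four
    have := hQ.crd
    omega
  obtain ⟨r, hr, r', hr', hrr⟩ := one_lt_card.1 hcard
  simp only [mem_sdiff, mem_insert, mem_singleton, not_or] at hr hr'
  rw [same2 hSw hC Z hQ hv hv' hr.1 hr'.1 h1 hrr (Ne.symm hr.2.1) (Ne.symm hr'.2.1)
    (Ne.symm hr.2.2.1) (Ne.symm hr'.2.2.1)]
  exact same2 hSw hC Z hQ hr.1 hr'.1 hu hu' hrr h2 hr.2.2.2.1 hr.2.2.2.2 hr'.2.2.2.1 hr'.2.2.2.2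

/-- the graph without the edge of colour `c₀` -/
def Gs (c : Sym2 V → ℕ) (G₁ : SimpleGraph V) (c₀ : ℕ) : SimpleGraph V where
  Adj u v := G₁.Adj u v ∧ c s(u, v) ≠ c₀
  symm := ⟨fun u v h => ⟨h.1.symm, by rw [Sym2.eq_swap]; exact h.2⟩⟩
  loopless := ⟨fun _ h => G₁.loopless.irrefl _ h.1⟩

lemma noTri (hSw : tSwM) (hC : tCover) {c : Sym2 V → ℕ} {G G₁ : SimpleGraph V} {k J : ℕ}
    {H L : Finset V} {a b h₀ : V} (Z : Ctx2 c G G₁ k J H L a b h₀) {Q : Finset V}
    (hQ : QP G₁ H L h₀ Q) {p p' : V} (hp : p ∈ Q) (hp' : p' ∈ Q) (hpp : p ≠ p') {v : V}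
    (hv : v ∈ L) : NoTri (Gs c G₁ (c s(p, p'))) univ v := by
  intro x _ y _ ht
  have hcard : 1 < (Q \ {v, x, y}).card := by
    have h3 := le_card_sdiff ({v, x, y} : Finset V) Q
    have h4 : ({v, x, y} : Finset V).card ≤ 3 := card_le_three
    have := hQ.crd
    omega
  obtain ⟨r, hr, r', hr', hrr⟩ := one_lt_card.1 hcard
  simp only [mem_sdiff, mem_insert, mem_singleton, not_or] at hr hr'
  have hcol : c s(r, r') = c s(p, p') := same hSw hC Z hQ hr.1 hr'.1 hp hp' hrr hpp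
  obtain ⟨G₂, r1, r2, r3, r4, -⟩ := hSw V c G₁ ({s(r, r')} : Finset (Sym2 V)) Z.rep
    (by
      intro e he
      simp only [mem_singleton] at he
      subst he
      simpa using hrr)
    (by
      intro e he f hf _
      simp only [mem_singleton] at he hf
      rw [he, hf])
  obtain ⟨w, hw, hwF, hw1, hw2⟩ := good Z.rep (hQ.com r hr.1 r' hr'.1 hrr) {c s(p, p')}
    (by simp) {v, x, y} (card_le_three.trans (by norm_num))
  rw [mem_inter, mem_Nb, mem_Nb] at hw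
  have key : ∀ s z : V, G₁.Adj s z → c s(s, z) ≠ c s(p, p') → G₂.Adj s z := by
    intro s z hsz hc
    refine r4 s z hsz ?_
    intro e he heq
    simp only [mem_singleton] at he
    subst he
    exact hc (by rw [← heq, hcol])
  have t1 : Tri G₂ v x y := ⟨key _ _ ht.1.1 ht.1.2, key _ _ ht.2.1.1 ht.2.1.2,
    key _ _ ht.2.2.1 ht.2.2.2⟩
  have t2 : Tri G₂ r r' w := ⟨(SimpleGraph.mem_edgeSet G₂).1 (r3 s(r, r') (by simp)),
    key _ _ hw.2.2.2 (by simpa using hw2), key _ _ hw.1.2.2 (by simpa using hw1)⟩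
  have hcl : Cl 50 G G₂ := clmono (cltrans Z.cl r2) (by simp)
  refine cov2 hC Z.X r1 hcl t2 t1 ?_ (hQ.sub hr.1) (hQ.sub hr'.1) hv
  rw [disjoint_left]
  intro s hs hs'
  simp only [mem_insert, mem_singleton] at hs hs' hwF
  rcases hs with rfl | rfl | rfl
  · rcases hs' with h | h | h
    · exact hr.2.1 h
    · exact hr.2.2.1 h
    · exact hr.2.2.2 h
  · rcases hs' with h | h | h
    · exact hr'.2.1 h
    · exact hr'.2.2.1 h
    · exact hr'.2.2.2 h
  · exact hwF hs'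

lemma e2_Gs {c : Sym2 V → ℕ} {G₁ : SimpleGraph V} (hR : Rep c univ G₁) (c₀ : ℕ) :
    e2 G₁ univ ≤ e2 (Gs c G₁ c₀) univ + 2 := by
  classical
  rw [e2_eq_card, e2_eq_card]
  have hsub : ((univ : Finset V) ×ˢ univ).filter (fun p => G₁.Adj p.1 p.2) ⊆
      ((univ : Finset V) ×ˢ univ).filter (fun p => (Gs c G₁ c₀).Adj p.1 p.2) ∪
      ((univ : Finset V) ×ˢ univ).filter (fun p => G₁.Adj p.1 p.2 ∧ c s(p.1, p.2) = c₀) := by
    intro p hp
    rw [mem_filter] at hp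
    rw [mem_union, mem_filter, mem_filter]
    by_cases h : c s(p.1, p.2) = c₀
    · exact Or.inr ⟨hp.1, hp.2, h⟩
    · exact Or.inl ⟨hp.1, hp.2, h⟩
  have h2 : (((univ : Finset V) ×ˢ univ).filter
      (fun p => G₁.Adj p.1 p.2 ∧ c s(p.1, p.2) = c₀)).card ≤ 2 := by
    rcases (((univ : Finset V) ×ˢ univ).filter
      (fun p => G₁.Adj p.1 p.2 ∧ c s(p.1, p.2) = c₀)).eq_empty_or_nonempty with h | ⟨q, hq⟩
    · rw [h]; simp
    · rw [mem_filter] at hq
      have : ((univ : Finset V) ×ˢ univ).filter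
          (fun p => G₁.Adj p.1 p.2 ∧ c s(p.1, p.2) = c₀) ⊆ {(q.1, q.2), (q.2, q.1)} := by
        intro p hp
        rw [mem_filter] at hp
        have h1 := hR.inj p.1 p.2 q.1 q.2 hp.2.1 hq.2.1 (hp.2.2.trans hq.2.2.symm)
        rw [Sym2.eq_iff] at h1
        rw [mem_insert, mem_singleton]
        rcases h1 with h1 | h1
        · exact Or.inl (Prod.ext h1.1 h1.2)
        · exact Or.inr (Prod.ext h1.1 h1.2)
      exact (card_le_card this).trans card_le_two
  have h3 := (card_le_card hsub).trans (card_union_le _ _)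
  omega

lemma sq_aux (a d : ℕ) (h : d ≤ a + 1) : (d : ℝ) ^ 2 - 3 * d ≤ ((a * (a - 1) : ℕ) : ℝ) := by
  rcases a with _ | a
  · have hd : d = 0 ∨ d = 1 := by omega
    rcases hd with rfl | rfl <;> norm_num
  · rcases d with _ | _ | e
    · simp; positivity
    · simp
      have : (0 : ℝ) ≤ (a + 1) * a := by positivity
      linarith
    · have he : (e : ℝ) ≤ a := by exact_mod_cast (by omega : e ≤ a)
      have h0 : (0 : ℝ) ≤ e := by positivity
      simp only [Nat.add_sub_cancel]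
      push_cast
      nlinarith

lemma numbers {n m k d E EL Lo2 Nc : ℝ} (h0 : n = 3 * k + m) (hk : 0.305 * n ≤ k)
    (hn : 10 ^ 10 ≤ n) (hm : 3 ≤ m) (hd : 0 ≤ d)
    (h1 : 2 * Nc = 3 * k * (3 * k - 1) - Lo2 + 2 * E + EL) (h2 : EL ≤ 2 * (m - 1))
    (h3 : d ^ 2 - 3 * d ≤ Lo2) (h4 : E ≤ 2 * (m + n / 500 + 3) + (m - 2) * d)
    (h5 : 3 * k * (3 * k - 1) + 12 * k + 2 * m ≤ 2 * Nc)
    (h6 : 3 * k * (3 * k - 1) + m * (m + 1) + 4 ≤ 2 * Nc) :
    3.3 * n ≤ m ^ 2 ∧ 150000 ≤ m ∧ d ≤ 1.05 * m ∧ Lo2 ≤ 1.1025 * m ^ 2 ∧ 0.945 * m ^ 2 ≤ E := by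
  have a1 : m ≤ 0.085 * n := by linarith
  have a2 : 3.3 * n ≤ m ^ 2 := by
    have := sq_nonneg (d - (m - 1 / 2))
    linarith
  have a3 : 150000 ≤ m := by
    by_contra hcon
    push Not at hcon
    nlinarith
  have am : 150000 * m ≤ m ^ 2 := by
    have := mul_le_mul_of_nonneg_right a3 (by linarith : (0 : ℝ) ≤ m)
    linarith
  have a4 : 5 * m + n / 125 + 6 ≤ 0.0025 * m ^ 2 := by linarith
  have a5 : (m - d) ^ 2 ≤ 0.0025 * m ^ 2 := by linarith
  have a6 : d ≤ 1.05 * m := by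
    by_contra hcon
    push Not at hcon
    have := sq_lt_sq' (a := 0.05 * m) (b := d - m) (by linarith) (by linarith)
    linarith
  have a7 : 0.95 * m ≤ d := by
    by_contra hcon
    push Not at hcon
    have := sq_lt_sq' (a := 0.05 * m) (b := m - d) (by linarith) (by linarith)
    linarith
  have a8 : Lo2 ≤ 1.1025 * m ^ 2 := by
    have := mul_nonneg (by linarith : (0 : ℝ) ≤ m) (by linarith : (0 : ℝ) ≤ 1.05 * m - d)
    linarith
  have a9 : (0.95 * m) ^ 2 - 3 * (0.95 * m) ≤ d ^ 2 - 3 * d := by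
    have := mul_nonneg (by linarith : (0 : ℝ) ≤ d - 0.95 * m)
      (by linarith : (0 : ℝ) ≤ d + 0.95 * m - 3)
    linarith
  exact ⟨a2, a3, a6, a8, by linarith⟩

end J24b

open J24b in
theorem pD4b (hRE : tRepE) (hSw : tSwM) (hF : tForest) (hC : tCover) (hLE : tLemE)
    (hA : tD4a) : tD4b := by
  intro J
  obtain ⟨N0, hN0⟩ := hA J
  refine ⟨max N0 (10 ^ 10), ?_⟩
  intro V _ _ c G k H L hN hk hk3 hR hno hS hH
  classical
  by_contra hcon
  push Not at hcon
  have hcard : Fintype.card V = 3 * k + L.card := by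
    rw [← card_univ, ← hS.uni, card_union_of_disjoint hS.dis, hH]
  have hm3 : 3 ≤ L.card := by omega
  have hNr : (10 : ℝ) ^ 10 ≤ (Fintype.card V : ℝ) := by
    have : 10 ^ 10 ≤ Fintype.card V := (le_max_right _ _).trans hN
    exact_mod_cast this
  have hcardr : (Fintype.card V : ℝ) = 3 * k + L.card := by exact_mod_cast hcard
  have hk1 : 1 ≤ k := by
    rcases Nat.eq_zero_or_pos k with h | h
    · subst h
      norm_num at hk
      linarith
    · exact h
  have hm3k : L.card ≤ 3 * k := by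
    have : (L.card : ℝ) ≤ 3 * k := by linarith
    exact_mod_cast this
  obtain ⟨-, -, h3⟩ := hN0 V c G k H L ((le_max_left _ _).trans hN) hk1 hk3 hR hno hS
  have hX4 := X4_eq hk1 hm3k hm3
  have hX5 := X5_eq hk1 hm3
  rw [← hcard] at hX4 hX5
  set n := Fintype.card V with hn
  have hc4 : X4 n (k - 1) + 2 ≤ (cols c univ).card := by
    have := le_max_left (X4 n (k - 1)) (X5 n (k - 1))
    omega
  have hc5 : X5 n (k - 1) + 2 ≤ (cols c univ).card := by
    have := le_max_right (X4 n (k - 1)) (X5 n (k - 1))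
    omega
  have hX : Ctx c G k J H L := ⟨hR, hno, hS, hH⟩
  have hrb : ¬ ∀ x ∈ L, ∀ y ∈ L, ∀ z, x ≠ y → y ≠ z → x ≠ z →
      c s(x, y) = c s(y, z) ∨ c s(x, y) = c s(x, z) ∨ c s(y, z) = c s(x, z) := by
    intro h
    have := h3 h
    omega
  push Not at hrb
  obtain ⟨a, ha, b, hb, h₀, hab, hbh, hah, hcol⟩ := hrb
  obtain ⟨G₁, Z⟩ := exists_ctx2 hSw hC hX ha hb hab hbh hah (by push Not; exact hcol)
  -- the numbers
  have e1 : e2 G₁ univ = 2 * (cols c univ).card := (hRE V c univ G₁ Z.rep).1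
  have e2u : e2 G₁ univ = e2 G₁ H + 2 * eb G₁ H L + e2 G₁ L := by
    rw [← hS.uni, e2_union G₁ hS.dis]
  have eEL := e2L hSw hC hF hX Z.rep ⟨a, ha⟩
  have hbL : b ∈ L.erase a := mem_erase.2 ⟨hab.symm, hb⟩
  have hL'c : ((L.erase a).erase b).card + 2 = L.card := by
    have h1 := card_erase_add_one ha
    have h2 := card_erase_add_one hbL
    omega
  set L' := (L.erase a).erase b with hL'
  have hL'ne : L'.Nonempty := card_pos.1 (by omega)
  obtain ⟨v₀, hv₀, hmax⟩ := exists_max_image L' (fun v => dg G₁ H v) hL'ne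
  have hmemL' : ∀ v ∈ L', v ∈ L ∧ v ≠ a ∧ v ≠ b := by
    intro v hv
    rw [hL', mem_erase, mem_erase] at hv
    exact ⟨hv.2.2, hv.2.1, hv.1⟩
  have hdeg : ∀ v ∈ L, (dg G₁ H v : ℝ) ≤ L.card + n / 500 + 3 := by
    intro v hv
    have h1 := hS.deg v hv
    have h2 : (dg G₁ H v : ℝ) ≤ dg G H v + 3 := by exact_mod_cast Z.dH v
    rw [← hn] at h1
    linarith
  have hE : eb G₁ H L = dg G₁ H a + (dg G₁ H b + ∑ v ∈ L', dg G₁ H v) := by
    rw [eb_comm]
    unfold eb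
    rw [← add_sum_erase L _ ha, ← add_sum_erase (L.erase a) _ hbL]
  have hEr : (eb G₁ H L : ℝ) = dg G₁ H a + (dg G₁ H b + ∑ v ∈ L', (dg G₁ H v : ℝ)) := by
    rw [hE]; push_cast; ring
  have hsum1 : ∑ v ∈ L', (dg G₁ H v : ℝ) ≤ (L.card - 2) * dg G₁ H v₀ := by
    calc ∑ v ∈ L', (dg G₁ H v : ℝ) ≤ ∑ _v ∈ L', (dg G₁ H v₀ : ℝ) :=
          sum_le_sum fun v hv => by exact_mod_cast hmax v hv
      _ = (L.card - 2) * dg G₁ H v₀ := by
          rw [sum_const, nsmul_eq_mul]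
          have : (L'.card : ℝ) = L.card - 2 := by
            have : (L'.card : ℝ) + 2 = L.card := by exact_mod_cast hL'c
            linarith
          rw [this]
  have hHc : ((H.card * (H.card - 1) : ℕ) : ℝ) = 3 * k * (3 * k - 1) := by
    rw [hH]
    have : 1 ≤ 3 * k := by omega
    push_cast [this]
    ring
  set Lo2 : ℝ := 3 * k * (3 * k - 1) - e2 G₁ H with hLo2
  have hsq : ∀ v ∈ L', (dg G₁ H v : ℝ) ^ 2 - 3 * dg G₁ H v ≤ Lo2 := by
    intro v hv
    obtain ⟨h1, h2, h3⟩ := hmemL' v hv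
    have hI := ind_Nb hC Z h1 h2 h3
    have hsub : Nb G₁ H h₀ v ⊆ H := fun u hu => (mem_Nb.1 hu).2.1
    have h4 := ind_count G₁ H _ _ hsub hsub hI hI
    rw [inter_self] at h4
    have h5 : e2 G₁ H + (Nb G₁ H h₀ v).card * ((Nb G₁ H h₀ v).card - 1) ≤
        H.card * (H.card - 1) := by omega
    have h6 : (e2 G₁ H : ℝ) + ((((Nb G₁ H h₀ v).card * ((Nb G₁ H h₀ v).card - 1) : ℕ)) : ℝ) ≤
        ((H.card * (H.card - 1) : ℕ) : ℝ) := by exact_mod_cast h5
    have h7 := sq_aux _ _ (dg_le_Nb G₁ H h₀ v)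
    rw [hHc] at h6
    linarith
  have hN2 : (2 * (cols c univ).card : ℝ) = 3 * k * (3 * k - 1) - Lo2 + 2 * (eb G₁ H L : ℝ) +
      e2 G₁ L := by
    have : (2 * (cols c univ).card : ℝ) = e2 G₁ univ := by rw [e1]; push_cast; ring
    rw [this, e2u, hLo2]
    push_cast
    ring
  have hELr : (e2 G₁ L : ℝ) ≤ 2 * (L.card - 1) := by
    have h1 : e2 G₁ L + 2 ≤ 2 * L.card := by omega
    have h2 : (e2 G₁ L : ℝ) + 2 ≤ 2 * L.card := by exact_mod_cast h1
    linarith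
  have hX4r : (2 * X4 n (k - 1) : ℝ) = 3 * k * (3 * k - 1) + L.card * (L.card + 1) := by
    exact_mod_cast hX4
  have hX5r : (2 * X5 n (k - 1) : ℝ) = 3 * k * (3 * k - 1) + 12 * k + 2 * L.card - 4 := by
    exact_mod_cast hX5
  have hc4r : (X4 n (k - 1) : ℝ) + 2 ≤ (cols c univ).card := by exact_mod_cast hc4
  have hc5r : (X5 n (k - 1) : ℝ) + 2 ≤ (cols c univ).card := by exact_mod_cast hc5
  obtain ⟨b1, b2, b3, b4, b5⟩ := numbers (n := n) (m := L.card) (k := k) (d := dg G₁ H v₀)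
    (E := eb G₁ H L) (EL := e2 G₁ L) (Lo2 := Lo2) (Nc := (cols c univ).card) hcardr hk hNr
    (by exact_mod_cast hm3) (by positivity) hN2 hELr (hsq v₀ hv₀)
    (by
      rw [hEr]
      have h1 := hdeg a ha
      have h2 := hdeg b hb
      linarith)
    (by linarith) (by linarith)
  have hm2 : 150000 * (L.card : ℝ) ≤ (L.card : ℝ) ^ 2 := by
    have := mul_le_mul_of_nonneg_right b2 (by positivity : (0 : ℝ) ≤ (L.card : ℝ))
    linarith
  -- the vertices of large degree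
  set Q := L'.filter (fun v => 0.8 * (L.card : ℝ) ≤ dg G₁ H v) with hQ
  have hQc : 10 ≤ Q.card := by
    by_contra hlt
    push Not at hlt
    have hlt' : (Q.card : ℝ) ≤ 9 := by exact_mod_cast (by omega : Q.card ≤ 9)
    have h1 : ∑ v ∈ L', (dg G₁ H v : ℝ) ≤ 9 * (1.05 * L.card) + L.card * (0.8 * L.card) := by
      rw [← sum_filter_add_sum_filter_not L' (fun v => 0.8 * (L.card : ℝ) ≤ dg G₁ H v)]
      have h2 : ∑ v ∈ Q, (dg G₁ H v : ℝ) ≤ 9 * (1.05 * L.card) := by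
        calc ∑ v ∈ Q, (dg G₁ H v : ℝ) ≤ ∑ _v ∈ Q, (1.05 * L.card : ℝ) := by
              refine sum_le_sum fun v hv => ?_
              have : (dg G₁ H v : ℝ) ≤ dg G₁ H v₀ := by
                exact_mod_cast hmax v (mem_filter.1 hv).1
              linarith
          _ = Q.card * (1.05 * L.card) := by rw [sum_const, nsmul_eq_mul]
          _ ≤ 9 * (1.05 * L.card) := by
              apply mul_le_mul_of_nonneg_right hlt'
              positivity
      have h3 : ∑ v ∈ L'.filter (fun v => ¬ 0.8 * (L.card : ℝ) ≤ dg G₁ H v), (dg G₁ H v : ℝ) ≤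
          L.card * (0.8 * L.card) := by
        calc _ ≤ ∑ _v ∈ L'.filter (fun v => ¬ 0.8 * (L.card : ℝ) ≤ dg G₁ H v),
                (0.8 * L.card : ℝ) := by
              refine sum_le_sum fun v hv => ?_
              have := (mem_filter.1 hv).2
              push Not at this
              exact this.le
          _ = ((L'.filter (fun v => ¬ 0.8 * (L.card : ℝ) ≤ dg G₁ H v)).card : ℝ) *
                (0.8 * L.card) := by rw [sum_const, nsmul_eq_mul]
          _ ≤ L.card * (0.8 * L.card) := by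
              apply mul_le_mul_of_nonneg_right _ (by positivity)
              have h4 : (L'.filter (fun v => ¬ 0.8 * (L.card : ℝ) ≤ dg G₁ H v)).card ≤ L'.card :=
                card_filter_le _ _
              have h5 : (L'.filter (fun v => ¬ 0.8 * (L.card : ℝ) ≤ dg G₁ H v)).card ≤ L.card := by
                omega
              exact_mod_cast h5
      exact add_le_add h2 h3
    have h2 := hdeg a ha
    have h3 := hdeg b hb
    rw [hEr] at b5
    clear hdeg hmax hsq hmemL' hN0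
    linarith
  have hQP : QP G₁ H L h₀ Q := by
    refine ⟨fun v hv => (hmemL' v (mem_filter.1 hv).1).1, ?_, hQc⟩
    intro v hv v' hv' hne
    by_contra hlt
    push Not at hlt
    rw [hQ, mem_filter] at hv hv'
    obtain ⟨h1, h2, h3⟩ := hmemL' v hv.1
    obtain ⟨h1', h2', h3'⟩ := hmemL' v' hv'.1
    have hI := ind_Nb hC Z h1 h2 h3
    have hI' := ind_Nb hC Z h1' h2' h3'
    have hsub : Nb G₁ H h₀ v ⊆ H := fun u hu => (mem_Nb.1 hu).2.1
    have hsub' : Nb G₁ H h₀ v' ⊆ H := fun u hu => (mem_Nb.1 hu).2.1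
    have h4 := ind_count G₁ H _ _ hsub hsub' hI hI'
    have h7 := sq_aux _ _ (dg_le_Nb G₁ H h₀ v)
    have h8 := sq_aux _ _ (dg_le_Nb G₁ H h₀ v')
    set x := (Nb G₁ H h₀ v ∩ Nb G₁ H h₀ v').card with hx
    have h9 : x * (x - 1) ≤ 400 := by
      calc x * (x - 1) ≤ 20 * 20 := Nat.mul_le_mul (by omega) (by omega)
        _ = 400 := by norm_num
    have h10 : (e2 G₁ H : ℝ) + ((((Nb G₁ H h₀ v).card * ((Nb G₁ H h₀ v).card - 1) : ℕ)) : ℝ) +
        ((((Nb G₁ H h₀ v').card * ((Nb G₁ H h₀ v').card - 1) : ℕ)) : ℝ) ≤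
        ((H.card * (H.card - 1) : ℕ) : ℝ) + 400 := by
      have : e2 G₁ H + (Nb G₁ H h₀ v).card * ((Nb G₁ H h₀ v).card - 1) +
        (Nb G₁ H h₀ v').card * ((Nb G₁ H h₀ v').card - 1) ≤ H.card * (H.card - 1) + 400 := by
        omega
      exact_mod_cast this
    rw [hHc] at h10
    have h11 : (0.8 * (L.card : ℝ)) ^ 2 - 3 * (0.8 * L.card) ≤
        (dg G₁ H v : ℝ) ^ 2 - 3 * dg G₁ H v := by
      have := mul_nonneg (by linarith [hv.2] : (0 : ℝ) ≤ dg G₁ H v - 0.8 * L.card)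
        (by linarith [hv.2] : (0 : ℝ) ≤ dg G₁ H v + 0.8 * L.card - 3)
      linarith
    have h12 : (0.8 * (L.card : ℝ)) ^ 2 - 3 * (0.8 * L.card) ≤
        (dg G₁ H v' : ℝ) ^ 2 - 3 * dg G₁ H v' := by
      have := mul_nonneg (by linarith [hv'.2] : (0 : ℝ) ≤ dg G₁ H v' - 0.8 * L.card)
        (by linarith [hv'.2] : (0 : ℝ) ≤ dg G₁ H v' + 0.8 * L.card - 3)
      linarith
    linarith
  -- conclusion
  obtain ⟨p, hp, p', hp', hpp⟩ := one_lt_card.1 (show 1 < Q.card by omega)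
  have hno := fun v hv => noTri hSw hC Z hQP hp hp' hpp (v := v) hv
  have h1 := hLE V (Gs c G₁ (c s(p, p'))) univ L (subset_univ _) hno
  have h2 : (univ : Finset V) \ L = H := by
    rw [← hS.uni, union_sdiff_right]
    exact sdiff_eq_self_of_disjoint hS.dis
  rw [h2] at h1
  have h3 := e2_Gs Z.rep (c s(p, p'))
  have h4 : (e2 G₁ univ : ℝ) ≤ ((H.card * (H.card - 1) : ℕ) : ℝ) + L.card * (L.card + 1) + 2 := by
    exact_mod_cast h3.trans (Nat.add_le_add_right h1 2)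
  rw [hHc, e1] at h4
  push_cast at h4
  linarith

end Pool.Agent.ART
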