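import Pool.Agent.ART.Basic
import Pool.Agent.ART.Targets

set_option autoImplicit false

/-! Anti-Ramsey numbers of vertex-disjoint triangles (MP_e56f3d_co): job J24c (`|H| < 3k`). -/

namespace Pool.Agent.ART

open Finset

/-- maximal family of disjoint triangles meeting `L` -/
lemma J24c_family {V : Type} [Fintype V] [DecidableEq V] (G : SimpleGraph V) (L : Finset V)
    (b : ℕ) (hb : ∀ T, TF G univ T → (∀ t ∈ T, (t ∩ L).Nonempty) → T.card ≤ b + 1 →
      (vT T ∩ L).card ≤ b) :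
    ∃ T, TF G univ T ∧ (vT T ∩ L).card ≤ b ∧ T.card ≤ (vT T ∩ L).card ∧
      ∀ v ∈ L \ vT T, NoTri G (univ \ vT T) v := by
  classical
  have hcard : ∀ T, TF G univ T → (∀ t ∈ T, (t ∩ L).Nonempty) →
      T.card ≤ (vT T ∩ L).card := by
    intro T hT hmeet
    have e : vT T ∩ L = T.biUnion (fun t => t ∩ L) := by
      ext v
      simp only [Finset.mem_inter, mem_vT, Finset.mem_biUnion]
      constructor
      · rintro ⟨⟨t, ht, hv⟩, hL⟩
        exact ⟨t, ht, hv, hL⟩
      · rintro ⟨t, ht, hv, hL⟩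
        exact ⟨⟨t, ht, hv⟩, hL⟩
    rw [e, Finset.card_biUnion]
    · calc T.card = ∑ _t ∈ T, 1 := by simp
        _ ≤ ∑ t ∈ T, (t ∩ L).card := Finset.sum_le_sum fun t ht =>
          Finset.card_pos.2 (hmeet t ht)
    · intro t ht t' ht' hne
      exact (hT.dis t ht t' ht' hne).mono Finset.inter_subset_left Finset.inter_subset_left
  set 𝒯 : Finset (Finset (Finset V)) := univ.filter
    (fun T => TF G univ T ∧ (∀ t ∈ T, (t ∩ L).Nonempty) ∧ T.card ≤ b + 1) with h𝒯
  have hne : 𝒯.Nonempty := ⟨∅, by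
    rw [h𝒯, Finset.mem_filter]
    exact ⟨Finset.mem_univ _, ⟨by simp, by simp, by simp⟩, by simp, by simp⟩⟩
  obtain ⟨T, hT, hmax⟩ := Finset.exists_max_image 𝒯 (fun T => T.card) hne
  rw [h𝒯, Finset.mem_filter] at hT
  obtain ⟨_, hTF, hmeet, hTc⟩ := hT
  have hp := hb T hTF hmeet hTc
  have hTp := hcard T hTF hmeet
  refine ⟨T, hTF, hp, hTp, ?_⟩
  intro v hv x hx y hy htri
  rw [Finset.mem_sdiff] at hv hx hy
  obtain ⟨h1, h2⟩ := hTF.insert htri (Finset.subset_univ _) (by
    rw [Finset.disjoint_left]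
    intro w hw
    simp only [Finset.mem_insert, Finset.mem_singleton] at hw
    rcases hw with rfl | rfl | rfl
    · exact hv.2
    · exact hx.2
    · exact hy.2)
  have h3 : insert {v, x, y} T ∈ 𝒯 := by
    rw [h𝒯, Finset.mem_filter]
    refine ⟨Finset.mem_univ _, h1, ?_, by omega⟩
    intro t ht
    rw [Finset.mem_insert] at ht
    rcases ht with rfl | ht
    · exact ⟨v, by simp [hv.1]⟩
    · exact hmeet t ht
  have := hmax _ h3
  omega

/-- counting edges -/
lemma J24c_count {V : Type} [Fintype V] [DecidableEq V] (G : SimpleGraph V) (H L : Finset V)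
    (hd : Disjoint H L) (hu : H ∪ L = univ) (T : Finset (Finset V)) (β : ℝ)
    (hdeg : ∀ v ∈ L, (dg G H v : ℝ) ≤ β)
    (hE : e2 G (univ \ vT T) ≤ (H \ vT T).card * ((H \ vT T).card - 1) +
      (L \ vT T).card * ((L \ vT T).card + 1)) :
    (e2 G univ : ℝ) ≤ (H.card : ℝ) * (H.card - 1) +
      ((L \ vT T).card : ℝ) * ((L \ vT T).card + 1) +
      2 * ((H ∩ vT T).card : ℝ) * ((L \ vT T).card : ℝ) +
      2 * ((L ∩ vT T).card : ℝ) * β + 2 * ((L ∩ vT T).card : ℝ) * ((L \ vT T).card : ℝ) +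
      ((L ∩ vT T).card : ℝ) ^ 2 := by
  set H' := H \ vT T with hH'
  set L' := L \ vT T with hL'
  set Q := H ∩ vT T with hQ
  set P := L ∩ vT T with hP
  have hHe : H = H' ∪ Q := by rw [hH', hQ, Finset.sdiff_union_inter]
  have hLe : L = L' ∪ P := by rw [hL', hP, Finset.sdiff_union_inter]
  have hdHQ : Disjoint H' Q := by
    rw [Finset.disjoint_left]
    intro v h1 h2
    rw [hH', Finset.mem_sdiff] at h1
    rw [hQ, Finset.mem_inter] at h2
    exact h1.2 h2.2
  have hdLP : Disjoint L' P := by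
    rw [Finset.disjoint_left]
    intro v h1 h2
    rw [hL', Finset.mem_sdiff] at h1
    rw [hP, Finset.mem_inter] at h2
    exact h1.2 h2.2
  have hdHL : Disjoint H' L' := hd.mono Finset.sdiff_subset Finset.sdiff_subset
  have hU : univ \ vT T = H' ∪ L' := by
    rw [hH', hL', ← Finset.union_sdiff_distrib, hu]
  have hHc : H.card = H'.card + Q.card := by
    conv_lhs => rw [hHe]
    exact Finset.card_union_of_disjoint hdHQ
  -- decompositions
  have d0 : e2 G univ = e2 G H + 2 * eb G H L + e2 G L := by rw [← hu, e2_union G hd]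
  have d1 : e2 G H = e2 G H' + 2 * eb G H' Q + e2 G Q := by
    conv_lhs => rw [hHe]
    exact e2_union G hdHQ
  have d2 : e2 G L = e2 G L' + 2 * eb G L' P + e2 G P := by
    conv_lhs => rw [hLe]
    exact e2_union G hdLP
  have d3 : eb G H L = eb G H L' + eb G H P := by
    conv_lhs => rw [hLe]
    exact eb_union_right G hdLP H
  have d4 : eb G H L' = eb G H' L' + eb G Q L' := by
    conv_lhs => rw [hHe]
    exact eb_union_left G hdHQ L'
  have d5 : e2 G (univ \ vT T) = e2 G H' + 2 * eb G H' L' + e2 G L' := by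
    rw [hU, e2_union G hdHL]
  have b1 : eb G H' Q ≤ H'.card * Q.card := eb_le G _ _
  have b2 : e2 G Q ≤ Q.card * (Q.card - 1) := e2_le G _
  have b3 : eb G L' P ≤ L'.card * P.card := eb_le G _ _
  have b4 : e2 G P ≤ P.card * P.card := by
    have := e2_le G P
    exact this.trans (Nat.mul_le_mul_left _ (Nat.sub_le _ _))
  have b5 : eb G Q L' ≤ Q.card * L'.card := eb_le G _ _
  have b6 : (eb G H P : ℝ) ≤ P.card * β := by
    rw [eb_comm]
    unfold eb
    push_cast
    calc ∑ v ∈ P, (dg G H v : ℝ) ≤ ∑ _v ∈ P, β := Finset.sum_le_sum fun v hv =>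
          hdeg v (by rw [hP, Finset.mem_inter] at hv; exact hv.1)
      _ = P.card * β := by rw [Finset.sum_const, nsmul_eq_mul]
  -- cast to the reals
  have c1 : ∀ a : ℕ, ((a * (a - 1) : ℕ) : ℝ) = (a : ℝ) * ((a : ℝ) - 1) := by
    intro a
    rcases a with _ | a
    · simp
    · push_cast
      simp
  have r1 : (eb G H' Q : ℝ) ≤ H'.card * Q.card := by exact_mod_cast b1
  have r2 : (e2 G Q : ℝ) ≤ Q.card * ((Q.card : ℝ) - 1) := by
    rw [← c1]; exact_mod_cast b2
  have r3 : (eb G L' P : ℝ) ≤ L'.card * P.card := by exact_mod_cast b3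
  have r4 : (e2 G P : ℝ) ≤ P.card * P.card := by exact_mod_cast b4
  have r5 : (eb G Q L' : ℝ) ≤ Q.card * L'.card := by exact_mod_cast b5
  have r6 : (e2 G (univ \ vT T) : ℝ) ≤ H'.card * ((H'.card : ℝ) - 1) +
      L'.card * ((L'.card : ℝ) + 1) := by
    rw [← c1]
    exact_mod_cast hE
  have s0 : (e2 G univ : ℝ) = e2 G H + 2 * eb G H L + e2 G L := by exact_mod_cast d0
  have s1 : (e2 G H : ℝ) = e2 G H' + 2 * eb G H' Q + e2 G Q := by exact_mod_cast d1
  have s2 : (e2 G L : ℝ) = e2 G L' + 2 * eb G L' P + e2 G P := by exact_mod_cast d2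
  have s3 : (eb G H L : ℝ) = eb G H L' + eb G H P := by exact_mod_cast d3
  have s4 : (eb G H L' : ℝ) = eb G H' L' + eb G Q L' := by exact_mod_cast d4
  have s5 : (e2 G (univ \ vT T) : ℝ) = e2 G H' + 2 * eb G H' L' + e2 G L' := by
    exact_mod_cast d5
  have s6 : (H.card : ℝ) = H'.card + Q.card := by exact_mod_cast hHc
  rw [s6]
  nlinarith

theorem pD4c (hRE : tRepE) (hC : tCover) (hE : tLemE) : tD4c := by
  intro J
  refine ⟨1000 * (J + 2) ^ 2, ?_⟩
  intro V _ _ c G k H L hN hk0 hk3 hRep hR hS hH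
  have hS' := hS
  obtain ⟨hd, hu, _, hdeg, hcrd⟩ := hS'
  set n := Fintype.card V with hn
  have hcardHL : H.card + L.card = n := by
    rw [← Finset.card_union_of_disjoint hd, hu, Finset.card_univ]
  obtain ⟨d, hd1⟩ : ∃ d, H.card + d = 3 * k := ⟨3 * k - H.card, by omega⟩
  have hdpos : 1 ≤ d := by omega
  have hdJ : d ≤ J := by omega
  obtain ⟨m, hm⟩ : ∃ m, 3 * k + m = n := ⟨n - 3 * k, by omega⟩
  have hLc : L.card = m + d := by omega
  -- the maximal family
  obtain ⟨T, hTF, hp, hTp, hno⟩ := J24c_family G L (d + 2) (by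
    intro T hT _ hTc
    have h1 := hC V c G G k J H L T hR hS hRep ⟨∅, by simp, fun u v h _ => h⟩ hT (by omega)
    omega)
  have hcov := hno
  -- the edge bound
  have hE1 := hE V G (univ \ vT T) (L \ vT T)
    (Finset.sdiff_subset_sdiff (Finset.subset_univ _) subset_rfl) hno
  have hUL : (univ \ vT T) \ (L \ vT T) = H \ vT T := by
    ext v
    simp only [Finset.mem_sdiff, Finset.mem_univ, true_and]
    constructor
    · rintro ⟨h1, h2⟩
      have h3 : v ∈ H ∪ L := by rw [hu]; exact Finset.mem_univ _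
      rw [Finset.mem_union] at h3
      rcases h3 with h3 | h3
      · exact ⟨h3, h1⟩
      · exact absurd ⟨h3, h1⟩ h2
    · rintro ⟨h1, h2⟩
      refine ⟨h2, fun h3 => ?_⟩
      exact Finset.disjoint_left.1 hd h1 h3.1
  rw [hUL] at hE1
  have hcount := J24c_count G H L hd hu T ((n : ℝ) + n / 500 - 3 * k)
    (fun v hv => by have := hdeg v hv; linarith) hE1
  -- the sizes
  have hvT : (vT T).card = 3 * T.card := hTF.card_vT
  have hsplit : (H ∩ vT T).card + (L ∩ vT T).card = (vT T).card := by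
    rw [← Finset.card_union_of_disjoint (hd.mono Finset.inter_subset_left
      Finset.inter_subset_left), ← Finset.union_inter_distrib_right, hu, Finset.univ_inter]
  rw [Finset.inter_comm (vT T) L] at hp hTp
  have hL' : (L \ vT T).card + (L ∩ vT T).card = L.card := Finset.card_sdiff_add_card_inter L _
  set p := (L ∩ vT T).card with hpdef
  set q := (H ∩ vT T).card with hqdef
  set l := (L \ vT T).card with hldef
  have hq : q ≤ 2 * p := by omega
  -- the number of colours
  have hcol := (hRE V c univ G hRep).1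
  have hk1 : 1 ≤ k := by
    by_contra h0
    have hk0' : k = 0 := by omega
    rw [hk0'] at hk0
    have : (0 : ℝ) < n := by
      have : 0 < n := by omega
      exact_mod_cast this
    norm_num at hk0
    linarith
  -- reals
  have rm : (m : ℝ) = n - 3 * k := by
    have : (3 : ℝ) * k + m = n := by exact_mod_cast hm
    linarith
  have rH : (H.card : ℝ) = 3 * k - d := by
    have : (H.card : ℝ) + d = 3 * k := by exact_mod_cast hd1
    linarith
  have rl : (l : ℝ) = m + d - p := by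
    have : (l : ℝ) + p = m + d := by exact_mod_cast (by omega : l + p = m + d)
    linarith
  have rq : (q : ℝ) ≤ 2 * p := by exact_mod_cast hq
  have rp : (p : ℝ) ≤ d + 2 := by exact_mod_cast hp
  have rp3 : (p : ℝ) ≤ 3 * d := by exact_mod_cast (by omega : p ≤ 3 * d)
  have rd1 : (1 : ℝ) ≤ d := by exact_mod_cast hdpos
  have rdJ : (d : ℝ) ≤ J := by exact_mod_cast hdJ
  have rp0 : (0 : ℝ) ≤ p := Nat.cast_nonneg _
  have rl0 : (0 : ℝ) ≤ l := Nat.cast_nonneg _
  have rm0 : (0 : ℝ) ≤ m := Nat.cast_nonneg _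
  have rn : 1000 * ((J : ℝ) + 2) ^ 2 ≤ n := by exact_mod_cast hN
  have rn0 : (0 : ℝ) ≤ n := Nat.cast_nonneg _
  -- the number `X4`
  have hX4 : (2 : ℝ) * (X4 n (k - 1) : ℝ) = 3 * k * (3 * k - 1) + m * (m + 1) := by
    unfold X4
    obtain ⟨k', rfl⟩ : ∃ k', k = k' + 1 := ⟨k - 1, by omega⟩
    obtain ⟨r, hr⟩ : ∃ r, n + r = 6 * (k' + 1) := by
      refine ⟨6 * (k' + 1) - n, ?_⟩
      have h6 : (n : ℝ) ≤ 6 * ((k' + 1 : ℕ) : ℝ) := by linarith
      have h7 : n ≤ 6 * (k' + 1) := by exact_mod_cast h6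
      omega
    have e1 : 6 * (k' + 1 - 1) + 6 - n = r := by omega
    have e2' : 3 * (k' + 1 - 1) + 3 = 3 * (k' + 1) := by omega
    have e3 : n - 3 * (k' + 1 - 1) - 3 = m := by omega
    rw [e1, e2', e3]
    have rr : (r : ℝ) = 3 * ((k' + 1 : ℕ) : ℝ) - m := by
      have h8 : (n : ℝ) + r = 6 * ((k' + 1 : ℕ) : ℝ) := by exact_mod_cast hr
      linarith
    have rc : ((r.choose 2 : ℕ) : ℝ) = (r : ℝ) * (r - 1) / 2 := Nat.cast_choose_two ℝ r
    rw [Nat.cast_add, rc, Nat.cast_mul, Nat.cast_mul, rr]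
    push_cast
    ring
  -- the final inequality
  have hkey : (e2 G univ : ℝ) ≤ 2 * (X4 n (k - 1) : ℝ) := by
    rw [hX4]
    refine hcount.trans ?_
    have rk : (n : ℝ) - 3 * k = m := by linarith
    have e0 : (n : ℝ) + n / 500 - 3 * k = m + n / 500 := by linarith
    rw [e0, rH]
    have hql : 2 * (q : ℝ) * l ≤ 4 * p * l := by nlinarith
    -- main terms
    have hmain : (3 * (k : ℝ) - d) * (3 * k - d - 1) + l * (l + 1) + 4 * p * l +
        2 * p * (m + n / 500) + 2 * p * l + p ^ 2 - (3 * k * (3 * k - 1) + m * (m + 1)) =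
        -(6 * k * d) + (2 * m * d + 6 * m * p) + p * n / 250 +
          (d * (d + 1) + (d - p) ^ 2 + (d - p) + 6 * p * (d - p) + p ^ 2) := by
      rw [rl]; ring
    have hconst : d * ((d : ℝ) + 1) + (d - p) ^ 2 + (d - p) + 6 * p * (d - p) + p ^ 2 ≤
        20 * ((J : ℝ) + 2) ^ 2 := by
      have hJ0 : (0 : ℝ) ≤ J := Nat.cast_nonneg _
      have g1 : (d : ℝ) * (d + 1) ≤ (J + 2) ^ 2 := by nlinarith
      have g2 : ((d : ℝ) - p) ^ 2 ≤ (J + 2) ^ 2 := by
        apply sq_le_sq'
        · linarith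
        · linarith
      have g3 : (d : ℝ) - p ≤ (J + 2) ^ 2 := by nlinarith
      have g4 : 6 * (p : ℝ) * (d - p) ≤ 6 * (J + 2) ^ 2 := by
        have : (p : ℝ) * (d - p) ≤ (J + 2) ^ 2 := by nlinarith [sq_nonneg ((d : ℝ) - 2 * p)]
        linarith
      have g5 : (p : ℝ) ^ 2 ≤ (J + 2) ^ 2 := by
        apply sq_le_sq'
        · linarith
        · linarith
      nlinarith [sq_nonneg ((J : ℝ) + 2)]
    have hm2 : (m : ℝ) ≤ 0.085 * n := by rw [rm]; linarith
    have g6 : 6 * (m : ℝ) * p ≤ 18 * m * d := by nlinarith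
    have g7 : (p : ℝ) * n / 250 ≤ 3 * d * n / 250 := by
      have : (p : ℝ) * n ≤ 3 * d * n := mul_le_mul_of_nonneg_right rp3 rn0
      linarith
    have g8 : -(6 * (k : ℝ) * d) + 20 * m * d + 3 * d * n / 250 ≤ -(0.118 * n) := by
      have h9 : -(6 * (k : ℝ)) + 20 * m + 3 * n / 250 ≤ -(0.118 * n) := by
        rw [rm] at hm2 ⊢
        linarith
      have h10 : (-(6 * (k : ℝ)) + 20 * m + 3 * n / 250) * d ≤ -(0.118 * n) * d :=
        mul_le_mul_of_nonneg_right h9 (by linarith)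
      have h11 : -(0.118 * (n : ℝ)) * d ≤ -(0.118 * n) := by nlinarith
      linarith
    nlinarith
  rw [hcol] at hkey
  have h12 : ((cols c univ).card : ℝ) ≤ X4 n (k - 1) := by
    push_cast at hkey
    linarith
  have h13 : (cols c univ).card ≤ X4 n (k - 1) := by exact_mod_cast h12
  omega

end Pool.Agent.ART
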