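import Pool.Agent.ART.Targets

set_option autoImplicit false

/-! Anti-Ramsey numbers of vertex-disjoint triangles (MP_e56f3d_co): numeric inequalities. -/

namespace Pool.Agent.ART

open Finset

theorem sq_div_four (x : ℕ) :
    (x : ℝ) ^ 2 / 4 - 1 / 4 ≤ ((x ^ 2 / 4 : ℕ) : ℝ) ∧ ((x ^ 2 / 4 : ℕ) : ℝ) ≤ (x : ℝ) ^ 2 / 4 := by
  rcases Nat.even_or_odd' x with ⟨y, rfl | rfl⟩
  · have h : (2 * y) ^ 2 / 4 = y ^ 2 := by
      rw [show (2 * y) ^ 2 = y ^ 2 * 4 by ring]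
      exact Nat.mul_div_cancel _ (by norm_num)
    rw [h]
    push_cast
    constructor <;> nlinarith
  · have h : (2 * y + 1) ^ 2 / 4 = y ^ 2 + y := by
      rw [show (2 * y + 1) ^ 2 = 1 + (y ^ 2 + y) * 4 by ring, Nat.add_mul_div_right _ _ (by norm_num)]
      simp
    rw [h]
    push_cast
    constructor <;> nlinarith

theorem X1_bd {n t : ℕ} (h : t ≤ n) :
    (n : ℝ) ^ 2 / 4 + t * n / 2 - (t : ℝ) ^ 2 / 4 - t / 2 - 1 / 4 ≤ (X1 n t : ℝ) ∧
    (X1 n t : ℝ) ≤ (n : ℝ) ^ 2 / 4 + t * n / 2 - (t : ℝ) ^ 2 / 4 - t / 2 := by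
  have h1 := sq_div_four (n - t)
  rw [X1]
  push_cast [Nat.cast_choose_two] at h1 ⊢
  rw [Nat.cast_sub h] at h1 ⊢
  constructor <;> nlinarith [h1.1, h1.2]

theorem X2_bd (n t : ℕ) :
    2 * (t : ℝ) ^ 2 + t + (n : ℝ) ^ 2 / 4 - 1 / 4 ≤ (X2 n t : ℝ) ∧
    (X2 n t : ℝ) ≤ 2 * (t : ℝ) ^ 2 + t + (n : ℝ) ^ 2 / 4 := by
  have h1 := sq_div_four n
  rw [X2]
  push_cast [Nat.cast_choose_two] at h1 ⊢
  constructor <;> nlinarith [h1.1, h1.2]

theorem X3_eq {n t : ℕ} (h : 2 * t + 2 ≤ n) :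
    (X3 n t : ℝ) = 2 * t * n + 2 * n - 2 * (t : ℝ) ^ 2 - 5 * t - 3 := by
  rw [X3, Nat.sub_sub, Nat.cast_add, Nat.cast_mul, Nat.cast_mul, Nat.cast_sub h]
  push_cast
  ring

theorem X4_eq {n t : ℕ} (h : n ≤ 6 * t + 6) (h2 : 3 * t + 3 ≤ n) :
    (X4 n t : ℝ) = 9 * ((t : ℝ) + 1) ^ 2 - 3 * (t + 1) * n + (n : ℝ) ^ 2 / 2 - 3 * (t + 1) + n / 2 := by
  rw [X4, Nat.sub_sub, Nat.cast_add, Nat.cast_mul, Nat.cast_sub h2, Nat.cast_choose_two,
    Nat.cast_sub h]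
  push_cast
  ring

theorem X5_eq {n t : ℕ} (h : 3 * t + 6 ≤ n) :
    (X5 n t : ℝ) = 9 / 2 * ((t : ℝ) + 1) ^ 2 + 3 / 2 * (t + 1) + n - 2 := by
  rw [X5, Nat.sub_sub, Nat.cast_add, Nat.cast_choose_two, Nat.cast_sub h]
  push_cast
  ring

theorem Xi_cases (n t : ℕ) :
    ((t : ℝ) ≤ a1 n ∧ Xi n t = X1 n t) ∨
    (a1 n < t ∧ (t : ℝ) ≤ a2 n ∧ Xi n t = X2 n t) ∨
    (a1 n < t ∧ a2 n < t ∧ (t : ℝ) ≤ a3 n ∧ Xi n t = X3 n t) ∨
    (a2 n < t ∧ a3 n < t ∧ (t : ℝ) ≤ a4 n ∧ Xi n t = X4 n t) ∨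
    (a2 n < t ∧ a3 n < t ∧ a4 n < t ∧ Xi n t = X5 n t) := by
  by_cases h1 : (t : ℝ) ≤ a1 n
  · left; exact ⟨h1, by simp only [Xi, if_pos h1]⟩
  right
  by_cases h2 : (t : ℝ) ≤ a2 n
  · left; exact ⟨not_le.mp h1, h2, by simp only [Xi, if_neg h1, if_pos h2]⟩
  right
  by_cases h3 : (t : ℝ) ≤ a3 n
  · left; exact ⟨not_le.mp h1, not_le.mp h2, h3, by simp only [Xi, if_neg h1, if_neg h2, if_pos h3]⟩
  right
  by_cases h4 : (t : ℝ) ≤ a4 n
  · left; exact ⟨not_le.mp h2, not_le.mp h3, h4, by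
      simp only [Xi, if_neg h1, if_neg h2, if_neg h3, if_pos h4]⟩
  right
  exact ⟨not_le.mp h2, not_le.mp h3, not_le.mp h4, by
      simp only [Xi, if_neg h1, if_neg h2, if_neg h3, if_neg h4]⟩

/-- facts on `√(2n-3)` -/
theorem s2_facts {n : ℕ} (hn : 5000 ≤ n) :
    0 ≤ √(2 * (n : ℝ) - 3) ∧ √(2 * (n : ℝ) - 3) ^ 2 = 2 * n - 3 ∧ 1 ≤ √(2 * (n : ℝ) - 3) ∧
      √(2 * (n : ℝ) - 3) ≤ 0.02 * n := by
  have hN : (5000 : ℝ) ≤ n := by exact_mod_cast hn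
  have h0 : 0 ≤ √(2 * (n : ℝ) - 3) := Real.sqrt_nonneg _
  refine ⟨h0, Real.sq_sqrt (by linarith), ?_, ?_⟩
  · exact Real.one_le_sqrt.mpr (by linarith)
  · rw [Real.sqrt_le_left (by positivity)]
    nlinarith

/-- facts on `√(3n^2-2n+4)` -/
theorem s3_facts {n : ℕ} (hn : 5000 ≤ n) :
    √(3 * (n : ℝ) ^ 2 - 2 * n + 4) ^ 2 = 3 * (n : ℝ) ^ 2 - 2 * n + 4 ∧
      1.7 * n ≤ √(3 * (n : ℝ) ^ 2 - 2 * n + 4) ∧ √(3 * (n : ℝ) ^ 2 - 2 * n + 4) ≤ 1.733 * n := by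
  have hN : (5000 : ℝ) ≤ n := by exact_mod_cast hn
  refine ⟨Real.sq_sqrt (by nlinarith), ?_, ?_⟩
  · apply Real.le_sqrt_of_sq_le
    nlinarith
  · rw [Real.sqrt_le_left (by positivity)]
    nlinarith

/-- facts on `√(16n-7)` -/
theorem s4_facts {n : ℕ} (hn : 5000 ≤ n) :
    0 ≤ √(16 * (n : ℝ) - 7) ∧ √(16 * (n : ℝ) - 7) ^ 2 = 16 * n - 7 ∧
      √(16 * (n : ℝ) - 7) ≤ 0.1 * n := by
  have hN : (5000 : ℝ) ≤ n := by exact_mod_cast hn
  refine ⟨Real.sqrt_nonneg _, Real.sq_sqrt (by linarith), ?_⟩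
  rw [Real.sqrt_le_left (by positivity)]
  nlinarith

theorem a3_lo {n t : ℕ} (hn : 5000 ≤ n) (h : a3 n < t) : 0.3 * (n : ℝ) < t := by
  have hN : (5000 : ℝ) ≤ n := by exact_mod_cast hn
  obtain ⟨_, h2, _⟩ := s3_facts hn
  rw [a3, div_lt_iff₀ (by norm_num)] at h
  nlinarith

theorem a3_hi {n t : ℕ} (hn : 5000 ≤ n) (h : (t : ℝ) ≤ a3 n) : (t : ℝ) + 1 ≤ 0.3061 * n + 1 := by
  have hN : (5000 : ℝ) ≤ n := by exact_mod_cast hn
  obtain ⟨_, _, h2⟩ := s3_facts hn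
  rw [a3, le_div_iff₀ (by norm_num)] at h
  linarith

theorem a2_lo {n t : ℕ} (hn : 5000 ≤ n) (h : a2 n < t) : 0.2449 * (n : ℝ) - 1 < t := by
  have hN : (5000 : ℝ) ≤ n := by exact_mod_cast hn
  obtain ⟨_, _, _, h2⟩ := s2_facts hn
  rw [a2, div_lt_iff₀ (by norm_num)] at h
  linarith

/-! ### The crossings -/

theorem X43_gt {n t : ℕ} (hn : 5000 ≤ n) (h6 : 3 * t + 6 ≤ n) (h : a3 n < t) : X3 n t ≤ X4 n t := by
  have hN : (5000 : ℝ) ≤ n := by exact_mod_cast hn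
  have hlo := a3_lo hn h
  obtain ⟨h1, h2, _⟩ := s3_facts hn
  set s := √(3 * (n : ℝ) ^ 2 - 2 * n + 4) with hs
  have h66 : n ≤ 6 * t + 6 := by
    have : (n : ℝ) ≤ 6 * t + 6 := by linarith
    exact_mod_cast this
  have e4 := X4_eq h66 (by omega)
  have e3 := X3_eq (n := n) (t := t) (by omega)
  have h3 : s < 22 * t + 20 - 5 * n := by
    rw [a3, div_lt_iff₀ (by norm_num), ← hs] at h
    linarith
  have h4 : s ^ 2 ≤ (22 * (t : ℝ) + 20 - 5 * n) ^ 2 := by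
    apply pow_le_pow_left₀ (by linarith) h3.le
  have : (X3 n t : ℝ) ≤ X4 n t := by
    rw [e3, e4]
    nlinarith
  exact_mod_cast this

theorem X43_le {n t : ℕ} (hn : 5000 ≤ n) (h6 : 3 * t + 6 ≤ n) (h : (t : ℝ) ≤ a3 n)
    (ht : (n : ℝ) ≤ 5 * t) : X4 n t ≤ X3 n t := by
  have hN : (5000 : ℝ) ≤ n := by exact_mod_cast hn
  obtain ⟨h1, h2, _⟩ := s3_facts hn
  set s := √(3 * (n : ℝ) ^ 2 - 2 * n + 4) with hs
  have h66 : n ≤ 6 * t + 6 := by
    have : (n : ℝ) ≤ 6 * t + 6 := by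
      have : (0 : ℝ) ≤ t := Nat.cast_nonneg t
      linarith
    exact_mod_cast this
  have e4 := X4_eq h66 (by omega)
  have e3 := X3_eq (n := n) (t := t) (by omega)
  have h3 : 22 * (t : ℝ) + 20 - 5 * n ≤ s := by
    rw [a3, le_div_iff₀ (by norm_num), ← hs] at h
    linarith
  have h4 : (22 * (t : ℝ) + 20 - 5 * n) ^ 2 ≤ s ^ 2 := by
    apply sq_le_sq'
    · linarith
    · exact h3
  have : (X4 n t : ℝ) ≤ X3 n t := by
    rw [e3, e4]
    nlinarith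
  exact_mod_cast this

theorem X54_le {n t : ℕ} (hn : 5000 ≤ n) (h6 : 3 * t + 6 ≤ n) (h : (t : ℝ) ≤ a4 n)
    (ht : (n : ℝ) ≤ 6 * t + 6) : X5 n t ≤ X4 n t := by
  have hN : (5000 : ℝ) ≤ n := by exact_mod_cast hn
  obtain ⟨h0, h1, h2⟩ := s4_facts hn
  set s := √(16 * (n : ℝ) - 7) with hs
  have h66 : n ≤ 6 * t + 6 := by exact_mod_cast ht
  have e4 := X4_eq h66 (by omega)
  have e5 := X5_eq h6
  have h3 : s ≤ 2 * n - 6 * t - 3 := by
    rw [a4, le_div_iff₀ (by norm_num), ← hs] at h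
    linarith
  have h4 : s ^ 2 ≤ (2 * (n : ℝ) - 6 * t - 3) ^ 2 := pow_le_pow_left₀ h0 h3 2
  have : (X5 n t : ℝ) ≤ X4 n t := by
    rw [e5, e4]
    nlinarith
  exact_mod_cast this

theorem X45_le {n t : ℕ} (hn : 5000 ≤ n) (h6 : 3 * t + 6 ≤ n) (h : a4 n < t)
    (ht : (n : ℝ) ≤ 6 * t + 6) : X4 n t ≤ X5 n t := by
  have hN : (5000 : ℝ) ≤ n := by exact_mod_cast hn
  have h6' : 3 * (t : ℝ) + 6 ≤ n := by exact_mod_cast h6
  obtain ⟨h0, h1, h2⟩ := s4_facts hn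
  set s := √(16 * (n : ℝ) - 7) with hs
  have h66 : n ≤ 6 * t + 6 := by exact_mod_cast ht
  have e4 := X4_eq h66 (by omega)
  have e5 := X5_eq h6
  have h3 : 2 * (n : ℝ) - 6 * t - 3 < s := by
    rw [a4, div_lt_iff₀ (by norm_num), ← hs] at h
    linarith
  have h4 : (2 * (n : ℝ) - 6 * t - 3) ^ 2 ≤ s ^ 2 := pow_le_pow_left₀ (by linarith) h3.le 2
  have : (X4 n t : ℝ) ≤ X5 n t := by
    rw [e5, e4]
    nlinarith
  exact_mod_cast this

theorem X32_le {n t : ℕ} (hn : 5000 ≤ n) (h6 : 3 * t + 6 ≤ n) (h : (t : ℝ) ≤ a2 n) :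
    X3 n t ≤ X2 n t := by
  have hN : (5000 : ℝ) ≤ n := by exact_mod_cast hn
  obtain ⟨h0, h1, h2, _⟩ := s2_facts hn
  set s := √(2 * (n : ℝ) - 3) with hs
  have e3 := X3_eq (n := n) (t := t) (by omega)
  have e2 := (X2_bd n t).1
  have h3 : s ≤ n - 4 * t - 3 := by
    rw [a2, le_div_iff₀ (by norm_num), ← hs] at h
    linarith
  have h4 : s ^ 2 ≤ ((n : ℝ) - 4 * t - 3) ^ 2 := pow_le_pow_left₀ h0 h3 2
  have : (X3 n t : ℝ) < X2 n t + 1 := by
    rw [e3]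
    nlinarith
  have h5 : X3 n t < X2 n t + 1 := by exact_mod_cast this
  omega

theorem X23_le {n t : ℕ} (hn : 5000 ≤ n) (h6 : 3 * t + 6 ≤ n) (h : a2 n < t)
    (hu : 4 * (t : ℝ) + 3 ≤ n) : X2 n t ≤ X3 n t := by
  have hN : (5000 : ℝ) ≤ n := by exact_mod_cast hn
  obtain ⟨h0, h1, h2, _⟩ := s2_facts hn
  set s := √(2 * (n : ℝ) - 3) with hs
  have e3 := X3_eq (n := n) (t := t) (by omega)
  have e2 := (X2_bd n t).2
  have h3 : (n : ℝ) - 4 * t - 3 < s := by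
    rw [a2, div_lt_iff₀ (by norm_num), ← hs] at h
    linarith
  have h4 : ((n : ℝ) - 4 * t - 3) ^ 2 ≤ s ^ 2 := pow_le_pow_left₀ (by linarith) h3.le 2
  have : (X2 n t : ℝ) ≤ X3 n t := by
    rw [e3]
    nlinarith
  exact_mod_cast this

theorem X21_le {n t : ℕ} (h6 : 3 * t + 6 ≤ n) (h : (t : ℝ) ≤ a1 n) : X2 n t ≤ X1 n t := by
  have h3 : 9 * (t : ℝ) + 6 - 2 * n ≤ 0 := by
    rw [a1, le_div_iff₀ (by norm_num)] at h
    linarith
  have e1 := (X1_bd (n := n) (t := t) (by omega)).1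
  have e2 := (X2_bd n t).2
  have h0 : (0 : ℝ) ≤ t := Nat.cast_nonneg t
  have : (X2 n t : ℝ) < X1 n t + 1 := by nlinarith [mul_nonneg h0 (neg_nonneg.mpr h3)]
  have h5 : X2 n t < X1 n t + 1 := by exact_mod_cast this
  omega

theorem X12_le {n t : ℕ} (hn : 5000 ≤ n) (h6 : 3 * t + 6 ≤ n) (h : a1 n < t) :
    X1 n t ≤ X2 n t := by
  have hN : (5000 : ℝ) ≤ n := by exact_mod_cast hn
  have h3 : 0 < 9 * (t : ℝ) + 6 - 2 * n := by
    rw [a1, div_lt_iff₀ (by norm_num)] at h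
    linarith
  have h4 : 2 * n + 1 ≤ 9 * t + 6 := by
    have : 2 * n < 9 * t + 6 := by
      have : (2 * n : ℝ) < 9 * t + 6 := by linarith
      exact_mod_cast this
    omega
  have h4' : 2 * (n : ℝ) + 1 ≤ 9 * t + 6 := by exact_mod_cast h4
  have e1 := (X1_bd (n := n) (t := t) (by omega)).2
  have e2 := (X2_bd n t).1
  have h0 : (1 : ℝ) ≤ t := by linarith
  have : (X1 n t : ℝ) ≤ X2 n t := by nlinarith [mul_nonneg (sub_nonneg.mpr h0) (sub_nonneg.mpr h4')]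
  exact_mod_cast this

theorem X13_le {n t : ℕ} (hn : 5000 ≤ n) (h6 : 3 * t + 6 ≤ n) (h : a2 n < t) :
    X1 n t ≤ X3 n t := by
  have hN : (5000 : ℝ) ≤ n := by exact_mod_cast hn
  have h6' : 3 * (t : ℝ) + 6 ≤ n := by exact_mod_cast h6
  have hlo := a2_lo hn h
  have e1 := (X1_bd (n := n) (t := t) (by omega)).2
  have e3 := X3_eq (n := n) (t := t) (by omega)
  have hlo' : 0.244 * (n : ℝ) ≤ t := by linarith
  have : (X1 n t : ℝ) ≤ X3 n t := by
    rw [e3]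
    nlinarith [mul_nonneg (sub_nonneg.mpr hlo') (sub_nonneg.mpr h6')]
  exact_mod_cast this

theorem a1_a2 {n t : ℕ} (hn : 5000 ≤ n) (h : (t : ℝ) ≤ a1 n) : (t : ℝ) ≤ a2 n := by
  have hN : (5000 : ℝ) ≤ n := by exact_mod_cast hn
  obtain ⟨_, _, _, h2⟩ := s2_facts hn
  rw [a1, le_div_iff₀ (by norm_num)] at h
  rw [a2, le_div_iff₀ (by norm_num)]
  linarith

theorem X3_Xi {n t : ℕ} (hn : 5000 ≤ n) (h6 : 3 * t + 6 ≤ n)
    (hk : ((t + 1 : ℕ) : ℝ) ≤ 0.3075 * n) : X3 n t ≤ Xi n t := by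
  have hN : (5000 : ℝ) ≤ n := by exact_mod_cast hn
  push_cast at hk
  rcases Xi_cases n t with ⟨h1, e⟩ | ⟨h1, h2, e⟩ | ⟨h1, h2, h3, e⟩ | ⟨h2, h3, h4, e⟩ | ⟨h2, h3, h4, e⟩
  · rw [e]; exact (X32_le hn h6 (a1_a2 hn h1)).trans (X21_le h6 h1)
  · rw [e]; exact X32_le hn h6 h2
  · rw [e]
  · rw [e]; exact X43_gt hn h6 h3
  · exfalso
    obtain ⟨_, _, h5⟩ := s4_facts hn
    rw [a4, div_lt_iff₀ (by norm_num)] at h4
    linarith

theorem X1_Xi {n t : ℕ} (hn : 5000 ≤ n) (h6 : 3 * t + 6 ≤ n)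
    (hk : ((t + 1 : ℕ) : ℝ) ≤ 0.3075 * n) : X1 n t ≤ Xi n t := by
  by_cases h2 : (t : ℝ) ≤ a2 n
  · rcases Xi_cases n t with ⟨h1, e⟩ | ⟨h1, _, e⟩ | ⟨_, h, _⟩ | ⟨h, _⟩ | ⟨h, _⟩
    · rw [e]
    · rw [e]; exact X12_le hn h6 h1
    · exact absurd h2 (not_le.mpr h)
    · exact absurd h2 (not_le.mpr h)
    · exact absurd h2 (not_le.mpr h)
  · exact (X13_le hn h6 (not_le.mp h2)).trans (X3_Xi hn h6 hk)

/-- for `t ≤ a2` -/
theorem X2_Xi {n t : ℕ} (h6 : 3 * t + 6 ≤ n) (h2 : (t : ℝ) ≤ a2 n) : X2 n t ≤ Xi n t := by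
  rcases Xi_cases n t with ⟨h1, e⟩ | ⟨h1, _, e⟩ | ⟨_, h, _⟩ | ⟨h, _⟩ | ⟨h, _⟩
  · rw [e]; exact X21_le h6 h1
  · rw [e]
  · exact absurd h2 (not_le.mpr h)
  · exact absurd h2 (not_le.mpr h)
  · exact absurd h2 (not_le.mpr h)

theorem mul_le_sq_div_four (a b : ℕ) : a * b ≤ (a + b) ^ 2 / 4 := by
  rw [Nat.le_div_iff_mul_le (by norm_num)]
  nlinarith [sq_nonneg ((a : ℤ) - b), four_mul_le_sq_add a b]

theorem pNumB : tNumB := by
  refine ⟨5000, fun n t w hn h6 hk => ⟨?_, fun hw hwn => ?_⟩⟩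
  · have h3 := X3_Xi hn h6 hk
    have e : (2 * (t + 1)).choose 2 + 2 * (t + 1) * (n - 2 * (t + 1)) = X3 n t := by
      rw [X3, Nat.choose_two_right]
      have e1 : 2 * (t + 1) * (2 * (t + 1) - 1) / 2 = (t + 1) * (2 * t + 1) := by
        rw [show 2 * (t + 1) - 1 = 2 * t + 1 by omega, mul_assoc]
        exact Nat.mul_div_cancel_left _ (by norm_num)
      rw [e1, show n - 2 * (t + 1) = n - 2 * t - 2 by omega, show 2 * (t + 1) = 2 * t + 2 by ring]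
    rw [e]; exact h3
  · obtain ⟨v, hv⟩ : ∃ v, n = w + v := ⟨n - w, by omega⟩
    have hvw : n - w = v := by omega
    rw [hvw, EG, max_add]
    refine max_le ?_ ?_
    · -- first branch
      by_cases h2 : (t : ℝ) ≤ a2 n
      · refine le_trans ?_ (X2_Xi h6 h2)
        rw [X2, hv]
        exact Nat.add_le_add_left (mul_le_sq_div_four w v) _
      · have h2' := not_le.mp h2
        refine le_trans ?_ (X3_Xi hn h6 hk)
        by_cases hu : 4 * t + 3 ≤ n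
        · refine le_trans ?_ (X23_le hn h6 h2' (by exact_mod_cast hu))
          rw [X2, hv]
          exact Nat.add_le_add_left (mul_le_sq_div_four w v) _
        · have hu' : n ≤ 4 * t + 2 := by omega
          have e3 := X3_eq (n := n) (t := t) (by omega)
          have h7 : (((2 * t + 1).choose 2 + w * v : ℕ) : ℝ) ≤ X3 n t := by
            rw [e3, Nat.cast_add, Nat.cast_choose_two, Nat.cast_mul]
            have hw' : 2 * (t : ℝ) + 3 ≤ w := by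
              have : 2 * t + 3 ≤ w := by omega
              exact_mod_cast this
            have hv' : (n : ℝ) = w + v := by exact_mod_cast hv
            have hu2 : (n : ℝ) ≤ 4 * t + 2 := by exact_mod_cast hu'
            have h6' : 3 * (t : ℝ) + 6 ≤ n := by exact_mod_cast h6
            have hvv : (v : ℝ) = n - w := by linarith
            rw [hvv]
            push_cast
            have hN : (5000 : ℝ) ≤ n := by exact_mod_cast hn
            nlinarith [mul_nonneg (sub_nonneg.mpr hw') (show (0 : ℝ) ≤ w + (2 * t + 3) - n by linarith)]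
          exact_mod_cast h7
    · refine le_trans ?_ (X1_Xi hn h6 hk)
      have h8 : (X1 n t : ℝ) + 1 > ((t.choose 2 + t * (w - t) + w * v : ℕ) : ℝ) := by
        have htw : t ≤ w := by omega
        have e1 := (X1_bd (n := n) (t := t) (by omega)).1
        rw [Nat.cast_add, Nat.cast_add, Nat.cast_choose_two, Nat.cast_mul, Nat.cast_mul,
          Nat.cast_sub htw]
        have hvv : (v : ℝ) = n - w := by
          have : (n : ℝ) = w + v := by exact_mod_cast hv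
          linarith
        rw [hvv]
        nlinarith [sq_nonneg ((n : ℝ) + t - 2 * w)]
      have h9 : t.choose 2 + t * (w - t) + w * v < X1 n t + 1 := by exact_mod_cast h8
      omega

theorem pNumC : tNumC := by
  refine ⟨10000, fun n t hn' h6 hk => ?_⟩
  have hn : 5000 ≤ n := by omega
  have hN : (10000 : ℝ) ≤ n := by exact_mod_cast hn'
  have h6' : 3 * (t : ℝ) + 6 ≤ n := by exact_mod_cast h6
  push_cast at hk
  have hn6 : (n : ℝ) ≤ 6 * t + 6 := by linarith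
  have hn5 : (n : ℝ) ≤ 5 * t := by linarith
  rcases Xi_cases n t with ⟨h1, e⟩ | ⟨h1, h2, e⟩ | ⟨h1, h2, h3, e⟩ | ⟨h2, h3, h4, e⟩ | ⟨h2, h3, h4, e⟩
  · exfalso
    rw [a1, le_div_iff₀ (by norm_num)] at h1
    linarith
  · exfalso
    rw [a2, le_div_iff₀ (by norm_num)] at h2
    have := Real.sqrt_nonneg (2 * (n : ℝ) - 3)
    linarith
  · rw [e]
    refine ⟨X43_le hn h6 h3 hn5, ?_⟩
    have e3 := X3_eq (n := n) (t := t) (by omega)
    have e5 := X5_eq h6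
    have hhi := a3_hi hn h3
    have : (X5 n t : ℝ) ≤ X3 n t := by
      rw [e3, e5]
      have h8 : (t : ℝ) ≤ 0.3061 * n := by linarith
      have h9 : 0.3049 * (n : ℝ) ≤ t := by linarith
      nlinarith [mul_nonneg (sub_nonneg.mpr h8) (sub_nonneg.mpr h9)]
    exact_mod_cast this
  · rw [e]
    exact ⟨le_rfl, X54_le hn h6 h4 hn6⟩
  · rw [e]
    exact ⟨X45_le hn h6 h4 hn6, le_rfl⟩

theorem pNumA : tNumA := by
  refine ⟨10, 5000, fun n t hn h6 => ?_⟩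
  have hN : (5000 : ℝ) ≤ n := by exact_mod_cast hn
  have h6' : 3 * (t : ℝ) + 6 ≤ n := by exact_mod_cast h6
  have ht0 : (0 : ℝ) ≤ t := Nat.cast_nonneg t
  rcases Xi_cases n t with ⟨h1, e⟩ | ⟨h1, h2, e⟩ | ⟨h1, h2, h3, e⟩ | ⟨h2, h3, h4, e⟩ | ⟨h2, h3, h4, e⟩
  · -- branch 1
    rw [e]
    have hb := (X1_bd (n := n) (t := t) (by omega)).1
    have h9 : 9 * (t : ℝ) + 6 ≤ 2 * n := by
      rw [a1, le_div_iff₀ (by norm_num)] at h1
      linarith
    constructor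
    · have hph1 : ph1 n (t + 1) ≤ X1 n t + n := by
        rw [ph1]
        nlinarith
      by_cases hc : 9 * ((t : ℝ) + 1) ≤ 2 * n
      · rw [phi, if_pos hc]
        linarith
      · have hc4 : 4 * ((t : ℝ) + 1) ≤ n := by linarith
        rw [phi, if_neg hc, if_pos hc4]
        have h10 : ph2 n (t + 1) - ph1 n (t + 1) ≤ n := by
          rw [ph2, ph1]
          nlinarith [mul_nonneg (show (0 : ℝ) ≤ t + 1 by linarith) (sub_nonneg.mpr h9)]
        linarith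
    · nlinarith [mul_nonneg ht0 (show (0 : ℝ) ≤ n / 2 - t / 4 - 1 / 2 by linarith)]
  · -- branch 2
    rw [e]
    have hb := (X2_bd n t).1
    obtain ⟨_, _, hs1, _⟩ := s2_facts hn
    have hc : ¬ 9 * ((t : ℝ) + 1) ≤ 2 * n := by
      rw [a1, div_lt_iff₀ (by norm_num)] at h1
      intro h
      linarith
    have hc4 : 4 * ((t : ℝ) + 1) ≤ n := by
      rw [a2, le_div_iff₀ (by norm_num)] at h2
      linarith
    rw [phi, if_neg hc, if_pos hc4, ph2]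
    constructor
    · nlinarith
    · nlinarith [sq_nonneg (t : ℝ)]
  · -- branch 3
    rw [e]
    have e3 := X3_eq (n := n) (t := t) (by omega)
    obtain ⟨hs0, hs1, hs2, hs3⟩ := s2_facts hn
    obtain ⟨hr1, hr2, hr3⟩ := s3_facts hn
    have hlo := a2_lo hn h2
    have hc : ¬ 9 * ((t : ℝ) + 1) ≤ 2 * n := by
      intro h
      linarith
    rw [phi, if_neg hc, e3]
    constructor
    · by_cases hc4 : 4 * ((t : ℝ) + 1) ≤ n
      · rw [if_pos hc4, ph2]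
        set s := √(2 * (n : ℝ) - 3) with hs
        have h4 : (n : ℝ) - 4 * (t + 1) ≤ s := by
          rw [a2, div_lt_iff₀ (by norm_num), ← hs] at h2
          linarith
        have h5 : ((n : ℝ) - 4 * (t + 1)) ^ 2 ≤ s ^ 2 :=
          pow_le_pow_left₀ (by linarith) h4 2
        nlinarith
      · rw [if_neg hc4]
        have h34 : ph4 n (t + 1) ≤ ph3 n (t + 1) + n := by
          set s := √(3 * (n : ℝ) ^ 2 - 2 * n + 4) with hs
          have h5 : 22 * (t : ℝ) + 20 - 5 * n ≤ s := by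
            rw [a3, le_div_iff₀ (by norm_num), ← hs] at h3
            linarith
          have h7 : (22 * (t : ℝ) + 20 - 5 * n) ^ 2 ≤ s ^ 2 := by
            apply sq_le_sq'
            · linarith
            · exact h5
          rw [ph4, ph3]
          nlinarith
        have h33 : ph3 n (t + 1) - 9 * n ≤ 2 * t * n + 2 * n - 2 * (t : ℝ) ^ 2 - 5 * t - 3 := by
          rw [ph3]
          nlinarith
        have hmax : max (ph3 n (t + 1)) (ph4 n (t + 1)) ≤ ph3 n (t + 1) + n :=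
          max_le (by linarith) h34
        linarith
    · nlinarith [mul_nonneg (show (0 : ℝ) ≤ t - 0.244 * n by linarith)
        (show (0 : ℝ) ≤ n - 3 * t - 6 by linarith)]
  · -- branch 4
    rw [e]
    have hlo := a3_lo hn h3
    obtain ⟨hr1, hr2, hr3⟩ := s3_facts hn
    have h66 : n ≤ 6 * t + 6 := by
      have : (n : ℝ) ≤ 6 * t + 6 := by linarith
      exact_mod_cast this
    have e4 := X4_eq h66 (by omega)
    have hc : ¬ 9 * ((t : ℝ) + 1) ≤ 2 * n := by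
      intro h
      linarith
    have hc4 : ¬ 4 * ((t : ℝ) + 1) ≤ n := by
      intro h
      linarith
    rw [phi, if_neg hc, if_neg hc4, e4]
    constructor
    · have h34 : ph3 n (t + 1) ≤ ph4 n (t + 1) + n := by
        set s := √(3 * (n : ℝ) ^ 2 - 2 * n + 4) with hs
        have h5 : s ≤ 22 * (t : ℝ) + 20 - 5 * n := by
          rw [a3, div_lt_iff₀ (by norm_num), ← hs] at h3
          linarith
        have h7 : s ^ 2 ≤ (22 * (t : ℝ) + 20 - 5 * n) ^ 2 := pow_le_pow_left₀ (by linarith) h5 2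
        rw [ph4, ph3]
        nlinarith
      have hmax : max (ph3 n (t + 1)) (ph4 n (t + 1)) ≤ ph4 n (t + 1) + n :=
        max_le h34 (by linarith)
      have h44 : ph4 n (t + 1) - 9 * n ≤ 9 * ((t : ℝ) + 1) ^ 2 - 3 * (t + 1) * n + (n : ℝ) ^ 2 / 2
          - 3 * (t + 1) + n / 2 := by
        rw [ph4]
        nlinarith
      linarith
    · nlinarith [sq_nonneg ((t : ℝ) + 1 - n / 6)]
  · -- branch 5
    rw [e]
    have hlo := a3_lo hn h3
    obtain ⟨hr1, hr2, hr3⟩ := s3_facts hn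
    obtain ⟨hq0, hq1, hq2⟩ := s4_facts hn
    have e5 := X5_eq h6
    have hc : ¬ 9 * ((t : ℝ) + 1) ≤ 2 * n := by
      intro h
      linarith
    have hc4 : ¬ 4 * ((t : ℝ) + 1) ≤ n := by
      intro h
      linarith
    rw [phi, if_neg hc, if_neg hc4, e5]
    constructor
    · have h34 : ph3 n (t + 1) ≤ ph4 n (t + 1) + n := by
        set s := √(3 * (n : ℝ) ^ 2 - 2 * n + 4) with hs
        have h5 : s ≤ 22 * (t : ℝ) + 20 - 5 * n := by
          rw [a3, div_lt_iff₀ (by norm_num), ← hs] at h3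
          linarith
        have h7 : s ^ 2 ≤ (22 * (t : ℝ) + 20 - 5 * n) ^ 2 := pow_le_pow_left₀ (by linarith) h5 2
        rw [ph4, ph3]
        nlinarith
      have hmax : max (ph3 n (t + 1)) (ph4 n (t + 1)) ≤ ph4 n (t + 1) + n :=
        max_le h34 (by linarith)
      have h44 : ph4 n (t + 1) - 9 * n ≤ 9 / 2 * ((t : ℝ) + 1) ^ 2 + 3 / 2 * (t + 1) + n - 2 := by
        set s := √(16 * (n : ℝ) - 7) with hs
        have h5 : 2 * (n : ℝ) - 6 * t - 3 ≤ s := by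
          rw [a4, div_lt_iff₀ (by norm_num), ← hs] at h4
          linarith
        have h7 : (2 * (n : ℝ) - 6 * t - 3) ^ 2 ≤ s ^ 2 := pow_le_pow_left₀ (by linarith) h5 2
        rw [ph4]
        nlinarith
      linarith
    · nlinarith [sq_nonneg ((t : ℝ) + 1 - n / 6), mul_nonneg (show (0 : ℝ) ≤ t - 0.3 * n by linarith)
        (show (0 : ℝ) ≤ t by linarith)]

end Pool.Agent.ART
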