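import Pool.Agent.ART.Basic
import Pool.Agent.ART.Targets

set_option autoImplicit false

/-! Anti-Ramsey numbers of vertex-disjoint triangles (MP_e56f3d_co): assembly of the upper
bound. -/

namespace Pool.Agent.ART

open Finset

namespace J26

lemma Cl.le {V : Type} {G G' : SimpleGraph V} {q q' : ℕ} (h : Cl q G G') (hq : q ≤ q') :
    Cl q' G G' := by
  obtain ⟨E, hE, h⟩ := h
  exact ⟨E, hE.trans hq, h⟩

lemma PartI.mono {V : Type} [Fintype V] [DecidableEq V] {G : SimpleGraph V} {k : ℕ} {μ μ' θ : ℝ}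
    {W Y : Finset V} (h : PartI G k μ θ W Y) (hμ : μ ≤ μ') : PartI G k μ' θ W Y := by
  refine ⟨h.dis, h.uni, ?_, h.p2, h.p3, h.p4, ?_⟩
  · exact h.p1.trans (mul_le_mul_of_nonneg_right hμ (by positivity))
  · exact h.p5.trans (mul_le_mul_of_nonneg_right hμ (by positivity))

lemma PartI.card {V : Type} [Fintype V] [DecidableEq V] {G : SimpleGraph V} {k : ℕ} {μ θ : ℝ}
    {W Y : Finset V} (h : PartI G k μ θ W Y) : W.card + Y.card = Fintype.card V := by
  rw [← card_union_of_disjoint h.dis, h.uni, card_univ]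

/-- no rainbow triangle with two vertices in `L` if `|H| = 3k+1` -/
lemma noRb (hSw : tSwM) (hCov : tCover) {V : Type} [Fintype V] [DecidableEq V]
    (c : Sym2 V → ℕ) (G : SimpleGraph V) (k J : ℕ) (H L : Finset V) (hG : Rep c univ G)
    (hR : ¬ HasR c univ (k + 1)) (hS : S4 G k J H L) (hH : 3 * k + 1 ≤ H.card) :
    ∀ x ∈ L, ∀ y ∈ L, ∀ z, x ≠ y → y ≠ z → x ≠ z →
      c s(x, y) = c s(y, z) ∨ c s(x, y) = c s(x, z) ∨ c s(y, z) = c s(x, z) := by
  intro x hx y hy z hxy hyz hxz
  by_contra hcon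
  push Not at hcon
  obtain ⟨h1, h2, h3⟩ := hcon
  obtain ⟨G', hG', hCl, hP, -, -⟩ := hSw V c G {s(x, y), s(y, z), s(x, z)} hG
    (by
      intro e he
      simp only [mem_insert, mem_singleton] at he
      rcases he with rfl | rfl | rfl
      · simpa using hxy
      · simpa using hyz
      · simpa using hxz)
    (by
      intro e he f hf hef
      simp only [mem_insert, mem_singleton] at he hf
      rcases he with rfl | rfl | rfl <;> rcases hf with rfl | rfl | rfl
      · rfl
      · exact absurd hef h1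
      · exact absurd hef h2
      · exact absurd hef.symm h1
      · rfl
      · exact absurd hef h3
      · exact absurd hef.symm h2
      · exact absurd hef.symm h3
      · rfl)
  have hT : Tri G' x y z := by
    refine ⟨?_, ?_, ?_⟩
    · have := hP s(x, y) (by simp); simpa using this
    · have := hP s(y, z) (by simp); simpa using this
    · have := hP s(x, z) (by simp); simpa using this
  have hTF : TF G' univ {({x, y, z} : Finset V)} := by
    refine ⟨fun t _ => subset_univ _, ?_, ?_⟩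
    · intro t ht
      rw [mem_singleton] at ht
      rw [ht]; exact hT.clique
    · intro t ht t' ht' hne
      rw [mem_singleton] at ht ht'
      exact absurd (ht.trans ht'.symm) hne
  have hc3 : ({s(x, y), s(y, z), s(x, z)} : Finset (Sym2 V)).card ≤ 3 := card_le_three
  have := hCov V c G G' k J H L {({x, y, z} : Finset V)} hR hS hG'
    (Cl.le hCl (hc3.trans (by norm_num))) hTF (by simp; omega)
  have hsub : ({x, y} : Finset V) ⊆ vT {({x, y, z} : Finset V)} ∩ L := by
    intro v hv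
    simp only [mem_insert, mem_singleton] at hv
    rw [mem_inter, mem_vT]
    rcases hv with rfl | rfl
    · exact ⟨⟨_, mem_singleton_self _, by simp⟩, hx⟩
    · exact ⟨⟨_, mem_singleton_self _, by simp⟩, hy⟩
  have hcard := card_le_card hsub
  rw [card_pair hxy] at hcard
  omega

end J26

open J26 in
theorem pUpper (h4 : tPhi) (hst : tStab) (hRX : tRepEx) (hRE : tRepE) (hP : tPart) (hi : tDIi)
    (hii : tDIii) (hS4 : tS4) (ha : tD4a) (hb : tD4b) (hc : tD4c) (hA : tNumA) (hB : tNumB)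
    (hC : tNumC) (hSw : tSwM) (hCov : tCover) : tUpper := by
  obtain ⟨D, NA, hA⟩ := hA
  obtain ⟨NB, hB⟩ := hB
  obtain ⟨NC, hC⟩ := hC
  obtain ⟨η, θ₀, hη, hθ₀, hii⟩ := hii
  obtain ⟨θ₁, hθ₁, hi⟩ := hi η hη
  have hθpos : 0 < min (min θ₀ θ₁) (1 / 1000) := by positivity
  obtain ⟨θ, hθ, hθ0, hθ1, hθ2⟩ : ∃ θ : ℝ, 0 < θ ∧ θ ≤ θ₀ ∧ θ ≤ θ₁ ∧ θ ≤ 1 / 1000 :=
    ⟨min (min θ₀ θ₁) (1 / 1000), hθpos, (min_le_left _ _).trans (min_le_left _ _),
      (min_le_left _ _).trans (min_le_right _ _), min_le_right _ _⟩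
  obtain ⟨μ₁, hμ₁, N₁, hi⟩ := hi θ hθ hθ1
  obtain ⟨μ₂, hμ₂, N₂, hii⟩ := hii θ hθ hθ0
  obtain ⟨η₃, hη₃, N₃, hP⟩ := hP θ (min μ₁ μ₂) hθ hθ2 (lt_min hμ₁ hμ₂)
  obtain ⟨J, N₄, hst⟩ := hst (2 * D) η₃ hη₃
  obtain ⟨J', N₅, hS4⟩ := hS4 (2 * D) J
  obtain ⟨N₆, ha⟩ := ha J'
  obtain ⟨N₇, hb⟩ := hb J'
  obtain ⟨N₈, hc⟩ := hc J'
  refine ⟨NA + NB + NC + N₁ + N₂ + N₃ + N₄ + N₅ + N₆ + N₇ + N₈ + 100, ?_⟩
  intro V _ _ c t hn ht hcol
  by_contra hR
  set n := Fintype.card V with hndef
  obtain ⟨G, hG, -⟩ := hRX V c univ ∅ ⟨by simp, by simp, by simp, by simp⟩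
  obtain ⟨he2, -, hTR, -⟩ := hRE V c univ G hG
  have hnT : ¬ HasT G univ (t + 1 + 1) := by
    rintro ⟨T, hT, hTc⟩
    exact hR ⟨T, hTR T hT, hTc⟩
  obtain ⟨hA1, hA2⟩ := hA n t (by omega) ht
  have hcolR : (Xi n t : ℝ) + 2 ≤ (cols c univ).card := by exact_mod_cast hcol
  have hq : (n : ℝ) ^ 2 / 4 - n ≤ (cols c univ).card := by linarith
  have he2R : (e2 G univ : ℝ) = 2 * (cols c univ).card := by rw [he2]; push_cast; ring
  have hphi : 2 * phi n ((t + 1 : ℕ) : ℝ) - 2 * D * n ≤ e2 G univ := by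
    rw [he2R]; push_cast; linarith
  have hnR : (100 : ℝ) ≤ n := by exact_mod_cast (by omega : 100 ≤ n)
  rcases hst V G (t + 1) (by omega) (by omega) hnT hphi with ⟨hk, hN⟩ | ⟨hk, A, L, hAJ, hPre⟩
  · obtain ⟨W, Y, hPart⟩ := hP V G (t + 1) (by omega) hN
    have hWY := PartI.card hPart
    have hY : Y.card = n - W.card := by omega
    have hWn : W.card ≤ n := by omega
    obtain ⟨hB1, hB2⟩ := hB n t W.card (by omega) ht (by
      have : ((t + 1 : ℕ) : ℝ) ≤ 0.3073 * n := hk
      linarith)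
    rcases le_or_gt (2 * ((t + 1 : ℕ) : ℝ) + η * n) W.card with hW | hW
    · have h1 := hi V c G (t + 1) W Y (by omega) (by omega) hG hR
        (PartI.mono hPart (min_le_left _ _)) hq hW
      have hW' : 2 * (t + 1) + 1 ≤ W.card := by
        have h2 : 0 < η * n := by positivity
        have h3 : ((2 * (t + 1) : ℕ) : ℝ) < W.card := by push_cast at hW ⊢; linarith
        have h4 : 2 * (t + 1) < W.card := by exact_mod_cast h3
        omega
      have h2 := hB2 hW' hWn
      rw [hY] at h1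
      simp only [Nat.add_sub_cancel] at h1
      omega
    · have h1 := hii V c G (t + 1) W Y (by omega) (by omega) hG hR
        (PartI.mono hPart (min_le_right _ _)) hq (by
          have : ((t + 1 : ℕ) : ℝ) ≤ 0.3073 * n := hk
          linarith) hW
      rcases h1 with h1 | ⟨hW', h1⟩
      · rw [← hndef] at h1
        omega
      · have h2 := hB2 hW' hWn
        have h3 : (2 * (t + 1) - 1).choose 2 ≤ EG W.card t := by
          have : 2 * (t + 1) - 1 = 2 * t + 1 := by omega
          rw [this]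
          exact le_max_left _ _
        rw [hY] at h1
        omega
  · have hkR : (1 : ℝ) ≤ ((t + 1 : ℕ) : ℝ) := by exact_mod_cast (by omega : 1 ≤ t + 1)
    have h3k : 3 * ((t + 1 : ℕ) : ℝ) ≤ n := by exact_mod_cast (by omega : 3 * (t + 1) ≤ n)
    have hph := h4 n ((t + 1 : ℕ) : ℝ) hnR hkR h3k
    have hph4 : ph4 n ((t + 1 : ℕ) : ℝ) ≤ phi n ((t + 1 : ℕ) : ℝ) := by
      obtain ⟨-, -, -, -, -, -, -, -, -, h10, -, -⟩ := hph
      refine h10 ?_
      have : 0.305 * (n : ℝ) ≤ ((t + 1 : ℕ) : ℝ) := hk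
      linarith
    obtain ⟨H, Λ, hS⟩ := hS4 V G A L (t + 1) (by omega) (by omega) hk hAJ hPre (by
      linarith)
    obtain ⟨ha1, ha2, ha3⟩ := ha V c G (t + 1) H Λ (by omega) (by omega) (by omega) hG hR hS
    obtain ⟨hC1, hC2⟩ := hC n t (by omega) ht hk
    simp only [Nat.add_sub_cancel] at ha2 ha3
    rw [← hndef] at ha2 ha3
    rcases Nat.lt_or_ge H.card (3 * (t + 1)) with h | h
    · have := hc V c G (t + 1) H Λ (by omega) hk (by omega) hG hR hS (by omega)
      simp only [Nat.add_sub_cancel] at this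
      rw [← hndef] at this
      omega
    · rcases Nat.eq_or_lt_of_le h with h | h
      · have := hb V c G (t + 1) H Λ (by omega) hk (by omega) hG hR hS h.symm
        simp only [Nat.add_sub_cancel] at this
        rw [← hndef] at this
        have h5 : max (X4 n t) (X5 n t) ≤ Xi n t := max_le hC1 hC2
        omega
      · rcases Nat.lt_or_ge H.card (3 * (t + 1) + 2) with h' | h'
        · have := ha3 (noRb hSw hCov c G (t + 1) J' H Λ hG hR hS (by omega))
          omega
        · have := ha2 (by omega)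
          omega

end Pool.Agent.ART
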