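import Pool.Agent.ART.Basic
import Pool.Agent.ART.Targets

set_option autoImplicit false

/-! Anti-Ramsey numbers of vertex-disjoint triangles (MP_e56f3d_co): J27, the lower bound. -/

namespace Pool.Agent.ART

open Finset

namespace J27

lemma two_choose (n : ℕ) : 2 * n.choose 2 = n * (n - 1) := by
  rw [Nat.choose_two_right, Nat.mul_div_cancel' (Nat.even_mul_pred_self n).two_dvd]

lemma half_mul (n : ℕ) : (n / 2) * (n - n / 2) = n ^ 2 / 4 := by
  rcases Nat.even_or_odd' n with ⟨q, rfl | rfl⟩
  · rw [show 2 * q / 2 = q by omega, show 2 * q - q = q by omega,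
      show (2 * q) ^ 2 = 4 * (q * q) by ring, Nat.mul_div_cancel_left _ (by norm_num)]
  · rw [show (2 * q + 1) / 2 = q by omega, show 2 * q + 1 - q = q + 1 by omega]
    have : (2 * q + 1) ^ 2 = 4 * (q * (q + 1)) + 1 := by ring
    rw [this]
    omega

variable {n : ℕ}

/-- disjoint sets meet `S` in at most `|S|` elements -/
lemma sum_inter_le (T : Finset (Finset (Fin n))) (S : Finset (Fin n))
    (hd : ∀ t ∈ T, ∀ t' ∈ T, t ≠ t' → Disjoint t t') :
    ∑ t ∈ T, (t ∩ S).card ≤ S.card := by
  rw [← card_biUnion]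
  · apply card_le_card
    intro x hx
    rw [mem_biUnion] at hx
    obtain ⟨t, -, hx⟩ := hx
    exact (mem_inter.mp hx).2
  · intro t ht t' ht' hne
    exact (hd t ht t' ht' hne).mono inter_subset_left inter_subset_left

/-- counting with at most one pair of colour zero -/
lemma no_family (c : Sym2 (Fin n) → ℕ) (T : Finset (Finset (Fin n))) (hT : RF c univ T)
    (S : Finset (Fin n)) (a b t : ℕ) (hab : b ≤ a)
    (h1 : ∀ x y z, x ≠ y → y ≠ z → x ≠ z → c s(x, y) ≠ 0 → c s(y, z) ≠ 0 → c s(x, z) ≠ 0 →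
      a ≤ (({x, y, z} : Finset (Fin n)) ∩ S).card)
    (h2 : ∀ x y z, x ≠ y → y ≠ z → x ≠ z →
      ((c s(x, y) ≠ 0 ∧ c s(y, z) ≠ 0) ∨ (c s(x, y) ≠ 0 ∧ c s(x, z) ≠ 0) ∨
        (c s(y, z) ≠ 0 ∧ c s(x, z) ≠ 0)) →
      b ≤ (({x, y, z} : Finset (Fin n)) ∩ S).card)
    (hS : S.card < a * (t + 1) + b) : T.card ≠ t + 2 := by
  intro hcard
  have hsum := sum_inter_le T S hT.dis
  have hb : ∀ u ∈ T, b ≤ (u ∩ S).card := by
    intro u hu
    obtain ⟨x, y, z, hxy, hxz, hyz, rfl⟩ := card_eq_three.mp (hT.crd u hu)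
    apply h2 x y z hxy hyz hxz
    have hx : x ∈ ({x, y, z} : Finset (Fin n)) := by simp
    have hy : y ∈ ({x, y, z} : Finset (Fin n)) := by simp
    have hz : z ∈ ({x, y, z} : Finset (Fin n)) := by simp
    have e1 : c s(x, y) ≠ c s(y, z) := by
      intro h
      have := hT.rbw _ hu _ hu x hx y hy y hy z hz hxy hyz h
      rw [Sym2.eq_iff] at this
      rcases this with ⟨h, -⟩ | ⟨h, -⟩
      · exact hxy h
      · exact hxz h
    have e2 : c s(x, y) ≠ c s(x, z) := by
      intro h
      have := hT.rbw _ hu _ hu x hx y hy x hx z hz hxy hxz h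
      rw [Sym2.eq_iff] at this
      rcases this with ⟨-, h⟩ | ⟨h, -⟩
      · exact hyz h
      · exact hxz h
    have e3 : c s(y, z) ≠ c s(x, z) := by
      intro h
      have := hT.rbw _ hu _ hu y hy z hz x hx z hz hyz hxz h
      rw [Sym2.eq_iff] at this
      rcases this with ⟨h, -⟩ | ⟨h, -⟩
      · exact hxy h.symm
      · exact hyz h
    by_cases k1 : c s(x, y) = 0
    · right; right
      exact ⟨fun h => e1 (by rw [k1, h]), fun h => e2 (by rw [k1, h])⟩
    · by_cases k2 : c s(y, z) = 0
      · right; left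
        exact ⟨k1, fun h => e3 (by rw [k2, h])⟩
      · left
        exact ⟨k1, k2⟩
  have ha : ∀ u ∈ T, (¬ ∃ x ∈ u, ∃ y ∈ u, x ≠ y ∧ c s(x, y) = 0) → a ≤ (u ∩ S).card := by
    intro u hu hbad
    obtain ⟨x, y, z, hxy, hxz, hyz, rfl⟩ := card_eq_three.mp (hT.crd u hu)
    have hx : x ∈ ({x, y, z} : Finset (Fin n)) := by simp
    have hy : y ∈ ({x, y, z} : Finset (Fin n)) := by simp
    have hz : z ∈ ({x, y, z} : Finset (Fin n)) := by simp
    exact h1 x y z hxy hyz hxz (fun h => hbad ⟨x, hx, y, hy, hxy, h⟩)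
      (fun h => hbad ⟨y, hy, z, hz, hyz, h⟩) (fun h => hbad ⟨x, hx, z, hz, hxz, h⟩)
  by_cases hex : ∃ u ∈ T, ∃ x ∈ u, ∃ y ∈ u, x ≠ y ∧ c s(x, y) = 0
  · obtain ⟨u, hu, x, hx, y, hy, hxy, h0⟩ := hex
    have hrest : ∀ v ∈ T.erase u, a ≤ (v ∩ S).card := by
      intro v hv
      apply ha v (mem_of_mem_erase hv)
      rintro ⟨x', hx', y', hy', hxy', h0'⟩
      have := hT.rbw u hu v (mem_of_mem_erase hv) x hx y hy x' hx' y' hy' hxy hxy'
        (by rw [h0, h0'])
      have hx2 : x ∈ v := by
        rw [Sym2.eq_iff] at this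
        rcases this with ⟨h, -⟩ | ⟨h, -⟩
        · rw [h]; exact hx'
        · rw [h]; exact hy'
      exact (disjoint_left.mp (hT.dis u hu v (mem_of_mem_erase hv) (ne_of_mem_erase hv).symm)
        hx) hx2
    have h3 := sum_le_sum hrest
    rw [sum_const, card_erase_of_mem hu, hcard, smul_eq_mul] at h3
    rw [← add_sum_erase T _ hu] at hsum
    have h4 := hb u hu
    have h5 : (t + 2 - 1) * a = a * (t + 1) := by
      rw [show t + 2 - 1 = t + 1 by omega]
      ring
    omega
  · have hrest : ∀ v ∈ T, a ≤ (v ∩ S).card := by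
      intro v hv
      apply ha v hv
      intro h
      exact hex ⟨v, hv, h⟩
    have h3 := sum_le_sum hrest
    rw [sum_const, hcard, smul_eq_mul] at h3
    have h5 : (t + 2) * a = a * (t + 1) + a := by ring
    omega

/-- numbering of the pairs -/
noncomputable def idx (e : Sym2 (Fin n)) : ℕ := (Fintype.equivFin (Sym2 (Fin n)) e : ℕ)

lemma idx_inj {e f : Sym2 (Fin n)} (h : idx e = idx f) : e = f :=
  (Fintype.equivFin (Sym2 (Fin n))).injective (Fin.ext h)

/-- the graph defined by classes -/
def clG (p : Fin n → Fin 3) (r : Fin 3 → Fin 3 → Bool) (hr : ∀ i j, r i j = r j i) :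
    SimpleGraph (Fin n) where
  Adj u v := u ≠ v ∧ r (p u) (p v) = true
  symm := ⟨fun u v h => ⟨h.1.symm, by rw [hr]; exact h.2⟩⟩
  loopless := ⟨fun _ h => h.1 rfl⟩

open Classical in
/-- edges get different colours, other pairs the colour zero -/
noncomputable def colG (G : SimpleGraph (Fin n)) (e : Sym2 (Fin n)) : ℕ :=
  if e ∈ G.edgeSet then idx e + 1 else 0

lemma colG_ne {G : SimpleGraph (Fin n)} {x y : Fin n} (h : colG G s(x, y) ≠ 0) : G.Adj x y := by
  unfold colG at h
  split_ifs at h with h1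
  · exact h1
  · exact absurd rfl h

open Classical in
lemma card_cols_colG (G : SimpleGraph (Fin n)) (hne : ∃ x y, x ≠ y ∧ ¬ G.Adj x y) :
    (cols (colG G) univ).card = G.edgeFinset.card + 1 := by
  have h1 : cols (colG G) univ = insert 0 (G.edgeFinset.image (fun e => idx e + 1)) := by
    ext k
    unfold cols
    rw [mem_image, mem_insert, mem_image]
    constructor
    · rintro ⟨⟨x, y⟩, hp, hk⟩
      simp only at hk
      by_cases h : s(x, y) ∈ G.edgeSet
      · right
        refine ⟨s(x, y), SimpleGraph.mem_edgeFinset.mpr h, ?_⟩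
        rw [← hk, colG, if_pos h]
      · left
        rw [← hk, colG, if_neg h]
    · rintro (rfl | ⟨e, he, rfl⟩)
      · obtain ⟨x, y, hxy, hG⟩ := hne
        refine ⟨(x, y), by simp [hxy], ?_⟩
        simp only
        rw [colG, if_neg]
        exact hG
      · induction e with
        | _ x y =>
          rw [SimpleGraph.mem_edgeFinset] at he
          have he' : G.Adj x y := he
          refine ⟨(x, y), by simp [he'.ne], ?_⟩
          simp only
          rw [colG, if_pos he]
  rw [h1, card_insert_of_notMem, card_image_of_injective]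
  · intro e f h
    exact idx_inj (by simpa using h)
  · simp

lemma sum_class (p : Fin n → Fin 3) (F : Fin 3 → ℕ) :
    ∑ v, F (p v) = ∑ i, (univ.filter (fun v => p v = i)).card * F i := by
  rw [← sum_fiberwise univ p]
  apply sum_congr rfl
  intro i _
  rw [sum_congr rfl (g := fun _ => F i)]
  · rw [sum_const, smul_eq_mul]
  · intro v hv
    rw [(mem_filter.mp hv).2]

open Classical in
lemma card_clG (p : Fin n → Fin 3) (r : Fin 3 → Fin 3 → Bool) (hr : ∀ i j, r i j = r j i)
    (N : Fin 3 → ℕ) (hN : ∀ i, (univ.filter (fun v => p v = i)).card = N i) :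
    2 * (clG p r hr).edgeFinset.card + ∑ i, N i * (if r i i then 1 else 0) =
      ∑ i, N i * ∑ j, N j * (if r i j then 1 else 0) := by
  rw [← SimpleGraph.sum_degrees_eq_twice_card_edges]
  have h1 : ∑ i, N i * (if r i i then 1 else 0) = ∑ v : Fin n, (if r (p v) (p v) then 1 else 0) := by
    rw [sum_class p (fun i => if r i i then 1 else 0)]
    simp only [hN]
  have h2 : ∑ i, N i * ∑ j, N j * (if r i j then 1 else 0) =
      ∑ u : Fin n, ∑ v : Fin n, (if r (p u) (p v) then 1 else 0) := by
    have h3 : ∀ u : Fin n, ∑ v : Fin n, (if r (p u) (p v) then 1 else 0) =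
        ∑ j, N j * (if r (p u) j then 1 else 0) := by
      intro u
      rw [sum_class p (fun j => if r (p u) j then 1 else 0)]
      simp only [hN]
    simp only [h3]
    rw [sum_class p (fun i => ∑ j, N j * (if r i j then 1 else 0))]
    simp only [hN]
  rw [h1, h2, ← sum_add_distrib]
  apply sum_congr rfl
  intro u _
  rw [← add_sum_erase univ (fun v => if r (p u) (p v) then 1 else 0) (mem_univ u), add_comm]
  congr 1
  rw [← SimpleGraph.card_neighborFinset_eq_degree, card_eq_sum_ones, ← sum_filter]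
  apply sum_congr _ (fun _ _ => rfl)
  ext v
  rw [SimpleGraph.mem_neighborFinset, mem_filter, mem_erase]
  constructor
  · intro h
    exact ⟨⟨fun h' => h.1 h'.symm, mem_univ _⟩, h.2⟩
  · intro h
    exact ⟨fun h' => h.1.1 h'.symm, h.2⟩

lemma exists_class (N : Fin 3 → ℕ) (hN : N 0 + N 1 + N 2 = n) :
    ∃ p : Fin n → Fin 3, ∀ i, (univ.filter (fun v => p v = i)).card = N i := by
  obtain ⟨U, -, hU⟩ := exists_subset_card_eq (s := (univ : Finset (Fin n))) (n := N 0)
    (by rw [card_univ, Fintype.card_fin]; omega)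
  obtain ⟨A, hA, hA2⟩ := exists_subset_card_eq (s := Uᶜ) (n := N 1)
    (by rw [card_compl, Fintype.card_fin]; omega)
  have hdis : Disjoint U A := by
    rw [disjoint_left]
    intro x hx hx2
    exact (mem_compl.mp (hA hx2)) hx
  refine ⟨fun v => if v ∈ U then 0 else if v ∈ A then 1 else 2, fun i => ?_⟩
  fin_cases i
  · show _ = N 0
    rw [← hU]
    congr 1
    ext v
    by_cases h1 : v ∈ U
    · simp [h1]
    · by_cases h2 : v ∈ A <;> simp [h1, h2]
  · show _ = N 1
    rw [← hA2]
    congr 1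
    ext v
    by_cases h1 : v ∈ U
    · have h2 : v ∉ A := disjoint_left.mp hdis h1
      simp [h1, h2]
    · by_cases h2 : v ∈ A <;> simp [h1, h2]
  · show _ = N 2
    have h3 : (U ∪ A)ᶜ.card = N 2 := by
      rw [card_compl, Fintype.card_fin, card_union_of_disjoint hdis]
      omega
    rw [← h3]
    congr 1
    ext v
    by_cases h1 : v ∈ U
    · simp [h1]
    · by_cases h2 : v ∈ A <;> simp [h1, h2]

lemma card_triple (p : Fin n → Fin 3) (s : Fin 3 → Bool) {x y z : Fin n} (hxy : x ≠ y)
    (hyz : y ≠ z) (hxz : x ≠ z) :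
    (({x, y, z} : Finset (Fin n)) ∩ univ.filter (fun v => s (p v) = true)).card =
      (s (p x)).toNat + (s (p y)).toNat + (s (p z)).toNat := by
  have h1 : (({x, y, z} : Finset (Fin n)) ∩ univ.filter (fun v => s (p v) = true)) =
      ({x, y, z} : Finset (Fin n)).filter (fun v => s (p v) = true) := by
    ext v
    simp
  rw [h1, card_filter, sum_insert (by simp [hxy, hxz]), sum_insert (by simp [hyz]),
    sum_singleton]
  have h2 : ∀ v : Fin n, (if s (p v) = true then 1 else 0) = (s (p v)).toNat := by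
    intro v
    cases s (p v) <;> rfl
  rw [h2, h2, h2, add_assoc]

/-- the general construction -/
lemma lowerG (t : ℕ) (N : Fin 3 → ℕ) (hN : N 0 + N 1 + N 2 = n) (r : Fin 3 → Fin 3 → Bool)
    (hr : ∀ i j, r i j = r j i) (s : Fin 3 → Bool) (a b : ℕ) (hab : b ≤ a)
    (h1 : ∀ i j k, r i j = true → r j k = true → r i k = true →
      a ≤ (s i).toNat + (s j).toNat + (s k).toNat)
    (h2 : ∀ i j k, ((r i j = true ∧ r j k = true) ∨ (r i j = true ∧ r i k = true) ∨
      (r j k = true ∧ r i k = true)) → b ≤ (s i).toNat + (s j).toNat + (s k).toNat)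
    (hS : ∑ i, N i * (s i).toNat < a * (t + 1) + b)
    (hne : ∃ i, 2 ≤ N i ∧ r i i = false) (E : ℕ)
    (hE : 2 * E + ∑ i, N i * (if r i i then 1 else 0) =
      ∑ i, N i * ∑ j, N j * (if r i j then 1 else 0)) :
    ∃ c : Sym2 (Fin n) → ℕ, (cols c univ).card = E + 1 ∧ ¬ HasR c univ (t + 2) := by
  classical
  obtain ⟨p, hp⟩ := exists_class N hN
  refine ⟨colG (clG p r hr), ?_, ?_⟩
  · rw [card_cols_colG]
    · have := card_clG p r hr N hp
      omega
    · obtain ⟨i, hi, hri⟩ := hne
      rw [← hp i] at hi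
      obtain ⟨x, hx, y, hy, hxy⟩ := one_lt_card.mp hi
      refine ⟨x, y, hxy, fun h => ?_⟩
      have h3 := h.2
      rw [(mem_filter.mp hx).2, (mem_filter.mp hy).2, hri] at h3
      exact absurd h3 (by simp)
  · rintro ⟨T, hT, hcard⟩
    refine no_family _ T hT (univ.filter (fun v => s (p v) = true)) a b t hab ?_ ?_ ?_ hcard
    · intro x y z hxy hyz hxz e1 e2 e3
      rw [card_triple p s hxy hyz hxz]
      exact h1 _ _ _ (colG_ne e1).2 (colG_ne e2).2 (colG_ne e3).2
    · intro x y z hxy hyz hxz e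
      rw [card_triple p s hxy hyz hxz]
      apply h2
      rcases e with ⟨e1, e2⟩ | ⟨e1, e2⟩ | ⟨e1, e2⟩
      · exact Or.inl ⟨(colG_ne e1).2, (colG_ne e2).2⟩
      · exact Or.inr (Or.inl ⟨(colG_ne e1).2, (colG_ne e2).2⟩)
      · exact Or.inr (Or.inr ⟨(colG_ne e1).2, (colG_ne e2).2⟩)
    · have h3 : (univ.filter (fun v => s (p v) = true)).card = ∑ i, N i * (s i).toNat := by
        rw [card_filter]
        have h4 : ∀ v : Fin n, (if s (p v) = true then 1 else 0) = (s (p v)).toNat := by
          intro v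
          cases s (p v) <;> rfl
        simp only [h4]
        rw [sum_class p (fun i => (s i).toNat)]
        simp only [hp]
      rw [h3]
      exact hS

lemma case1 {n t : ℕ} (h : t + 3 ≤ n) :
    ∃ c : Sym2 (Fin n) → ℕ, (cols c univ).card = X1 n t + 1 ∧ ¬ HasR c univ (t + 2) := by
  have hq := half_mul (n - t)
  obtain ⟨q, hq1⟩ : ∃ q, (n - t) / 2 = q := ⟨_, rfl⟩
  obtain ⟨q', hq2⟩ : ∃ q', (n - t) - (n - t) / 2 = q' := ⟨_, rfl⟩
  have hsum : q + q' = n - t := by omega
  have hq3 : 2 ≤ q' := by omega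
  apply lowerG t ![t, q, q'] (by simp; omega)
    (fun i j => decide (i = 0) || decide (j = 0) || decide (i ≠ j)) (by decide)
    (fun i => decide (i = 0)) 1 0 (by norm_num) (by decide) (fun _ _ _ _ => Nat.zero_le _)
  · simp [Fin.sum_univ_three]
  · exact ⟨2, by simpa using hq3, by decide⟩
  · have h1 := two_choose t
    have h2 : t * (t - 1) + t = t * t := by
      rcases Nat.eq_zero_or_pos t with rfl | ht
      · simp
      · rw [← Nat.mul_add_one, Nat.sub_add_cancel ht]
    rw [X1, ← hq, hq2, hq1, ← hsum]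
    simp [Fin.sum_univ_three]
    nlinarith

lemma case2 {n t : ℕ} (h : 2 * t + 1 ≤ n / 2) (hn : 3 ≤ n) :
    ∃ c : Sym2 (Fin n) → ℕ, (cols c univ).card = X2 n t + 1 ∧ ¬ HasR c univ (t + 2) := by
  have hq := half_mul n
  obtain ⟨d, hd⟩ := Nat.exists_eq_add_of_le h
  obtain ⟨q', hq2⟩ : ∃ q', n - n / 2 = q' := ⟨_, rfl⟩
  have hq3 : 2 ≤ q' := by omega
  apply lowerG t ![2 * t + 1, d, q'] (by simp; omega)
    (fun i j => (decide (i = 0) && decide (j = 0)) || (xor (decide (i = 2)) (decide (j = 2))))
    (by decide) (fun i => decide (i = 0)) 2 0 (by norm_num) (by decide)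
    (fun _ _ _ _ => Nat.zero_le _)
  · simp [Fin.sum_univ_three]
    omega
  · exact ⟨2, by simpa using hq3, by decide⟩
  · have h1 := two_choose (2 * t + 1)
    rw [X2, ← hq, hq2, hd]
    simp [Fin.sum_univ_three] at h1 ⊢
    nlinarith

lemma case3 {n t : ℕ} (h : 3 * t + 6 ≤ n) :
    ∃ c : Sym2 (Fin n) → ℕ, (cols c univ).card = X3 n t + 1 ∧ ¬ HasR c univ (t + 2) := by
  obtain ⟨d, hd⟩ : ∃ d, n - 2 * t - 2 = d := ⟨_, rfl⟩
  have hq3 : 2 ≤ d := by omega
  apply lowerG t ![2 * t + 2, d, 0] (by simp; omega)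
    (fun i j => decide (i = 0) || decide (j = 0))
    (by decide) (fun i => decide (i = 0)) 2 1 (by norm_num) (by decide) (by decide)
  · simp [Fin.sum_univ_three]
    omega
  · exact ⟨1, by simpa using hq3, by decide⟩
  · rw [X3, hd]
    simp [Fin.sum_univ_three]
    nlinarith

lemma case4 {n t : ℕ} (h : 3 * t + 6 ≤ n) (h' : n ≤ 6 * t + 6) :
    ∃ c : Sym2 (Fin n) → ℕ, (cols c univ).card = X4 n t + 1 ∧ ¬ HasR c univ (t + 2) := by
  obtain ⟨d, hd⟩ : ∃ d, n - 3 * t - 3 = d := ⟨_, rfl⟩
  obtain ⟨x, hx⟩ : ∃ x, 6 * t + 6 - n = x := ⟨_, rfl⟩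
  have hq3 : 2 ≤ d := by omega
  have hxd : x + d = 3 * t + 3 := by omega
  apply lowerG t ![x, d, d] (by simp; omega)
    (fun i j => (decide (i = 0) && decide (j = 0)) || (xor (decide (i = 1)) (decide (j = 1))))
    (by decide) (fun i => decide (i ≠ 2)) 3 1 (by norm_num) (by decide) (by decide)
  · simp [Fin.sum_univ_three]
    omega
  · exact ⟨2, by simpa using hq3, by decide⟩
  · have h1 := two_choose x
    have h2 : x * (x - 1) + x = x * x := by
      rcases Nat.eq_zero_or_pos x with rfl | ht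
      · simp
      · rw [← Nat.mul_add_one, Nat.sub_add_cancel ht]
    rw [X4, hd, hx, ← hxd]
    simp [Fin.sum_univ_three]
    nlinarith

/-- the larger end of a pair -/
def mx : Sym2 (Fin n) → ℕ :=
  Sym2.lift ⟨fun x y => max x.val y.val, fun _ _ => max_comm _ _⟩

lemma mx_mk (x y : Fin n) : mx s(x, y) = max x.val y.val := rfl

/-- the colouring of the last construction -/
noncomputable def col5 (h : ℕ) (e : Sym2 (Fin n)) : ℕ := if mx e < h then n + idx e else mx e

lemma case5 {n t : ℕ} (h : 3 * t + 6 ≤ n) :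
    ∃ c : Sym2 (Fin n) → ℕ, (cols c univ).card = X5 n t + 1 ∧ ¬ HasR c univ (t + 2) := by
  classical
  refine ⟨col5 (3 * t + 5), ?_, ?_⟩
  · have h1 : cols (col5 (n := n) (3 * t + 5)) univ = Ico (3 * t + 5) n ∪
        (((univ.filter (fun v : Fin n => v.val < 3 * t + 5)).offDiag.image
          Sym2.mk.uncurry).image (fun e => n + idx e)) := by
      ext k
      unfold cols
      rw [mem_image, mem_union, mem_image, mem_Ico]
      constructor
      · rintro ⟨⟨x, y⟩, hp, hk⟩
        rw [mem_offDiag] at hp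
        simp only at hk hp
        by_cases hm : mx s(x, y) < 3 * t + 5
        · right
          refine ⟨s(x, y), ?_, ?_⟩
          · rw [mem_image]
            refine ⟨(x, y), ?_, rfl⟩
            rw [mx_mk, max_lt_iff] at hm
            simp [hm.1, hm.2, hp.2.2]
          · rw [← hk, col5, if_pos hm]
        · left
          rw [← hk, col5, if_neg hm]
          refine ⟨not_lt.mp hm, ?_⟩
          rw [mx_mk]
          exact max_lt x.isLt y.isLt
      · rintro (⟨h1, h2⟩ | ⟨e, he, rfl⟩)
        · refine ⟨(⟨0, by omega⟩, ⟨k, h2⟩), ?_, ?_⟩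
          · rw [mem_offDiag]
            refine ⟨mem_univ _, mem_univ _, ?_⟩
            intro h3
            have := congrArg Fin.val h3
            simp only at this
            omega
          · simp only
            rw [col5, mx_mk, if_neg (by simp; omega)]
            simp
        · rw [mem_image] at he
          obtain ⟨⟨x, y⟩, hp, rfl⟩ := he
          rw [mem_offDiag, mem_filter, mem_filter] at hp
          simp only at hp
          refine ⟨(x, y), ?_, ?_⟩
          · rw [mem_offDiag]
            exact ⟨mem_univ _, mem_univ _, hp.2.2⟩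
          · simp only
            rw [col5, if_pos]
            · rfl
            · rw [mx_mk]
              exact max_lt hp.1.2 hp.2.1.2
    have h2 : Disjoint (Ico (3 * t + 5) n)
        (((univ.filter (fun v : Fin n => v.val < 3 * t + 5)).offDiag.image
          Sym2.mk.uncurry).image (fun e => n + idx e)) := by
      rw [disjoint_left]
      intro k hk hk2
      rw [mem_image] at hk2
      obtain ⟨e, -, rfl⟩ := hk2
      rw [mem_Ico] at hk
      omega
    rw [h1, card_union_of_disjoint h2, Nat.card_Ico, card_image_of_injective _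
      (fun e f hef => idx_inj (by simpa using hef)), Sym2.card_image_offDiag]
    have h3 : (univ.filter (fun v : Fin n => v.val < 3 * t + 5)).card = 3 * t + 5 := by
      have := Fin.card_filter_val_lt (n := n) (m := 3 * t + 5)
      rw [this]
      omega
    rw [h3, X5]
    omega
  · rintro ⟨T, hT, hcard⟩
    have h1 : vT T ⊆ univ.filter (fun v : Fin n => v.val < 3 * t + 5) := by
      intro v hv
      rw [mem_vT] at hv
      obtain ⟨u, hu, hvu⟩ := hv
      obtain ⟨m, hm, hmax⟩ := exists_max_image u (fun v => v.val) ⟨v, hvu⟩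
      by_contra hcon
      have hv2 : 3 * t + 5 ≤ v.val := by
        by_contra h2
        exact hcon (by simp; omega)
      have hm2 : 3 * t + 5 ≤ m.val := le_trans hv2 (hmax v hvu)
      have hcu : 2 ≤ (u.erase m).card := by
        rw [card_erase_of_mem hm, hT.crd u hu]
      obtain ⟨x, hx, y, hy, hxy⟩ := one_lt_card.mp hcu
      have hxm := ne_of_mem_erase hx
      have hym := ne_of_mem_erase hy
      have hx := mem_of_mem_erase hx
      have hy := mem_of_mem_erase hy
      have e1 : col5 (3 * t + 5) s(m, x) = m.val := by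
        have : mx s(m, x) = m.val := by
          rw [mx_mk]
          exact max_eq_left (hmax x hx)
        rw [col5, this, if_neg (by omega)]
      have e2 : col5 (3 * t + 5) s(m, y) = m.val := by
        have : mx s(m, y) = m.val := by
          rw [mx_mk]
          exact max_eq_left (hmax y hy)
        rw [col5, this, if_neg (by omega)]
      have := hT.rbw u hu u hu m hm x hx m hm y hy hxm.symm hym.symm (by rw [e1, e2])
      rw [Sym2.eq_iff] at this
      rcases this with ⟨-, h⟩ | ⟨h, -⟩
      · exact hxy h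
      · exact hym h.symm
    have h2 := card_le_card h1
    have h3 : (univ.filter (fun v : Fin n => v.val < 3 * t + 5)).card ≤ 3 * t + 5 := by
      have := Fin.card_filter_val_lt (n := n) (m := 3 * t + 5)
      rw [this]
      omega
    have h4 : (vT T).card = 3 * T.card := by
      have h5 : (T.biUnion id).card = ∑ u ∈ T, (id u).card :=
        card_biUnion (fun u hu v hv huv => hT.dis u hu v hv huv)
      have h6 : ∑ u ∈ T, (id u).card = ∑ u ∈ T, 3 := sum_congr rfl (fun u hu => hT.crd u hu)
      rw [vT, h5, h6, sum_const, smul_eq_mul, mul_comm]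
    rw [h4, hcard] at h2
    omega

end J27

/-- the lower bound -/
theorem pLower : tLower := by
  refine ⟨20, fun n t hn ht => ?_⟩
  unfold Xi
  split_ifs with h1 h2 h3 h4
  · apply J27.case1
    have h5 : ((9 * t : ℕ) : ℝ) ≤ ((2 * n : ℕ) : ℝ) := by
      unfold a1 at h1
      push_cast
      linarith
    have h6 : 9 * t ≤ 2 * n := by exact_mod_cast h5
    omega
  · apply J27.case2 _ (by omega)
    have h5 : ((4 * t + 3 : ℕ) : ℝ) ≤ (n : ℝ) := by
      unfold a2 at h2
      have := Real.sqrt_nonneg (2 * n - 3)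
      push_cast
      linarith
    have h6 : 4 * t + 3 ≤ n := by exact_mod_cast h5
    omega
  · exact J27.case3 ht
  · apply J27.case4 ht
    have h5 : ((5 * n : ℕ) : ℝ) ≤ ((22 * t + 20 : ℕ) : ℝ) := by
      unfold a3 at h3
      have := Real.sqrt_nonneg (3 * n ^ 2 - 2 * n + 4)
      push_cast
      linarith
    have h6 : 5 * n ≤ 22 * t + 20 := by exact_mod_cast h5
    omega
  · exact J27.case5 ht

end Pool.Agent.ART
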