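import Pool.Agent.ART.Basic
import Pool.Agent.ART.Targets

set_option autoImplicit false

/-! Anti-Ramsey numbers of vertex-disjoint triangles (MP_e56f3d_co): the final reduction. -/

namespace Pool.Agent.ART

open Finset

namespace J28

lemma numCol_eq {n : ℕ} (c : Sym2 (Fin n) → ℕ) : numCol c = (cols c univ).card := by
  unfold numCol
  have : c '' (⊤ : SimpleGraph (Fin n)).edgeSet = ((cols c univ : Finset ℕ) : Set ℕ) := by
    ext x
    simp only [Set.mem_image, cols, coe_image, coe_offDiag, coe_univ, Set.mem_offDiag,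
      Set.mem_univ, true_and]
    constructor
    · rintro ⟨e, he, rfl⟩
      induction e using Sym2.ind with
      | _ a b =>
        rw [SimpleGraph.mem_edgeSet, SimpleGraph.top_adj] at he
        exact ⟨(a, b), he, rfl⟩
    · rintro ⟨p, hp, rfl⟩
      refine ⟨s(p.1, p.2), ?_, rfl⟩
      rw [SimpleGraph.mem_edgeSet, SimpleGraph.top_adj]
      exact hp
  rw [this, Set.ncard_coe_finset]

lemma rainbow_of_hasR {n s : ℕ} (c : Sym2 (Fin n) → ℕ) (h : HasR c univ s) :
    RainbowCopy (sK3 s) c := by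
  obtain ⟨T, hT, hc⟩ := h
  have eT : Nonempty (Fin s ≃ T) := by
    refine ⟨(Fintype.equivFinOfCardEq ?_).symm⟩
    simp [hc]
  obtain ⟨e⟩ := eT
  have e3 : ∀ i : Fin s, Nonempty (Fin 3 ≃ ((e i : Finset (Fin n)))) := by
    intro i
    refine ⟨(Fintype.equivFinOfCardEq ?_).symm⟩
    have := hT.crd _ (e i).2
    simp [this]
  obtain ⟨e3⟩ := Classical.nonempty_pi.mpr e3
  have hmem : ∀ p : Fin s × Fin 3, ((e3 p.1 p.2 : Fin n)) ∈ (e p.1 : Finset (Fin n)) :=
    fun p => (e3 p.1 p.2).2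
  have hinj : Function.Injective (fun p : Fin s × Fin 3 => (e3 p.1 p.2 : Fin n)) := by
    rintro ⟨i, j⟩ ⟨i', j'⟩ hij
    simp only at hij
    have hii : i = i' := by
      by_contra hne
      have hd := hT.dis _ (e i).2 _ (e i').2 (fun hh => hne (e.injective (Subtype.ext hh)))
      have h1 := hmem (i, j)
      have h2 := hmem (i', j')
      simp only at h1 h2
      rw [hij] at h1
      exact (Finset.disjoint_left.mp hd h1) h2
    subst hii
    have : j = j' := (e3 i).injective (Subtype.ext hij)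
    rw [this]
  refine ⟨fun p => (e3 p.1 p.2 : Fin n), hinj, ?_⟩
  intro a b a' b' hab hab' hcc
  have h1 : (e3 a.1 a.2 : Fin n) ≠ (e3 b.1 b.2 : Fin n) := fun hh => hab.2 (hinj hh)
  have h2 : (e3 a'.1 a'.2 : Fin n) ≠ (e3 b'.1 b'.2 : Fin n) := fun hh => hab'.2 (hinj hh)
  have hee : ∀ i j : Fin s, i = j → (e i : Finset (Fin n)) = (e j : Finset (Fin n)) := by
    rintro i j rfl; rfl
  have hb : (e3 b.1 b.2 : Fin n) ∈ (e a.1 : Finset (Fin n)) := by
    rw [hee _ _ hab.1]
    exact hmem b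
  have hb' : (e3 b'.1 b'.2 : Fin n) ∈ (e a'.1 : Finset (Fin n)) := by
    rw [hee _ _ hab'.1]
    exact hmem b'
  have := hT.rbw _ (e a.1).2 _ (e a'.1).2 _ (hmem a) _ hb _ (hmem a') _ hb' h1 h2 hcc
  rw [Sym2.eq_iff] at this
  rcases this with ⟨h3, h4⟩ | ⟨h3, h4⟩
  · rw [hinj h3, hinj h4]
  · rw [hinj h3, hinj h4, Sym2.eq_swap]

lemma hasR_of_rainbow {n s : ℕ} (c : Sym2 (Fin n) → ℕ) (h : RainbowCopy (sK3 s) c) :
    HasR c univ s := by
  obtain ⟨f, hf, hr⟩ := h
  have key : ∀ i : Fin s, ∀ x, x ∈ (univ.image (fun j : Fin 3 => f (i, j))) ↔ ∃ j, f (i, j) = x := by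
    intro i x; simp
  refine ⟨univ.image (fun i : Fin s => univ.image (fun j : Fin 3 => f (i, j))), ?_, ?_⟩
  · refine ⟨fun t _ => subset_univ _, ?_, ?_, ?_⟩
    · intro t ht
      rw [mem_image] at ht
      obtain ⟨i, -, rfl⟩ := ht
      rw [card_image_of_injective]
      · simp
      · intro j j' hj
        have := hf hj
        simpa using this
    · intro t ht t' ht' hne
      rw [mem_image] at ht ht'
      obtain ⟨i, -, rfl⟩ := ht
      obtain ⟨i', -, rfl⟩ := ht'
      rw [Finset.disjoint_left]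
      intro x hx hx'
      rw [key] at hx hx'
      obtain ⟨j, rfl⟩ := hx
      obtain ⟨j', hj'⟩ := hx'
      have := hf hj'
      have h1 : i' = i := (Prod.mk.inj this).1
      exact hne (by rw [h1])
    · intro t ht t' ht' x hx y hy x' hx' y' hy' hxy hxy' hcc
      rw [mem_image] at ht ht'
      obtain ⟨i, -, rfl⟩ := ht
      obtain ⟨i', -, rfl⟩ := ht'
      rw [key] at hx hy hx' hy'
      obtain ⟨j, rfl⟩ := hx
      obtain ⟨j1, rfl⟩ := hy
      obtain ⟨j2, rfl⟩ := hx'
      obtain ⟨j3, rfl⟩ := hy'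
      have := hr (i, j) (i, j1) (i', j2) (i', j3) ⟨rfl, fun hh => hxy (by rw [hh])⟩
        ⟨rfl, fun hh => hxy' (by rw [hh])⟩ hcc
      rw [Sym2.eq_iff] at this
      rcases this with ⟨h3, h4⟩ | ⟨h3, h4⟩
      · rw [h3, h4]
      · rw [h3, h4, Sym2.eq_swap]
  · rw [card_image_of_injective]
    · simp
    · intro i i' hii
      have h0 : f (i, 0) ∈ (univ.image (fun j : Fin 3 => f (i, j))) := by
        rw [key]; exact ⟨0, rfl⟩
      have h0' : f (i, 0) ∈ (univ.image (fun j : Fin 3 => f (i', j))) := by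
        have hh : (univ.image (fun j : Fin 3 => f (i, j))) =
          (univ.image (fun j : Fin 3 => f (i', j))) := hii
        rw [← hh]; exact h0
      rw [key] at h0'
      obtain ⟨j, hj⟩ := h0'
      exact ((Prod.mk.inj (hf hj)).1).symm

lemma cols_comp {n : ℕ} (c : Sym2 (Fin n) → ℕ) (g : ℕ → ℕ) :
    cols (fun e => g (c e)) univ = (cols c univ).image g := by
  unfold cols
  rw [Finset.image_image]
  rfl

end J28

open J28 in
theorem pFinal : tFinal := by
  intro hU hL
  obtain ⟨N1, hU⟩ := hU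
  obtain ⟨N2, hL⟩ := hL
  refine ⟨max N1 N2, fun n t hn ht => ?_⟩
  have hn1 : N1 ≤ n := le_trans (le_max_left _ _) hn
  have hn2 : N2 ≤ n := le_trans (le_max_right _ _) hn
  unfold ar
  have hmem : Xi n t + 2 ∈ {N : ℕ | 1 ≤ N ∧ ∀ c : Sym2 (Fin n) → ℕ, numCol c = N →
      RainbowCopy (sK3 (t + 2)) c} := by
    refine ⟨by omega, fun c hc => ?_⟩
    rw [numCol_eq] at hc
    refine rainbow_of_hasR c (hU (Fin n) c t (by simpa using hn1) (by simpa using ht) ?_)
    rw [Fintype.card_fin, hc]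
  refine le_antisymm (Nat.sInf_le hmem) ?_
  refine le_csInf ⟨_, hmem⟩ ?_
  rintro N ⟨hN1, hN⟩
  by_contra hlt
  push Not at hlt
  obtain ⟨c, hc, hcR⟩ := hL n t hn2 ht
  have hle : N ≤ (cols c univ).card := by omega
  obtain ⟨S, hS, hScard⟩ := Finset.exists_subset_card_eq hle
  have hSne : S.Nonempty := by
    rw [← Finset.card_pos]; omega
  obtain ⟨s0, hs0⟩ := hSne
  set g : ℕ → ℕ := fun x => if x ∈ S then x else s0 with hg
  have himg : (cols c univ).image g = S := by
    ext x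
    rw [mem_image]
    constructor
    · rintro ⟨y, -, rfl⟩
      simp only [hg]
      split_ifs with h
      · exact h
      · exact hs0
    · intro hx
      exact ⟨x, hS hx, by simp [hg, hx]⟩
  have hcol : numCol (fun e => g (c e)) = N := by
    rw [numCol_eq, cols_comp, himg, hScard]
  have hrc := hN _ hcol
  apply hcR
  apply hasR_of_rainbow
  obtain ⟨f, hf, hr⟩ := hrc
  refine ⟨f, hf, fun a b a' b' h1 h2 h3 => hr a b a' b' h1 h2 ?_⟩
  simp only
  rw [h3]

end Pool.Agent.ART
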