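import Pool.Agent.ART.Targets

set_option autoImplicit false

/-! ART-J4: inequalities for the density function `phi`. -/

namespace Pool.Agent.ART

namespace J4

lemma L1 (n k : ℝ) (hk : 0 ≤ k) (h3 : 3 * k ≤ n) : ph1 n k ≤ phi n k := by
  unfold phi
  split_ifs with h1 h2
  · exact le_rfl
  · unfold ph1 ph2
    nlinarith
  · refine le_trans ?_ (le_max_left _ _)
    unfold ph1 ph3
    push Not at h2
    nlinarith [mul_nonneg (sub_nonneg.2 h3) (sub_nonneg.2 h2.le)]

lemma L2 (n k : ℝ) (hk : 0 ≤ k) (h4 : 4 * k ≤ n) : ph2 n k ≤ phi n k := by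
  unfold phi
  split_ifs with h1
  · unfold ph1 ph2
    nlinarith
  · exact le_rfl

lemma L3 (n k : ℝ) (hk : 0 ≤ k) : ph3 n k ≤ phi n k := by
  by_cases h4 : 4 * k ≤ n
  · refine le_trans ?_ (L2 n k hk h4)
    unfold ph3 ph2
    nlinarith [sq_nonneg (n / 2 - 2 * k)]
  · unfold phi
    rw [if_neg (by linarith), if_neg h4]
    exact le_max_left _ _

lemma L4 (n k : ℝ) (hk : 0 < k) (h4 : n ≤ 4 * k) (h3 : 3 * k ≤ n) : ph4 n k ≤ phi n k := by
  rcases h4.eq_or_lt with h | h
  · refine le_trans ?_ (L2 n k hk.le h.ge)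
    unfold ph4 ph2
    rw [h]
    nlinarith [sq_nonneg k]
  · unfold phi
    rw [if_neg (by linarith), if_neg (by linarith)]
    exact le_max_right _ _

/-- lower bound for the second difference -/
lemma D3 (n k : ℝ) (hn : 100 ≤ n) (hk : 1 ≤ k) (h3 : 3 * k ≤ n) :
    (9 * k ≤ 2 * n + 3 ∧ 2 * n + k - 7 / 2 ≤ phi n k - phi (n - 3) (k - 1)) ∨
    (2 * n + 3 < 9 * k ∧ 4 * k ≤ n ∧ 3 * n / 2 + 4 * k - 17 / 4 ≤ phi n k - phi (n - 3) (k - 1)) ∨
    (n < 4 * k ∧ 4 * k ≤ n + 1 ∧ 2 * n + 2 * k - 17 / 4 ≤ phi n k - phi (n - 3) (k - 1)) ∨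
    (n + 1 < 4 * k ∧ ph4 (n - 3) (k - 1) ≤ ph3 (n - 3) (k - 1) ∧
      2 * n + 2 * k - 4 ≤ phi n k - phi (n - 3) (k - 1)) ∨
    (n + 1 < 4 * k ∧ ph3 (n - 3) (k - 1) < ph4 (n - 3) (k - 1) ∧
      9 * k - 9 / 2 ≤ phi n k - phi (n - 3) (k - 1)) := by
  by_cases h1 : 9 * k ≤ 2 * n + 3
  · left
    refine ⟨h1, ?_⟩
    have e : phi (n - 3) (k - 1) = ph1 (n - 3) (k - 1) := by
      unfold phi
      rw [if_pos (by linarith)]
    have := L1 n k (by linarith) h3
    rw [e]
    unfold ph1 at this ⊢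
    nlinarith
  · push Not at h1
    by_cases h4 : 4 * k ≤ n + 1
    · have e : phi (n - 3) (k - 1) = ph2 (n - 3) (k - 1) := by
        unfold phi
        rw [if_neg (by linarith), if_pos (by linarith)]
      by_cases h5 : 4 * k ≤ n
      · right; left
        refine ⟨h1, h5, ?_⟩
        have := L2 n k (by linarith) h5
        rw [e]
        unfold ph2 at this ⊢
        nlinarith
      · right; right; left
        push Not at h5
        refine ⟨h5, h4, ?_⟩
        have := L3 n k (by linarith)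
        rw [e]
        unfold ph3 at this
        unfold ph2
        nlinarith
    · push Not at h4
      have e : phi (n - 3) (k - 1) = max (ph3 (n - 3) (k - 1)) (ph4 (n - 3) (k - 1)) := by
        unfold phi
        rw [if_neg (by linarith), if_neg (by linarith)]
      by_cases h6 : ph4 (n - 3) (k - 1) ≤ ph3 (n - 3) (k - 1)
      · right; right; right; left
        refine ⟨h4, h6, ?_⟩
        have := L3 n k (by linarith)
        rw [e, max_eq_left h6]
        unfold ph3 at this ⊢
        nlinarith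
      · right; right; right; right
        push Not at h6
        refine ⟨h4, h6, ?_⟩
        have := L4 n k (by linarith) (by linarith) h3
        rw [e, max_eq_right h6.le]
        unfold ph4 at this ⊢
        nlinarith

/-- if `ph3 < ph4` and `4K > N` then `K ≥ 0.3 N` -/
lemma big (N K : ℝ) (hN : 0 < N) (h4 : N < 4 * K) (h : ph3 N K < ph4 N K) :
    3 / 10 * N ≤ K := by
  by_contra hc
  push Not at hc
  unfold ph3 ph4 at h
  nlinarith [mul_pos (sub_pos.2 h4) (sub_pos.2 hc)]

lemma D1 (n k : ℝ) (hn : 100 ≤ n) (hk : 1 ≤ k) (h3 : 3 * k ≤ n)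
    (H : 4 * k ≤ n - 1 ∨ ph4 (n - 1) k ≤ ph3 (n - 1) k) :
    n / 2 - 1 ≤ phi n k - phi (n - 1) k ∧ 2 * k - 1 ≤ phi n k - phi (n - 1) k := by
  by_cases h1 : 9 * k ≤ 2 * (n - 1)
  · have e : phi (n - 1) k = ph1 (n - 1) k := by
      unfold phi
      rw [if_pos h1]
    have := L1 n k (by linarith) h3
    rw [e]
    unfold ph1 at this ⊢
    constructor <;> nlinarith
  · push Not at h1
    by_cases h4 : 4 * k ≤ n - 1
    · have e : phi (n - 1) k = ph2 (n - 1) k := by
        unfold phi
        rw [if_neg (by linarith), if_pos h4]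
      have := L2 n k (by linarith) (by linarith)
      rw [e]
      unfold ph2 at this ⊢
      constructor <;> nlinarith
    · have H' : ph4 (n - 1) k ≤ ph3 (n - 1) k := by
        rcases H with H | H
        · exact absurd H h4
        · exact H
      push Not at h4
      have e : phi (n - 1) k = ph3 (n - 1) k := by
        unfold phi
        rw [if_neg (by linarith), if_neg (by linarith), max_eq_left H']
      have := L3 n k (by linarith)
      rw [e]
      unfold ph3 at this ⊢
      constructor <;> nlinarith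

end J4

open J4 in
theorem pPhi : tPhi := by
  intro n k hn hk h3
  have hD3 := D3 n k hn hk h3
  refine ⟨fun H => ⟨(D1 n k hn hk h3 H).1, (D1 n k hn hk h3 H).2, ?_⟩, fun h4 h5 => ?_,
    fun h4 => ?_, fun c hc0 hc1 hck => ?_, fun hn' hk' => ?_, fun hn' hk' => ?_,
    L1 n k (by linarith) h3, fun h4 => L2 n k (by linarith) h4, fun _ => L3 n k (by linarith),
    fun h4 => L4 n k (by linarith) h4 h3, ?_, ?_⟩
  · rcases hD3 with ⟨h1, h⟩ | ⟨h1, h2, h⟩ | ⟨h1, h2, h⟩ | ⟨h1, h2, h⟩ | ⟨h1, h2, h⟩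
    · linarith
    · linarith
    · linarith
    · linarith
    · have := big (n - 3) (k - 1) (by linarith) (by linarith) h2
      linarith
  · rcases hD3 with ⟨h1, h⟩ | ⟨h1, h2, h⟩ | ⟨h1, h2, h⟩ | ⟨h1, h2, h⟩ | ⟨h1, h2, h⟩
    · linarith
    · linarith
    · linarith
    · linarith
    · have := big (n - 3) (k - 1) (by linarith) (by linarith) h2
      linarith
  · rcases hD3 with ⟨h1, h⟩ | ⟨h1, h2, h⟩ | ⟨h1, h2, h⟩ | ⟨h1, h2, h⟩ | ⟨h1, h2, h⟩
    · linarith
    · linarith
    · linarith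
    · linarith
    · have := big (n - 3) (k - 1) (by linarith) (by linarith) h2
      linarith
  · have hcn : 0 ≤ c * n := by positivity
    have hcn2 : c * n ≤ 1 / 100 * n := mul_le_mul_of_nonneg_right hc1 (by linarith)
    have hck' : n / 4 - c * n ≤ k := by linarith
    rcases hD3 with ⟨h1, h⟩ | ⟨h1, h2, h⟩ | ⟨h1, h2, h⟩ | ⟨h1, h2, h⟩ | ⟨h1, h2, h⟩
    · linarith
    · linarith
    · linarith
    · linarith
    · have := big (n - 3) (k - 1) (by linarith) (by linarith) h2
      linarith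
  · rcases hD3 with ⟨h1, h⟩ | ⟨h1, h2, h⟩ | ⟨h1, h2, h⟩ | ⟨h1, h2, h⟩ | ⟨h1, h2, h⟩
    · linarith
    · linarith
    · linarith
    · exfalso
      set N := n - 3 with hN
      set K := k - 1 with hK
      have h7 : 0.3063 * N ≤ K := by
        rw [hN, hK]
        linarith
      unfold ph3 ph4 at h2
      nlinarith [mul_nonneg (sub_nonneg.2 h7) (sub_nonneg.2 h7)]
    · linarith
  · by_cases h4 : 4 * k ≤ n - 1
    · exact Or.inl h4
    · right
      push Not at h4
      set N := n - 1 with hN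
      have h7 : k ≤ 0.30565 * N := by
        rw [hN]
        linarith
      unfold ph3 ph4
      nlinarith [mul_nonneg (sub_nonneg.2 h7) (sub_nonneg.2 h4.le)]
  · refine le_trans ?_ (L1 n k (by linarith) h3)
    unfold ph1
    nlinarith
  · unfold phi
    split_ifs with h1 h2
    · unfold ph1
      nlinarith [sq_nonneg (n - k)]
    · unfold ph2
      nlinarith
    · refine max_le ?_ ?_
      · unfold ph3
        nlinarith [sq_nonneg (n - 2 * k)]
      · unfold ph4
        nlinarith

end Pool.Agent.ART
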