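import Pool.Agent.ART.Basic
import Pool.Agent.ART.Targets

set_option autoImplicit false

/-! J5: the density theorem up to a linear error. -/

namespace Pool.Agent.ART

open Finset

namespace J5

lemma ph4_nonneg (n k : ℝ) : 0 ≤ ph4 n k := by
  unfold ph4
  nlinarith [sq_nonneg (3 * k - n / 2), sq_nonneg n]

lemma phi_nonneg (n k : ℝ) (hn : 0 ≤ n) (hk : 0 ≤ k) : 0 ≤ phi n k := by
  unfold phi
  split_ifs with h1 h2
  · unfold ph1
    have : k ≤ n := by linarith
    nlinarith
  · unfold ph2
    nlinarith [sq_nonneg k, sq_nonneg n]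
  · exact le_max_of_le_right (ph4_nonneg n k)

lemma phi_big (n k : ℝ) (hn : 0 < n) (hk : n ≤ 3 * k) : n ^ 2 / 2 ≤ phi n k := by
  unfold phi
  rw [if_neg (by linarith), if_neg (by linarith)]
  apply le_max_of_le_right
  unfold ph4
  nlinarith

lemma e2_sq {V : Type} [DecidableEq V] (G : SimpleGraph V) (A : Finset V) :
    (e2 G A : ℝ) ≤ (A.card : ℝ) ^ 2 := by
  have h := e2_le G A
  have h2 : A.card * (A.card - 1) ≤ A.card * A.card := Nat.mul_le_mul_left _ (by omega)
  have h3 : (e2 G A : ℝ) ≤ ((A.card * A.card : ℕ) : ℝ) := by exact_mod_cast h.trans h2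
  rw [sq]
  push_cast at h3
  exact h3

lemma hasT_one {V : Type} [DecidableEq V] (G : SimpleGraph V) (A : Finset V) {x y z : V}
    (hx : x ∈ A) (hy : y ∈ A) (hz : z ∈ A) (h : Tri G x y z) : HasT G A 1 := by
  have := HasT.insert (A := A) (HasT.zero G _) h (by
    intro v hv
    simp only [Finset.mem_insert, Finset.mem_singleton] at hv
    rcases hv with rfl | rfl | rfl <;> assumption)
  simpa using this

/-- Mantel's theorem -/
lemma mantel {V : Type} [DecidableEq V] (G : SimpleGraph V) (A : Finset V)
    (h : ¬ HasT G A 1) : 2 * e2 G A ≤ A.card ^ 2 := by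
  classical
  rcases A.eq_empty_or_nonempty with rfl | hne
  · simp [e2]
  obtain ⟨v, hv, hmax⟩ := Finset.exists_max_image A (fun v => dg G A v) hne
  set N := A.filter (fun u => G.Adj v u) with hN
  have hNA : N ⊆ A := Finset.filter_subset _ _
  have hNc : N.card = dg G A v := rfl
  have hind : e2 G N = 0 := by
    unfold e2
    rw [Finset.sum_eq_zero_iff]
    intro x hx
    rw [dg_eq_zero_iff]
    intro y hy hxy
    rw [hN, Finset.mem_filter] at hx hy
    exact h (hasT_one G A hv hx.1 hy.1 ⟨hx.2, hxy, hy.2⟩)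
  have h1 := e2_sdiff G hNA
  rw [hind, add_zero] at h1
  have h2 : e2 G (A \ N) + eb G (A \ N) N = ∑ x ∈ A \ N, dg G A x := by
    unfold e2 eb
    rw [← Finset.sum_add_distrib]
    exact Finset.sum_congr rfl fun x _ => dg_sdiff G hNA x
  have h3 : ∑ x ∈ A \ N, dg G A x ≤ (A \ N).card * dg G A v := by
    calc ∑ x ∈ A \ N, dg G A x ≤ ∑ _x ∈ A \ N, dg G A v :=
          Finset.sum_le_sum fun x hx => hmax x (Finset.mem_sdiff.1 hx).1
      _ = _ := by rw [Finset.sum_const, smul_eq_mul]
  have h4 := Finset.card_sdiff_add_card_eq_card hNA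
  rw [hNc] at h4
  have h5 : e2 G A ≤ 2 * ((A \ N).card * dg G A v) := by omega
  have h6 : (A \ N).card = A.card - dg G A v := by omega
  obtain ⟨a, ha⟩ : ∃ a, a = (A \ N).card := ⟨_, rfl⟩
  rw [← ha] at h5 h4
  rw [← h4]
  zify at h5 ⊢
  nlinarith [sq_nonneg ((a : ℤ) - dg G A v)]

/-- neighbours of a triangle among the vertices which are in no triangle -/
lemma tri_L {V : Type} [DecidableEq V] (G : SimpleGraph V) (A L : Finset V) (hL : L ⊆ A)
    (hN : ∀ v ∈ L, NoTri G A v) {x y z : V} (hx : x ∈ A) (hy : y ∈ A) (hz : z ∈ A)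
    (h : Tri G x y z) : dg G L x + dg G L y + dg G L z ≤ L.card := by
  classical
  have _ := hL
  rw [dg_eq_sum, dg_eq_sum, dg_eq_sum, ← Finset.sum_add_distrib, ← Finset.sum_add_distrib,
    Finset.card_eq_sum_ones]
  refine Finset.sum_le_sum fun u hu => ?_
  have hu' := hN u hu
  have h1 : ¬ (G.Adj x u ∧ G.Adj y u) := fun ⟨a, b⟩ =>
    hu' x hx y hy ⟨a.symm, h.1, b.symm⟩
  have h2 : ¬ (G.Adj y u ∧ G.Adj z u) := fun ⟨a, b⟩ =>
    hu' y hy z hz ⟨a.symm, h.2.1, b.symm⟩
  have h3 : ¬ (G.Adj x u ∧ G.Adj z u) := fun ⟨a, b⟩ =>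
    hu' x hx z hz ⟨a.symm, h.2.2, b.symm⟩
  by_cases hxu : G.Adj x u <;> by_cases hyu : G.Adj y u <;> by_cases hzu : G.Adj z u <;>
    simp [hxu, hyu, hzu] <;> tauto

end J5

theorem pClaimA (h4 : tPhi) (hB : tLemB) (hE : tLemE) : tClaimA := by
  classical
  refine ⟨20000, by norm_num, ?_⟩
  intro V _ _ G A
  induction' hcard : A.card using Nat.strong_induction_on with n ih generalizing A
  intro k hk
  have hsq := J5.e2_sq G A
  rw [hcard] at hsq
  -- small n
  by_cases hn : n ≤ 20000
  · have h1 := J5.phi_nonneg n k (Nat.cast_nonneg _) (Nat.cast_nonneg _)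
    have h2 : (n : ℝ) ≤ 20000 := by exact_mod_cast hn
    have h3 : (0 : ℝ) ≤ n := Nat.cast_nonneg _
    nlinarith
  push Not at hn
  have hnR : (20000 : ℝ) < n := by exact_mod_cast hn
  -- large k
  by_cases h3k : n ≤ 3 * k
  · have h1 := J5.phi_big n k (by linarith) (by exact_mod_cast h3k)
    nlinarith
  push Not at h3k
  have h3kR : 3 * (k : ℝ) < n := by exact_mod_cast h3k
  -- k = 0
  rcases Nat.eq_zero_or_pos k with rfl | hk1
  · have h1 := J5.mantel G A (by simpa using hk)
    rw [hcard] at h1
    have h1' : 2 * (e2 G A : ℝ) ≤ (n : ℝ) ^ 2 := by exact_mod_cast h1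
    have h2 : phi n (0 : ℕ) = (n : ℝ) ^ 2 / 4 := by
      unfold phi
      rw [if_pos (by push_cast; linarith)]
      unfold ph1
      push_cast
      ring
    rw [h2]
    nlinarith
  have hk1R : (1 : ℝ) ≤ k := by exact_mod_cast hk1
  by_contra hcon
  push Not at hcon
  -- degrees
  have hdeg : ∀ v ∈ A, phi n k - phi (n - 1) k + 10000 < dg G A v := by
    intro v hv
    have h1 := e2_erase G hv
    have hc : (A.erase v).card = n - 1 := by rw [Finset.card_erase_of_mem hv, hcard]
    have h2 := ih (n - 1) (by omega) (A.erase v) hc k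
      (fun h => hk (h.mono (Finset.erase_subset _ _)))
    have hc' : ((n - 1 : ℕ) : ℝ) = n - 1 := by
      rw [Nat.cast_sub (by omega)]
      simp
    rw [hc'] at h2
    have h3 : (e2 G A : ℝ) = e2 G (A.erase v) + 2 * dg G A v := by exact_mod_cast h1
    linarith
  have htri : ∀ x ∈ A, ∀ y ∈ A, ∀ z ∈ A, Tri G x y z →
      phi n k - phi (n - 3) (k - 1) + 30003 < dg G A x + dg G A y + dg G A z := by
    intro x hx y hy z hz ht
    have hsub : ({x, y, z} : Finset V) ⊆ A := by
      intro v hv
      simp only [Finset.mem_insert, Finset.mem_singleton] at hv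
      rcases hv with rfl | rfl | rfl <;> assumption
    have h1 := e2_triangle G ht hsub
    have hc3 : ({x, y, z} : Finset V).card = 3 := ht.clique.card_eq
    have hc : (A \ {x, y, z}).card = n - 3 := by
      have := Finset.card_sdiff_add_card_eq_card hsub
      omega
    have h2 := ih (n - 3) (by omega) (A \ {x, y, z}) hc (k - 1)
      (fun h => hk (HasT.insert (by
        have : k - 1 + 1 = k := by omega
        rwa [this] at h) ht hsub))
    have hc' : ((n - 3 : ℕ) : ℝ) = n - 3 := by
      rw [Nat.cast_sub (by omega)]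
      simp
    have hk' : ((k - 1 : ℕ) : ℝ) = k - 1 := by
      rw [Nat.cast_sub hk1]
      simp
    rw [hc', hk'] at h2
    have h3 : (e2 G A : ℝ) + 6 = e2 G (A \ {x, y, z}) + 2 * (dg G A x + dg G A y + dg G A z) := by
      exact_mod_cast h1
    linarith
  obtain ⟨f1, f2, -, -, f5, -, -, -, -, f10, -, -⟩ := h4 n k (by linarith) hk1R h3kR.le
  by_cases hlow : 4 * (k : ℝ) ≤ n - 1 ∨ ph4 (n - 1) k ≤ ph3 (n - 1) k
  · -- low case
    obtain ⟨g1, g2, g3⟩ := f1 hlow
    have hk3 : (k : ℝ) ≤ 0.3061 * (n - 1) := by
      rcases hlow with h | h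
      · linarith
      · by_contra hc
        push Not at hc
        unfold ph4 ph3 at h
        have hN : (0 : ℝ) < n - 1 := by linarith
        nlinarith [mul_pos (sub_pos.2 hc) hN, mul_pos (sub_pos.2 hc) (sub_pos.2 hc), mul_pos hN hN]
    apply hk
    refine hB V G A k 100 ?_ ?_ ?_ ?_ ?_
    · intro v hv
      rw [hcard]
      have h1 := hdeg v hv
      have : (n : ℝ) < 2 * dg G A v := by linarith
      exact_mod_cast this
    · intro v hv
      have h1 := hdeg v hv
      have : 2 * (k : ℝ) + 100 ≤ dg G A v := by linarith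
      exact_mod_cast this
    · intro x hx y hy z hz ht
      rw [hcard]
      have h1 := htri x hx y hy z hz ht
      have : 2 * (n : ℝ) + k ≤ dg G A x + dg G A y + dg G A z := by linarith
      exact_mod_cast this
    · rw [hcard]
      have : 3 * (k : ℝ) + 4 < n := by linarith
      exact_mod_cast this
    · rw [hcard]
      have h5 : 3 * (k : ℝ) + 4 < n := by linarith
      have h5' : 3 * k + 4 < n := by exact_mod_cast h5
      obtain ⟨m, hm⟩ : ∃ m, n = 3 * k + 4 + m := ⟨n - (3 * k + 4), by omega⟩
      have h6 : n - 3 * k - 4 = m := by omega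
      rw [h6]
      have hmR : (n : ℝ) = 3 * k + 4 + m := by exact_mod_cast hm
      have : (k : ℝ) < m * 98 := by linarith
      have h7 : k < m * 98 := by exact_mod_cast this
      simpa using h7
  · -- high case
    push Not at hlow
    obtain ⟨hl1, hl2⟩ := hlow
    have hN : (0 : ℝ) < n - 1 := by linarith
    have hk3 : 0.3059 * ((n : ℝ) - 1) < k := by
      by_contra hc
      push Not at hc
      unfold ph4 ph3 at hl2
      have h5 : 0 ≤ (k - (n - 1) / 4) * (0.3059 * ((n : ℝ) - 1) - k) :=
        mul_nonneg (by linarith) (by linarith)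
      have h6 : 0 ≤ (0.3059 * ((n : ℝ) - 1) - k) * (n - 1) := mul_nonneg (by linarith) hN.le
      nlinarith [mul_pos hN hN]
    have hn4 : (n : ℝ) ≤ 4 * k := by linarith
    have hph4 := f10 hn4
    set L := A.filter (fun v => NoTri G A v) with hL
    have hLA : L ⊆ A := Finset.filter_subset _ _
    have hLN : ∀ v ∈ L, NoTri G A v := fun v hv => (Finset.mem_filter.1 hv).2
    have hcA' := Finset.card_sdiff_add_card_eq_card hLA
    rw [hcard] at hcA'
    -- triangles inside A'
    have hA'tri : ∀ v ∈ A \ L, ∃ x ∈ A \ L, ∃ y ∈ A \ L, Tri G v x y := by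
      intro v hv
      rw [Finset.mem_sdiff] at hv
      have h1 : ¬ NoTri G A v := fun h => hv.2 (Finset.mem_filter.2 ⟨hv.1, h⟩)
      unfold NoTri at h1
      push Not at h1
      obtain ⟨x, hx, y, hy, ht⟩ := h1
      refine ⟨x, Finset.mem_sdiff.2 ⟨hx, fun h => ?_⟩, y, Finset.mem_sdiff.2 ⟨hy, fun h => ?_⟩, ht⟩
      · exact hLN x h y hy v hv.1 ht.rot
      · exact hLN y h v hv.1 x hx ht.rot.rot
    have hsumA' : ∀ x ∈ A \ L, ∀ y ∈ A \ L, ∀ z ∈ A \ L, Tri G x y z →
        phi n k - phi (n - 3) (k - 1) + 30003 <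
          (dg G (A \ L) x + dg G (A \ L) y + dg G (A \ L) z : ℝ) + L.card := by
      intro x hx y hy z hz ht
      rw [Finset.mem_sdiff] at hx hy hz
      have h1 := htri x hx.1 y hy.1 z hz.1 ht
      have h2 := J5.tri_L G A L hLA hLN hx.1 hy.1 hz.1 ht
      have h3 := dg_sdiff G hLA x
      have h4' := dg_sdiff G hLA y
      have h5 := dg_sdiff G hLA z
      have h2' : (dg G L x + dg G L y + dg G L z : ℝ) ≤ L.card := by exact_mod_cast h2
      have h3' : (dg G (A \ L) x + dg G L x : ℝ) = dg G A x := by exact_mod_cast h3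
      have h4'' : (dg G (A \ L) y + dg G L y : ℝ) = dg G A y := by exact_mod_cast h4'
      have h5' : (dg G (A \ L) z + dg G L z : ℝ) = dg G A z := by exact_mod_cast h5
      linarith
    have hdegA' : ∀ v ∈ A \ L, phi n k - phi (n - 3) (k - 1) + 30003 <
        (dg G (A \ L) v : ℝ) + 2 * ((A \ L).card - 1) + L.card := by
      intro v hv
      obtain ⟨x, hx, y, hy, ht⟩ := hA'tri v hv
      have h1 := hsumA' v hv x hx y hy ht
      have h2 := dg_lt_card G hx
      have h3 := dg_lt_card G hy
      have h2' : (dg G (A \ L) x : ℝ) + 1 ≤ (A \ L).card := by exact_mod_cast h2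
      have h3' : (dg G (A \ L) y : ℝ) + 1 ≤ (A \ L).card := by exact_mod_cast h3
      linarith
    have hcR : ((A \ L).card : ℝ) + L.card = n := by exact_mod_cast hcA'
    have hl0 : (0 : ℝ) ≤ L.card := Nat.cast_nonneg _
    by_cases hl : L.card + 8 + 3 * k ≤ n
    · -- few vertices outside triangles
      have hlR : (L.card : ℝ) + 8 + 3 * k ≤ n := by exact_mod_cast hl
      apply hk
      obtain ⟨a, ha⟩ : ∃ a : ℕ, (A \ L).card = 3 * k + 8 + a := ⟨(A \ L).card - (3 * k + 8), by omega⟩
      have haR : ((A \ L).card : ℝ) = 3 * k + 8 + a := by exact_mod_cast ha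
      by_cases hmid : (k : ℝ) < 0.3064 * n
      · have g := f2 hl1 hl2
        refine HasT.mono (A := A \ L) ?_ Finset.sdiff_subset
        refine hB V G (A \ L) k (L.card + 20000) ?_ ?_ ?_ ?_ ?_
        · intro v hv
          have h1 := hdegA' v hv
          have : ((A \ L).card : ℝ) < 2 * dg G (A \ L) v := by linarith
          exact_mod_cast this
        · intro v hv
          have h1 := hdegA' v hv
          have : 2 * (k : ℝ) + (L.card + 20000) ≤ dg G (A \ L) v := by linarith
          exact_mod_cast this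
        · intro x hx y hy z hz ht
          have h1 := hsumA' x hx y hy z hz ht
          have : 2 * ((A \ L).card : ℝ) + k ≤
              dg G (A \ L) x + dg G (A \ L) y + dg G (A \ L) z := by linarith
          exact_mod_cast this
        · omega
        · have h6 : (A \ L).card - 3 * k - 4 = a + 4 := by omega
          rw [h6]
          have h7 : L.card + 20000 - 2 = L.card + 19998 := by omega
          rw [h7]
          have h8 : (n : ℝ) = 3 * k + 8 + a + L.card := by linarith
          have ha0 : (0 : ℝ) ≤ a := Nat.cast_nonneg _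
          have h9 : (k : ℝ) < (a + 4) * (L.card + 19998) := by
            have e : ((a : ℝ) + 4) * (L.card + 19998) =
                a * L.card + 19998 * a + 4 * L.card + 79992 := by ring
            have e2 := mul_nonneg ha0 hl0
            rw [e]
            linarith
          have h10 : (((a + 4) * (L.card + 19998) : ℕ) : ℝ) = (a + 4) * (L.card + 19998) := by
            push_cast
            ring
          rw [← h10] at h9
          exact Nat.cast_lt.1 h9
      · push Not at hmid
        have g := f5 (by linarith) hmid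
        have h7k : 2 * n ≤ 7 * k := by
          have : 2 * (n : ℝ) ≤ 7 * k := by linarith
          exact_mod_cast this
        obtain ⟨b, hb⟩ : ∃ b : ℕ, 7 * k = 2 * n + b := ⟨7 * k - 2 * n, by omega⟩
        have hbR : 7 * (k : ℝ) = 2 * n + b := by exact_mod_cast hb
        refine HasT.mono (A := A \ L) ?_ Finset.sdiff_subset
        refine hB V G (A \ L) k (b + L.card + 20000) ?_ ?_ ?_ ?_ ?_
        · intro v hv
          have h1 := hdegA' v hv
          have : ((A \ L).card : ℝ) < 2 * dg G (A \ L) v := by linarith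
          exact_mod_cast this
        · intro v hv
          have h1 := hdegA' v hv
          have : 2 * (k : ℝ) + (b + L.card + 20000) ≤ dg G (A \ L) v := by linarith
          exact_mod_cast this
        · intro x hx y hy z hz ht
          have h1 := hsumA' x hx y hy z hz ht
          have : 2 * ((A \ L).card : ℝ) + k ≤
              dg G (A \ L) x + dg G (A \ L) y + dg G (A \ L) z := by linarith
          exact_mod_cast this
        · omega
        · have h6 : (A \ L).card - 3 * k - 4 = a + 4 := by omega
          rw [h6]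
          have h7 : b + L.card + 20000 - 2 = b + L.card + 19998 := by omega
          rw [h7]
          have ha0 : (0 : ℝ) ≤ a := Nat.cast_nonneg _
          have hb0 : (0 : ℝ) ≤ b := Nat.cast_nonneg _
          have h9 : (k : ℝ) < (a + 4) * (b + L.card + 19998) := by
            have e : ((a : ℝ) + 4) * (b + L.card + 19998) =
                a * L.card + a * b + 19998 * a + 4 * b + 4 * L.card + 79992 := by ring
            have e2 := mul_nonneg ha0 hl0
            have e3 := mul_nonneg ha0 hb0
            rw [e]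
            linarith
          have h10 : (((a + 4) * (b + L.card + 19998) : ℕ) : ℝ) =
              (a + 4) * (b + L.card + 19998) := by
            push_cast
            ring
          rw [← h10] at h9
          exact Nat.cast_lt.1 h9
    · -- many vertices outside triangles
      push Not at hl
      by_cases hm : n ≤ 3 * k + 7
      · have hmR : (n : ℝ) ≤ 3 * k + 7 := by exact_mod_cast hm
        unfold ph4 at hph4
        nlinarith
      · push Not at hm
        obtain ⟨m, hmn⟩ : ∃ m : ℕ, n = 3 * k + 7 + m := ⟨n - (3 * k + 7), by omega⟩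
        obtain ⟨L', hL'L, hL'c⟩ := Finset.exists_subset_card_eq (show m ≤ L.card by omega)
        have h1 := hE V G A L' (hL'L.trans hLA) (fun v hv => hLN v (hL'L hv))
        have hc2 := Finset.card_sdiff_add_card_eq_card (hL'L.trans hLA)
        rw [hcard, hL'c] at hc2
        have hc3 : (A \ L').card = 3 * k + 7 := by omega
        rw [hc3, hL'c] at h1
        have h2 : (3 * k + 7) * (3 * k + 7 - 1) = (3 * k + 7) * (3 * k + 6) := by
          congr 1
        rw [h2] at h1
        have h3 : (e2 G A : ℝ) ≤ (3 * k + 7) * (3 * k + 6) + m * (m + 1) := by exact_mod_cast h1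
        have hmR : (n : ℝ) = 3 * k + 7 + m := by exact_mod_cast hmn
        unfold ph4 at hph4
        have hm' : (m : ℝ) = n - 3 * k - 7 := by linarith
        rw [hm'] at h3
        nlinarith

end Pool.Agent.ART
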