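import Pool.Agent.ART.Basic
import Pool.Agent.ART.Targets

set_option autoImplicit false

/-! Anti-Ramsey numbers of vertex-disjoint triangles (MP_e56f3d_co): job J6, the deletion lemma. -/

namespace Pool.Agent.ART

open Finset

/-- state after `s` deletions -/
def DelState {V : Type} (G : SimpleGraph V) (A : Finset V) (k : ℕ) (D ε : ℝ) (s : ℕ)
    (B : Finset V) (j : ℕ) : Prop :=
  B ⊆ A ∧ j ≤ k ∧ A.card ≤ B.card + 3 * s ∧ k ≤ j + s ∧ ¬ HasT G B (j + 1) ∧
    2 * phi B.card j - D * A.card + 2 * ε * A.card * s ≤ e2 G B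

lemma DelState.step1 {V : Type} [DecidableEq V] {G : SimpleGraph V} {A : Finset V} {k : ℕ}
    {D ε : ℝ} {s : ℕ} {B : Finset V} {j : ℕ} (h : DelState G A k D ε s B j) {v : V} (hv : v ∈ B)
    (hd : (dg G B v : ℝ) < phi B.card j - phi (B.card - 1) j - ε * A.card) :
    DelState G A k D ε (s + 1) (B.erase v) j := by
  obtain ⟨h1, h2, h3, h4, h5, h6⟩ := h
  have hc : (B.erase v).card + 1 = B.card := Finset.card_erase_add_one hv
  refine ⟨(Finset.erase_subset _ _).trans h1, h2, by omega, by omega,
    fun h => h5 (h.mono (Finset.erase_subset _ _)), ?_⟩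
  have he := e2_erase G hv
  have he' : (e2 G B : ℝ) = e2 G (B.erase v) + 2 * dg G B v := by exact_mod_cast he
  have hc' : ((B.erase v).card : ℝ) = B.card - 1 := by
    have : ((B.erase v).card : ℝ) + 1 = B.card := by exact_mod_cast hc
    linarith
  rw [hc']
  push_cast
  nlinarith

lemma DelState.step2 {V : Type} [DecidableEq V] {G : SimpleGraph V} {A : Finset V} {k : ℕ}
    {D ε : ℝ} {s : ℕ} {B : Finset V} {j : ℕ} (h : DelState G A k D ε s B j) {x y z : V}
    (hx : x ∈ B) (hy : y ∈ B) (hz : z ∈ B) (ht : Tri G x y z)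
    (hd : (dg G B x : ℝ) + dg G B y + dg G B z <
      phi B.card j - phi (B.card - 3) (j - 1) - ε * A.card) :
    ∃ B' j', DelState G A k D ε (s + 1) B' j' := by
  obtain ⟨h1, h2, h3, h4, h5, h6⟩ := h
  have hsub : ({x, y, z} : Finset V) ⊆ B := by
    intro w hw
    simp only [Finset.mem_insert, Finset.mem_singleton] at hw
    rcases hw with rfl | rfl | rfl <;> assumption
  have hj : 1 ≤ j := by
    by_contra hj
    have hj0 : j = 0 := by omega
    subst hj0
    exact h5 ((HasT.zero G (B \ {x, y, z})).insert ht hsub)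
  obtain ⟨i, rfl⟩ : ∃ i, j = i + 1 := ⟨j - 1, by omega⟩
  have hc3 : ({x, y, z} : Finset V).card = 3 := (ht.clique).card_eq
  have hc : (B \ {x, y, z}).card + 3 = B.card := by
    have := Finset.card_sdiff_add_card_eq_card hsub
    omega
  refine ⟨B \ {x, y, z}, i, Finset.sdiff_subset.trans h1, by omega, by omega, by omega,
    fun h => h5 (h.insert ht hsub), ?_⟩
  have he := e2_triangle G ht hsub
  have he' : (e2 G B : ℝ) + 6 = e2 G (B \ {x, y, z}) +
      2 * (dg G B x + dg G B y + dg G B z) := by exact_mod_cast he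
  have hc' : ((B \ {x, y, z}).card : ℝ) = B.card - 3 := by
    have : ((B \ {x, y, z}).card : ℝ) + 3 = B.card := by exact_mod_cast hc
    linarith
  have hi : ((i + 1 : ℕ) : ℝ) - 1 = i := by push_cast; ring
  rw [hi] at hd
  rw [hc']
  push_cast at h6 hd ⊢
  nlinarith

theorem pDel (_h4 : tPhi) (hA : tClaimA) : tDel := by
  intro D ε hε
  obtain ⟨C, hC, hA⟩ := hA
  set S : ℕ := ⌈(C + D) / (2 * ε)⌉₊ + 1 with hS
  refine ⟨3 * S + 1, ?_⟩
  intro V _ _ G A k hJ hk he
  have hApos : (0 : ℝ) < A.card := by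
    have : 0 < A.card := by omega
    exact_mod_cast this
  -- the states with `s ≥ S` do not exist
  have hbound : ∀ s B j, DelState G A k D ε s B j → s < S := by
    rintro s B j ⟨h1, h2, h3, h4, h5, h6⟩
    have h7 := hA V G B j h5
    have h8 : (B.card : ℝ) ≤ A.card := by exact_mod_cast Finset.card_le_card h1
    have h9 : C * B.card ≤ C * A.card := mul_le_mul_of_nonneg_left h8 hC
    have h10 : 2 * ε * A.card * s ≤ (C + D) * A.card := by nlinarith
    have h11 : 2 * ε * s ≤ C + D := by
      by_contra hlt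
      push Not at hlt
      have := mul_lt_mul_of_pos_right hlt hApos
      nlinarith
    have h12 : (s : ℝ) ≤ (C + D) / (2 * ε) := by
      rw [le_div_iff₀ (by positivity)]
      linarith
    have h13 : (s : ℝ) ≤ (⌈(C + D) / (2 * ε)⌉₊ : ℝ) := h12.trans (Nat.le_ceil _)
    have h14 : s ≤ ⌈(C + D) / (2 * ε)⌉₊ := by exact_mod_cast h13
    omega
  -- the last state
  have key : ∀ m s, s + m = S → (∃ B j, DelState G A k D ε s B j) →
      ∃ s' B j, DelState G A k D ε s' B j ∧ ¬ ∃ B' j', DelState G A k D ε (s' + 1) B' j' := by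
    intro m
    induction m with
    | zero =>
      rintro s hs ⟨B, j, h⟩
      have := hbound s B j h
      omega
    | succ m ih =>
      rintro s hs ⟨B, j, h⟩
      by_cases hn : ∃ B' j', DelState G A k D ε (s + 1) B' j'
      · exact ih (s + 1) (by omega) hn
      · exact ⟨s, B, j, h, hn⟩
  obtain ⟨s, B, j, h, hn⟩ := key S 0 (by omega)
    ⟨A, k, subset_rfl, le_rfl, by omega, by omega, hk, by simpa using he⟩
  have hsS := hbound s B j h
  have hloc : Loc G B (phi B.card j - phi (B.card - 1) j - ε * A.card)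
      (phi B.card j - phi (B.card - 3) (j - 1) - ε * A.card) := by
    constructor
    · intro v hv
      by_contra hlt
      push Not at hlt
      exact hn ⟨_, _, h.step1 hv hlt⟩
    · intro x hx y hy z hz ht
      by_contra hlt
      push Not at hlt
      exact hn (h.step2 hx hy hz ht hlt)
  obtain ⟨h1, h2, h3, h4, h5, h6⟩ := h
  refine ⟨B, h1, j, h2, by omega, by omega, h5, ?_, hloc⟩
  have : 0 ≤ 2 * ε * A.card * s := by positivity
  linarith

end Pool.Agent.ART
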