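import Pool.Agent.ART.Basic
import Pool.Agent.ART.Targets

set_option autoImplicit false

/-! J9 (Tutte-Berge) and J10 (Erdos-Gallai) -/

namespace Pool.Agent.ART

open Finset

section TB

variable {V : Type} [DecidableEq V]

/-- the graph on `A` with `d` additional universal vertices -/
def extG (G : SimpleGraph V) (A : Finset V) (d : ℕ) : SimpleGraph (↥A ⊕ Fin d) where
  Adj u v := u ≠ v ∧ ∀ x y, u = Sum.inl x → v = Sum.inl y → G.Adj (x : V) (y : V)
  symm := ⟨fun _ _ h => ⟨h.1.symm, fun x y hx hy => (h.2 y x hy hx).symm⟩⟩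
  loopless := ⟨fun _ h => h.1 rfl⟩

lemma hasM_of_perfect [Fintype V] (G : SimpleGraph V) (A : Finset V) (d m : ℕ)
    (hm : d + 2 * m ≤ A.card + 1) (P : (extG G A d).Subgraph) (hP : P.IsPerfectMatching) :
    HasM G A m := by
  classical
  have hex := SimpleGraph.Subgraph.isPerfectMatching_iff.1 hP
  choose σ hσ hσu using hex
  have hσσ : ∀ v, σ (σ v) = v := fun v => (hσu (σ v) v (hσ v).symm).symm
  have hadj : ∀ v, (extG G A d).Adj v (σ v) := fun v => (hσ v).adj_sub
  -- the partner inside A
  let τ : ↥A → ↥A := fun x => Sum.elim (fun y => y) (fun _ => x) (σ (Sum.inl x))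
  have hτl : ∀ x y : ↥A, σ (Sum.inl x) = Sum.inl y → τ x = y := by
    intro x y h
    simp only [τ, h, Sum.elim_inl]
  have hτr : ∀ (x : ↥A) (j : Fin d), σ (Sum.inl x) = Sum.inr j → τ x = x := by
    intro x j h
    simp only [τ, h, Sum.elim_inr]
  have hττ : ∀ x, τ (τ x) = x := by
    intro x
    rcases h : σ (Sum.inl x) with y | j
    · rw [hτl x y h]
      apply hτl
      rw [← h, hσσ]
    · rw [hτr x j h, hτr x j h]
  have hτadj : ∀ x, τ x ≠ x → G.Adj (x : V) (τ x : V) := by
    intro x hx
    rcases h : σ (Sum.inl x) with y | j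
    · rw [hτl x y h]
      exact (hadj (Sum.inl x)).2 x y rfl h
    · exact absurd (hτr x j h) hx
  let e : V → ℕ := fun v => (Fintype.equivFin V v : ℕ)
  have he : ∀ x y : V, e x = e y → x = y := by
    intro x y h
    exact (Fintype.equivFin V).injective (Fin.ext h)
  let P1 : Finset ↥A := univ.filter (fun x => e x < e (τ x))
  let P2 : Finset ↥A := univ.filter (fun x => e (τ x) < e x)
  let P0 : Finset ↥A := univ.filter (fun x => τ x = x)
  have hP0 : P0.card ≤ d := by
    have h1 : ∀ x ∈ P0, ∃ j : Fin d, σ (Sum.inl x) = Sum.inr j := by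
      intro x hx
      have hx' : τ x = x := (Finset.mem_filter.1 hx).2
      rcases h : σ (Sum.inl x) with y | j
      · exfalso
        have h2 := hτl x y h
        rw [hx'] at h2
        rw [← h2] at h
        exact (hadj (Sum.inl x)).1 h.symm
      · exact ⟨j, rfl⟩
    choose g hg using h1
    have h2 : P0.attach.card ≤ (univ : Finset (Fin d)).card := by
      apply Finset.card_le_card_of_injOn (fun x => g x.1 x.2) (fun _ _ => Finset.mem_coe.2 (mem_univ _))
      intro x _ y _ hxy
      have h3 : σ (Sum.inl x.1) = σ (Sum.inl y.1) := by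
        rw [hg x.1 x.2, hg y.1 y.2]
        exact congrArg _ hxy
      have h4 := congrArg σ h3
      rw [hσσ, hσσ] at h4
      exact Subtype.ext (Sum.inl_injective h4)
    rw [Finset.card_attach, Finset.card_univ, Fintype.card_fin] at h2
    exact h2
  have hP12 : P2.card ≤ P1.card := by
    apply Finset.card_le_card_of_injOn τ
    · intro x hx
      have hx' : e (τ x) < e x := (Finset.mem_filter.1 hx).2
      refine Finset.mem_coe.2 (Finset.mem_filter.2 ⟨mem_univ _, ?_⟩)
      rw [hττ]
      exact hx'
    · intro x _ y _ hxy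
      have h := congrArg τ hxy
      rwa [hττ, hττ] at h
  have hsum : A.card ≤ P0.card + P1.card + P2.card := by
    have h1 : (univ : Finset ↥A) ⊆ P0 ∪ P1 ∪ P2 := by
      intro x _
      rcases lt_trichotomy (e x) (e (τ x)) with h | h | h
      · exact Finset.mem_union_left _ (Finset.mem_union_right _ (Finset.mem_filter.2 ⟨mem_univ _, h⟩))
      · refine Finset.mem_union_left _ (Finset.mem_union_left _ (Finset.mem_filter.2 ⟨mem_univ _, ?_⟩))
        exact (Subtype.ext (he _ _ h)).symm
      · exact Finset.mem_union_right _ (Finset.mem_filter.2 ⟨mem_univ _, h⟩)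
    have h2 := Finset.card_le_card h1
    rw [Finset.card_univ, Fintype.card_coe] at h2
    have h3 := Finset.card_union_le (P0 ∪ P1) P2
    have h4 := Finset.card_union_le P0 P1
    omega
  have hMF : MF G A (P1.image (fun x : ↥A => ((x : V), (τ x : V)))) := by
    constructor
    · intro p hp
      obtain ⟨x, hx, rfl⟩ := Finset.mem_image.1 hp
      have hx' : e x < e (τ x) := (Finset.mem_filter.1 hx).2
      refine ⟨x.2, (τ x).2, hτadj x ?_⟩
      intro h
      rw [h] at hx'
      exact lt_irrefl _ hx'
    · intro p hp q hq hpq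
      obtain ⟨x, hx, rfl⟩ := Finset.mem_image.1 hp
      obtain ⟨y, hy, rfl⟩ := Finset.mem_image.1 hq
      have hx' : e x < e (τ x) := (Finset.mem_filter.1 hx).2
      have hy' : e y < e (τ y) := (Finset.mem_filter.1 hy).2
      have hxy : x ≠ y := by
        rintro rfl
        exact hpq rfl
      refine ⟨?_, ?_, ?_, ?_⟩
      · intro h
        exact hxy (Subtype.ext h)
      · intro h
        have h1 : x = τ y := Subtype.ext h
        rw [h1, hττ] at hx'
        omega
      · intro h
        have h1 : τ x = y := Subtype.ext h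
        rw [← h1, hττ] at hy'
        omega
      · intro h
        have h1 : τ x = τ y := Subtype.ext h
        have h2 := congrArg τ h1
        rw [hττ, hττ] at h2
        exact hxy h2
  have hcard : (P1.image (fun x : ↥A => ((x : V), (τ x : V)))).card = P1.card := by
    apply Finset.card_image_of_injective
    intro x y hxy
    have h1 := congrArg Prod.fst hxy
    exact Subtype.ext h1
  have hHas : HasM G A P1.card := ⟨_, hMF, hcard⟩
  exact hHas.le (by omega)

lemma exists_violator (G : SimpleGraph V) (A : Finset V) (d : ℕ)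
    (hev : Even (A.card + d)) (U : Set (↥A ⊕ Fin d)) (hU : (extG G A d).IsTutteViolator U) :
    ∃ S ⊆ A, ∃ f : V → ℕ,
      (∀ x ∈ A \ S, ∀ y ∈ A \ S, G.Adj x y → f x = f y) ∧
      S.card + d + 2 ≤ ((A \ S).image f).card := by
  classical
  set K := ((⊤ : (extG G A d).Subgraph).deleteVerts U) with hK
  have hverts : ∀ v, v ∈ K.verts ↔ v ∉ U := by
    intro v
    rw [hK, SimpleGraph.Subgraph.deleteVerts_verts]
    simp
  have hKadj : ∀ u v, u ∉ U → v ∉ U → (extG G A d).Adj u v → K.Adj u v := by
    intro u v hu hv h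
    rw [hK, SimpleGraph.Subgraph.deleteVerts_adj]
    exact ⟨trivial, hu, trivial, hv, h⟩
  have hcardV : Nat.card (↥A ⊕ Fin d) = A.card + d := by
    rw [Nat.card_eq_fintype_card, Fintype.card_sum, Fintype.card_coe, Fintype.card_fin]
  have hcardK : U.ncard + Nat.card K.verts = A.card + d := by
    have h1 : K.verts = Uᶜ := by
      ext v
      rw [hverts]
      rfl
    rw [h1, Nat.card_coe_set_eq, Set.ncard_add_ncard_compl, hcardV]
  have hodd : U.ncard + 2 ≤ K.coe.oddComponents.ncard := by
    have h1 : U.ncard < K.coe.oddComponents.ncard := hU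
    have h2 := SimpleGraph.odd_ncard_oddComponents K.coe
    rcases Nat.even_or_odd (K.coe.oddComponents.ncard) with h3 | h3
    · have h4 : ¬ Odd (Nat.card K.verts) := by
        rw [← h2, Nat.not_odd_iff_even]
        exact h3
      rw [Nat.not_odd_iff_even] at h4
      obtain ⟨a, ha⟩ := hev
      obtain ⟨b, hb⟩ := h3
      obtain ⟨c, hc⟩ := h4
      omega
    · have h4 : Odd (Nat.card K.verts) := h2.1 h3
      obtain ⟨a, ha⟩ := hev
      obtain ⟨b, hb⟩ := h3
      obtain ⟨c, hc⟩ := h4
      omega
  have hcomp : U.ncard + 2 ≤ Nat.card K.coe.ConnectedComponent := by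
    refine hodd.trans ?_
    rw [← Set.ncard_univ]
    exact Set.ncard_le_ncard (Set.subset_univ _) (Set.toFinite _)
  -- all new vertices are in U
  have hnew : ∀ j : Fin d, Sum.inr j ∈ U := by
    intro j
    by_contra hj
    have hz : (Sum.inr j : ↥A ⊕ Fin d) ∈ K.verts := (hverts _).2 hj
    have h1 : ∀ C : K.coe.ConnectedComponent, C = K.coe.connectedComponentMk ⟨Sum.inr j, hz⟩ := by
      intro C
      obtain ⟨v, rfl⟩ := C.exists_rep
      by_cases hv : v = ⟨Sum.inr j, hz⟩
      · rw [hv]; rfl
      · apply SimpleGraph.ConnectedComponent.sound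
        apply SimpleGraph.Adj.reachable
        rw [SimpleGraph.Subgraph.coe_adj]
        apply hKadj _ _ ((hverts _).1 v.2) hj
        refine ⟨fun h => hv (Subtype.ext h), ?_⟩
        intro x y _ h2
        exact absurd h2 (by simp)
    have h2 : Nat.card K.coe.ConnectedComponent ≤ 1 := by
      rw [Nat.card_eq_fintype_card, Fintype.card_le_one_iff]
      intro a b
      rw [h1 a, h1 b]
    omega
  obtain ⟨g, hg⟩ := exists_injective_nat K.coe.ConnectedComponent
  let S : Finset V := (A.attach.filter (fun x => (Sum.inl x : ↥A ⊕ Fin d) ∈ U)).image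
    (fun x : ↥A => (x : V))
  have hmemS : ∀ (x : V) (hx : x ∈ A), x ∈ S ↔ (Sum.inl ⟨x, hx⟩ : ↥A ⊕ Fin d) ∈ U := by
    intro x hx
    simp only [S, Finset.mem_image, Finset.mem_filter, Finset.mem_attach, true_and]
    constructor
    · rintro ⟨y, hy, rfl⟩
      exact hy
    · intro h
      exact ⟨⟨x, hx⟩, h, rfl⟩
  have hSA : S ⊆ A := by
    intro x hx
    obtain ⟨y, _, rfl⟩ := Finset.mem_image.1 hx
    exact y.2
  let f : V → ℕ := fun x => if h : ∃ hx : x ∈ A, (Sum.inl ⟨x, hx⟩ : ↥A ⊕ Fin d) ∉ U then
    g (K.coe.connectedComponentMk ⟨Sum.inl ⟨x, h.choose⟩, (hverts _).2 h.choose_spec⟩) else 0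
  have hf : ∀ (x : V) (hx : x ∈ A) (hxU : (Sum.inl ⟨x, hx⟩ : ↥A ⊕ Fin d) ∉ U),
      f x = g (K.coe.connectedComponentMk ⟨Sum.inl ⟨x, hx⟩, (hverts _).2 hxU⟩) := by
    intro x hx hxU
    have h : ∃ hx : x ∈ A, (Sum.inl ⟨x, hx⟩ : ↥A ⊕ Fin d) ∉ U := ⟨hx, hxU⟩
    simp only [f]
    rw [dif_pos h]
  refine ⟨S, hSA, f, ?_, ?_⟩
  · intro x hx y hy hxy
    rw [Finset.mem_sdiff] at hx hy
    have hxU := fun h => hx.2 ((hmemS x hx.1).2 h)
    have hyU := fun h => hy.2 ((hmemS y hy.1).2 h)
    rw [hf x hx.1 hxU, hf y hy.1 hyU]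
    congr 1
    apply SimpleGraph.ConnectedComponent.sound
    apply SimpleGraph.Adj.reachable
    rw [SimpleGraph.Subgraph.coe_adj]
    apply hKadj _ _ hxU hyU
    refine ⟨?_, ?_⟩
    · intro h
      have h1 := Sum.inl_injective h
      exact hxy.ne (congrArg Subtype.val h1)
    · intro a b ha hb
      have h1 := Sum.inl_injective ha
      have h2 := Sum.inl_injective hb
      rw [← h1, ← h2]
      exact hxy
  · have hUS : S.card + d ≤ U.ncard := by
      have h1 : ((A.attach.filter (fun x => (Sum.inl x : ↥A ⊕ Fin d) ∈ U)).map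
          ⟨Sum.inl, Sum.inl_injective⟩ ∪ (univ : Finset (Fin d)).map ⟨Sum.inr, Sum.inr_injective⟩ :
          Finset (↥A ⊕ Fin d)).card ≤ U.ncard := by
        rw [← Set.ncard_coe_finset]
        apply Set.ncard_le_ncard _ (Set.toFinite _)
        intro v hv
        rw [Finset.mem_coe, Finset.mem_union, Finset.mem_map, Finset.mem_map] at hv
        rcases hv with ⟨x, hx, rfl⟩ | ⟨j, _, rfl⟩
        · exact (Finset.mem_filter.1 hx).2
        · exact hnew j
      rw [Finset.card_union_of_disjoint, Finset.card_map, Finset.card_map, Finset.card_univ,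
        Fintype.card_fin] at h1
      · have h2 : S.card ≤ (A.attach.filter (fun x => (Sum.inl x : ↥A ⊕ Fin d) ∈ U)).card :=
          Finset.card_image_le
        omega
      · rw [Finset.disjoint_left]
        intro v hv hv'
        rw [Finset.mem_map] at hv hv'
        obtain ⟨x, _, rfl⟩ := hv
        obtain ⟨j, _, h⟩ := hv'
        exact absurd h (by simp)
    have h3 : (univ : Finset K.coe.ConnectedComponent).image g ⊆ (A \ S).image f := by
      intro m hm
      obtain ⟨C, _, rfl⟩ := Finset.mem_image.1 hm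
      obtain ⟨v, rfl⟩ := C.exists_rep
      obtain ⟨v, hv⟩ := v
      have hvU := (hverts _).1 hv
      rcases v with x | j
      · refine Finset.mem_image.2 ⟨(x : V), ?_, hf (x : V) x.2 hvU⟩
        rw [Finset.mem_sdiff]
        exact ⟨x.2, fun h => hvU ((hmemS (x : V) x.2).1 h)⟩
      · exact absurd (hnew j) hvU
    have h4 := Finset.card_le_card h3
    rw [Finset.card_image_of_injective _ hg, Finset.card_univ, ← Nat.card_eq_fintype_card] at h4
    omega

end TB

theorem pTB : tTB := by
  intro V _ _ G A ν hM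
  by_cases hA : A.card ≤ 2 * ν + 1
  · refine ⟨∅, Finset.empty_subset _, fun _ => 0, fun _ _ _ _ _ => rfl, ?_⟩
    rw [Finset.sdiff_empty, Finset.card_empty]
    by_cases h0 : A.Nonempty
    · rw [Finset.image_const h0, Finset.card_singleton]
      omega
    · rw [Finset.not_nonempty_iff_eq_empty] at h0
      rw [h0]
      simp
  · push Not at hA
    have hno : ¬ ∃ P : (extG G A (A.card - 2 * ν - 2)).Subgraph, P.IsPerfectMatching := by
      rintro ⟨P, hP⟩
      exact hM (hasM_of_perfect G A (A.card - 2 * ν - 2) (ν + 1) (by omega) P hP)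
    rw [SimpleGraph.tutte] at hno
    push Not at hno
    obtain ⟨U, hU⟩ := hno
    obtain ⟨S, hS, f, hf, hc⟩ := exists_violator G A (A.card - 2 * ν - 2)
      ⟨A.card - ν - 1, by omega⟩ U hU
    exact ⟨S, hS, f, hf, by omega⟩

theorem pEG (h9 : tTB) : tEG := by
  intro V _ _ G A ν hν hM
  classical
  obtain ⟨S, hS, f, hf, hc⟩ := h9 V G A ν hM
  set B := A \ S with hB
  have hcard : B.card + S.card = A.card := Finset.card_sdiff_add_card_eq_card hS
  set q := (B.image f).card with hq
  have hqN : q ≤ B.card := Finset.card_image_le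
  -- degrees inside B
  have hclass : ∀ v ∈ B, (B.filter (fun u => f u = f v)).card + q ≤ B.card + 1 := by
    intro v hv
    have h1 : (B.image f).erase (f v) ⊆ (B.filter (fun u => ¬ f u = f v)).image f := by
      intro m hm
      rw [Finset.mem_erase] at hm
      obtain ⟨u, hu, rfl⟩ := Finset.mem_image.1 hm.2
      exact Finset.mem_image.2 ⟨u, Finset.mem_filter.2 ⟨hu, hm.1⟩, rfl⟩
    have h2 := Finset.card_le_card h1
    have h3 : ((B.filter (fun u => ¬ f u = f v)).image f).card ≤ _ := Finset.card_image_le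
    have h4 := Finset.card_filter_add_card_filter_not (s := B) (fun u => f u = f v)
    rw [Finset.card_erase_of_mem (Finset.mem_image_of_mem f hv)] at h2
    omega
  have hdeg : ∀ v ∈ B, dg G B v + 1 ≤ (B.filter (fun u => f u = f v)).card := by
    intro v hv
    rw [dg_def]
    have h1 : insert v (B.filter (fun u => G.Adj v u)) ⊆ B.filter (fun u => f u = f v) := by
      intro u hu
      rw [Finset.mem_insert] at hu
      rcases hu with rfl | hu
      · exact Finset.mem_filter.2 ⟨hv, rfl⟩
      · rw [Finset.mem_filter] at hu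
        exact Finset.mem_filter.2 ⟨hu.1, (hf v hv u hu.1 hu.2).symm⟩
    have h2 := Finset.card_le_card h1
    rw [Finset.card_insert_of_notMem] at h2
    · exact h2
    · intro h
      exact G.loopless.irrefl v (Finset.mem_filter.1 h).2
  have he2B : e2 G B ≤ (B.card - q) * (B.card + 1 - q) := by
    -- group by classes
    have h1 : e2 G B ≤ ∑ v ∈ B, ((B.filter (fun u => f u = f v)).card - 1) := by
      unfold e2
      apply Finset.sum_le_sum
      intro v hv
      have := hdeg v hv
      omega
    have h2 : ∑ v ∈ B, ((B.filter (fun u => f u = f v)).card - 1) =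
        ∑ m ∈ B.image f, ∑ v ∈ B.filter (fun u => f u = m),
          ((B.filter (fun u => f u = f v)).card - 1) :=
      (Finset.sum_fiberwise_of_maps_to (fun v hv => Finset.mem_image_of_mem f hv) _).symm
    have h3 : ∀ m ∈ B.image f, ∑ v ∈ B.filter (fun u => f u = m),
          ((B.filter (fun u => f u = f v)).card - 1) ≤
          (B.card + 1 - q) * ((B.filter (fun u => f u = m)).card - 1) := by
      intro m hm
      obtain ⟨w, hw, rfl⟩ := Finset.mem_image.1 hm
      have h4 : ∑ v ∈ B.filter (fun u => f u = f w),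
          ((B.filter (fun u => f u = f v)).card - 1) =
          ∑ v ∈ B.filter (fun u => f u = f w),
          ((B.filter (fun u => f u = f w)).card - 1) := by
        apply Finset.sum_congr rfl
        intro v hv
        rw [(Finset.mem_filter.1 hv).2]
      rw [h4, Finset.sum_const, smul_eq_mul]
      apply Nat.mul_le_mul_right
      have := hclass w hw
      omega
    have h5 : ∑ m ∈ B.image f, ((B.filter (fun u => f u = m)).card - 1) = B.card - q := by
      have h6 : ∑ m ∈ B.image f, (B.filter (fun u => f u = m)).card = B.card :=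
        (Finset.card_eq_sum_card_fiberwise (fun v hv => Finset.mem_image_of_mem f hv)).symm
      have h7 : ∑ m ∈ B.image f, (((B.filter (fun u => f u = m)).card - 1) + 1) =
          ∑ m ∈ B.image f, (B.filter (fun u => f u = m)).card := by
        apply Finset.sum_congr rfl
        intro m hm
        obtain ⟨w, hw, rfl⟩ := Finset.mem_image.1 hm
        have : 0 < (B.filter (fun u => f u = f w)).card :=
          Finset.card_pos.2 ⟨w, Finset.mem_filter.2 ⟨hw, rfl⟩⟩
        omega
      rw [Finset.sum_add_distrib, Finset.sum_const, smul_eq_mul, mul_one, h6] at h7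
      omega
    calc e2 G B ≤ _ := h1
      _ = _ := h2
      _ ≤ ∑ m ∈ B.image f, (B.card + 1 - q) * ((B.filter (fun u => f u = m)).card - 1) :=
        Finset.sum_le_sum h3
      _ = (B.card - q) * (B.card + 1 - q) := by
        rw [← Finset.mul_sum, h5, mul_comm]
  have he2 : e2 G A ≤ e2 G B + 2 * (B.card * S.card) + S.card * (S.card - 1) := by
    rw [e2_sdiff G hS, ← hB]
    have h1 := eb_le G B S
    have h2 := e2_le G S
    omega
  have hsν : S.card ≤ ν := by omega
  have hEG : 2 * EG A.card ν = max (2 * ν * (2 * ν + 1)) (ν * (ν - 1) + 2 * ν * (A.card - ν)) := by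
    unfold EG
    rw [Nat.choose_two_right, Nat.choose_two_right]
    have h1 : (2 * ν + 1) * (2 * ν + 1 - 1) / 2 = ν * (2 * ν + 1) := by
      rw [Nat.add_sub_cancel]
      apply Nat.div_eq_of_eq_mul_left (by norm_num)
      ring
    have h2 : 2 * (ν * (ν - 1) / 2) = ν * (ν - 1) := by
      apply Nat.mul_div_cancel'
      rcases Nat.even_or_odd ν with h | h
      · exact dvd_mul_of_dvd_left h.two_dvd _
      · apply dvd_mul_of_dvd_right
        obtain ⟨c, hc⟩ := h
        exact ⟨c, by omega⟩
    rw [h1]
    have h3 : ∀ a b : ℕ, 2 * max a b = max (2 * a) (2 * b) := by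
      intro a b
      rcases le_total a b with h | h
      · rw [max_eq_right h, max_eq_right (by omega)]
      · rw [max_eq_left h, max_eq_left (by omega)]
    rw [h3]
    congr 1
    · ring
    · rw [Nat.mul_add 2 (ν * (ν - 1) / 2), h2]
      ring
  rw [hEG]
  -- the numerical part
  have hq1 : B.card - q ≤ 2 * (ν - S.card) := by omega
  have hA : A.card = B.card + S.card := hcard.symm
  obtain ⟨r, hr⟩ : ∃ r, ν = S.card + r := ⟨ν - S.card, by omega⟩
  obtain ⟨w, hw⟩ : ∃ w, A.card = 2 * ν + 1 + w := ⟨A.card - 2 * ν - 1, by omega⟩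
  have hb1 : (B.card - q) * (B.card + 1 - q) ≤ 2 * r * (2 * r + 1) :=
    Nat.mul_le_mul (by omega) (by omega)
  have htot : e2 G A ≤ 2 * r * (2 * r + 1) + 2 * (B.card * S.card) + S.card * (S.card - 1) := by
    omega
  have hBc : B.card = 2 * r + S.card + 1 + w := by omega
  have hAν : A.card - ν = r + S.card + 1 + w := by omega
  rw [hBc] at htot
  rw [hAν, hr]
  generalize S.card = s at *
  rcases Nat.eq_zero_or_pos s with hs0 | hs0
  · subst hs0
    refine htot.trans (le_trans (le_of_eq ?_) (le_max_left _ _))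
    simp
  obtain ⟨s', rfl⟩ : ∃ s', s = s' + 1 := ⟨s - 1, by omega⟩
  have e1 : s' + 1 - 1 = s' := by omega
  have e2' : s' + 1 + r - 1 = s' + r := by omega
  rw [e1] at htot
  rw [e2']
  rcases le_total (2 * w) (s' + 1 + 4 * r + 1) with hcase | hcase
  · refine htot.trans (le_trans ?_ (le_max_left _ _))
    nlinarith [Nat.mul_le_mul_left (s' + 1) hcase]
  · refine htot.trans (le_trans ?_ (le_max_right _ _))
    nlinarith [Nat.mul_le_mul_left r hcase]

end Pool.Agent.ART
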