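import Pool.Agent.ART.J1
import Pool.Agent.ART.J2
import Pool.Agent.ART.J3
import Pool.Agent.ART.J4
import Pool.Agent.ART.J5
import Pool.Agent.ART.J6
import Pool.Agent.ART.J7
import Pool.Agent.ART.J9
import Pool.Agent.ART.J11
import Pool.Agent.ART.J12
import Pool.Agent.ART.J13
import Pool.Agent.ART.J14
import Pool.Agent.ART.J16
import Pool.Agent.ART.J17
import Pool.Agent.ART.J18
import Pool.Agent.ART.J19
import Pool.Agent.ART.J21
import Pool.Agent.ART.J22a
import Pool.Agent.ART.J22b
import Pool.Agent.ART.J23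
import Pool.Agent.ART.J24a
import Pool.Agent.ART.J24b
import Pool.Agent.ART.J24c
import Pool.Agent.ART.J25
import Pool.Agent.ART.J26
import Pool.Agent.ART.J27
import Pool.Agent.ART.J28
import Pool.Agent.ART.Cases

set_option autoImplicit false

/-! Anti-Ramsey numbers of vertex-disjoint triangles (MP_e56f3d_co): the main theorem. -/

namespace Pool.Agent.ART

theorem main : tMain := by
  have h1 : tLexEx := pLexEx
  have h2 : tLexFacts := pLexFacts
  have hCore : tCore := pCore h2
  have hB : tLemB := pLemB h1 h2 hCore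
  have hE : tLemE := pLemE
  have hE' : tLemE' := pLemE'
  have h4 : tPhi := pPhi
  have hA : tClaimA := pClaimA h4 hB hE
  have hDel : tDel := pDel h4 hA
  have hW : tWCH := pWCH h1 h2
  have hPM : tPMat := pPMat
  have hTB : tTB := pTB
  have hEG : tEG := pEG hTB
  have hTI : tTileI := pTileI
  have hL3 : tL3 := pL3 h1 h2 hCore
  have hStab : tStab := pStab h4 hDel pSmallK (pCaseS h1 h2 hCore) (pCaseU hTB) (pZone hW) hL3
    (pRidge1 h1 h2 hCore hL3) (pRidge2 h1 h2 hCore)
  have hRE : tRepE := pRepE
  have hSw : tSwM := pSwM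
  have hSt : tStar := pStar
  have hi : tDIi := pDIi hEG hTI hRE hSw hSt
  have hii : tDIii := pDIii (pRob hPM hTI) hRE hSw hSt
  have hS4 : tS4 := pS4 hE hE' hW
  have hF : tForest := pForest
  have hCov : tCover := pCover hRE
  have ha : tD4a := pD4a hRE hSw hF hCov
  have hb : tD4b := pD4b hRE hSw hF hCov hE ha
  have hc : tD4c := pD4c hRE hCov hE
  have hU : tUpper := pUpper h4 hStab pRepEx hRE pPart hi hii hS4 ha hb hc pNumA pNumB pNumC
    hSw hCov
  exact pFinal hU pLower

end Pool.Agent.ART
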