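import Pool.Agent.ART.Defs

set_option autoImplicit false

/-! Anti-Ramsey numbers of vertex-disjoint triangles (MP_e56f3d_co): at the breakpoints the
neighbouring expressions agree, so the five cases may overlap. -/

namespace Pool.Agent.ART

open Finset

lemma ch2 (a : ℕ) : 2 * ((a.choose 2 : ℕ) : ℤ) = a * (a - 1) := by
  have h : (a.choose 2 : ℚ) = a * (a - 1) / 2 := Nat.cast_choose_two ℚ a
  have h2 : (2 : ℚ) * (a.choose 2 : ℚ) = a * (a - 1) := by rw [h]; ring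
  exact_mod_cast h2

lemma tie1 {n t : ℕ} (h : (t : ℝ) = a1 n) : X1 n t = X2 n t := by
  unfold a1 at h
  have h1 : 2 * n = 9 * t + 6 := by
    have : (2 : ℝ) * n = 9 * t + 6 := by linarith
    exact_mod_cast this
  obtain ⟨s, rfl⟩ : ∃ s, t = 2 * s := ⟨t / 2, by omega⟩
  obtain rfl : n = 9 * s + 3 := by omega
  unfold X1 X2
  have e1 : 9 * s + 3 - 2 * s = 7 * s + 3 := by omega
  rw [e1]
  have c1 := ch2 (2 * s)
  have c2 := ch2 (2 * (2 * s) + 1)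
  rcases Nat.even_or_odd' s with ⟨r, rfl | rfl⟩
  · have f1 : (7 * (2 * r) + 3) ^ 2 / 4 = 49 * r ^ 2 + 21 * r + 2 := by
      have : (7 * (2 * r) + 3) ^ 2 = 4 * (49 * r ^ 2 + 21 * r + 2) + 1 := by ring
      omega
    have f2 : (9 * (2 * r) + 3) ^ 2 / 4 = 81 * r ^ 2 + 27 * r + 2 := by
      have : (9 * (2 * r) + 3) ^ 2 = 4 * (81 * r ^ 2 + 27 * r + 2) + 1 := by ring
      omega
    rw [f1, f2]
    zify
    push_cast at c1 c2
    nlinarith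
  · have f1 : (7 * (2 * r + 1) + 3) ^ 2 / 4 = 49 * r ^ 2 + 70 * r + 25 := by
      have : (7 * (2 * r + 1) + 3) ^ 2 = 4 * (49 * r ^ 2 + 70 * r + 25) := by ring
      omega
    have f2 : (9 * (2 * r + 1) + 3) ^ 2 / 4 = 81 * r ^ 2 + 108 * r + 36 := by
      have : (9 * (2 * r + 1) + 3) ^ 2 = 4 * (81 * r ^ 2 + 108 * r + 36) := by ring
      omega
    rw [f1, f2]
    zify
    push_cast at c1 c2
    nlinarith

lemma tie2 {n t : ℕ} (ht : 3 * t + 6 ≤ n) (h : (t : ℝ) = a2 n) : X2 n t = X3 n t := by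
  unfold a2 at h
  have hn : (6 : ℝ) ≤ n := by exact_mod_cast (by omega : 6 ≤ n)
  have hs : √(2 * (n : ℝ) - 3) ^ 2 = 2 * n - 3 := Real.sq_sqrt (by linarith)
  have h1 : √(2 * (n : ℝ) - 3) = n - 4 * t - 3 := by linarith
  rw [h1] at hs
  have hz : ((n : ℤ) - 4 * t - 3) ^ 2 = 2 * n - 3 := by exact_mod_cast hs
  unfold X2 X3
  have c1 := ch2 (2 * t + 1)
  push_cast at c1
  obtain ⟨a, rfl⟩ : ∃ a, n = 2 * t + 2 + a := ⟨n - (2 * t + 2), by omega⟩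
  have e1 : 2 * t + 2 + a - 2 * t - 2 = a := by omega
  rw [e1]
  have hdiv := Nat.div_add_mod ((2 * t + 2 + a) ^ 2) 4
  set q := (2 * t + 2 + a) ^ 2 / 4 with hq
  have hr4 : (2 * t + 2 + a) ^ 2 % 4 < 4 := Nat.mod_lt _ (by norm_num)
  set r := (2 * t + 2 + a) ^ 2 % 4 with hr
  have hr1 : r = 0 ∨ r = 1 := by
    rcases Nat.even_or_odd' (2 * t + 2 + a) with ⟨b, hb | hb⟩
    · left
      rw [hr, hb]
      have : (2 * b) ^ 2 = 4 * b ^ 2 := by ring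
      omega
    · right
      rw [hr, hb]
      have : (2 * b + 1) ^ 2 = 4 * (b ^ 2 + b) + 1 := by ring
      omega
  have hdz : 4 * (q : ℤ) + r = (2 * t + 2 + a) ^ 2 := by exact_mod_cast hdiv
  have key : 4 * (((2 * t + 1).choose 2 : ℕ) : ℤ) + 4 * q + r =
      4 * ((t + 1) * (2 * t + 1) + (2 * t + 2) * a) := by
    push_cast at hz
    nlinarith
  have key2 : 4 * ((2 * t + 1).choose 2) + 4 * q + r =
      4 * ((t + 1) * (2 * t + 1) + (2 * t + 2) * a) := by exact_mod_cast key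
  omega

lemma tie3 {n t : ℕ} (ht : 3 * t + 6 ≤ n) (h : (t : ℝ) = a3 n) : X3 n t = X4 n t := by
  unfold a3 at h
  have hn : (6 : ℝ) ≤ n := by exact_mod_cast (by omega : 6 ≤ n)
  have hnn : (0 : ℝ) ≤ 3 * (n : ℝ) ^ 2 - 2 * n + 4 := by nlinarith
  have hs : √(3 * (n : ℝ) ^ 2 - 2 * n + 4) ^ 2 = 3 * (n : ℝ) ^ 2 - 2 * n + 4 := Real.sq_sqrt hnn
  have h1 : √(3 * (n : ℝ) ^ 2 - 2 * n + 4) = 22 * t + 20 - 5 * n := by linarith
  have h0 : 0 ≤ √(3 * (n : ℝ) ^ 2 - 2 * n + 4) := Real.sqrt_nonneg _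
  rw [h1] at hs h0
  have hz : (22 * (t : ℤ) + 20 - 5 * n) ^ 2 = 3 * n ^ 2 - 2 * n + 4 := by exact_mod_cast hs
  have h0z : (0 : ℤ) ≤ 22 * (t : ℤ) + 20 - 5 * n := by exact_mod_cast h0
  have h6 : n ≤ 6 * t + 6 := by omega
  unfold X3 X4
  have c1 := ch2 (6 * t + 6 - n)
  have e1 : ((6 * t + 6 - n : ℕ) : ℤ) = 6 * t + 6 - n := by
    rw [Nat.cast_sub h6]; push_cast; ring
  rw [e1] at c1
  obtain ⟨a, rfl⟩ : ∃ a, n = 3 * t + 3 + a := ⟨n - (3 * t + 3), by omega⟩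
  have e2 : 3 * t + 3 + a - 3 * t - 3 = a := by omega
  have e3 : 3 * t + 3 + a - 2 * t - 2 = t + 1 + a := by omega
  rw [e2, e3]
  zify
  push_cast at c1 hz
  nlinarith

lemma tie4 {n t : ℕ} (hn100 : 100 ≤ n) (ht : 3 * t + 6 ≤ n) (h : (t : ℝ) = a4 n) :
    X4 n t = X5 n t := by
  unfold a4 at h
  have hn : (100 : ℝ) ≤ n := by exact_mod_cast hn100
  have hs : √(16 * (n : ℝ) - 7) ^ 2 = 16 * n - 7 := Real.sq_sqrt (by linarith)
  have h1 : √(16 * (n : ℝ) - 7) = 2 * n - 3 - 6 * t := by linarith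
  have h0 : 0 ≤ √(16 * (n : ℝ) - 7) := Real.sqrt_nonneg _
  rw [h1] at hs h0
  have hz : (2 * (n : ℤ) - 3 - 6 * t) ^ 2 = 16 * n - 7 := by exact_mod_cast hs
  unfold X4 X5
  obtain ⟨a, rfl⟩ : ∃ a, n = 3 * t + 6 + a := ⟨n - (3 * t + 6), by omega⟩
  push_cast at hz
  have hat : a ≤ 3 * t := by
    by_contra hcon
    push Not at hcon
    have h3 : (3 * (t : ℤ) + 1) ≤ a := by exact_mod_cast hcon
    have h4 : (94 : ℤ) ≤ 3 * t + a := by exact_mod_cast (by omega : 94 ≤ 3 * t + a)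
    nlinarith
  have c1 := ch2 (6 * t + 6 - (3 * t + 6 + a))
  have e0 : 6 * t + 6 - (3 * t + 6 + a) = 3 * t - a := by omega
  rw [e0] at c1 ⊢
  have e1 : ((3 * t - a : ℕ) : ℤ) = 3 * t - a := by
    rw [Nat.cast_sub hat]; push_cast; ring
  rw [e1] at c1
  have e2 : 3 * t + 6 + a - 3 * t - 3 = a + 3 := by omega
  have e3 : 3 * t + 6 + a - 3 * t - 6 = a := by omega
  rw [e2, e3]
  have c2 := ch2 (3 * t + 5)
  push_cast at c2
  zify
  nlinarith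

end Pool.Agent.ART
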